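import Pool.Agent.P.MP_7f9008_an.Topo
import Pool.Agent.Lib.Mergelyan.Main

/-! Holomorphic logarithms on bounded domains with connected complement. -/

open Set Metric Filter Topology

noncomputable section
namespace Pool.Agent.P.MP_7f9008_an
namespace RMT

theorem log_unique {X : Set ℂ} (hX : IsPreconnected X) {l m : ℂ → ℂ} (hl : ContinuousOn l X)
    (hm : ContinuousOn m X) (he : ∀ z ∈ X, Complex.exp (l z) = Complex.exp (m z)) {a : ℂ}
    (ha : a ∈ X) (h : l a = m a) : EqOn l m X :=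
  Complex.isCoveringMap_exp.eqOn_of_comp_eqOn hX hl hm (fun z hz => Subtype.ext (he z hz)) ha h

theorem hasLog_mul {S : Set ℂ} {f g : ℂ → ℂ} (hf : HasLog S f) (hg : HasLog S g) :
    HasLog S fun z => f z * g z := by
  obtain ⟨l, hl, hl'⟩ := hf
  obtain ⟨m, hm, hm'⟩ := hg
  exact ⟨fun z => l z + m z, hl.add hm, fun z hz => by rw [Complex.exp_add, hl' z hz, hm' z hz]⟩

theorem hasLog_congr {S : Set ℂ} {f g : ℂ → ℂ} (hf : HasLog S f) (h : ∀ z ∈ S, f z = g z) :
    HasLog S g := by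
  obtain ⟨l, hl, hl'⟩ := hf
  exact ⟨l, hl, fun z hz => (hl' z hz).trans (h z hz)⟩

theorem hasLog_mono {S T : Set ℂ} {f : ℂ → ℂ} (hf : HasLog T f) (h : S ⊆ T) : HasLog S f := by
  obtain ⟨l, hl, hl'⟩ := hf
  exact ⟨l, hl.mono h, fun z hz => hl' z (h hz)⟩

theorem hasLog_const (S : Set ℂ) {c : ℂ} (hc : c ≠ 0) : HasLog S fun _ => c :=
  ⟨fun _ => Complex.log c, continuousOn_const, fun _ _ => Complex.exp_log hc⟩

theorem hasLog_near_one {S : Set ℂ} {f : ℂ → ℂ} (hf : ContinuousOn f S)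
    (h : ∀ z ∈ S, ‖f z - 1‖ < 1) : HasLog S f := by
  have hs : ∀ z ∈ S, f z ∈ Complex.slitPlane := fun z hz => by
    have := Complex.mem_slitPlane_of_norm_lt_one (h z hz)
    simpa using this
  exact ⟨fun z => Complex.log (f z), hf.clog hs,
    fun z hz => Complex.exp_log (Complex.slitPlane_ne_zero (hs z hz))⟩

theorem hasLog_sub {Y : Set ℂ} (hY : IsCompact Y) (hc : IsPreconnected Yᶜ) {a : ℂ} (ha : a ∉ Y) :
    HasLog Y fun z => z - a := by
  obtain ⟨R, hR0, hR⟩ := hY.isBounded.subset_ball_lt 0 0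
  have hb : (R : ℂ) ∉ Y := fun h => by
    have := hR h
    simp [abs_of_pos hR0] at this
  have hR' : (R : ℂ) ≠ 0 := by exact_mod_cast hR0.ne'
  have h1 := hasLog_of_preconn hY hc disjoint_compl_left ha hb
  have h2 : HasLog Y fun z => 1 - z / R := by
    refine hasLog_near_one (by fun_prop) fun z hz => ?_
    have := hR hz
    rw [mem_ball_zero_iff] at this
    rw [sub_sub_cancel_left, norm_neg, norm_div, Complex.norm_real, Real.norm_of_nonneg hR0.le,
      div_lt_one hR0]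
    exact this
  refine hasLog_congr (hasLog_mul h1 (hasLog_mul (hasLog_const Y (neg_ne_zero.mpr hR')) h2))
    fun z hz => ?_
  have : z - R ≠ 0 := sub_ne_zero.mpr fun h => hb (h ▸ hz)
  field_simp
  ring

theorem hasLog_poly {Y : Set ℂ} (hY : IsCompact Y) (hc : IsPreconnected Yᶜ) (p : Polynomial ℂ)
    (hp : ∀ z ∈ Y, p.eval z ≠ 0) : HasLog Y fun z => p.eval z := by
  rcases Y.eq_empty_or_nonempty with rfl | ⟨y, hy⟩
  · exact ⟨fun _ => 0, continuousOn_const, fun z hz => hz.elim⟩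
  have hp0 : p ≠ 0 := by
    rintro rfl
    exact hp y hy (by simp)
  have key : ∀ s : Multiset ℂ, (∀ a ∈ s, a ∉ Y) →
      HasLog Y fun z => (s.map fun a => z - a).prod := by
    intro s
    induction s using Multiset.induction_on with
    | empty => exact fun _ => by simpa using hasLog_const Y one_ne_zero
    | cons a s ih =>
      intro h
      simp only [Multiset.map_cons, Multiset.prod_cons]
      exact hasLog_mul (hasLog_sub hY hc (h a (Multiset.mem_cons_self a s)))
        (ih fun b hb => h b (Multiset.mem_cons_of_mem hb))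
  have h1 := key p.roots fun a ha hY' => hp a hY' ((Polynomial.mem_roots hp0).mp ha)
  refine hasLog_congr
    (hasLog_mul (hasLog_const Y (Polynomial.leadingCoeff_ne_zero.mpr hp0)) h1) fun z _ => ?_
  conv_rhs => rw [(IsAlgClosed.splits p).eq_prod_roots]
  simp [Polynomial.eval_multiset_prod]

variable {U : Set ℂ}

theorem exists_fill (hb : Bornology.IsBounded U) (hc' : IsPreconnected Uᶜ)
    {X : Set ℂ} (hX : IsCompact X) (hXU : X ⊆ U) :
    ∃ Y, IsCompact Y ∧ X ⊆ Y ∧ Y ⊆ U ∧ IsPreconnected Yᶜ := by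
  obtain ⟨p, hp⟩ : ∃ p, p ∉ U := by
    by_contra h
    push Not at h
    exact NormedSpace.unbounded_univ ℂ ℂ (by rwa [← eq_univ_iff_forall.mpr h])
  have h1 : Uᶜ ⊆ connectedComponentIn Xᶜ p :=
    hc'.subset_connectedComponentIn hp (compl_subset_compl.mpr hXU)
  have h2 : (connectedComponentIn Xᶜ p)ᶜ ⊆ U := compl_subset_comm.mp h1
  refine ⟨(connectedComponentIn Xᶜ p)ᶜ, ?_, ?_, h2, ?_⟩
  · exact isCompact_of_isClosed_isBounded
      (hX.isClosed.isOpen_compl.connectedComponentIn).isClosed_compl (hb.subset h2)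
  · exact subset_compl_comm.mp (connectedComponentIn_subset _ _)
  · rw [compl_compl]
    exact isPreconnected_connectedComponentIn

theorem hasLog_compact (hb : Bornology.IsBounded U) (hc' : IsPreconnected Uᶜ)
    {h : ℂ → ℂ} (hd : DifferentiableOn ℂ h U) (h0 : ∀ z ∈ U, h z ≠ 0)
    {X : Set ℂ} (hX : IsCompact X) (hXU : X ⊆ U) : HasLog X h := by
  obtain ⟨Y, hY, hXY, hYU, hYc⟩ := exists_fill hb hc' hX hXU
  refine hasLog_mono ?_ hXY
  rcases Y.eq_empty_or_nonempty with rfl | hne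
  · exact ⟨fun _ => 0, continuousOn_const, fun z hz => hz.elim⟩
  have hcont : ContinuousOn h Y := hd.continuousOn.mono hYU
  obtain ⟨y, hy, hmin⟩ := hY.exists_isMinOn hne hcont.norm
  have hm : 0 < ‖h y‖ := norm_pos_iff.mpr (h0 y (hYU hy))
  obtain ⟨p, hp⟩ := Pool.Agent.Lib.Mergelyan.mergelyan hY hYc hcont
    (hd.mono (interior_subset.trans hYU)) (‖h y‖ / 3) (by positivity)
  have hp1 : ∀ z ∈ Y, 2 * (‖h y‖ / 3) ≤ ‖p.eval z‖ := by
    intro z hz
    have h1 : ‖h y‖ ≤ ‖h z‖ := hmin hz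
    have h2 := hp z hz
    have h3 := norm_sub_norm_le (h z) (p.eval z)
    linarith
  have hp0 : ∀ z ∈ Y, p.eval z ≠ 0 := fun z hz =>
    norm_pos_iff.mp (lt_of_lt_of_le (by positivity) (hp1 z hz))
  have h2 : HasLog Y fun z => h z / p.eval z := by
    refine hasLog_near_one (hcont.div p.continuous.continuousOn hp0) fun z hz => ?_
    rw [div_sub_one (hp0 z hz), norm_div, div_lt_one (norm_pos_iff.mpr (hp0 z hz))]
    have := hp z hz
    have := hp1 z hz
    linarith
  refine hasLog_congr (hasLog_mul (hasLog_poly hY hYc p hp0) h2) fun z hz => ?_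
  have := hp0 z hz
  field_simp

theorem hasLog_open (hU : IsOpen U) (hc : IsPreconnected U) {h : ℂ → ℂ}
    (hX : ∀ X, IsCompact X → X ⊆ U → HasLog X h) {z₀ : ℂ} (hz : z₀ ∈ U) : HasLog U h := by
  have hpc : IsPathConnected U := hU.isConnected_iff_isPathConnected.mp ⟨⟨z₀, hz⟩, hc⟩
  obtain ⟨l₀, -, hl₀⟩ := hX {z₀} isCompact_singleton (singleton_subset_iff.mpr hz)
  have h00 : Complex.exp (l₀ z₀) = h z₀ := hl₀ z₀ rfl
  have hnorm : ∀ X, IsCompact X → X ⊆ U → z₀ ∈ X → ∃ l : ℂ → ℂ, ContinuousOn l X ∧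
      (∀ z ∈ X, Complex.exp (l z) = h z) ∧ l z₀ = l₀ z₀ := by
    intro X hXc hXU hz0
    obtain ⟨l, hl, hl'⟩ := hX X hXc hXU
    refine ⟨fun z => l z - l z₀ + l₀ z₀, by fun_prop, fun z hz => ?_, by simp⟩
    have : h z₀ ≠ 0 := h00 ▸ Complex.exp_ne_zero _
    rw [Complex.exp_add, Complex.exp_sub, hl' z hz, hl' z₀ hz0, h00]
    field_simp
  have hpath : ∀ z ∈ U, ∃ X, IsCompact X ∧ IsPreconnected X ∧ X ⊆ U ∧ z₀ ∈ X ∧ z ∈ X := by
    intro z hzU
    obtain ⟨γ, hγ⟩ := hpc.joinedIn z₀ hz z hzU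
    exact ⟨range γ, isCompact_range γ.continuous, isPreconnected_range γ.continuous,
      range_subset_iff.mpr hγ, γ.source_mem_range, γ.target_mem_range⟩
  choose! X hXc hXp hXU hX0 hXz using hpath
  have hl : ∀ z ∈ U, ∃ l : ℂ → ℂ, ContinuousOn l (X z) ∧
      (∀ w ∈ X z, Complex.exp (l w) = h w) ∧ l z₀ = l₀ z₀ :=
    fun z hzU => hnorm (X z) (hXc z hzU) (hXU z hzU) (hX0 z hzU)
  choose! l hl1 hl2 hl3 using hl
  refine ⟨fun z => l z z, fun z hzU => ?_, fun z hzU => hl2 z hzU z (hXz z hzU)⟩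
  obtain ⟨r, hr, hrU⟩ := nhds_basis_closedBall.mem_iff.mp (hU.mem_nhds hzU)
  have hKc : IsCompact (X z ∪ closedBall z r) := (hXc z hzU).union (isCompact_closedBall z r)
  have hKp : IsPreconnected (X z ∪ closedBall z r) :=
    (hXp z hzU).union z (hXz z hzU) (mem_closedBall_self hr.le)
      (convex_closedBall z r).isPreconnected
  have hKU : X z ∪ closedBall z r ⊆ U := union_subset (hXU z hzU) hrU
  obtain ⟨m, hm1, hm2, hm3⟩ := hnorm _ hKc hKU (Or.inl (hX0 z hzU))
  have heq : ∀ w ∈ closedBall z r, l w w = m w := by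
    intro w hw
    have hwU := hrU hw
    obtain ⟨n, hn1, hn2, hn3⟩ := hnorm _ (hKc.union (hXc w hwU)) (union_subset hKU (hXU w hwU))
      (Or.inr (hX0 w hwU))
    have e1 : EqOn m n (X z ∪ closedBall z r) :=
      log_unique hKp hm1 (hn1.mono subset_union_left)
        (fun x hx => (hm2 x hx).trans (hn2 x (Or.inl hx)).symm) (Or.inl (hX0 z hzU))
        (hm3.trans hn3.symm)
    have e2 : EqOn (l w) n (X w) :=
      log_unique (hXp w hwU) (hl1 w hwU) (hn1.mono subset_union_right)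
        (fun x hx => (hl2 w hwU x hx).trans (hn2 x (Or.inr hx)).symm) (hX0 w hwU)
        ((hl3 w hwU).trans hn3.symm)
    rw [e2 (hXz w hwU), e1 (Or.inr hw)]
  have hmz : ContinuousAt m z :=
    (hm1.mono subset_union_right).continuousAt (closedBall_mem_nhds z hr)
  refine (hmz.congr ?_).continuousWithinAt
  filter_upwards [closedBall_mem_nhds z hr] with w hw using (heq w hw).symm

theorem differentiableOn_log (hU : IsOpen U) {h l : ℂ → ℂ} (hd : DifferentiableOn ℂ h U)
    (hl : ContinuousOn l U) (he : ∀ z ∈ U, Complex.exp (l z) = h z) :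
    DifferentiableOn ℂ l U := by
  intro z hz
  have hz0 : h z ≠ 0 := he z hz ▸ Complex.exp_ne_zero _
  have hda : DifferentiableAt ℂ h z := hd.differentiableAt (hU.mem_nhds hz)
  have h1 : ∀ᶠ w in 𝓝 z, w ∈ U ∧ h w / h z ∈ Complex.slitPlane := by
    refine Filter.Eventually.and (hU.mem_nhds hz) ?_
    refine (hda.continuousAt.div_const (h z)).eventually (Complex.isOpen_slitPlane.mem_nhds ?_)
    simp [hz0]
  obtain ⟨r, hr, hrU⟩ := nhds_basis_ball.eventually_iff.mp h1
  have hB : ball z r ⊆ U := fun w hw => (hrU hw).1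
  have e : EqOn l (fun w => l z + Complex.log (h w / h z)) (ball z r) := by
    refine log_unique (convex_ball z r).isPreconnected (hl.mono hB) ?_ (fun w hw => ?_)
      (mem_ball_self hr) (by simp [hz0])
    · exact continuousOn_const.add
        (((hd.continuousOn.mono hB).div_const _).clog fun w hw => (hrU hw).2)
    · rw [Complex.exp_add, Complex.exp_log (Complex.slitPlane_ne_zero (hrU hw).2), he z hz,
        he w (hB hw)]
      field_simp
  have h2 : DifferentiableAt ℂ (fun w => l z + Complex.log (h w / h z)) z :=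
    ((hda.div_const _).clog (by simp [hz0])).const_add _
  refine (h2.congr_of_eventuallyEq ?_).differentiableWithinAt
  filter_upwards [ball_mem_nhds z hr] with w hw using e hw

/-- Holomorphic square roots. -/
theorem exists_sqrt (hU : IsOpen U) (hc : IsPreconnected U) (hb : Bornology.IsBounded U)
    (hc' : IsPreconnected Uᶜ) {z₀ : ℂ} (hz : z₀ ∈ U) {h : ℂ → ℂ} (hd : DifferentiableOn ℂ h U)
    (h0 : ∀ z ∈ U, h z ≠ 0) : ∃ s : ℂ → ℂ, DifferentiableOn ℂ s U ∧ ∀ z ∈ U, s z ^ 2 = h z := by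
  obtain ⟨l, hl, he⟩ := hasLog_open hU hc (fun X hX hXU => hasLog_compact hb hc' hd h0 hX hXU) hz
  refine ⟨fun z => Complex.exp (l z / 2), ((differentiableOn_log hU hd hl he).div_const 2).cexp,
    fun z hz => ?_⟩
  rw [← Complex.exp_nat_mul, ← he z hz]
  congr 1
  push_cast
  ring

end RMT
end Pool.Agent.P.MP_7f9008_an
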