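import Pool.Agent.P.MP_7f9008_an.Topo
import Pool.Agent.Lib.Mergelyan.Main
import Pool.Agent.P.MP_7f9008_an.RMTA

/-! The Riemann mapping theorem for bounded domains with connected complement. -/

open Set Metric Filter Topology

noncomputable section
namespace Pool.Agent.P.MP_7f9008_an
namespace RMT

theorem hurwitz {ι : Type*} {l : Filter ι} [l.NeBot] {W : Set ℂ} (hW : IsOpen W)
    {G : ι → ℂ → ℂ} {g : ℂ → ℂ} (hG : ∀ i, DifferentiableOn ℂ (G i) W)
    (h0 : ∀ i, ∀ z ∈ W, G i z ≠ 0) (hlim : TendstoLocallyUniformlyOn G g l W) {z : ℂ}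
    (hz : z ∈ W) (hne : ¬ ∀ᶠ w in 𝓝 z, g w = 0) : g z ≠ 0 := by
  intro hgz
  have hg : DifferentiableOn ℂ g W := hlim.differentiableOn (.of_forall hG) hW
  have ha : AnalyticAt ℂ g z := hg.analyticAt (hW.mem_nhds hz)
  have h1 : ∀ᶠ w in 𝓝[≠] z, g w ≠ 0 := ha.eventually_eq_zero_or_eventually_ne_zero.resolve_left hne
  rw [eventually_nhdsWithin_iff] at h1
  obtain ⟨r, hr, hrW⟩ := nhds_basis_closedBall.eventually_iff.mp
    (h1.and (hW.mem_nhds hz : ∀ᶠ w in 𝓝 z, w ∈ W))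
  have hBW : closedBall z r ⊆ W := fun w hw => (hrW hw).2
  have hSB : sphere z r ⊆ closedBall z r := sphere_subset_closedBall
  obtain ⟨y, hy, hmin⟩ := (isCompact_sphere z r).exists_isMinOn
    (NormedSpace.sphere_nonempty.mpr hr.le) (hg.continuousOn.mono (hSB.trans hBW)).norm
  have hm : 0 < ‖g y‖ := by
    refine norm_pos_iff.mpr ((hrW (hSB hy)).1 ?_)
    exact ne_of_mem_sphere hy hr.ne'
  have hu : TendstoUniformlyOn G g l (closedBall z r) :=
    (tendstoLocallyUniformlyOn_iff_forall_isCompact hW).mp hlim _ hBW (isCompact_closedBall z r)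
  obtain ⟨i, hi⟩ := (Metric.tendstoUniformlyOn_iff.mp hu (‖g y‖ / 2) (by positivity)).exists
  have hd : DiffContOnCl ℂ (fun w => (G i w)⁻¹) (ball z r) := by
    refine DifferentiableOn.diffContOnCl ?_
    rw [closure_ball z hr.ne']
    exact ((hG i).mono hBW).inv fun w hw => h0 i w (hBW hw)
  have h2 := Complex.norm_le_of_forall_mem_frontier_norm_le isBounded_ball hd
    (C := (‖g y‖ / 2)⁻¹) (fun w hw => by
      rw [frontier_ball z hr.ne'] at hw
      rw [norm_inv]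
      refine inv_anti₀ (by positivity) ?_
      have h3 : ‖g y‖ ≤ ‖g w‖ := hmin hw
      have h4 := hi w (hSB hw)
      rw [dist_eq_norm] at h4
      have h5 := norm_sub_norm_le (g w) (G i w)
      linarith) (subset_closure (mem_ball_self hr))
  have h3 := hi z (mem_closedBall_self hr.le)
  rw [hgz, dist_zero_left] at h3
  rw [norm_inv, inv_le_inv₀ (norm_pos_iff.mpr (h0 i z hz)) (by positivity)] at h2
  linarith

variable {U : Set ℂ}

theorem montel (hU : IsOpen U) (F : ℕ → ℂ → ℂ) (hd : ∀ n, DifferentiableOn ℂ (F n) U)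
    (hm : ∀ n, MapsTo (F n) U (ball 0 1)) :
    ∃ f : ℂ → ℂ, TendstoLocallyUniformlyOn F f (hyperfilter ℕ) U := by
  have h1 : ∀ z ∈ U, ∃ w, Tendsto (fun n => F n z) (hyperfilter ℕ) (𝓝 w) := by
    intro z hz
    obtain ⟨w, -, hw⟩ := (isCompact_closedBall (0 : ℂ) 1).ultrafilter_le_nhds
      ((hyperfilter ℕ).map fun n => F n z) (by
        rw [Ultrafilter.coe_map, le_principal_iff, mem_map]
        exact Eventually.of_forall fun n => ball_subset_closedBall (hm n hz))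
    exact ⟨w, hw⟩
  choose! f hf using h1
  refine ⟨f, Metric.tendstoLocallyUniformlyOn_iff.mpr fun ε hε x hx => ?_⟩
  obtain ⟨R, hR, hRU⟩ := Metric.isOpen_iff.mp hU x hx
  have hlip : ∀ n, ∀ y ∈ ball x R, dist (F n y) (F n x) ≤ 2 / R * dist y x := by
    intro n y hy
    refine Complex.dist_le_div_mul_dist_of_mapsTo_ball ((hd n).mono hRU) (fun w hw => ?_) hy
    have h1 := mem_ball_zero_iff.mp (hm n (hRU hw))
    have h2 := mem_ball_zero_iff.mp (hm n hx)
    rw [mem_closedBall, dist_eq_norm]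
    linarith [norm_sub_le (F n w) (F n x)]
  have hlip' : ∀ y ∈ ball x R, dist (f y) (f x) ≤ 2 / R * dist y x := fun y hy =>
    le_of_tendsto' ((hf y (hRU hy)).dist (hf x hx)) fun n => hlip n y hy
  refine ⟨ball x (min R (ε * R / 8)), mem_nhdsWithin_of_mem_nhds
    (ball_mem_nhds x (by positivity)), ?_⟩
  filter_upwards [Metric.tendsto_nhds.mp (hf x hx) (ε / 4) (by positivity)] with n hn y hy
  rw [mem_ball, lt_min_iff] at hy
  have h2 : 2 / R * dist y x ≤ ε / 4 := by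
    calc 2 / R * dist y x ≤ 2 / R * (ε * R / 8) := by gcongr; exact hy.2.le
      _ = ε / 4 := by field_simp; norm_num
  have h3 := hlip n y hy.1
  have h4 := hlip' y hy.1
  have h5 := dist_triangle4 (f y) (f x) (F n x) (F n y)
  rw [dist_comm (f x), dist_comm (F n x) (F n y)] at h5
  linarith

/-- The extremal family. -/
structure Fam (U : Set ℂ) (z₀ : ℂ) (F : ℂ → ℂ) : Prop where
  diff : DifferentiableOn ℂ F U
  maps : MapsTo F U (ball 0 1)
  inj : InjOn F U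
  zero : F z₀ = 0
  der : ∀ z ∈ U, deriv F z ≠ 0

theorem exists_extremal (hU : IsOpen U) (hc : IsPreconnected U) (hb : Bornology.IsBounded U)
    {z₀ : ℂ} (hz : z₀ ∈ U) :
    ∃ f, Fam U z₀ f ∧ ∀ F, Fam U z₀ F → ‖deriv F z₀‖ ≤ ‖deriv f z₀‖ := by
  obtain ⟨R, hR, hRU⟩ := hb.subset_ball_lt 0 z₀
  have hR' : (R : ℂ) ≠ 0 := by exact_mod_cast hR.ne'
  have hF0 : Fam U z₀ fun z => (z - z₀) / R := by
    refine ⟨by fun_prop, fun z hzU => ?_, fun z _ w _ h => ?_, by simp, fun z _ => ?_⟩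
    · have := hRU hzU
      rw [mem_ball, dist_eq_norm] at this
      rw [mem_ball_zero_iff, norm_div, Complex.norm_real, Real.norm_of_nonneg hR.le,
        div_lt_one hR]
      exact this
    · simpa [hR'] using h
    · simp [hR']
  obtain ⟨r, hr, hrU⟩ := Metric.isOpen_iff.mp hU z₀ hz
  let S : Set ℝ := {t | ∃ F, Fam U z₀ F ∧ ‖deriv F z₀‖ = t}
  have hSne : S.Nonempty := ⟨_, _, hF0, rfl⟩
  have hSb : BddAbove S := by
    refine ⟨1 / r, ?_⟩
    rintro _ ⟨F, hF, rfl⟩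
    refine Complex.norm_deriv_le_div_of_mapsTo_ball (hF.diff.mono hrU) (fun w hw => ?_) hr
    rw [hF.zero]
    exact ball_subset_closedBall (hF.maps (hrU hw))
  obtain ⟨u, -, hu, huS⟩ := exists_seq_tendsto_sSup hSne hSb
  choose F hF hFu using huS
  obtain ⟨f, hf⟩ := montel hU F (fun n => (hF n).diff) fun n => (hF n).maps
  have hfd : DifferentiableOn ℂ f U := hf.differentiableOn (.of_forall fun n => (hF n).diff) hU
  have hf' := hf.deriv (.of_forall fun n => (hF n).diff) hU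
  have hM : ‖deriv f z₀‖ = sSup S := by
    refine tendsto_nhds_unique (hf'.tendsto_at hz).norm ?_
    simp only [Function.comp, hFu]
    exact hu.mono_left (hyperfilter_le_cofinite.trans Nat.cofinite_eq_atTop.le)
  have hle : ∀ F, Fam U z₀ F → ‖deriv F z₀‖ ≤ ‖deriv f z₀‖ := fun F hF =>
    hM ▸ le_csSup hSb ⟨F, hF, rfl⟩
  have hpos : deriv f z₀ ≠ 0 :=
    norm_pos_iff.mp ((norm_pos_iff.mpr (hF0.der z₀ hz)).trans_le (hle _ hF0))
  have hf0 : f z₀ = 0 := by
    refine tendsto_nhds_unique (hf.tendsto_at hz) ?_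
    simp only [fun n => (hF n).zero]
    exact tendsto_const_nhds
  have hfa : AnalyticOnNhd ℂ f U := hfd.analyticOnNhd hU
  refine ⟨f, ⟨hfd, fun z hzU => ?_, fun a ha b hb' hab => ?_, hf0, fun z hzU => ?_⟩, hle⟩
  · have h1 : ∀ w ∈ U, ‖f w‖ ≤ 1 := fun w hw =>
      le_of_tendsto' (hf.tendsto_at hw).norm fun n => (mem_ball_zero_iff.mp ((hF n).maps hw)).le
    rw [mem_ball_zero_iff]
    by_contra h
    have h2 : IsMaxOn (norm ∘ f) U z := fun w hw => (h1 w hw).trans (not_lt.mp h)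
    have h3 := Complex.norm_eqOn_of_isPreconnected_of_isMaxOn hc hU hfd hzU h2 hz
    simp only [Function.comp, Function.const, hf0, norm_zero] at h3
    exact h (h3 ▸ one_pos)
  · by_contra hne
    have hW : IsOpen (U \ {a}) := hU.sdiff isClosed_singleton
    have hlim : TendstoLocallyUniformlyOn (fun n w => F n w - F n a) (fun w => f w - f a)
        (hyperfilter ℕ) (U \ {a}) := by
      refine (hf.mono sdiff_subset).sub ?_
      exact ((hf.tendsto_at ha).tendstoUniformlyOn_const _).tendstoLocallyUniformlyOn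
    refine hurwitz hW (fun n => ((hF n).diff.mono sdiff_subset).sub_const _)
      (fun n w hw h => hw.2 ((hF n).inj hw.1 ha (sub_eq_zero.mp h))) hlim
      (z := b) ⟨hb', fun h => hne (Eq.symm h)⟩ (fun h => hpos ?_) (by simp [hab])
    have h1 : EqOn (fun w => f w - f a) 0 U :=
      (hfa.sub analyticOnNhd_const).eqOn_zero_of_preconnected_of_eventuallyEq_zero hc hb' h
    have h2 : f =ᶠ[𝓝 z₀] fun _ => f a := by
      filter_upwards [hU.mem_nhds hz] with w hw using sub_eq_zero.mp (h1 hw)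
    rw [h2.deriv_eq, deriv_const]
  · refine hurwitz hU (fun n => (hF n).diff.deriv hU) (fun n => (hF n).der) hf' hzU
      fun h => hpos ?_
    exact hfa.deriv.eqOn_zero_of_preconnected_of_eventuallyEq_zero hc hzU h hz

/-- Disc automorphism. -/
def mob (a w : ℂ) : ℂ := (w - a) / (1 - (starRingEnd ℂ) a * w)

theorem den_ne {a w : ℂ} (ha : ‖a‖ < 1) (hw : ‖w‖ < 1) : 1 - (starRingEnd ℂ) a * w ≠ 0 := by
  intro h
  have h1 : ‖(starRingEnd ℂ) a * w‖ = 1 := by rw [← sub_eq_zero.mp h, norm_one]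
  rw [norm_mul, Complex.norm_conj] at h1
  nlinarith [norm_nonneg a, norm_nonneg w]

theorem norm_mob_lt {a w : ℂ} (ha : ‖a‖ < 1) (hw : ‖w‖ < 1) : ‖mob a w‖ < 1 := by
  rw [mob, norm_div, div_lt_one (norm_pos_iff.mpr (den_ne ha hw))]
  refine lt_of_pow_lt_pow_left₀ 2 (norm_nonneg _) ?_
  have h1 : ‖a‖ ^ 2 < 1 := by nlinarith [norm_nonneg a]
  have h2 : ‖w‖ ^ 2 < 1 := by nlinarith [norm_nonneg w]
  simp only [Complex.sq_norm, Complex.normSq_apply, Complex.sub_re, Complex.sub_im,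
    Complex.mul_re, Complex.mul_im, Complex.conj_re, Complex.conj_im, Complex.one_re,
    Complex.one_im] at h1 h2 ⊢
  nlinarith [mul_pos (sub_pos.mpr h1) (sub_pos.mpr h2)]

theorem one_sub_ne {a : ℂ} (ha : ‖a‖ < 1) : 1 - (starRingEnd ℂ) a * a ≠ 0 := den_ne ha ha

theorem mob_inj {a w w' : ℂ} (ha : ‖a‖ < 1) (hw : ‖w‖ < 1) (hw' : ‖w'‖ < 1)
    (h : mob a w = mob a w') : w = w' := by
  rw [mob, mob, div_eq_div_iff (den_ne ha hw) (den_ne ha hw')] at h
  have h1 : (1 - (starRingEnd ℂ) a * a) * (w - w') = 0 := by linear_combination h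
  exact sub_eq_zero.mp ((mul_eq_zero.mp h1).resolve_left (one_sub_ne ha))

theorem hasDerivAt_mob {a w : ℂ} (ha : ‖a‖ < 1) (hw : ‖w‖ < 1) :
    HasDerivAt (mob a) ((1 - (starRingEnd ℂ) a * a) / (1 - (starRingEnd ℂ) a * w) ^ 2) w := by
  have h1 := ((hasDerivAt_id w).sub_const a).fun_div
    (((hasDerivAt_id w).const_mul ((starRingEnd ℂ) a)).const_sub 1) (den_ne ha hw)
  have h2 : (1 - (starRingEnd ℂ) a * a) / (1 - (starRingEnd ℂ) a * w) ^ 2 =
      (1 * (1 - (starRingEnd ℂ) a * w) - (w - a) * -((starRingEnd ℂ) a * 1)) /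
        (1 - (starRingEnd ℂ) a * w) ^ 2 := by
    congr 1
    ring
  rw [h2]
  exact h1

theorem Fam.mob_comp (hU : IsOpen U) {F : ℂ → ℂ} (hd : DifferentiableOn ℂ F U)
    (hm : MapsTo F U (ball 0 1)) {a : ℂ} (ha : ‖a‖ < 1) {z : ℂ} (hz : z ∈ U) :
    HasDerivAt (fun w => mob a (F w))
      ((1 - (starRingEnd ℂ) a * a) / (1 - (starRingEnd ℂ) a * F z) ^ 2 * deriv F z) z :=
  (hasDerivAt_mob ha (mem_ball_zero_iff.mp (hm hz))).comp z
    (hd.differentiableAt (hU.mem_nhds hz)).hasDerivAt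

theorem exists_better (hU : IsOpen U) (hc : IsPreconnected U) (hb : Bornology.IsBounded U)
    (hc' : IsPreconnected Uᶜ) {z₀ : ℂ} (hz : z₀ ∈ U) {f : ℂ → ℂ} (hf : Fam U z₀ f) {a : ℂ}
    (ha : ‖a‖ < 1) (hfa : ∀ z ∈ U, f z ≠ a) :
    ∃ F, Fam U z₀ F ∧ ‖deriv f z₀‖ < ‖deriv F z₀‖ := by
  have hfn : ∀ z ∈ U, ‖f z‖ < 1 := fun z hz => mem_ball_zero_iff.mp (hf.maps hz)
  have hh := fun z (hz : z ∈ U) => Fam.mob_comp hU hf.diff hf.maps ha hz
  have hh0 : ∀ z ∈ U, mob a (f z) ≠ 0 := fun z hz =>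
    div_ne_zero (sub_ne_zero.mpr (hfa z hz)) (den_ne ha (hfn z hz))
  obtain ⟨s, hs, hs2⟩ := exists_sqrt hU hc hb hc' hz
    (fun z hz => (hh z hz).differentiableAt.differentiableWithinAt) hh0
  have hsn : ∀ z ∈ U, ‖s z‖ < 1 := fun z hz => by
    refine lt_of_pow_lt_pow_left₀ 2 zero_le_one ?_
    rw [← norm_pow, hs2 z hz, one_pow]
    exact norm_mob_lt ha (hfn z hz)
  have hsm : MapsTo s U (ball 0 1) := fun z hz => mem_ball_zero_iff.mpr (hsn z hz)
  have hs0 : ∀ z ∈ U, s z ≠ 0 := fun z hz h => hh0 z hz (by rw [← hs2 z hz, h]; simp)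
  have hsd : ∀ z ∈ U, 2 * s z * deriv s z =
      (1 - (starRingEnd ℂ) a * a) / (1 - (starRingEnd ℂ) a * f z) ^ 2 * deriv f z := by
    intro z hz
    have h1 := (hs.differentiableAt (hU.mem_nhds hz)).hasDerivAt.fun_pow 2
    have h2 : (fun w => mob a (f w)) =ᶠ[𝓝 z] fun w => s w ^ 2 := by
      filter_upwards [hU.mem_nhds hz] with w hw using (hs2 w hw).symm
    have h3 := (h1.congr_of_eventuallyEq h2).unique (hh z hz)
    simpa using h3
  have hb1 := hsn z₀ hz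
  have hF := fun z (hz : z ∈ U) => Fam.mob_comp hU hs hsm hb1 hz
  refine ⟨fun w => mob (s z₀) (s w), ⟨fun z hz => (hF z hz).differentiableAt.differentiableWithinAt,
    fun z hz => mem_ball_zero_iff.mpr (norm_mob_lt hb1 (hsn z hz)), fun z hz w hw h => ?_,
    by simp [mob], fun z hz => ?_⟩, ?_⟩
  · have h1 := mob_inj hb1 (hsn z hz) (hsn w hw) h
    refine hf.inj hz hw (mob_inj ha (hfn z hz) (hfn w hw) ?_)
    rw [← hs2 z hz, ← hs2 w hw, h1]
  · rw [(hF z hz).deriv]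
    refine mul_ne_zero (div_ne_zero (one_sub_ne hb1) (pow_ne_zero _ (den_ne hb1 (hsn z hz))))
      fun h => ?_
    have h1 := hsd z hz
    rw [h, mul_zero] at h1
    exact mul_ne_zero (div_ne_zero (one_sub_ne ha) (pow_ne_zero _ (den_ne ha (hfn z hz))))
      (hf.der z hz) h1.symm
  · rw [(hF z₀ hz).deriv]
    have h1 := hsd z₀ hz
    have h2 := hs2 z₀ hz
    rw [hf.zero] at h1 h2
    have h3 : a = -s z₀ ^ 2 := by rw [h2]; simp [mob]
    have h4 : (starRingEnd ℂ) (s z₀) * s z₀ = ((‖s z₀‖ ^ 2 : ℝ) : ℂ) := by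
      rw [Complex.conj_mul']
      push_cast
      rfl
    have h5 : (starRingEnd ℂ) a * a = ((‖s z₀‖ ^ 2 : ℝ) : ℂ) ^ 2 := by
      rw [← h4, h3, map_neg, map_pow]
      ring
    have hp : 0 < ‖s z₀‖ := norm_pos_iff.mpr (hs0 z₀ hz)
    have hq : ‖s z₀‖ ^ 2 < 1 := by nlinarith
    have h6 : (1 : ℂ) - ((‖s z₀‖ ^ 2 : ℝ) : ℂ) ≠ 0 := h4 ▸ one_sub_ne hb1
    have h7 : (1 - (starRingEnd ℂ) (s z₀) * s z₀) / (1 - (starRingEnd ℂ) (s z₀) * s z₀) ^ 2 *
        deriv s z₀ = ((1 + ‖s z₀‖ ^ 2 : ℝ) : ℂ) / (2 * s z₀) * deriv f z₀ := by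
      have h8 := hs0 z₀ hz
      have h9 : deriv s z₀ = (1 - ((‖s z₀‖ ^ 2 : ℝ) : ℂ) ^ 2) * deriv f z₀ / (2 * s z₀) := by
        rw [eq_div_iff (mul_ne_zero two_ne_zero h8), ← h5]
        simp only [mul_zero, sub_zero, one_pow, div_one] at h1
        linear_combination h1
      rw [h4, h9, Complex.ofReal_add]
      generalize ((‖s z₀‖ ^ 2 : ℝ) : ℂ) = t at h6 ⊢
      field_simp
      push_cast
      ring
    rw [h7, norm_mul, norm_div, norm_mul, Complex.norm_real, Real.norm_of_nonneg (by positivity)]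
    refine lt_mul_of_one_lt_left (norm_pos_iff.mpr (hf.der z₀ hz)) ?_
    rw [one_lt_div (by simpa using hp)]
    simp only [Complex.norm_ofNat]
    nlinarith [sq_pos_of_pos (sub_pos.mpr hb1)]

end RMT

theorem rmt {U : Set ℂ} (hU : IsOpen U) (hc : IsPreconnected U) (hb : Bornology.IsBounded U)
    (hc' : IsPreconnected Uᶜ) {z₀ : ℂ} (hz : z₀ ∈ U) :
    ∃ g G : ℂ → ℂ, DifferentiableOn ℂ g (ball 0 1) ∧ DifferentiableOn ℂ G U ∧
      MapsTo g (ball 0 1) U ∧ MapsTo G U (ball 0 1) ∧ (∀ u ∈ ball (0 : ℂ) 1, G (g u) = u) ∧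
      (∀ z ∈ U, g (G z) = z) ∧ g 0 = z₀ := by
  obtain ⟨f, hf, hmax⟩ := RMT.exists_extremal hU hc hb hz
  have hsurj : SurjOn f U (ball 0 1) := by
    intro a ha
    by_contra h
    obtain ⟨F, hF, hlt⟩ := RMT.exists_better hU hc hb hc' hz hf (mem_ball_zero_iff.mp ha)
      fun z hz hfz => h ⟨z, hz, hfz⟩
    exact absurd (hmax F hF) (not_le.mpr hlt)
  have hleft : ∀ z ∈ U, Function.invFunOn f U (f z) = z := fun z hz => hf.inj.leftInvOn_invFunOn hz
  refine ⟨Function.invFunOn f U, f, fun u hu => ?_, hf.diff, hsurj.mapsTo_invFunOn, hf.maps,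
    fun u hu => hsurj.rightInvOn_invFunOn hu, hleft, by rw [← hf.zero]; exact hleft z₀ hz⟩
  obtain ⟨z, hzU, rfl⟩ := hsurj hu
  have h1 : HasStrictDerivAt f (deriv f z) z :=
    (hf.diff.analyticAt (hU.mem_nhds hzU)).hasStrictDerivAt
  have h2 := h1.to_local_left_inverse (hf.der z hzU) (g := Function.invFunOn f U) (by
    filter_upwards [hU.mem_nhds hzU] with w hw using hleft w hw)
  exact h2.hasDerivAt.differentiableAt.differentiableWithinAt

end Pool.Agent.P.MP_7f9008_an
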