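import Pool.Agent.P.MP_7f9008_an.Curve
import Pool.Agent.Lib.Sob.Moll

/-! Absolute continuity on almost every horizontal and vertical line. -/

open MeasureTheory Set Metric Filter Topology Real Pool.Agent.Lib.Sob
open scoped ENNReal

noncomputable section
namespace Pool.Agent.P.MP_7f9008_an

theorem det_eq (A : ℂ →L[ℝ] ℂ) :
    A.det = (A 1).re * (A Complex.I).im - (A Complex.I).re * (A 1).im := by
  rw [ContinuousLinearMap.det, ← LinearMap.det_toMatrix Complex.basisOneI, Matrix.det_fin_two]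
  simp [LinearMap.toMatrix_apply]

theorem det_smul_one (a : ℂ) : (a • (1 : ℂ →L[ℝ] ℂ)).det = ‖a‖ ^ 2 := by
  rw [det_eq, Complex.sq_norm, Complex.normSq_apply]; simp

theorem norm_comp_smul_one (A : ℂ →L[ℝ] ℂ) (a : ℂ) :
    ‖A.comp (a • (1 : ℂ →L[ℝ] ℂ))‖ = ‖A‖ * ‖a‖ := by
  have key : ∀ (A : ℂ →L[ℝ] ℂ) (a : ℂ), ‖A.comp (a • (1 : ℂ →L[ℝ] ℂ))‖ ≤ ‖A‖ * ‖a‖ :=
    fun A a => ContinuousLinearMap.opNorm_le_bound _ (by positivity) fun v => by
      simpa [mul_assoc] using A.le_opNorm (a * v)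
  refine le_antisymm (key A a) ?_
  rcases eq_or_ne a 0 with rfl | ha
  · simp
  have h := key (A.comp (a • (1 : ℂ →L[ℝ] ℂ))) a⁻¹
  have e : (A.comp (a • (1 : ℂ →L[ℝ] ℂ))).comp (a⁻¹ • (1 : ℂ →L[ℝ] ℂ)) = A := by
    ext v; simp [← mul_assoc, mul_inv_cancel₀ ha]
  rw [e, norm_inv, ← div_eq_mul_inv, le_div_iff₀ (norm_pos_iff.2 ha)] at h
  exact h

theorem det_comp_smul_one (A : ℂ →L[ℝ] ℂ) (a : ℂ) :
    (A.comp (a • (1 : ℂ →L[ℝ] ℂ))).det = A.det * ‖a‖ ^ 2 := by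
  rw [← det_smul_one]
  exact LinearMap.det_comp (A : ℂ →ₗ[ℝ] ℂ) _

theorem mp_v : MeasurePreserving (fun p : ℝ × ℝ => (⟨p.1, p.2⟩ : ℂ)) :=
  Complex.volume_preserving_equiv_real_prod.symm

theorem mp_h : MeasurePreserving (fun p : ℝ × ℝ => (⟨p.2, p.1⟩ : ℂ)) :=
  mp_v.comp (Measure.measurePreserving_swap (μ := volume) (ν := volume))

theorem lintegral_mp {Ψ : ℝ × ℝ → ℂ} (mp : MeasurePreserving Ψ) {H : ℂ → ℝ≥0∞}
    (hH : Measurable H) : ∫⁻ s, ∫⁻ t, H (Ψ (s, t)) = ∫⁻ z, H z := by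
  rw [← mp.lintegral_comp hH, Measure.volume_eq_prod]
  exact (lintegral_prod _ (hH.comp mp.measurable).aemeasurable).symm

theorem exists_exhaust {U : Set ℂ} (hU : IsOpen U) : ∃ K : ℕ → Set ℂ,
    (∀ n, IsCompact (K n) ∧ K n ⊆ U) ∧ ∀ C, IsCompact C → C ⊆ U → ∃ n, C ⊆ K n := by
  refine ⟨fun n => closedBall 0 n ∩ (thickening (1 / ((n : ℝ) + 1)) Uᶜ)ᶜ, fun n =>
    ⟨(isCompact_closedBall _ _).inter_right isOpen_thickening.isClosed_compl, fun z hz => ?_⟩,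
    fun C hC hCU => ?_⟩
  · by_contra h
    exact hz.2 (self_subset_thickening (by positivity) _ h)
  · obtain ⟨R, hR⟩ := hC.isBounded.subset_closedBall 0
    obtain ⟨δ, hδ, hd⟩ := Disjoint.exists_thickenings
      (disjoint_compl_right_iff_subset.2 hCU) hC hU.isClosed_compl
    obtain ⟨n, hn⟩ := exists_nat_one_div_lt hδ
    obtain ⟨m, hm⟩ := exists_nat_ge R
    refine ⟨max n m, fun z hz => ⟨closedBall_subset_closedBall ?_ (hR hz), fun h => ?_⟩⟩
    · exact hm.trans (by exact_mod_cast le_max_right n m)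
    · refine Set.disjoint_left.1 hd (self_subset_thickening hδ _ hz) (thickening_mono ?_ _ h)
      refine le_trans ?_ hn.le
      gcongr; exact_mod_cast le_max_left n m

/-- `P` is a pointwise limit of `C¹` maps whose derivatives converge to `D` in `L¹_loc(U)`. -/
def Appr (U : Set ℂ) (P : ℂ → ℂ) (D : ℂ → ℂ →L[ℝ] ℂ) : Prop :=
  ∀ K, IsCompact K → K ⊆ U → ∃ v : ℕ → ℂ → ℂ, (∀ k, ContDiffOn ℝ 1 (v k) U) ∧
    (∀ z ∈ K, Tendsto (fun k => v k z) atTop (𝓝 (P z))) ∧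
    Tendsto (fun k => ∫⁻ z in K, ‖fderiv ℝ (v k) z - D z‖ₑ) atTop (𝓝 0)

variable {U : Set ℂ} {P : ℂ → ℂ} {D : ℂ → ℂ →L[ℝ] ℂ}

theorem Appr.of_wd (hU : IsOpen U) (h : WD 1 U P D) (hc : ContinuousOn P U) : Appr U P D := by
  intro K hK hKU
  obtain ⟨u', D', K', O, hg, m1, m2, -, -, -, hKO, -, -, -, e1, e2, c⟩ :=
    h.exists_global le_rfl hU hK hKU
  have lu := hg.1.locallyIntegrable le_rfl
  refine ⟨fun k => moll k u', fun k => ((contDiff_moll k lu).of_le (by simp)).contDiffOn,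
    fun z hz => ?_, ?_⟩
  · rw [← e1 z (hKO hz)]; exact tendsto_moll_of_continuous (c hc) z
  · refine tendsto_of_tendsto_of_tendsto_of_le_of_le tendsto_const_nhds
      (tendsto_lintegral_moll le_rfl m2) (fun _ => zero_le) fun k => ?_
    refine le_trans (le_of_eq ?_) (setLIntegral_le_lintegral K _)
    exact setLIntegral_congr_fun hK.measurableSet fun x hx => by
      rw [e2 x (hKO hx), hg.fderiv_moll le_rfl, pow_one]

theorem Appr.of_contDiffOn (h : ContDiffOn ℝ 1 P U) : Appr U P (fderiv ℝ P) :=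
  fun _ _ _ => ⟨fun _ => P, fun _ => h, fun _ _ => tendsto_const_nhds, by simp⟩

theorem Appr.congr {D' : ℂ → ℂ →L[ℝ] ℂ} (h : Appr U P D) (e : ∀ᵐ z, z ∈ U → D z = D' z) :
    Appr U P D' := by
  intro K hK hKU
  obtain ⟨v, h1, h2, h3⟩ := h K hK hKU
  refine ⟨v, h1, h2, h3.congr fun k => ?_⟩
  exact setLIntegral_congr_fun_ae hK.measurableSet (e.mono fun z hz hzK => by rw [hz (hKU hzK)])

theorem Appr.sub (hU : IsOpen U) (h : Appr U P D) (A : ℂ →L[ℝ] ℂ) :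
    Appr U (fun z => P z - A z) (fun z => D z - A) := by
  intro K hK hKU
  obtain ⟨v, h1, h2, h3⟩ := h K hK hKU
  refine ⟨fun k z => v k z - A z, fun k => (h1 k).sub A.contDiff.contDiffOn,
    fun z hz => (h2 z hz).sub_const _, h3.congr fun k => ?_⟩
  refine setLIntegral_congr_fun hK.measurableSet fun z hz => ?_
  have hd : DifferentiableAt ℝ (v k) z :=
    ((h1 k).differentiableOn one_ne_zero).differentiableAt (hU.mem_nhds (hKU hz))
  have e : fderiv ℝ (fun z => v k z - A z) z = fderiv ℝ (v k) z - A :=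
    (hd.hasFDerivAt.sub A.hasFDerivAt).fderiv
  simp only [e, sub_sub_sub_cancel_right]

theorem edist_le_of_contDiffOn (hU : IsOpen U) {v : ℂ → ℂ} (hv : ContDiffOn ℝ 1 v U) {u e : ℂ}
    (he : ‖e‖ = 1) {t t' : ℝ} (h : t ≤ t') (hs : ∀ τ ∈ Icc t t', u + τ • e ∈ U) :
    edist (v (u + t • e)) (v (u + t' • e)) ≤ ∫⁻ τ in Ioo t t', ‖fderiv ℝ v (u + τ • e)‖ₑ := by
  have hc : ContDiffOn ℝ 1 (fun τ : ℝ => v (u + τ • e)) (Icc t t') :=
    hv.comp (by fun_prop) hs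
  rw [edist_comm, edist_eq_enorm_sub]
  refine (enorm_sub_le_lintegral_deriv_of_contDiffOn_Icc hc h).trans ?_
  rw [← setLIntegral_congr (Ioo_ae_eq_Icc (μ := volume) (a := t) (b := t'))]
  refine setLIntegral_mono' measurableSet_Ioo fun τ hτ => ?_
  have hd : DifferentiableAt ℝ v (u + τ • e) :=
    (hv.differentiableOn one_ne_zero).differentiableAt (hU.mem_nhds (hs τ (Ioo_subset_Icc_self hτ)))
  have h1 : HasDerivAt (fun τ : ℝ => u + τ • e) e τ := by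
    simpa using ((hasDerivAt_id τ).smul_const e).const_add u
  have e' : deriv (fun τ : ℝ => v (u + τ • e)) τ = fderiv ℝ v (u + τ • e) e :=
    (hd.hasFDerivAt.comp_hasDerivAt τ h1).deriv
  rw [e', ← ofReal_norm, ← ofReal_norm]
  refine ENNReal.ofReal_le_ofReal ?_
  simpa [he] using (fderiv ℝ v (u + τ • e)).le_opNorm e

theorem Appr.lines (hU : IsOpen U) (h : Appr U P D) (hD : Measurable D) {Ψ : ℝ × ℝ → ℂ}
    (mp : MeasurePreserving Ψ) {u : ℝ → ℂ} {e : ℂ} (he : ‖e‖ = 1)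
    (hΨ : ∀ s t, Ψ (s, t) = u s + t • e) :
    ∀ᵐ s : ℝ, ∀ a b, ContinuousOn (fun t => P (Ψ (s, t))) (Icc a b) →
      (∀ t ∈ Ioo a b, Ψ (s, t) ∈ U) →
      AC (fun t => P (Ψ (s, t))) (fun t => ‖D (Ψ (s, t))‖ₑ) a b := by
  obtain ⟨K, hK, hKU⟩ := exists_exhaust hU
  have key : ∀ n, ∀ᵐ s : ℝ, ∀ t t', t ≤ t' → (∀ τ ∈ Icc t t', Ψ (s, τ) ∈ K n) →
      edist (P (Ψ (s, t))) (P (Ψ (s, t'))) ≤ ∫⁻ τ in Ioo t t', ‖D (Ψ (s, τ))‖ₑ := by
    intro n
    obtain ⟨v, h1, h2, h3⟩ := h (K n) (hK n).1 (hK n).2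
    set H : ℕ → ℂ → ℝ≥0∞ := fun k => (K n).indicator fun z => ‖fderiv ℝ (v k) z - D z‖ₑ
    have mH : ∀ k, Measurable (H k) := fun k =>
      ((measurable_fderiv ℝ (v k)).sub hD).enorm.indicator (hK n).1.measurableSet
    set I : ℕ → ℝ → ℝ≥0∞ := fun k s => ∫⁻ t, H k (Ψ (s, t))
    have mI : ∀ k, Measurable (I k) := fun k =>
      ((mH k).comp mp.measurable).lintegral_prod_right'
    have eI : ∀ k, ∫⁻ s, I k s = ∫⁻ z in K n, ‖fderiv ℝ (v k) z - D z‖ₑ := fun k => by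
      rw [lintegral_mp mp (mH k), lintegral_indicator (hK n).1.measurableSet]
    have z0 : ∫⁻ s, liminf (fun k => I k s) atTop = 0 := by
      refine le_antisymm ((lintegral_liminf_le mI).trans ?_) zero_le
      simp only [eI, h3.liminf_eq, le_refl]
    rw [lintegral_eq_zero_iff (Measurable.liminf mI)] at z0
    filter_upwards [z0] with s hs t t' htt hin
    refine ENNReal.le_of_forall_pos_le_add fun ε hε _ => ?_
    have fr : ∃ᶠ k in atTop, I k s < ε :=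
      frequently_lt_of_liminf_lt (by isBoundedDefault) (by
        rw [show liminf (fun k => I k s) atTop = 0 from hs]; exact_mod_cast hε)
    refine isClosed_Iic.mem_of_frequently_of_tendsto (fr.mono fun k hk => ?_)
      ((h2 _ (hin t ⟨le_rfl, htt⟩)).edist (h2 _ (hin t' ⟨htt, le_rfl⟩)))
    have e1 := edist_le_of_contDiffOn hU (h1 k) (u := u s) he htt fun τ hτ => by
      rw [← hΨ]; exact (hK n).2 (hin τ hτ)
    simp only [← hΨ] at e1
    refine e1.trans ?_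
    have mD : Measurable fun τ => ‖D (Ψ (s, τ))‖ₑ :=
      (hD.comp (mp.measurable.comp measurable_prodMk_left)).enorm
    calc _ ≤ ∫⁻ τ in Ioo t t', ‖D (Ψ (s, τ))‖ₑ + H k (Ψ (s, τ)) := by
          refine setLIntegral_mono' measurableSet_Ioo fun τ hτ => ?_
          simp only [H, indicator_of_mem (hin τ (Ioo_subset_Icc_self hτ))]
          simpa using enorm_add_le (D (Ψ (s, τ))) (fderiv ℝ (v k) (Ψ (s, τ)) - D (Ψ (s, τ)))
      _ = _ := lintegral_add_left mD _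
      _ ≤ _ := add_le_add le_rfl ((setLIntegral_le_lintegral _ _).trans hk.le)
  filter_upwards [ae_all_iff.2 key] with s hs a b hc hin
  refine AC.of_interior hc fun t t' h1 h2 h3 => ?_
  have cΨ : Continuous fun τ => Ψ (s, τ) := by simp only [hΨ]; fun_prop
  obtain ⟨n, hn⟩ := hKU _ (isCompact_Icc.image cΨ (s := Icc t t')) (by
    rintro _ ⟨τ, hτ, rfl⟩; exact hin τ ⟨h1.trans_le hτ.1, hτ.2.trans_lt h3⟩)
  exact hs n t t' h2 fun τ hτ => hn (mem_image_of_mem _ hτ)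

/-- The vertical line `re = x` is good. -/
def GoodV (U : Set ℂ) (P : ℂ → ℂ) (G : ℂ → ℝ≥0∞) (x : ℝ) : Prop :=
  ∀ a b, ContinuousOn (fun y => P ⟨x, y⟩) (Icc a b) → (∀ y ∈ Ioo a b, (⟨x, y⟩ : ℂ) ∈ U) →
    AC (fun y => P ⟨x, y⟩) (fun y => G ⟨x, y⟩) a b

/-- The horizontal line `im = y` is good. -/
def GoodH (U : Set ℂ) (P : ℂ → ℂ) (G : ℂ → ℝ≥0∞) (y : ℝ) : Prop :=
  ∀ a b, ContinuousOn (fun x => P ⟨x, y⟩) (Icc a b) → (∀ x ∈ Ioo a b, (⟨x, y⟩ : ℂ) ∈ U) →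
    AC (fun x => P ⟨x, y⟩) (fun x => G ⟨x, y⟩) a b

theorem Appr.goodV (hU : IsOpen U) (h : Appr U P D) (hD : Measurable D) :
    ∀ᵐ x : ℝ, GoodV U P (fun z => ‖D z‖ₑ) x :=
  h.lines hU hD mp_v (u := fun s => s) (e := Complex.I) (by simp) fun s t => by
    apply Complex.ext <;> simp

theorem Appr.goodH (hU : IsOpen U) (h : Appr U P D) (hD : Measurable D) :
    ∀ᵐ y : ℝ, GoodH U P (fun z => ‖D z‖ₑ) y :=
  h.lines hU hD mp_h (u := fun s => s * Complex.I) (e := 1) (by simp) fun s t => by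
    apply Complex.ext <;> simp

end Pool.Agent.P.MP_7f9008_an
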