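import Pool.Agent.P.MP_7f9008_an.TopoA

/-! The two arcs of a Jordan curve. -/

open Set Metric Filter Topology Real

noncomputable section
namespace Pool.Agent.P.MP_7f9008_an

theorem IsJordan.exists_loop {Ω : Set ℂ} (h : IsJordan Ω) :
    ∃ γ, Loop γ ∧ frontier Ω = range γ := by
  obtain ⟨-, -, -, Γ, h1, h2, h3⟩ := h
  refine ⟨fun x => Γ (Circle.exp x), ⟨by fun_prop, fun x => ?_, fun x y hxy => ?_⟩, ?_⟩
  · rw [show Circle.exp (x + 2 * π) = Circle.exp x from Circle.exp_eq_exp.2 ⟨1, by simp⟩]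
  · exact Circle.exp_eq_exp.1 (h2 hxy).symm
  · rw [h3]
    exact (Function.Surjective.range_comp (fun z => ⟨_, Circle.exp_arg z⟩) Γ).symm

theorem Loop.isCompact_range {γ : ℝ → ℂ} (h : Loop γ) : IsCompact (range γ) := by
  have : range γ = γ '' Icc 0 (0 + 2 * π) := by
    refine (range_subset_iff.2 fun x => ?_).antisymm (image_subset_range _ _)
    obtain ⟨y, hy, e⟩ := h.exists_rep 0 x
    exact ⟨y, Ico_subset_Icc_self hy, e⟩
  rw [this]
  exact isCompact_Icc.image h.cont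

theorem diam_image_Ioo {γ : ℝ → ℂ} (h : Continuous γ) {u v : ℝ} (huv : u < v) :
    diam (γ '' Ioo u v) = dl γ u v := by
  refine le_antisymm (diam_mono (image_mono Ioo_subset_Icc_self) (isBounded_arc h _ _)) ?_
  rw [← diam_closure (γ '' Ioo u v), dl, ← closure_Ioo huv.ne]
  exact diam_mono (image_closure_subset_closure_image h)
    ((isBounded_arc h u v).subset (image_mono Ioo_subset_Icc_self)).closure

theorem Loop.arc_subset {γ : ℝ → ℂ} (h : Loop γ) {u v : ℝ} (hv : v ≤ u + 2 * π) :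
    γ '' Ioo u v ⊆ range γ \ {γ u, γ v} := by
  rintro _ ⟨x, hx, rfl⟩
  refine ⟨mem_range_self _, ?_⟩
  have hp := two_pi_pos
  rintro (e | e)
  · exact hx.1.ne' (h.eq_of_close (by linarith [hx.1, hx.2]) (by linarith [hx.1, hx.2]) e)
  · exact hx.2.ne (h.eq_of_close (by linarith [hx.1, hx.2]) (by linarith [hx.1, hx.2]) e)

theorem Loop.min_le_diam {γ : ℝ → ℂ} (h : Loop γ) {u v : ℝ} (huv : u < v) (hv : v < u + 2 * π)
    {q : ℂ} (hq : q ∈ range γ \ {γ u, γ v}) :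
    min (dl γ u v) (dl γ v (u + 2 * π)) ≤
      diam (connectedComponentIn (range γ \ {γ u, γ v}) q) := by
  have hb : Bornology.IsBounded (connectedComponentIn (range γ \ {γ u, γ v}) q) :=
    h.isCompact_range.isBounded.subset ((connectedComponentIn_subset _ _).trans sdiff_subset)
  obtain ⟨⟨x, rfl⟩, hx⟩ := hq
  obtain ⟨y, hy, e⟩ := h.exists_rep u x
  rw [← e] at hx hb ⊢
  have h1 : u < y := hy.1.lt_of_ne fun k => hx (Or.inl (by rw [k]))
  have h2 : y ≠ v := fun k => hx (Or.inr (by rw [k]; rfl))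
  rcases h2.lt_or_gt with h3 | h3
  · refine (min_le_left _ _).trans ?_
    rw [← diam_image_Ioo h.cont huv]
    exact diam_mono ((isPreconnected_Ioo.image _ h.cont.continuousOn).subset_connectedComponentIn
      ⟨y, ⟨h1, h3⟩, rfl⟩ (h.arc_subset hv.le)) hb
  · refine (min_le_right _ _).trans ?_
    rw [← diam_image_Ioo h.cont hv]
    refine diam_mono ((isPreconnected_Ioo.image _ h.cont.continuousOn).subset_connectedComponentIn
      ⟨y, ⟨h3, hy.2⟩, rfl⟩ ?_) hb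
    have := h.arc_subset (u := v) (v := u + 2 * π) (by linarith)
    rwa [h.per, pair_comm] at this

theorem Loop.exists_diam_le {γ : ℝ → ℂ} (h : Loop γ) {u v : ℝ} (huv : u < v)
    (hv : v < u + 2 * π) : ∃ q ∈ range γ \ {γ u, γ v},
      diam (connectedComponentIn (range γ \ {γ u, γ v}) q) ≤ dl γ u v := by
  have hm : (u + v) / 2 ∈ Ioo u v := ⟨by linarith, by linarith⟩
  have hq := h.arc_subset hv.le ⟨_, hm, rfl⟩
  refine ⟨γ ((u + v) / 2), hq, diam_mono (fun z hz => ?_) (isBounded_arc h.cont _ _)⟩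
  by_contra hn
  set C := connectedComponentIn (range γ \ {γ u, γ v}) (γ ((u + v) / 2)) with hC
  have hs : C ⊆ range γ \ {γ u, γ v} := connectedComponentIn_subset _ _
  have hcov : C ⊆ γ '' Icc u v ∪ γ '' Icc v (u + 2 * π) := by
    intro w hw
    obtain ⟨x, rfl⟩ := (hs hw).1
    obtain ⟨y, hy, e⟩ := h.exists_rep u x
    rcases le_total y v with k | k
    · exact Or.inl ⟨y, ⟨hy.1, k⟩, e⟩
    · exact Or.inr ⟨y, ⟨k, hy.2.le⟩, e⟩
  obtain ⟨w, hw, ⟨x, hx, rfl⟩, y, hy, e⟩ := isPreconnected_closed_iff.1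
    (isPreconnected_connectedComponentIn (F := range γ \ {γ u, γ v}) (x := γ ((u + v) / 2))) _ _
    (isCompact_Icc.image h.cont).isClosed (isCompact_Icc.image h.cont).isClosed hcov
    ⟨_, mem_connectedComponentIn hq, _, Ioo_subset_Icc_self hm, rfl⟩
    ⟨z, hz, (hcov hz).resolve_left hn⟩
  have h1 : u < x := hx.1.lt_of_ne fun k => (hs hw).2 (Or.inl (by rw [k]))
  have h2 : x < v := hx.2.lt_of_ne fun k => (hs hw).2 (Or.inr (by rw [k]; rfl))
  have := h.eq_of_close (by linarith [hy.2]) (by linarith [hy.1, two_pi_pos]) e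
  linarith [hy.1]

/-- The curve minus a point is connected. -/
theorem Loop.preconn_diff {γ : ℝ → ℂ} (h : Loop γ) (u : ℝ) :
    IsPreconnected (range γ \ {γ u}) := by
  have : range γ \ {γ u} = γ '' Ioo u (u + 2 * π) := by
    apply Subset.antisymm
    · rintro _ ⟨⟨x, rfl⟩, hx⟩
      obtain ⟨y, hy, e⟩ := h.exists_rep u x
      exact ⟨y, ⟨hy.1.lt_of_ne fun k => hx (by rw [← e, k]; rfl), hy.2⟩, e⟩
    · intro z hz
      have := h.arc_subset le_rfl hz
      exact ⟨this.1, fun k => this.2 (Or.inl k)⟩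
  rw [this]
  exact isPreconnected_Ioo.image _ h.cont.continuousOn

/-- A small subset of the curve lies in a small arc. -/
theorem Loop.small_arc {γ : ℝ → ℂ} (h : Loop γ) {ε : ℝ} (hε : 0 < ε) :
    ∃ η > 0, ∀ u, ∃ σ : Set ℂ, IsCompact σ ∧ IsPreconnected σ ∧ σ ⊆ range γ ∧
      σ ⊆ closedBall (γ u) ε ∧ range γ ∩ closedBall (γ u) η ⊆ σ := by
  obtain ⟨η, hη, H⟩ := exists_dl_le h.cont h.per hε
  set a := min (η / 2) π with ha
  have a0 : 0 < a := lt_min (half_pos hη) pi_pos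
  have a1 : a ≤ η / 2 := min_le_left _ _
  have a2 : a ≤ π := min_le_right _ _
  have hK : IsCompact (Icc (0 : ℝ) (0 + 2 * π) ×ˢ Icc a (2 * π - a)) :=
    isCompact_Icc.prod isCompact_Icc
  have hc := h.cont
  obtain ⟨p, hp, hmin⟩ := hK.exists_isMinOn
    ⟨(0, π), ⟨le_rfl, by positivity⟩, ⟨a2, by linarith⟩⟩
    (f := fun p : ℝ × ℝ => dist (γ (p.1 + p.2)) (γ p.1)) (by fun_prop)
  have m0 : 0 < dist (γ (p.1 + p.2)) (γ p.1) := dist_pos.2 fun e => by
    have := h.eq_of_close (by linarith [hp.2.2]) (by linarith [hp.2.1, two_pi_pos]) e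
    linarith [hp.2.1]
  refine ⟨_, half_pos m0, fun u => ⟨γ '' Icc (u - a) (u + a), isCompact_Icc.image hc,
    isPreconnected_Icc.image _ hc.continuousOn, image_subset_range _ _, ?_, ?_⟩⟩
  · rintro _ ⟨x, hx, rfl⟩
    exact (dist_le_dl hc hx ⟨by linarith, by linarith⟩).trans (H _ _ (by linarith))
  · rintro _ ⟨⟨x, rfl⟩, hx⟩
    obtain ⟨y, hy, e⟩ := h.exists_rep (u - a) x
    refine ⟨y, ⟨hy.1, ?_⟩, e⟩
    by_contra hn
    have hu := toIcoMod_add_toIcoDiv_zsmul two_pi_pos 0 u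
    rw [zsmul_eq_mul] at hu
    have hm := toIcoMod_mem_Ico two_pi_pos 0 u
    set u' := toIcoMod two_pi_pos 0 u
    set k := toIcoDiv two_pi_pos 0 u
    have h1 : dist (γ (p.1 + p.2)) (γ p.1) ≤ dist (γ (u' + (y - u))) (γ u') :=
      hmin (a := (u', y - u)) ⟨Ico_subset_Icc_self hm, by linarith [not_le.1 hn],
        by linarith [hy.2]⟩
    rw [← per_int h.per k (u' + (y - u)), ← per_int h.per k u', hu,
      show u' + (y - u) + k * (2 * π) = y by linarith, e] at h1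
    rw [mem_closedBall] at hx
    linarith

/-- `(T_φ)` forces `φ(t) ≥ c t` for small `t`. -/
theorem ThreePt.lower {φ : ℝ → ℝ} {Ω : Set ℂ} (hΩ : IsJordan Ω) (h : ThreePt φ Ω)
    (hp : ∀ᶠ t in 𝓝[>] (0 : ℝ), 0 < φ t) : ∃ c > 0, ∀ᶠ t in 𝓝[>] (0 : ℝ), c * t ≤ φ t := by
  obtain ⟨γ, hγ, hfr⟩ := hΩ.exists_loop
  obtain ⟨C, δ, hδ, H⟩ := h
  rw [hfr] at H
  have hc := hγ.cont
  have hD : 0 < dist (γ 0) (γ π) := dist_pos.2 fun e => by
    have := hγ.eq_of_close (by linarith [pi_pos]) (by linarith [pi_pos]) e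
    linarith [pi_pos]
  have hM : 0 < max C 1 := lt_max_of_lt_right one_pos
  refine ⟨(max C 1)⁻¹, inv_pos.2 hM, ?_⟩
  filter_upwards [hp, Ioo_mem_nhdsGT (lt_min hδ hD)] with t h1 h2
  obtain ⟨v, hv, e⟩ := intermediate_value_Icc pi_pos.le
    (f := fun x => dist (γ 0) (γ x)) (by fun_prop)
    (show t ∈ Icc (dist (γ 0) (γ 0)) (dist (γ 0) (γ π)) from
      ⟨by simpa using h2.1.le, (h2.2.trans_le (min_le_right _ _)).le⟩)
  have e' : dist (γ 0) (γ v) = t := e
  have hne : γ 0 ≠ γ v := dist_pos.1 (e' ▸ h2.1)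
  have v0 : 0 < v := hv.1.lt_of_ne fun k => hne (by rw [k])
  have v1 : v < 0 + 2 * π := by linarith [hv.2, pi_pos]
  obtain ⟨q, hq, hq'⟩ := H _ (mem_range_self 0) _ (mem_range_self v) hne
    (e' ▸ h2.2.trans_le (min_le_left _ _))
  have k1 : t ≤ dl γ 0 v := e' ▸ dist_le_dl hc ⟨le_rfl, v0.le⟩ ⟨v0.le, le_rfl⟩
  have k2 : t ≤ dl γ v (0 + 2 * π) := by
    have := dist_le_dl hc (u := v) (v := 0 + 2 * π) ⟨v1.le, le_rfl⟩ ⟨le_rfl, v1.le⟩
    rwa [hγ.per, e'] at this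
  have k3 := ((le_min k1 k2).trans (hγ.min_le_diam v0 v1 hq)).trans hq'
  rw [e'] at k3
  rw [inv_mul_le_iff₀ hM]
  exact k3.trans (mul_le_mul_of_nonneg_right (le_max_left _ _) h1.le)

end Pool.Agent.P.MP_7f9008_an
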