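import Pool.Agent.P.MP_7f9008_an.BAB

/-! The Beurling-Ahlfors extension of `h₂⁻¹ ∘ h₁`, transported to the exterior of the disc. -/

open Set Metric Filter Topology Real

noncomputable section
namespace Pool.Agent.P.MP_7f9008_an

theorem BAA.cramer {A : ℂ →L[ℝ] ℂ} {a b c d a' b' c' d' : ℝ} (hc : 0 < c) (hd : 0 < d)
    (hca : c ≤ a) (hdb : d ≤ b) (hc' : 0 < c') (hd' : 0 < d') (hca' : c' ≤ a') (hdb' : d' ≤ b')
    (e1 : ∀ v, b' * (A v).re + d' * (A v).im = b * v.re + d * v.im)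
    (e2 : ∀ v, a' * (A v).re - c' * (A v).im = a * v.re - c * v.im) :
    (b' * c' + a' * d') * A.det = b * c + a * d ∧
      (b' * c' + a' * d') * ‖A‖ ≤ 4 * (a + b) * (a' + b') := by
  have hD : 0 < b' * c' + a' * d' := by nlinarith
  constructor
  · have f1 := e1 1
    have f2 := e2 1
    have f3 := e1 Complex.I
    have f4 := e2 Complex.I
    simp only [Complex.one_re, Complex.one_im, Complex.I_re, Complex.I_im, mul_one, mul_zero,
      add_zero, zero_add, sub_zero, zero_sub] at f1 f2 f3 f4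
    rw [BAA.det_eq, ← f1, ← f2, ← f3, show c = -(-c) by ring, ← f4]
    ring
  · rw [mul_comm, ← le_div_iff₀ hD]
    refine A.opNorm_le_bound (div_nonneg (by nlinarith) hD.le) fun v => ?_
    rw [div_mul_eq_mul_div, le_div_iff₀ hD]
    have n1 := abs_le.1 (Complex.abs_re_le_norm v)
    have n2 := abs_le.1 (Complex.abs_im_le_norm v)
    have n0 := norm_nonneg v
    set N := 2 * (a + b) * ‖v‖ with hN
    have w1 : |b * v.re + d * v.im| ≤ N := abs_le.2 ⟨by nlinarith [n1.1, n2.1], by nlinarith [n1.2, n2.2]⟩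
    have w2 : |a * v.re - c * v.im| ≤ N := abs_le.2 ⟨by nlinarith [n1.1, n2.2], by nlinarith [n1.2, n2.1]⟩
    rw [← e1] at w1
    rw [← e2] at w2
    obtain ⟨w1, w1'⟩ := abs_le.1 w1
    obtain ⟨w2, w2'⟩ := abs_le.1 w2
    have hN0 : 0 ≤ N := by linarith
    have u1 : |(A v).re| * (b' * c' + a' * d') ≤ (a' + b') * N := by
      rw [← abs_of_pos hD, ← abs_mul]
      exact abs_le.2 ⟨by nlinarith, by nlinarith⟩
    have u2 : |(A v).im| * (b' * c' + a' * d') ≤ (a' + b') * N := by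
      rw [← abs_of_pos hD, ← abs_mul]
      exact abs_le.2 ⟨by nlinarith, by nlinarith⟩
    have u3 := mul_le_mul_of_nonneg_right (Complex.norm_le_abs_re_add_abs_im (A v)) hD.le
    nlinarith

/-- `Φ = H₂⁻¹ ∘ H₁`, where `H (x + i y) = (∫₀¹ h (x + t y) dt, ∫₀¹ h (x - t y) dt)`. -/
theorem ba {h₁ h₂ : ℝ → ℝ} (H₁ : Circ h₁) (H₂ : Circ h₂) : ∃ Φ : ℂ ≃ₜ ℂ,
    (∀ z, Φ (z + 2 * π) = Φ z + 2 * π) ∧ (∃ B : ℝ, ∀ z, ‖Φ z - z‖ ≤ B) ∧
    (∀ z, z.im = 0 ↔ (Φ z).im = 0) ∧ (∀ z, z.im < 0 ↔ (Φ z).im < 0) ∧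
    (∀ x : ℝ, h₂ (Φ x).re = h₁ x) ∧ ContDiffOn ℝ 1 Φ {z | z.im < 0} ∧
    ∀ z : ℂ, z.im < 0 → 0 < (fderiv ℝ Φ z).det ∧
      h₂ ((Φ z).re + (Φ z).im) ≤ h₁ z.re ∧
      h₁ z.re + h₁ (z.re - z.im / 2) ≤ 2 * h₂ ((Φ z).re - (Φ z).im) ∧
      ∀ Λ₁ Λ₂ : ℝ, Dbl h₁ z.re (-z.im) Λ₁ → Dbl h₂ (Φ z).re (-(Φ z).im) Λ₂ →
        ‖fderiv ℝ Φ z‖ ^ 2 ≤ 1000 * Λ₁ * Λ₂ * (fderiv ℝ Φ z).det := by
  set Φ : ℂ ≃ₜ ℂ := (BAA.GH H₁).trans (BAA.GH H₂).symm with hΦ
  have hG : ∀ z, BAA.G h₂ (Φ z) = BAA.G h₁ z := fun z => (BAA.GH H₂).apply_symm_apply _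
  have hneg : ∀ z, z.im < 0 ↔ (Φ z).im < 0 := fun z => by
    rw [← BAA.G_im_neg_iff H₁, ← hG, BAA.G_im_neg_iff H₂]
  have hzero : ∀ z, z.im = 0 ↔ (Φ z).im = 0 := fun z => by
    rw [← BAA.G_im_zero_iff H₁, ← hG, BAA.G_im_zero_iff H₂]
  have hC : ∀ z : ℂ, z.im < 0 → ContDiffAt ℝ 1 Φ z := fun z hz =>
    (BAA.symm_contDiffAt H₂ (BAA.G_im_neg H₁ hz)).comp z (BAA.G_contDiffAt H₁ hz)
  refine ⟨Φ, fun z => BAA.G_inj H₂ (by rw [hG, BAA.G_per H₁, BAA.G_per H₂, hG]), ?_, hzero, hneg,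
    fun x => ?_, fun z hz => (hC z hz).contDiffWithinAt, fun z hz => ?_⟩
  · obtain ⟨B₁, hB₁⟩ := BAA.G_bound H₁
    obtain ⟨B₂, hB₂⟩ := BAA.G_bound H₂
    refine ⟨B₁ + B₂, fun z => ?_⟩
    have : Φ z - z = (BAA.G h₁ z - z) - (BAA.G h₂ (Φ z) - Φ z) := by rw [hG]; ring
    rw [this]
    exact (norm_sub_le _ _).trans (add_le_add (hB₁ z) (hB₂ _))
  · have h1 := (BAA.G_eq_iff (hG x)).1
    rwa [(hzero x).1 (Complex.ofReal_im x), Complex.ofReal_im, BAA.al_zero, BAA.al_zero,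
      Complex.ofReal_re] at h1
  have hw := (hneg z).1 hz
  obtain ⟨a, b, c, d, hc, hd, hca, hdb, hΛ, h1, h2⟩ := BAA.coef H₁ hz
  obtain ⟨a', b', c', d', hc', hd', hca', hdb', hΛ', h1', h2'⟩ := BAA.coef H₂ hw
  have hA := ((hC z hz).differentiableAt one_ne_zero).hasFDerivAt
  have k1 := (h1'.comp z hA).unique
    (h1.congr_of_eventuallyEq (Eventually.of_forall fun w => (BAA.G_eq_iff (hG w)).1))
  have k2 := (h2'.comp z hA).unique
    (h2.congr_of_eventuallyEq (Eventually.of_forall fun w => (BAA.G_eq_iff (hG w)).2))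
  obtain ⟨c1, c2⟩ := BAA.cramer (A := fderiv ℝ Φ z) hc hd hca hdb hc' hd' hca' hdb'
    (fun v => by simpa using congrArg (fun T : ℂ →L[ℝ] ℝ => T v) k1)
    (fun v => by simpa [sub_eq_add_neg] using congrArg (fun T : ℂ →L[ℝ] ℝ => T v) k2)
  have hD : 0 < b * c + a * d := by nlinarith
  have hD' : 0 < b' * c' + a' * d' := by nlinarith
  have hdet : 0 < (fderiv ℝ Φ z).det := by
    by_contra hn
    nlinarith [not_lt.1 hn]
  obtain ⟨e1, e2⟩ := BAA.G_eq_iff (hG z)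
  refine ⟨hdet, ?_, ?_, fun Λ₁ Λ₂ d1 d2 => ?_⟩
  · have p1 := (BAA.al_neg H₂ (Φ z).re hw.le).1
    have p2 := (BAA.al_neg H₁ z.re hz.le).2
    have p3 : h₂ ((Φ z).re + (Φ z).im) ≤ h₂ ((Φ z).re + (Φ z).im / 2) :=
      H₂.mono.monotone (by linarith)
    have p4 : h₁ (z.re + z.im / 2) ≤ h₁ z.re := H₁.mono.monotone (by linarith)
    linarith
  · have p1 := (BAA.al_pos H₂ (Φ z).re (y := -(Φ z).im) (by linarith)).2
    have p2 := (BAA.al_pos H₁ z.re (y := -z.im) (by linarith)).1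
    have p3 : h₂ ((Φ z).re + -(Φ z).im / 2) ≤ h₂ ((Φ z).re + -(Φ z).im) :=
      H₂.mono.monotone (by linarith)
    rw [show z.re - z.im / 2 = z.re + -z.im / 2 by ring, sub_eq_add_neg]
    linarith
  · have q1 := hΛ Λ₁ d1
    have q2 := hΛ' Λ₂ d2
    have l1 : 0 ≤ Λ₁ := by
      by_contra hn
      nlinarith [not_le.1 hn]
    have l2 : 0 ≤ Λ₂ := by
      by_contra hn
      nlinarith [not_le.1 hn]
    have q3 : ((b' * c' + a' * d') * ‖fderiv ℝ Φ z‖) ^ 2 ≤ (4 * (a + b) * (a' + b')) ^ 2 :=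
      pow_le_pow_left₀ (by positivity) c2 2
    have q4 : (a + b) ^ 2 * (a' + b') ^ 2 ≤
        (2 * Λ₁ * (b * c + a * d)) * (2 * Λ₂ * (b' * c' + a' * d')) :=
      mul_le_mul q1 q2 (by positivity) (by positivity)
    rw [← c1] at q4
    set D := b' * c' + a' * d'
    have q5 : 0 ≤ D ^ 2 * (Λ₁ * Λ₂ * (fderiv ℝ Φ z).det) := by positivity
    refine le_of_mul_le_mul_left ?_ (pow_pos hD' 2)
    nlinarith

theorem BAA.conj_mul {S T : ℂ →L[ℝ] ℂ} {m n : ℂ} (hm : m ≠ 0) (h : ∀ v, S (m * v) = n * T v) :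
    ‖S‖ = ‖n‖ / ‖m‖ * ‖T‖ ∧ S.det = (‖n‖ / ‖m‖) ^ 2 * T.det := by
  have hm0 : 0 < ‖m‖ := norm_pos_iff.2 hm
  constructor
  · refine le_antisymm (S.opNorm_le_bound (by positivity) fun w => ?_) ?_
    · have h1 := h (w / m)
      rw [mul_div_cancel₀ _ hm] at h1
      rw [h1, norm_mul]
      have h2 := T.le_opNorm (w / m)
      rw [norm_div] at h2
      calc ‖n‖ * ‖T (w / m)‖ ≤ ‖n‖ * (‖T‖ * (‖w‖ / ‖m‖)) := by gcongr
        _ = _ := by ring
    · rcases eq_or_ne n 0 with rfl | hn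
      · simp
      have hn0 : 0 < ‖n‖ := norm_pos_iff.2 hn
      rw [div_mul_eq_mul_div, div_le_iff₀ hm0, mul_comm, ← le_div_iff₀ hn0]
      refine T.opNorm_le_bound (by positivity) fun v => ?_
      rw [div_mul_eq_mul_div, le_div_iff₀ hn0, mul_comm, ← norm_mul, ← h, mul_assoc, ← norm_mul]
      exact S.le_opNorm _
  · have e1 : m * 1 = m.re • (1 : ℂ) + m.im • Complex.I := by
      apply Complex.ext <;> simp
    have e2 : m * Complex.I = (-m.im) • (1 : ℂ) + m.re • Complex.I := by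
      apply Complex.ext <;> simp
    have h1 := h 1
    have h2 := h Complex.I
    rw [e1, map_add, map_smul, map_smul] at h1
    rw [e2, map_add, map_smul, map_smul] at h2
    have a1 := congrArg Complex.re h1
    have a2 := congrArg Complex.im h1
    have a3 := congrArg Complex.re h2
    have a4 := congrArg Complex.im h2
    simp only [Complex.add_re, Complex.add_im, Complex.smul_re, Complex.smul_im, smul_eq_mul,
      Complex.mul_re, Complex.mul_im] at a1 a2 a3 a4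
    rw [div_pow, div_mul_eq_mul_div, eq_div_iff (by positivity), Complex.sq_norm, Complex.sq_norm,
      Complex.normSq_apply, Complex.normSq_apply, BAA.det_eq, BAA.det_eq]
    linear_combination (-m.im * (S 1).im + m.re * (S Complex.I).im) * a1 +
      (n.re * (T 1).re - n.im * (T 1).im) * a4 -
      (-m.im * (S 1).re + m.re * (S Complex.I).re) * a2 -
      (n.re * (T 1).im + n.im * (T 1).re) * a3

/-- The map `Ψ (exp (i ζ)) = exp (i Φ ζ)` on the exterior of the unit disc. -/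
theorem exists_psi (Φ : ℂ ≃ₜ ℂ) (hp : ∀ z, Φ (z + 2 * π) = Φ z + 2 * π) {B : ℝ}
    (hB : ∀ z, ‖Φ z - z‖ ≤ B) (h0 : ∀ z, z.im = 0 ↔ (Φ z).im = 0)
    (h1 : ∀ z, z.im < 0 ↔ (Φ z).im < 0) (hC : ContDiffOn ℝ 1 Φ {z | z.im < 0}) :
    ∃ Ψ : ℂ → ℂ, (∀ ζ, Ψ (Complex.exp (ζ * Complex.I)) = Complex.exp (Φ ζ * Complex.I)) ∧
      ContinuousOn Ψ (ball 0 1)ᶜ ∧ BijOn Ψ (ball 0 1)ᶜ (ball 0 1)ᶜ ∧
      MapsTo Ψ (closedBall 0 1)ᶜ (closedBall 0 1)ᶜ ∧
      (∀ z, 1 ≤ ‖z‖ → Real.exp (-B) * ‖z‖ ≤ ‖Ψ z‖) ∧ ContDiffOn ℝ 1 Ψ (closedBall 0 1)ᶜ ∧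
      ∀ ζ : ℂ, ζ.im < 0 → ∃ a : ℝ, 0 < a ∧
        ‖fderiv ℝ Ψ (Complex.exp (ζ * Complex.I))‖ = a * ‖fderiv ℝ Φ ζ‖ ∧
        (fderiv ℝ Ψ (Complex.exp (ζ * Complex.I))).det = a ^ 2 * (fderiv ℝ Φ ζ).det := by
  have hint : ∀ (k : ℤ) (z : ℂ), Φ (z + k * (2 * π)) = Φ z + k * (2 * π) := by
    intro k z
    have hq : Function.Periodic (fun z => Φ z - z) (2 * π) := fun z => by
      simp only [hp]; ring
    have : Φ (z + k * (2 * π)) - (z + k * (2 * π)) = Φ z - z := hq.int_mul k z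
    linear_combination this
  have hex : ∀ ζ ζ' : ℂ, Complex.exp (ζ * Complex.I) = Complex.exp (ζ' * Complex.I) ↔
      ∃ k : ℤ, ζ = ζ' + k * (2 * π) := by
    intro ζ ζ'
    rw [Complex.exp_eq_exp_iff_exists_int]
    refine exists_congr fun k => ⟨fun h => mul_right_cancel₀ Complex.I_ne_zero ?_, fun h => ?_⟩
    · rw [h]; ring
    · rw [h]; ring
  have hwd : ∀ ζ ζ' : ℂ, Complex.exp (ζ * Complex.I) = Complex.exp (ζ' * Complex.I) ↔
      Complex.exp (Φ ζ * Complex.I) = Complex.exp (Φ ζ' * Complex.I) := by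
    intro ζ ζ'
    rw [hex, hex]
    refine exists_congr fun k => ?_
    rw [← hint, Φ.injective.eq_iff]
  have hlog : ∀ z : ℂ, z ≠ 0 → Complex.exp (-Complex.I * Complex.log z * Complex.I) = z := by
    intro z hz
    rw [show -Complex.I * Complex.log z * Complex.I = -(Complex.I * Complex.I) * Complex.log z by
      ring, Complex.I_mul_I, neg_neg, one_mul, Complex.exp_log hz]
  have hsur : ∀ z : ℂ, z ≠ 0 → ∃ ζ, z = Complex.exp (ζ * Complex.I) := fun z hz =>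
    ⟨_, (hlog z hz).symm⟩
  have hnorm : ∀ ζ : ℂ, ‖Complex.exp (ζ * Complex.I)‖ = Real.exp (-ζ.im) := fun ζ => by
    rw [Complex.norm_exp]; simp
  have hb : ∀ ζ : ℂ, Complex.exp (ζ * Complex.I) ∈ (ball (0 : ℂ) 1)ᶜ ↔ ζ.im ≤ 0 := fun ζ => by
    rw [mem_compl_iff, mem_ball_zero_iff, hnorm, not_lt, Real.one_le_exp_iff, neg_nonneg]
  have hcb : ∀ ζ : ℂ, Complex.exp (ζ * Complex.I) ∈ (closedBall (0 : ℂ) 1)ᶜ ↔ ζ.im < 0 := fun ζ => by
    rw [mem_compl_iff, mem_closedBall_zero_iff, hnorm, not_le, Real.one_lt_exp_iff, neg_pos]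
  have h2 : ∀ z : ℂ, z.im ≤ 0 ↔ (Φ z).im ≤ 0 := fun z => by
    rw [le_iff_lt_or_eq, le_iff_lt_or_eq, h0, h1]
  have hb0 : ∀ z ∈ (ball (0 : ℂ) 1)ᶜ, z ≠ 0 := fun z hz h => hz (by simp [h])
  have hcb0 : ∀ z ∈ (closedBall (0 : ℂ) 1)ᶜ, z ≠ 0 := fun z hz h => hz (by simp [h])
  set Ψ : ℂ → ℂ := fun z => Complex.exp (Φ (-Complex.I * Complex.log z) * Complex.I) with hΨ
  have hmain : ∀ ζ, Ψ (Complex.exp (ζ * Complex.I)) = Complex.exp (Φ ζ * Complex.I) := fun ζ =>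
    (hwd _ _).1 (hlog _ (Complex.exp_ne_zero _))
  have hloc : ∀ ζ : ℂ, Ψ =ᶠ[𝓝 (Complex.exp (ζ * Complex.I))] fun z => Complex.exp
      (Φ (ζ + -Complex.I * Complex.log (z / Complex.exp (ζ * Complex.I))) * Complex.I) := by
    intro ζ
    filter_upwards [eventually_ne_nhds (Complex.exp_ne_zero (ζ * Complex.I))] with z hz
    rw [← hmain, add_mul, Complex.exp_add, hlog _ (div_ne_zero hz (Complex.exp_ne_zero _)),
      mul_div_cancel₀ _ (Complex.exp_ne_zero _)]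
  have hin : ∀ ζ : ℂ, ContDiffAt ℝ 1
      (fun z => ζ + -Complex.I * Complex.log (z / Complex.exp (ζ * Complex.I)))
      (Complex.exp (ζ * Complex.I)) := by
    intro ζ
    have h3 : ContDiffAt ℂ 1 Complex.log
        (Complex.exp (ζ * Complex.I) / Complex.exp (ζ * Complex.I)) := by
      rw [div_self (Complex.exp_ne_zero _)]
      exact Complex.contDiffAt_log Complex.one_mem_slitPlane
    exact (contDiffAt_const.add (contDiffAt_const.mul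
      (ContDiffAt.comp (f := fun z => z / Complex.exp (ζ * Complex.I)) _ h3
        (contDiffAt_id.div_const _)))).restrict_scalars ℝ
  have hval : ∀ ζ : ℂ, ζ + -Complex.I *
      Complex.log (Complex.exp (ζ * Complex.I) / Complex.exp (ζ * Complex.I)) = ζ := fun ζ => by
    rw [div_self (Complex.exp_ne_zero _), Complex.log_one, mul_zero, add_zero]
  have hE : ContDiff ℝ 1 fun ζ : ℂ => Complex.exp (ζ * Complex.I) :=
    Complex.contDiff_exp.comp (contDiff_id.mul contDiff_const)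
  have hCA : ∀ ζ : ℂ, ζ.im < 0 → ContDiffAt ℝ 1 Φ ζ := fun ζ hζ =>
    hC.contDiffAt ((isOpen_lt Complex.continuous_im continuous_const).mem_nhds hζ)
  have hΨC : ∀ ζ : ℂ, ζ.im < 0 → ContDiffAt ℝ 1 Ψ (Complex.exp (ζ * Complex.I)) := by
    intro ζ hζ
    refine ContDiffAt.congr_of_eventuallyEq ?_ (hloc ζ)
    refine hE.contDiffAt.comp _ (ContDiffAt.comp _ (g := Φ) ?_ (hin ζ))
    rw [hval]
    exact hCA ζ hζ
  refine ⟨Ψ, hmain, fun z hz => ?_, ⟨fun z hz => ?_, fun z hz z' hz' e => ?_, fun w hw => ?_⟩,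
    fun z hz => ?_, fun z hz => ?_, fun z hz => ?_, fun ζ hζ => ?_⟩
  · obtain ⟨ζ, rfl⟩ := hsur z (hb0 z hz)
    refine ContinuousAt.continuousWithinAt (ContinuousAt.congr ?_ (hloc ζ).symm)
    exact hE.continuous.continuousAt.comp (Φ.continuous.continuousAt.comp (hin ζ).continuousAt)
  · obtain ⟨ζ, rfl⟩ := hsur z (hb0 z hz)
    rw [hmain, hb, ← h2, ← hb]
    exact hz
  · obtain ⟨ζ, rfl⟩ := hsur z (hb0 z hz)
    obtain ⟨ζ', rfl⟩ := hsur z' (hb0 z' hz')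
    rw [hmain, hmain] at e
    exact (hwd _ _).2 e
  · obtain ⟨ω, rfl⟩ := hsur w (hb0 w hw)
    obtain ⟨ζ, rfl⟩ := Φ.surjective ω
    exact ⟨_, (hb ζ).2 ((h2 ζ).2 ((hb _).1 hw)), hmain ζ⟩
  · obtain ⟨ζ, rfl⟩ := hsur z (hcb0 z hz)
    rw [hmain, hcb, ← h1, ← hcb]
    exact hz
  · obtain ⟨ζ, rfl⟩ := hsur z (by rintro rfl; norm_num at hz)
    rw [hmain, hnorm, hnorm, ← Real.exp_add, Real.exp_le_exp]
    have h3 := (abs_le.1 ((Complex.abs_im_le_norm (Φ ζ - ζ)).trans (hB ζ))).2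
    rw [Complex.sub_im] at h3
    linarith
  · obtain ⟨ζ, rfl⟩ := hsur z (hcb0 z hz)
    exact (hΨC ζ ((hcb ζ).1 hz)).contDiffWithinAt
  · have hd : ∀ ξ : ℂ, HasFDerivAt (fun ζ : ℂ => Complex.exp (ζ * Complex.I))
        ((ContinuousLinearMap.toSpanSingleton ℂ
          (Complex.exp (ξ * Complex.I) * Complex.I)).restrictScalars ℝ) ξ := fun ξ => by
      have := ((hasDerivAt_id ξ).mul_const Complex.I).cexp
      rw [one_mul] at this
      exact this.hasFDerivAt.restrictScalars ℝ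
    have k1 := ((hΨC ζ hζ).differentiableAt one_ne_zero).hasFDerivAt.comp ζ (hd ζ)
    have k2 := (hd (Φ ζ)).comp ζ ((hCA ζ hζ).differentiableAt one_ne_zero).hasFDerivAt
    have k3 := k1.unique (k2.congr_of_eventuallyEq (Eventually.of_forall hmain))
    have hm : ∀ ξ : ℂ, Complex.exp (ξ * Complex.I) * Complex.I ≠ 0 := fun ξ =>
      mul_ne_zero (Complex.exp_ne_zero _) Complex.I_ne_zero
    obtain ⟨c1, c2⟩ := BAA.conj_mul (S := fderiv ℝ Ψ (Complex.exp (ζ * Complex.I)))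
      (T := fderiv ℝ Φ ζ) (hm ζ) (n := Complex.exp (Φ ζ * Complex.I) * Complex.I) fun v => by
        simpa [mul_comm] using congrArg (fun T : ℂ →L[ℝ] ℂ => T v) k3
    exact ⟨_, div_pos (norm_pos_iff.2 (hm _)) (norm_pos_iff.2 (hm _)), c1, c2⟩

end Pool.Agent.P.MP_7f9008_an
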