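import Pool.Agent.P.MP_7f9008_an.Basic
import Pool.Agent.Lib.Brouwer.Basic

/-! The averages behind the Beurling-Ahlfors extension. -/

open Set Metric Filter Topology Real

noncomputable section
namespace Pool.Agent.P.MP_7f9008_an.BAA

/-- The average of `h` over the segment from `x` to `x + y`. -/
def al (h : ℝ → ℝ) (x y : ℝ) : ℝ := ∫ t in (0 : ℝ)..1, h (x + y * t)

/-- The normalised Beurling-Ahlfors extension. -/
def G (h : ℝ → ℝ) (z : ℂ) : ℂ :=
  ⟨π * (al h z.re z.im + al h z.re (-z.im)), 2 * π * (al h z.re z.im - al h z.re (-z.im))⟩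

variable {h : ℝ → ℝ}

theorem cont_seg (H : Continuous h) (x y : ℝ) : Continuous fun t : ℝ => h (x + y * t) := by
  fun_prop

theorem al_cont (H : Continuous h) : Continuous fun p : ℝ × ℝ => al h p.1 p.2 :=
  intervalIntegral.continuous_parametric_intervalIntegral_of_continuous'
    (f := fun (p : ℝ × ℝ) t => h (p.1 + p.2 * t)) (by unfold Function.uncurry; fun_prop) 0 1

theorem al_zero (x : ℝ) : al h x 0 = h x := by simp [al]

theorem al_lt (H : Circ h) {x y x' y' : ℝ} (h1 : x ≤ x') (h2 : x + y ≤ x' + y')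
    (h3 : x < x' ∨ x + y < x' + y') : al h x y < al h x' y' := by
  refine intervalIntegral.integral_lt_integral_of_continuousOn_of_le_of_exists_lt one_pos
    (cont_seg H.cont x y).continuousOn (cont_seg H.cont x' y').continuousOn
    (fun t ht => H.mono.monotone (by nlinarith [ht.1, ht.2])) ?_
  rcases h3 with h3 | h3
  · exact ⟨0, ⟨le_rfl, zero_le_one⟩, H.mono (by linarith)⟩
  · exact ⟨1, ⟨zero_le_one, le_rfl⟩, H.mono (by linarith)⟩

theorem al_per (H : Circ h) (x y : ℝ) : al h (x + 2 * π) y = al h x y + 1 := by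
  unfold al
  have : ∀ t : ℝ, h (x + 2 * π + y * t) = h (x + y * t) + 1 := fun t => by
    rw [← H.per]; congr 1; ring
  simp only [this]
  rw [intervalIntegral.integral_add ((cont_seg H.cont x y).intervalIntegrable _ _)
    (continuous_const.intervalIntegrable _ _)]
  simp

theorem half_le {f : ℝ → ℝ} (hf : Continuous f) {A B : ℝ} (h1 : ∀ t ∈ Icc (0 : ℝ) (1 / 2), A ≤ f t)
    (h2 : ∀ t ∈ Icc (1 / 2 : ℝ) 1, B ≤ f t) : A + B ≤ 2 * ∫ t in (0 : ℝ)..1, f t := by
  rw [← intervalIntegral.integral_add_adjacent_intervals (b := 1 / 2) (hf.intervalIntegrable _ _)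
    (hf.intervalIntegrable _ _)]
  have e1 := intervalIntegral.integral_mono_on (μ := MeasureTheory.volume) (by norm_num)
    (continuous_const.intervalIntegrable _ _) (hf.intervalIntegrable _ _) h1
  have e2 := intervalIntegral.integral_mono_on (μ := MeasureTheory.volume) (by norm_num)
    (continuous_const.intervalIntegrable _ _) (hf.intervalIntegrable _ _) h2
  simp only [intervalIntegral.integral_const, smul_eq_mul] at e1 e2
  linarith

theorem le_half {f : ℝ → ℝ} (hf : Continuous f) {A B : ℝ} (h1 : ∀ t ∈ Icc (0 : ℝ) (1 / 2), f t ≤ A)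
    (h2 : ∀ t ∈ Icc (1 / 2 : ℝ) 1, f t ≤ B) : 2 * ∫ t in (0 : ℝ)..1, f t ≤ A + B := by
  have := half_le (f := fun t => -f t) hf.neg (A := -A) (B := -B) (fun t ht => neg_le_neg (h1 t ht))
    (fun t ht => neg_le_neg (h2 t ht))
  rw [intervalIntegral.integral_neg] at this
  linarith

theorem al_pos (H : Circ h) (x : ℝ) {y : ℝ} (hy : 0 ≤ y) :
    h x + h (x + y / 2) ≤ 2 * al h x y ∧ 2 * al h x y ≤ h (x + y / 2) + h (x + y) :=
  ⟨half_le (cont_seg H.cont x y) (fun t ht => H.mono.monotone (by nlinarith [ht.1]))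
      (fun t ht => H.mono.monotone (by nlinarith [ht.1])),
    le_half (cont_seg H.cont x y) (fun t ht => H.mono.monotone (by nlinarith [ht.2]))
      (fun t ht => H.mono.monotone (by nlinarith [ht.2]))⟩

theorem al_neg (H : Circ h) (x : ℝ) {y : ℝ} (hy : y ≤ 0) :
    h (x + y / 2) + h (x + y) ≤ 2 * al h x y ∧ 2 * al h x y ≤ h x + h (x + y / 2) :=
  ⟨half_le (cont_seg H.cont x y) (fun t ht => H.mono.monotone (by nlinarith [ht.2]))
      (fun t ht => H.mono.monotone (by nlinarith [ht.2])),
    le_half (cont_seg H.cont x y) (fun t ht => H.mono.monotone (by nlinarith [ht.1]))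
      (fun t ht => H.mono.monotone (by nlinarith [ht.1]))⟩

theorem al_bound (H : Circ h) : ∃ B : ℝ, ∀ x y, |al h x y - (x + y / 2) / (2 * π)| ≤ B := by
  have hp : Function.Periodic (fun u => h u - u / (2 * π)) (2 * π) := fun u => by
    have : π ≠ 0 := pi_ne_zero
    simp only [H.per]
    field_simp
    ring
  have hc : Continuous fun u => h u - u / (2 * π) := H.cont.sub (continuous_id.div_const _)
  obtain ⟨B, hB⟩ := (hp.isBounded_of_continuous (by positivity) hc).exists_norm_le
  refine ⟨B, fun x y => ?_⟩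
  have e1 : (x + y / 2) / (2 * π) = ∫ t in (0 : ℝ)..1, (x + y * t) / (2 * π) := by
    rw [intervalIntegral.integral_div, intervalIntegral.integral_add (f := fun _ => x)
      (g := fun t => y * t) (continuous_const.intervalIntegrable _ _)
      (Continuous.intervalIntegrable (by fun_prop) _ _), intervalIntegral.integral_const_mul]
    simp
    ring
  unfold al
  rw [e1, ← intervalIntegral.integral_sub ((cont_seg H.cont x y).intervalIntegrable _ _)
    (Continuous.intervalIntegrable (by fun_prop) _ _)]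
  have := intervalIntegral.norm_integral_le_of_norm_le_const (a := 0) (b := 1) (C := B)
    (f := fun t => h (x + y * t) - (x + y * t) / (2 * π)) fun t _ => hB _ ⟨x + y * t, rfl⟩
  simpa using this

theorem G_cont (H : Continuous h) : Continuous (G h) := by
  have h1 : Continuous fun z : ℂ => al h z.re z.im :=
    (al_cont H).comp (Complex.continuous_re.prodMk Complex.continuous_im)
  have h2 : Continuous fun z : ℂ => al h z.re (-z.im) :=
    (al_cont H).comp (Complex.continuous_re.prodMk Complex.continuous_im.neg)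
  exact Complex.equivRealProdCLM.symm.continuous.comp
    ((continuous_const.mul (h1.add h2)).prodMk (continuous_const.mul (h1.sub h2)))

theorem G_eq_iff {h' : ℝ → ℝ} {z w : ℂ} (e : G h z = G h' w) :
    al h z.re z.im = al h' w.re w.im ∧ al h z.re (-z.im) = al h' w.re (-w.im) := by
  have h1 := congrArg Complex.re e
  have h2 := congrArg Complex.im e
  simp only [G] at h1 h2
  have h3 := mul_left_cancel₀ pi_ne_zero h1
  have h4 := mul_left_cancel₀ (by positivity : 2 * π ≠ 0) h2
  constructor <;> linarith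

theorem G_inj (H : Circ h) : Function.Injective (G h) := by
  intro z w e
  wlog hx : z.re ≤ w.re generalizing z w
  · exact (this e.symm (not_le.1 hx).le).symm
  obtain ⟨e1, e2⟩ := G_eq_iff e
  by_cases h1 : z.re + z.im ≤ w.re + w.im
  · by_contra hne
    refine (al_lt H hx h1 ?_).ne e1
    by_contra hc
    push Not at hc
    exact hne (Complex.ext (by linarith [hc.1]) (by linarith [hc.1, hc.2]))
  · exact absurd e2 (al_lt H hx (by linarith) (Or.inr (by linarith))).ne

theorem G_per (H : Circ h) (z : ℂ) : G h (z + 2 * π) = G h z + 2 * π := by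
  have h1 : (z + 2 * π).re = z.re + 2 * π := by simp
  have h2 : (z + 2 * π).im = z.im := by simp
  apply Complex.ext
  · simp only [G, h1, h2, al_per H]
    simp
    ring
  · simp only [G, h1, h2, al_per H]
    simp

theorem G_bound (H : Circ h) : ∃ B : ℝ, ∀ z, ‖G h z - z‖ ≤ B := by
  obtain ⟨B, hB⟩ := al_bound H
  refine ⟨2 * π * B + 4 * π * B, fun z => (Complex.norm_le_abs_re_add_abs_im _).trans ?_⟩
  have h1 := abs_le.1 (hB z.re z.im)
  have h2 := abs_le.1 (hB z.re (-z.im))
  have hπ := pi_pos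
  have e1 : (G h z - z).re = π * ((al h z.re z.im - (z.re + z.im / 2) / (2 * π)) +
      (al h z.re (-z.im) - (z.re + -z.im / 2) / (2 * π))) := by
    simp only [G, Complex.sub_re]
    field_simp
    ring
  have e2 : (G h z - z).im = 2 * π * ((al h z.re z.im - (z.re + z.im / 2) / (2 * π)) -
      (al h z.re (-z.im) - (z.re + -z.im / 2) / (2 * π))) := by
    simp only [G, Complex.sub_im]
    field_simp
    ring
  rw [e1, e2]
  refine add_le_add (abs_le.2 ⟨?_, ?_⟩) (abs_le.2 ⟨?_, ?_⟩) <;>
    nlinarith [h1.1, h1.2, h2.1, h2.2]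

theorem G_surj (H : Circ h) : Function.Surjective (G h) := by
  obtain ⟨B, hB⟩ := G_bound H
  intro w
  obtain ⟨z, hz⟩ := Pool.Agent.Lib.Brouwer.exists_fixedPoint_of_bounded
    (fun z => w - (G h z - z)) (continuous_const.sub ((G_cont H.cont).sub continuous_id))
    (‖w‖ + B) fun z => (norm_sub_le _ _).trans (add_le_add le_rfl (hB z))
  exact ⟨z, by linear_combination -hz⟩

theorem G_closed (H : Circ h) : IsClosedMap (G h) := by
  obtain ⟨B, hB⟩ := G_bound H
  refine (isProperMap_iff_tendsto_cocompact.2 ⟨G_cont H.cont, ?_⟩).isClosedMap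
  rw [← Metric.cobounded_eq_cocompact, ← tendsto_norm_atTop_iff_cobounded]
  refine tendsto_atTop_mono (fun z => ?_)
    (tendsto_atTop_add_const_right _ (-B) tendsto_norm_cobounded_atTop)
  have h1 := hB z
  have h2 := norm_sub_norm_le z (G h z)
  rw [norm_sub_rev] at h2
  linarith

/-- The extension as a homeomorphism. -/
def GH (H : Circ h) : ℂ ≃ₜ ℂ :=
  (Equiv.ofBijective (G h) ⟨G_inj H, G_surj H⟩).toHomeomorphOfContinuousClosed (G_cont H.cont)
    (G_closed H)

theorem GH_apply (H : Circ h) (z : ℂ) : GH H z = G h z := rfl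

theorem G_im_neg (H : Circ h) {z : ℂ} (hz : z.im < 0) : (G h z).im < 0 :=
  mul_neg_of_pos_of_neg (by positivity)
    (sub_neg.2 (al_lt H le_rfl (by linarith) (Or.inr (by linarith))))

theorem G_im_pos (H : Circ h) {z : ℂ} (hz : 0 < z.im) : 0 < (G h z).im :=
  mul_pos (by positivity) (sub_pos.2 (al_lt H le_rfl (by linarith) (Or.inr (by linarith))))

theorem G_im_zero {z : ℂ} (hz : z.im = 0) : (G h z).im = 0 := by simp [G, hz]

theorem G_im_neg_iff (H : Circ h) (z : ℂ) : (G h z).im < 0 ↔ z.im < 0 := by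
  refine ⟨fun h1 => ?_, G_im_neg H⟩
  rcases lt_trichotomy z.im 0 with h2 | h2 | h2
  · exact h2
  · exact absurd (G_im_zero (h := h) h2) h1.ne
  · exact absurd (G_im_pos H h2) (not_lt.2 h1.le)

theorem G_im_zero_iff (H : Circ h) (z : ℂ) : (G h z).im = 0 ↔ z.im = 0 := by
  refine ⟨fun h1 => ?_, G_im_zero⟩
  rcases lt_trichotomy z.im 0 with h2 | h2 | h2
  · exact absurd h1 (G_im_neg H h2).ne
  · exact h2
  · exact absurd h1 (G_im_pos H h2).ne'

end Pool.Agent.P.MP_7f9008_an.BAA
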