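import Pool.Agent.P.MP_7f9008_an.BAA

/-! Derivatives of the Beurling-Ahlfors extension. -/

open Set Metric Filter Topology Real

noncomputable section
namespace Pool.Agent.P.MP_7f9008_an.BAA

variable {h : ℝ → ℝ}

theorem det_eq (T : ℂ →L[ℝ] ℂ) :
    T.det = (T 1).re * (T Complex.I).im - (T Complex.I).re * (T 1).im := by
  rw [ContinuousLinearMap.det, ← LinearMap.det_toMatrix Complex.basisOneI, Matrix.det_fin_two]
  simp [LinearMap.toMatrix_apply]

/-- primitive -/
def prim (h : ℝ → ℝ) (u : ℝ) : ℝ := ∫ t in (0 : ℝ)..u, h t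

theorem prim_deriv (H : Continuous h) (u : ℝ) : HasDerivAt (prim h) (h u) u :=
  (H.integral_hasStrictDerivAt 0 u).hasDerivAt

theorem prim_contDiff (H : Continuous h) : ContDiff ℝ 1 (prim h) := by
  refine contDiff_one_iff_deriv.2 ⟨fun u => (prim_deriv H u).differentiableAt, ?_⟩
  have : deriv (prim h) = h := funext fun u => (prim_deriv H u).deriv
  rwa [this]

theorem al_eq (H : Continuous h) (x : ℝ) {y : ℝ} (hy : y ≠ 0) :
    al h x y = (prim h (x + y) - prim h x) * y⁻¹ := by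
  have h1 := intervalIntegral.smul_integral_comp_add_mul (a := 0) (b := 1) h y x
  rw [mul_zero, add_zero, mul_one, smul_eq_mul] at h1
  unfold prim al
  rw [intervalIntegral.integral_interval_sub_left (H.intervalIntegrable _ _)
    (H.intervalIntegrable _ _), ← h1]
  field_simp

theorem al_ev (H : Continuous h) (u v : ℂ →L[ℝ] ℝ) {z : ℂ} (hz : v z ≠ 0) :
    (fun w => al h (u w) (v w)) =ᶠ[𝓝 z] fun w => (prim h (u w + v w) - prim h (u w)) * (v w)⁻¹ := by
  filter_upwards [v.continuous.continuousAt.eventually_ne hz] with w hw using al_eq H _ hw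

theorem al_contDiffAt (H : Continuous h) (u v : ℂ →L[ℝ] ℝ) {z : ℂ} (hz : v z ≠ 0) :
    ContDiffAt ℝ 1 (fun w => al h (u w) (v w)) z := by
  refine ContDiffAt.congr_of_eventuallyEq ?_ (al_ev H u v hz)
  exact (((prim_contDiff H).comp (u.contDiff.add v.contDiff)).sub
    ((prim_contDiff H).comp u.contDiff)).contDiffAt.mul (v.contDiff.contDiffAt.inv hz)

theorem al_fderiv (H : Continuous h) (u v : ℂ →L[ℝ] ℝ) {z : ℂ} (hz : v z ≠ 0) :
    HasFDerivAt (fun w => al h (u w) (v w))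
      (((h (u z + v z) - h (u z)) / v z) • u + ((h (u z + v z) - al h (u z) (v z)) / v z) • v) z := by
  refine HasFDerivAt.congr_of_eventuallyEq ?_ (al_ev H u v hz)
  have h1 := (prim_deriv H (u z + v z)).comp_hasFDerivAt z (u.hasFDerivAt.add v.hasFDerivAt)
  have h2 := (prim_deriv H (u z)).comp_hasFDerivAt z u.hasFDerivAt
  have h3 := (hasDerivAt_inv hz).comp_hasFDerivAt z v.hasFDerivAt
  refine ((h1.sub h2).mul h3).congr_fderiv ?_
  ext w
  simp only [al_eq H _ hz, add_apply, smul_apply,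
    sub_apply, smul_eq_mul, Function.comp_apply, Pi.sub_apply, Pi.add_apply]
  field_simp
  ring

theorem coef (H : Circ h) {z : ℂ} (hz : z.im < 0) : ∃ a b c d : ℝ, 0 < c ∧ 0 < d ∧ c ≤ a ∧ d ≤ b ∧
    (∀ Λ, Dbl h z.re (-z.im) Λ → (a + b) ^ 2 ≤ 2 * Λ * (b * c + a * d)) ∧
    HasFDerivAt (fun w : ℂ => al h w.re w.im) (b • Complex.reCLM + d • Complex.imCLM) z ∧
    HasFDerivAt (fun w : ℂ => al h w.re (-w.im)) (a • Complex.reCLM + c • -Complex.imCLM) z := by
  have h1 := al_fderiv H.cont Complex.reCLM Complex.imCLM (z := z) hz.ne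
  have h2 := al_fderiv H.cont Complex.reCLM (-Complex.imCLM) (z := z) (by simpa using hz.ne)
  simp only [Complex.reCLM_apply, Complex.imCLM_apply, neg_apply] at h1 h2
  set x := z.re
  obtain ⟨Y, hY⟩ : ∃ Y, z.im = -Y := ⟨-z.im, by ring⟩
  have hY0 : 0 < Y := by linarith
  rw [hY] at h1 h2
  rw [neg_neg] at h2
  obtain ⟨p1, p2⟩ := al_pos H x hY0.le
  obtain ⟨n1, n2⟩ := al_neg H x (y := -Y) (by linarith)
  have m1 : h (x + -Y) < h (x + -Y / 2) := H.mono (by linarith)
  have m2 : h (x + -Y / 2) < h x := H.mono (by linarith)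
  have m3 : h x < h (x + Y / 2) := H.mono (by linarith)
  have m4 : h (x + Y / 2) < h (x + Y) := H.mono (by linarith)
  have eb : (h (x + -Y) - h x) / -Y = (h x - h (x + -Y)) / Y := by field_simp; ring
  have ed : (h (x + -Y) - al h x (-Y)) / -Y = (al h x (-Y) - h (x + -Y)) / Y := by field_simp; ring
  rw [eb, ed] at h1
  refine ⟨_, _, _, _, div_pos (by linarith) hY0, div_pos (by linarith) hY0,
    div_le_div_of_nonneg_right (by linarith) hY0.le,
    div_le_div_of_nonneg_right (by linarith) hY0.le, fun Λ hΛ => ?_, h1, h2⟩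
  obtain ⟨d1, d2⟩ := hΛ
  rw [hY, neg_neg] at d1 d2
  rw [show x - Y = x + -Y by ring] at d1 d2
  rw [show x - Y / 2 = x + -Y / 2 by ring] at d1
  have hΛ0 : 0 ≤ Λ := by
    by_contra hc
    nlinarith [not_le.1 hc]
  have e1 : h (x + Y) - h (x + -Y) ≤ 2 * Λ * (al h x (-Y) - h (x + -Y)) := by nlinarith
  have e2 : h (x + Y) - h (x + -Y) ≤ 2 * Λ * (h (x + Y) - al h x Y) := by nlinarith
  have e3 : ∀ A B C D : ℝ, (A / Y + B / Y) ^ 2 = (A + B) ^ 2 / Y ^ 2 ∧
      2 * Λ * (B / Y * (C / Y) + A / Y * (D / Y)) = 2 * Λ * (B * C + A * D) / Y ^ 2 :=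
    fun A B C D => ⟨by field_simp, by field_simp⟩
  rw [(e3 _ _ 0 0).1, (e3 _ _ _ _).2]
  refine div_le_div_of_nonneg_right ?_ (by positivity)
  nlinarith [mul_le_mul_of_nonneg_left e1 (show 0 ≤ h (x + Y) - h x by linarith),
    mul_le_mul_of_nonneg_left e2 (show 0 ≤ h x - h (x + -Y) by linarith)]

theorem G_contDiffAt (H : Circ h) {z : ℂ} (hz : z.im < 0) : ContDiffAt ℝ 1 (G h) z := by
  have h1 := al_contDiffAt H.cont Complex.reCLM Complex.imCLM (z := z) hz.ne
  have h2 := al_contDiffAt H.cont Complex.reCLM (-Complex.imCLM) (z := z) (by simpa using hz.ne)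
  exact Complex.equivRealProdCLM.symm.contDiff.contDiffAt.comp z
    ((contDiffAt_const.mul (h1.add h2)).prodMk (contDiffAt_const.mul (h1.sub h2)))

theorem symm_contDiffAt (H : Circ h) {w : ℂ} (hw : w.im < 0) : ContDiffAt ℝ 1 (GH H).symm w := by
  have hz : ((GH H).symm w).im < 0 := by
    rw [← G_im_neg_iff H, ← GH_apply H, Homeomorph.apply_symm_apply]
    exact hw
  obtain ⟨a, b, c, d, hc, hd, hca, hdb, -, h1, h2⟩ := coef H hz
  have h3 := Complex.equivRealProdCLM.symm.hasFDerivAt.comp ((GH H).symm w)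
    (((h1.add h2).const_mul π).prodMk ((h1.sub h2).const_mul (2 * π)))
  have key : ∀ T : ℂ →L[ℝ] ℂ, HasFDerivAt (G h) T ((GH H).symm w) → T.det ≠ 0 →
      ContDiffAt ℝ 1 (GH H).symm w := fun T hT hdet =>
    (GH H).toOpenPartialHomeomorph.contDiffAt_symm (mem_univ w)
      (f₀' := T.toContinuousLinearEquivOfDetNeZero hdet)
      (by rw [ContinuousLinearMap.coe_toContinuousLinearEquivOfDetNeZero]; exact hT)
      (G_contDiffAt H hz)
  refine key _ h3 ?_
  rw [det_eq]
  simp [Complex.equivRealProdCLM_symm_apply]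
  have : 0 < π ^ 2 * (b * c + a * d) := by
    have : 0 < a := by linarith
    have : 0 < b := by linarith
    positivity
  nlinarith

end Pool.Agent.P.MP_7f9008_an.BAA
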