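import Pool.Agent.P.MP_7f9008_an.Defs

/-! Shared auxiliary notions: logarithms, loops, diameters of arcs, circle homeomorphisms. -/

open MeasureTheory Set Metric Filter Topology Real

noncomputable section
namespace Pool.Agent.P.MP_7f9008_an

/-- `N` has a continuous logarithm on `S`. -/
def HasLog (S : Set ℂ) (N : ℂ → ℂ) : Prop :=
  ∃ l : ℂ → ℂ, ContinuousOn l S ∧ ∀ z ∈ S, Complex.exp (l z) = N z

/-- The `2π`-periodic curve `c` winds once around the origin. -/
def Idx (c : ℝ → ℂ) : Prop :=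
  ∃ l : ℝ → ℂ, Continuous l ∧ (∀ x, Complex.exp (l x) = c x) ∧
    ∀ x, l (x + 2 * π) = l x + 2 * π * Complex.I

/-- A `2π`-periodic parametrisation of a Jordan curve. -/
structure Loop (γ : ℝ → ℂ) : Prop where
  cont : Continuous γ
  per : ∀ x, γ (x + 2 * π) = γ x
  inj : ∀ x y, γ x = γ y → ∃ k : ℤ, y = x + k * (2 * π)

/-- Diameter of the arc `γ [u, v]`. -/
def dl (γ : ℝ → ℂ) (u v : ℝ) : ℝ := diam (γ '' Icc u v)

/-- Lift of an orientation preserving homeomorphism `ℝ / 2πℤ → ℝ / ℤ`. -/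
structure Circ (h : ℝ → ℝ) : Prop where
  cont : Continuous h
  mono : StrictMono h
  per : ∀ x, h (x + 2 * π) = h x + 1

/-- One-scale doubling condition with constant `Λ`. -/
def Dbl (h : ℝ → ℝ) (x y Λ : ℝ) : Prop :=
  h (x + y) - h (x - y) ≤ Λ * (h (x - y / 2) - h (x - y)) ∧
    h (x + y) - h (x - y) ≤ Λ * (h (x + y) - h (x + y / 2))

section dl
variable {γ : ℝ → ℂ} {u v w u' v' : ℝ}

theorem isBounded_arc (h : Continuous γ) (u v : ℝ) : Bornology.IsBounded (γ '' Icc u v) :=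
  (isCompact_Icc.image h).isBounded

theorem dl_nonneg : 0 ≤ dl γ u v := diam_nonneg

theorem dl_self : dl γ u u = 0 := by simp [dl]

theorem dl_mono (h : Continuous γ) (h1 : u' ≤ u) (h2 : v ≤ v') : dl γ u v ≤ dl γ u' v' :=
  diam_mono (image_mono (Icc_subset_Icc h1 h2)) (isBounded_arc h _ _)

theorem dist_le_dl (h : Continuous γ) {x y : ℝ} (hx : x ∈ Icc u v) (hy : y ∈ Icc u v) :
    dist (γ x) (γ y) ≤ dl γ u v :=
  dist_le_diam_of_mem (isBounded_arc h _ _) (mem_image_of_mem _ hx) (mem_image_of_mem _ hy)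

theorem dl_le {C : ℝ} (hC : 0 ≤ C) (h : ∀ x ∈ Icc u v, ∀ y ∈ Icc u v, dist (γ x) (γ y) ≤ C) :
    dl γ u v ≤ C :=
  diam_le_of_forall_dist_le hC (by rintro _ ⟨x, hx, rfl⟩ _ ⟨y, hy, rfl⟩; exact h x hx y hy)

theorem dl_triangle (h1 : u ≤ v) (h2 : v ≤ w) : dl γ u w ≤ dl γ u v + dl γ v w := by
  unfold dl
  rw [← Icc_union_Icc_eq_Icc h1 h2, image_union]
  exact diam_union' ⟨γ v, mem_image_of_mem _ ⟨h1, le_rfl⟩, mem_image_of_mem _ ⟨le_rfl, h2⟩⟩

theorem per_int {β : Type*} {γ : ℝ → β} (hp : ∀ x, γ (x + 2 * π) = γ x) (k : ℤ) (x : ℝ) :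
    γ (x + k * (2 * π)) = γ x :=
  (Function.Periodic.int_mul (f := γ) (c := 2 * π) hp k) x

theorem dl_add_int (hp : ∀ x, γ (x + 2 * π) = γ x) (k : ℤ) (u v : ℝ) :
    dl γ (u + k * (2 * π)) (v + k * (2 * π)) = dl γ u v := by
  unfold dl
  rw [← image_add_const_Icc, image_image]
  simp only [per_int hp]

theorem uniformContinuous_of_per (h : Continuous γ) (hp : ∀ x, γ (x + 2 * π) = γ x) :
    UniformContinuous γ := by
  rw [Metric.uniformContinuous_iff]
  intro ε hε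
  have hK : IsCompact (Icc (-1 : ℝ) (2 * π + 1)) := isCompact_Icc
  obtain ⟨η, hη, H⟩ := Metric.uniformContinuousOn_iff.1
    (hK.uniformContinuousOn_of_continuous h.continuousOn) ε hε
  refine ⟨min η 1, by positivity, fun {a b} hab => ?_⟩
  have h2 : (0 : ℝ) < 2 * π := by positivity
  set k : ℤ := -⌊a / (2 * π)⌋
  have ha : a + k * (2 * π) ∈ Ico (0 : ℝ) (2 * π) := by
    have f1 := Int.floor_le (a / (2 * π))
    have f2 := Int.lt_floor_add_one (a / (2 * π))
    rw [le_div_iff₀ h2] at f1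
    rw [div_lt_iff₀ h2] at f2
    constructor <;> simp only [k, Int.cast_neg] <;> nlinarith
  have hab1 : |a - b| < 1 := (lt_min_iff.1 hab).2
  rw [abs_lt] at hab1
  rw [← per_int hp k a, ← per_int hp k b]
  refine H _ ⟨by linarith [ha.1], by linarith [ha.2]⟩ _ ⟨by linarith [ha.1], by linarith [ha.2]⟩ ?_
  rw [dist_add_right]; exact (lt_min_iff.1 hab).1

theorem exists_dl_le (h : Continuous γ) (hp : ∀ x, γ (x + 2 * π) = γ x) {ε : ℝ} (hε : 0 < ε) :
    ∃ η > 0, ∀ u v, v - u ≤ η → dl γ u v ≤ ε := by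
  obtain ⟨η, hη, H⟩ := Metric.uniformContinuous_iff_le.1 (uniformContinuous_of_per h hp) ε hε
  refine ⟨η, hη, fun u v huv => dl_le hε.le fun x hx y hy => H ?_⟩
  rw [Real.dist_eq, abs_le]
  constructor <;> linarith [hx.1, hx.2, hy.1, hy.2]

theorem continuousOn_dl (h : Continuous γ) (hp : ∀ x, γ (x + 2 * π) = γ x) (u : ℝ) :
    ContinuousOn (dl γ u) (Ici u) := by
  rw [Metric.continuousOn_iff]
  intro b hb ε hε
  obtain ⟨η, hη, H⟩ := exists_dl_le h hp (half_pos hε)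
  refine ⟨η, hη, fun a ha hab => ?_⟩
  rw [Real.dist_eq, abs_lt] at hab ⊢
  rcases le_total a b with h1 | h1
  · have := dl_mono (γ := γ) h (le_refl u) h1
    have := dl_triangle (γ := γ) (show u ≤ a from ha) h1
    have := H a b (by linarith)
    constructor <;> linarith
  · have := dl_mono (γ := γ) h (le_refl u) h1
    have := dl_triangle (γ := γ) (show u ≤ b from hb) h1
    have := H b a (by linarith)
    constructor <;> linarith

end dl

end Pool.Agent.P.MP_7f9008_an
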