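import Pool.Agent.P.MP_7f9008_an.GlueA

/-! Removability of the unit circle and integrability near it. -/

open MeasureTheory Set Metric Filter Topology Real Pool.Agent.Lib.Sob

noncomputable section
namespace Pool.Agent.P.MP_7f9008_an

theorem w11_iff {U : Set ℂ} (hU : IsOpen U) {f : ℂ → ℂ} {D : ℂ → ℂ →L[ℝ] ℂ} :
    W11 U f D ↔ WD 1 U f D :=
  ⟨fun h => ⟨GlueA.locLp_one h.1, GlueA.locLp_one h.2.1, fun φ hφ => h.2.2 φ hφ.1 hφ.2.1 hφ.2.2⟩,
    fun h => ⟨h.1.locallyIntegrableOn le_rfl hU, h.2.1.locallyIntegrableOn le_rfl hU,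
      fun φ a b c => h.2.2 φ ⟨a, b, c⟩⟩⟩

theorem glue {F : ℂ → ℂ} (hF : Continuous F) {D : ℂ → ℂ →L[ℝ] ℂ} (h₁ : WD 1 (ball 0 1) F D)
    (h₂ : WD 1 (closedBall 0 1)ᶜ F D) (hD : LocallyIntegrable D) : WD 1 univ F D :=
  GlueA.glue hF h₁ h₂ hD

namespace GlueA

/-- The outer collar of the unit circle. -/
def Col (δ : ℝ) : Set ℂ := ball 0 (1 + δ) \ closedBall 0 1

theorem mem_Col {δ : ℝ} {z : ℂ} : z ∈ Col δ ↔ ‖z‖ < 1 + δ ∧ 1 < ‖z‖ := by
  simp [Col]

theorem measurableSet_Col (δ : ℝ) : MeasurableSet (Col δ) :=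
  measurableSet_ball.diff measurableSet_closedBall

theorem Col_subset (δ : ℝ) : Col δ ⊆ (closedBall 0 1)ᶜ := fun _ h => h.2

theorem integrableOn_rpow :
    IntegrableOn (fun z : ℂ => (‖z‖ - 1) ^ (-(1 / 2) : ℝ)) (ball 0 2) := by
  rw [integrableOn_fun_norm_addHaar volume (f := fun y : ℝ => (y - 1) ^ (-(1 / 2) : ℝ))]
  have h := ((intervalIntegral.intervalIntegrable_rpow' (r := -(1 / 2)) (a := -1) (b := 1)
    (by norm_num)).comp_sub_right 1).continuousOn_mul
    (g := fun y : ℝ => y ^ (Module.finrank ℝ ℂ - 1)) (by fun_prop)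
  rw [intervalIntegrable_iff_integrableOn_Ioo_of_le (by norm_num)] at h
  norm_num at h ⊢
  exact h

theorem locInt_of_pieces {V : Type*} [NormedAddCommGroup V] {u : ℂ → V} {δ : ℝ} (hδ : 0 < δ)
    (h1 : IntegrableOn u (ball 0 1)) (h2 : IntegrableOn u (Col δ))
    (h3 : ContinuousOn u (closedBall 0 1)ᶜ) : LocallyIntegrable u := by
  refine locallyIntegrable_iff.2 fun K hK => ?_
  have h4 : IntegrableOn u (sphere 0 1) := .of_measure_zero (Measure.addHaar_sphere _ _ _)
  have h5 : IntegrableOn u (K \ ball 0 (1 + δ)) :=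
    (h3.mono fun z hz h => hz.2 (closedBall_subset_ball (by linarith) h)).integrableOn_compact
      (hK.diff isOpen_ball)
  refine (((h1.union h4).union h2).union h5).mono_set fun z hz => ?_
  by_cases a : z ∈ ball (0 : ℂ) (1 + δ)
  · by_cases b : z ∈ closedBall (0 : ℂ) 1
    · exact Or.inl (Or.inl (by rwa [ball_union_sphere]))
    · exact Or.inl (Or.inr ⟨a, b⟩)
  · exact Or.inr ⟨hz, a⟩

theorem measurable_K : Measurable fun L : ℂ →L[ℝ] ℂ =>
    if 0 < L.det then ‖L‖ ^ 2 / L.det else 1 :=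
  Measurable.ite (measurableSet_lt measurable_const ContinuousLinearMap.continuous_det.measurable)
    ((measurable_norm.pow_const 2).div ContinuousLinearMap.continuous_det.measurable)
    measurable_const

theorem log_le_rpow {s : ℝ} (hs : 0 < s) : Real.log (1 / s) ≤ 2 * s ^ (-(1 / 2) : ℝ) := by
  have h := Real.add_one_le_exp (Real.log s * -(1 / 2))
  rw [← Real.rpow_def_of_pos hs] at h
  rw [one_div, Real.log_inv]
  linarith

theorem le_add_of_sq_le_mul {x a b : ℝ} (h : x ^ 2 ≤ a * b) (ha : 0 ≤ a) (hb : 0 ≤ b) :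
    x ≤ a + b :=
  (le_abs_self x).trans (abs_le_of_sq_le_sq (by nlinarith [mul_nonneg ha hb]) (add_nonneg ha hb))

end GlueA

open GlueA

/-- Assembling the extension. Inside the disc the distortion is bounded and the area is finite,
outside the map is `C¹` with distortion of logarithmic growth at the circle. -/
theorem finDist_glue (F : ℂ ≃ₜ ℂ) {D₀ : ℂ → ℂ →L[ℝ] ℂ} (h₀ : FinDist (ball 0 1) F D₀) {M : ℝ}
    (hM : ∀ᵐ x ∂(volume.restrict (ball (0 : ℂ) 1)), Kf D₀ x ≤ M)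
    (hJ : ∫⁻ x in ball (0 : ℂ) 1, ENNReal.ofReal |(D₀ x).det| < ⊤)
    (hC : ContDiffOn ℝ 1 F (closedBall 0 1)ᶜ)
    (hdet : ∀ z : ℂ, 1 < ‖z‖ → 0 < (fderiv ℝ F z).det) {A ε : ℝ} (hε : 0 < ε)
    (hK : ∀ z : ℂ, 1 < ‖z‖ → ‖z‖ < 1 + ε →
      ‖fderiv ℝ F z‖ ^ 2 ≤ A * Real.log (1 / (‖z‖ - 1)) * (fderiv ℝ F z).det) :
    ∃ D, FinDist univ F D ∧ ∃ l : ℝ, 0 < l ∧
      LocallyIntegrable fun x => Real.exp (l * Kf D x) := by
  obtain ⟨⟨m1, m2, m3⟩, m4, K₀, mK₀, hK₀, hK₀'⟩ := h₀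
  obtain ⟨D, hD⟩ : ∃ D : ℂ → ℂ →L[ℝ] ℂ, D = fun z => if ‖z‖ < 1 then D₀ z else fderiv ℝ F z :=
    ⟨_, rfl⟩
  have hO : IsOpen (closedBall (0 : ℂ) 1)ᶜ := isClosed_closedBall.isOpen_compl
  have out : ∀ z ∈ (closedBall (0 : ℂ) 1)ᶜ, 1 < ‖z‖ := fun z hz => by simpa using hz
  have eIn : ∀ z ∈ ball (0 : ℂ) 1, D z = D₀ z := fun z hz => by
    rw [hD]; exact if_pos (mem_ball_zero_iff.1 hz)
  have eOut : ∀ z ∈ (closedBall (0 : ℂ) 1)ᶜ, D z = fderiv ℝ F z := fun z hz => by
    rw [hD]; exact if_neg (not_lt.2 (out z hz).le)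
  have cF : ContinuousOn (fderiv ℝ F) (closedBall 0 1)ᶜ := hC.continuousOn_fderiv_of_isOpen hO le_rfl
  have cD : ContinuousOn D (closedBall 0 1)ᶜ := cF.congr eOut
  have cJ : ContinuousOn (fun z => (D z).det) (closedBall 0 1)ᶜ :=
    ContinuousLinearMap.continuous_det.comp_continuousOn cD
  have pJ : ∀ z ∈ (closedBall (0 : ℂ) 1)ᶜ, 0 < (D z).det := fun z hz => by
    rw [eOut z hz]; exact hdet z (out z hz)
  have eK : ∀ z ∈ (closedBall (0 : ℂ) 1)ᶜ, Kf D z = ‖D z‖ ^ 2 / (D z).det := fun z hz =>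
    if_pos (pJ z hz)
  have cK : ContinuousOn (Kf D) (closedBall 0 1)ᶜ :=
    ((cD.norm.pow 2).div cJ fun z hz => (pJ z hz).ne').congr eK
  obtain ⟨δ, hδ, hδε, hδ1⟩ : ∃ δ : ℝ, 0 < δ ∧ δ ≤ ε ∧ δ ≤ 1 :=
    ⟨min ε 1, lt_min hε one_pos, min_le_left _ _, min_le_right _ _⟩
  have mC := measurableSet_Col δ
  have iw : IntegrableOn (fun z : ℂ => (‖z‖ - 1) ^ (-(1 / 2) : ℝ)) (Col δ) :=
    integrableOn_rpow.mono_set fun z hz => ball_subset_ball (by linarith) hz.1
  have bK : ∀ z ∈ Col δ, Kf D z ≤ |A| * Real.log (1 / (‖z‖ - 1)) := fun z hz => by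
    obtain ⟨a, b⟩ := mem_Col.1 hz
    have c : 0 ≤ Real.log (1 / (‖z‖ - 1)) :=
      Real.log_nonneg (by rw [le_div_iff₀ (by linarith)]; linarith)
    rw [eK z hz.2, div_le_iff₀ (pJ z hz.2), eOut z hz.2]
    exact (hK z b (by linarith)).trans (mul_le_mul_of_nonneg_right
      (mul_le_mul_of_nonneg_right (le_abs_self A) c) (hdet z b).le)
  have aIn : AEStronglyMeasurable D (volume.restrict (ball (0 : ℂ) 1)) :=
    m2.aestronglyMeasurable.congr
      ((ae_restrict_mem measurableSet_ball).mono fun z hz => (eIn z hz).symm)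
  have iJ1 : IntegrableOn (fun z => (D z).det) (ball 0 1) := by
    refine IntegrableOn.congr_fun ⟨m4.aestronglyMeasurable, ?_⟩ (fun z hz => by rw [eIn z hz])
      measurableSet_ball
    simpa only [hasFiniteIntegral_iff_norm, Real.norm_eq_abs] using hJ
  have iJ2 : IntegrableOn (fun z => (D z).det) (Col δ) := by
    refine ⟨(cJ.mono (Col_subset δ)).aestronglyMeasurable mC, ?_⟩
    rw [hasFiniteIntegral_iff_norm]
    refine (lintegral_abs_det_fderiv_le_addHaar_image volume mC (f := F) (fun z hz => ?_)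
      F.injective.injOn).trans_lt ?_
    · rw [eOut z hz.2]
      exact ((hC.differentiableOn one_ne_zero z hz.2).differentiableAt
        (hO.mem_nhds hz.2)).hasFDerivAt.hasFDerivWithinAt
    · exact (measure_mono (image_mono fun z hz => ball_subset_closedBall hz.1)).trans_lt
        ((isCompact_closedBall 0 (1 + δ)).image F.continuous).measure_lt_top
  have iD1 : IntegrableOn D (ball 0 1) := by
    have i1 : IntegrableOn (fun z => 1 + |M| * |(D z).det|) (ball (0 : ℂ) 1) :=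
      (integrableOn_const measure_ball_lt_top.ne).add (iJ1.abs.const_mul _)
    refine i1.mono' aIn ?_
    filter_upwards [hM, hK₀', ae_restrict_mem measurableSet_ball] with z a b c
    rw [eIn z c]
    have d : ‖D₀ z‖ ^ 2 ≤ |M| * |(D₀ z).det| := by
      by_cases h : 0 < (D₀ z).det
      · rw [Kf, if_pos h, div_le_iff₀ h] at a
        rw [abs_of_pos h]
        exact a.trans (mul_le_mul_of_nonneg_right (le_abs_self M) h.le)
      · exact b.trans ((mul_nonpos_of_nonneg_of_nonpos (by linarith [hK₀ z])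
          (not_lt.1 h)).trans (by positivity))
    nlinarith [sq_nonneg (‖D₀ z‖ - 1), norm_nonneg (D₀ z)]
  have iD2 : IntegrableOn D (Col δ) := by
    have i1 : IntegrableOn (fun z => |A| * (2 * (‖z‖ - 1) ^ (-(1 / 2) : ℝ)) + (D z).det)
        (Col δ) := ((iw.const_mul 2).const_mul _).add iJ2
    refine i1.mono' ((cD.mono (Col_subset δ)).aestronglyMeasurable mC) ?_
    filter_upwards [ae_restrict_mem mC] with z hz
    have a := mem_Col.1 hz
    have b := (bK z hz).trans (mul_le_mul_of_nonneg_left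
      (log_le_rpow (s := ‖z‖ - 1) (by linarith [a.2])) (abs_nonneg A))
    have c := pJ z hz.2
    rw [eK z hz.2, div_le_iff₀ c] at b
    have d : 0 ≤ |A| * (2 * (‖z‖ - 1) ^ (-(1 / 2) : ℝ)) :=
      mul_nonneg (abs_nonneg A) (mul_nonneg two_pos.le (Real.rpow_nonneg (by linarith [a.2]) _))
    exact le_add_of_sq_le_mul b d c.le
  have lD := locInt_of_pieces hδ iD1 iD2 cD
  have w1 : WD 1 (ball 0 1) F D :=
    ((w11_iff isOpen_ball).1 ⟨m1, m2, m3⟩).congr' (fun _ _ => rfl) fun z hz => (eIn z hz).symm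
  have w2 : WD 1 (closedBall 0 1)ᶜ F D :=
    (WD.of_contDiffOn le_rfl hO hC).congr' (fun _ _ => rfl) fun z hz => (eOut z hz).symm
  have hl : 0 < 1 / (2 * (|A| + 1)) := by positivity
  refine ⟨D, ⟨(w11_iff isOpen_univ).2 (glue F.continuous w1 w2 lD),
    locallyIntegrableOn_univ.2 (locInt_of_pieces hδ iJ1 iJ2 cJ),
    fun z => if ‖z‖ < 1 then K₀ z else max 1 (‖fderiv ℝ F z‖ ^ 2 / (fderiv ℝ F z).det),
    ?_, fun z => ?_, ?_⟩, 1 / (2 * (|A| + 1)), hl, locInt_of_pieces hδ ?_ ?_ ?_⟩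
  · exact Measurable.ite (measurableSet_lt measurable_norm measurable_const) mK₀
      (measurable_const.max (((measurable_fderiv ℝ F).norm.pow_const 2).div
        (ContinuousLinearMap.continuous_det.measurable.comp (measurable_fderiv ℝ F))))
  · beta_reduce
    split_ifs
    · exact hK₀ z
    · exact le_max_left _ _
  · rw [Measure.restrict_univ]
    filter_upwards [(ae_restrict_iff' measurableSet_ball).1 hK₀', ae_norm_ne_one] with z a b
    rcases lt_or_gt_of_ne b with h | h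
    · rw [if_pos h, eIn z (mem_ball_zero_iff.2 h)]
      exact a (mem_ball_zero_iff.2 h)
    · rw [if_neg (not_lt.2 h.le), eOut z (by simpa using h), ← div_le_iff₀ (hdet z h)]
      exact le_max_right _ _
  · have i1 : IntegrableOn (fun _ => Real.exp (1 / (2 * (|A| + 1)) * M)) (ball (0 : ℂ) 1) :=
      integrableOn_const measure_ball_lt_top.ne
    refine i1.mono' (((measurable_K.comp_aemeasurable aIn.aemeasurable).const_mul
      _).exp.aestronglyMeasurable) ?_
    filter_upwards [hM, ae_restrict_mem measurableSet_ball] with z a c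
    have : Kf D z = Kf D₀ z := by simp only [Kf, eIn z c]
    rw [Real.norm_of_nonneg (Real.exp_pos _).le, this]
    exact Real.exp_le_exp.2 (mul_le_mul_of_nonneg_left a hl.le)
  · refine iw.mono' ((((continuousOn_const.mul cK).rexp).mono
      (Col_subset δ)).aestronglyMeasurable mC) ?_
    filter_upwards [ae_restrict_mem mC] with z hz
    have a := mem_Col.1 hz
    have c : 0 ≤ Real.log (1 / (‖z‖ - 1)) :=
      Real.log_nonneg (by rw [le_div_iff₀ (by linarith [a.2])]; linarith [a.1])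
    rw [Real.norm_of_nonneg (Real.exp_pos _).le, Real.rpow_def_of_pos (by linarith [a.2])]
    refine Real.exp_le_exp.2 ((mul_le_mul_of_nonneg_left (bK z hz) hl.le).trans ?_)
    have d : 1 / (2 * (|A| + 1)) * |A| ≤ 1 / 2 := by
      rw [div_mul_eq_mul_div, div_le_iff₀ (by positivity)]
      linarith
    have e := mul_le_mul_of_nonneg_right d c
    rw [← mul_assoc]
    rw [one_div (‖z‖ - 1), Real.log_inv] at e ⊢
    linarith
  · exact (continuousOn_const.mul cK).rexp

end Pool.Agent.P.MP_7f9008_an
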