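import Pool.Agent.P.MP_7f9008_an.Whit
import Pool.Agent.P.MP_7f9008_an.Glue

/-! Passing between the definitions of the statement and the working notions. -/

open MeasureTheory Set Metric Filter Topology Real Pool.Agent.Lib.Sob Complex
open scoped ENNReal

noncomputable section
namespace Pool.Agent.P.MP_7f9008_an

/-- A parametrisation of the closed Jordan domain by the closed disc. -/
structure Disc (Ω : Set ℂ) (g : ℂ → ℂ) (K : ℝ) : Prop where
  cont : ContinuousOn g (closedBall 0 1)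
  inj : InjOn g (closedBall 0 1)
  img : g '' ball 0 1 = Ω
  sph : g '' sphere 0 1 = frontier Ω
  side : Side (frontier Ω) (fun z => g (exp (z * I))) K
  idx : Idx fun x : ℝ => g (exp (x * I)) - g 0

variable {U V : Set ℂ} {P P' : ℂ → ℂ} {D : ℂ → ℂ →L[ℝ] ℂ}

theorem fderiv_eq_of_eqOn (hU : IsOpen U) (e : EqOn P P' U) {z : ℂ} (hz : z ∈ U) :
    fderiv ℝ P z = fderiv ℝ P' z :=
  (e.eventuallyEq_of_mem (hU.mem_nhds hz)).fderiv_eq

theorem Hom.congr (h : Hom U P) (e : EqOn P P' U) : Hom U P' :=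
  ⟨h.isOpen, h.cont.congr e.symm, h.inj.congr e, fun O hO hO' => by
    rw [← (e.mono hO).image_eq]; exact h.opn O hO hO'⟩

theorem QC.congr (h : QC U P) (e : EqOn P P' U) : QC U P' := by
  refine ⟨h.toHom.congr e, h.diff.mono fun z hz hzU => (hz hzU).congr_of_eventuallyEq
    (e.symm.eventuallyEq_of_mem (h.isOpen.mem_nhds hzU)), Appr.congr (D := fderiv ℝ P) ?_
      (Eventually.of_forall fun z hz => fderiv_eq_of_eqOn h.isOpen e hz)⟩
  intro K hK hKU
  obtain ⟨v, h1, h2, h3⟩ := h.appr K hK hKU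
  exact ⟨v, h1, fun z hz => e (hKU hz) ▸ h2 z hz, h3⟩

theorem DistLe.congr {K : ℂ → ℝ≥0∞} (h : DistLe U P K) (hU : IsOpen U) (e : EqOn P P' U) :
    DistLe U P' K :=
  h.mono fun _ hz hzU => fderiv_eq_of_eqOn hU e hzU ▸ hz hzU

theorem DistLe.mono {K K' : ℂ → ℝ≥0∞} (h : DistLe U P K) (hVU : V ⊆ U)
    (hK : ∀ᵐ z, z ∈ V → K z ≤ K' z) : DistLe V P K' := by
  filter_upwards [h, hK] with z h1 h2 hz
  exact (h1 (hVU hz)).trans (by gcongr; exact h2 hz)

theorem measurable_Kf (P : ℂ → ℂ) : Measurable (Kf (fderiv ℝ P)) := by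
  have m : Measurable fun z => (fderiv ℝ P z).det :=
    ContinuousLinearMap.continuous_det.measurable.comp (measurable_fderiv ℝ P)
  exact Measurable.ite (measurableSet_lt measurable_const m)
    (((measurable_fderiv ℝ P).norm.pow_const 2).div m) measurable_const

theorem FinDist.qc (hH : Hom U P) (h : FinDist U P D) :
    QC U P ∧ (∀ᵐ z, z ∈ U → fderiv ℝ P z = D z) ∧
      (∀ᵐ z, z ∈ U → 0 < (fderiv ℝ P z).det ∨ fderiv ℝ P z = 0) ∧
      DistLe U P fun z => ENNReal.ofReal (Kf (fderiv ℝ P) z) := by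
  obtain ⟨h1, h2⟩ := QC.of_wd hH ((w11_iff hH.isOpen).1 h.1)
  obtain ⟨K, -, hK1, hK⟩ := h.2.2
  rw [ae_restrict_iff' hH.isOpen.measurableSet] at hK
  have h3 : ∀ᵐ z, z ∈ U → 0 < (fderiv ℝ P z).det ∨ fderiv ℝ P z = 0 := by
    filter_upwards [h2, hK] with z e1 e2 hz
    rw [e1 hz]
    refine (lt_or_ge 0 (D z).det).imp_right fun h0 => norm_eq_zero.1 ?_
    have := (e2 hz).trans (mul_nonpos_of_nonneg_of_nonpos (by linarith [hK1 z]) h0)
    exact pow_eq_zero_iff two_ne_zero |>.1 (le_antisymm this (by positivity))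
  refine ⟨h1, h2, h3, h3.mono fun z e hz => ?_⟩
  rcases e hz with h0 | h0
  · simp only [Kf, h0, if_true]
    rw [← ENNReal.ofReal_mul (abs_nonneg _), abs_of_pos h0, mul_div_cancel₀ _ h0.ne',
      ENNReal.ofReal_pow (norm_nonneg _), ofReal_norm]
  · simp [h0]

theorem Hom.of_homeo (hU : IsOpen U) (hV : IsOpen V) (e : U ≃ₜ V) (he : ∀ x : U, (e x : ℂ) = P x) :
    Hom U P ∧ P '' U = V := by
  have h1 : IsOpenEmbedding (U.domRestrict P) := by
    have : U.domRestrict P = Subtype.val ∘ e := funext fun x => (he x).symm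
    rw [this]; exact hV.isOpenEmbedding_subtypeVal.comp e.isOpenEmbedding
  refine ⟨⟨hU, continuousOn_iff_continuous_domRestrict.2 h1.continuous,
    injOn_iff_injective.2 h1.injective, fun O hO hO' => ?_⟩, ?_⟩
  · have := h1.isOpenMap _ (hO'.preimage continuous_subtype_val)
    rwa [image_domRestrict, inter_eq_left.2 hO] at this
  · ext w
    constructor
    · rintro ⟨z, hz, rfl⟩
      exact he ⟨z, hz⟩ ▸ (e ⟨z, hz⟩).2
    · intro hw
      exact ⟨e.symm ⟨w, hw⟩, (e.symm ⟨w, hw⟩).2, by rw [← he]; simp⟩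

theorem QC.exists_det (h : QC U P) (hne : U.Nonempty)
    (hd : ∀ᵐ z, z ∈ U → 0 < (fderiv ℝ P z).det ∨ fderiv ℝ P z = 0) :
    ∃ u ∈ U, DifferentiableAt ℝ P u ∧ 0 < (fderiv ℝ P u).det := by
  by_contra hn
  push Not at hn
  have h0 : ∀ᵐ z, z ∈ U → ‖fderiv ℝ P z‖ₑ = 0 := by
    filter_upwards [hd, h.diff] with z h1 h2 hz
    rw [(h1 hz).resolve_left (not_lt.2 (hn z hz (h2 hz)))]; simp
  obtain ⟨z, hz⟩ := hne
  obtain ⟨ε, hε, hb⟩ := Metric.isOpen_iff.1 h.isOpen z hz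
  set r := ε / 3
  have hr : 0 < r := by positivity
  have hE : Icc (z.re - r) (z.re + r) ×ℂ Icc (z.im - r) (z.im + r) ⊆ U := fun w hw => hb (by
    rw [mem_ball, dist_eq_norm]
    refine (norm_le_of_abs (r := r) ?_ ?_).trans_lt (by simp only [r]; linarith) <;>
      rw [abs_le] <;> constructor <;> simp <;> linarith [hw.1.1, hw.1.2, hw.2.1, hw.2.2])
  have mE := (isOpen_rect (z.re - r) (z.re + r) (z.im - r) (z.im + r)).measurableSet
  obtain ⟨I, -, i, j⟩ := lineInt mp_v (measurable_fderiv ℝ P).enorm mE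
  obtain ⟨d, hd0, hdm⟩ : ∃ d : ℝ, 0 < d ∧ ∀ x ∈ Icc (z.re - r) (z.re + r),
      d ≤ dist (P ⟨x, z.im - r⟩) (P ⟨x, z.im + r⟩) := by
    have c1 : ∀ y ∈ Icc (z.im - r) (z.im + r),
        ContinuousOn (fun x => P ⟨x, y⟩) (Icc (z.re - r) (z.re + r)) := fun y hy =>
      h.cont.comp (continuous_h y).continuousOn fun x hx => hE ⟨hx, hy⟩
    have a1 : z.im - r ∈ Icc (z.im - r) (z.im + r) := ⟨le_rfl, by linarith⟩
    have a2 : z.im + r ∈ Icc (z.im - r) (z.im + r) := ⟨by linarith, le_rfl⟩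
    obtain ⟨x₀, hx₀, hm⟩ := isCompact_Icc.exists_isMinOn
      (nonempty_Icc.2 (by linarith : z.re - r ≤ z.re + r))
      (f := fun x => dist (P ⟨x, z.im - r⟩) (P ⟨x, z.im + r⟩))
      (continuous_dist.comp_continuousOn ((c1 _ a1).prodMk (c1 _ a2)))
    refine ⟨_, dist_pos.2 fun e => ?_, fun x hx => hm hx⟩
    have := congrArg Complex.im (h.inj (hE ⟨hx₀, a1⟩) (hE ⟨hx₀, a2⟩) e)
    simp only at this; linarith
  obtain ⟨x, hx, gx, hI⟩ := exists_good (I := I) (c := z.re - r) (d := z.re + r)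
    (m := ENNReal.ofReal d) h.goodV (lt_of_le_of_lt (i _) (by
      rw [setLIntegral_congr_fun_ae mE (g := fun _ => 0)
        (h0.mono fun w hw hwE => hw (hE (rect_subset _ _ _ _ hwE))), lintegral_zero]
      exact ENNReal.mul_pos (by simpa) (by simpa using hr)))
  have e1 := (gx.ac h.cont fun y hy => hE ⟨Ioo_subset_Icc_self hx, hy⟩).2 _ _ le_rfl
    (by linarith) le_rfl
  have e2 := e1.trans (j x _ _ _ (fun _ _ => rfl) fun t ht => ⟨hx, ht⟩)
  rw [edist_dist] at e2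
  exact absurd ((ENNReal.ofReal_le_ofReal (hdm x (Ioo_subset_Icc_self hx))).trans e2)
    (not_le.2 hI)

/-- The working data of a quasiconformal map of the disc. -/
theorem IsQC.data {f : ℂ → ℂ} {Ω : Set ℂ} (hΩ : IsOpen Ω) (hb : Bornology.IsBounded Ω)
    (h : IsQC f (ball 0 1) Ω) : ∃ (D : ℂ → ℂ →L[ℝ] ℂ) (M : ℝ), 0 ≤ M ∧ FinDist (ball 0 1) f D ∧
      (∀ᵐ x ∂(volume.restrict (ball (0 : ℂ) 1)), Kf D x ≤ M) ∧
      ∫⁻ x in ball (0 : ℂ) 1, ENNReal.ofReal |(D x).det| < ⊤ ∧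
      QC (ball 0 1) f ∧ f '' ball 0 1 = Ω ∧ (DistLe (ball 0 1) f fun _ => ENNReal.ofReal M) ∧
      ∃ u ∈ ball (0 : ℂ) 1, DifferentiableAt ℝ f u ∧ 0 < (fderiv ℝ f u).det := by
  obtain ⟨⟨e, he⟩, D, hD, M, hM⟩ := h
  obtain ⟨hH, im⟩ := Hom.of_homeo isOpen_ball hΩ e he
  obtain ⟨q, e1, e2, e3⟩ := hD.qc hH
  refine ⟨D, max M 0, le_max_right _ _, hD, hM.mono fun _ hx => hx.trans (le_max_left _ _), ?_, q,
    im, e3.mono Subset.rfl ?_, q.exists_det (nonempty_ball.2 one_pos) e2⟩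
  · have := q.area measurableSet_ball Subset.rfl fun _ => 1
    rw [setLIntegral_const, one_mul, im] at this
    refine lt_of_le_of_lt (le_of_eq ?_) (this.trans_lt hb.measure_lt_top)
    exact setLIntegral_congr_fun_ae measurableSet_ball (e1.mono fun z hz hzU => by
      rw [hz hzU, mul_one])
  · rw [ae_restrict_iff' measurableSet_ball] at hM
    filter_upwards [e1, hM] with z h1 h2 hz
    refine ENNReal.ofReal_le_ofReal (le_trans (le_of_eq ?_) ((h2 hz).trans (le_max_left _ _)))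
    simp only [Kf, h1 hz]

theorem Conf.of_inverse {g G : ℂ → ℂ} (hU : IsOpen U) (hV : IsOpen V)
    (hg : DifferentiableOn ℂ g U) (hG : DifferentiableOn ℂ G V) (hm : MapsTo g U V)
    (hi : ∀ u ∈ U, G (g u) = u) : Conf U g := by
  refine ⟨hU, hg, fun a ha b hb e => by rw [← hi a ha, e, hi b hb], fun z hz h0 => ?_⟩
  have h1 := (hG.differentiableAt (hV.mem_nhds (hm hz))).hasDerivAt.comp z
    (hg.differentiableAt (hU.mem_nhds hz)).hasDerivAt
  have h2 : HasDerivAt (G ∘ g) 1 z := (hasDerivAt_id z).congr_of_eventuallyEq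
    (eventually_of_mem (hU.mem_nhds hz) hi)
  simpa [h0] using h1.unique h2

theorem Conf.det_pos {g : ℂ → ℂ} (h : Conf U g) {z : ℂ} (hz : z ∈ U) : 0 < (fderiv ℝ g z).det := by
  rw [(h.hasFDerivAt hz).fderiv, det_smul_one]
  exact pow_pos (norm_pos_iff.2 (h.ne z hz)) 2

theorem Conf.isQC {g G : ℂ → ℂ} (h : Conf U g) (hG : ContinuousOn G V) (hm : MapsTo g U V)
    (hm' : MapsTo G V U) (hi : ∀ u ∈ U, G (g u) = u) (hi' : ∀ z ∈ V, g (G z) = z) :
    IsQC g U V := by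
  refine ⟨⟨⟨⟨hm.restrict, hm'.restrict, fun x => Subtype.ext (hi x x.2),
    fun x => Subtype.ext (hi' x x.2)⟩, h.hol.continuousOn.mapsToRestrict hm,
    hG.mapsToRestrict hm'⟩, fun _ => rfl⟩, fderiv ℝ g, ⟨(w11_iff h.isOpen).2
      (WD.of_contDiffOn le_rfl h.isOpen h.contDiffOn), ?_, fun _ => 1, measurable_const,
      fun _ => le_rfl, ?_⟩, 1, ?_⟩
  · exact (ContinuousLinearMap.continuous_det.comp_continuousOn
      (h.contDiffOn.continuousOn_fderiv_of_isOpen h.isOpen le_rfl)).locallyIntegrableOn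
      h.isOpen.measurableSet
  · exact (ae_restrict_iff' h.isOpen.measurableSet).2 (Eventually.of_forall fun z hz => by
      rw [one_mul, h.norm_sq hz])
  · exact (ae_restrict_iff' h.isOpen.measurableSet).2 (Eventually.of_forall fun z hz => by
      simp only [Kf, h.det_pos hz, if_true, h.norm_sq hz, div_self (h.det_pos hz).ne', le_refl])

/-- `z ↦ a exp (b z)` is a holomorphic coordinate on strips of width `< 2π` for `b = ± I`. -/
theorem exp_mul_I_inj {z w : ℂ} (h : exp (z * I) = exp (w * I)) : ∃ k : ℤ, w = z + k * (2 * π) := by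
  obtain ⟨k, hk⟩ := Complex.exp_eq_exp_iff_exists_int.1 h.symm
  refine ⟨k, mul_right_cancel₀ I_ne_zero ?_⟩
  rw [hk]; ring

theorem conf_exp (hU : IsOpen U) (hw : ∀ z ∈ U, ∀ w ∈ U, |z.re - w.re| < 2 * π) :
    Conf U fun z => exp (z * I) := by
  refine ⟨hU, by fun_prop, fun z hz w hw' e => ?_, fun z _ => ?_⟩
  · obtain ⟨k, rfl⟩ := exp_mul_I_inj e
    have h1 := hw z hz _ hw'
    simp only [add_re, sub_add_cancel_left, abs_neg] at h1
    have h2 : ((k : ℂ) * (2 * π)).re = k * (2 * π) := by simp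
    rw [h2, abs_mul, abs_of_pos (by positivity : (0 : ℝ) < 2 * π),
      mul_lt_iff_lt_one_left (by positivity), ← Int.cast_abs] at h1
    have h3 : k = 0 := Int.abs_lt_one_iff.1 (by exact_mod_cast h1)
    simp [h3]
  · rw [((hasDerivAt_mul_const I).cexp (x := z)).deriv]
    simp

end Pool.Agent.P.MP_7f9008_an
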