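import Pool.Agent.P.MP_7f9008_an.TopoA

/-! Orientation: winding number one, and the lift of the boundary correspondence. -/

open Set Metric Filter Topology Real

noncomputable section
namespace Pool.Agent.P.MP_7f9008_an

theorem exists_pq (A : ℂ →L[ℝ] ℂ) : ∃ p q : ℂ, (∀ z, A z = p * z + q * (starRingEnd ℂ) z) ∧
    A.det = ‖p‖ ^ 2 - ‖q‖ ^ 2 := by
  refine ⟨(A 1 - Complex.I * A Complex.I) / 2, (A 1 + Complex.I * A Complex.I) / 2,
    fun z => ?_, ?_⟩
  · have hz : z = z.re • (1 : ℂ) + z.im • Complex.I := by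
      simp [Complex.re_add_im]
    have hc : (starRingEnd ℂ) z = (z.re : ℂ) - z.im * Complex.I := by
      apply Complex.ext <;> simp
    have hz' : z = (z.re : ℂ) + z.im * Complex.I := (Complex.re_add_im z).symm
    have : A z = z.re * A 1 + z.im * A Complex.I := by
      conv_lhs => rw [hz]
      rw [map_add, map_smul, map_smul]
      simp
    rw [this, hc]
    generalize (z.re : ℂ) = a at hz' ⊢
    generalize (z.im : ℂ) = b at hz' ⊢
    rw [hz']
    linear_combination (b * A Complex.I) * Complex.I_mul_I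
  · rw [ContinuousLinearMap.det, ← LinearMap.det_toMatrix Complex.basisOneI, Matrix.det_fin_two]
    simp only [LinearMap.toMatrix_apply, Complex.sq_norm, Complex.normSq_apply]
    simp
    ring

theorem idx_of_det {f : ℂ → ℂ} (hf : ContinuousOn f (closedBall 0 1))
    (hi : InjOn f (closedBall 0 1)) {u : ℂ} (hu : u ∈ ball (0 : ℂ) 1) {A : ℂ →L[ℝ] ℂ}
    (hd : HasFDerivAt f A u) (hA : 0 < A.det) :
    Idx (fun x : ℝ => f (Complex.exp (x * Complex.I)) - f 0) := by
  obtain ⟨p, q, hpq, hdet⟩ := exists_pq A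
  have hqp : ‖q‖ < ‖p‖ := by
    by_contra h
    have := pow_le_pow_left₀ (norm_nonneg p) (not_lt.1 h) 2
    linarith
  have hp0 : 0 < ‖p‖ := (norm_nonneg q).trans_lt hqp
  have hu1 : ‖u‖ < 1 := by simpa using hu
  have h1 := (hasFDerivAt_iff_isLittleO_nhds_zero.1 hd).def
    (c := (‖p‖ - ‖q‖) / 2) (by linarith)
  obtain ⟨δ, hδ, h2⟩ := Metric.eventually_nhds_iff.1 h1
  set ε := min (δ / 2) (1 - ‖u‖) with hε
  have ε0 : 0 < ε := lt_min (half_pos hδ) (by linarith)
  have ε1 : ε < δ := (min_le_left _ _).trans_lt (half_lt_self hδ)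
  have ε2 : ε ≤ 1 - ‖u‖ := min_le_right _ _
  have he : ∀ x : ℝ, ‖Complex.exp (x * Complex.I)‖ = 1 := Complex.norm_exp_ofReal_mul_I
  have hper : ∀ x : ℝ, Complex.exp ((x + 2 * π : ℝ) * Complex.I) = Complex.exp (x * Complex.I) := by
    intro x
    push_cast
    rw [add_mul, Complex.exp_add, Complex.exp_two_pi_mul_I, mul_one]
  let a : unitInterval → ℂ := fun s => ((1 - (s : ℝ) : ℝ) : ℂ) * u
  let r : unitInterval → ℝ := fun s => (1 - (s : ℝ)) * ε + s
  have r0 : ∀ s, 0 < r s := fun s => by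
    have s0 := s.2.1
    have s1 := s.2.2
    rcases s0.eq_or_lt with h | h
    · simp [r, ← h, ε0]
    · have : 0 ≤ (1 - (s : ℝ)) * ε := mul_nonneg (by linarith) ε0.le
      simp only [r]
      linarith
  have har : ∀ s, ‖a s‖ + r s ≤ 1 := fun s => by
    have s0 := s.2.1
    have s1 := s.2.2
    have : ‖a s‖ = (1 - (s : ℝ)) * ‖u‖ := by
      simp only [a]
      rw [norm_mul, Complex.norm_real, Real.norm_of_nonneg (by linarith)]
    rw [this]
    simp only [r]
    nlinarith
  have m1 : ∀ s, a s ∈ closedBall (0 : ℂ) 1 := fun s => by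
    rw [mem_closedBall_zero_iff]
    linarith [har s, r0 s]
  have hn : ∀ s (x : ℝ), ‖(r s : ℂ) * Complex.exp (x * Complex.I)‖ = r s := fun s x => by
    rw [norm_mul, he, Complex.norm_real, Real.norm_of_nonneg (r0 s).le, mul_one]
  have m2 : ∀ t : unitInterval × ℝ,
      a t.1 + r t.1 * Complex.exp (t.2 * Complex.I) ∈ closedBall (0 : ℂ) 1 := fun t => by
    rw [mem_closedBall_zero_iff]
    refine (norm_add_le _ _).trans ?_
    rw [hn]
    exact har _
  have hc : Continuous fun t : unitInterval × ℝ =>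
      f (a t.1 + r t.1 * Complex.exp (t.2 * Complex.I)) - f (a t.1) :=
    (hf.comp_continuous (by simp only [a, r]; fun_prop) m2).sub
      (hf.comp_continuous (by simp only [a]; fun_prop) fun t => m1 t.1)
  have := Idx.homotopy hc (fun t h => ?_) (fun s x => by simp only [hper]) ?_
  · simpa [a, r] using this
  · have h3 := hi (m2 t) (m1 t.1) (sub_eq_zero.1 h)
    have h4 := hn t.1 t.2
    rw [add_eq_left.1 h3, norm_zero] at h4
    linarith [r0 t.1]
  · have hpε : p * ε ≠ 0 := mul_ne_zero (norm_pos_iff.1 hp0) (by exact_mod_cast ε0.ne')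
    refine (idx_exp hpε).of_near (hc.comp (Continuous.prodMk_right 0))
      (fun x => by simp only [hper]) fun x => ?_
    have a0 : a 0 = u := by simp [a]
    have r0' : r 0 = ε := by simp [r]
    simp only [a0, r0']
    set h : ℂ := ε * Complex.exp (x * Complex.I) with hh
    have nh : ‖h‖ = ε := by rw [← r0']; exact r0' ▸ hn 0 x
    have h5 := h2 (y := h) (by rw [dist_zero_right, nh]; exact ε1)
    have e1 : f (u + h) - f u - p * ε * Complex.exp (x * Complex.I) =
        (f (u + h) - f u - A h) + q * (starRingEnd ℂ) h := by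
      rw [hpq, hh]; ring
    rw [e1, mul_assoc, ← hh, norm_mul, nh]
    refine (norm_add_le _ _).trans_lt ?_
    rw [norm_mul, Complex.norm_conj, nh]
    rw [nh] at h5
    nlinarith

theorem Idx.inv_neg {c : ℝ → ℂ} (h : Idx c) : Idx (fun x => (c (-x))⁻¹) := by
  obtain ⟨l, l1, l2, l3⟩ := h
  refine ⟨fun x => -l (-x), by fun_prop, fun x => by rw [Complex.exp_neg, l2], fun x => ?_⟩
  have := l3 (-(x + 2 * π))
  rw [show -(x + 2 * π) + 2 * π = -x by ring] at this
  simp only [this]
  ring

/-- Two parametrisations of the same Jordan curve with winding number one around `w` differ by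
an increasing change of parameter. -/
theorem exists_lift {c₁ c₂ : ℝ → ℂ} (h₁ : Loop c₁) (h₂ : Loop c₂) (hr : ∀ x, c₂ x ∈ range c₁)
    {w : ℂ} (i₁ : Idx fun x => c₁ x - w) (i₂ : Idx fun x => c₂ x - w) :
    ∃ τ : ℝ → ℝ, Continuous τ ∧ StrictMono τ ∧ (∀ x, τ (x + 2 * π) = τ x + 2 * π) ∧
      ∀ x, c₁ (τ x) = c₂ x := by
  obtain ⟨F, hF, hF'⟩ := h₁.exists_circle
  choose y hy using hr
  have hG : Continuous fun x => Circle.exp (y x) := by
    rw [hF.isEmbedding.isInducing.continuous_iff]
    exact h₂.cont.congr fun x => by simp [hF', hy]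
  obtain ⟨τ, ⟨-, hτ⟩, -⟩ := Circle.isCoveringMap_exp.existsUnique_continuousMap_lifts
    (⟨_, hG⟩ : C(ℝ, Circle)) 0 (y 0) rfl
  have e : ∀ x, c₁ (τ x) = c₂ x := fun x => by
    have : Circle.exp (τ x) = Circle.exp (y x) := congrFun hτ x
    rw [← hF', this, hF', hy]
  obtain ⟨l, l1, l2, l3⟩ := i₁
  obtain ⟨m, m1, m2, m3⟩ := i₂
  have hper : ∀ x, τ (x + 2 * π) = τ x + 2 * π := fun x => by
    obtain ⟨k, hk⟩ := h₁.inj (τ x) (τ (x + 2 * π)) (by rw [e, e, h₂.per])
    have := log_sub_const (s := univ) isPreconnected_univ (w := fun x => l (τ x)) (w' := m)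
      (by fun_prop) m1.continuousOn (fun t _ => by simp only [l2, m2, e]) (mem_univ (x + 2 * π))
      (mem_univ x)
    simp only [hk, log_int l3, m3] at this
    have h3 : ((k : ℂ) - 1) * (2 * π * Complex.I) = 0 := by linear_combination this
    have h4 := (mul_eq_zero.1 h3).resolve_right Complex.two_pi_I_ne_zero
    have h5 : k = 1 := by exact_mod_cast sub_eq_zero.1 h4
    rw [hk, h5]
    simp
  have hinj : Function.Injective τ := fun x x' hx => by
    obtain ⟨k, hk⟩ := h₂.inj x x' (by rw [← e, ← e, hx])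
    rw [hk, shift_int hper] at hx
    have : (k : ℝ) * (2 * π) = 0 := by linarith
    rw [hk, this, add_zero]
  refine ⟨τ, τ.continuous, (τ.continuous.strictMono_of_inj hinj).resolve_right fun h => ?_,
    hper, e⟩
  have := h (show (0 : ℝ) < 0 + 2 * π by positivity)
  rw [hper] at this
  linarith [two_pi_pos]

end Pool.Agent.P.MP_7f9008_an
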