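import Pool.Agent.P.MP_7f9008_an.Bridge
import Pool.Agent.P.MP_7f9008_an.Arc
import Pool.Agent.P.MP_7f9008_an.Deg

/-! Extension of a quasiconformal map of the disc onto a Jordan domain to the closed disc. -/

open MeasureTheory Set Metric Filter Topology Real Complex
open scoped ENNReal

noncomputable section
namespace Pool.Agent.P.MP_7f9008_an

namespace Car

/-- The covering of the punctured disc. -/
def E (z : ℂ) : ℂ := exp (z * I)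

theorem norm_E (z : ℂ) : ‖E z‖ = Real.exp (-z.im) := by
  simp [E, Complex.norm_exp]

theorem E_mem {z : ℂ} : E z ∈ ball (0 : ℂ) 1 ↔ 0 < z.im := by
  rw [mem_ball_zero_iff, norm_E, Real.exp_lt_one_iff, neg_lt_zero]

theorem E_mem' {z : ℂ} (h : 0 ≤ z.im) : E z ∈ closedBall (0 : ℂ) 1 := by
  rw [mem_closedBall_zero_iff, norm_E, Real.exp_le_one_iff, neg_nonpos]
  exact h

theorem cont_E : Continuous E := by
  unfold E
  fun_prop

theorem open_E : IsOpenMap E :=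
  Complex.isOpenMap_exp.comp (Homeomorph.mulRight₀ I I_ne_zero).isOpenMap

theorem E_inj {z w : ℂ} (h : E z = E w) :
    z.im = w.im ∧ (z.re - w.re < 2 * π → w.re - z.re < 2 * π → z.re = w.re) := by
  obtain ⟨k, rfl⟩ := exp_mul_I_inj h
  have e1 : (z + k * (2 * π)).re = z.re + k * (2 * π) := by simp
  refine ⟨by simp, fun h1 h2 => ?_⟩
  rw [e1] at h1 h2 ⊢
  have hp := two_pi_pos
  have k1 : (k : ℝ) < 1 := by nlinarith
  have k2 : (-1 : ℝ) < k := by nlinarith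
  have k3 : k < 1 := by exact_mod_cast k1
  have k4 : -1 < k := by exact_mod_cast k2
  obtain rfl : k = 0 := by omega
  simp

theorem exists_E {u : ℂ} (hu : u ∈ sphere (0 : ℂ) 1) :
    ∃ x ∈ Ioc (-π) π, u = E ⟨x, 0⟩ := by
  refine ⟨arg u, arg_mem_Ioc u, ?_⟩
  have := norm_mul_exp_arg_mul_I u
  rw [mem_sphere_zero_iff_norm.1 hu, ofReal_one, one_mul] at this
  exact this.symm

/-- The three sides of a box that do not lie on the real line. -/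
def cap (x₁ x₂ r : ℝ) : Set ℂ :=
  {z | z ∈ Icc x₁ x₂ ×ℂ Ioc 0 r ∧ (z.re = x₁ ∨ z.re = x₂ ∨ z.im = r)}

variable {Ω : Set ℂ} {f : ℂ → ℂ}

theorem prop (h : Hom (ball 0 1) f) {Q : Set ℂ} (hQ : IsCompact Q) (hs : Q ⊆ f '' ball 0 1) :
    ∃ y > 0, ∀ u ∈ ball (0 : ℂ) 1, f u ∈ Q → ‖u‖ < Real.exp (-y) := by
  have sub : ∀ y : Ioi (0 : ℝ), ball (0 : ℂ) (Real.exp (-y)) ⊆ ball 0 1 := fun y =>
    ball_subset_ball (Real.exp_le_one_iff.2 (neg_nonpos.2 y.2.le))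
  obtain ⟨y, hy⟩ := hQ.elim_directed_cover (fun y : Ioi (0 : ℝ) => f '' ball 0 (Real.exp (-y)))
    (fun y => h.opn _ (sub y) isOpen_ball) (fun w hw => by
      obtain ⟨u, hu, rfl⟩ := hs hw
      rw [mem_ball_zero_iff] at hu
      refine mem_iUnion.2 ⟨⟨(1 - ‖u‖) / 2, by simpa using hu⟩, u, ?_, rfl⟩
      rw [mem_ball_zero_iff]
      linarith [Real.add_one_le_exp (-((1 - ‖u‖) / 2))])
    (directed_of_isDirected_ge fun a b hab => image_mono (ball_subset_ball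
      (Real.exp_le_exp.2 (neg_le_neg hab))))
  refine ⟨y, y.2, fun u hu hf => ?_⟩
  obtain ⟨v, hv, e⟩ := hy hf
  rw [← h.inj (sub y hv) hu e]
  exact mem_ball_zero_iff.1 hv

theorem disj (hΩ : IsOpen Ω) : Disjoint Ω (frontier Ω) := by
  rw [hΩ.frontier_eq]
  exact disjoint_sdiff_right

theorem sep (hΩ : IsJordan Ω) (h : Hom (ball 0 1) f) (im : f '' ball 0 1 = Ω) {x₁ x₂ r : ℝ}
    {A C₁ : Set ℂ} (hA : IsCompact A) (hc : f '' (E '' cap x₁ x₂ r) ⊆ A)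
    (hp : IsPreconnected (A ∩ frontier Ω)) (h₁ : IsPreconnected C₁) (d₁ : Disjoint C₁ A)
    {z b : ℂ} (hz : z ∈ Ioo x₁ x₂ ×ℂ Ioo 0 r) (ha : f (E z) ∈ C₁) (hb : b ∈ ball (0 : ℂ) 1)
    (hb₁ : f b ∈ C₁) : ∃ w ∈ Ioo x₁ x₂ ×ℂ Ioo 0 r, E w = b := by
  obtain ⟨γ, hγ, hfr⟩ := hΩ.exists_loop
  have box : E '' (Ioo x₁ x₂ ×ℂ Ioo 0 r) ⊆ ball 0 1 := by
    rintro _ ⟨w, hw, rfl⟩
    exact E_mem.2 hw.2.1
  have haΩ : f (E z) ∈ Ω := im ▸ mem_image_of_mem _ (E_mem.2 hz.2.1)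
  obtain ⟨C, hC, dC, haC, hbC⟩ := janiszewski hA (hfr ▸ hγ.isCompact_range) hp h₁
    hΩ.2.1.isPreconnected d₁ (disj hΩ.1) ha hb₁ haΩ (im ▸ mem_image_of_mem _ hb)
  have hCΩ : C ⊆ Ω := hC.subset_left_of_subset_union hΩ.1 isClosed_closure.isOpen_compl
    (disjoint_compl_right_iff_subset.2 subset_closure) (fun w hw => by
      by_cases hw' : w ∈ closure Ω
      · left
        by_contra hn
        exact disjoint_left.1 dC hw (Or.inr (by rw [hΩ.1.frontier_eq]; exact ⟨hw', hn⟩))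
      · exact Or.inr hw') ⟨_, haC, haΩ⟩
  have hK := (isCompact_rect x₁ x₂ 0 r).image cont_E
  obtain ⟨u, hu, e⟩ := hC.subset_left_of_subset_union (h.opn _ box (open_E _ (isOpen_rect _ _ _ _)))
    (h.opn (ball 0 1 \ E '' (Icc x₁ x₂ ×ℂ Icc 0 r)) sdiff_subset (isOpen_ball.sdiff hK.isClosed))
    (disjoint_left.2 (by
      rintro _ ⟨u, hu, rfl⟩ ⟨v, hv, e⟩
      exact hv.2 (h.inj hv.1 (box hu) e ▸ image_mono (rect_subset _ _ _ _) hu)))
    (fun w hw => by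
      obtain ⟨u, hu, rfl⟩ := im.symm ▸ hCΩ hw
      by_cases hu' : u ∈ E '' (Icc x₁ x₂ ×ℂ Icc 0 r)
      · obtain ⟨v, hv, rfl⟩ := hu'
        left
        by_contra hn
        have h0 := E_mem.1 hu
        refine disjoint_left.1 dC hw (Or.inl (hc ⟨_, ⟨v, ⟨⟨hv.1, h0, hv.2.2⟩, ?_⟩, rfl⟩, rfl⟩))
        rcases rect_sides hv (fun k => hn ⟨_, ⟨v, k, rfl⟩, rfl⟩) with k | k | k | k
        exacts [Or.inl k, Or.inr (Or.inl k), absurd k h0.ne', Or.inr (Or.inr k)]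
      · exact Or.inr ⟨u, ⟨hu, hu'⟩, rfl⟩) ⟨_, haC, _, ⟨z, hz, rfl⟩, rfl⟩ hbC
  rw [← h.inj (box hu) hb e]
  obtain ⟨w, hw, rfl⟩ := hu
  exact ⟨w, hw, rfl⟩

theorem short_cap {U : Set ℂ} {P : ℂ → ℂ} (h : QC U P) {x ρ : ℝ} (hρ : 0 < ρ)
    (hU : Ioo (x - 2 * ρ) (x + 2 * ρ) ×ℂ Ioo 0 (2 * ρ) ⊆ U) {m : ℝ≥0∞}
    (hm : 3 * ∫⁻ z in capA x ρ, ‖fderiv ℝ P z‖ₑ < m * ENNReal.ofReal ρ) :
    ∃ r ∈ Ioo ρ (2 * ρ), ∀ z ∈ cap (x - r) (x + r) r, edist (P z) (P ⟨x - r, r⟩) < m := by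
  have mE := measurableSet_capA x ρ
  set F : ℂ → ℝ≥0∞ := fun z => ‖fderiv ℝ P z‖ₑ
  have mF : Measurable F := (measurable_fderiv ℝ P).enorm
  obtain ⟨I₁, m₁, i₁, j₁⟩ := lineInt (mp_v.comp (mp_sub x)) mF mE
  obtain ⟨I₂, m₂, i₂, j₂⟩ := lineInt (mp_v.comp (mp_add x)) mF mE
  obtain ⟨I₃, m₃, i₃, j₃⟩ := lineInt mp_h mF mE
  obtain ⟨r, hr, ⟨g₁, g₂, g₃⟩, hI⟩ := exists_good (I := fun s => I₁ s + I₂ s + I₃ s) (c := ρ)
    (d := 2 * ρ) (m := m) ((ae_sub h.goodV x).and ((ae_add h.goodV x).and h.goodH)) (by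
      rw [lintegral_add_right _ m₃, lintegral_add_right _ m₂, show 2 * ρ - ρ = ρ by ring]
      refine lt_of_le_of_lt ?_ hm
      calc _ ≤ (∫⁻ z in capA x ρ, F z) + (∫⁻ z in capA x ρ, F z) + ∫⁻ z in capA x ρ, F z := by
            gcongr
            exacts [i₁ _, i₂ _, i₃ _]
        _ = _ := by ring)
  have r0 : 0 < r := hρ.trans hr.1
  have a₁ : ∀ t ∈ Ioc 0 r, (⟨x - r, t⟩ : ℂ) ∈ capA x ρ := fun t ht =>
    ⟨⟨⟨by linarith [hr.2], by linarith [hr.1]⟩, ht.1, by linarith [ht.2, hr.2]⟩,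
      fun hh => by linarith [hh.1.1, hr.1]⟩
  have a₂ : ∀ t ∈ Ioc 0 r, (⟨x + r, t⟩ : ℂ) ∈ capA x ρ := fun t ht =>
    ⟨⟨⟨by linarith [hr.1], by linarith [hr.2]⟩, ht.1, by linarith [ht.2, hr.2]⟩,
      fun hh => by linarith [hh.1.2, hr.1]⟩
  have a₃ : ∀ t ∈ Icc (x - r) (x + r), (⟨t, r⟩ : ℂ) ∈ capA x ρ := fun t ht =>
    ⟨⟨⟨by linarith [ht.1, hr.2], by linarith [ht.2, hr.2]⟩, by linarith [hr.1], hr.2⟩,
      fun hh => by linarith [hh.2.2, hr.1]⟩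
  have s₁ : ∀ t ∈ Ioc 0 r, edist (P ⟨x - r, t⟩) (P ⟨x - r, r⟩) ≤ I₁ r := fun t ht =>
    ((g₁.ac h.cont fun y hy => hU (a₁ y ⟨ht.1.trans_le hy.1, hy.2⟩).1).2 t r le_rfl ht.2
      le_rfl).trans (j₁ r _ _ F (fun _ _ => rfl) fun y hy => a₁ y ⟨ht.1.trans hy.1, hy.2.le⟩)
  have s₂ : ∀ t ∈ Ioc 0 r, edist (P ⟨x + r, t⟩) (P ⟨x + r, r⟩) ≤ I₂ r := fun t ht =>
    ((g₂.ac h.cont fun y hy => hU (a₂ y ⟨ht.1.trans_le hy.1, hy.2⟩).1).2 t r le_rfl ht.2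
      le_rfl).trans (j₂ r _ _ F (fun _ _ => rfl) fun y hy => a₂ y ⟨ht.1.trans hy.1, hy.2.le⟩)
  have s₃ : ∀ t ∈ Icc (x - r) (x + r), edist (P ⟨t, r⟩) (P ⟨x - r, r⟩) ≤ I₃ r := fun t ht =>
    ((g₃.ac h.cont fun y hy => hU (a₃ y hy).1).edist_le ht ⟨le_rfl, by linarith⟩).trans
      (j₃ r _ _ F (fun _ _ => rfl) fun y hy => a₃ y (Ioo_subset_Icc_self hy))
  refine ⟨r, hr, ?_⟩
  rintro ⟨s, t⟩ ⟨hz, e | e | e⟩ <;> simp only at e <;> subst e <;> refine lt_of_le_of_lt ?_ hI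
  · exact (s₁ t hz.2).trans (le_self_add.trans le_self_add)
  · refine (edist_triangle _ _ _).trans
      ((add_le_add (s₂ t hz.2) (s₃ _ ⟨by linarith, le_rfl⟩)).trans ?_)
    rw [add_assoc]
    exact le_add_self
  · exact (s₃ s hz.1).trans le_add_self

theorem vol_capA (x : ℝ) {ρ : ℝ} (hρ : 0 < ρ) : volume (capA x ρ) ≤ ENNReal.ofReal (8 * ρ ^ 2) := by
  refine (measure_mono sdiff_subset).trans (le_of_eq ?_)
  rw [← volume_preserving_equiv_real_prod.symm.measure_preimage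
      (isOpen_rect _ _ _ _).measurableSet.nullMeasurableSet,
    show measurableEquivRealProd.symm ⁻¹' (Ioo (x - 2 * ρ) (x + 2 * ρ) ×ℂ Ioo 0 (2 * ρ)) =
      Ioo (x - 2 * ρ) (x + 2 * ρ) ×ˢ Ioo 0 (2 * ρ) from rfl, Measure.volume_eq_prod,
    Measure.prod_prod, Real.volume_Ioo, Real.volume_Ioo, ← ENNReal.ofReal_mul (by linarith)]
  congr 1
  ring

theorem conf_strip (x : ℝ) : Conf (strip x) E :=
  conf_exp (isOpen_Ioo.reProdIm isOpen_Ioi) fun z hz w hw => by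
    rw [abs_lt]
    constructor <;> linarith [hz.1.1, hz.1.2, hw.1.1, hw.1.2, pi_gt_three]

theorem maps_strip (x : ℝ) : MapsTo E (strip x) (ball 0 1) := fun _ hz => E_mem.2 hz.2

theorem exists_cap (hΩ : IsJordan Ω) (hq : QC (ball 0 1) f) (im : f '' ball 0 1 = Ω) {K : ℝ}
    (hK0 : 0 ≤ K) (hK : DistLe (ball 0 1) f fun _ => ENNReal.ofReal K) (x : ℝ) {m : ℝ}
    (hm : 0 < m) : ∃ r > 0, ∃ c, f '' (E '' cap (x - r) (x + r) r) ⊆ closedBall c m := by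
  set δ := m ^ 2 / (72 * K + 1) with hδ
  have δ0 : 0 < δ := by positivity
  obtain ⟨Q, hQ, cQ, vQ⟩ := hΩ.1.measurableSet.exists_isCompact_sdiff_lt
    hΩ.2.2.1.measure_lt_top.ne (μ := volume) (ε := ENNReal.ofReal δ) (by simpa using δ0)
  obtain ⟨y, y0, hy⟩ := prop hq.toHom cQ (im ▸ hQ)
  set ρ := min (y / 2) 1
  have ρ0 : 0 < ρ := by positivity
  have ρ1 : ρ ≤ y / 2 := min_le_left _ _
  have ρ2 : ρ ≤ 1 := min_le_right _ _
  have hU : Ioo (x - 2 * ρ) (x + 2 * ρ) ×ℂ Ioo 0 (2 * ρ) ⊆ strip x := fun z hz =>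
    ⟨⟨by linarith [hz.1.1], by linarith [hz.1.2]⟩, hz.2.1⟩
  have q := (hq.comp (conf_strip x) (maps_strip x)).1
  have en := q.energy (hK.comp hq (conf_strip x) (maps_strip x)) (measurableSet_capA x ρ)
    (sdiff_subset.trans hU) aemeasurable_const (ρ := fun _ => 1) measurable_const
  simp only [one_mul, one_pow, Function.comp_apply, setLIntegral_const] at en
  have v : volume ((f ∘ E) '' capA x ρ) ≤ ENNReal.ofReal δ := by
    refine le_trans (measure_mono ?_) vQ.le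
    rintro _ ⟨z, hz, rfl⟩
    have hb := E_mem.2 hz.1.2.1
    refine ⟨im ▸ mem_image_of_mem _ hb, fun k => ?_⟩
    have := hy _ hb k
    rw [norm_E, Real.exp_lt_exp] at this
    linarith [hz.1.2.2]
  obtain ⟨r, hr, H⟩ := short_cap q ρ0 hU (m := ENNReal.ofReal m) (by
    rw [← ENNReal.pow_lt_pow_left_iff two_ne_zero, mul_pow]
    calc _ ≤ 3 ^ 2 * (ENNReal.ofReal δ * (ENNReal.ofReal K * ENNReal.ofReal (8 * ρ ^ 2))) := by
          gcongr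
          refine en.trans ?_
          gcongr
          exacts [v, vol_capA x ρ0]
      _ = ENNReal.ofReal (3 ^ 2 * (δ * (K * (8 * ρ ^ 2)))) := by
          rw [ENNReal.ofReal_mul (p := 3 ^ 2) (by positivity), ENNReal.ofReal_mul δ0.le,
            ENNReal.ofReal_mul hK0]
          norm_num
      _ < _ := by
          rw [← ENNReal.ofReal_mul hm.le, ← ENNReal.ofReal_pow (by positivity),
            ENNReal.ofReal_lt_ofReal_iff (by positivity)]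
          have : δ * (72 * K + 1) = m ^ 2 := div_mul_cancel₀ _ (by positivity)
          nlinarith [mul_pos δ0 (pow_pos ρ0 2)])
  refine ⟨r, ρ0.trans hr.1, f (E ⟨x - r, r⟩), ?_⟩
  rintro _ ⟨_, ⟨z, hz, rfl⟩, rfl⟩
  exact (edist_lt_ofReal.1 (H z hz)).le

theorem small_box (hΩ : IsJordan Ω) (hq : QC (ball 0 1) f) (im : f '' ball 0 1 = Ω) {K : ℝ}
    (hK0 : 0 ≤ K) (hK : DistLe (ball 0 1) f fun _ => ENNReal.ofReal K) (x : ℝ) {ε₀ : ℝ}
    (hε₀ : 0 < ε₀) : ∃ r > 0, ∃ p, ∀ z ∈ Ioo (x - r) (x + r) ×ℂ Ioo 0 r,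
      f (E z) ∈ closedBall p ε₀ := by
  obtain ⟨γ, hγ, hfr⟩ := hΩ.exists_loop
  have z0 : (0 : ℂ) ∈ ball (0 : ℂ) 1 := mem_ball_self one_pos
  obtain ⟨δ, δ0, hδ⟩ := Metric.isOpen_iff.1 hΩ.1 (f 0) (im ▸ mem_image_of_mem _ z0)
  set ε := min ε₀ (δ / 2)
  have ε0 : 0 < ε := by positivity
  obtain ⟨η, η0, H⟩ := hγ.small_arc ε0
  set m := min η ε / 2 with hm
  obtain ⟨r, r0, c, hc⟩ := exists_cap hΩ hq im hK0 hK x (m := m) (by positivity)
  set A := closure (f '' (E '' cap (x - r) (x + r) r))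
  have hAc : A ⊆ closedBall c m := closure_minimal hc isClosed_closedBall
  have cA : IsCompact A := (isCompact_closedBall c m).of_isClosed_subset isClosed_closure hAc
  have hAΩ : A ⊆ closure Ω := closure_mono (by
    rintro _ ⟨_, ⟨z, hz, rfl⟩, rfl⟩
    exact im ▸ mem_image_of_mem _ (E_mem.2 hz.1.2.1))
  obtain ⟨p, hpA, hp⟩ : ∃ p ∈ A, p ∈ frontier Ω := by
    by_contra hn
    obtain ⟨y, y0, hy⟩ := prop hq.toHom cA (fun w hw => by
      rw [im]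
      by_contra k
      exact hn ⟨w, hw, by rw [hΩ.1.frontier_eq]; exact ⟨hAΩ hw, k⟩⟩)
    have t0 : 0 < min y r := lt_min y0 r0
    have := hy (E ⟨x - r, min y r⟩) (E_mem.2 t0) (subset_closure ⟨_, ⟨_,
      ⟨⟨⟨le_rfl, by simp only; linarith⟩, t0, min_le_right _ _⟩, Or.inl rfl⟩, rfl⟩, rfl⟩)
    rw [norm_E, Real.exp_lt_exp] at this
    linarith [min_le_left y r]
  obtain ⟨u, rfl⟩ := hfr ▸ hp
  obtain ⟨σ, σ1, σ2, σ3, σ4, σ5⟩ := H u
  have hA2 : ∀ w ∈ A, dist w (γ u) ≤ min η ε := fun w hw => by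
    linarith [dist_triangle_right w (γ u) c, mem_closedBall.1 (hAc hw), mem_closedBall.1 (hAc hpA)]
  refine ⟨r, r0, γ u, fun z hz => closedBall_subset_closedBall (min_le_left ε₀ (δ / 2)) ?_⟩
  by_contra hn
  obtain ⟨w, -, hw⟩ := sep hΩ hq.toHom im (cA.union σ1) (subset_closure.trans subset_union_left)
    (by
      convert σ2 using 1
      rw [hfr]
      refine Subset.antisymm ?_ fun w hw => ⟨Or.inr hw, σ3 hw⟩
      rintro w ⟨hw | hw, hw'⟩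
      exacts [σ5 ⟨hw', (hA2 w hw).trans (min_le_left _ _)⟩, hw])
    (isPreconnected_compl_closedBall (γ u) ε) (disjoint_compl_left_iff_subset.2
      (union_subset (fun w hw => (hA2 w hw).trans (min_le_right _ _)) σ4)) hz hn z0 (fun k => by
        refine disjoint_left.1 (disj hΩ.1) (hδ ?_) hp
        rw [mem_ball, dist_comm]
        linarith [mem_closedBall.1 k, min_le_right ε₀ (δ / 2)])
  exact Complex.exp_ne_zero _ hw

theorem exists_lim (hΩ : IsJordan Ω) (hq : QC (ball 0 1) f) (im : f '' ball 0 1 = Ω) {K : ℝ}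
    (hK0 : 0 ≤ K) (hK : DistLe (ball 0 1) f fun _ => ENNReal.ofReal K) {ζ : ℂ}
    (hζ : ζ ∈ closedBall (0 : ℂ) 1) : ∃ y, Tendsto f (𝓝[ball 0 1] ζ) (𝓝 y) := by
  by_cases hb : ζ ∈ ball (0 : ℂ) 1
  · exact ⟨_, hq.cont ζ hb⟩
  have : (𝓝[ball 0 1] ζ).NeBot :=
    mem_closure_iff_nhdsWithin_neBot.1 (by rwa [closure_ball _ one_ne_zero])
  obtain ⟨x, -, rfl⟩ := exists_E (u := ζ) (by rw [← closedBall_sdiff_ball]; exact ⟨hζ, hb⟩)
  refine cauchy_map_iff_exists_tendsto.1 (Metric.cauchy_iff.2 ⟨inferInstance, fun ε hε => ?_⟩)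
  obtain ⟨r, r0, p, H⟩ := small_box hΩ hq im hK0 hK x (ε₀ := ε / 3) (by positivity)
  refine ⟨closedBall p (ε / 3), ?_, fun a ha b hb => ?_⟩
  · have hN := (open_E _ (isOpen_rect (x - r) (x + r) (-r) r)).mem_nhds
      (mem_image_of_mem _ (show (⟨x, 0⟩ : ℂ) ∈ _ from
        ⟨⟨by simp only; linarith, by simp only; linarith⟩, by simp only; linarith, r0⟩))
    rw [mem_map]
    filter_upwards [mem_nhdsWithin_of_mem_nhds hN, self_mem_nhdsWithin] with u hu hu'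
    obtain ⟨z, hz, rfl⟩ := hu
    exact H z ⟨hz.1, E_mem.1 hu', hz.2.2⟩
  · linarith [dist_triangle_right a b p, mem_closedBall.1 ha, mem_closedBall.1 hb]

theorem inj_bd (hΩ : IsJordan Ω) (h : Hom (ball 0 1) f) (im : f '' ball 0 1 = Ω) {K : ℝ}
    (S : Side (frontier Ω) (fun z => f (E z)) K) {x₁ x₂ : ℝ} (h₁ : x₁ < x₂)
    (h₂ : x₂ < x₁ + 2 * π) : f (E ⟨x₁, 0⟩) ≠ f (E ⟨x₂, 0⟩) := by
  intro e
  obtain ⟨γ, hγ, hfr⟩ := hΩ.exists_loop
  obtain ⟨u, hu⟩ := hfr ▸ S.bd x₁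
  obtain ⟨N, hN⟩ := exists_nat_gt (2 * 10 ^ 8 * K)
  have far : ∀ a b, a < b → ∃ x ∈ Ioo a b, f (E ⟨x, 0⟩) ≠ f (E ⟨a, 0⟩) := fun a b hab => by
    have y0 : 0 < min (1 / 2) (b - a) := lt_min (by norm_num) (by linarith)
    obtain ⟨x, hx, hd⟩ := S.far hN (x := a) (a := a) y0 (min_le_left _ _) (by linarith)
      (by linarith)
    have hs := S.s_pos (z := ⟨a, min (1 / 2) (b - a)⟩) y0
    exact ⟨x, ⟨hx.1, by linarith [hx.2, min_le_right (1 / 2) (b - a)]⟩,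
      dist_pos.1 (lt_trans (by positivity) hd)⟩
  obtain ⟨a, ha, ha'⟩ := far _ _ h₁
  obtain ⟨b, hb, hb'⟩ := far _ _ h₂
  set T := (Icc x₁ x₂ ×ℂ Icc 0 1) ∩ {z | z.re = x₁ ∨ z.re = x₂ ∨ z.im = 1}
  have cT : IsCompact T := (isCompact_rect _ _ _ _).inter_right
    ((isClosed_eq continuous_re continuous_const).union ((isClosed_eq continuous_re
      continuous_const).union (isClosed_eq continuous_im continuous_const)))
  have hp : ∀ z ∈ T, f (E z) ∈ frontier Ω → f (E z) = γ u := by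
    rintro ⟨s, t⟩ hz hz'
    obtain rfl : t = 0 := le_antisymm (not_lt.1 fun k => S.off ⟨s, t⟩ k hz') hz.1.2.1
    rcases hz.2 with k | k | k <;> simp only at k
    · rw [k, hu]
    · rw [k, hu, e]
    · exact absurd k zero_ne_one
  have seg : ∀ x ∈ Ioo x₁ (x₁ + 2 * π), x ≠ x₂ → f (E ⟨x, 0⟩) ≠ γ u →
      Disjoint ((fun t => f (E ⟨x, t⟩)) '' Icc 0 (1 / 2)) ((fun z => f (E z)) '' T) := by
    intro x hx hx' hn
    rw [disjoint_left]
    rintro _ ⟨t, ht, rfl⟩ ⟨z, hz, k⟩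
    simp only at k
    rcases ht.1.eq_or_lt with rfl | t0
    · exact hn (k ▸ hp z hz (k ▸ S.bd x))
    have z0 : 0 < z.im := lt_of_le_of_ne hz.1.2.1 fun k0 => S.off ⟨x, t⟩ t0 (by
      have := S.bd z.re
      rwa [k0, Complex.eta, k] at this)
    obtain ⟨k1, k2⟩ := E_inj (h.inj (E_mem.2 z0) (E_mem.2 t0) k)
    simp only at k1 k2
    have k3 := k2 (by linarith [hz.1.1.2, hx.1]) (by linarith [hz.1.1.1, hx.2])
    rcases hz.2 with k | k | k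
    · linarith [hx.1]
    · exact hx' (k3 ▸ k)
    · linarith [ht.2]
  have ha₁ : f (E ⟨a, 0⟩) ≠ γ u := hu ▸ ha'
  have hb₁ : f (E ⟨b, 0⟩) ≠ γ u := by rw [hu, e]; exact hb'
  have pc : ∀ x, IsPreconnected ((fun t => f (E ⟨x, t⟩)) '' Icc 0 (1 / 2)) := fun x =>
    isPreconnected_Icc.image _ (S.cont_v x _)
  have mm : ∀ x, f (E ⟨x, 0⟩) ≠ γ u → f (E ⟨x, 0⟩) ∈ range γ \ {γ u} := fun x hx =>
    ⟨hfr ▸ S.bd x, hx⟩
  have m0 : ∀ x, f (E ⟨x, 0⟩) ∈ (fun t => f (E ⟨x, t⟩)) '' Icc 0 (1 / 2) := fun x =>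
    ⟨0, ⟨le_rfl, by norm_num⟩, rfl⟩
  have m1 : ∀ x, f (E ⟨x, 1 / 2⟩) ∈ (fun t => f (E ⟨x, t⟩)) '' Icc 0 (1 / 2) := fun x =>
    ⟨1 / 2, ⟨by norm_num, le_rfl⟩, rfl⟩
  obtain ⟨w, hw, k⟩ := sep hΩ h im (x₁ := x₁) (x₂ := x₂) (r := 1)
    (cT.image_of_continuousOn (S.cont.mono fun z hz => hz.1.2.1))
    (by
      rintro _ ⟨_, ⟨z, hz, rfl⟩, rfl⟩
      exact ⟨z, ⟨⟨hz.1.1, Ioc_subset_Icc_self hz.1.2⟩, hz.2⟩, rfl⟩)
    (Subsingleton.isPreconnected (by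
      rintro _ ⟨⟨z, hz, rfl⟩, k⟩ _ ⟨⟨z', hz', rfl⟩, k'⟩
      exact (hp z hz k).trans (hp z' hz' k').symm))
    (IsPreconnected.union _ (Or.inl (mm b hb₁)) (m0 b)
      ((hγ.preconn_diff u).union _ (mm a ha₁) (m0 a) (pc a)) (pc b))
    (disjoint_union_left.2 ⟨disjoint_union_left.2 ⟨disjoint_left.2 (by
      rintro _ k ⟨z, hz, rfl⟩
      exact k.2 (hp z hz (hfr ▸ k.1))), seg a ⟨ha.1, ha.2.trans h₂⟩ ha.2.ne ha₁⟩,
      seg b ⟨h₁.trans hb.1, hb.2⟩ hb.1.ne' hb₁⟩)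
    (z := ⟨a, 1 / 2⟩) (b := E ⟨b, 1 / 2⟩) ⟨ha, by norm_num, by norm_num⟩
    (Or.inl (Or.inr (m1 a))) (E_mem.2 (by norm_num)) (Or.inr (m1 b))
  have := (E_inj k).2 (by simp only; linarith [hw.1.2, hb.1, two_pi_pos])
    (by simp only; linarith [hw.1.1, hb.2])
  simp only at this
  linarith [hw.1.2, hb.1]

end Car

open Car in
theorem carath {Ω : Set ℂ} (hΩ : IsJordan Ω) {f : ℂ → ℂ} (hq : QC (ball 0 1) f)
    (im : f '' ball 0 1 = Ω) {K : ℝ} (hK0 : 0 ≤ K)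
    (hK : DistLe (ball 0 1) f fun _ => ENNReal.ofReal K)
    (hd : ∃ u ∈ ball (0 : ℂ) 1, DifferentiableAt ℝ f u ∧ 0 < (fderiv ℝ f u).det) :
    ∃ g, EqOn g f (ball 0 1) ∧ Disc Ω g K := by
  have hcl : closure (ball (0 : ℂ) 1) = closedBall 0 1 := closure_ball _ one_ne_zero
  obtain ⟨g, e, c⟩ : ∃ g, EqOn g f (ball 0 1) ∧ ContinuousOn g (closedBall 0 1) :=
    ⟨extendFrom (ball 0 1) f, extendFrom_extends hq.cont,
      continuousOn_extendFrom hcl.ge fun ζ hζ => exists_lim hΩ hq im hK0 hK hζ⟩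
  have q : QC (ball 0 1) g := hq.congr e.symm
  have dl : DistLe (ball 0 1) g fun _ => ENNReal.ofReal K := hK.congr isOpen_ball e.symm
  have im' : g '' ball 0 1 = Ω := e.image_eq.trans im
  have s₁ : ∀ ζ ∈ sphere (0 : ℂ) 1, g ζ ∈ frontier Ω := by
    intro ζ hζ
    have hζ' : ζ ∈ closure (ball (0 : ℂ) 1) := hcl ▸ sphere_subset_closedBall hζ
    rw [hΩ.1.frontier_eq]
    refine ⟨im' ▸ (hcl.symm ▸ c : ContinuousOn g (closure (ball 0 1))).image_closure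
      (mem_image_of_mem _ hζ'), fun k => ?_⟩
    obtain ⟨δ, δ0, hδ⟩ := nhds_basis_closedBall.mem_iff.1 (hΩ.1.mem_nhds k)
    obtain ⟨y, y0, hy⟩ := prop q.toHom (isCompact_closedBall _ δ) (im' ▸ hδ)
    have := mem_closure_iff_nhdsWithin_neBot.1 hζ'
    have k1 : ∀ᶠ u in 𝓝[ball 0 1] ζ, g u ∈ closedBall (g ζ) δ :=
      ((c ζ (hcl ▸ hζ')).mono ball_subset_closedBall).tendsto.eventually
        (closedBall_mem_nhds _ δ0)
    have k2 : ∀ᶠ u in 𝓝 ζ, Real.exp (-y) < ‖u‖ := continuous_norm.continuousAt.eventually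
      (lt_mem_nhds (by
        simp only [mem_sphere_zero_iff_norm.1 hζ, Real.exp_lt_one_iff]
        linarith))
    obtain ⟨u, h1, h2, h3⟩ := (k1.and ((k2.filter_mono nhdsWithin_le_nhds).and
      self_mem_nhdsWithin)).exists
    exact lt_asymm h2 (hy u h3 h1)
  have sp : ∀ u ∈ closedBall (0 : ℂ) 1, u ∉ ball (0 : ℂ) 1 → u ∈ sphere (0 : ℂ) 1 := fun u h1 h2 => by
    rw [← closedBall_sdiff_ball]
    exact ⟨h1, h2⟩
  have off : ∀ u ∈ ball (0 : ℂ) 1, g u ∉ frontier Ω := fun u hu =>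
    disjoint_left.1 (disj hΩ.1) (im' ▸ mem_image_of_mem _ hu)
  obtain ⟨γ, hγ, hfr⟩ := hΩ.exists_loop
  have S : Side (frontier Ω) (fun z => g (E z)) K :=
    ⟨hfr ▸ hγ.isCompact_range, hK0, c.comp cont_E.continuousOn fun _ hz => E_mem' hz,
      fun z => by
        simp only [E, add_mul, Complex.exp_add, Complex.exp_two_pi_mul_I, mul_one],
      fun x => s₁ _ (by simp [norm_E]), fun z hz => off _ (E_mem.2 hz),
      fun x => (q.comp (conf_strip x) (maps_strip x)).1,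
      fun x => dl.comp q (conf_strip x) (maps_strip x)⟩
  have inj : InjOn g (closedBall 0 1) := by
    intro u hu v hv k
    by_cases h1 : u ∈ ball (0 : ℂ) 1 <;> by_cases h2 : v ∈ ball (0 : ℂ) 1
    · exact q.inj h1 h2 k
    · exact absurd (k ▸ s₁ v (sp v hv h2)) (off u h1)
    · exact absurd (k ▸ s₁ u (sp u hu h1)) (off v h2)
    obtain ⟨a, ha, rfl⟩ := exists_E (sp u hu h1)
    obtain ⟨b, hb, rfl⟩ := exists_E (sp v hv h2)
    rcases lt_trichotomy a b with l | rfl | l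
    · exact absurd k (inj_bd hΩ q.toHom im' S l (by linarith [ha.1, hb.2]))
    · rfl
    · exact absurd k.symm (inj_bd hΩ q.toHom im' S l (by linarith [hb.1, ha.2]))
  obtain ⟨u, hu, h1, h2⟩ := hd
  refine ⟨g, e, c, inj, im', Subset.antisymm (image_subset_iff.2 s₁) fun w hw => ?_, S,
    idx_of_det c inj hu (h1.hasFDerivAt.congr_of_eventuallyEq
      (e.eventuallyEq_of_mem (isOpen_ball.mem_nhds hu))) h2⟩
  obtain ⟨v, hv, rfl⟩ := closure_minimal (im' ▸ image_mono ball_subset_closedBall)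
    ((isCompact_closedBall 0 1).image_of_continuousOn c).isClosed (frontier_subset_closure hw)
  exact ⟨v, sp v hv fun k => off v k hw, rfl⟩

end Pool.Agent.P.MP_7f9008_an
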