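import Pool.Agent.P.MP_7f9008_an.Basic

/-! Curves with an upper gradient, potentials with an upper gradient. -/

open MeasureTheory Set Metric Filter Topology Real
open scoped ENNReal

noncomputable section
namespace Pool.Agent.P.MP_7f9008_an

/-- The curve `c` is continuous on `[a, b]` and its speed is at most `G`. -/
def AC (c : ℝ → ℂ) (G : ℝ → ℝ≥0∞) (a b : ℝ) : Prop :=
  ContinuousOn c (Icc a b) ∧
    ∀ t t', a ≤ t → t ≤ t' → t' ≤ b → edist (c t) (c t') ≤ ∫⁻ τ in Ioo t t', G τ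

section
variable {c : ℝ → ℂ} {G : ℝ → ℝ≥0∞} {a b : ℝ}

theorem AC.mono (h : AC c G a b) {a' b' : ℝ} (ha : a ≤ a') (hb : b' ≤ b) : AC c G a' b' :=
  ⟨h.1.mono (Icc_subset_Icc ha hb), fun t t' h1 h2 h3 => h.2 t t' (ha.trans h1) h2 (h3.trans hb)⟩

theorem AC.edist_le (h : AC c G a b) {t t' : ℝ} (ht : t ∈ Icc a b) (ht' : t' ∈ Icc a b) :
    edist (c t) (c t') ≤ ∫⁻ τ in Ioo a b, G τ := by
  rcases le_total t t' with h1 | h1
  · exact (h.2 t t' ht.1 h1 ht'.2).trans (lintegral_mono_set (Ioo_subset_Ioo ht.1 ht'.2))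
  · rw [edist_comm]
    exact (h.2 t' t ht'.1 h1 ht.2).trans (lintegral_mono_set (Ioo_subset_Ioo ht'.1 ht.2))

theorem AC.of_interior (hc : ContinuousOn c (Icc a b))
    (h : ∀ t t', a < t → t ≤ t' → t' < b → edist (c t) (c t') ≤ ∫⁻ τ in Ioo t t', G τ) :
    AC c G a b := by
  refine ⟨hc, fun t t' h1 h2 h3 => ?_⟩
  rcases h2.eq_or_lt with rfl | h2
  · simp
  have ev : ∀ᶠ s in 𝓝[>] (0 : ℝ), s ∈ Ioo 0 ((t' - t) / 2) := Ioo_mem_nhdsGT (by linarith)
  have l1 : Tendsto (fun s => c (t + s)) (𝓝[>] 0) (𝓝 (c t)) := by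
    refine (hc t ⟨h1, by linarith⟩).tendsto.comp (tendsto_nhdsWithin_iff.2 ⟨?_, ?_⟩)
    · have : Tendsto (fun s : ℝ => t + s) (𝓝 0) (𝓝 (t + 0)) :=
        (continuous_const.add continuous_id).tendsto 0
      simpa using this.mono_left nhdsWithin_le_nhds
    · exact ev.mono fun s hs => ⟨by linarith [hs.1], by linarith [hs.2]⟩
  have l2 : Tendsto (fun s => c (t' - s)) (𝓝[>] 0) (𝓝 (c t')) := by
    refine (hc t' ⟨by linarith, h3⟩).tendsto.comp (tendsto_nhdsWithin_iff.2 ⟨?_, ?_⟩)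
    · have : Tendsto (fun s : ℝ => t' - s) (𝓝 0) (𝓝 (t' - 0)) :=
        (continuous_const.sub continuous_id).tendsto 0
      simpa using this.mono_left nhdsWithin_le_nhds
    · exact ev.mono fun s hs => ⟨by linarith [hs.2], by linarith [hs.1]⟩
  refine le_of_tendsto (l1.edist l2) (ev.mono fun s hs => ?_)
  exact (h _ _ (by linarith [hs.1]) (by linarith [hs.2]) (by linarith [hs.1])).trans
    (lintegral_mono_set (Ioo_subset_Ioo (by linarith [hs.1]) (by linarith [hs.1])))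

end

theorem exists_cross {u : ℝ → ℝ} {a b v₀ v₁ : ℝ} (hab : a ≤ b) (hu : ContinuousOn u (Icc a b))
    (h0 : u a ≤ v₀) (hv : v₀ < v₁) (h1 : v₁ ≤ u b) :
    ∃ t t', a ≤ t ∧ t < t' ∧ t' ≤ b ∧ u t = v₀ ∧ u t' = v₁ ∧
      ∀ τ ∈ Ioo t t', v₀ < u τ ∧ u τ < v₁ := by
  have c0 : IsCompact (Icc a b ∩ u ⁻¹' Iic v₀) :=
    isCompact_Icc.of_isClosed_subset (hu.preimage_isClosed_of_isClosed isClosed_Icc isClosed_Iic)
      inter_subset_left
  obtain ⟨t, ⟨ht, ht0⟩, hgt⟩ := c0.exists_isGreatest ⟨a, ⟨le_rfl, hab⟩, h0⟩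
  have hu' : ContinuousOn u (Icc t b) := hu.mono (Icc_subset_Icc ht.1 le_rfl)
  have c1 : IsCompact (Icc t b ∩ u ⁻¹' Ici v₁) :=
    isCompact_Icc.of_isClosed_subset (hu'.preimage_isClosed_of_isClosed isClosed_Icc isClosed_Ici)
      inter_subset_left
  obtain ⟨t', ⟨ht', ht1⟩, hlt⟩ := c1.exists_isLeast ⟨b, ⟨ht.2, le_rfl⟩, h1⟩
  have ht0' : u t ≤ v₀ := ht0
  have ht1' : v₁ ≤ u t' := ht1
  have e0 : u t = v₀ := by
    obtain ⟨τ, hτ, e⟩ := intermediate_value_Icc ht.2 hu' (show v₀ ∈ Icc (u t) (u b) from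
      ⟨ht0', by linarith⟩)
    have : τ ≤ t := hgt ⟨⟨ht.1.trans hτ.1, hτ.2⟩, e.le⟩
    rw [← e, le_antisymm this hτ.1]
  have e1 : u t' = v₁ := by
    obtain ⟨τ, hτ, e⟩ := intermediate_value_Icc ht'.1 (hu'.mono (Icc_subset_Icc le_rfl ht'.2))
      (show v₁ ∈ Icc (u t) (u t') from ⟨by linarith, ht1'⟩)
    have : t' ≤ τ := hlt ⟨⟨hτ.1, hτ.2.trans ht'.2⟩, e.ge⟩
    rw [← e, le_antisymm this hτ.2]
  refine ⟨t, t', ht.1, lt_of_le_of_ne ht'.1 (by rintro rfl; linarith), ht'.2, e0, e1,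
    fun τ hτ => ⟨?_, ?_⟩⟩
  · by_contra hn
    have : τ ≤ t := hgt ⟨⟨ht.1.trans hτ.1.le, hτ.2.le.trans ht'.2⟩, not_lt.1 hn⟩
    linarith [hτ.1]
  · by_contra hn
    have : t' ≤ τ := hlt ⟨⟨hτ.1.le, hτ.2.le.trans ht'.2⟩, not_lt.1 hn⟩
    linarith [hτ.2]

theorem exists_cross₂ {u : ℝ → ℝ} {a b : ℝ} (hab : a ≤ b) (hu : ContinuousOn u (Icc a b))
    (hne : u a ≠ u b) : ∃ t t', a ≤ t ∧ t < t' ∧ t' ≤ b ∧ |u t' - u t| = |u b - u a| ∧
      ∀ τ ∈ Ioo t t', min (u a) (u b) < u τ ∧ u τ < max (u a) (u b) := by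
  rcases lt_or_gt_of_ne hne with h | h
  · obtain ⟨t, t', h1, h2, h3, h4, h5, h6⟩ := exists_cross hab hu le_rfl h le_rfl
    exact ⟨t, t', h1, h2, h3, by rw [h4, h5], fun τ hτ => by
      rw [min_eq_left h.le, max_eq_right h.le]; exact h6 τ hτ⟩
  · obtain ⟨t, t', h1, h2, h3, h4, h5, h6⟩ := exists_cross (u := fun x => -u x) hab hu.neg le_rfl
      (neg_lt_neg h) le_rfl
    exact ⟨t, t', h1, h2, h3, by rw [neg_inj.1 h4, neg_inj.1 h5], fun τ hτ => by
      rw [min_eq_right h.le, max_eq_left h.le]; constructor <;> linarith [h6 τ hτ]⟩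

/-- `ρ` is an upper gradient of `U` along curves in `Z`. -/
def UG (Z : Set ℂ) (U : ℂ → ℝ) (ρ : ℂ → ℝ≥0∞) : Prop :=
  ∀ c G a b, a ≤ b → AC c G a b → MapsTo c (Icc a b) Z →
    ENNReal.ofReal |U (c b) - U (c a)| ≤ ∫⁻ τ in Ioo a b, ρ (c τ) * G τ

theorem UG.block {Z S T : Set ℂ} {U : ℂ → ℝ} {l : ℝ} (hl : 0 < l) (hU : ContinuousOn U Z)
    (h01 : ∀ z ∈ Z, 0 ≤ U z ∧ U z ≤ 1) (hT : IsClosed T)
    (hS : ∀ z ∈ Z, 0 < U z → U z < 1 → z ∈ S ∧ z ∈ T)
    (hL : ∀ z ∈ Z, z ∈ T → ∀ z' ∈ Z, z' ∈ T → l * |U z - U z'| ≤ dist z z') :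
    UG Z U (S.indicator fun _ => ENNReal.ofReal l⁻¹) := by
  intro c G a b hab hc hZ
  by_cases hne : U (c a) = U (c b)
  · simp [hne]
  obtain ⟨t, t', h1, h2, h3, h4, h5⟩ := exists_cross₂ (u := fun τ => U (c τ)) hab
    (hU.comp hc.1 hZ) hne
  have sub : Ioo t t' ⊆ Icc a b := fun τ hτ => ⟨h1.trans hτ.1.le, hτ.2.le.trans h3⟩
  have za := h01 _ (hZ ⟨le_rfl, hab⟩)
  have zb := h01 _ (hZ ⟨hab, le_rfl⟩)
  have hin : ∀ τ ∈ Ioo t t', c τ ∈ S ∧ c τ ∈ T := fun τ hτ =>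
    hS _ (hZ (sub hτ)) ((le_min za.1 zb.1).trans_lt (h5 τ hτ).1)
      ((h5 τ hτ).2.trans_le (max_le za.2 zb.2))
  have hcl : ∀ τ ∈ Icc t t', c τ ∈ T := by
    intro τ hτ
    have h6 : ContinuousOn c (closure (Ioo t t')) := by
      rw [closure_Ioo h2.ne]; exact hc.1.mono (Icc_subset_Icc h1 h3)
    have h7 := h6.image_closure (mem_image_of_mem c (by rw [closure_Ioo h2.ne]; exact hτ))
    exact hT.closure_subset_iff.2 (by rintro _ ⟨x, hx, rfl⟩; exact (hin x hx).2) h7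
  have e1 := hL _ (hZ ⟨h1.trans h2.le, h3⟩) (hcl t' ⟨h2.le, le_rfl⟩) _
    (hZ ⟨h1, h2.le.trans h3⟩) (hcl t ⟨le_rfl, h2.le⟩)
  calc ENNReal.ofReal |U (c b) - U (c a)| ≤ ENNReal.ofReal (l⁻¹ * dist (c t) (c t')) := by
        refine ENNReal.ofReal_le_ofReal ?_
        rw [← h4, le_inv_mul_iff₀ hl, dist_comm]; exact e1
    _ = ENNReal.ofReal l⁻¹ * edist (c t) (c t') := by
        rw [ENNReal.ofReal_mul (by positivity), edist_dist]
    _ ≤ ENNReal.ofReal l⁻¹ * ∫⁻ τ in Ioo t t', G τ := by gcongr; exact hc.2 t t' h1 h2.le h3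
    _ ≤ ∫⁻ τ in Ioo t t', ENNReal.ofReal l⁻¹ * G τ := lintegral_const_mul_le _ _
    _ = ∫⁻ τ in Ioo t t', S.indicator (fun _ => ENNReal.ofReal l⁻¹) (c τ) * G τ :=
        setLIntegral_congr_fun measurableSet_Ioo fun τ hτ => by
          simp only [indicator_of_mem (hin τ hτ).1]
    _ ≤ _ := lintegral_mono_set (Ioo_subset_Ioo h1 h3)

theorem UG.sum {Z : Set ℂ} {ι : Type*} (s : Finset ι) {U : ι → ℂ → ℝ} {ρ : ι → ℂ → ℝ≥0∞}
    (h : ∀ i ∈ s, UG Z (U i) (ρ i)) :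
    UG Z (fun z => ∑ i ∈ s, U i z) (fun z => ∑ i ∈ s, ρ i z) := by
  classical
  induction s using Finset.induction_on with
  | empty => intro c G a b _ _ _; simp
  | insert i s hi ih =>
    intro c G a b hab hc hZ
    have h1 := h i (Finset.mem_insert_self _ _) c G a b hab hc hZ
    have h2 := ih (fun j hj => h j (Finset.mem_insert_of_mem hj)) c G a b hab hc hZ
    simp only [Finset.sum_insert hi, add_mul]
    refine le_trans ?_ ((add_le_add h1 h2).trans (le_lintegral_add _ _))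
    rw [← ENNReal.ofReal_add (abs_nonneg _) (abs_nonneg _)]
    refine ENNReal.ofReal_le_ofReal (le_trans (le_of_eq ?_) (abs_add_le _ _))
    congr 1; ring

theorem UG.le {Z : Set ℂ} {U : ℂ → ℝ} {ρ : ℂ → ℝ≥0∞} (h : UG Z U ρ) {c : ℝ → ℂ}
    {G : ℝ → ℝ≥0∞} {a b : ℝ} (hc : AC c G a b) (hZ : MapsTo c (Icc a b) Z) {t t' : ℝ}
    (ht : t ∈ Icc a b) (ht' : t' ∈ Icc a b) :
    ENNReal.ofReal |U (c t') - U (c t)| ≤ ∫⁻ τ in Ioo a b, ρ (c τ) * G τ := by
  rcases le_total t t' with h1 | h1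
  · exact (h c G t t' h1 (hc.mono ht.1 ht'.2) (hZ.mono_left (Icc_subset_Icc ht.1 ht'.2))).trans
      (lintegral_mono_set (Ioo_subset_Ioo ht.1 ht'.2))
  · rw [abs_sub_comm]
    exact (h c G t' t h1 (hc.mono ht'.1 ht.2) (hZ.mono_left (Icc_subset_Icc ht'.1 ht.2))).trans
      (lintegral_mono_set (Ioo_subset_Ioo ht'.1 ht.2))

/-- A potential with upper gradient `ρ` of energy at most `e`. -/
structure Pot (Z : Set ℂ) (U : ℂ → ℝ) (ρ : ℂ → ℝ≥0∞) (e : ℝ) : Prop where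
  ug : UG Z U ρ
  meas : Measurable ρ
  en : ∫⁻ z, ρ z ^ 2 ≤ ENNReal.ofReal e

theorem Pot.blocks {Z : Set ℂ} {ι : Type*} (s : Finset ι) {U : ι → ℂ → ℝ} {S : ι → Set ℂ}
    {l : ι → ℝ} {e : ℝ} (he : 0 ≤ e) (hl : ∀ i ∈ s, 0 < l i)
    (h : ∀ i ∈ s, UG Z (U i) ((S i).indicator fun _ => ENNReal.ofReal (l i)⁻¹))
    (hm : ∀ i ∈ s, MeasurableSet (S i)) (hd : ∀ i ∈ s, ∀ j ∈ s, i ≠ j → Disjoint (S i) (S j))
    (hv : ∀ i ∈ s, volume (S i) ≤ ENNReal.ofReal (e * l i ^ 2)) :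
    Pot Z (fun z => ∑ i ∈ s, U i z)
      (fun z => ∑ i ∈ s, (S i).indicator (fun _ => ENNReal.ofReal (l i)⁻¹) z) (e * s.card) := by
  refine ⟨UG.sum s h, Finset.measurable_sum _ fun i hi => measurable_const.indicator (hm i hi), ?_⟩
  have e1 : ∀ z, (∑ i ∈ s, (S i).indicator (fun _ => ENNReal.ofReal (l i)⁻¹) z) ^ 2 =
      ∑ i ∈ s, (S i).indicator (fun _ => ENNReal.ofReal (l i)⁻¹ ^ 2) z := by
    intro z
    by_cases hz : ∃ i ∈ s, z ∈ S i
    · obtain ⟨i, hi, hz⟩ := hz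
      have hn : ∀ j ∈ s, j ≠ i → z ∉ S j := fun j hj hji hzj =>
        Set.disjoint_left.1 (hd j hj i hi hji) hzj hz
      rw [Finset.sum_eq_single_of_mem i hi fun j hj hji => indicator_of_notMem (hn j hj hji) _,
        Finset.sum_eq_single_of_mem i hi fun j hj hji => indicator_of_notMem (hn j hj hji) _,
        indicator_of_mem hz, indicator_of_mem hz]
    · push Not at hz
      rw [Finset.sum_eq_zero fun i hi => indicator_of_notMem (hz i hi) _,
        Finset.sum_eq_zero fun i hi => indicator_of_notMem (hz i hi) _]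
      simp
  simp only [e1]
  rw [lintegral_finsetSum _ fun i hi => measurable_const.indicator (hm i hi)]
  calc _ ≤ ∑ i ∈ s, ENNReal.ofReal e := by
        refine Finset.sum_le_sum fun i hi => ?_
        rw [lintegral_indicator_const (hm i hi)]
        have := hl i hi
        calc _ ≤ ENNReal.ofReal (l i)⁻¹ ^ 2 * ENNReal.ofReal (e * l i ^ 2) := by
              gcongr; exact hv i hi
          _ = _ := by
              rw [← ENNReal.ofReal_pow (by positivity), ← ENNReal.ofReal_mul (by positivity)]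
              congr 1; field_simp
    _ = _ := by
        rw [Finset.sum_const, nsmul_eq_mul, ENNReal.ofReal_mul he, mul_comm,
          ENNReal.ofReal_natCast]

/-- Clamp to `[0, 1]`. -/
def cl (u : ℝ) : ℝ := max 0 (min u 1)

theorem cl_nonneg (u : ℝ) : 0 ≤ cl u := le_max_left _ _
theorem cl_le_one (u : ℝ) : cl u ≤ 1 := max_le zero_le_one (min_le_right _ _)
theorem cl_of_le {u : ℝ} (h : u ≤ 0) : cl u = 0 := max_eq_left ((min_le_left _ _).trans h)
theorem cl_of_ge {u : ℝ} (h : 1 ≤ u) : cl u = 1 := by simp [cl, h]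
theorem continuous_cl : Continuous cl := by unfold cl; fun_prop
theorem pos_of_cl {u : ℝ} (h : 0 < cl u) : 0 < u := by
  by_contra h'; rw [cl_of_le (not_lt.1 h')] at h; exact lt_irrefl _ h
theorem lt_one_of_cl {u : ℝ} (h : cl u < 1) : u < 1 := by
  by_contra h'; rw [cl_of_ge (not_lt.1 h')] at h; exact lt_irrefl _ h
theorem abs_cl_sub (u v : ℝ) : |cl u - cl v| ≤ |u - v| := by
  unfold cl
  rw [max_comm 0, max_comm 0]
  refine (abs_max_sub_max_le_abs _ _ _).trans ?_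
  simpa using abs_min_sub_min_le_max u 1 v 1

theorem volume_ball_le (w : ℂ) {r : ℝ} (hr : 0 ≤ r) :
    volume (ball w r) ≤ ENNReal.ofReal (13 / 4 * r ^ 2) := by
  rw [Complex.volume_ball, ← ENNReal.ofReal_pow hr, ← ENNReal.ofReal_coe_nnreal,
    ← ENNReal.ofReal_mul (by positivity)]
  refine ENNReal.ofReal_le_ofReal ?_
  have : (NNReal.pi : ℝ) ≤ 13 / 4 := by
    have := Real.pi_lt_d2; simp only [NNReal.coe_real_pi]; linarith
  nlinarith [sq_nonneg r]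

/-- The logarithmic potential of a dyadic annulus. -/
theorem exists_annulus (w : ℂ) {r : ℝ} (hr : 0 < r) (N : ℕ) :
    ∃ U ρ, Pot univ U ρ (13 * N) ∧ (∀ z, dist z w ≤ r → U z = 0) ∧
      ∀ z, 2 ^ N * r ≤ dist z w → U z = N := by
  have hl : ∀ j : ℕ, 0 < 2 ^ j * r := fun j => by positivity
  have P := Pot.blocks (Z := univ) (Finset.range N)
    (U := fun j z => cl ((dist z w - 2 ^ j * r) / (2 ^ j * r)))
    (S := fun j => ball w (2 * (2 ^ j * r)) \ closedBall w (2 ^ j * r)) (l := fun j => 2 ^ j * r)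
    (e := 13) (by norm_num) (fun j _ => hl j) (fun j _ => ?_)
    (fun j _ => measurableSet_ball.diff measurableSet_closedBall) (fun i _ j _ hij => ?_)
    (fun j _ => ?_)
  · rw [Finset.card_range] at P
    refine ⟨_, _, P, fun z hz => Finset.sum_eq_zero fun j _ => cl_of_le ?_, fun z hz => ?_⟩
    · refine div_nonpos_of_nonpos_of_nonneg ?_ (hl j).le
      have : (1 : ℝ) ≤ 2 ^ j := one_le_pow₀ (by norm_num)
      nlinarith
    · rw [Finset.sum_congr rfl (g := fun _ => (1 : ℝ))]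
      · simp
      intro j hj
      refine cl_of_ge ?_
      rw [le_div_iff₀ (hl j)]
      have : (2 : ℝ) ^ (j + 1) ≤ 2 ^ N :=
        pow_le_pow_right₀ (by norm_num) (Finset.mem_range.1 hj)
      rw [pow_succ] at this
      nlinarith
  · refine UG.block (T := univ) (hl j) (continuous_cl.comp (by fun_prop)).continuousOn
      (fun z _ => ⟨cl_nonneg _, cl_le_one _⟩) isClosed_univ (fun z _ h0 h1 => ⟨⟨?_, ?_⟩, trivial⟩)
      fun z _ _ z' _ _ => ?_
    · have := lt_one_of_cl h1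
      rw [div_lt_one (hl j)] at this
      rw [mem_ball]; linarith
    · have := pos_of_cl h0
      rw [div_pos_iff_of_pos_right (hl j)] at this
      rw [mem_closedBall, not_le]; linarith
    · refine (mul_le_mul_of_nonneg_left (abs_cl_sub _ _) (hl j).le).trans ?_
      rw [← sub_div, abs_div, abs_of_pos (hl j), mul_div_cancel₀ _ (hl j).ne']
      simpa using abs_dist_sub_le z z' w
  · wlog h : i < j generalizing i j
    · exact (this j ‹_› i ‹_› hij.symm (by omega)).symm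
    refine Set.disjoint_left.2 fun z hz hz' => hz'.2 ?_
    have : (2 : ℝ) ^ (i + 1) ≤ 2 ^ j := pow_le_pow_right₀ (by norm_num) h
    rw [pow_succ] at this
    have h1 := mem_ball.1 hz.1
    rw [mem_closedBall]; nlinarith
  · refine (measure_mono sdiff_subset).trans ((volume_ball_le w (by positivity)).trans ?_)
    exact ENNReal.ofReal_le_ofReal (le_of_eq (by ring))

end Pool.Agent.P.MP_7f9008_an
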