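import Mathlib

/-! Definitions for the three-point condition problem. The plane is `ℂ` with Lebesgue measure. -/

open MeasureTheory Set Metric
open scoped ContDiff

noncomputable section
namespace Pool.Agent.P.MP_7f9008_an

/-- `f ∈ W^{1,1}_loc(U)` with weak derivative `D`. -/
def W11 (U : Set ℂ) (f : ℂ → ℂ) (D : ℂ → ℂ →L[ℝ] ℂ) : Prop :=
  LocallyIntegrableOn f U ∧ LocallyIntegrableOn D U ∧
    ∀ φ : ℂ → ℝ, ContDiff ℝ ∞ φ → HasCompactSupport φ → tsupport φ ⊆ U →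
      ∀ e : ℂ, ∫ x, fderiv ℝ φ x e • f x = -∫ x, φ x • D x e

/-- `f` has finite distortion on `U`, with weak derivative `D` (operator norm, Jacobian `det`). -/
def FinDist (U : Set ℂ) (f : ℂ → ℂ) (D : ℂ → ℂ →L[ℝ] ℂ) : Prop :=
  W11 U f D ∧ LocallyIntegrableOn (fun x => (D x).det) U ∧
    ∃ K : ℂ → ℝ, Measurable K ∧ (∀ x, 1 ≤ K x) ∧
      ∀ᵐ x ∂(volume.restrict U), ‖D x‖ ^ 2 ≤ K x * (D x).det

/-- The distortion function. -/
def Kf (D : ℂ → ℂ →L[ℝ] ℂ) (x : ℂ) : ℝ :=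
  if 0 < (D x).det then ‖D x‖ ^ 2 / (D x).det else 1

/-- `f` is a quasiconformal homeomorphism of `U` onto `V`. -/
def IsQC (f : ℂ → ℂ) (U V : Set ℂ) : Prop :=
  (∃ e : U ≃ₜ V, ∀ x : U, (e x : ℂ) = f x) ∧
    ∃ D, FinDist U f D ∧ ∃ M : ℝ, ∀ᵐ x ∂(volume.restrict U), Kf D x ≤ M

/-- A bounded domain whose boundary is a Jordan curve. -/
def IsJordan (Ω : Set ℂ) : Prop :=
  IsOpen Ω ∧ IsConnected Ω ∧ Bornology.IsBounded Ω ∧
    ∃ γ : Circle → ℂ, Continuous γ ∧ Function.Injective γ ∧ frontier Ω = range γ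

/-- Condition `(T_φ)`: for close points `P ≠ Q` of the boundary, one of the components of the
boundary minus `{P, Q}` has diameter at most `C φ(|P - Q|)`. -/
def ThreePt (φ : ℝ → ℝ) (Ω : Set ℂ) : Prop :=
  ∃ C δ : ℝ, 0 < δ ∧ ∀ P ∈ frontier Ω, ∀ Q ∈ frontier Ω, P ≠ Q → dist P Q < δ →
    ∃ q ∈ frontier Ω \ {P, Q},
      diam (connectedComponentIn (frontier Ω \ {P, Q}) q) ≤ C * φ (dist P Q)

/-- Property `(E)`. -/
def PropE (Ω : Set ℂ) : Prop :=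
  ∀ f, IsQC f (ball 0 1) Ω → ∃ F : ℂ ≃ₜ ℂ, EqOn F f (ball 0 1) ∧
    ∃ D, FinDist univ F D ∧ ∃ l : ℝ, 0 < l ∧ LocallyIntegrable fun x => Real.exp (l * Kf D x)

/-- Admissible moduli. -/
def Admissible (φ : ℝ → ℝ) : Prop := ∀ Ω, IsJordan Ω → ThreePt φ Ω → PropE Ω

end Pool.Agent.P.MP_7f9008_an
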