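import Pool.Agent.P.MP_7f9008_an.GadDefs

/-! The one-variable functions of the extremal domain: clamps, zigzags and folds. -/

open Set Metric Filter Topology Real

noncomputable section
namespace Pool.Agent.P.MP_7f9008_an
namespace Dm

/-- Projection of the line onto `[p, q]`. -/
def clp (p q u : ℝ) : ℝ := max p (min u q)

theorem clp_mono (p q : ℝ) : Monotone (clp p q) := fun _ _ h =>
  max_le_max le_rfl (min_le_min h le_rfl)

theorem clp_lip (p q u v : ℝ) : |clp p q u - clp p q v| ≤ |u - v| := by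
  unfold clp
  have h1 := abs_max_sub_max_le_max p (min u q) p (min v q)
  have h2 := abs_min_sub_min_le_max u q v q
  simp only [sub_self, abs_zero] at h1 h2
  rw [max_eq_right (abs_nonneg (min u q - min v q))] at h1
  rw [max_eq_left (abs_nonneg (u - v))] at h2
  exact h1.trans h2

theorem clp_cont (p q : ℝ) : Continuous (clp p q) := by
  unfold clp; fun_prop

theorem clp_ge (p q u : ℝ) : p ≤ clp p q u := le_max_left _ _

theorem clp_le {p q : ℝ} (h : p ≤ q) (u : ℝ) : clp p q u ≤ q := max_le h (min_le_right _ _)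

theorem clp_lo {p q u : ℝ} (h : u ≤ p) : clp p q u = p :=
  max_eq_left ((min_le_left _ _).trans h)

theorem clp_hi {p q u : ℝ} (hpq : p ≤ q) (h : q ≤ u) : clp p q u = q := by
  unfold clp; rw [min_eq_right h, max_eq_right hpq]

theorem clp_mid {p q u : ℝ} (h1 : p ≤ u) (h2 : u ≤ q) : clp p q u = u := by
  unfold clp; rw [min_eq_left h2, max_eq_right h1]

/-- Distance to the set `2 + 4ℤ`. -/
def tri (u : ℝ) : ℝ := ‖((u - 2 : ℝ) : AddCircle (4 : ℝ))‖

theorem tri_lip (u v : ℝ) : |tri u - tri v| ≤ |u - v| := by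
  unfold tri
  refine (abs_norm_sub_norm_le _ _).trans ?_
  rw [← AddCircle.coe_sub]
  refine QuotientAddGroup.norm_mk_le_norm.trans ?_
  rw [Real.norm_eq_abs]
  exact le_of_eq (by congr 1; ring)

theorem tri_eq (n : ℤ) {u : ℝ} (h : |u - 2 - 4 * n| ≤ 2) : tri u = |u - 2 - 4 * n| := by
  unfold tri
  have h0 : ((4 * n : ℝ) : AddCircle (4 : ℝ)) = 0 :=
    (AddCircle.coe_eq_zero_iff _).2 ⟨n, by simp [mul_comm]⟩
  have h1 : ((u - 2 : ℝ) : AddCircle (4 : ℝ)) = ((u - 2 - 4 * n : ℝ) : AddCircle (4 : ℝ)) := by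
    rw [AddCircle.coe_sub (x := u - 2), h0, sub_zero]
  rw [h1, AddCircle.norm_coe_eq_abs_iff _ (by norm_num)]
  rw [abs_of_pos (show (0 : ℝ) < 4 by norm_num)]
  linarith

/-- The zigzag of period `4` with plateaus of length one. -/
def zig (u : ℝ) : ℝ := clp 0 1 (3 / 2 - tri u)

theorem zig_nonneg (u : ℝ) : 0 ≤ zig u := clp_ge _ _ _

theorem zig_le (u : ℝ) : zig u ≤ 1 := clp_le zero_le_one _

theorem zig_lip (u v : ℝ) : |zig u - zig v| ≤ |u - v| := by
  refine (clp_lip _ _ _ _).trans ?_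
  rw [show 3 / 2 - tri u - (3 / 2 - tri v) = tri v - tri u by ring, abs_sub_comm]
  exact tri_lip u v

theorem zig_up (n : ℤ) {u : ℝ} (h1 : 4 * n - 1 / 2 ≤ u) (h2 : u ≤ 4 * n + 5 / 2) :
    zig u = clp 0 1 (u - 4 * n - 1 / 2) := by
  unfold zig
  rcases le_total u (4 * n) with h | h
  · have e : u - 2 - 4 * ((n - 1 : ℤ) : ℝ) = u - 4 * n + 2 := by push_cast; ring
    rw [tri_eq (n - 1) (by rw [e, abs_le]; constructor <;> linarith), e,
      abs_of_nonneg (by linarith), clp_lo (by linarith), clp_lo (by linarith)]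
  · rw [tri_eq n (by rw [abs_le]; constructor <;> linarith)]
    rcases le_total u (4 * n + 2) with h' | h'
    · rw [abs_of_nonpos (by linarith)]
      congr 1; ring
    · rw [abs_of_nonneg (by linarith), clp_hi zero_le_one (by linarith),
        clp_hi zero_le_one (by linarith)]

theorem zig_down (n : ℤ) {u : ℝ} (h1 : 4 * n + 3 / 2 ≤ u) (h2 : u ≤ 4 * n + 9 / 2) :
    zig u = clp 0 1 (4 * n + 7 / 2 - u) := by
  unfold zig
  rcases le_total (4 * (n : ℝ) + 4) u with h | h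
  · have e : u - 2 - 4 * ((n + 1 : ℤ) : ℝ) = u - 4 * n - 6 := by push_cast; ring
    rw [tri_eq (n + 1) (by rw [e, abs_le]; constructor <;> linarith), e,
      abs_of_nonpos (by linarith), clp_lo (by linarith), clp_lo (by linarith)]
  · rw [tri_eq n (by rw [abs_le]; constructor <;> linarith)]
    rcases le_total u (4 * n + 2) with h' | h'
    · rw [abs_of_nonpos (by linarith), clp_hi zero_le_one (by linarith),
        clp_hi zero_le_one (by linarith)]
    · rw [abs_of_nonneg (by linarith)]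
      congr 1; ring

theorem zig_int (n : ℤ) : zig (4 * n) = 0 := by
  rw [zig_up n (by linarith) (by linarith), clp_lo (by linarith)]

theorem zig_low (n : ℤ) : zig (4 * n + 1 / 2) = 0 := by
  rw [zig_up n (by linarith) (by linarith), clp_lo (by linarith)]

theorem zig_high (n : ℤ) : zig (4 * n + 3 / 2) = 1 := by
  rw [zig_up n (by linarith) (by linarith), clp_hi zero_le_one (by linarith)]

/-- The zigzag is monotone on intervals of length one. -/
theorem zig_osc {p q s s' : ℝ} (h : q - p ≤ 1) (hs : s ∈ Icc p q) (hs' : s' ∈ Icc p q) :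
    |zig s - zig s'| ≤ |zig p - zig q| := by
  obtain ⟨h1, h2⟩ := hs
  obtain ⟨h3, h4⟩ := hs'
  have f1 := Int.floor_le ((p + 1 / 2) / 4)
  have f2 := Int.lt_floor_add_one ((p + 1 / 2) / 4)
  set n : ℤ := ⌊(p + 1 / 2) / 4⌋
  rcases le_total p (4 * n + 3 / 2) with hp | hp
  · rw [zig_up n (u := s) (by linarith) (by linarith), zig_up n (u := s') (by linarith) (by linarith),
      zig_up n (u := p) (by linarith) (by linarith), zig_up n (u := q) (by linarith) (by linarith)]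
    have a1 := clp_mono 0 1 (show p - 4 * n - 1 / 2 ≤ s - 4 * n - 1 / 2 by linarith)
    have a2 := clp_mono 0 1 (show s - 4 * n - 1 / 2 ≤ q - 4 * n - 1 / 2 by linarith)
    have a3 := clp_mono 0 1 (show p - 4 * n - 1 / 2 ≤ s' - 4 * n - 1 / 2 by linarith)
    have a4 := clp_mono 0 1 (show s' - 4 * n - 1 / 2 ≤ q - 4 * n - 1 / 2 by linarith)
    refine le_trans ?_ (neg_le_abs _)
    rw [abs_le]; constructor <;> linarith
  · rw [zig_down n (u := s) (by linarith) (by linarith),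
      zig_down n (u := s') (by linarith) (by linarith),
      zig_down n (u := p) (by linarith) (by linarith),
      zig_down n (u := q) (by linarith) (by linarith)]
    have a1 := clp_mono 0 1 (show 4 * n + 7 / 2 - s ≤ 4 * n + 7 / 2 - p by linarith)
    have a2 := clp_mono 0 1 (show 4 * n + 7 / 2 - q ≤ 4 * n + 7 / 2 - s by linarith)
    have a3 := clp_mono 0 1 (show 4 * n + 7 / 2 - s' ≤ 4 * n + 7 / 2 - p by linarith)
    have a4 := clp_mono 0 1 (show 4 * n + 7 / 2 - q ≤ 4 * n + 7 / 2 - s' by linarith)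
    refine le_trans ?_ (le_abs_self _)
    rw [abs_le]; constructor <;> linarith

/-- The shear of one gadget. -/
def aj (t w : ℝ) (m : ℕ) (y : ℝ) : ℝ := 4 * t * zig (clp 0 (8 * m) ((y - 2 * t) / w))

section aj
variable {t w : ℝ} {m : ℕ}

theorem aj_nonneg (ht : 0 ≤ t) (y : ℝ) : 0 ≤ aj t w m y :=
  mul_nonneg (by linarith) (zig_nonneg _)

theorem aj_le (ht : 0 ≤ t) (y : ℝ) : aj t w m y ≤ 4 * t :=
  mul_le_of_le_one_right (by linarith) (zig_le _)

theorem aj_lip (ht : 0 ≤ t) (hw : 0 < w) (y y' : ℝ) :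
    |aj t w m y - aj t w m y'| ≤ 4 * t / w * |y - y'| := by
  unfold aj
  rw [← mul_sub, abs_mul, abs_of_nonneg (show 0 ≤ 4 * t by linarith), div_mul_eq_mul_div,
    mul_div_assoc]
  refine mul_le_mul_of_nonneg_left (((zig_lip _ _).trans (clp_lip _ _ _ _)).trans (le_of_eq ?_))
    (by linarith)
  rw [← sub_div, abs_div, abs_of_pos hw]
  congr 2; ring

theorem aj_cont (ht : 0 ≤ t) (hw : 0 < w) : Continuous (aj t w m) := by
  refine (LipschitzWith.of_dist_le_mul (K := ⟨4 * t / w, by positivity⟩) fun x y => ?_).continuous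
  rw [Real.dist_eq, Real.dist_eq]
  exact aj_lip ht hw x y

theorem aj_lo (hw : 0 < w) {y : ℝ} (h : y ≤ 2 * t) : aj t w m y = 0 := by
  unfold aj
  rw [clp_lo (div_nonpos_of_nonpos_of_nonneg (by linarith) hw.le)]
  have := zig_int 0
  simp only [Int.cast_zero, mul_zero] at this
  rw [this, mul_zero]

theorem aj_hi (hw : 0 < w) (ht : t = 8 * m * w) {y : ℝ} (h : 3 * t ≤ y) : aj t w m y = 0 := by
  unfold aj
  rw [clp_hi (by positivity) (by rw [le_div_iff₀ hw]; linarith)]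
  have := zig_int (2 * m)
  push_cast at this
  rw [show (8 : ℝ) * m = 4 * (2 * m) by ring, this, mul_zero]

theorem aj_at (hw : 0 < w) {u : ℝ} (h0 : 0 ≤ u) (h1 : u ≤ 8 * m) :
    aj t w m (2 * t + u * w) = 4 * t * zig u := by
  unfold aj
  rw [add_sub_cancel_left, mul_div_cancel_right₀ _ hw.ne', clp_mid h0 h1]

theorem aj_osc (hw : 0 < w) {p q s s' : ℝ} (h : q - p ≤ w) (hs : s ∈ Icc p q)
    (hs' : s' ∈ Icc p q) : |aj t w m s - aj t w m s'| ≤ |aj t w m p - aj t w m q| := by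
  unfold aj
  rw [← mul_sub, ← mul_sub, abs_mul (4 * t), abs_mul (4 * t)]
  refine mul_le_mul_of_nonneg_left ?_ (abs_nonneg (4 * t))
  have hm : ∀ {x y : ℝ}, x ≤ y → clp 0 (8 * m) ((x - 2 * t) / w) ≤ clp 0 (8 * m) ((y - 2 * t) / w) :=
    fun hxy => clp_mono _ _ (div_le_div_of_nonneg_right (by linarith) hw.le)
  refine zig_osc ?_ ⟨hm hs.1, hm hs.2⟩ ⟨hm hs'.1, hm hs'.2⟩
  refine le_trans (le_abs_self _) (le_trans (clp_lip _ _ _ _) ?_)
  rw [← sub_div, abs_div, abs_of_pos hw, div_le_one hw, abs_of_nonneg (by linarith [hs.1, hs.2])]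
  linarith

end aj

/-- The profile of the fold. -/
def fo (u : ℝ) : ℝ := 2 * clp 0 1 u - 4 * clp 0 1 (u - 1) + 2 * clp 0 1 (u - 2)

theorem fo_lip (u v : ℝ) : |fo u - fo v| ≤ 8 * |u - v| := by
  have h1 := clp_lip 0 1 u v
  have h2 := clp_lip 0 1 (u - 1) (v - 1)
  have h3 := clp_lip 0 1 (u - 2) (v - 2)
  rw [sub_sub_sub_cancel_right] at h2 h3
  rw [abs_le] at h1 h2 h3 ⊢
  unfold fo
  constructor <;> linarith [h1.1, h1.2, h2.1, h2.2, h3.1, h3.2]

theorem fo_lo {u : ℝ} (h : u ≤ 0) : fo u = 0 := by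
  unfold fo
  rw [clp_lo h, clp_lo (by linarith), clp_lo (by linarith)]; ring

theorem fo_1 {u : ℝ} (h : 0 ≤ u) (h' : u ≤ 1) : fo u = 2 * u := by
  unfold fo
  rw [clp_mid h h', clp_lo (by linarith), clp_lo (by linarith)]; ring

theorem fo_2 {u : ℝ} (h : 1 ≤ u) (h' : u ≤ 2) : fo u = 6 - 4 * u := by
  unfold fo
  rw [clp_hi zero_le_one h, clp_mid (by linarith) (by linarith), clp_lo (by linarith)]; ring

theorem fo_3 {u : ℝ} (h : 2 ≤ u) (h' : u ≤ 3) : fo u = 2 * u - 6 := by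
  unfold fo
  rw [clp_hi zero_le_one (by linarith), clp_hi zero_le_one (by linarith),
    clp_mid (by linarith) (by linarith)]; ring

theorem fo_hi {u : ℝ} (h : 3 ≤ u) : fo u = 0 := by
  unfold fo
  rw [clp_hi zero_le_one (by linarith), clp_hi zero_le_one (by linarith),
    clp_hi zero_le_one (by linarith)]; ring

/-- The fold of one gadget. -/
def bj (t X : ℝ) : ℝ := t * fo (X / t - 1)

section bj
variable {t X : ℝ}

theorem bj_lip (ht : 0 < t) (X X' : ℝ) : |bj t X - bj t X'| ≤ 8 * |X - X'| := by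
  unfold bj
  rw [← mul_sub, abs_mul, abs_of_pos ht]
  refine (mul_le_mul_of_nonneg_left (fo_lip _ _) ht.le).trans (le_of_eq ?_)
  rw [sub_sub_sub_cancel_right, ← sub_div, abs_div, abs_of_pos ht]
  field_simp

theorem bj_lo (ht : 0 < t) (h : X ≤ t) : bj t X = 0 := by
  unfold bj
  rw [fo_lo (by rw [sub_nonpos, div_le_one ht]; exact h), mul_zero]

theorem bj_hi (ht : 0 < t) (h : 4 * t ≤ X) : bj t X = 0 := by
  unfold bj
  rw [fo_hi (by rw [le_sub_iff_add_le, le_div_iff₀ ht]; linarith), mul_zero]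

theorem bj_1 (ht : 0 < t) (h : t ≤ X) (h' : X ≤ 2 * t) : X + bj t X = 3 * X - 2 * t := by
  unfold bj
  rw [fo_1 (by rw [le_sub_iff_add_le, le_div_iff₀ ht]; linarith)
    (by rw [sub_le_iff_le_add, div_le_iff₀ ht]; linarith)]
  field_simp; ring

theorem bj_2 (ht : 0 < t) (h : 2 * t ≤ X) (h' : X ≤ 3 * t) : X + bj t X = 10 * t - 3 * X := by
  unfold bj
  rw [fo_2 (by rw [le_sub_iff_add_le, le_div_iff₀ ht]; linarith)
    (by rw [sub_le_iff_le_add, div_le_iff₀ ht]; linarith)]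
  field_simp; ring

theorem bj_3 (ht : 0 < t) (h : 3 * t ≤ X) (h' : X ≤ 4 * t) : X + bj t X = 3 * X - 8 * t := by
  unfold bj
  rw [fo_3 (by rw [le_sub_iff_add_le, le_div_iff₀ ht]; linarith)
    (by rw [sub_le_iff_le_add, div_le_iff₀ ht]; linarith)]
  field_simp; ring

end bj

/-- The horizontal shear. -/
def aa (t w : ℕ → ℝ) (m : ℕ → ℕ) (y : ℝ) : ℝ := ∑' j, aj (t j) (w j) (m j) y

/-- The lower boundary before the horizontal shear. -/
def bb (t : ℕ → ℝ) (X : ℝ) : ℝ := X + ∑' j, bj (t j) X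

section seq
variable {t w : ℕ → ℝ} {m : ℕ → ℕ} (h : Seq t w m)
include h

theorem tpos (j : ℕ) : 0 < t j := by
  have h1 := h.wpos j
  have h2 : (1 : ℝ) ≤ m j := by exact_mod_cast h.mpos j
  rw [h.teq j]; positivity

theorem wle (j : ℕ) : 8 * w j ≤ t j := by
  have h1 := h.wpos j
  have h2 : (1 : ℝ) ≤ m j := by exact_mod_cast h.mpos j
  rw [h.teq j]; nlinarith

theorem tanti : Antitone t := antitone_nat_of_succ_le fun j => by
  have := h.tdec j
  have := tpos h (j + 1)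
  linarith

theorem tlt {j k : ℕ} (hjk : j < k) : 100 * t k ≤ t j := by
  have h1 : t k ≤ t (j + 1) := tanti h hjk
  have := h.tdec j
  linarith

theorem tsmall (j : ℕ) : t j ≤ 1 / 1000 := (tanti h (Nat.zero_le j)).trans h.t0

theorem tle_of {j k : ℕ} (hjk : t k ≤ 6 * t j) : t k ≤ t j := by
  rcases le_or_gt j k with h1 | h1
  · exact tanti h h1
  · have := tlt h h1
    have := tpos h j
    linarith

theorem tsumm : Summable t := by
  refine Summable.of_nonneg_of_le (fun j => (tpos h j).le) (fun j => ?_)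
    ((summable_geometric_two).mul_left (t 0))
  induction j with
  | zero => simp
  | succ j ih =>
    have := h.tdec j
    have := tpos h (j + 1)
    rw [pow_succ, ← mul_assoc]
    linarith

theorem loc {j k : ℕ} (hjk : j ≠ k) {x : ℝ} (hx : x ∈ Icc (t k) (6 * t k)) :
    x ≤ t j ∨ 4 * t j ≤ x := by
  have := tpos h k
  have := tpos h j
  rcases lt_or_gt_of_ne hjk with h1 | h1
  · left; linarith [tlt h h1, hx.2]
  · right; linarith [tlt h h1, hx.1]

theorem aa_cont : Continuous (aa t w m) := by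
  refine continuous_tsum (fun j => aj_cont (tpos h j).le (h.wpos j)) ((tsumm h).mul_left 4)
    fun j y => ?_
  rw [Real.norm_of_nonneg (aj_nonneg (tpos h j).le y)]
  exact aj_le (tpos h j).le y

theorem aa_eq (k : ℕ) {y : ℝ} (hy : y ∈ Icc (t k) (6 * t k)) :
    aa t w m y = aj (t k) (w k) (m k) y := by
  refine tsum_eq_single k fun j hj => ?_
  have := tpos h j
  rcases loc h hj hy with h1 | h1
  · exact aj_lo (h.wpos j) (by linarith)
  · exact aj_hi (h.wpos j) (h.teq j) (by linarith)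

theorem aa_zero {y : ℝ} (hy : ∀ k, y ∉ Icc (2 * t k) (3 * t k)) : aa t w m y = 0 := by
  have : ∀ j, aj (t j) (w j) (m j) y = 0 := fun j => by
    by_cases h1 : y ≤ 2 * t j
    · exact aj_lo (h.wpos j) h1
    · refine aj_hi (h.wpos j) (h.teq j) ?_
      by_contra h2
      exact hy j ⟨by linarith, by linarith⟩
  simp only [aa, this, tsum_zero]

theorem aa_nonneg (y : ℝ) : 0 ≤ aa t w m y :=
  tsum_nonneg fun j => aj_nonneg (tpos h j).le y

theorem aa_le_of {y L : ℝ} (hL : 0 ≤ L) (hy : ∀ k, y ∈ Icc (2 * t k) (3 * t k) → t k ≤ L) :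
    aa t w m y ≤ 4 * L := by
  by_cases h1 : ∃ k, y ∈ Icc (2 * t k) (3 * t k)
  · obtain ⟨k, hk⟩ := h1
    have := tpos h k
    rw [aa_eq h k ⟨by linarith [hk.1], by linarith [hk.2]⟩]
    linarith [aj_le (w := w k) (m := m k) this.le y, hy k hk]
  · push Not at h1
    rw [aa_zero h h1]; linarith

theorem aa_small (y : ℝ) : aa t w m y ≤ 4 * (1 / 1000) :=
  aa_le_of h (by norm_num) fun k _ => tsmall h k

theorem bb_eq (k : ℕ) {X : ℝ} (hX : X ∈ Icc (t k) (6 * t k)) : bb t X = X + bj (t k) X := by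
  unfold bb
  congr 1
  refine tsum_eq_single k fun j hj => ?_
  rcases loc h hj hX with h1 | h1
  · exact bj_lo (tpos h j) h1
  · exact bj_hi (tpos h j) h1

theorem bb_id {X : ℝ} (hX : ∀ k, X ∉ Icc (t k) (4 * t k)) : bb t X = X := by
  have : ∀ j, bj (t j) X = 0 := fun j => by
    by_cases h1 : X ≤ t j
    · exact bj_lo (tpos h j) h1
    · refine bj_hi (tpos h j) ?_
      by_contra h2
      exact hX j ⟨by linarith, by linarith⟩
  simp only [bb, this, tsum_zero, add_zero]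

theorem bb_1 (k : ℕ) {X : ℝ} (hX : X ∈ Icc (t k) (2 * t k)) : bb t X = 3 * X - 2 * t k := by
  have := tpos h k
  rw [bb_eq h k ⟨hX.1, by linarith [hX.2]⟩, bj_1 this hX.1 hX.2]

theorem bb_2 (k : ℕ) {X : ℝ} (hX : X ∈ Icc (2 * t k) (3 * t k)) : bb t X = 10 * t k - 3 * X := by
  have := tpos h k
  rw [bb_eq h k ⟨by linarith [hX.1], by linarith [hX.2]⟩, bj_2 this hX.1 hX.2]

theorem bb_3 (k : ℕ) {X : ℝ} (hX : X ∈ Icc (3 * t k) (4 * t k)) : bb t X = 3 * X - 8 * t k := by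
  have := tpos h k
  rw [bb_eq h k ⟨by linarith [hX.1], by linarith [hX.2]⟩, bj_3 this hX.1 hX.2]

theorem bb_mem (k : ℕ) {X : ℝ} (hX : X ∈ Icc (t k) (4 * t k)) : bb t X ∈ Icc (t k) (4 * t k) := by
  obtain ⟨h1, h2⟩ := hX
  rcases le_total X (2 * t k) with h3 | h3
  · rw [bb_1 h k ⟨h1, h3⟩]; constructor <;> linarith
  · rcases le_total X (3 * t k) with h4 | h4
    · rw [bb_2 h k ⟨h3, h4⟩]; constructor <;> linarith
    · rw [bb_3 h k ⟨h4, h2⟩]; constructor <;> linarith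

theorem bb_cases (X : ℝ) : bb t X = X ∨ ∃ k, X ∈ Icc (t k) (4 * t k) ∧ bb t X ∈ Icc (t k) (4 * t k) := by
  by_cases h1 : ∃ k, X ∈ Icc (t k) (4 * t k)
  · obtain ⟨k, hk⟩ := h1
    exact Or.inr ⟨k, hk, bb_mem h k hk⟩
  · push Not at h1
    exact Or.inl (bb_id h h1)

theorem bb_near (X : ℝ) : |bb t X - X| ≤ 1 / 100 := by
  rcases bb_cases h X with h1 | ⟨k, h1, h2⟩
  · rw [h1]; simp
  · have := tsmall h k
    have := tpos h k
    rw [abs_le]; constructor <;> linarith [h1.1, h1.2, h2.1, h2.2]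

theorem bb_of_nonpos {X : ℝ} (hX : X ≤ 0) : bb t X = X :=
  bb_id h fun k hk => by linarith [tpos h k, hk.1]

theorem bb_half : bb t (1 / 2) = 1 / 2 :=
  bb_id h fun k hk => by linarith [tsmall h k, hk.2]

theorem bb_single (X : ℝ) : ∃ k, bb t X = X + bj (t k) X ∧ ∀ j, j ≠ k → bj (t j) X = 0 := by
  by_cases h1 : ∃ k, X ∈ Icc (t k) (4 * t k)
  · obtain ⟨k, hk⟩ := h1
    have := tpos h k
    have hk' : X ∈ Icc (t k) (6 * t k) := ⟨hk.1, by linarith [hk.2]⟩
    refine ⟨k, bb_eq h k hk', fun j hj => ?_⟩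
    rcases loc h hj hk' with h1 | h1
    · exact bj_lo (tpos h j) h1
    · exact bj_hi (tpos h j) h1
  · push Not at h1
    have : ∀ j, bj (t j) X = 0 := fun j => by
      by_cases h2 : X ≤ t j
      · exact bj_lo (tpos h j) h2
      · refine bj_hi (tpos h j) ?_
        by_contra h3
        exact h1 j ⟨by linarith, by linarith⟩
    exact ⟨0, by rw [bb_id h h1, this, add_zero], fun j _ => this j⟩

theorem bb_lip (X X' : ℝ) : |bb t X - bb t X'| ≤ 17 * |X - X'| := by
  obtain ⟨k, h1, h2⟩ := bb_single h X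
  obtain ⟨k', h3, h4⟩ := bb_single h X'
  have a1 := bj_lip (tpos h k) X X'
  have a2 := bj_lip (tpos h k') X X'
  have a3 := le_abs_self (X - X')
  have a4 := neg_le_abs (X - X')
  have a5 := abs_nonneg (X - X')
  rw [h1, h3]
  rcases eq_or_ne k k' with rfl | hk
  · rw [abs_le] at a1 ⊢
    constructor <;> linarith [a1.1, a1.2]
  · rw [h4 k hk] at a1
    rw [h2 k' hk.symm] at a2
    rw [abs_le] at a1 a2 ⊢
    constructor <;> linarith [a1.1, a1.2, a2.1, a2.2]

theorem bb_cont : Continuous (bb t) := by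
  refine (LipschitzWith.of_dist_le_mul (K := 17) fun x y => ?_).continuous
  simpa only [Real.dist_eq, NNReal.coe_ofNat] using bb_lip h x y

/-- Points of the graph of `bb` at the height of a gadget lie on its three walls. -/
theorem wall (k : ℕ) {X : ℝ} (hY : bb t X ∈ Icc (3 / 2 * t k) (7 / 2 * t k)) :
    X ∈ Icc (t k) (4 * t k) := by
  have := tpos h k
  obtain ⟨h1, h2⟩ := hY
  rcases bb_cases h X with h3 | ⟨j, h3, h4⟩
  · rw [h3] at h1 h2
    constructor <;> linarith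
  · rcases eq_or_ne j k with rfl | hj
    · exact h3
    · exfalso
      have := tpos h j
      rcases lt_or_gt_of_ne hj with h5 | h5
      · linarith [tlt h h5, h4.1]
      · linarith [tlt h h5, h4.2]

theorem wall_steep (k : ℕ) {X X' : ℝ} (hY : bb t X ∈ Icc (3 / 2 * t k) (7 / 2 * t k))
    (hY' : bb t X' ∈ Icc (3 / 2 * t k) (7 / 2 * t k)) (hd : |X - X'| ≤ t k / 4) :
    |X - X'| ≤ 2 * |bb t X - bb t X'| := by
  have := tpos h k
  obtain ⟨h1, h2⟩ := wall h k hY
  obtain ⟨h3, h4⟩ := wall h k hY'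
  obtain ⟨y1, y2⟩ := hY
  obtain ⟨y3, y4⟩ := hY'
  have a1 := le_abs_self (bb t X - bb t X')
  have a2 := neg_le_abs (bb t X - bb t X')
  have a3 := abs_nonneg (bb t X - bb t X')
  rw [abs_le] at hd ⊢
  obtain ⟨d1, d2⟩ := hd
  have c : ∀ Z, t k ≤ Z → Z ≤ 4 * t k → (Z ≤ 2 * t k ∧ bb t Z = 3 * Z - 2 * t k) ∨
      (bb t Z = 10 * t k - 3 * Z) ∨ (3 * t k ≤ Z ∧ bb t Z = 3 * Z - 8 * t k) := fun Z z1 z2 => by
    rcases le_total Z (2 * t k) with z3 | z3
    · exact Or.inl ⟨z3, bb_1 h k ⟨z1, z3⟩⟩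
    · rcases le_total Z (3 * t k) with z4 | z4
      · exact Or.inr (Or.inl (bb_2 h k ⟨z3, z4⟩))
      · exact Or.inr (Or.inr ⟨z4, bb_3 h k ⟨z4, z2⟩⟩)
  rcases c X h1 h2 with ⟨e0, e⟩ | e | ⟨e0, e⟩ <;> rcases c X' h3 h4 with ⟨f0, f⟩ | f | ⟨f0, f⟩ <;>
    constructor <;> linarith

end seq

end Dm
end Pool.Agent.P.MP_7f9008_an
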