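import Pool.Agent.P.MP_7f9008_an.GadDefs
import Pool.Agent.P.MP_7f9008_an.Arc
import Pool.Agent.P.MP_7f9008_an.DomA

/-! Construction of the extremal domain as the image of the disc under two shears. -/

open Set Metric Filter Topology Real

noncomputable section
namespace Pool.Agent.P.MP_7f9008_an
namespace Dm

/-- Vertical shear. -/
def shV (c : ℝ → ℝ) (hc : Continuous c) : ℂ ≃ₜ ℂ where
  toFun z := z + (c z.re : ℂ) * Complex.I
  invFun z := z - (c z.re : ℂ) * Complex.I
  left_inv z := by simp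
  right_inv z := by simp
  continuous_toFun := by fun_prop
  continuous_invFun := by fun_prop

/-- Horizontal shear. -/
def shH (a : ℝ → ℝ) (ha : Continuous a) : ℂ ≃ₜ ℂ where
  toFun z := z + (a z.im : ℂ)
  invFun z := z - (a z.im : ℂ)
  left_inv z := by simp
  right_inv z := by simp
  continuous_toFun := by fun_prop
  continuous_invFun := by fun_prop

theorem preconn_compl_ball : IsPreconnected (ball (0 : ℂ) 1)ᶜ := by
  have h1 : IsPreconnected (Ici (1 : ℝ) ×ˢ (univ : Set ℝ)) :=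
    isPreconnected_Ici.prod isPreconnected_univ
  have h2 := h1.image (fun p : ℝ × ℝ => (p.1 : ℂ) * Complex.exp (p.2 * Complex.I))
    (by fun_prop : Continuous _).continuousOn
  convert h2 using 1
  ext z
  simp only [mem_compl_iff, mem_ball_zero_iff, not_lt, mem_image, mem_prod, mem_Ici, mem_univ,
    and_true, Prod.exists]
  constructor
  · intro hz
    exact ⟨‖z‖, z.arg, hz, Complex.norm_mul_exp_arg_mul_I z⟩
  · rintro ⟨r, θ, hr, rfl⟩
    rw [norm_mul, Complex.norm_exp_ofReal_mul_I, mul_one, Complex.norm_real]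
    exact hr.trans (le_abs_self r)

theorem jordan {s s' : ℝ} (h : |s - s'| ≤ π) :
    |s - s'| ≤ 2 * (|cos s - cos s'| + |sin s - sin s'|) := by
  have h1 := cos_le_one_sub_mul_cos_sq h
  have h2 : (1 : ℝ) / 8 ≤ 2 / π ^ 2 := by
    rw [div_le_div_iff₀ (by norm_num) (by positivity)]
    nlinarith [pi_le_four, pi_pos]
  have h3 : 1 / 8 * (s - s') ^ 2 ≤ 2 / π ^ 2 * (s - s') ^ 2 :=
    mul_le_mul_of_nonneg_right h2 (sq_nonneg _)
  rw [cos_sub] at h1
  have h4 := sin_sq_add_cos_sq s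
  have h5 := sin_sq_add_cos_sq s'
  have h6 := sq_abs (cos s - cos s')
  have h7 := sq_abs (sin s - sin s')
  have h8 := mul_nonneg (abs_nonneg (cos s - cos s')) (abs_nonneg (sin s - sin s'))
  refine abs_le_of_sq_le_sq' ?_ (by positivity) |> abs_le.2
  nlinarith

theorem sqrt_lip {u v : ℝ} (hu : u ∈ Icc (-1 / 2 : ℝ) (1 / 2)) (hv : v ∈ Icc (-1 / 2 : ℝ) (1 / 2)) :
    |√(1 - u ^ 2) - √(1 - v ^ 2)| ≤ |u - v| := by
  obtain ⟨u1, u2⟩ := hu
  obtain ⟨v1, v2⟩ := hv
  have hp : 1 / 2 ≤ √(1 - u ^ 2) := Real.le_sqrt_of_sq_le (by nlinarith)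
  have hq : 1 / 2 ≤ √(1 - v ^ 2) := Real.le_sqrt_of_sq_le (by nlinarith)
  have hp2 := Real.sq_sqrt (show 0 ≤ 1 - u ^ 2 by nlinarith)
  have hq2 := Real.sq_sqrt (show 0 ≤ 1 - v ^ 2 by nlinarith)
  set p := √(1 - u ^ 2)
  set q := √(1 - v ^ 2)
  have e : (p - q) * (p + q) = -((u - v) * (u + v)) := by nlinarith
  have h1 : |p - q| * (p + q) = |u - v| * |u + v| := by
    rw [← abs_of_nonneg (show 0 ≤ p + q by linarith), ← abs_mul, e, abs_neg, abs_mul]
  have h2 : |u + v| ≤ 1 := by rw [abs_le]; constructor <;> linarith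
  nlinarith [abs_nonneg (p - q), abs_nonneg (u - v)]

/-- The vertical shear. -/
def cc (t : ℕ → ℝ) (X : ℝ) : ℝ :=
  bb t (clp (-1 / 2) (1 / 2) X) + √(1 - clp (-1 / 2) (1 / 2) X ^ 2)

/-- Height of the boundary point with angle `θ`. -/
def YY (t : ℕ → ℝ) (θ : ℝ) : ℝ := sin θ + cc t (cos θ)

theorem cc_mid (t : ℕ → ℝ) {X : ℝ} (h1 : -1 / 2 ≤ X) (h2 : X ≤ 1 / 2) :
    cc t X = bb t X + √(1 - X ^ 2) := by
  unfold cc; rw [clp_mid h1 h2]

theorem cc_lo (t : ℕ → ℝ) {X : ℝ} (h1 : X ≤ -1 / 2) : cc t X = cc t (-1 / 2) := by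
  unfold cc; rw [clp_lo h1, clp_lo le_rfl]

section seq
variable {t w : ℕ → ℝ} {m : ℕ → ℕ} (h : Seq t w m)
include h

theorem cc_lip (X X' : ℝ) : |cc t X - cc t X'| ≤ 18 * |X - X'| := by
  have h0 := clp_lip (-1 / 2) (1 / 2) X X'
  have h1 := bb_lip h (clp (-1 / 2) (1 / 2) X) (clp (-1 / 2) (1 / 2) X')
  have h2 := sqrt_lip (u := clp (-1 / 2) (1 / 2) X) (v := clp (-1 / 2) (1 / 2) X')
    ⟨clp_ge _ _ _, clp_le (by norm_num) _⟩ ⟨clp_ge _ _ _, clp_le (by norm_num) _⟩
  unfold cc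
  rw [abs_le] at h1 h2 ⊢
  constructor <;> linarith [h1.1, h1.2, h2.1, h2.2]

theorem cc_cont : Continuous (cc t) := by
  refine (LipschitzWith.of_dist_le_mul (K := 18) fun x y => ?_).continuous
  simpa only [Real.dist_eq, NNReal.coe_ofNat] using cc_lip h x y

theorem YY_cont : Continuous (YY t) :=
  continuous_sin.add ((cc_cont h).comp continuous_cos)

theorem YY_lip (s s' : ℝ) : |YY t s - YY t s'| ≤ 19 * |s - s'| := by
  have h1 := cc_lip h (cos s) (cos s')
  have h2 := abs_cos_sub_cos_le s s'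
  have h3 := abs_sin_sub_sin_le s s'
  unfold YY
  rw [abs_le] at h1 h3 ⊢
  constructor <;> linarith [h1.1, h1.2, h3.1, h3.2]

theorem ang_le {s s' : ℝ} (hs : |s - s'| ≤ π) :
    |s - s'| ≤ 38 * |cos s - cos s'| + 2 * |YY t s - YY t s'| := by
  have h1 := jordan hs
  have h2 := cc_lip h (cos s) (cos s')
  have h3 : |sin s - sin s'| ≤ |YY t s - YY t s'| + |cc t (cos s) - cc t (cos s')| := by
    have := abs_sub (YY t s - YY t s') (cc t (cos s) - cc t (cos s'))
    rwa [show YY t s - YY t s' - (cc t (cos s) - cc t (cos s')) = sin s - sin s' by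
      unfold YY; ring] at this
  linarith

theorem types {θ : ℝ} (hY : YY t θ ≤ 1 / 100) :
    (cos θ ≤ -1 / 2 ∧ YY t θ = sin θ + cc t (-1 / 2)) ∨ YY t θ = bb t (cos θ) := by
  have hsc := sin_sq_add_cos_sq θ
  rcases le_total (cos θ) (-1 / 2) with h1 | h1
  · exact Or.inl ⟨h1, by unfold YY; rw [cc_lo t h1]⟩
  right
  rcases le_total (cos θ) (1 / 2) with h2 | h2
  · have e : YY t θ = sin θ + (bb t (cos θ) + |sin θ|) := by
      unfold YY
      rw [cc_mid t h1 h2, ← Real.sqrt_sq_eq_abs]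
      congr 3; linarith
    rcases le_total (sin θ) 0 with h3 | h3
    · rw [e, abs_of_nonpos h3]; ring
    · exfalso
      rw [e, abs_of_nonneg h3] at hY
      have h4 := abs_le.1 (bb_near h (cos θ))
      have h5 : 1 / 2 ≤ sin θ := by nlinarith
      linarith [h4.1]
  · exfalso
    have e : YY t θ = sin θ + (1 / 2 + √(1 - (1 / 2) ^ 2)) := by
      unfold YY cc
      rw [clp_hi (by norm_num) h2, bb_half h]
    have h3 : |sin θ| ≤ √(1 - (1 / 2) ^ 2) := Real.abs_le_sqrt (by nlinarith)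
    have h4 := neg_le_abs (sin θ)
    linarith

/-- In the strip of a gadget the boundary is steep. -/
theorem steep (k : ℕ) {s s' : ℝ} (hY : YY t s ∈ Icc (3 / 2 * t k) (7 / 2 * t k))
    (hY' : YY t s' ∈ Icc (3 / 2 * t k) (7 / 2 * t k)) (hd : |cos s - cos s'| ≤ t k / 4) :
    |cos s - cos s'| ≤ 2 * |YY t s - YY t s'| := by
  have ht := tsmall h k
  have ht0 := tpos h k
  rcases types h (θ := s) (by linarith [hY.2]) with ⟨a1, a2⟩ | a2 <;>
    rcases types h (θ := s') (by linarith [hY'.2]) with ⟨b1, b2⟩ | b2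
  · rw [a2, b2, add_sub_add_right_eq_sub]
    have h4 := sin_sq_add_cos_sq s
    have h5 := sin_sq_add_cos_sq s'
    have e : (cos s - cos s') * (cos s + cos s') = -((sin s - sin s') * (sin s + sin s')) := by
      nlinarith
    have h1 : |cos s - cos s'| * |cos s + cos s'| = |sin s - sin s'| * |sin s + sin s'| := by
      rw [← abs_mul, e, abs_neg, abs_mul]
    have h2 : 1 ≤ |cos s + cos s'| := le_trans (by linarith) (neg_le_abs _)
    have h3 : |sin s + sin s'| ≤ 2 := by
      rw [abs_le]; constructor <;> linarith [sin_le_one s, sin_le_one s', neg_one_le_sin s,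
        neg_one_le_sin s']
    nlinarith [abs_nonneg (cos s - cos s'), abs_nonneg (sin s - sin s')]
  · exfalso
    have := (wall h k (b2 ▸ hY')).1
    linarith [(abs_le.1 hd).1]
  · exfalso
    have := (wall h k (a2 ▸ hY)).1
    linarith [(abs_le.1 hd).2]
  · rw [a2] at hY ⊢
    rw [b2] at hY' ⊢
    exact wall_steep h k hY hY' hd

/-- The homeomorphism of the plane that maps the disc onto the domain. -/
def Th : ℂ ≃ₜ ℂ := (shV (cc t) (cc_cont h)).trans (shH (aa t w m) (aa_cont h))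

theorem Th_im (z : ℂ) : (Th h z).im = z.im + cc t z.re := by
  simp [Th, shV, shH]

theorem Th_re (z : ℂ) : (Th h z).re = z.re + aa t w m (z.im + cc t z.re) := by
  simp [Th, shV, shH]

/-- The boundary curve. -/
def gam (θ : ℝ) : ℂ := Th h (Complex.exp (θ * Complex.I))

theorem gam_im (θ : ℝ) : (gam h θ).im = YY t θ := by
  simp only [gam, Th_im, Complex.exp_ofReal_mul_I_re, Complex.exp_ofReal_mul_I_im, YY]

theorem gam_re (θ : ℝ) : (gam h θ).re = cos θ + aa t w m (YY t θ) := by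
  simp only [gam, Th_re, Complex.exp_ofReal_mul_I_re, Complex.exp_ofReal_mul_I_im, YY]

theorem gam_loop : Loop (gam h) where
  cont := (Th h).continuous.comp (by fun_prop)
  per x := by
    unfold gam
    congr 1
    push_cast
    rw [add_mul, Complex.exp_add, Complex.exp_two_pi_mul_I, mul_one]
  inj x y hxy := by
    obtain ⟨n, hn⟩ := Complex.exp_eq_exp_iff_exists_int.1 ((Th h).injective hxy).symm
    refine ⟨n, ?_⟩
    have := congrArg Complex.im hn
    simpa using this

theorem frontier_eq : frontier (Th h '' ball 0 1) = Th h '' sphere 0 1 := by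
  rw [← Homeomorph.image_frontier, frontier_ball _ one_ne_zero]

theorem range_gam : range (gam h) = Th h '' sphere 0 1 := by
  rw [← Complex.range_exp_mul_I, ← range_comp]
  rfl

theorem dist_le (s s' : ℝ) : dist (gam h s) (gam h s') ≤
    |cos s - cos s'| + |aa t w m (YY t s) - aa t w m (YY t s')| + |YY t s - YY t s'| := by
  rw [dist_eq_norm]
  refine (Complex.norm_le_abs_re_add_abs_im _).trans ?_
  rw [Complex.sub_re, Complex.sub_im, gam_re, gam_re, gam_im, gam_im, add_sub_add_comm]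
  linarith [abs_add_le (cos s - cos s') (aa t w m (YY t s) - aa t w m (YY t s'))]

theorem YY_le (s s' : ℝ) : |YY t s - YY t s'| ≤ dist (gam h s) (gam h s') := by
  rw [dist_eq_norm, ← gam_im h, ← gam_im h, ← Complex.sub_im]
  exact Complex.abs_im_le_norm _

theorem re_le (s s' : ℝ) : |cos s - cos s' + (aa t w m (YY t s) - aa t w m (YY t s'))| ≤
    dist (gam h s) (gam h s') := by
  rw [dist_eq_norm, ← add_sub_add_comm, ← gam_re h, ← gam_re h, ← Complex.sub_re]
  exact Complex.abs_re_le_norm _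

omit h in
theorem abs_le_arc {u v s s' : ℝ} (hs : s ∈ Icc u v) (hs' : s' ∈ Icc u v) : |s - s'| ≤ v - u := by
  rw [abs_le]; constructor <;> linarith [hs.1, hs.2, hs'.1, hs'.2]

/-- A short arc that meets the strip of a big gadget is a monotone graph. -/
theorem arc_big (k : ℕ) {u v : ℝ} (huv : u ≤ v) (hπ : v - u ≤ π) (hη : 38 * (v - u) ≤ t k)
    {s0 : ℝ} (hs0 : s0 ∈ Icc u v) (hY0 : YY t s0 ∈ Icc (2 * t k) (3 * t k))
    (hd : dist (gam h u) (gam h v) ≤ w k) :
    dl (gam h) u v ≤ 6 * dist (gam h u) (gam h v) := by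
  have ht0 := tpos h k
  have hin : ∀ s ∈ Icc u v, YY t s ∈ Icc (3 / 2 * t k) (7 / 2 * t k) := fun s hs => by
    have h1 := abs_le.1 (YY_lip h s s0)
    have h2 := abs_le_arc hs hs0
    constructor <;> linarith [h1.1, h1.2, hY0.1, hY0.2]
  have hW : ∀ s ∈ Icc u v, ∀ s' ∈ Icc u v, |cos s - cos s'| ≤ 2 * |YY t s - YY t s'| :=
    fun s hs s' hs' => steep h k (hin s hs) (hin s' hs') (by
      linarith [abs_cos_sub_cos_le s s', abs_le_arc hs hs'])
  have hinj : InjOn (YY t) (Icc u v) := fun s hs s' hs' he => by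
    have h1 := hW s hs s' hs'
    have h2 := ang_le h ((abs_le_arc hs hs').trans hπ)
    rw [he, sub_self, abs_zero] at h1 h2
    have h3 : |s - s'| ≤ 0 := by linarith
    exact sub_eq_zero.1 (abs_nonpos_iff.1 h3)
  have hu : u ∈ Icc u v := left_mem_Icc.2 huv
  have hv : v ∈ Icc u v := right_mem_Icc.2 huv
  have ha : ∀ s ∈ Icc u v, aa t w m (YY t s) = aj (t k) (w k) (m k) (YY t s) := fun s hs =>
    aa_eq h k ⟨by linarith [(hin s hs).1], by linarith [(hin s hs).2]⟩
  have hY := YY_le h u v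
  have hA : |aa t w m (YY t u) - aa t w m (YY t v)| ≤ 3 * dist (gam h u) (gam h v) := by
    have h1 := abs_le.1 (re_le h u v)
    have h2 := abs_le.1 (hW u hu v hv)
    rw [abs_le]; constructor <;> linarith [h1.1, h1.2, h2.1, h2.2]
  have key : ∀ s ∈ Icc u v, ∀ s' ∈ Icc u v, |YY t s - YY t s'| ≤ dist (gam h u) (gam h v) ∧
      |aa t w m (YY t s) - aa t w m (YY t s')| ≤ |aa t w m (YY t u) - aa t w m (YY t v)| := by
    intro s hs s' hs'
    rw [ha s hs, ha s' hs', ha u hu, ha v hv]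
    have hY2 := abs_le.1 hY
    rcases (YY_cont h).continuousOn.strictMonoOn_of_injOn_Icc' huv hinj with hm | hm
    · have m1 : YY t s ∈ Icc (YY t u) (YY t v) :=
        ⟨hm.monotoneOn hu hs hs.1, hm.monotoneOn hs hv hs.2⟩
      have m2 : YY t s' ∈ Icc (YY t u) (YY t v) :=
        ⟨hm.monotoneOn hu hs' hs'.1, hm.monotoneOn hs' hv hs'.2⟩
      exact ⟨(abs_le_arc m1 m2).trans (by linarith [hY2.1]),
        aj_osc (h.wpos k) (by linarith [hY2.1]) m1 m2⟩
    · have m1 : YY t s ∈ Icc (YY t v) (YY t u) :=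
        ⟨hm.antitoneOn hs hv hs.2, hm.antitoneOn hu hs hs.1⟩
      have m2 : YY t s' ∈ Icc (YY t v) (YY t u) :=
        ⟨hm.antitoneOn hs' hv hs'.2, hm.antitoneOn hu hs' hs'.1⟩
      refine ⟨(abs_le_arc m1 m2).trans (by linarith [hY2.2]), ?_⟩
      rw [abs_sub_comm (aj (t k) (w k) (m k) (YY t u))]
      exact aj_osc (h.wpos k) (by linarith [hY2.2]) m1 m2
  refine dl_le (by positivity) fun s hs s' hs' => ?_
  have h1 := dist_le h s s'
  have h2 := hW s hs s' hs'
  obtain ⟨h3, h4⟩ := key s hs s' hs'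
  linarith

theorem arc_le {u v L : ℝ} (huv : u ≤ v) (hπ : v - u ≤ π) (hL : dist (gam h u) (gam h v) ≤ L)
    (hw : ∀ j, w j ≤ 10000 * dist (gam h u) (gam h v) → t j ≤ L) :
    dl (gam h) u v ≤ 40000 * L := by
  have hd0 : 0 ≤ dist (gam h u) (gam h v) := dist_nonneg
  have hL0 : 0 ≤ L := hd0.trans hL
  have hu : u ∈ Icc u v := left_mem_Icc.2 huv
  have hv : v ∈ Icc u v := right_mem_Icc.2 huv
  have hY := YY_le h u v
  have hη : v - u ≤ 40 * dist (gam h u) (gam h v) +
      38 * |aa t w m (YY t u) - aa t w m (YY t v)| := by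
    have h1 := ang_le h ((abs_le_arc hu hv).trans hπ)
    have h2 := abs_le.1 (re_le h u v)
    have h3 : |cos u - cos v| ≤ dist (gam h u) (gam h v) +
        |aa t w m (YY t u) - aa t w m (YY t v)| := by
      have := le_abs_self (aa t w m (YY t u) - aa t w m (YY t v))
      have := neg_le_abs (aa t w m (YY t u) - aa t w m (YY t v))
      rw [abs_le]; constructor <;> linarith [h2.1, h2.2]
    have h4 := neg_le_abs (u - v)
    linarith
  have hbig : ∀ k, L < t k → 10000 * dist (gam h u) (gam h v) < w k := fun k hk => by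
    by_contra hc
    exact absurd (hw k (not_lt.1 hc)) (not_le.2 hk)
  by_cases h1 : ∃ k, L < t k ∧ ∃ s0 ∈ ({u, v} : Set ℝ), YY t s0 ∈ Icc (2 * t k) (3 * t k)
  · obtain ⟨k, hk, s0, hs0, hY0⟩ := h1
    have ht0 := tpos h k
    have hw0 := h.wpos k
    have b1 := hbig k hk
    have b2 := wle h k
    have hY2 := abs_le.1 hY
    have hs0' : s0 ∈ Icc u v := by rcases hs0 with rfl | rfl; exacts [hu, hv]
    have iu : YY t u ∈ Icc (t k) (6 * t k) := by
      rcases hs0 with rfl | rfl <;> constructor <;> linarith [hY0.1, hY0.2, hY2.1, hY2.2]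
    have iv : YY t v ∈ Icc (t k) (6 * t k) := by
      rcases hs0 with rfl | rfl <;> constructor <;> linarith [hY0.1, hY0.2, hY2.1, hY2.2]
    have hA : |aa t w m (YY t u) - aa t w m (YY t v)| ≤ 4 * t k / 10000 := by
      rw [aa_eq h k iu, aa_eq h k iv]
      refine (aj_lip ht0.le hw0 _ _).trans ?_
      rw [div_mul_eq_mul_div, div_le_div_iff₀ hw0 (by norm_num)]
      nlinarith
    have := arc_big h k huv hπ (by linarith) hs0' hY0 (by linarith)
    linarith
  · push Not at h1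
    have au : aa t w m (YY t u) ≤ 4 * L := aa_le_of h hL0 fun k hk => by
      by_contra hc
      exact h1 k (not_le.1 hc) u (by simp) hk
    have av : aa t w m (YY t v) ≤ 4 * L := aa_le_of h hL0 fun k hk => by
      by_contra hc
      exact h1 k (not_le.1 hc) v (by simp) hk
    have hA : |aa t w m (YY t u) - aa t w m (YY t v)| ≤ 4 * L := by
      rw [abs_le]; constructor <;> linarith [aa_nonneg h (YY t u), aa_nonneg h (YY t v)]
    have hη2 : v - u ≤ 200 * L := by linarith
    by_cases h2 : ∃ k, 7600 * L < t k ∧ ∃ s0 ∈ Icc u v, YY t s0 ∈ Icc (2 * t k) (3 * t k)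
    · obtain ⟨k, hk, s0, hs0, hY0⟩ := h2
      have b1 := hbig k (by linarith)
      have := arc_big h k huv hπ (by linarith) hs0 hY0 (by linarith)
      linarith
    · push Not at h2
      have ha : ∀ s ∈ Icc u v, aa t w m (YY t s) ≤ 4 * (7600 * L) := fun s hs =>
        aa_le_of h (by positivity) fun k hk => by
          by_contra hc
          exact h2 k (not_le.1 hc) s hs hk
      refine dl_le (by positivity) fun s hs s' hs' => ?_
      have c1 := dist_le h s s'
      have c2 := abs_cos_sub_cos_le s s'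
      have c3 := YY_lip h s s'
      have c4 := abs_le_arc hs hs'
      have c5 : |aa t w m (YY t s) - aa t w m (YY t s')| ≤ 4 * (7600 * L) := by
        rw [abs_le]
        constructor <;> linarith [aa_nonneg h (YY t s), aa_nonneg h (YY t s'), ha s hs, ha s' hs']
      linarith

theorem low_mem {X : ℝ} (h1 : -1 / 2 ≤ X) (h2 : X ≤ 1 / 2) :
    (⟨X + aa t w m (bb t X), bb t X⟩ : ℂ) ∈ frontier (Th h '' ball 0 1) := by
  rw [frontier_eq]
  have h0 : 0 ≤ 1 - X ^ 2 := by nlinarith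
  have e : -√(1 - X ^ 2) + cc t X = bb t X := by rw [cc_mid t h1 h2]; ring
  refine ⟨⟨X, -√(1 - X ^ 2)⟩, ?_, ?_⟩
  · rw [mem_sphere_zero_iff_norm, Complex.norm_eq_sqrt_sq_add_sq]
    simp only [neg_sq, Real.sq_sqrt h0, add_sub_cancel, Real.sqrt_one]
  · apply Complex.ext
    · rw [Th_re]; simp only [e]
    · rw [Th_im]; simp only [e]

theorem mem_iff (z : ℂ) (hx : |z.re| ≤ 1 / 4) (hy : |z.im| ≤ 1 / 4) :
    z ∈ Th h '' ball 0 1 ↔ bb t (z.re - aa t w m z.im) < z.im := by
  obtain ⟨ζ, rfl⟩ := (Th h).surjective z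
  rw [(Th h).injective.mem_set_image, mem_ball_zero_iff]
  rw [Th_re, Th_im] at *
  rw [add_sub_cancel_right]
  have a1 := aa_nonneg h (ζ.im + cc t ζ.re)
  have a2 := aa_small h (ζ.im + cc t ζ.re)
  rw [abs_le] at hx hy
  have x1 : -3 / 10 ≤ ζ.re := by linarith [hx.1]
  have x2 : ζ.re ≤ 3 / 10 := by linarith [hx.2]
  have b1 := abs_le.1 (bb_near h ζ.re)
  have e := cc_mid t (X := ζ.re) (by linarith) (by linarith)
  have h0 : 0 ≤ 1 - ζ.re ^ 2 := by nlinarith
  have hp : 1 / 2 ≤ √(1 - ζ.re ^ 2) := Real.le_sqrt_of_sq_le (by nlinarith)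
  have hp2 := Real.sq_sqrt h0
  rw [e] at hy ⊢
  rw [Complex.norm_eq_sqrt_sq_add_sq, Real.sqrt_lt' one_pos]
  set p := √(1 - ζ.re ^ 2)
  have hup : ζ.im < p := by linarith [hy.2, b1.1]
  constructor
  · intro h1
    have : -p < ζ.im := by
      by_contra hc
      push Not at hc
      nlinarith
    linarith
  · intro h1
    have : -p < ζ.im := by linarith
    nlinarith

theorem gad : Gad t w m (aa t w m) (bb t) (Th h '' ball 0 1) where
  acont := aa_cont h
  bcont := bb_cont h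
  a0 := aa_nonneg h
  ale j y hy := aa_le_of h (tpos h j).le fun k hk =>
    tle_of h (by linarith [hk.1, tpos h k])
  azero j y hy := by
    rw [aa_eq h j ⟨by linarith [hy.1, tpos h j], hy.2⟩, aj_hi (h.wpos j) (h.teq j) hy.1]
  alow j i hi := by
    have h1 : (i : ℝ) + 1 ≤ 2 * m j := by exact_mod_cast hi
    have h2 : (0 : ℝ) ≤ i := Nat.cast_nonneg i
    have h3 := h.wpos j
    have h4 := h.teq j
    have h5 := tpos h j
    have z := zig_low i
    rw [Int.cast_natCast] at z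
    rw [aa_eq h j ⟨by nlinarith, by nlinarith⟩, aj_at h3 (by linarith) (by linarith), z, mul_zero]
  ahigh j i hi := by
    have h1 : (i : ℝ) + 1 ≤ 2 * m j := by exact_mod_cast hi
    have h2 : (0 : ℝ) ≤ i := Nat.cast_nonneg i
    have h3 := h.wpos j
    have h4 := h.teq j
    have h5 := tpos h j
    have z := zig_high i
    rw [Int.cast_natCast] at z
    rw [aa_eq h j ⟨by nlinarith, by nlinarith⟩, aj_at h3 (by linarith) (by linarith), z, mul_one]
  b1 j X hX := bb_1 h j hX
  b2 j X hX := bb_2 h j hX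
  b3 j X hX := bb_3 h j hX
  ble j X hX := by
    rcases bb_cases h X with h1 | ⟨k, h1, h2⟩
    · rw [h1]; exact le_max_left _ _
    · have := tle_of h (h1.1.trans hX)
      exact le_max_of_le_right (by linarith [h2.2])
  bneg X hX := (bb_of_nonpos h hX).le
  mem := mem_iff h
  fr0 := by
    have := low_mem h (X := 0) (by norm_num) (by norm_num)
    rw [bb_of_nonpos h le_rfl, aa_zero h fun k hk => by linarith [hk.1, tpos h k], add_zero] at this
    exact this
  fr j X hX := low_mem h (by linarith [hX.1, tpos h j]) (by linarith [hX.2, tsmall h j])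

theorem jordanDom : IsJordan (Th h '' ball 0 1) := by
  refine ⟨(Th h).isOpenMap _ isOpen_ball,
    ((convex_ball (0 : ℂ) 1).isConnected (nonempty_ball.2 one_pos)).image _
      (Th h).continuous.continuousOn,
    ((isCompact_closedBall (0 : ℂ) 1).image (Th h).continuous).isBounded.subset
      (image_mono ball_subset_closedBall),
    fun z => Th h z, (Th h).continuous.comp continuous_subtype_val,
    (Th h).injective.comp Subtype.val_injective, ?_⟩
  rw [frontier_eq]
  ext p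
  constructor
  · rintro ⟨z, hz, rfl⟩
    exact ⟨⟨z, hz⟩, rfl⟩
  · rintro ⟨z, rfl⟩
    exact ⟨z, z.2, rfl⟩

theorem compl_preconn : IsPreconnected (Th h '' ball 0 1)ᶜ := by
  rw [← image_compl_eq (Th h).bijective]
  exact preconn_compl_ball.image _ (Th h).continuous.continuousOn

theorem exists_angles {P Q : ℂ} (hP : P ∈ range (gam h)) (hQ : Q ∈ range (gam h)) (hne : P ≠ Q) :
    ∃ u v, u < v ∧ v - u ≤ π ∧ ((P = gam h u ∧ Q = gam h v) ∨ (P = gam h v ∧ Q = gam h u)) := by
  obtain ⟨u, rfl⟩ := hP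
  obtain ⟨v0, rfl⟩ := hQ
  have h2 : (0 : ℝ) < 2 * π := by positivity
  have hm := toIocMod_mem_Ioc h2 (u - π) v0
  have he : gam h (toIocMod h2 (u - π) v0) = gam h v0 := by
    have := per_int (gam_loop h).per (toIocDiv h2 (u - π) v0) (toIocMod h2 (u - π) v0)
    rw [← zsmul_eq_mul, toIocMod_add_toIocDiv_zsmul] at this
    exact this.symm
  set v := toIocMod h2 (u - π) v0
  rcases lt_trichotomy u v with h1 | h1 | h1
  · exact ⟨u, v, h1, by linarith [hm.2], Or.inl ⟨rfl, he.symm⟩⟩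
  · exact absurd (h1 ▸ he) hne
  · exact ⟨v, u, h1, by linarith [hm.1], Or.inr ⟨rfl, he.symm⟩⟩

end seq

end Dm

open Dm in
theorem exists_dom : ∃ κ : ℝ, 0 < κ ∧ ∀ (t w : ℕ → ℝ) (m : ℕ → ℕ), Seq t w m →
    ∃ (a b : ℝ → ℝ) (Ω : Set ℂ), Gad t w m a b Ω ∧ IsJordan Ω ∧ IsPreconnected Ωᶜ ∧
      ∃ M δ : ℝ, 0 < δ ∧ ∀ P ∈ frontier Ω, ∀ Q ∈ frontier Ω, P ≠ Q → dist P Q < δ →
        ∀ L : ℝ, dist P Q ≤ L → (∀ j, w j ≤ κ * dist P Q → t j ≤ L) →
          ∃ q ∈ frontier Ω \ {P, Q},
            diam (connectedComponentIn (frontier Ω \ {P, Q}) q) ≤ M * L := by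
  refine ⟨10000, by norm_num, fun t w m h => ⟨_, _, _, gad h, jordanDom h, compl_preconn h,
    40000, 1, one_pos, ?_⟩⟩
  rw [frontier_eq, ← range_gam]
  intro P hP Q hQ hne _ L hL hw
  obtain ⟨u, v, huv, hπ, hc⟩ := exists_angles h hP hQ hne
  obtain ⟨q, hq, hd⟩ := (gam_loop h).exists_diam_le huv (by linarith [pi_pos])
  rcases hc with ⟨rfl, rfl⟩ | ⟨rfl, rfl⟩
  · exact ⟨q, hq, hd.trans (arc_le h huv.le hπ hL hw)⟩
  · rw [dist_comm] at hL hw
    rw [pair_comm]
    exact ⟨q, hq, hd.trans (arc_le h huv.le hπ hL hw)⟩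

end Pool.Agent.P.MP_7f9008_an
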