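import Pool.Agent.P.MP_7f9008_an.Carath
import Pool.Agent.P.MP_7f9008_an.RMT

/-! The conformal map of the exterior of the disc onto the exterior of the Jordan domain. -/

open MeasureTheory Set Metric Filter Topology Real Complex
open scoped ENNReal

noncomputable section
namespace Pool.Agent.P.MP_7f9008_an

namespace Ext

theorem conf_comp {U V : Set ℂ} {P e : ℂ → ℂ} (h : Conf U P) (he : Conf V e) (hm : MapsTo e V U) :
    Conf V (P ∘ e) := by
  refine ⟨he.isOpen, h.hol.comp he.hol hm, h.inj.comp he.inj hm, fun z hz => ?_⟩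
  rw [deriv_comp z (h.hol.differentiableAt (h.isOpen.mem_nhds (hm hz)))
    (he.hol.differentiableAt (he.isOpen.mem_nhds hz))]
  exact mul_ne_zero (h.ne _ (hm hz)) (he.ne z hz)

theorem conf_conj {U V : Set ℂ} {Q : ℂ → ℂ} (h : Conf V Q) (hU : IsOpen U)
    (hm : MapsTo (starRingEnd ℂ) U V) : QC U (fun z => Q ((starRingEnd ℂ) z)) ∧
      DistLe U (fun z => Q ((starRingEnd ℂ) z)) fun _ => ENNReal.ofReal 1 := by
  have h1 : Hom U (starRingEnd ℂ) := ⟨hU, continuous_conj.continuousOn,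
    (starRingEnd ℂ).injective.injOn, fun O _ hO => conjCLE.toHomeomorph.isOpenMap O hO⟩
  refine ⟨QC.of_contDiffOn (h.hom.comp h1 hm) (h.contDiffOn.comp conjCLE.contDiff.contDiffOn hm),
    Eventually.of_forall fun z hz => ?_⟩
  have h2 : HasFDerivAt (fun z => Q ((starRingEnd ℂ) z))
      ((deriv Q ((starRingEnd ℂ) z) • (1 : ℂ →L[ℝ] ℂ)).comp (conjCLE : ℂ →L[ℝ] ℂ)) z :=
    (h.hasFDerivAt (hm hz)).comp z conjCLE.hasFDerivAt
  rw [h2.fderiv]
  generalize deriv Q ((starRingEnd ℂ) z) = c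
  have h3 : ‖(c • (1 : ℂ →L[ℝ] ℂ)).comp (conjCLE : ℂ →L[ℝ] ℂ)‖ ≤ ‖c‖ :=
    ContinuousLinearMap.opNorm_le_bound _ (norm_nonneg _) fun v => by simp
  have h4 : ((c • (1 : ℂ →L[ℝ] ℂ)).comp (conjCLE : ℂ →L[ℝ] ℂ)).det = -‖c‖ ^ 2 := by
    rw [det_eq, Complex.sq_norm, Complex.normSq_apply]; simp; ring
  rw [h4, abs_neg, abs_pow, abs_norm, ENNReal.ofReal_one, mul_one,
    ENNReal.ofReal_pow (norm_nonneg _), ← ofReal_norm]
  gcongr

theorem exp_mem (x : ℝ) : exp (x * I) ∈ sphere (0 : ℂ) 1 :=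
  mem_sphere_zero_iff_norm.2 (norm_exp_ofReal_mul_I x)

theorem loop {F : ℂ → ℂ} (hc : ContinuousOn F (sphere 0 1)) (hi : InjOn F (sphere 0 1)) :
    Loop fun x : ℝ => F (exp (x * I)) := by
  refine ⟨hc.comp_continuous (by fun_prop) exp_mem, fun x => ?_, fun x y e => ?_⟩
  · push_cast
    rw [add_mul, Complex.exp_add, Complex.exp_two_pi_mul_I, mul_one]
  · obtain ⟨k, hk⟩ := exp_mul_I_inj (hi (exp_mem x) (exp_mem y) e)
    exact ⟨k, by exact_mod_cast hk⟩

/-- The exterior of the domain after inversion in w, together with the origin. -/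
def inv (Ω : Set ℂ) (w : ℂ) : Set ℂ := {u | u = 0 ∨ w + u⁻¹ ∉ closure Ω}

variable {Ω : Set ℂ} {f : ℂ → ℂ} {K : ℝ}

theorem img_closed (h : Disc Ω f K) : f '' closedBall 0 1 = closure Ω := by
  rw [← ball_union_sphere, image_union, h.img, h.sph, closure_eq_self_union_frontier]

theorem zero_mem (h : Disc Ω f K) : f 0 ∈ Ω := h.img ▸ mem_image_of_mem f (mem_ball_self one_pos)

theorem ne_of_notMem (h : Disc Ω f K) {w : ℂ} (hw : w ∉ Ω) : w - f 0 ≠ 0 :=
  sub_ne_zero.2 fun e => hw (e ▸ zero_mem h)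

theorem inv_mem (h : Disc Ω f K) {w : ℂ} (hw : w ∉ closure Ω) : (w - f 0)⁻¹ ∈ inv Ω (f 0) :=
  Or.inr (by rwa [inv_inv, add_sub_cancel])

theorem near_zero (hΩ : IsJordan Ω) (w : ℂ) : ∀ᶠ u in 𝓝[≠] (0 : ℂ), w + u⁻¹ ∉ closure Ω :=
  ((tendsto_const_add_cobounded w).comp tendsto_inv₀_nhdsNE_zero).eventually hΩ.2.2.1.closure

theorem isOpen_inv (hΩ : IsJordan Ω) (w : ℂ) : IsOpen (inv Ω w) := by
  refine isOpen_iff_mem_nhds.2 fun u hu => ?_
  by_cases h0 : u = 0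
  · subst h0
    exact (eventually_nhdsWithin_iff.1 (near_zero hΩ w)).mono fun v hv => or_iff_not_imp_left.2 hv
  · exact ((continuousAt_const.add (continuousAt_inv₀ h0)).eventually
      (isClosed_closure.isOpen_compl.mem_nhds (hu.resolve_left h0))).mono fun v hv => Or.inr hv

theorem bounded_inv (hΩ : IsJordan Ω) (h : Disc Ω f K) : Bornology.IsBounded (inv Ω (f 0)) := by
  obtain ⟨r, hr, hb⟩ := Metric.isOpen_iff.1 hΩ.1 _ (zero_mem h)
  refine isBounded_iff_forall_norm_le.2 ⟨r⁻¹, fun u hu => ?_⟩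
  rcases eq_or_ne u 0 with rfl | h0
  · simpa using hr.le
  · by_contra h1
    refine hu.resolve_left h0 (subset_closure (hb ?_))
    rw [mem_ball, dist_self_add_left, norm_inv]
    exact inv_lt_of_inv_lt₀ hr (not_le.1 h1)

theorem cont_iota (h : Disc Ω f K) : ContinuousOn (fun w => (w - f 0)⁻¹) Ωᶜ :=
  (continuousOn_id.sub continuousOn_const).inv₀ fun _ hw => ne_of_notMem h hw

theorem preconn_inv (hΩ : IsJordan Ω) (h : Disc Ω f K) : IsPreconnected (inv Ω (f 0)) := by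
  have h1 := compl_disc_preconn h.cont h.inj
  rw [img_closed h] at h1
  have h2 : ∀ u, f 0 + u⁻¹ ∉ closure Ω → u ∈ (fun w => (w - f 0)⁻¹) '' (closure Ω)ᶜ :=
    fun u hu => ⟨_, hu, by simp⟩
  refine (h1.image _ ((cont_iota h).mono (compl_subset_compl.2 subset_closure))).subset_closure
    (image_subset_iff.2 fun w hw => inv_mem h hw) ?_
  rintro u (rfl | hu)
  · exact mem_closure_of_tendsto (f := id) (b := 𝓝[≠] (0 : ℂ)) nhdsWithin_le_nhds
      ((near_zero hΩ _).mono h2)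
  · exact subset_closure (h2 u hu)

theorem preconn_compl (h : Disc Ω f K) : IsPreconnected (inv Ω (f 0))ᶜ := by
  have h0 : (0 : ℂ) ∈ closedBall (0 : ℂ) 1 := mem_closedBall_self zero_le_one
  have sub : {z : ℂ | ‖z - 0‖ ∈ Ioc (0 : ℝ) 1} ⊆ closedBall 0 1 := fun z hz => by
    simpa using hz.2
  have ne : ∀ z ∈ {z : ℂ | ‖z - 0‖ ∈ Ioc (0 : ℝ) 1}, f z - f 0 ≠ 0 := fun z hz e => by
    have := h.inj (sub hz) h0 (sub_eq_zero.1 e)
    simp [this] at hz
  convert (isPreconnected_norm_mem 0 (convex_Ioc (0 : ℝ) 1)).image (fun z => (f z - f 0)⁻¹)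
    (((h.cont.mono sub).sub continuousOn_const).inv₀ ne) using 1
  ext u
  simp only [inv, mem_compl_iff, mem_ofPred_eq, not_or, not_not, ← img_closed h]
  constructor
  · rintro ⟨h1, z, hz, e⟩
    refine ⟨z, ⟨?_, by simpa using hz⟩, by simp [e]⟩
    rw [sub_zero, norm_pos_iff]
    rintro rfl
    exact h1 (by simpa using e)
  · rintro ⟨z, hz, rfl⟩
    exact ⟨inv_ne_zero (ne z hz), z, sub hz, by simp⟩

theorem frontier_inv (hΩ : IsJordan Ω) (h : Disc Ω f K) :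
    frontier (inv Ω (f 0)) = (fun w => (w - f 0)⁻¹) '' frontier Ω := by
  rw [(isOpen_inv hΩ _).frontier_eq]
  ext u
  constructor
  · rintro ⟨h1, h2⟩
    obtain ⟨h0, h3⟩ := not_or.1 h2
    refine ⟨f 0 + u⁻¹, ?_, by simp⟩
    rw [hΩ.1.frontier_eq]
    refine ⟨not_not.1 h3, fun h4 => ?_⟩
    obtain ⟨v, hv, hv'⟩ := mem_closure_iff_nhds.1 h1 _
      (((continuousAt_const.add (continuousAt_inv₀ h0)).eventually (hΩ.1.mem_nhds h4)).and
        (eventually_ne_nhds h0))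
    exact hv'.resolve_left hv.2 (subset_closure hv.1)
  · rintro ⟨w, hw, rfl⟩
    have h1 : w ∉ Ω := (hΩ.1.frontier_eq ▸ hw).2
    have h2 : w ∈ closure (closure Ω)ᶜ := by
      rw [← img_closed h]; exact sphere_subset_closure h.cont h.inj (h.sph ▸ hw)
    have h4 : (fun w => (w - f 0)⁻¹) '' (closure Ω)ᶜ ⊆ inv Ω (f 0) :=
      image_subset_iff.2 fun w hw => inv_mem h hw
    refine ⟨closure_mono h4
      (((cont_iota h w h1).mono (compl_subset_compl.2 subset_closure)).mem_closure_image h2), ?_⟩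
    rintro (h3 | h3)
    · exact ne_of_notMem h h1 (inv_eq_zero.1 h3)
    · rw [inv_inv, add_sub_cancel] at h3
      exact h3 (frontier_subset_closure hw)

theorem jordan_inv (hΩ : IsJordan Ω) (h : Disc Ω f K) : IsJordan (inv Ω (f 0)) := by
  obtain ⟨γ, h1, h2, h3⟩ := hΩ.2.2.2
  refine ⟨isOpen_inv hΩ _, ⟨⟨0, Or.inl rfl⟩, preconn_inv hΩ h⟩, bounded_inv hΩ h,
    fun c => (γ c - f 0)⁻¹, (cont_iota h).comp_continuous h1 fun c => ?_,
    fun a b e => h2 (sub_left_injective (inv_injective e)), ?_⟩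
  · exact (hΩ.1.frontier_eq ▸ (h3 ▸ mem_range_self c : γ c ∈ frontier Ω)).2
  · rw [frontier_inv hΩ h, h3, ← range_comp]; rfl

end Ext

open Ext in
theorem exterior {Ω : Set ℂ} (hΩ : IsJordan Ω) {f : ℂ → ℂ} {K : ℝ} (h : Disc Ω f K) :
    ∃ (g : ℂ → ℂ) (τ : ℝ → ℝ), ContinuousOn g (ball 0 1)ᶜ ∧ BijOn g (ball 0 1)ᶜ Ωᶜ ∧
      MapsTo g (closedBall 0 1)ᶜ (closure Ω)ᶜ ∧ Conf (closedBall 0 1)ᶜ g ∧
      (∀ R : ℝ, ∃ R' : ℝ, ∀ z, R' ≤ ‖z‖ → R ≤ ‖g z‖) ∧
      Side (frontier Ω) (fun z => g (exp ((starRingEnd ℂ) z * I))) 1 ∧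
      Continuous τ ∧ StrictMono τ ∧ (∀ x, τ (x + 2 * π) = τ x + 2 * π) ∧
      ∀ x : ℝ, f (exp (τ x * I)) = g (exp (x * I)) := by
  have hJ := jordan_inv hΩ h
  obtain ⟨g1, G, d1, d2, m1, m2, i1, i2, z1⟩ := rmt hJ.1 hJ.2.1.2 hJ.2.2.1 (preconn_compl h)
    (z₀ := 0) (Or.inl rfl)
  have c1 := Conf.of_inverse isOpen_ball hJ.1 d1 d2 m1 i1
  have b0 : (0 : ℂ) ∈ ball (0 : ℂ) 1 := mem_ball_self one_pos
  obtain ⟨g0, e0, D⟩ := carath hJ c1.qc (m1.image_subset.antisymm fun z hz => ⟨_, m2 hz, i2 z hz⟩)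
    zero_le_one c1.distLe ⟨0, b0, (c1.hasFDerivAt b0).differentiableAt, c1.det_pos b0⟩
  have z0 : g0 0 = 0 := (e0 b0).trans z1
  have a0 : ∀ z ∈ (ball (0 : ℂ) 1)ᶜ, z ≠ 0 := fun z hz e => hz (e ▸ b0)
  have a1 : MapsTo (fun z : ℂ => z⁻¹) (ball 0 1)ᶜ (closedBall 0 1) := fun z hz => by
    rw [mem_closedBall_zero_iff, norm_inv]
    exact inv_le_one_of_one_le₀ (not_lt.1 (mt mem_ball_zero_iff.2 hz))
  have a2 : MapsTo (fun z : ℂ => z⁻¹) (closedBall 0 1)ᶜ (ball 0 1) := fun z hz => by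
    rw [mem_ball_zero_iff, norm_inv]
    exact inv_lt_one_of_one_lt₀ (not_le.1 (mt mem_closedBall_zero_iff.2 hz))
  have a3 : ∀ z ∈ closedBall (0 : ℂ) 1, z ≠ 0 → g0 z ≠ 0 := fun z hz h0 e =>
    h0 (D.inj hz (ball_subset_closedBall b0) (e.trans z0.symm))
  have a4 : ∀ z ∈ (ball (0 : ℂ) 1)ᶜ, g0 z⁻¹ ≠ 0 := fun z hz => a3 _ (a1 hz) (inv_ne_zero (a0 z hz))
  have sub : (closedBall (0 : ℂ) 1)ᶜ ⊆ (ball 0 1)ᶜ := compl_subset_compl.2 ball_subset_closedBall
  have sub' : sphere (0 : ℂ) 1 ⊆ (ball 0 1)ᶜ := fun z hz hb =>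
    (mem_ball_zero_iff.1 hb).ne (mem_sphere_zero_iff_norm.1 hz)
  set g : ℂ → ℂ := fun z => f 0 + (g0 z⁻¹)⁻¹ with hg
  have gc : ContinuousOn g (ball 0 1)ᶜ :=
    continuousOn_const.add ((D.cont.comp (continuousOn_inv₀.mono a0) a1).inv₀ a4)
  have gi : InjOn g (ball 0 1)ᶜ := fun a ha b hb e =>
    inv_injective (D.inj (a1 ha) (a1 hb) (inv_injective (add_left_cancel e)))
  have gm : MapsTo g (closedBall 0 1)ᶜ (closure Ω)ᶜ := fun z hz =>
    (D.img ▸ mem_image_of_mem g0 (a2 hz) : g0 z⁻¹ ∈ Ext.inv Ω (f 0)).resolve_left (a4 z (sub hz))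
  have gs : MapsTo g (sphere 0 1) (frontier Ω) := fun z hz => by
    have h1 : g0 z⁻¹ ∈ frontier (Ext.inv Ω (f 0)) := D.sph ▸ mem_image_of_mem g0 (by
      rw [mem_sphere_zero_iff_norm] at hz ⊢
      rw [norm_inv, hz, inv_one])
    rw [frontier_inv hΩ h] at h1
    obtain ⟨w, hw, e⟩ := h1
    simpa [hg, ← e] using hw
  have gC : Conf (closedBall 0 1)ᶜ g := by
    refine Conf.of_inverse (G := fun w => (G (w - f 0)⁻¹)⁻¹) isClosed_closedBall.isOpen_compl
      isClosed_closure.isOpen_compl ((differentiableOn_const _).add (((d1.congr e0).comp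
        (differentiableOn_inv.mono fun z hz => a0 z (sub hz)) a2).inv fun z hz => a4 z (sub hz)))
      ((d2.comp ((differentiableOn_id.sub_const _).inv fun w hw =>
        ne_of_notMem h (notMem_of_notMem_closure hw)) fun w hw => inv_mem h hw).inv fun w hw e => ?_)
      gm fun u hu => ?_
    · have h1 := i2 _ (inv_mem h hw)
      rw [show G (w - f 0)⁻¹ = 0 from e, z1] at h1
      exact ne_of_notMem h (notMem_of_notMem_closure hw) (inv_eq_zero.1 h1.symm)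
    · simp only [hg, add_sub_cancel_left, inv_inv]
      rw [e0 (a2 hu), i1 _ (a2 hu), inv_inv]
  obtain ⟨τ, hτ⟩ := exists_lift (loop (h.cont.mono sphere_subset_closedBall)
    (h.inj.mono sphere_subset_closedBall)) (loop (gc.mono sub') (gi.mono sub'))
    (fun x => by
      obtain ⟨ζ, h1, h2⟩ := h.sph ▸ gs (exp_mem x)
      refine ⟨arg ζ, Eq.trans ?_ h2⟩
      have := norm_mul_exp_arg_mul_I ζ
      rw [mem_sphere_zero_iff_norm.1 h1, ofReal_one, one_mul] at this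
      simp only [this]) h.idx
    (by simpa only [hg, z0, sub_zero, add_sub_cancel_left, ofReal_neg, neg_mul, Complex.exp_neg]
      using D.idx.inv_neg)
  have ne : ∀ z : ℂ, ‖exp ((starRingEnd ℂ) z * I)‖ = Real.exp z.im := fun z => by
    rw [Complex.norm_exp]; simp
  have up : ∀ z : ℂ, 0 < z.im → exp ((starRingEnd ℂ) z * I) ∈ (closedBall (0 : ℂ) 1)ᶜ :=
    fun z hz => by
      rw [mem_compl_iff, mem_closedBall_zero_iff, ne, not_le]
      exact Real.one_lt_exp_iff.2 hz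
  have qq : ∀ x : ℝ, QC (strip x) (fun z => g (exp ((starRingEnd ℂ) z * I))) ∧
      DistLe (strip x) (fun z => g (exp ((starRingEnd ℂ) z * I))) fun _ => ENNReal.ofReal 1 := by
    intro x
    refine conf_conj (V := Ioo (x - 3) (x + 3) ×ℂ Iio 0) (conf_comp gC (conf_exp
      (isOpen_Ioo.reProdIm isOpen_Iio) fun z hz w hw => ?_) fun z hz => ?_)
      (isOpen_Ioo.reProdIm isOpen_Ioi) fun z hz => ⟨hz.1, ?_⟩
    · rw [abs_lt]
      constructor <;> linarith [hz.1.1, hz.1.2, hw.1.1, hw.1.2, pi_gt_three]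
    · simpa using up ((starRingEnd ℂ) z) (by simpa using hz.2)
    · simpa using hz.2
  refine ⟨g, τ, gc, ⟨fun z hz => ?_, gi, fun w hw => ?_⟩, gm, gC, fun R => ?_,
    ⟨h.side.cpt, zero_le_one, gc.comp (by fun_prop) fun z hz => ?_, fun z => ?_, fun x => ?_,
      fun z hz e => gm (up z hz) (frontier_subset_closure e), fun x => (qq x).1,
      fun x => (qq x).2⟩, hτ⟩
  · by_cases h1 : z ∈ closedBall (0 : ℂ) 1
    · rw [← ball_union_sphere] at h1
      exact (hΩ.1.frontier_eq ▸ gs (h1.resolve_left hz)).2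
    · exact notMem_of_notMem_closure (gm h1)
  · have h1 : (w - f 0)⁻¹ ∈ g0 '' closedBall 0 1 := by
      rw [img_closed D]
      by_cases h2 : w ∈ closure Ω
      · exact frontier_subset_closure (frontier_inv hΩ h ▸ mem_image_of_mem _
          (hΩ.1.frontier_eq ▸ ⟨h2, hw⟩))
      · exact subset_closure (inv_mem h h2)
    obtain ⟨u, hu, e⟩ := h1
    have h0 : u ≠ 0 := by
      rintro rfl
      exact ne_of_notMem h hw (inv_eq_zero.1 (e.symm.trans z0))
    refine ⟨u⁻¹, ?_, by simp [hg, e]⟩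
    rw [mem_compl_iff, mem_ball_zero_iff, norm_inv, not_lt]
    exact one_le_inv₀ (norm_pos_iff.2 h0) |>.2 (mem_closedBall_zero_iff.1 hu)
  · have nb : closedBall (0 : ℂ) 1 ∈ 𝓝 (0 : ℂ) := closedBall_mem_nhds _ one_pos
    have t1 : Tendsto g0 (𝓝[≠] 0) (𝓝[≠] 0) := tendsto_nhdsWithin_iff.2
      ⟨(z0 ▸ (D.cont.continuousAt nb).tendsto).mono_left nhdsWithin_le_nhds, by
        filter_upwards [mem_nhdsWithin_of_mem_nhds nb, self_mem_nhdsWithin] with z h1 h2
          using a3 z h1 h2⟩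
    have t2 := (tendsto_norm_cobounded_atTop (E := ℂ)).comp ((tendsto_const_add_cobounded (f 0)).comp
      (tendsto_inv₀_nhdsNE_zero.comp (t1.comp tendsto_inv₀_cobounded')))
    obtain ⟨R', -, h1⟩ := hasBasis_cobounded_norm.eventually_iff.1 (t2.eventually_ge_atTop R)
    exact ⟨R', fun z hz => h1 hz⟩
  · rw [mem_compl_iff, mem_ball_zero_iff, ne, not_lt]
    exact Real.one_le_exp hz
  · have : (starRingEnd ℂ) (z + 2 * π) * I = (starRingEnd ℂ) z * I + 2 * π * I := by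
      rw [map_add, map_mul, conj_ofReal, map_ofNat, add_mul]
    simp only [this, Complex.exp_add, Complex.exp_two_pi_mul_I, mul_one]
  · exact gs (by rw [mem_sphere_zero_iff_norm, ne]; simp)

end Pool.Agent.P.MP_7f9008_an
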