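import Pool.Agent.P.MP_7f9008_an.QC

/-! Length-area estimates for families of segments, rectangles and half squares. -/

open MeasureTheory Set Metric Filter Topology Real Complex
open scoped ENNReal

noncomputable section
namespace Pool.Agent.P.MP_7f9008_an

variable {U : Set ℂ} {P : ℂ → ℂ}

theorem Hom.exists_meas (h : Hom U P) : ∃ P' : ℂ → ℂ, Measurable P' ∧ ∀ z ∈ U, P' z = P z := by
  classical
  exact ⟨_, h.cont.measurable_piecewise (g := fun _ => 0) continuousOn_const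
    h.isOpen.measurableSet, fun z hz => by simp [hz]⟩

theorem QC.vert (h : QC U P) {K : ℝ} (hK : DistLe U P fun _ => ENNReal.ofReal K)
    {x₁ x₂ y₁ y₂ m : ℝ} (hm : 0 ≤ m) {σ : ℂ → ℝ≥0∞} (mσ : Measurable σ)
    (H : ∀ x ∈ Ioo x₁ x₂, ∃ y y', y₁ ≤ y ∧ y ≤ y' ∧ y' ≤ y₂ ∧
      ContinuousOn (fun t => P ⟨x, t⟩) (Icc y y') ∧ (∀ t ∈ Ioo y y', (⟨x, t⟩ : ℂ) ∈ U) ∧
      ∃ W ρ, UG univ W ρ ∧ (∀ w, ρ w ^ 2 ≤ σ w) ∧ m ≤ |W (P ⟨x, y'⟩) - W (P ⟨x, y⟩)|) :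
    ENNReal.ofReal (m ^ 2) * ENNReal.ofReal (x₂ - x₁) ≤ ENNReal.ofReal (y₂ - y₁) *
      ENNReal.ofReal K * ∫⁻ z in U ∩ Ioo x₁ x₂ ×ℂ Ioo y₁ y₂,
        ENNReal.ofReal |(fderiv ℝ P z).det| * σ (P z) := by
  obtain ⟨P', mP', eP'⟩ := h.exists_meas
  set E := U ∩ Ioo x₁ x₂ ×ℂ Ioo y₁ y₂
  have mE : MeasurableSet E := h.isOpen.measurableSet.inter (isOpen_rect _ _ _ _).measurableSet
  set G : ℂ → ℝ≥0∞ := fun z => ‖fderiv ℝ P z‖ₑ
  set F : ℂ → ℝ≥0∞ := fun z => σ (P' z) * G z ^ 2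
  have mF : Measurable F := (mσ.comp mP').mul ((measurable_fderiv ℝ P).enorm.pow_const 2)
  choose! lo hi h1 h2 h3 h4 h5 h6 using H
  have k1 : ENNReal.ofReal (m ^ 2) * ENNReal.ofReal (x₂ - x₁) ≤
      ∫⁻ x in Ioo x₁ x₂, ENNReal.ofReal (y₂ - y₁) * ∫⁻ t in Ioo (lo x) (hi x), F ⟨x, t⟩ := by
    refine mul_le_lintegral (h.goodV.mono fun x gx hx => ?_)
    obtain ⟨W, ρ, hW, hρ, hmW⟩ := h6 x hx
    have e1 := hW _ _ _ _ (h2 x hx) (gx _ _ (h4 x hx) (h5 x hx)) (mapsTo_univ _ _)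
    have e2 := lintegral_cs (μ := volume.restrict (Ioo (lo x) (hi x)))
      (F := fun t => ρ (P ⟨x, t⟩) * G ⟨x, t⟩) (A := fun _ => 1) (B := fun t => F ⟨x, t⟩)
      aemeasurable_const (mF.comp (continuous_v x).measurable).aemeasurable
      ((ae_restrict_iff' measurableSet_Ioo).2 (Eventually.of_forall fun t ht => by
        simp only [F, eP' _ (h5 x hx t ht), one_mul, mul_pow]; gcongr; exact hρ _))
    rw [setLIntegral_const, one_mul, Real.volume_Ioo] at e2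
    calc ENNReal.ofReal (m ^ 2) = ENNReal.ofReal m ^ 2 := ENNReal.ofReal_pow hm 2
      _ ≤ _ := by gcongr; exact (ENNReal.ofReal_le_ofReal hmW).trans e1
      _ ≤ _ := e2
      _ ≤ _ := by gcongr <;> simp [h1 x hx, h3 x hx]
  refine k1.trans ?_
  rw [lintegral_const_mul' _ _ ENNReal.ofReal_ne_top, mul_assoc]
  gcongr
  refine (lintegral_lines_le mp_v mF mE fun s hs t ht =>
    ⟨h5 s hs t ht, hs, (h1 s hs).trans_lt ht.1, ht.2.trans_le (h3 s hs)⟩).trans ?_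
  rw [← lintegral_const_mul' _ _ ENNReal.ofReal_ne_top]
  refine lintegral_mono_ae ?_
  filter_upwards [ae_restrict_of_ae hK, ae_restrict_mem mE] with z hz hzE
  simp only [F, eP' z hzE.1]
  calc _ ≤ σ (P z) * (ENNReal.ofReal |(fderiv ℝ P z).det| * ENNReal.ofReal K) := by
        gcongr; exact hz hzE.1
    _ = _ := by ring

theorem QC.vert_annulus (h : QC U P) {K : ℝ} (hK0 : 0 ≤ K)
    (hK : DistLe U P fun _ => ENNReal.ofReal K) {x₁ x₂ y₁ y₂ r : ℝ} (hy : y₁ ≤ y₂)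
    (hr : 0 < r) {w : ℂ} {N : ℕ}
    (H : ∀ x ∈ Ioo x₁ x₂, ∃ y y', y₁ ≤ y ∧ y ≤ y' ∧ y' ≤ y₂ ∧
      ContinuousOn (fun t => P ⟨x, t⟩) (Icc y y') ∧ (∀ t ∈ Ioo y y', (⟨x, t⟩ : ℂ) ∈ U) ∧
      (dist (P ⟨x, y⟩) w ≤ r ∧ 2 ^ N * r ≤ dist (P ⟨x, y'⟩) w ∨
        dist (P ⟨x, y'⟩) w ≤ r ∧ 2 ^ N * r ≤ dist (P ⟨x, y⟩) w)) :
    N * (x₂ - x₁) ≤ 13 * K * (y₂ - y₁) := by
  obtain ⟨W, ρ, hP, h0, h1⟩ := exists_annulus w hr N
  have e := h.vert hK (x₁ := x₁) (x₂ := x₂) (y₁ := y₁) (y₂ := y₂) (m := N) (by positivity)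
    (hP.meas.pow_const 2) fun x hx => by
      obtain ⟨y, y', a1, a2, a3, a4, a5, a6⟩ := H x hx
      refine ⟨y, y', a1, a2, a3, a4, a5, W, ρ, hP.ug, fun _ => le_rfl, ?_⟩
      rcases a6 with a | a <;> simp [h0 _ a.1, h1 _ a.2]
  have e2 := (h.area (h.isOpen.measurableSet.inter (isOpen_rect x₁ x₂ y₁ y₂).measurableSet)
    inter_subset_left fun w => ρ w ^ 2).trans ((setLIntegral_le_lintegral _ _).trans hP.en)
  have e3 := e.trans (mul_le_mul_right e2 _)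
  have hy' : 0 ≤ y₂ - y₁ := sub_nonneg.2 hy
  rw [← ENNReal.ofReal_mul (by positivity), ← ENNReal.ofReal_mul hy',
    ← ENNReal.ofReal_mul (by positivity), ENNReal.ofReal_le_ofReal_iff (by positivity)] at e3
  rcases Nat.eq_zero_or_pos N with rfl | hN
  · simp only [Nat.cast_zero, zero_mul]; positivity
  have hN' : (0 : ℝ) < N := by exact_mod_cast hN
  refine le_of_mul_le_mul_left ?_ hN'
  nlinarith

theorem mp_add (a : ℝ) : MeasurePreserving (fun p : ℝ × ℝ => (a + p.1, p.2)) :=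
  (measurePreserving_add_left volume a).prod (MeasurePreserving.id volume)

theorem mp_sub (a : ℝ) : MeasurePreserving (fun p : ℝ × ℝ => (a - p.1, p.2)) :=
  (Measure.measurePreserving_sub_left volume a).prod (MeasurePreserving.id volume)

theorem ae_add {p : ℝ → Prop} (h : ∀ᵐ x, p x) (a : ℝ) : ∀ᵐ s, p (a + s) :=
  (measurePreserving_add_left volume a).quasiMeasurePreserving.ae h

theorem ae_sub {p : ℝ → Prop} (h : ∀ᵐ x, p x) (a : ℝ) : ∀ᵐ s, p (a - s) :=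
  (Measure.measurePreserving_sub_left volume a).quasiMeasurePreserving.ae h

theorem lineInt {Ψ : ℝ × ℝ → ℂ} (mp : MeasurePreserving Ψ) {H : ℂ → ℝ≥0∞} (hH : Measurable H)
    {E : Set ℂ} (hE : MeasurableSet E) : ∃ I : ℝ → ℝ≥0∞, Measurable I ∧
      (∀ S, ∫⁻ s in S, I s ≤ ∫⁻ z in E, H z) ∧ ∀ s lo hi, ∀ H' : ℂ → ℝ≥0∞, (∀ z ∈ E, H' z = H z) →
        (∀ t ∈ Ioo lo hi, Ψ (s, t) ∈ E) → ∫⁻ t in Ioo lo hi, H' (Ψ (s, t)) ≤ I s := by
  refine ⟨fun s => ∫⁻ t, E.indicator H (Ψ (s, t)),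
    ((hH.indicator hE).comp mp.measurable).lintegral_prod_right', fun S => ?_,
    fun s lo hi H' e hs => ?_⟩
  · rw [← lintegral_indicator hE, ← lintegral_mp mp (hH.indicator hE)]
    exact setLIntegral_le_lintegral _ _
  · refine le_trans (le_of_eq ?_) (setLIntegral_le_lintegral (Ioo lo hi) _)
    exact setLIntegral_congr_fun measurableSet_Ioo fun t ht => by
      simp only [indicator_of_mem (hs t ht), e _ (hs t ht)]

theorem QC.ring (h : QC U P) {K : ℝ} (hK0 : 0 ≤ K) (hK : DistLe U P fun _ => ENNReal.ofReal K)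
    {a a' b b' l r : ℝ} (hl : 0 < l) (hr : 0 < r)
    (hU : Icc (a - l) (a' + l) ×ℂ Icc (b - l) (b' + l) ⊆ U) {w z₁ z₂ : ℂ} {N : ℕ}
    (h₁ : z₁ ∈ Icc a a' ×ℂ Icc b b') (h₂ : z₂ ∈ Icc a a' ×ℂ Icc b b') (d₁ : dist (P z₁) w ≤ r)
    (d₂ : 2 ^ N * r ≤ dist (P z₂) w)
    (hn : ¬ closedBall w r ⊆ P '' (Icc (a - l) (a' + l) ×ℂ Icc (b - l) (b' + l))) :
    N * l ^ 2 ≤ 832 * K * ((a' - a + 2 * l) * (b' - b + 2 * l)) := by
  obtain ⟨W, ρ, hP, h0, h1⟩ := exists_annulus w hr N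
  obtain ⟨P', mP', eP'⟩ := h.exists_meas
  have haa : a ≤ a' := h₁.1.1.trans h₁.1.2
  have hbb : b ≤ b' := h₁.2.1.trans h₁.2.2
  set E := Ioo (a - l) (a' + l) ×ℂ Ioo (b - l) (b' + l)
  have mE : MeasurableSet E := (isOpen_rect _ _ _ _).measurableSet
  have hEU : E ⊆ U := (rect_subset _ _ _ _).trans hU
  set G : ℂ → ℝ≥0∞ := fun z => ‖fderiv ℝ P z‖ₑ
  set F : ℂ → ℝ≥0∞ := fun z => ρ (P' z) * G z
  set F' : ℂ → ℝ≥0∞ := fun z => ρ (P z) * G z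
  have mF : Measurable F := (hP.meas.comp mP').mul (measurable_fderiv ℝ P).enorm
  have eF : ∀ z ∈ E, F' z = F z := fun z hz => by simp only [F, F', eP' z (hEU hz)]
  obtain ⟨I₁, m₁, i₁, j₁⟩ := lineInt (mp_v.comp (mp_sub a)) mF mE
  obtain ⟨I₂, m₂, i₂, j₂⟩ := lineInt (mp_v.comp (mp_add a')) mF mE
  obtain ⟨I₃, m₃, i₃, j₃⟩ := lineInt (mp_h.comp (mp_sub b)) mF mE
  obtain ⟨I₄, m₄, i₄, j₄⟩ := lineInt (mp_h.comp (mp_add b')) mF mE
  have k1 : ENNReal.ofReal N * ENNReal.ofReal (l - 0) ≤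
      ∫⁻ s in Ioo 0 l, 2 * (I₁ s + I₂ s + I₃ s + I₄ s) := by
    refine mul_le_lintegral ?_
    filter_upwards [ae_sub h.goodV a, ae_add h.goodV a', ae_sub h.goodH b, ae_add h.goodH b']
      with s g₁ g₂ g₃ g₄ hs
    set R := Icc (a - s) (a' + s) ×ℂ Icc (b - s) (b' + s)
    have hRE : R ⊆ E := fun z hz => ⟨⟨by linarith [hz.1.1, hs.2], by linarith [hz.1.2, hs.2]⟩,
      ⟨by linarith [hz.2.1, hs.2], by linarith [hz.2.2, hs.2]⟩⟩
    have hin : ∀ z ∈ Icc a a' ×ℂ Icc b b', z ∈ Ioo (a - s) (a' + s) ×ℂ Ioo (b - s) (b' + s) :=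
      fun z hz => ⟨⟨by linarith [hz.1.1, hs.1], by linarith [hz.1.2, hs.1]⟩,
        ⟨by linarith [hz.2.1, hs.1], by linarith [hz.2.2, hs.1]⟩⟩
    have xl : a - s ∈ Icc (a - s) (a' + s) := ⟨le_rfl, by linarith [hs.1]⟩
    have xr : a' + s ∈ Icc (a - s) (a' + s) := ⟨by linarith [hs.1], le_rfl⟩
    have yl : b - s ∈ Icc (b - s) (b' + s) := ⟨le_rfl, by linarith [hs.1]⟩
    have yr : b' + s ∈ Icc (b - s) (b' + s) := ⟨by linarith [hs.1], le_rfl⟩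
    have sv : ∀ x ∈ Icc (a - s) (a' + s), GoodV U P G x → ∀ y ∈ Icc (b - s) (b' + s),
        edist (W (P ⟨x, y⟩)) (W (P ⟨x, b - s⟩)) ≤ ∫⁻ t in Ioo (b - s) (b' + s), F' ⟨x, t⟩ := by
      intro x hx g y hy
      rw [edist_dist, Real.dist_eq]
      exact hP.ug.le (g.ac h.cont fun y hy => hEU (hRE ⟨hx, hy⟩)) (mapsTo_univ _ _) yl hy
    have sh : ∀ y ∈ Icc (b - s) (b' + s), GoodH U P G y → ∀ x ∈ Icc (a - s) (a' + s),
        edist (W (P ⟨x, y⟩)) (W (P ⟨a - s, y⟩)) ≤ ∫⁻ t in Ioo (a - s) (a' + s), F' ⟨t, y⟩ := by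
      intro y hy g x hx
      rw [edist_dist, Real.dist_eq]
      exact hP.ug.le (g.ac h.cont fun x hx => hEU (hRE ⟨hx, hy⟩)) (mapsTo_univ _ _) xl hx
    have s₁ := fun y hy => (sv _ xl g₁ y hy).trans
      (j₁ s _ _ F' eF fun t ht => hRE ⟨xl, Ioo_subset_Icc_self ht⟩)
    have s₂ := fun y hy => (sv _ xr g₂ y hy).trans
      (j₂ s _ _ F' eF fun t ht => hRE ⟨xr, Ioo_subset_Icc_self ht⟩)
    have s₃ := fun x hx => (sh _ yl g₃ x hx).trans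
      (j₃ s _ _ F' eF fun t ht => hRE ⟨Ioo_subset_Icc_self ht, yl⟩)
    have s₄ := fun x hx => (sh _ yr g₄ x hx).trans
      (j₄ s _ _ F' eF fun t ht => hRE ⟨Ioo_subset_Icc_self ht, yr⟩)
    have bd : ∀ p ∈ R, p ∉ Ioo (a - s) (a' + s) ×ℂ Ioo (b - s) (b' + s) →
        edist (W (P p)) (W (P ⟨a - s, b - s⟩)) ≤ I₁ s + I₂ s + I₃ s + I₄ s := by
      rintro ⟨x, y⟩ hp hn
      rcases rect_sides hp hn with e | e | e | e <;> simp only at e <;> subst e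
      · exact (s₁ y hp.2).trans (by rw [add_assoc, add_assoc]; exact le_self_add)
      · refine (edist_triangle _ _ _).trans ((add_le_add (s₂ y hp.2) (s₃ _ xr)).trans ?_)
        exact le_trans (by rw [add_assoc]; exact le_add_self) le_self_add
      · exact (s₃ x hp.1).trans (le_add_self.trans le_self_add)
      · refine (edist_triangle _ _ _).trans ((add_le_add (s₄ x hp.1) (s₁ _ yr)).trans ?_)
        rw [add_comm, add_assoc (I₁ s)]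
        exact add_le_add le_self_add le_rfl
    obtain ⟨p, hp, hpO, hpC⟩ := h.exit (isCompact_rect _ _ _ _) (hRE.trans hEU)
      (isOpen_rect _ _ _ _) (rect_subset _ _ _ _) (convex_closedBall w r).isPreconnected
      (hin _ h₁) d₁ fun hc => hn (hc.trans (image_mono (hRE.trans (rect_subset _ _ _ _))))
    obtain ⟨q, hq, hqO, hqC⟩ := h.exit (isCompact_rect _ _ _ _) (hRE.trans hEU)
      (isOpen_rect _ _ _ _) (rect_subset _ _ _ _) (isPreconnected_compl_ball w (2 ^ N * r))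
      (hin _ h₂) (by simpa using d₂) (not_compl_subset isBounded_ball
        ((isCompact_rect _ _ _ _).image_of_continuousOn (h.cont.mono (hRE.trans hEU))).isBounded)
    have e : ENNReal.ofReal N = edist (W (P p)) (W (P q)) := by
      rw [h0 _ hpC, h1 _ (by simpa using hqC), edist_dist]; simp
    rw [e, two_mul]
    exact (edist_triangle_right _ _ _).trans (add_le_add (bd p hp hpO) (bd q hq hqO))
  have k2 : ∫⁻ s in Ioo 0 l, 2 * (I₁ s + I₂ s + I₃ s + I₄ s) ≤ 8 * ∫⁻ z in E, F' z := by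
    rw [lintegral_const_mul' _ _ (by simp), lintegral_add_right _ m₄, lintegral_add_right _ m₃,
      lintegral_add_right _ m₂, setLIntegral_congr_fun mE eF]
    calc _ ≤ 2 * ((∫⁻ z in E, F z) + (∫⁻ z in E, F z) + (∫⁻ z in E, F z) + ∫⁻ z in E, F z) := by
          gcongr
          exacts [i₁ _, i₂ _, i₃ _, i₄ _]
      _ = _ := by ring
  have k3 := h.energy hK mE hEU aemeasurable_const hP.meas
  have vE : volume E = ENNReal.ofReal ((a' - a + 2 * l) * (b' - b + 2 * l)) := by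
    rw [← volume_preserving_equiv_real_prod.symm.measure_preimage mE.nullMeasurableSet,
      show measurableEquivRealProd.symm ⁻¹' E = Ioo (a - l) (a' + l) ×ˢ Ioo (b - l) (b' + l) from
        rfl, Measure.volume_eq_prod, Measure.prod_prod, Real.volume_Ioo, Real.volume_Ioo,
      ← ENNReal.ofReal_mul (by linarith)]
    congr 1; ring
  rw [setLIntegral_const, vE] at k3
  have hA : 0 ≤ (a' - a + 2 * l) * (b' - b + 2 * l) := mul_nonneg (by linarith) (by linarith)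
  have k4 : ENNReal.ofReal ((N * l) ^ 2) ≤
      ENNReal.ofReal (64 * (13 * N * (K * ((a' - a + 2 * l) * (b' - b + 2 * l))))) := by
    rw [ENNReal.ofReal_pow (by positivity), ENNReal.ofReal_mul (by positivity),
      ENNReal.ofReal_mul (by positivity), ENNReal.ofReal_mul (by positivity),
      ENNReal.ofReal_mul hK0]
    calc _ ≤ (8 * ∫⁻ z in E, F' z) ^ 2 := by
          rw [sub_zero] at k1
          exact pow_le_pow_left' (k1.trans k2) 2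
      _ = ENNReal.ofReal 64 * (∫⁻ z in E, F' z) ^ 2 := by rw [mul_pow]; norm_num
      _ ≤ _ := by
          gcongr
          exact k3.trans (mul_le_mul_left ((setLIntegral_le_lintegral _ _).trans hP.en) _)
  rw [ENNReal.ofReal_le_ofReal_iff (by positivity)] at k4
  rcases Nat.eq_zero_or_pos N with rfl | hN
  · simp only [Nat.cast_zero, zero_mul]; positivity
  have hN' : (0 : ℝ) < N := by exact_mod_cast hN
  refine le_of_mul_le_mul_left ?_ hN'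
  nlinarith

/-- The dyadic half-square annulus. -/
def capA (x ρ : ℝ) : Set ℂ :=
  (Ioo (x - 2 * ρ) (x + 2 * ρ) ×ℂ Ioo 0 (2 * ρ)) \ (Icc (x - ρ) (x + ρ) ×ℂ Icc 0 ρ)

theorem measurableSet_capA (x ρ : ℝ) : MeasurableSet (capA x ρ) :=
  (isOpen_rect _ _ _ _).measurableSet.diff (isCompact_rect _ _ _ _).measurableSet

theorem QC.cap (h : QC U P) {x ρ : ℝ} (hρ : 0 < ρ) (hU : capA x ρ ⊆ U)
    (hc : ContinuousOn P (Icc (x - 2 * ρ) (x + 2 * ρ) ×ℂ Icc 0 (2 * ρ))) {σ : ℂ → ℝ≥0∞}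
    (mσ : Measurable σ) {m : ℝ≥0∞}
    (hm : 3 * ∫⁻ z in capA x ρ, σ (P z) * ‖fderiv ℝ P z‖ₑ < m * ENNReal.ofReal ρ) :
    ∃ r ∈ Ioo ρ (2 * ρ),
      AC (fun t => P ⟨x - r, t⟩) (fun t => ‖fderiv ℝ P ⟨x - r, t⟩‖ₑ) 0 r ∧
      AC (fun t => P ⟨x + r, t⟩) (fun t => ‖fderiv ℝ P ⟨x + r, t⟩‖ₑ) 0 r ∧
      AC (fun t => P ⟨t, r⟩) (fun t => ‖fderiv ℝ P ⟨t, r⟩‖ₑ) (x - r) (x + r) ∧
      (∫⁻ t in Ioo 0 r, σ (P ⟨x - r, t⟩) * ‖fderiv ℝ P ⟨x - r, t⟩‖ₑ) +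
        (∫⁻ t in Ioo 0 r, σ (P ⟨x + r, t⟩) * ‖fderiv ℝ P ⟨x + r, t⟩‖ₑ) +
        (∫⁻ t in Ioo (x - r) (x + r), σ (P ⟨t, r⟩) * ‖fderiv ℝ P ⟨t, r⟩‖ₑ) < m := by
  obtain ⟨P', mP', eP'⟩ := h.exists_meas
  have mE := measurableSet_capA x ρ
  set F : ℂ → ℝ≥0∞ := fun z => σ (P' z) * ‖fderiv ℝ P z‖ₑ
  set F' : ℂ → ℝ≥0∞ := fun z => σ (P z) * ‖fderiv ℝ P z‖ₑ
  have mF : Measurable F := (mσ.comp mP').mul (measurable_fderiv ℝ P).enorm
  have eF : ∀ z ∈ capA x ρ, F' z = F z := fun z hz => by simp only [F, F', eP' z (hU hz)]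
  obtain ⟨I₁, m₁, i₁, j₁⟩ := lineInt (mp_v.comp (mp_sub x)) mF mE
  obtain ⟨I₂, m₂, i₂, j₂⟩ := lineInt (mp_v.comp (mp_add x)) mF mE
  obtain ⟨I₃, m₃, i₃, j₃⟩ := lineInt mp_h mF mE
  obtain ⟨r, hr, ⟨g₁, g₂, g₃⟩, hI⟩ := exists_good (I := fun s => I₁ s + I₂ s + I₃ s) (c := ρ)
    (d := 2 * ρ) (m := m) ((ae_sub h.goodV x).and ((ae_add h.goodV x).and h.goodH)) (by
      rw [lintegral_add_right _ m₃, lintegral_add_right _ m₂, show 2 * ρ - ρ = ρ by ring]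
      refine lt_of_le_of_lt ?_ hm
      rw [setLIntegral_congr_fun mE eF]
      calc _ ≤ (∫⁻ z in capA x ρ, F z) + (∫⁻ z in capA x ρ, F z) + ∫⁻ z in capA x ρ, F z := by
            gcongr
            exacts [i₁ _, i₂ _, i₃ _]
        _ = _ := by ring)
  have a₁ : ∀ t ∈ Ioo 0 r, (⟨x - r, t⟩ : ℂ) ∈ capA x ρ := fun t ht =>
    ⟨⟨⟨by linarith [hr.2], by linarith [hr.1]⟩, ht.1, by linarith [ht.2, hr.2]⟩,
      fun hh => by linarith [hh.1.1, hr.1]⟩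
  have a₂ : ∀ t ∈ Ioo 0 r, (⟨x + r, t⟩ : ℂ) ∈ capA x ρ := fun t ht =>
    ⟨⟨⟨by linarith [hr.1], by linarith [hr.2]⟩, ht.1, by linarith [ht.2, hr.2]⟩,
      fun hh => by linarith [hh.1.2, hr.1]⟩
  have a₃ : ∀ t ∈ Ioo (x - r) (x + r), (⟨t, r⟩ : ℂ) ∈ capA x ρ := fun t ht =>
    ⟨⟨⟨by linarith [ht.1, hr.2], by linarith [ht.2, hr.2]⟩, by linarith [hr.1], hr.2⟩,
      fun hh => by linarith [hh.2.2, hr.1]⟩
  refine ⟨r, hr, g₁ _ _ (hc.comp (continuous_v _).continuousOn fun t ht =>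
      ⟨⟨by linarith [hr.2], by linarith [hr.1]⟩, ht.1, by linarith [ht.2, hr.2]⟩)
      fun t ht => hU (a₁ t ht),
    g₂ _ _ (hc.comp (continuous_v _).continuousOn fun t ht =>
      ⟨⟨by linarith [hr.1], by linarith [hr.2]⟩, ht.1, by linarith [ht.2, hr.2]⟩)
      fun t ht => hU (a₂ t ht),
    g₃ _ _ (hc.comp (continuous_h _).continuousOn fun t ht =>
      ⟨⟨by linarith [ht.1, hr.2], by linarith [ht.2, hr.2]⟩, by linarith [hr.1], hr.2.le⟩)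
      fun t ht => hU (a₃ t ht), lt_of_le_of_lt ?_ hI⟩
  exact add_le_add (add_le_add (j₁ r _ _ F' eF a₁) (j₂ r _ _ F' eF a₂)) (j₃ r _ _ F' eF a₃)

end Pool.Agent.P.MP_7f9008_an
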