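import Pool.Agent.P.MP_7f9008_an.Defs

/-! Admissibility for a general integrability gauge `𝒜`. -/

open MeasureTheory Set Metric

namespace Pool.Agent.P.MP_7f9008_an

/-- Property `(E)` with `exp (l * 𝒜 (K))` locally integrable for some `l > 0`. -/
def PropSome (𝒜 : ℝ → ℝ) (Ω : Set ℂ) : Prop :=
  ∀ f, IsQC f (ball 0 1) Ω → ∃ F : ℂ ≃ₜ ℂ, EqOn F f (ball 0 1) ∧
    ∃ D, FinDist univ F D ∧ ∃ l : ℝ, 0 < l ∧ LocallyIntegrable fun x => Real.exp (l * 𝒜 (Kf D x))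

/-- Property `(E)` with `exp (l * 𝒜 (K))` locally integrable for every `l > 0`. -/
def PropAll (𝒜 : ℝ → ℝ) (Ω : Set ℂ) : Prop :=
  ∀ f, IsQC f (ball 0 1) Ω → ∃ F : ℂ ≃ₜ ℂ, EqOn F f (ball 0 1) ∧
    ∃ D, FinDist univ F D ∧ ∀ l : ℝ, 0 < l → LocallyIntegrable fun x => Real.exp (l * 𝒜 (Kf D x))

/-- Admissible moduli for the gauge `𝒜`, some exponent. -/
def AdmSome (𝒜 φ : ℝ → ℝ) : Prop := ∀ Ω, IsJordan Ω → ThreePt φ Ω → PropSome 𝒜 Ω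

/-- Admissible moduli for the gauge `𝒜`, every exponent. -/
def AdmAll (𝒜 φ : ℝ → ℝ) : Prop := ∀ Ω, IsJordan Ω → ThreePt φ Ω → PropAll 𝒜 Ω

end Pool.Agent.P.MP_7f9008_an
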