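import Pool.Agent.P.MP_7f9008_an.TopoA

/-! Planar topology through continuous logarithms (Eilenberg, Janiszewski). -/

open Set Metric Filter Topology Real

noncomputable section
namespace Pool.Agent.P.MP_7f9008_an

theorem hasLog_of_star {S : Set ℂ} (hS : StarConvex ℝ 0 S) {N : ℂ → ℂ} (hN : ContinuousOn N S)
    (h0 : ∀ z ∈ S, N z ≠ 0) : HasLog S N := by
  classical
  rcases S.eq_empty_or_nonempty with rfl | hne
  · exact ⟨fun _ => 0, continuousOn_empty _, by simp⟩
  have z0 : (0 : ℂ) ∈ S := hS.mem hne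
  have hm : ∀ p : unitInterval × S, (p.1 : ℝ) • (p.2 : ℂ) ∈ S := fun p =>
    hS.smul_mem p.2.2 p.1.2.1 p.1.2.2
  obtain ⟨L, L1, L2, -⟩ := exists_log_homotopy (A := S)
    (H := fun p : unitInterval × S => N ((p.1 : ℝ) • (p.2 : ℂ)))
    (hN.comp_continuous (by fun_prop) hm) (fun p => h0 _ (hm p))
    (f := fun _ => Complex.log (N 0)) continuous_const
    (fun a => by simp [Complex.exp_log (h0 0 z0)])
  refine ⟨fun z => if hz : z ∈ S then L (1, ⟨z, hz⟩) else 0, ?_, fun z hz => ?_⟩
  · rw [continuousOn_iff_continuous_domRestrict]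
    have : Continuous fun z : S => L (1, z) := by fun_prop
    exact this.congr fun z => by simp [z.2]
  · simp [hz, L2]

theorem not_hasLog_sphere (a : ℂ) {r : ℝ} (hr : 0 < r) :
    ¬ HasLog (sphere a r) (fun z => z - a) := by
  rintro ⟨l, h1, h2⟩
  have hm : ∀ x : ℝ, a + r * Complex.exp (x * Complex.I) ∈ sphere a r := fun x => by
    simp [Complex.norm_exp_ofReal_mul_I, hr.le]
  have hr' : (r : ℂ) ≠ 0 := by exact_mod_cast hr.ne'
  have := log_sub_const (s := univ) isPreconnected_univ
    (w := fun x : ℝ => l (a + r * Complex.exp (x * Complex.I)))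
    (w' := fun x : ℝ => Complex.log r + x * Complex.I)
    (h1.comp_continuous (by fun_prop) hm).continuousOn (by fun_prop)
    (fun x _ => by rw [h2 _ (hm x), Complex.exp_add, Complex.exp_log hr']; ring)
    (mem_univ (2 * π)) (mem_univ 0)
  simp only [Complex.ofReal_mul, Complex.ofReal_ofNat, Complex.exp_two_pi_mul_I,
    Complex.ofReal_zero, zero_mul, Complex.exp_zero] at this
  exact Complex.two_pi_I_ne_zero (by linear_combination -this)

theorem hasLog_of_preconn {K C : Set ℂ} (hK : IsCompact K) (hC : IsPreconnected C)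
    (hd : Disjoint C K) {a b : ℂ} (ha : a ∈ C) (hb : b ∈ C) :
    HasLog K (fun z => (z - a) / (z - b)) := by
  have hne : ∀ x ∈ C, ∀ z ∈ K, z - x ≠ 0 := fun x hx z hz h =>
    disjoint_left.1 hd hx (sub_eq_zero.1 h ▸ hz)
  refine hC.induction₂' (fun a b => HasLog K (fun z => (z - a) / (z - b))) ?_ ?_ ha hb
  · intro x hx
    obtain ⟨δ, hδ, hb⟩ := Metric.isOpen_iff.1 hK.isClosed.isOpen_compl x (disjoint_left.1 hd hx)
    filter_upwards [self_mem_nhdsWithin, mem_nhdsWithin_of_mem_nhds (ball_mem_nhds x hδ)]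
      with y hy hyx
    have key : HasLog K (fun z => (z - y) / (z - x)) := by
      refine hasLog_of_near_one (ContinuousOn.div (by fun_prop) (by fun_prop) (hne x hx)) ?_
      intro z hz
      have e : (z - y) / (z - x) - 1 = (x - y) / (z - x) := by
        field_simp [hne x hx z hz]; ring
      rw [e, norm_div, div_lt_one (norm_pos_iff.2 (hne x hx z hz))]
      have h1 : ¬ z ∈ ball x δ := fun h => hb h hz
      rw [mem_ball, dist_eq_norm, not_lt] at h1
      rw [mem_ball, dist_comm, dist_eq_norm] at hyx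
      linarith
    exact ⟨key.inv.congr fun z _ => inv_div _ _, key⟩
  · intro x y w _ hy _ h1 h2
    refine (h1.mul h2).congr fun z hz => ?_
    field_simp [hne y hy z hz]

theorem isPreconnected_norm_mem (c : ℂ) {T : Set ℝ} (hT : Convex ℝ T) :
    IsPreconnected {z : ℂ | ‖z - c‖ ∈ T} := by
  have h1 : IsPreconnected ((T ∩ Ici 0) ×ˢ (univ : Set ℝ)) :=
    (hT.inter (convex_Ici 0)).isPreconnected.prod isPreconnected_univ
  have h2 := h1.image (fun p : ℝ × ℝ => c + p.1 * Complex.exp (p.2 * Complex.I)) (by fun_prop)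
  convert h2 using 1
  ext z
  constructor
  · intro hz
    refine ⟨(‖z - c‖, Complex.arg (z - c)), ⟨⟨hz, norm_nonneg _⟩, mem_univ _⟩, ?_⟩
    simp only [Complex.norm_mul_exp_arg_mul_I]
    ring
  · rintro ⟨p, ⟨⟨h3, h4⟩, -⟩, rfl⟩
    have h4' : 0 ≤ p.1 := h4
    simpa [Complex.norm_exp_ofReal_mul_I, abs_of_nonneg h4'] using h3

theorem isPreconnected_compl_closedBall (c : ℂ) (r : ℝ) : IsPreconnected (closedBall c r)ᶜ := by
  convert isPreconnected_norm_mem c (convex_Ioi r) using 1
  ext z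
  simp [dist_eq_norm]

theorem isPreconnected_compl_ball (c : ℂ) (r : ℝ) : IsPreconnected (ball c r)ᶜ := by
  convert isPreconnected_norm_mem c (convex_Ici r) using 1
  ext z
  simp [dist_eq_norm]

theorem mem_component_of_bounded {K : Set ℂ} (hK : IsCompact K) {a b : ℂ} (ha : a ∉ K)
    (hb : b ∉ K) (h : HasLog K (fun z => (z - a) / (z - b)))
    (hbd : Bornology.IsBounded (connectedComponentIn Kᶜ a)) :
    b ∈ connectedComponentIn Kᶜ a := by
  classical
  by_contra hne
  set V := connectedComponentIn Kᶜ a with hV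
  have hVo : IsOpen V := hK.isClosed.isOpen_compl.connectedComponentIn
  have haV : a ∈ V := mem_connectedComponentIn ha
  obtain ⟨l, l1, l2⟩ := h
  obtain ⟨g, hg⟩ := ContinuousMap.exists_restrict_eq hK.isClosed
    (⟨K.domRestrict l, continuousOn_iff_continuous_domRestrict.1 l1⟩ : C(K, ℂ))
  have hg' : ∀ z ∈ K, g z = l z := fun z hz => congrArg (fun F : C(K, ℂ) => F ⟨z, hz⟩) hg
  have hfr : ∀ z ∈ frontier V, z ∈ K := by
    intro z hz
    by_contra hzK
    rw [hVo.frontier_eq] at hz
    have ho : IsOpen (connectedComponentIn Kᶜ z) := hK.isClosed.isOpen_compl.connectedComponentIn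
    obtain ⟨w, hw1, hw2⟩ := mem_closure_iff.1 hz.1 _ ho (mem_connectedComponentIn hzK)
    apply hz.2
    rw [hV, connectedComponentIn_eq hw2, ← connectedComponentIn_eq hw1]
    exact mem_connectedComponentIn hzK
  have hN : Continuous fun z => if z ∈ V then Complex.exp (g z) * (z - b) else z - a := by
    refine Continuous.if (fun z hz => ?_) (by fun_prop) (by fun_prop)
    have hzK := hfr z hz
    have : z - b ≠ 0 := fun h => hb (sub_eq_zero.1 h ▸ hzK)
    rw [hg' z hzK, l2 z hzK]
    field_simp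
  have hL := hasLog_of_star (starConvex_univ (0 : ℂ)) hN.continuousOn (fun z _ => by
    split_ifs with hz
    · exact mul_ne_zero (Complex.exp_ne_zero _) fun h => hne (sub_eq_zero.1 h ▸ hz)
    · exact fun h => hz (sub_eq_zero.1 h ▸ haV))
  obtain ⟨r, hr0, hr⟩ := hbd.subset_ball_lt 0 a
  refine not_hasLog_sphere a hr0 ((hL.mono (subset_univ _)).congr fun z hz => ?_)
  have : z ∉ V := fun h => by
    have h1 := hr h
    rw [mem_ball] at h1
    rw [mem_sphere] at hz
    linarith
  simp [this]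

theorem mem_component_of_hasLog {K : Set ℂ} (hK : IsCompact K) {a b : ℂ} (ha : a ∉ K)
    (hb : b ∉ K) (h : HasLog K (fun z => (z - a) / (z - b))) :
    b ∈ connectedComponentIn Kᶜ a := by
  by_cases h1 : Bornology.IsBounded (connectedComponentIn Kᶜ a)
  · exact mem_component_of_bounded hK ha hb h h1
  by_cases h2 : Bornology.IsBounded (connectedComponentIn Kᶜ b)
  · have := mem_component_of_bounded hK hb ha (h.inv.congr fun z _ => inv_div _ _) h2
    rw [← connectedComponentIn_eq this]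
    exact mem_connectedComponentIn hb
  obtain ⟨R, hR⟩ := hK.isBounded.subset_closedBall 0
  have key : ∀ x, ¬ Bornology.IsBounded (connectedComponentIn Kᶜ x) →
      (closedBall (0 : ℂ) R)ᶜ ⊆ connectedComponentIn Kᶜ x := by
    intro x hx
    obtain ⟨w, hw1, hw2⟩ := not_subset.1 fun h => hx (isBounded_closedBall.subset
      (show connectedComponentIn Kᶜ x ⊆ closedBall (0 : ℂ) R from h))
    rw [connectedComponentIn_eq hw1]
    exact (isPreconnected_compl_closedBall 0 R).subset_connectedComponentIn hw2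
      (compl_subset_compl.2 hR)
  obtain ⟨w, -, hw2⟩ := not_subset.1 fun h => h1 (isBounded_closedBall.subset
      (show connectedComponentIn Kᶜ a ⊆ closedBall (0 : ℂ) R from h))
  rw [connectedComponentIn_eq (key a h1 hw2), ← connectedComponentIn_eq (key b h2 hw2)]
  exact mem_connectedComponentIn hb

theorem HasLog.union {A B : Set ℂ} (hA : IsClosed A) (hB : IsClosed B)
    (hAB : IsPreconnected (A ∩ B)) {N : ℂ → ℂ} (h₁ : HasLog A N) (h₂ : HasLog B N) :
    HasLog (A ∪ B) N := by
  classical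
  obtain ⟨l, l1, l2⟩ := h₁
  obtain ⟨m, m1, m2⟩ := h₂
  obtain ⟨c, hc1, hc2⟩ : ∃ c : ℂ, Complex.exp c = 1 ∧ ∀ z ∈ A ∩ B, l z = m z + c := by
    rcases (A ∩ B).eq_empty_or_nonempty with he | ⟨w, hw⟩
    · exact ⟨0, Complex.exp_zero, by simp [he]⟩
    refine ⟨l w - m w, ?_, fun z hz => ?_⟩
    · rw [Complex.exp_sub, l2 w hw.1, ← m2 w hw.2, div_self (Complex.exp_ne_zero _)]
    · have := log_sub_const hAB (l1.mono inter_subset_left) (m1.mono inter_subset_right)
        (fun t ht => by rw [l2 t ht.1, m2 t ht.2]) hz hw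
      linear_combination this
  refine ⟨fun z => if z ∈ A then l z else m z + c, ContinuousOn.union_of_isClosed ?_ ?_ hA hB,
    fun z hz => ?_⟩
  · exact l1.congr fun z hz => by simp [hz]
  · refine (m1.add (continuousOn_const (c := c))).congr fun z hz => ?_
    by_cases h : z ∈ A
    · simp [h, hc2 z ⟨h, hz⟩]
    · simp [h]
  · by_cases h : z ∈ A
    · simp [h, l2 z h]
    · simp [h, Complex.exp_add, hc1, m2 z (hz.resolve_left h)]

theorem janiszewski {A B C₁ C₂ : Set ℂ} (hA : IsCompact A) (hB : IsCompact B)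
    (hAB : IsPreconnected (A ∩ B)) (h₁ : IsPreconnected C₁) (h₂ : IsPreconnected C₂)
    (d₁ : Disjoint C₁ A) (d₂ : Disjoint C₂ B) {a b : ℂ} (ha₁ : a ∈ C₁) (hb₁ : b ∈ C₁)
    (ha₂ : a ∈ C₂) (hb₂ : b ∈ C₂) :
    ∃ C, IsPreconnected C ∧ Disjoint C (A ∪ B) ∧ a ∈ C ∧ b ∈ C := by
  have ha : a ∉ A ∪ B := fun h => h.elim (disjoint_left.1 d₁ ha₁) (disjoint_left.1 d₂ ha₂)
  have hb : b ∉ A ∪ B := fun h => h.elim (disjoint_left.1 d₁ hb₁) (disjoint_left.1 d₂ hb₂)
  refine ⟨connectedComponentIn (A ∪ B)ᶜ a, isPreconnected_connectedComponentIn,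
    disjoint_left.2 fun z hz => connectedComponentIn_subset _ _ hz, mem_connectedComponentIn ha,
    mem_component_of_hasLog (hA.union hB) ha hb ?_⟩
  exact HasLog.union hA.isClosed hB.isClosed hAB (hasLog_of_preconn hA h₁ d₁ ha₁ hb₁)
    (hasLog_of_preconn hB h₂ d₂ ha₂ hb₂)

theorem compl_disc_preconn {f : ℂ → ℂ} (hf : ContinuousOn f (closedBall 0 1))
    (hi : InjOn f (closedBall 0 1)) : IsPreconnected (f '' closedBall 0 1)ᶜ := by
  have hD : IsCompact (closedBall (0 : ℂ) 1) := isCompact_closedBall _ _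
  have key : ∀ a ∈ (f '' closedBall 0 1)ᶜ, HasLog (f '' closedBall 0 1) (fun z => z - a) := by
    intro a ha
    refine hasLog_image hD hf hi subset_rfl (hasLog_of_star
      ((convex_closedBall _ _).starConvex (mem_closedBall_self zero_le_one))
      (hf.sub continuousOn_const) fun z hz h => ha ⟨z, hz, sub_eq_zero.1 h⟩)
  refine isPreconnected_of_forall_pair fun a ha b hb => ⟨connectedComponentIn _ a,
    connectedComponentIn_subset _ _, mem_connectedComponentIn ha, ?_,
    isPreconnected_connectedComponentIn⟩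
  exact mem_component_of_hasLog (hD.image_of_continuousOn hf) ha hb ((key a ha).div (key b hb))

theorem sphere_subset_closure {f : ℂ → ℂ} (hf : ContinuousOn f (closedBall 0 1))
    (hi : InjOn f (closedBall 0 1)) : f '' sphere 0 1 ⊆ closure (f '' closedBall 0 1)ᶜ := by
  have hD : IsCompact (closedBall (0 : ℂ) 1) := isCompact_closedBall _ _
  rintro _ ⟨ζ, hζ, rfl⟩
  by_contra hn
  rw [closure_compl, mem_compl_iff, not_not, mem_interior_iff_mem_nhds] at hn
  obtain ⟨ε, hε, hb⟩ := Metric.mem_nhds_iff.1 hn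
  have hζ1 : ‖ζ‖ = 1 := by simpa using hζ
  have hS : StarConvex ℝ (0 : ℂ) (closedBall 0 1 \ {ζ}) := by
    rw [starConvex_zero_iff]
    rintro z ⟨hz1, hz2⟩ t t0 t1
    have hz : ‖z‖ ≤ 1 := by simpa using hz1
    have hn : ‖t • z‖ = t * ‖z‖ := by rw [norm_smul, Real.norm_of_nonneg t0]
    refine ⟨?_, fun h => hz2 ?_⟩
    · rw [mem_closedBall_zero_iff, hn]
      nlinarith [norm_nonneg z]
    · rw [mem_singleton_iff] at h ⊢
      rw [h, hζ1] at hn
      have : t = 1 := by nlinarith [norm_nonneg z]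
      rw [← h, this, one_smul]
  have hL : HasLog (f '' (closedBall 0 1 \ {ζ})) (fun z => z - f ζ) :=
    hasLog_image hD hf hi sdiff_subset (hasLog_of_star hS
      ((hf.mono sdiff_subset).sub continuousOn_const)
      fun z hz h => hz.2 (hi hz.1 (sphere_subset_closedBall hζ) (sub_eq_zero.1 h)))
  refine not_hasLog_sphere (f ζ) (half_pos hε) (hL.mono fun w hw => ?_)
  obtain ⟨z, hz, rfl⟩ := hb (sphere_subset_ball (half_lt_self hε) hw)
  refine ⟨z, ⟨hz, fun h => ?_⟩, rfl⟩
  rw [mem_singleton_iff.1 h, mem_sphere, dist_self] at hw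
  linarith

end Pool.Agent.P.MP_7f9008_an
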