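import Pool.Agent.P.MP_7f9008_an.ACL
import Pool.Agent.P.MP_7f9008_an.Topo

/-! The Gehring-Lehto theorem. -/

open MeasureTheory Set Metric Filter Topology Real Pool.Agent.Lib.Sob Complex
open scoped ENNReal

noncomputable section
namespace Pool.Agent.P.MP_7f9008_an

/-- `P` is continuous, injective and open on the open set `U`. -/
structure Hom (U : Set ℂ) (P : ℂ → ℂ) : Prop where
  isOpen : IsOpen U
  cont : ContinuousOn P U
  inj : InjOn P U
  opn : ∀ O ⊆ U, IsOpen O → IsOpen (P '' O)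

variable {U : Set ℂ} {P : ℂ → ℂ} {D : ℂ → ℂ →L[ℝ] ℂ}

theorem Hom.exit (h : Hom U P) {R O C : Set ℂ} (hR : IsCompact R) (hRU : R ⊆ U) (hO : IsOpen O)
    (hOR : O ⊆ R) (hC : IsPreconnected C) {z : ℂ} (hz : z ∈ O) (hzC : P z ∈ C)
    (hn : ¬ C ⊆ P '' R) : ∃ p ∈ R, p ∉ O ∧ P p ∈ C := by
  by_contra hc
  push Not at hc
  have h1 : IsOpen (P '' O) := h.opn O (hOR.trans hRU) hO
  have h2 : IsOpen (P '' R)ᶜ := (hR.image_of_continuousOn (h.cont.mono hRU)).isClosed.isOpen_compl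
  refine hn ((hC.subset_left_of_subset_union h1 h2
    (disjoint_compl_right_iff_subset.2 (image_mono hOR)) (fun w hw => ?_)
    ⟨P z, hzC, mem_image_of_mem _ hz⟩).trans (image_mono hOR))
  by_cases hw' : w ∈ P '' R
  · obtain ⟨p, hp, rfl⟩ := hw'
    by_cases hpO : p ∈ O
    · exact Or.inl (mem_image_of_mem _ hpO)
    · exact absurd hw (hc p hp hpO)
  · exact Or.inr hw'

theorem not_compl_subset {B S : Set ℂ} (hB : Bornology.IsBounded B) (hS : Bornology.IsBounded S) :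
    ¬ Bᶜ ⊆ S := fun h => NormedSpace.unbounded_univ ℝ ℂ
  ((hB.union hS).subset fun z _ => by
    by_cases hz : z ∈ B
    · exact Or.inl hz
    · exact Or.inr (h hz))

theorem isCompact_rect (a a' b b' : ℝ) : IsCompact (Icc a a' ×ℂ Icc b b') :=
  isCompact_Icc.reProdIm isCompact_Icc

theorem isOpen_rect (a a' b b' : ℝ) : IsOpen (Ioo a a' ×ℂ Ioo b b') :=
  isOpen_Ioo.reProdIm isOpen_Ioo

theorem rect_subset (a a' b b' : ℝ) : Ioo a a' ×ℂ Ioo b b' ⊆ Icc a a' ×ℂ Icc b b' :=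
  fun _ hz => ⟨Ioo_subset_Icc_self hz.1, Ioo_subset_Icc_self hz.2⟩

theorem rect_sides {a a' b b' : ℝ} {p : ℂ} (hp : p ∈ Icc a a' ×ℂ Icc b b')
    (hn : p ∉ Ioo a a' ×ℂ Ioo b b') : p.re = a ∨ p.re = a' ∨ p.im = b ∨ p.im = b' := by
  by_contra hc
  push Not at hc
  exact hn ⟨⟨lt_of_le_of_ne hp.1.1 hc.1.symm, lt_of_le_of_ne hp.1.2 hc.2.1⟩,
    ⟨lt_of_le_of_ne hp.2.1 hc.2.2.1.symm, lt_of_le_of_ne hp.2.2 hc.2.2.2⟩⟩

theorem mul_le_lintegral {I : ℝ → ℝ≥0∞} {c d : ℝ} {m : ℝ≥0∞}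
    (h : ∀ᵐ x : ℝ, x ∈ Ioo c d → m ≤ I x) :
    m * ENNReal.ofReal (d - c) ≤ ∫⁻ x in Ioo c d, I x := by
  rw [← Real.volume_Ioo, ← setLIntegral_const]
  exact lintegral_mono_ae ((ae_restrict_iff' measurableSet_Ioo).2 h)

theorem exists_good {I : ℝ → ℝ≥0∞} {c d : ℝ} {m : ℝ≥0∞} {p : ℝ → Prop} (hp : ∀ᵐ x : ℝ, p x)
    (h : ∫⁻ x in Ioo c d, I x < m * ENNReal.ofReal (d - c)) : ∃ x ∈ Ioo c d, p x ∧ I x < m := by
  by_contra hn
  push Not at hn
  exact absurd (mul_le_lintegral (hp.mono fun x hx hx' => hn x hx' hx)) (not_le.2 h)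

theorem lintegral_lines_le {Ψ : ℝ × ℝ → ℂ} (mp : MeasurePreserving Ψ) {H : ℂ → ℝ≥0∞}
    (hH : Measurable H) {E : Set ℂ} (hE : MeasurableSet E) {c d : ℝ} {lo hi : ℝ → ℝ}
    (h : ∀ s ∈ Ioo c d, ∀ t ∈ Ioo (lo s) (hi s), Ψ (s, t) ∈ E) :
    ∫⁻ s in Ioo c d, ∫⁻ t in Ioo (lo s) (hi s), H (Ψ (s, t)) ≤ ∫⁻ z in E, H z := by
  rw [← lintegral_indicator hE, ← lintegral_mp mp (hH.indicator hE)]
  refine le_trans (setLIntegral_mono' measurableSet_Ioo fun s hs => ?_)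
    (setLIntegral_le_lintegral _ _)
  refine le_trans (le_of_eq ?_) (setLIntegral_le_lintegral (Ioo (lo s) (hi s)) _)
  exact setLIntegral_congr_fun measurableSet_Ioo fun t ht => by
    simp only [indicator_of_mem (h s hs t ht)]

theorem continuous_v (x : ℝ) : Continuous fun y : ℝ => (⟨x, y⟩ : ℂ) :=
  equivRealProdCLM.symm.continuous.comp (Continuous.prodMk_right x)

theorem continuous_h (y : ℝ) : Continuous fun x : ℝ => (⟨x, y⟩ : ℂ) :=
  equivRealProdCLM.symm.continuous.comp (Continuous.prodMk_left y)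

theorem GoodV.ac {G : ℂ → ℝ≥0∞} {x a b : ℝ} (h : GoodV U P G x) (hc : ContinuousOn P U)
    (hs : ∀ y ∈ Icc a b, (⟨x, y⟩ : ℂ) ∈ U) : AC (fun y => P ⟨x, y⟩) (fun y => G ⟨x, y⟩) a b :=
  h a b (hc.comp (continuous_v x).continuousOn hs) fun y hy => hs y (Ioo_subset_Icc_self hy)

theorem GoodH.ac {G : ℂ → ℝ≥0∞} {y a b : ℝ} (h : GoodH U P G y) (hc : ContinuousOn P U)
    (hs : ∀ x ∈ Icc a b, (⟨x, y⟩ : ℂ) ∈ U) : AC (fun x => P ⟨x, y⟩) (fun x => G ⟨x, y⟩) a b :=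
  h a b (hc.comp (continuous_h y).continuousOn hs) fun x hx => hs x (Ioo_subset_Icc_self hx)

theorem norm_le_of_abs {z : ℂ} {r : ℝ} (h1 : |z.re| ≤ r) (h2 : |z.im| ≤ r) : ‖z‖ ≤ 2 * r :=
  (norm_le_abs_re_add_abs_im z).trans (by linarith)

/-- The key estimate: small energy of `P - A` on a square gives a small oscillation. -/
theorem Hom.osc (h : Hom U P) (ha : Appr U P D) (hD : Measurable D) (A : ℂ →L[ℝ] ℂ) {z₀ : ℂ}
    {r κ θ : ℝ} (hr : 0 < r) (hκ : 0 < κ) (hθ : 0 < θ) (hθ1 : θ ≤ 1)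
    (hB : closedBall z₀ (4 * r) ⊆ U)
    (hI : ∫⁻ z in closedBall z₀ (4 * r), ‖D z - A‖ₑ < ENNReal.ofReal (κ * r) *
      ENNReal.ofReal (θ * r)) :
    ∃ c : ℂ, ∀ w ∈ closedBall z₀ r, ‖P w - A w - c‖ ≤ 2 * (κ * r) + ‖A‖ * (2 * (θ * r)) := by
  set g : ℂ → ℂ := fun z => P z - A z
  set G : ℂ → ℝ≥0∞ := fun z => ‖D z - A‖ₑ
  have mG : Measurable G := (hD.sub measurable_const).enorm
  have cg : ContinuousOn g U := h.cont.sub A.continuous.continuousOn
  have gv := (ha.sub h.isOpen A).goodV h.isOpen (hD.sub measurable_const)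
  have gh := (ha.sub h.isOpen A).goodH h.isOpen (hD.sub measurable_const)
  set X := Icc (z₀.re - 2 * r) (z₀.re + 2 * r)
  set Y := Icc (z₀.im - 2 * r) (z₀.im + 2 * r)
  have hQ : ∀ x ∈ X, ∀ y ∈ Y, (⟨x, y⟩ : ℂ) ∈ closedBall z₀ (4 * r) := by
    intro x hx y hy
    rw [mem_closedBall, dist_eq_norm]
    refine (norm_le_of_abs (r := 2 * r) ?_ ?_).trans (by linarith)
    · simp only [sub_re]; rw [abs_le]; constructor <;> linarith [hx.1, hx.2]
    · simp only [sub_im]; rw [abs_le]; constructor <;> linarith [hy.1, hy.2]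
  have cv : ∀ c, z₀.re - 2 * r ≤ c → c + θ * r ≤ z₀.re + 2 * r → ∃ x ∈ Ioo c (c + θ * r),
      ∀ y ∈ Y, ∀ y' ∈ Y, dist (g ⟨x, y⟩) (g ⟨x, y'⟩) ≤ κ * r := by
    intro c h1 h2
    have sub : Ioo c (c + θ * r) ⊆ X := fun x hx => ⟨h1.trans hx.1.le, hx.2.le.trans h2⟩
    obtain ⟨x, hx, gx, hl⟩ := exists_good (c := c) (d := c + θ * r) (m := ENNReal.ofReal (κ * r))
      (I := fun x => ∫⁻ y in Ioo (z₀.im - 2 * r) (z₀.im + 2 * r), G ⟨x, y⟩) gv
      (((lintegral_lines_le mp_v mG measurableSet_closedBall fun s hs t ht =>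
        hQ s (sub hs) t (Ioo_subset_Icc_self ht)).trans_lt hI).trans_eq (by
          rw [add_sub_cancel_left]))
    refine ⟨x, hx, fun y hy y' hy' => ?_⟩
    have := ((gx.ac cg fun y hy => hB (hQ x (sub hx) y hy)).edist_le hy hy').trans hl.le
    rwa [edist_dist, ENNReal.ofReal_le_ofReal_iff (by positivity)] at this
  have ch : ∀ c, z₀.im - 2 * r ≤ c → c + θ * r ≤ z₀.im + 2 * r → ∃ y ∈ Ioo c (c + θ * r),
      ∀ x ∈ X, ∀ x' ∈ X, dist (g ⟨x, y⟩) (g ⟨x', y⟩) ≤ κ * r := by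
    intro c h1 h2
    have sub : Ioo c (c + θ * r) ⊆ Y := fun x hx => ⟨h1.trans hx.1.le, hx.2.le.trans h2⟩
    obtain ⟨y, hy, gy, hl⟩ := exists_good (c := c) (d := c + θ * r) (m := ENNReal.ofReal (κ * r))
      (I := fun y => ∫⁻ x in Ioo (z₀.re - 2 * r) (z₀.re + 2 * r), G ⟨x, y⟩) gh
      (((lintegral_lines_le mp_h mG measurableSet_closedBall fun s hs t ht =>
        hQ t (Ioo_subset_Icc_self ht) s (sub hs)).trans_lt hI).trans_eq (by
          rw [add_sub_cancel_left]))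
    refine ⟨y, hy, fun x hx x' hx' => ?_⟩
    have := ((gy.ac cg fun x hx => hB (hQ x hx y (sub hy))).edist_le hx hx').trans hl.le
    rwa [edist_dist, ENNReal.ofReal_le_ofReal_iff (by positivity)] at this
  have hθr : θ * r ≤ r := by nlinarith
  have hθr0 : 0 < θ * r := by positivity
  obtain ⟨x₁, hx₁, vx₁⟩ := cv z₀.re (by linarith) (by linarith)
  obtain ⟨y₁, hy₁, vy₁⟩ := ch z₀.im (by linarith) (by linarith)
  have mx₁ : x₁ ∈ X := ⟨by linarith [hx₁.1], by linarith [hx₁.2]⟩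
  have my₁ : y₁ ∈ Y := ⟨by linarith [hy₁.1], by linarith [hy₁.2]⟩
  refine ⟨g ⟨x₁, y₁⟩, fun w hw => ?_⟩
  rw [mem_closedBall, dist_eq_norm] at hw
  have w1 := abs_le.1 ((abs_re_le_norm _).trans hw)
  have w2 := abs_le.1 ((abs_im_le_norm _).trans hw)
  simp only [sub_re, sub_im] at w1 w2
  obtain ⟨a, ha', va⟩ := cv (w.re - θ * r) (by linarith) (by linarith)
  obtain ⟨a', ha'', va'⟩ := cv w.re (by linarith) (by linarith)
  obtain ⟨b, hb', vb⟩ := ch (w.im - θ * r) (by linarith) (by linarith)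
  obtain ⟨b', hb'', vb'⟩ := ch w.im (by linarith) (by linarith)
  have hX : Icc a a' ⊆ X := Icc_subset_Icc (by linarith [ha'.1]) (by linarith [ha''.2])
  have hY : Icc b b' ⊆ Y := Icc_subset_Icc (by linarith [hb'.1]) (by linarith [hb''.2])
  have hRU : Icc a a' ×ℂ Icc b b' ⊆ U := fun p hp => hB (hQ p.re (hX hp.1) p.im (hY hp.2))
  by_contra hn
  obtain ⟨p, hp, hpO, hpC⟩ := h.exit (isCompact_rect a a' b b') hRU (isOpen_rect a a' b b')
    (rect_subset a a' b b') (isPreconnected_compl_closedBall (g ⟨x₁, y₁⟩ + A w)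
      (2 * (κ * r) + ‖A‖ * (2 * (θ * r)))) (z := w)
    ⟨⟨by linarith [ha'.2], ha''.1⟩, ⟨by linarith [hb'.2], hb''.1⟩⟩
    (by rw [mem_compl_iff, mem_closedBall, dist_eq_norm, add_comm (g _), ← sub_sub]; exact hn)
    (not_compl_subset isBounded_closedBall
      ((isCompact_rect a a' b b').image_of_continuousOn (h.cont.mono hRU)).isBounded)
  refine hpC ?_
  have e1 : dist (g p) (g ⟨x₁, y₁⟩) ≤ 2 * (κ * r) := by
    have px := hX hp.1
    have py := hY hp.2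
    rcases rect_sides hp hpO with e | e | e | e
    · have := va p.im py y₁ my₁
      rw [← e] at this
      linarith [dist_triangle (g p) (g ⟨p.re, y₁⟩) (g ⟨x₁, y₁⟩), vy₁ _ px _ mx₁]
    · have := va' p.im py y₁ my₁
      rw [← e] at this
      linarith [dist_triangle (g p) (g ⟨p.re, y₁⟩) (g ⟨x₁, y₁⟩), vy₁ _ px _ mx₁]
    · have := vb p.re px x₁ mx₁
      rw [← e] at this
      linarith [dist_triangle (g p) (g ⟨x₁, p.im⟩) (g ⟨x₁, y₁⟩), vx₁ _ py _ my₁]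
    · have := vb' p.re px x₁ mx₁
      rw [← e] at this
      linarith [dist_triangle (g p) (g ⟨x₁, p.im⟩) (g ⟨x₁, y₁⟩), vx₁ _ py _ my₁]
  have e2 : ‖p - w‖ ≤ 2 * (θ * r) := by
    refine norm_le_of_abs ?_ ?_
    · simp only [sub_re]; rw [abs_le]
      constructor <;> linarith [hp.1.1, hp.1.2, ha'.1, ha''.2]
    · simp only [sub_im]; rw [abs_le]
      constructor <;> linarith [hp.2.1, hp.2.2, hb'.1, hb''.2]
  rw [mem_closedBall, dist_eq_norm]
  have e3 : P p - (g ⟨x₁, y₁⟩ + A w) = (g p - g ⟨x₁, y₁⟩) + A (p - w) := by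
    simp only [g, map_sub]; ring
  rw [e3]
  rw [dist_eq_norm] at e1
  refine (norm_add_le _ _).trans (add_le_add e1 ((A.le_opNorm _).trans ?_))
  gcongr

theorem ae_lebesgue {V : Type*} [NormedAddCommGroup V] {D : ℂ → V} (hU : IsOpen U)
    (hD : LocallyIntegrableOn D U) :
    ∀ᵐ z, z ∈ U → ∀ ε : ℝ, 0 < ε → ∀ᶠ r in 𝓝[>] (0 : ℝ),
      ∫⁻ w in closedBall z r, ‖D w - D z‖ₑ < ENNReal.ofReal (ε * r ^ 2) := by
  obtain ⟨K, hK, hKU⟩ := exists_exhaust hU
  have key : ∀ n, ∃ D' : ℂ → V, (∀ z ∈ K n, D' z = D z) ∧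
      ∀ᵐ z, Tendsto (fun r => (∫⁻ w in closedBall z r,
        ‖D' w - D' z‖ₑ) / volume (closedBall z r)) (𝓝[>] 0) (𝓝 0) := by
    intro n
    have hi := (hD.integrableOn_compact_subset (hK n).2 (hK n).1).integrable_indicator
        (hK n).1.measurableSet
    refine ⟨_, fun z hz => indicator_of_mem hz _, ?_⟩
    filter_upwards [(Besicovitch.vitaliFamily volume).ae_tendsto_lintegral_enorm_sub_div
      hi.locallyIntegrable] with z hz using hz.comp (Besicovitch.tendsto_filterAt volume z)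
  choose D' hD' key using key
  filter_upwards [ae_all_iff.2 key] with z hz hzU ε hε
  obtain ⟨ρ, hρ, hρU⟩ := nhds_basis_closedBall.mem_iff.1 (hU.mem_nhds hzU)
  obtain ⟨n, hn⟩ := hKU _ (isCompact_closedBall z ρ) hρU
  have h1 := (hz n).eventually (gt_mem_nhds (show (0 : ℝ≥0∞) < ENNReal.ofReal (ε / 4) by
    simpa using hε))
  filter_upwards [h1, Ioo_mem_nhdsGT hρ] with r hr hr'
  have sub : closedBall z r ⊆ K n := (closedBall_subset_closedBall hr'.2.le).trans hn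
  have v0 : volume (closedBall z r) ≠ 0 := (measure_closedBall_pos _ _ hr'.1).ne'
  have v1 : volume (closedBall z r) ≠ ⊤ := measure_closedBall_lt_top.ne
  rw [ENNReal.div_lt_iff (Or.inl v0) (Or.inl v1)] at hr
  have e : ∫⁻ w in closedBall z r, ‖D w - D z‖ₑ =
      ∫⁻ w in closedBall z r, ‖D' n w - D' n z‖ₑ :=
    setLIntegral_congr_fun measurableSet_closedBall fun w hw => by
      simp only [hD' n _ (sub hw), hD' n _ (sub (mem_closedBall_self hr'.1.le))]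
  rw [e]
  refine hr.trans_le ?_
  rw [Measure.addHaar_closedBall_eq_addHaar_ball]
  refine (mul_le_mul_right (volume_ball_le z hr'.1.le) _).trans ?_
  rw [← ENNReal.ofReal_mul (by positivity)]
  exact ENNReal.ofReal_le_ofReal (by nlinarith [mul_pos hε (pow_pos hr'.1 2)])

theorem Hom.ae_hasFDerivAt (h : Hom U P) (ha : Appr U P D) (hD : Measurable D)
    (hl : LocallyIntegrableOn D U) : ∀ᵐ z, z ∈ U → HasFDerivAt P (D z) z := by
  filter_upwards [ae_lebesgue h.isOpen hl] with z₀ hz hzU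
  set A := D z₀
  rw [hasFDerivAt_iff_isLittleO, Asymptotics.isLittleO_iff]
  intro η hη
  have hA : 0 < ‖A‖ + 1 := by positivity
  set θ := min 1 (η / (8 * (‖A‖ + 1)))
  have hθ : 0 < θ := by positivity
  have hθ2 : θ * (8 * (‖A‖ + 1)) ≤ η := (le_div_iff₀ (by positivity)).1 (min_le_right _ _)
  obtain ⟨ρ, hρ, hρU⟩ := nhds_basis_closedBall.mem_iff.1 (h.isOpen.mem_nhds hzU)
  obtain ⟨ρ', hρ', H⟩ := (nhdsGT_basis 0).eventually_iff.1
    ((hz hzU (η / 8 * θ / 16) (by positivity)).and (Ioo_mem_nhdsGT hρ))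
  filter_upwards [ball_mem_nhds z₀ (show 0 < ρ' / 4 by linarith)] with z hz'
  rcases eq_or_ne z z₀ with rfl | hne
  · simp
  set r := ‖z - z₀‖
  have hr : 0 < r := norm_pos_iff.2 (sub_ne_zero.2 hne)
  have hr' : r < ρ' / 4 := by rwa [mem_ball, dist_eq_norm] at hz'
  obtain ⟨H1, H2⟩ := H (show 4 * r ∈ Ioo 0 ρ' from ⟨by linarith, by linarith⟩)
  obtain ⟨c, hc⟩ := h.osc ha hD A hr (show 0 < η / 8 by positivity) hθ (min_le_left _ _)
    ((closedBall_subset_closedBall H2.2.le).trans hρU) (H1.trans_eq (by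
      rw [← ENNReal.ofReal_mul (by positivity)]; congr 1; ring))
  have e1 := hc z (by rw [mem_closedBall, dist_eq_norm])
  have e2 := hc z₀ (mem_closedBall_self hr.le)
  have e3 : P z - P z₀ - A (z - z₀) = (P z - A z - c) - (P z₀ - A z₀ - c) := by
    rw [map_sub]; ring
  rw [e3]
  refine (norm_sub_le _ _).trans ?_
  nlinarith [mul_pos hθ hr, mul_le_mul_of_nonneg_right hθ2 hr.le]

end Pool.Agent.P.MP_7f9008_an
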