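import Pool.Agent.P.MP_7f9008_an.Lower

/-! The lower estimate for a general gauge. -/

open MeasureTheory Set Metric Filter Topology Real Complex
open scoped ENNReal

noncomputable section
namespace Pool.Agent.P.MP_7f9008_an

theorem lintegral_le_gen {E S : Set ℂ} (hES : E ⊆ S) {K : ℂ → ℝ} {g : ℝ → ℝ} {q I k A : ℝ}
    (g0 : ∀ s, 0 ≤ g s) (hq : 0 ≤ q) (hgq : ∀ s, k ≤ s → s ≤ q * g s)
    (hI0 : 0 ≤ I) (hk : 0 ≤ k) (hA : 0 ≤ A) (hE : volume E ≤ ENNReal.ofReal A)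
    (hI : ∫⁻ z in S, ENNReal.ofReal (g (K z)) ≤ ENNReal.ofReal I) :
    ∫⁻ z in E, ENNReal.ofReal (K z) ≤ ENNReal.ofReal (k * A + q * I) := by
  calc _ ≤ ∫⁻ z in E, ENNReal.ofReal k + ENNReal.ofReal q * ENNReal.ofReal (g (K z)) := by
        refine lintegral_mono fun z => ?_
        rw [← ENNReal.ofReal_mul hq, ← ENNReal.ofReal_add hk (mul_nonneg hq (g0 _))]
        refine ENNReal.ofReal_le_ofReal ?_
        rcases le_total k (K z) with h | h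
        · linarith [hgq _ h]
        · linarith [mul_nonneg hq (g0 (K z))]
    _ ≤ ENNReal.ofReal k * ENNReal.ofReal A + ENNReal.ofReal q * ENNReal.ofReal I := by
        rw [lintegral_add_left measurable_const, setLIntegral_const,
          lintegral_const_mul' _ _ ENNReal.ofReal_ne_top]
        gcongr
        exact (lintegral_mono_set hES).trans hI
    _ = _ := by
        rw [← ENNReal.ofReal_mul hk, ← ENNReal.ofReal_mul hq,
          ← ENNReal.ofReal_add (by positivity) (by positivity)]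

theorem lower_outG {t w : ℕ → ℝ} {m : ℕ → ℕ} {a b : ℝ → ℝ} {Ω : Set ℂ} (hs : Seq t w m)
    (hg : Gad t w m a b Ω) {η : ℝ} {P : ℂ → ℂ} {K : ℂ → ℝ} (mK : Measurable K)
    (hP : QC (Ioo (-η) η ×ℂ Ioo (-η) η) P)
    (hK : DistLe (Ioo (-η) η ×ℂ Ioo (-η) η) P fun z => ENNReal.ofReal (K z))
    (hw : ∀ z ∈ Ioo (-η) η ×ℂ Ioo (-η) η, ‖P z‖ ≤ 1 / 4 ∧ (0 ≤ z.im → P z ∉ Ω))
    {g : ℝ → ℝ} {q I : ℝ} (g0 : ∀ s, 0 ≤ g s) (hq : 0 ≤ q) (hI0 : 0 ≤ I)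
    (hI : ∫⁻ z in Ioo (-η) η ×ℂ Ioo (-η) η, ENNReal.ofReal (g (K z)) ≤ ENNReal.ofReal I)
    (j : ℕ) {x ρ : ℝ} (hρ : 0 < ρ) (hx : |x| + ρ < η) {N : ℕ} (hN : 1 ≤ N)
    (hgq : ∀ s, (m j : ℝ) ^ 2 * N / 16 ≤ s → s ≤ q * g s)
    (H : ∀ r ∈ Icc (ρ / 2 ^ N) ρ, ∃ X ∈ Icc (2 * t j) (5 / 2 * t j),
        ∃ X' ∈ Icc (7 / 2 * t j) (4 * t j),
          (P ⟨x - r, 0⟩ = ⟨X + a (b X), b X⟩ ∧ P ⟨x + r, 0⟩ = ⟨X' + a (b X'), b X'⟩) ∨
          (P ⟨x + r, 0⟩ = ⟨X + a (b X), b X⟩ ∧ P ⟨x - r, 0⟩ = ⟨X' + a (b X'), b X'⟩)) :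
    (ρ / 2 ^ N) ^ 2 ≤ 2 * (q * I) := by
  obtain ⟨W, σ, hW, W1, W0⟩ := exists_corridor hs hg j
  have hm : (1 : ℝ) ≤ m j := by exact_mod_cast hs.mpos j
  have hN' : (1 : ℝ) ≤ N := by exact_mod_cast hN
  set r : ℕ → ℝ := fun k => ρ / 2 ^ (k + 1) with hr
  have rpos : ∀ k, 0 < r k := fun k => by positivity
  have rle : ∀ i k, i < k → 2 * r k ≤ r i := fun i k h => by
    have : (2 : ℝ) ^ (i + 1) ≤ 2 ^ k := pow_le_pow_right₀ (by norm_num) h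
    calc 2 * r k = ρ / 2 ^ k := by simp only [hr]; field_simp; ring
      _ ≤ _ := div_le_div_of_nonneg_left hρ.le (by positivity) this
  have rρ : ∀ k, 2 * r k ≤ ρ := fun k => by
    have : (1 : ℝ) ≤ 2 ^ k := one_le_pow₀ (by norm_num)
    calc 2 * r k = ρ / 2 ^ k := by simp only [hr]; field_simp; ring
      _ ≤ _ := div_le_self hρ.le this
  have sub : ∀ k, Icc (x - 2 * r k) (x + 2 * r k) ×ℂ Icc 0 (2 * r k) ⊆
      Ioo (-η) η ×ℂ Ioo (-η) η := fun k z hz => by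
    have h1 := le_abs_self x
    have h2 := neg_abs_le x
    have h3 := abs_nonneg x
    exact ⟨⟨by linarith [hz.1.1, rρ k], by linarith [hz.1.2, rρ k]⟩,
      by linarith [hz.2.1], by linarith [hz.2.2, rρ k]⟩
  have subc : ∀ k, capA x (r k) ⊆ Ioo (-η) η ×ℂ Ioo (-η) η := fun k =>
    sdiff_subset.trans ((rect_subset _ _ _ _).trans (sub k))
  have dis : ∀ i k, i ≠ k → Disjoint (capA x (r i)) (capA x (r k)) := by
    intro i k hik
    wlog h : i < k generalizing i k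
    · exact (this k i hik.symm (by omega)).symm
    refine Set.disjoint_left.2 fun z hz hz' => hz.2 ?_
    have := rle i k h
    exact ⟨⟨by linarith [hz'.1.1.1], by linarith [hz'.1.1.2]⟩, hz'.1.2.1.le,
      by linarith [hz'.1.2.2]⟩
  obtain ⟨k, hk, ek⟩ : ∃ k ∈ Finset.range N,
      ∫⁻ z in P '' capA x (r k), σ z ^ 2 ≤ ENNReal.ofReal (1 / (16 * N)) := by
    refine ENNReal.exists_le_of_sum_le ⟨0, Finset.mem_range.2 hN⟩ ?_
    rw [← lintegral_biUnion_finset (fun i _ k _ hik => (dis i k hik).image hP.inj (subc i) (subc k))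
      fun i _ => (hP.opn _ (subc i) (isOpen_capA _ _)).measurableSet]
    refine ((setLIntegral_le_lintegral _ _).trans hW.en).trans (le_of_eq ?_)
    rw [Finset.sum_const, Finset.card_range, nsmul_eq_mul, ← ENNReal.ofReal_natCast,
      ← ENNReal.ofReal_mul (by positivity)]
    congr 1; field_simp
  have rk : ρ / 2 ^ N ≤ r k := div_le_div_of_nonneg_left hρ.le (by positivity)
    (pow_le_pow_right₀ (by norm_num) (Finset.mem_range.1 hk))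
  have e1 := hP.cap_lower (M := m j) (Z := {z | ‖z‖ ≤ 1 / 4 ∧ z ∉ Ω}) (rpos k) (sub k)
    (fun z hz => ⟨(hw z (sub k hz)).1, (hw z (sub k hz)).2 hz.2.1⟩) hW fun s hs => by
      obtain ⟨X, hX, X', hX', h | h⟩ := H s ⟨rk.trans hs.1.le, hs.2.le.trans (rρ k)⟩ <;>
        simp [h.1, h.2, W1 X hX, W0 X' hX']
  have e2 := hP.energy hK (measurableSet_capA x (r k)) (subc k)
    mK.ennreal_ofReal.aemeasurable hW.meas
  have e3 := lintegral_le_gen (subc k) (k := m j ^ 2 * N / 16) (A := 8 * r k ^ 2) g0 hq hgq hI0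
    (by positivity) (by positivity) ((measure_mono sdiff_subset).trans (by
      rw [volume_rect_out _ _ _ _ (by linarith [rpos k])]
      exact ENNReal.ofReal_le_ofReal (le_of_eq (by ring)))) hI
  set B := m j ^ 2 * N / 16 * (8 * r k ^ 2) + q * I with hB
  have B0 : 0 ≤ B := by positivity
  have e4 : ENNReal.ofReal ((m j * r k) ^ 2) ≤ ENNReal.ofReal (9 * (1 / (16 * N) * B)) := by
    rw [ENNReal.ofReal_pow (by have := rpos k; positivity), ENNReal.ofReal_mul (by positivity),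
      ENNReal.ofReal_mul (by positivity), ENNReal.ofReal_mul (by positivity)]
    calc _ ≤ (3 * ∫⁻ z in capA x (r k), σ (P z) * ‖fderiv ℝ P z‖ₑ) ^ 2 := pow_le_pow_left' e1 2
      _ = ENNReal.ofReal 9 * (∫⁻ z in capA x (r k), σ (P z) * ‖fderiv ℝ P z‖ₑ) ^ 2 := by
          rw [mul_pow]; norm_num
      _ ≤ _ := by
          gcongr
          exact e2.trans (mul_le_mul' ek e3)
  rw [ENNReal.ofReal_le_ofReal_iff (by positivity)] at e4
  have e5 : m j ^ 2 * N * r k ^ 2 ≤ B := by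
    rw [show 9 * (1 / (16 * (N : ℝ)) * B) = 9 * B / (16 * N) by ring,
      le_div_iff₀ (by positivity)] at e4
    nlinarith
  have e6 : r k ^ 2 / 2 ≤ q * I := by
    have : (1 : ℝ) ≤ m j ^ 2 * N := one_le_mul_of_one_le_of_one_le (one_le_pow₀ hm) hN'
    nlinarith [sq_nonneg (r k)]
  have e7 : (ρ / 2 ^ N) ^ 2 ≤ r k ^ 2 := pow_le_pow_left₀ (by positivity) rk 2
  linarith

theorem lower_core {t w : ℕ → ℝ} {m : ℕ → ℕ} {a b : ℝ → ℝ} {Ω : Set ℂ} (hs : Seq t w m)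
    (hg : Gad t w m a b Ω) (hJ : IsJordan Ω) (hc : IsPreconnected Ωᶜ) :
    ∃ f, IsQC f (ball 0 1) Ω ∧ ∀ F : ℂ ≃ₜ ℂ, EqOn F f (ball 0 1) →
      ∀ D, FinDist univ F D → ∃ c : ℝ, 0 < c ∧ ∃ M : ℕ, ∀ G : ℝ → ℝ, (∀ s, 0 ≤ G s) →
        LocallyIntegrable (fun x => G (Kf D x)) → ∃ J : ℝ, 0 ≤ J ∧ ∀ᶠ j in atTop, ∀ N : ℕ, 1 ≤ N →
          N ≤ m j ^ 2 / 2 → ∀ q : ℝ, 0 ≤ q → (∀ s, (m j : ℝ) ^ 2 * N / 16 ≤ s → s ≤ q * G s) →
          (c * t j ^ M / 2 ^ N) ^ 2 ≤ 2 * (q * J) := by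
  obtain ⟨hΩ, ⟨⟨z₀, hz₀⟩, hcon⟩, hb, -⟩ := hJ
  obtain ⟨g, G, hgd, hGd, hm, hm', hi, hi', -⟩ := rmt hΩ hcon hb hc hz₀
  refine ⟨g, (Conf.of_inverse isOpen_ball hΩ hgd hGd hm hi).isQC hGd.continuousOn hm hm' hi hi',
    fun F hF D hD => ?_⟩
  have hH : Hom univ F := ⟨isOpen_univ, F.continuous.continuousOn, F.injective.injOn,
    fun O _ hO => F.isOpenMap O hO⟩
  obtain ⟨q, e1, -, dis⟩ := hD.qc hH
  have hFG : ∀ z ∈ Ω, F.symm z = G z := fun z hz => by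
    rw [Homeomorph.symm_apply_eq, hF (hm' hz), hi' z hz]
  have him : F '' ball 0 1 = Ω := by
    ext z
    constructor
    · rintro ⟨u, hu, rfl⟩; rw [hF hu]; exact hm hu
    · exact fun hz => ⟨G z, hm' hz, by rw [hF (hm' hz), hi' z hz]⟩
  have hfr : ∀ z ∈ frontier Ω, ‖F.symm z‖ = 1 := fun z hz => by
    rw [← him, ← F.image_frontier, frontier_ball _ one_ne_zero] at hz
    obtain ⟨u, hu, rfl⟩ := hz
    simpa using hu
  obtain ⟨ζ, hζ⟩ : ∃ ζ, ζ = F.symm 0 := ⟨_, rfl⟩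
  have ζ1 : ‖ζ‖ = 1 := hζ ▸ hfr 0 hg.fr0
  have ζ0 : ζ ≠ 0 := norm_ne_zero_iff.1 (by rw [ζ1]; exact one_ne_zero)
  obtain ⟨e, he⟩ : ∃ e : ℂ → ℂ, e = fun ξ => ζ * exp (-ξ * I) := ⟨_, rfl⟩
  have ce : Conf (ball 0 3) e := he ▸ conf_rot ζ0
  have ec : Continuous e := by rw [he]; fun_prop
  have ne : ∀ ξ, ‖e ξ‖ = Real.exp ξ.im := he ▸ norm_rot ζ1
  have P0 : (F ∘ e) 0 = 0 := by simp [he, hζ]
  -- the square
  obtain ⟨η, η0, η1, hη⟩ : ∃ η : ℝ, 0 < η ∧ η ≤ 1 ∧ ∀ ξ : ℂ, ‖ξ‖ < 2 * η → ‖(F ∘ e) ξ‖ ≤ 1 / 4 := by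
    obtain ⟨d, d0, hd⟩ := Metric.continuousAt_iff.1 ((F.continuous.comp ec).continuousAt (x := 0))
      (1 / 4) (by norm_num)
    refine ⟨min (d / 2) 1, by positivity, min_le_right _ _, fun ξ hξ => ?_⟩
    have := hd (x := ξ) (by rw [dist_zero_right]; linarith [min_le_left (d / 2) 1])
    rw [P0, dist_zero_right] at this
    exact this.le
  have hQ : ∀ ξ ∈ Ioo (-η) η ×ℂ Ioo (-η) η, ‖ξ‖ < 2 * η := fun ξ hξ => by
    have := norm_le_abs_re_add_abs_im ξ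
    have h1 : |ξ.re| < η := abs_lt.2 hξ.1
    have h2 : |ξ.im| < η := abs_lt.2 hξ.2
    linarith
  have hQ2 : Ioo (-η) η ×ℂ Ioo (-η) η ⊆ closedBall 0 2 := fun ξ hξ =>
    mem_closedBall_zero_iff.2 (by linarith [hQ ξ hξ])
  have h23 : closedBall (0 : ℂ) 2 ⊆ ball 0 3 := closedBall_subset_ball (by norm_num)
  have qP := (q.comp ce (mapsTo_univ _ _)).1.mono (isOpen_Ioo.reProdIm isOpen_Ioo) (hQ2.trans h23)
  have dP : DistLe (Ioo (-η) η ×ℂ Ioo (-η) η) (F ∘ e)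
      fun z => ENNReal.ofReal (Kf (fderiv ℝ F) (e z)) :=
    (DistLe.comp q dis ce (mapsTo_univ _ _)).mono (hQ2.trans h23)
      (Eventually.of_forall fun _ _ => le_rfl)
  have hw : ∀ z ∈ Ioo (-η) η ×ℂ Ioo (-η) η, ‖(F ∘ e) z‖ ≤ 1 / 4 ∧ (0 ≤ z.im → (F ∘ e) z ∉ Ω) := by
    refine fun z hz => ⟨hη z (hQ z hz), fun h0 h1 => ?_⟩
    rw [← him, Function.comp_apply, F.injective.mem_set_image, mem_ball_zero_iff, ne] at h1
    linarith [Real.one_le_exp h0]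
  -- the boundary coordinate
  obtain ⟨Ξ, hΞ⟩ : ∃ Ξ : ℂ → ℂ, Ξ = fun z => I * log (F.symm z / ζ) := ⟨_, rfl⟩
  have u0 : F.symm 0 / ζ = 1 := by rw [← hζ, div_self ζ0]
  have uc : Continuous fun z => F.symm z / ζ := F.symm.continuous.div_const ζ
  have Ξc : ∀ z, F.symm z / ζ ∈ slitPlane → ContinuousAt Ξ z := fun z hz => by
    rw [hΞ]; exact continuousAt_const.mul (uc.continuousAt.clog hz)
  obtain ⟨δ, δ0, hδ⟩ : ∃ δ : ℝ, 0 < δ ∧ ∀ z ∈ ball (0 : ℂ) δ,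
      F.symm z / ζ ∈ slitPlane ∧ ‖Ξ z‖ < η := by
    have a1 : ∀ᶠ z in 𝓝 (0 : ℂ), F.symm z / ζ ∈ slitPlane :=
      uc.continuousAt.eventually (isOpen_slitPlane.mem_nhds (by simp only [u0, one_mem_slitPlane]))
    have a2 : ∀ᶠ z in 𝓝 (0 : ℂ), ‖Ξ z‖ < η :=
      ContinuousAt.eventually_lt (Ξc 0 (by rw [u0]; exact one_mem_slitPlane)).norm
        continuousAt_const (by simpa [hΞ, u0] using η0)
    exact Metric.eventually_nhds_iff_ball.1 (a1.and a2)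
  have eΞ : ∀ z ∈ ball (0 : ℂ) δ, e (Ξ z) = F.symm z := fun z hz => by
    have : -(I * log (F.symm z / ζ)) * I = log (F.symm z / ζ) := by
      linear_combination (-log (F.symm z / ζ)) * I_mul_I
    simp only [he, hΞ]
    rw [this, exp_log (slitPlane_ne_zero (hδ z hz).1), mul_div_cancel₀ _ ζ0]
  have PΞ : ∀ z ∈ ball (0 : ℂ) δ, (F ∘ e) (Ξ z) = z := fun z hz => by
    rw [Function.comp_apply, eΞ z hz, F.apply_symm_apply]
  have neg : ∀ z ∈ Ω ∩ ball 0 δ, (Ξ z).im < 0 := fun z hz => by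
    rw [← Real.exp_lt_one_iff, ← ne, eΞ z hz.2, hFG z hz.1]
    exact mem_ball_zero_iff.1 (hm' hz.1)
  have zero : ∀ z ∈ frontier Ω ∩ ball 0 δ, (Ξ z).im = 0 := fun z hz => by
    rw [← Real.exp_eq_one_iff, ← ne, eΞ z hz.2, hfr z hz.1]
  have conf : Conf (Ω ∩ ball 0 δ) Ξ := by
    have a1 : MapsTo e {ξ : ℂ | ξ.im < 0} (ball 0 1) := fun ξ hξ => by
      rw [mem_ball_zero_iff, ne, Real.exp_lt_one_iff]; exact hξ
    refine Conf.of_inverse (G := g ∘ e) (V := {ξ : ℂ | ξ.im < 0}) (hΩ.inter isOpen_ball)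
      (isOpen_lt continuous_im continuous_const) ?_ (hgd.comp (by rw [he]; fun_prop) a1) neg
      fun z hz => ?_
    · refine DifferentiableOn.congr (f := fun z => I * log (G z / ζ)) ?_
        fun z hz => by simp only [hΞ, hFG z hz.1]
      refine (((hGd.mono inter_subset_left).div_const ζ).clog fun z hz => ?_).const_mul I
      rw [← hFG z hz.1]; exact (hδ z hz.2).1
    · rw [Function.comp_apply, eΞ z hz.2, hFG z hz.1, hi' z hz.1]
  obtain ⟨c, c0, M, hM⟩ := lower_in hs hg δ0 (fun z hz => (Ξc z (hδ z hz).1).continuousWithinAt)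
    (fun z hz z' hz' h => by rw [← PΞ z hz, h, PΞ z' hz']) conf neg zero
  refine ⟨c, c0, M, fun G₀ g0 hint => ?_⟩
  obtain ⟨J, J0, hJ⟩ : ∃ J : ℝ, 0 ≤ J ∧ ∫⁻ z in Ioo (-η) η ×ℂ Ioo (-η) η,
      ENNReal.ofReal (G₀ (Kf (fderiv ℝ F) (e z))) ≤ ENNReal.ofReal J := by
    obtain ⟨C, hC⟩ := ce.lintegral_le (isCompact_closedBall 0 2) h23
    have h1 := (hC fun w => ENNReal.ofReal (G₀ (Kf (fderiv ℝ F) w))).2
    have h2 := (hint.integrableOn_isCompact ((isCompact_closedBall 0 2).image ec)).lintegral_lt_top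
    have h3 : ∫⁻ w in e '' closedBall 0 2, ENNReal.ofReal (G₀ (Kf (fderiv ℝ F) w)) =
        ∫⁻ w in e '' closedBall 0 2, ENNReal.ofReal (G₀ (Kf D w)) :=
      lintegral_congr_ae (ae_restrict_of_ae (e1.mono fun z hz => by
        simp only [Kf, hz (mem_univ z)]))
    rw [h3] at h1
    refine ⟨_, ENNReal.toReal_nonneg, ((lintegral_mono_set hQ2).trans h1).trans
      (ENNReal.ofReal_toReal (ENNReal.mul_ne_top ENNReal.ofReal_ne_top h2.ne)).ge⟩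
  refine ⟨J, J0, ?_⟩
  have small : ∀ᶠ j in atTop, t j < δ / 12 := hs.tendsto_zero.eventually (gt_mem_nhds (by positivity))
  filter_upwards [hM, small] with j ⟨x, ρ, hρ, H⟩ hj N hN hN' q' hq hgq
  have ht := hs.tpos j
  have ρ0 : 0 < ρ := lt_of_lt_of_le (by positivity) hρ
  have hin : ∀ X ∈ Icc (2 * t j) (4 * t j), (⟨X + a (b X), b X⟩ : ℂ) ∈ ball (0 : ℂ) δ :=
    fun X hX => mem_ball_zero_iff.2 (by linarith [gad_norm hs hg j hX])
  have s1 : Icc (2 * t j) (5 / 2 * t j) ⊆ Icc (2 * t j) (4 * t j) :=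
    Icc_subset_Icc le_rfl (by linarith)
  have s2 : Icc (7 / 2 * t j) (4 * t j) ⊆ Icc (2 * t j) (4 * t j) :=
    Icc_subset_Icc (by linarith) le_rfl
  refine le_trans (by gcongr) (lower_outG hs hg ((measurable_Kf F).comp ec.measurable) qP dP hw
    g0 hq J0 hJ j ρ0 (x := x) ?_ hN hgq fun r hr => ?_)
  · obtain ⟨X, hX, X', hX', h⟩ := H ρ ⟨div_le_self ρ0.le (one_le_pow₀ one_le_two), le_rfl⟩
    have b1 := (abs_re_le_norm _).trans_lt (hδ _ (hin X (s1 hX))).2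
    have b2 := (abs_re_le_norm _).trans_lt (hδ _ (hin X' (s2 hX'))).2
    rcases h with ⟨h1, h2⟩ | ⟨h1, h2⟩ <;> rw [h1] at b1 <;> rw [h2] at b2 <;>
      simp only [abs_lt] at b1 b2 <;> rcases abs_cases x with h | h <;> linarith [h.1]
  · obtain ⟨X, hX, X', hX', h⟩ := H r ⟨(div_le_div_of_nonneg_left ρ0.le (by positivity)
      (pow_le_pow_right₀ one_le_two hN')).trans hr.1, hr.2⟩
    refine ⟨X, hX, X', hX', h.imp (fun h => ?_) fun h => ?_⟩ <;>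
      exact ⟨by rw [← h.1, PΞ _ (hin X (s1 hX))], by rw [← h.2, PΞ _ (hin X' (s2 hX'))]⟩

end Pool.Agent.P.MP_7f9008_an
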