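import Pool.Agent.P.MP_7f9008_an.UpperC
import Pool.Agent.P.MP_7f9008_an.Exterior

/-! Moduli which are `O(t log ^ (1/4) (1/t))` are admissible. -/

open MeasureTheory Set Metric Filter Topology Real Complex
open scoped ENNReal

noncomputable section
namespace Pool.Agent.P.MP_7f9008_an

theorem norm_exp_mul_I (z : ℂ) : ‖exp (z * I)‖ = Real.exp (-z.im) := by
  rw [Complex.norm_exp]; simp

theorem eq_of_strip {z w : ℂ} (hz : z.re ∈ Ioo 0 (2 * π)) (hw : w.re ∈ Ioo 0 (2 * π))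
    (e : exp (z * I) = exp (w * I)) : z = w :=
  (conf_exp (U := Ioo 0 (2 * π) ×ℂ univ) (isOpen_Ioo.reProdIm isOpen_univ) fun z hz w hw => by
    rw [abs_lt]; constructor <;> linarith [hz.1.1, hz.1.2, hw.1.1, hw.1.2]).inj
    ⟨hz, mem_univ _⟩ ⟨hw, mem_univ _⟩ e

theorem exists_exp {z : ℂ} (hz : z ≠ 0) : ∃ ζ : ℂ, exp (ζ * I) = z ∧ -ζ.im = Real.log ‖z‖ :=
  ⟨-I * log z, by rw [show -I * log z * I = log z by
    linear_combination (-log z) * I_mul_I, exp_log hz], by simp [log_re]⟩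

theorem Disc.loop {Ω : Set ℂ} {f : ℂ → ℂ} {K : ℝ} (h : Disc Ω f K) :
    (Loop fun x : ℝ => f (exp (x * I))) ∧ frontier Ω = range fun x : ℝ => f (exp (x * I)) := by
  have m : ∀ x : ℝ, exp (x * I) ∈ closedBall (0 : ℂ) 1 := fun x => by simp
  refine ⟨⟨h.cont.comp_continuous (by fun_prop) m, fun x => by
    simp [add_mul, Complex.exp_add], fun x y e => ?_⟩, ?_⟩
  · obtain ⟨k, hk⟩ := exp_mul_I_inj (h.inj (m x) (m y) e)
    exact ⟨k, by exact_mod_cast hk⟩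
  · rw [← h.sph]
    ext w
    constructor
    · rintro ⟨z, hz, rfl⟩
      refine ⟨arg z, ?_⟩
      have := norm_mul_exp_arg_mul_I z
      rw [mem_sphere_zero_iff_norm.1 hz] at this
      simp only [ofReal_one, one_mul] at this
      simp only [this]
    · rintro ⟨x, rfl⟩
      exact ⟨_, by simp, rfl⟩

theorem propE_of_tp {Ω : Set ℂ} (hΩ : IsJordan Ω)
    (htp : ∀ γ, Loop γ → frontier Ω = range γ → TP γ) : PropE Ω := by
  intro f₀ hf₀
  obtain ⟨D, M, hM0, hD, hM, hJ, q, im, dis, pos⟩ := hf₀.data hΩ.1 hΩ.2.2.1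
  obtain ⟨f, ef, hf⟩ := carath hΩ q im hM0 dis pos
  obtain ⟨g, τ, gc, gb, gm, gf, gi, gs, τc, τm, τp, τe⟩ := exterior hΩ hf
  obtain ⟨lp, fr⟩ := hf.loop
  have m₁ : ∀ z : ℂ, 0 < z.im → exp (z * I) ∈ ball (0 : ℂ) 1 := fun z hz => by
    rw [mem_ball_zero_iff, norm_exp_mul_I]; simpa
  have m₂ : ∀ z : ℂ, 0 < z.im → exp ((starRingEnd ℂ) z * I) ∈ (ball (0 : ℂ) 1)ᶜ := fun z hz => by
    rw [mem_compl_iff, mem_ball_zero_iff, norm_exp_mul_I]; simpa using hz.le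
  obtain ⟨Φ, p1, ⟨B, p2⟩, p3, p4, p5, p6, p7, A, y₀, hA, hy₀, p8⟩ :=
    exists_phi lp (htp _ lp fr) hf.side gs τc τm τp (fun _ => rfl)
      (fun x => by
        rw [τe, show (starRingEnd ℂ) ⟨x, 0⟩ = (x : ℂ) from conj_ofReal x])
      (fun z hz w hw e => eq_of_strip hz.1 hw.1
        (hf.inj (ball_subset_closedBall (m₁ z hz.2)) (ball_subset_closedBall (m₁ w hw.2)) e))
      (fun z hz w hw e => (starRingEnd ℂ).injective (eq_of_strip (by simpa using hz.1)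
        (by simpa using hw.1) (gb.injOn (m₂ z hz.2) (m₂ w hw.2) e)))
      fun z w hz hw e => gb.mapsTo (m₂ w hw) (e ▸ hf.img ▸ mem_image_of_mem f (m₁ z hz))
  obtain ⟨Ψ, r1, r2, r3, r4, r5, r6, r7⟩ := exists_psi Φ p1 p2 p3 p4 p6
  have bb := gb.comp r3
  set F : ℂ → ℂ := fun z => if ‖z‖ ≤ 1 then f z else g (Ψ z)
  have agree : ∀ z : ℂ, ‖z‖ = 1 → f z = g (Ψ z) := fun z hz => by
    have e := norm_mul_exp_arg_mul_I z
    rw [hz, ofReal_one, one_mul] at e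
    have e2 : Φ (arg z : ℝ) = ((Φ (arg z : ℝ)).re : ℂ) :=
      Complex.ext rfl ((p3 _).1 (ofReal_im _))
    rw [← e, r1, e2, ← τe, p5]
  have F1 : EqOn F f (closedBall 0 1) := fun z hz => if_pos (mem_closedBall_zero_iff.1 hz)
  have F2 : EqOn F (g ∘ Ψ) (ball 0 1)ᶜ := fun z hz => by
    simp only [F, Function.comp_apply]
    split_ifs with h
    · exact agree z (le_antisymm h (by simpa using hz))
    · rfl
  have Fc : Continuous F := continuous_if_le continuous_norm continuous_const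
    (hf.cont.mono fun z hz => mem_closedBall_zero_iff.2 hz)
    ((gc.comp r2 r3.mapsTo).mono fun z hz => by simpa using hz) agree
  have Fb : BijOn F (ball 0 1) Ω := by
    refine BijOn.congr ?_ (F1.mono ball_subset_closedBall).symm
    exact hf.img ▸ (hf.inj.mono ball_subset_closedBall).bijOn_image
  have Fb' : BijOn F (ball 0 1)ᶜ Ωᶜ := bb.congr F2.symm
  have Fbij : Function.Bijective F := by
    refine bijOn_univ.1 ?_
    rw [← union_compl_self (ball (0 : ℂ) 1)]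
    nth_rewrite 2 [union_compl_self]
    rw [← union_compl_self Ω]
    refine Fb.union Fb' fun a ha b hb e => ?_
    rcases ha with ha | ha <;> rcases hb with hb | hb
    exacts [Fb.injOn ha hb e, absurd (e ▸ Fb.mapsTo ha) (Fb'.mapsTo hb),
      absurd (e ▸ Fb.mapsTo hb) (Fb'.mapsTo ha), Fb'.injOn ha hb e]
  have Fp : Tendsto F (cocompact ℂ) (cocompact ℂ) := by
    rw [← cobounded_eq_cocompact, ← tendsto_norm_atTop_iff_cobounded, Filter.tendsto_atTop]
    intro R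
    obtain ⟨R', hR'⟩ := gi R
    filter_upwards [eventually_cobounded_le_norm (max 1 (Real.exp B * R'))] with z hz
    rw [max_le_iff] at hz
    rw [F2 (by simpa using hz.1)]
    refine hR' _ (le_trans ?_ (r5 z hz.1))
    rw [Real.exp_neg, ← div_eq_inv_mul, le_div_iff₀' (Real.exp_pos B)]
    exact hz.2
  have Fh : IsHomeomorph F := isHomeomorph_iff_continuous_isClosedMap_bijective.2
    ⟨Fc, (isProperMap_iff_tendsto_cocompact.2 ⟨Fc, Fp⟩).isClosedMap, Fbij⟩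
  have Fe : EqOn F f₀ (ball 0 1) := (F1.mono ball_subset_closedBall).trans ef
  have op : IsOpen (closedBall (0 : ℂ) 1)ᶜ := isClosed_closedBall.isOpen_compl
  have F3 : EqOn F (g ∘ Ψ) (closedBall 0 1)ᶜ := F2.mono (compl_subset_compl.2 ball_subset_closedBall)
  have der : ∀ z : ℂ, 1 < ‖z‖ → ∃ ζ : ℂ, ζ.im < 0 ∧ -ζ.im = Real.log ‖z‖ ∧ ∃ a : ℝ, 0 < a ∧
      ‖fderiv ℝ F z‖ = a * ‖fderiv ℝ Φ ζ‖ ∧
        (fderiv ℝ F z).det = a ^ 2 * (fderiv ℝ Φ ζ).det := fun z hz => by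
    obtain ⟨ζ, rfl, h2⟩ := exists_exp (z := z) (by rintro rfl; norm_num at hz)
    have h3 : ζ.im < 0 := by linarith [Real.log_pos hz]
    obtain ⟨a, ha, a1, a2⟩ := r7 ζ h3
    have hz' : exp (ζ * I) ∈ (closedBall (0 : ℂ) 1)ᶜ := by simpa using hz
    have d := (gf.hasFDerivAt (r4 hz')).comp _
      ((r6.differentiableOn one_ne_zero).differentiableAt (op.mem_nhds hz')).hasFDerivAt
    refine ⟨ζ, h3, h2, ‖deriv g (Ψ (exp (ζ * I)))‖ * a,
      mul_pos (norm_pos_iff.2 (gf.ne _ (r4 hz'))) ha, ?_, ?_⟩ <;>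
      rw [fderiv_eq_of_eqOn op F3 hz', d.fderiv]
    · rw [ContinuousLinearMap.smul_comp, norm_smul, mul_assoc, ← a1]; rfl
    · rw [mul_pow, mul_assoc, ← a2, ← det_smul_one]
      exact LinearMap.det_comp _ _
  refine ⟨Fh.homeomorph F, Fe, finDist_glue (Fh.homeomorph F) (D₀ := D)
    ⟨(w11_iff isOpen_ball).2 (((w11_iff isOpen_ball).1 hD.1).congr' Fe.symm fun _ _ => rfl), hD.2⟩
    hM hJ ((gf.contDiffOn.comp r6 r4).congr F3) (fun z hz => ?_) (A := 2 * A)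
    (ε := min y₀ (1 / 4)) (by positivity) fun z hz hz' => ?_⟩
  · obtain ⟨ζ, h1, -, a, ha, -, a2⟩ := der z hz
    exact a2 ▸ mul_pos (by positivity) (p7 ζ h1)
  · obtain ⟨ζ, h1, h2, a, ha, a1, a2⟩ := der z hz
    have t0 : 0 < ‖z‖ - 1 := sub_pos.2 hz
    have t1 : ‖z‖ - 1 ≤ y₀ := by linarith [min_le_left y₀ (1 / 4)]
    have t2 : ‖z‖ - 1 ≤ 1 / 4 := by linarith [min_le_right y₀ (1 / 4)]
    have k := p8 ζ h1 (by linarith [Real.log_le_sub_one_of_pos (zero_lt_one.trans hz)])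
    have l : Real.log (1 / -ζ.im) ≤ 2 * Real.log (1 / (‖z‖ - 1)) := by
      rw [show 2 * Real.log (1 / (‖z‖ - 1)) = Real.log ((1 / (‖z‖ - 1)) ^ 2) by
        rw [Real.log_pow]; norm_num, one_div_pow]
      refine Real.log_le_log (one_div_pos.2 (by linarith))
        (one_div_le_one_div_of_le (by positivity) ?_)
      have := Real.one_sub_inv_le_log_of_pos (zero_lt_one.trans hz)
      rw [h2]
      refine le_trans ?_ this
      rw [show 1 - ‖z‖⁻¹ = (‖z‖ - 1) / ‖z‖ by field_simp, le_div_iff₀ (by linarith)]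
      nlinarith
    change ‖fderiv ℝ F z‖ ^ 2 ≤ _ * (fderiv ℝ F z).det
    rw [a1, a2, mul_pow, mul_left_comm]
    refine mul_le_mul_of_nonneg_left (k.trans (mul_le_mul_of_nonneg_right ?_ (p7 ζ h1).le))
      (by positivity)
    nlinarith [mul_le_mul_of_nonneg_left l hA]

theorem admissible_of_le {φ : ℝ → ℝ} {A : ℝ} (hφ : ∀ᶠ t in 𝓝[>] (0 : ℝ), 0 < φ t ∧
    φ t ≤ A * t * Real.log (1 / t) ^ (1 / 4 : ℝ)) : Admissible φ :=
  fun _ hΩ h => propE_of_tp hΩ fun _ hγ e => tp_of_threePt hγ e h hφ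

end Pool.Agent.P.MP_7f9008_an
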