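import Pool.Agent.P.MP_7f9008_an.GUpA
import Pool.Agent.P.MP_7f9008_an.Upper

/-! The extension with distortion bounded through a general weight. -/

open MeasureTheory Set Metric Filter Topology Real Complex Pool.Agent.Lib.Sob
open scoped ENNReal

noncomputable section
namespace Pool.Agent.P.MP_7f9008_an

open GlueA

variable {W : ℝ → ℝ}

theorem Gr.le_exp (hW : Gr W) {A : ℝ} (hA : 0 ≤ A) :
    ∀ᶠ L in atTop, A * W (A * L) ≤ Real.exp (L / 2) := by
  obtain ⟨C, hC, H⟩ := hW.small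
  obtain ⟨L₀, H⟩ := eventually_atTop.1 H
  filter_upwards [eventually_ge_atTop (max L₀ (216 * (C * (A + 1) ^ 3)))] with L hL
  rw [max_le_iff] at hL
  have L0 : 0 ≤ L := le_trans (by positivity) hL.2
  have h1 := H ((A + 1) * L) (by nlinarith [mul_nonneg hA L0])
  have h2 : W (A * L) ≤ W ((A + 1) * L) := hW.mono (by nlinarith)
  have h3 : L / 6 ≤ Real.exp (L / 6) := by linarith [Real.add_one_le_exp (L / 6)]
  calc A * W (A * L) ≤ (A + 1) * (C * ((A + 1) * L) ^ 2) :=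
        mul_le_mul (by linarith) (h2.trans h1) (hW.nn _) (by linarith)
    _ = C * (A + 1) ^ 3 * L ^ 2 := by ring
    _ ≤ L / 216 * L ^ 2 := mul_le_mul_of_nonneg_right (by linarith [hL.2]) (sq_nonneg L)
    _ = (L / 6) ^ 3 := by ring
    _ ≤ Real.exp (L / 6) ^ 3 := pow_le_pow_left₀ (by linarith) h3 3
    _ = _ := by rw [← Real.exp_nat_mul]; congr 1; push_cast; ring

theorem locInt_of_pieces' {u : ℂ → ℝ} {δ : ℝ} (hδ : 0 < δ)
    (h1 : IntegrableOn u (ball 0 1)) (h2 : IntegrableOn u (Col δ))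
    (h3 : ∀ S, IsCompact S → S ⊆ (closedBall 0 1)ᶜ → IntegrableOn u S) : LocallyIntegrable u := by
  refine locallyIntegrable_iff.2 fun K hK => ?_
  have h4 : IntegrableOn u (sphere 0 1) := .of_measure_zero (Measure.addHaar_sphere _ _ _)
  have h5 : IntegrableOn u (K \ ball 0 (1 + δ)) :=
    h3 _ (hK.diff isOpen_ball) fun z hz h => hz.2 (closedBall_subset_ball (by linarith) h)
  refine (((h1.union h4).union h2).union h5).mono_set fun z hz => ?_
  by_cases a : z ∈ ball (0 : ℂ) (1 + δ)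
  · by_cases b : z ∈ closedBall (0 : ℂ) 1
    · exact Or.inl (Or.inl (by rwa [ball_union_sphere]))
    · exact Or.inl (Or.inr ⟨a, b⟩)
  · exact Or.inr ⟨hz, a⟩

theorem exists_phiW (hW : Gr W) {Γ : Set ℂ} {γ : ℝ → ℂ} (hγ : Loop γ) (tp : TPW W γ)
    {P₁ P₂ : ℂ → ℂ}
    {K₁ K₂ : ℝ} {τ : ℝ → ℝ} (S₁ : Side Γ P₁ K₁) (S₂ : Side Γ P₂ K₂) (hc : Continuous τ)
    (hm : StrictMono τ) (hp : ∀ x, τ (x + 2 * π) = τ x + 2 * π) (b₁ : ∀ x, P₁ ⟨x, 0⟩ = γ x)
    (b₂ : ∀ x, P₂ ⟨x, 0⟩ = γ (τ x)) (i₁ : InjOn P₁ (Ioo 0 (2 * π) ×ℂ Ioi 0))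
    (i₂ : InjOn P₂ (Ioo 0 (2 * π) ×ℂ Ioi 0))
    (hd : ∀ z z', 0 < z.im → 0 < z'.im → P₁ z ≠ P₂ z') : ∃ Φ : ℂ ≃ₜ ℂ,
    (∀ z, Φ (z + 2 * π) = Φ z + 2 * π) ∧ (∃ B : ℝ, ∀ z, ‖Φ z - z‖ ≤ B) ∧
    (∀ z, z.im = 0 ↔ (Φ z).im = 0) ∧ (∀ z, z.im < 0 ↔ (Φ z).im < 0) ∧
    (∀ x : ℝ, τ (Φ x).re = x) ∧ ContDiffOn ℝ 1 Φ {z | z.im < 0} ∧
    (∀ z : ℂ, z.im < 0 → 0 < (fderiv ℝ Φ z).det) ∧ ∃ A y₀ : ℝ, 0 ≤ A ∧ 0 < y₀ ∧
      ∀ z : ℂ, z.im < 0 → -z.im ≤ y₀ →
        ‖fderiv ℝ Φ z‖ ^ 2 ≤ A * W (A * Real.log (1 / -z.im)) * (fderiv ℝ Φ z).det := by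
  obtain ⟨h, h1, h2, C, y₀, hC, hy₀, H⟩ := exists_dblW hW hγ tp (P := fun b => cond b P₁ P₂)
    (K := fun b => cond b K₁ K₂) (τ := fun b => cond b id τ)
    (fun b => by cases b; exacts [S₂, S₁]) (fun b => by cases b; exacts [hc, continuous_id])
    (fun b => by cases b; exacts [hm.monotone, monotone_id])
    (fun b => by cases b; exacts [hp, fun _ => rfl]) (fun b => by cases b; exacts [b₂, b₁])
    (fun b => by cases b; exacts [i₂, i₁]) fun b b' z z' hz hz' e => by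
      cases b <;> cases b'
      exacts [rfl, absurd e.symm (hd _ _ hz' hz), absurd e (hd _ _ hz hz'), rfl]
  obtain ⟨A, hA, HA⟩ := S₁.log_le
  have H₁ : ∀ x y, 0 < y → y ≤ min y₀ (1 / 2) →
      ∃ Λ, 0 ≤ Λ ∧ Λ ^ 2 ≤ C * W (A * Real.log (1 / y)) ∧ Dbl h x y Λ := fun x y hy hy' => by
    obtain ⟨Λ, l0, l1, l2⟩ := H true x y hy (hy'.trans (min_le_left _ _))
    exact ⟨Λ, l0, l1.trans (mul_le_mul_of_nonneg_left
      (hW.mono (HA x y hy (hy'.trans (min_le_right _ _)))) hC), l2⟩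
  obtain ⟨C₀, hC₀, HL⟩ := hW.small
  obtain ⟨L₀, HL⟩ := eventually_atTop.1 HL
  have H₃ : ∀ x y, 0 < y → y ≤ min (min y₀ (1 / 2)) (Real.exp (-(|L₀| / A))) →
      ∃ Λ, 0 ≤ Λ ∧ Λ ≤ (C * C₀ * A ^ 2 + 1) * Real.log (1 / y) ∧ Dbl h x y Λ :=
    fun x y hy hy' => by
    obtain ⟨Λ, l0, l1, l2⟩ := H₁ x y hy (hy'.trans (min_le_left _ _))
    have a1 := le_log_of_le_exp hy (hy'.trans (min_le_right _ _))
    have a0 : 0 ≤ Real.log (1 / y) := le_trans (by positivity) a1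
    rw [div_le_iff₀ hA] at a1
    have a2 := HL (A * Real.log (1 / y)) (by linarith [le_abs_self L₀])
    refine ⟨Λ, l0, (pow_le_pow_iff_left₀ l0 (by positivity) two_ne_zero).1 (l1.trans ?_), l2⟩
    calc C * W (A * Real.log (1 / y)) ≤ C * (C₀ * (A * Real.log (1 / y)) ^ 2) :=
          mul_le_mul_of_nonneg_left a2 hC
      _ = C * C₀ * A ^ 2 * Real.log (1 / y) ^ 2 := by ring
      _ ≤ (C * C₀ * A ^ 2 + 1) ^ 2 * Real.log (1 / y) ^ 2 := by
          have : 0 ≤ C * C₀ * A ^ 2 := by positivity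
          exact mul_le_mul_of_nonneg_right (by nlinarith) (sq_nonneg _)
      _ = _ := by ring
  have C1 : 1 ≤ C * C₀ * A ^ 2 + 1 := le_add_of_nonneg_left (by positivity)
  have c₁ := circ_of_dblW h1 h2 C1 (by positivity) H₃
  obtain ⟨p, pp, y₁, hy₁, Hd⟩ := decayW h1 C1 (by positivity) H₃
  have pp' : (1 : ℝ) ≤ p := by exact_mod_cast pp
  obtain ⟨e, he, -, He⟩ := hW.pow_le
  have c₂ : Circ fun x => h (τ x) :=
    ⟨c₁.cont.comp hc, c₁.mono.comp hm, fun x => by rw [hp, h2]⟩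
  obtain ⟨Φ, p1, p2, p3, p4, p5, p6, p7⟩ := ba c₁ c₂
  obtain ⟨C₂, y₂, hC₂, hy₂, H₂⟩ := S₂.dl_leW hW (funext b₂ ▸ tp.comp hc hm.monotone hp) he
  obtain ⟨η, hη, Hη⟩ := im_small Φ p1 p3 (lt_min hy₀ hy₂)
  obtain ⟨N, hN⟩ := exists_nat_gt (2 * 10 ^ 8 * K₁)
  set M : ℝ := 2 ^ N * (2 ^ N + 2)
  have hM : 0 < M := by positivity
  refine ⟨Φ, p1, p2, p3, p4, fun x => c₁.mono.injective (p5 x), p6, fun z hz => (p7 z hz).1,
    1000 * C + (|Real.log (C₂ * M ^ 4)| + 4 * p * A), min (min y₀ y₁) (min η (1 / 3)),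
    by positivity, by positivity, fun z hz hz' => ?_⟩
  simp only [le_min_iff] at hz'
  obtain ⟨q1, q2, q3, q4⟩ := p7 z hz
  have hY := (p4 z).1 hz
  have Ys := Hη z hz hz'.2.1
  rw [le_min_iff] at Ys
  set y := -z.im
  set Y := -(Φ z).im
  have hy : 0 < y := neg_pos.2 hz
  have hY' : 0 < Y := neg_pos.2 hY
  obtain ⟨Λ₁, l0, l1, l2⟩ := H₁ z.re y hy (le_min hz'.1.1 (by linarith [hz'.2.2]))
  obtain ⟨Λ₂, m0, m1, m2⟩ := H false (Φ z).re Y hY' Ys.1
  obtain ⟨r1, r2⟩ := H₂ (Φ z).re Y hY' Ys.2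
  have s2 := S₂.s_pos (z := ⟨(Φ z).re, Y⟩) hY'
  have y2 : 0 < y ^ p := by positivity
  have y3 : y ^ p ≤ 1 / 2 :=
    (pow_le_of_le_one hy.le (by linarith [hz'.2.2]) (by omega)).trans (by linarith [hz'.2.2])
  have s1 := S₁.s_pos (z := ⟨z.re, y ^ p⟩) y2
  obtain ⟨x', hx', dx'⟩ := S₁.far hN y2 y3 (x := z.re) (a := z.re) (by linarith) (by linarith)
  have t1 : τ ((Φ z).re - Y) ≤ z.re := c₁.mono.le_iff_le.1 (by simpa [Y] using q2)
  have t2 : z.re + y ^ p ≤ τ ((Φ z).re + Y) := c₁.mono.le_iff_le.1 (by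
    have := Hd z.re y hy hz'.1.2
    rw [show z.re - z.im / 2 = z.re + y / 2 by simp only [y]; ring,
      show (Φ z).re - (Φ z).im = (Φ z).re + Y by simp only [Y]; ring] at q3
    linarith)
  rw [b₁, b₁] at dx'
  rw [funext b₂, ← dl_comp hc hm.monotone (by linarith)] at r2
  have L1 := one_le_log hy hz'.2.2
  have L2 := HA z.re (y ^ p) y2 y3
  rw [← one_div_pow, Real.log_pow] at L2
  simp only [cond_false] at m1
  set σ := infDist (P₂ ⟨(Φ z).re, Y⟩) Γ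
  set σ₁ := infDist (P₁ ⟨z.re, y ^ p⟩) Γ
  set L := Real.log (1 / y)
  have u1 : (σ₁ / M) ^ 4 ≤ C₂ * σ := by
    refine (pow_le_pow_left₀ (by positivity) (dx'.le.trans (dist_le_dl hγ.cont
      ⟨by linarith [hx'.1], by linarith [hx'.2]⟩ ⟨t1, by linarith⟩)) 4).trans (r2.trans ?_)
    rw [mul_assoc]
    exact mul_le_mul_of_nonneg_left (He σ s2 r1) hC₂
  have hC₂' : 0 < C₂ := by
    refine hC₂.lt_of_ne fun e => ?_
    rw [← e, zero_mul] at u1
    exact absurd u1 (not_le.2 (by positivity))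
  have u2 : Real.log (1 / σ) ≤ Real.log (C₂ * M ^ 4) + 4 * Real.log (1 / σ₁) := by
    rw [show 4 * Real.log (1 / σ₁) = Real.log ((1 / σ₁) ^ 4) by rw [Real.log_pow]; norm_num,
      ← Real.log_mul (by positivity) (by positivity)]
    refine Real.log_le_log (by positivity) ?_
    rw [div_pow, div_le_iff₀ (by positivity)] at u1
    rw [one_div_pow, mul_one_div, div_le_div_iff₀ s2 (by positivity)]
    linarith
  have u3 : Real.log (1 / σ) ≤ (|Real.log (C₂ * M ^ 4)| + 4 * p * A) * L := by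
    have := le_mul_of_one_le_right (abs_nonneg (Real.log (C₂ * M ^ 4))) L1
    linarith [le_abs_self (Real.log (C₂ * M ^ 4))]
  refine (q4 Λ₁ Λ₂ l2 m2).trans (mul_le_mul_of_nonneg_right ?_ q1.le)
  set A' := 1000 * C + (|Real.log (C₂ * M ^ 4)| + 4 * p * A)
  have v0 := abs_nonneg (Real.log (C₂ * M ^ 4))
  have v5 : A ≤ p * A := le_mul_of_one_le_left hA.le pp'
  have v1 : W (A * L) ≤ W (A' * L) := hW.mono (mul_le_mul_of_nonneg_right
    (by simp only [A']; linarith) (by linarith))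
  have v2 : W (Real.log (1 / σ)) ≤ W (A' * L) := hW.mono (u3.trans (mul_le_mul_of_nonneg_right
    (by simp only [A']; linarith) (by linarith)))
  have v3 := hW.nn (A' * L)
  have v4 : 1000 * C * W (A' * L) ≤ A' * W (A' * L) :=
    mul_le_mul_of_nonneg_right (by simp only [A']; linarith) v3
  nlinarith [mul_le_mul_of_nonneg_left v1 hC, mul_le_mul_of_nonneg_left v2 hC, sq_nonneg (Λ₁ - Λ₂)]

theorem finDist_glueW (hW : Gr W) (F : ℂ ≃ₜ ℂ) {D₀ : ℂ → ℂ →L[ℝ] ℂ} (h₀ : FinDist (ball 0 1) F D₀) {M : ℝ}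
    (hM : ∀ᵐ x ∂(volume.restrict (ball (0 : ℂ) 1)), Kf D₀ x ≤ M)
    (hJ : ∫⁻ x in ball (0 : ℂ) 1, ENNReal.ofReal |(D₀ x).det| < ⊤)
    (hC : ContDiffOn ℝ 1 F (closedBall 0 1)ᶜ)
    (hdet : ∀ z : ℂ, 1 < ‖z‖ → 0 < (fderiv ℝ F z).det) {A ε : ℝ} (hA : 0 ≤ A) (hε : 0 < ε)
    (hK : ∀ z : ℂ, 1 < ‖z‖ → ‖z‖ < 1 + ε →
      ‖fderiv ℝ F z‖ ^ 2 ≤ A * W (A * Real.log (1 / (‖z‖ - 1))) * (fderiv ℝ F z).det) :
    ∃ D, FinDist univ F D ∧ ∀ g : ℝ → ℝ, Monotone g → (∀ s, 0 ≤ g s) →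
      (∃ B, ∀ᶠ L in atTop, g (A * W (A * L)) ≤ B * Real.exp (L / 2)) →
      LocallyIntegrable fun x => g (Kf D x) := by
  obtain ⟨⟨m1, m2, m3⟩, m4, K₀, mK₀, hK₀, hK₀'⟩ := h₀
  obtain ⟨D, hD⟩ : ∃ D : ℂ → ℂ →L[ℝ] ℂ, D = fun z => if ‖z‖ < 1 then D₀ z else fderiv ℝ F z :=
    ⟨_, rfl⟩
  have hO : IsOpen (closedBall (0 : ℂ) 1)ᶜ := isClosed_closedBall.isOpen_compl
  have out : ∀ z ∈ (closedBall (0 : ℂ) 1)ᶜ, 1 < ‖z‖ := fun z hz => by simpa using hz
  have eIn : ∀ z ∈ ball (0 : ℂ) 1, D z = D₀ z := fun z hz => by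
    rw [hD]; exact if_pos (mem_ball_zero_iff.1 hz)
  have eOut : ∀ z ∈ (closedBall (0 : ℂ) 1)ᶜ, D z = fderiv ℝ F z := fun z hz => by
    rw [hD]; exact if_neg (not_lt.2 (out z hz).le)
  have cF : ContinuousOn (fderiv ℝ F) (closedBall 0 1)ᶜ := hC.continuousOn_fderiv_of_isOpen hO le_rfl
  have cD : ContinuousOn D (closedBall 0 1)ᶜ := cF.congr eOut
  have cJ : ContinuousOn (fun z => (D z).det) (closedBall 0 1)ᶜ :=
    ContinuousLinearMap.continuous_det.comp_continuousOn cD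
  have pJ : ∀ z ∈ (closedBall (0 : ℂ) 1)ᶜ, 0 < (D z).det := fun z hz => by
    rw [eOut z hz]; exact hdet z (out z hz)
  have eK : ∀ z ∈ (closedBall (0 : ℂ) 1)ᶜ, Kf D z = ‖D z‖ ^ 2 / (D z).det := fun z hz =>
    if_pos (pJ z hz)
  have cK : ContinuousOn (Kf D) (closedBall 0 1)ᶜ :=
    ((cD.norm.pow 2).div cJ fun z hz => (pJ z hz).ne').congr eK
  have col : ∀ {p : ℝ → Prop}, (∀ᶠ L in atTop, p L) → ∃ δ : ℝ, 0 < δ ∧ δ ≤ 1 ∧ ∀ z ∈ Col δ,
      p (Real.log (1 / (‖z‖ - 1))) ∧ Kf D z ≤ A * W (A * Real.log (1 / (‖z‖ - 1))) := by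
    intro p hp
    obtain ⟨L₀, HL⟩ := eventually_atTop.1 hp
    refine ⟨min (min ε 1) (Real.exp (-L₀)), by positivity,
      (min_le_left _ _).trans (min_le_right _ _), fun z hz => ?_⟩
    obtain ⟨a, b⟩ := mem_Col.1 hz
    have a1 := min_le_right (min ε 1) (Real.exp (-L₀))
    have a2 := (min_le_left (min ε 1) (Real.exp (-L₀))).trans (min_le_left ε 1)
    refine ⟨HL _ (le_log_of_le_exp (by linarith) (by linarith)), ?_⟩
    rw [eK z hz.2, div_le_iff₀ (pJ z hz.2), eOut z hz.2]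
    exact hK z b (by linarith)
  have iw : ∀ δ ≤ 1, IntegrableOn (fun z : ℂ => (‖z‖ - 1) ^ (-(1 / 2) : ℝ)) (Col δ) :=
    fun δ hδ1 => integrableOn_rpow.mono_set fun z hz => ball_subset_ball (by linarith) hz.1
  have ew : ∀ s : ℝ, 0 < s → Real.exp (Real.log (1 / s) / 2) = s ^ (-(1 / 2) : ℝ) := fun s hs => by
    rw [Real.rpow_def_of_pos hs, one_div s, Real.log_inv]; congr 1; ring
  obtain ⟨δ, hδ, hδ1, bK⟩ := col (hW.le_exp hA)
  have mC := measurableSet_Col δ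
  have aIn : AEStronglyMeasurable D (volume.restrict (ball (0 : ℂ) 1)) :=
    m2.aestronglyMeasurable.congr
      ((ae_restrict_mem measurableSet_ball).mono fun z hz => (eIn z hz).symm)
  have iJ1 : IntegrableOn (fun z => (D z).det) (ball 0 1) := by
    refine IntegrableOn.congr_fun ⟨m4.aestronglyMeasurable, ?_⟩ (fun z hz => by rw [eIn z hz])
      measurableSet_ball
    simpa only [hasFiniteIntegral_iff_norm, Real.norm_eq_abs] using hJ
  have iJ2 : IntegrableOn (fun z => (D z).det) (Col δ) := by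
    refine ⟨(cJ.mono (Col_subset δ)).aestronglyMeasurable mC, ?_⟩
    rw [hasFiniteIntegral_iff_norm]
    refine (lintegral_abs_det_fderiv_le_addHaar_image volume mC (f := F) (fun z hz => ?_)
      F.injective.injOn).trans_lt ?_
    · rw [eOut z hz.2]
      exact ((hC.differentiableOn one_ne_zero z hz.2).differentiableAt
        (hO.mem_nhds hz.2)).hasFDerivAt.hasFDerivWithinAt
    · exact (measure_mono (image_mono fun z hz => ball_subset_closedBall hz.1)).trans_lt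
        ((isCompact_closedBall 0 (1 + δ)).image F.continuous).measure_lt_top
  have iD1 : IntegrableOn D (ball 0 1) := by
    have i1 : IntegrableOn (fun z => 1 + |M| * |(D z).det|) (ball (0 : ℂ) 1) :=
      (integrableOn_const measure_ball_lt_top.ne).add (iJ1.abs.const_mul _)
    refine i1.mono' aIn ?_
    filter_upwards [hM, hK₀', ae_restrict_mem measurableSet_ball] with z a b c
    rw [eIn z c]
    have d : ‖D₀ z‖ ^ 2 ≤ |M| * |(D₀ z).det| := by
      by_cases h : 0 < (D₀ z).det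
      · rw [Kf, if_pos h, div_le_iff₀ h] at a
        rw [abs_of_pos h]
        exact a.trans (mul_le_mul_of_nonneg_right (le_abs_self M) h.le)
      · exact b.trans ((mul_nonpos_of_nonneg_of_nonpos (by linarith [hK₀ z])
          (not_lt.1 h)).trans (by positivity))
    nlinarith [sq_nonneg (‖D₀ z‖ - 1), norm_nonneg (D₀ z)]
  have iD2 : IntegrableOn D (Col δ) := by
    have i1 : IntegrableOn (fun z => (‖z‖ - 1) ^ (-(1 / 2) : ℝ) + (D z).det) (Col δ) :=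
      (iw δ hδ1).add iJ2
    refine i1.mono' ((cD.mono (Col_subset δ)).aestronglyMeasurable mC) ?_
    filter_upwards [ae_restrict_mem mC] with z hz
    have a := mem_Col.1 hz
    have b := (bK z hz).2.trans (bK z hz).1
    have c := pJ z hz.2
    rw [eK z hz.2, div_le_iff₀ c, ew _ (by linarith [a.2])] at b
    exact le_add_of_sq_le_mul b (Real.rpow_nonneg (by linarith [a.2]) _) c.le
  have lD := locInt_of_pieces hδ iD1 iD2 cD
  have w1 : WD 1 (ball 0 1) F D :=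
    ((w11_iff isOpen_ball).1 ⟨m1, m2, m3⟩).congr' (fun _ _ => rfl) fun z hz => (eIn z hz).symm
  have w2 : WD 1 (closedBall 0 1)ᶜ F D :=
    (WD.of_contDiffOn le_rfl hO hC).congr' (fun _ _ => rfl) fun z hz => (eOut z hz).symm
  refine ⟨D, ⟨(w11_iff isOpen_univ).2 (glue F.continuous w1 w2 lD),
    locallyIntegrableOn_univ.2 (locInt_of_pieces hδ iJ1 iJ2 cJ),
    fun z => if ‖z‖ < 1 then K₀ z else max 1 (‖fderiv ℝ F z‖ ^ 2 / (fderiv ℝ F z).det),
    ?_, fun z => ?_, ?_⟩, fun g gm g0 ⟨B, hB⟩ => ?_⟩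
  · exact Measurable.ite (measurableSet_lt measurable_norm measurable_const) mK₀
      (measurable_const.max (((measurable_fderiv ℝ F).norm.pow_const 2).div
        (ContinuousLinearMap.continuous_det.measurable.comp (measurable_fderiv ℝ F))))
  · beta_reduce
    split_ifs
    · exact hK₀ z
    · exact le_max_left _ _
  · rw [Measure.restrict_univ]
    filter_upwards [(ae_restrict_iff' measurableSet_ball).1 hK₀', ae_norm_ne_one] with z a b
    rcases lt_or_gt_of_ne b with h | h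
    · rw [if_pos h, eIn z (mem_ball_zero_iff.2 h)]
      exact a (mem_ball_zero_iff.2 h)
    · rw [if_neg (not_lt.2 h.le), eOut z (by simpa using h), ← div_le_iff₀ (hdet z h)]
      exact le_max_right _ _
  obtain ⟨δ', hδ', hδ1', bK'⟩ := col hB
  have mC' := measurableSet_Col δ'
  have ms : ∀ S ⊆ (closedBall (0 : ℂ) 1)ᶜ, MeasurableSet S →
      AEStronglyMeasurable (fun x => g (Kf D x)) (volume.restrict S) := fun S hS mS =>
    (gm.measurable.comp_aemeasurable ((cK.mono hS).aemeasurable mS)).aestronglyMeasurable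
  refine locInt_of_pieces' hδ' ?_ ?_ fun S hS hS' => ?_
  · have i1 : IntegrableOn (fun _ => g M) (ball (0 : ℂ) 1) :=
      integrableOn_const measure_ball_lt_top.ne
    refine i1.mono' (gm.measurable.comp_aemeasurable
      (measurable_K.comp_aemeasurable aIn.aemeasurable)).aestronglyMeasurable ?_
    filter_upwards [hM, ae_restrict_mem measurableSet_ball] with z a c
    have : Kf D z = Kf D₀ z := by simp only [Kf, eIn z c]
    rw [Real.norm_of_nonneg (g0 _), this]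
    exact gm a
  · refine ((iw δ' hδ1').const_mul B).mono' (ms _ (Col_subset δ') mC') ?_
    filter_upwards [ae_restrict_mem mC'] with z hz
    rw [Real.norm_of_nonneg (g0 _), ← ew _ (by linarith [(mem_Col.1 hz).2])]
    exact (gm (bK' z hz).2).trans (bK' z hz).1
  · obtain ⟨R, hR⟩ := hS.bddAbove_image (cK.mono hS')
    have i1 : IntegrableOn (fun _ => g R) S := integrableOn_const hS.measure_lt_top.ne
    refine i1.mono' (ms S hS' hS.measurableSet) ?_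
    filter_upwards [ae_restrict_mem hS.measurableSet] with z hz
    rw [Real.norm_of_nonneg (g0 _)]
    exact gm (hR (mem_image_of_mem _ hz))

theorem ext_of_tpw (hW : Gr W) {Ω : Set ℂ} (hΩ : IsJordan Ω)
    (htp : ∀ γ, Loop γ → frontier Ω = range γ → TPW W γ) {f₀ : ℂ → ℂ}
    (hf₀ : IsQC f₀ (ball 0 1) Ω) : ∃ F : ℂ ≃ₜ ℂ, EqOn F f₀ (ball 0 1) ∧ ∃ A, 0 ≤ A ∧
      ∃ D, FinDist univ F D ∧ ∀ g : ℝ → ℝ, Monotone g → (∀ s, 0 ≤ g s) →
        (∃ B, ∀ᶠ L in atTop, g (A * W (A * L)) ≤ B * Real.exp (L / 2)) →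
        LocallyIntegrable fun x => g (Kf D x) := by
  obtain ⟨D, M, hM0, hD, hM, hJ, q, im, dis, pos⟩ := hf₀.data hΩ.1 hΩ.2.2.1
  obtain ⟨f, ef, hf⟩ := carath hΩ q im hM0 dis pos
  obtain ⟨g, τ, gc, gb, gm, gf, gi, gs, τc, τm, τp, τe⟩ := exterior hΩ hf
  obtain ⟨lp, fr⟩ := hf.loop
  have m₁ : ∀ z : ℂ, 0 < z.im → exp (z * I) ∈ ball (0 : ℂ) 1 := fun z hz => by
    rw [mem_ball_zero_iff, norm_exp_mul_I]; simpa
  have m₂ : ∀ z : ℂ, 0 < z.im → exp ((starRingEnd ℂ) z * I) ∈ (ball (0 : ℂ) 1)ᶜ := fun z hz => by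
    rw [mem_compl_iff, mem_ball_zero_iff, norm_exp_mul_I]; simpa using hz.le
  obtain ⟨Φ, p1, ⟨B, p2⟩, p3, p4, p5, p6, p7, A, y₀, hA, hy₀, p8⟩ :=
    exists_phiW hW lp (htp _ lp fr) hf.side gs τc τm τp (fun _ => rfl)
      (fun x => by
        rw [τe, show (starRingEnd ℂ) ⟨x, 0⟩ = (x : ℂ) from conj_ofReal x])
      (fun z hz w hw e => eq_of_strip hz.1 hw.1
        (hf.inj (ball_subset_closedBall (m₁ z hz.2)) (ball_subset_closedBall (m₁ w hw.2)) e))
      (fun z hz w hw e => (starRingEnd ℂ).injective (eq_of_strip (by simpa using hz.1)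
        (by simpa using hw.1) (gb.injOn (m₂ z hz.2) (m₂ w hw.2) e)))
      fun z w hz hw e => gb.mapsTo (m₂ w hw) (e ▸ hf.img ▸ mem_image_of_mem f (m₁ z hz))
  obtain ⟨Ψ, r1, r2, r3, r4, r5, r6, r7⟩ := exists_psi Φ p1 p2 p3 p4 p6
  have bb := gb.comp r3
  set F : ℂ → ℂ := fun z => if ‖z‖ ≤ 1 then f z else g (Ψ z)
  have agree : ∀ z : ℂ, ‖z‖ = 1 → f z = g (Ψ z) := fun z hz => by
    have e := norm_mul_exp_arg_mul_I z
    rw [hz, ofReal_one, one_mul] at e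
    have e2 : Φ (arg z : ℝ) = ((Φ (arg z : ℝ)).re : ℂ) :=
      Complex.ext rfl ((p3 _).1 (ofReal_im _))
    rw [← e, r1, e2, ← τe, p5]
  have F1 : EqOn F f (closedBall 0 1) := fun z hz => if_pos (mem_closedBall_zero_iff.1 hz)
  have F2 : EqOn F (g ∘ Ψ) (ball 0 1)ᶜ := fun z hz => by
    simp only [F, Function.comp_apply]
    split_ifs with h
    · exact agree z (le_antisymm h (by simpa using hz))
    · rfl
  have Fc : Continuous F := continuous_if_le continuous_norm continuous_const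
    (hf.cont.mono fun z hz => mem_closedBall_zero_iff.2 hz)
    ((gc.comp r2 r3.mapsTo).mono fun z hz => by simpa using hz) agree
  have Fb : BijOn F (ball 0 1) Ω := by
    refine BijOn.congr ?_ (F1.mono ball_subset_closedBall).symm
    exact hf.img ▸ (hf.inj.mono ball_subset_closedBall).bijOn_image
  have Fb' : BijOn F (ball 0 1)ᶜ Ωᶜ := bb.congr F2.symm
  have Fbij : Function.Bijective F := by
    refine bijOn_univ.1 ?_
    rw [← union_compl_self (ball (0 : ℂ) 1)]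
    nth_rewrite 2 [union_compl_self]
    rw [← union_compl_self Ω]
    refine Fb.union Fb' fun a ha b hb e => ?_
    rcases ha with ha | ha <;> rcases hb with hb | hb
    exacts [Fb.injOn ha hb e, absurd (e ▸ Fb.mapsTo ha) (Fb'.mapsTo hb),
      absurd (e ▸ Fb.mapsTo hb) (Fb'.mapsTo ha), Fb'.injOn ha hb e]
  have Fp : Tendsto F (cocompact ℂ) (cocompact ℂ) := by
    rw [← cobounded_eq_cocompact, ← tendsto_norm_atTop_iff_cobounded, Filter.tendsto_atTop]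
    intro R
    obtain ⟨R', hR'⟩ := gi R
    filter_upwards [eventually_cobounded_le_norm (max 1 (Real.exp B * R'))] with z hz
    rw [max_le_iff] at hz
    rw [F2 (by simpa using hz.1)]
    refine hR' _ (le_trans ?_ (r5 z hz.1))
    rw [Real.exp_neg, ← div_eq_inv_mul, le_div_iff₀' (Real.exp_pos B)]
    exact hz.2
  have Fh : IsHomeomorph F := isHomeomorph_iff_continuous_isClosedMap_bijective.2
    ⟨Fc, (isProperMap_iff_tendsto_cocompact.2 ⟨Fc, Fp⟩).isClosedMap, Fbij⟩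
  have Fe : EqOn F f₀ (ball 0 1) := (F1.mono ball_subset_closedBall).trans ef
  have op : IsOpen (closedBall (0 : ℂ) 1)ᶜ := isClosed_closedBall.isOpen_compl
  have F3 : EqOn F (g ∘ Ψ) (closedBall 0 1)ᶜ := F2.mono (compl_subset_compl.2 ball_subset_closedBall)
  have der : ∀ z : ℂ, 1 < ‖z‖ → ∃ ζ : ℂ, ζ.im < 0 ∧ -ζ.im = Real.log ‖z‖ ∧ ∃ a : ℝ, 0 < a ∧
      ‖fderiv ℝ F z‖ = a * ‖fderiv ℝ Φ ζ‖ ∧
        (fderiv ℝ F z).det = a ^ 2 * (fderiv ℝ Φ ζ).det := fun z hz => by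
    obtain ⟨ζ, rfl, h2⟩ := exists_exp (z := z) (by rintro rfl; norm_num at hz)
    have h3 : ζ.im < 0 := by linarith [Real.log_pos hz]
    obtain ⟨a, ha, a1, a2⟩ := r7 ζ h3
    have hz' : exp (ζ * I) ∈ (closedBall (0 : ℂ) 1)ᶜ := by simpa using hz
    have d := (gf.hasFDerivAt (r4 hz')).comp _
      ((r6.differentiableOn one_ne_zero).differentiableAt (op.mem_nhds hz')).hasFDerivAt
    refine ⟨ζ, h3, h2, ‖deriv g (Ψ (exp (ζ * I)))‖ * a,
      mul_pos (norm_pos_iff.2 (gf.ne _ (r4 hz'))) ha, ?_, ?_⟩ <;>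
      rw [fderiv_eq_of_eqOn op F3 hz', d.fderiv]
    · rw [ContinuousLinearMap.smul_comp, norm_smul, mul_assoc, ← a1]; rfl
    · rw [mul_pow, mul_assoc, ← a2, ← det_smul_one]
      exact LinearMap.det_comp _ _
  refine ⟨Fh.homeomorph F, Fe, 2 * A, by positivity, finDist_glueW hW (Fh.homeomorph F) (D₀ := D)
    ⟨(w11_iff isOpen_ball).2 (((w11_iff isOpen_ball).1 hD.1).congr' Fe.symm fun _ _ => rfl), hD.2⟩
    hM hJ ((gf.contDiffOn.comp r6 r4).congr F3) (fun z hz => ?_) (A := 2 * A) (by positivity)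
    (ε := min y₀ (1 / 4)) (by positivity) fun z hz hz' => ?_⟩
  · obtain ⟨ζ, h1, -, a, ha, -, a2⟩ := der z hz
    exact a2 ▸ mul_pos (by positivity) (p7 ζ h1)
  · obtain ⟨ζ, h1, h2, a, ha, a1, a2⟩ := der z hz
    have t0 : 0 < ‖z‖ - 1 := sub_pos.2 hz
    have t1 : ‖z‖ - 1 ≤ y₀ := by linarith [min_le_left y₀ (1 / 4)]
    have t2 : ‖z‖ - 1 ≤ 1 / 4 := by linarith [min_le_right y₀ (1 / 4)]
    have k := p8 ζ h1 (by linarith [Real.log_le_sub_one_of_pos (zero_lt_one.trans hz)])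
    have l : Real.log (1 / -ζ.im) ≤ 2 * Real.log (1 / (‖z‖ - 1)) := by
      rw [show 2 * Real.log (1 / (‖z‖ - 1)) = Real.log ((1 / (‖z‖ - 1)) ^ 2) by
        rw [Real.log_pow]; norm_num, one_div_pow]
      refine Real.log_le_log (one_div_pos.2 (by linarith))
        (one_div_le_one_div_of_le (by positivity) ?_)
      have := Real.one_sub_inv_le_log_of_pos (zero_lt_one.trans hz)
      rw [h2]
      refine le_trans ?_ this
      rw [show 1 - ‖z‖⁻¹ = (‖z‖ - 1) / ‖z‖ by field_simp, le_div_iff₀ (by linarith)]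
      nlinarith
    change ‖fderiv ℝ F z‖ ^ 2 ≤ _ * (fderiv ℝ F z).det
    rw [a1, a2, mul_pow, mul_left_comm]
    refine mul_le_mul_of_nonneg_left (k.trans (mul_le_mul_of_nonneg_right ?_ (p7 ζ h1).le))
      (by positivity)
    have w := hW.mono ((mul_le_mul_of_nonneg_left l hA).trans_eq
      (show _ = 2 * A * Real.log (1 / (‖z‖ - 1)) by ring))
    nlinarith [mul_le_mul_of_nonneg_left w hA, mul_nonneg hA (hW.nn (2 * A * Real.log (1 / (‖z‖ - 1))))]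

end Pool.Agent.P.MP_7f9008_an
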