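import Pool.Agent.P.MP_7f9008_an.GNum
import Pool.Agent.P.MP_7f9008_an.GUpB
import Pool.Agent.P.MP_7f9008_an.GDefs

/-! The extension theorem for a general gauge, and the two descriptions. -/

open MeasureTheory Set Metric Filter Topology Real

noncomputable section
namespace Pool.Agent.P.MP_7f9008_an

variable {a : ℝ → ℝ}

theorem Gg.upper (ha : Gg a) {φ : ℝ → ℝ} {δ A : ℝ} (hδ : 0 < δ)
    (hm : MonotoneOn φ (Ioc 0 δ)) (hpos : ∀ t ∈ Ioc 0 δ, 0 < φ t) (hA : 0 ≤ A)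
    (hO : ∀ d ∈ Ioc 0 δ, a ((φ d / d) ^ 4) ≤ A * Real.log (1 / d)) {Ω : Set ℂ} (hΩ : IsJordan Ω)
    (h3 : ThreePt φ Ω) {f : ℂ → ℂ} (hf : IsQC f (ball 0 1) Ω) :
    ∃ F : ℂ ≃ₜ ℂ, EqOn F f (ball 0 1) ∧ ∃ D, FinDist univ F D ∧ ∃ C : ℝ, 0 < C ∧
      ∀ l ε B : ℝ, 0 < l → 0 ≤ ε →
        (∀ d ∈ Ioc 0 δ, a ((φ d / d) ^ 4) ≤ ε * Real.log (1 / d) + B) → l * ε * C ≤ 1 →
        LocallyIntegrable fun x => Real.exp (l * a (Kf D x)) := by
  obtain ⟨W, hWd⟩ : ∃ W : ℝ → ℝ,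
    W = fun L => sSup ((fun d => (φ d / d) ^ 4) '' Icc (Real.exp (-L)) δ) := ⟨_, rfl⟩
  have sub : ∀ L, Icc (Real.exp (-L)) δ ⊆ Ioc 0 δ := fun L d hd =>
    ⟨(Real.exp_pos _).trans_le hd.1, hd.2⟩
  have le : ∀ L, ∀ d ∈ Icc (Real.exp (-L)) δ, (φ d / d) ^ 4 ≤ W L := fun L d hd => by
    rw [hWd]
    refine le_csSup ⟨(φ δ / Real.exp (-L)) ^ 4, ?_⟩ (mem_image_of_mem _ hd)
    rintro _ ⟨u, hu, rfl⟩
    have h1 := hpos u (sub L hu)
    have h2 := hm (sub L hu) ⟨hδ, le_rfl⟩ hu.2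
    have h4 := (sub L hu).1
    exact pow_le_pow_left₀ (by positivity)
      (div_le_div₀ (h1.le.trans h2) h2 (Real.exp_pos _) hu.1) 4
  have nn : ∀ L, 0 ≤ W L := fun L => by
    rw [hWd]
    refine Real.sSup_nonneg ?_
    rintro _ ⟨u, -, rfl⟩
    positivity
  have mono : Monotone W := fun L L' h => by
    refine (congrFun hWd L).trans_le (Real.sSup_le ?_ (nn L'))
    rintro _ ⟨u, hu, rfl⟩
    exact le L' u ⟨(Real.exp_le_exp.2 (neg_le_neg h)).trans hu.1, hu.2⟩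
  have key : ∀ ε B : ℝ, 0 ≤ ε → (∀ d ∈ Ioc 0 δ, a ((φ d / d) ^ 4) ≤ ε * Real.log (1 / d) + B) →
      ∀ L, 0 ≤ L → ∃ s, W L ≤ 2 * s ∧ a s ≤ ε * L + (|B| + |a 0|) := by
    intro ε B hε H L hL
    have b1 := abs_nonneg B
    have b2 := abs_nonneg (a 0)
    rcases (nn L).eq_or_lt with e | e
    · exact ⟨0, by linarith, by linarith [le_abs_self (a 0), mul_nonneg hε hL]⟩
    · have e' : W L / 2 < sSup ((fun d => (φ d / d) ^ 4) '' Icc (Real.exp (-L)) δ) :=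
        (half_lt_self e).trans_eq (congrFun hWd L)
      have ne : ((fun d => (φ d / d) ^ 4) '' Icc (Real.exp (-L)) δ).Nonempty := by
        by_contra hn
        rw [not_nonempty_iff_eq_empty.1 hn, Real.sSup_empty] at e'
        linarith
      obtain ⟨_, ⟨d, hd, rfl⟩, h1⟩ := exists_lt_of_lt_csSup ne e'
      have h2 := Real.log_le_log (Real.exp_pos _) hd.1
      rw [Real.log_exp] at h2
      have h4 : Real.log (1 / d) ≤ L := by rw [one_div, Real.log_inv]; linarith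
      beta_reduce at h1
      exact ⟨(φ d / d) ^ 4, by linarith, by
        linarith [H d (sub L hd), mul_le_mul_of_nonneg_left h4 hε, le_abs_self B]⟩
  have hW : Gr W := by
    obtain ⟨T, hT, HT⟩ := ha.grow
    obtain ⟨s₀, H₀⟩ := eventually_atTop.1 HT
    obtain ⟨A', hA'⟩ : ∃ A', A' = A + (|(0 : ℝ)| + |a 0|) := ⟨_, rfl⟩
    refine ⟨mono, nn, 2 * (A' / T) ^ 2 + 2 * |s₀| + 1, by positivity, ?_⟩
    filter_upwards [eventually_ge_atTop 1] with L hL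
    obtain ⟨s, h1, h2⟩ := key A 0 hA (by simpa using hO) L (by linarith)
    refine h1.trans ?_
    have L2 : 1 ≤ L ^ 2 := one_le_pow₀ hL
    have b0 := abs_nonneg s₀
    have b1 : 0 ≤ (A' / T) ^ 2 * L ^ 2 := by positivity
    rcases le_total s (max s₀ 0) with h | h
    · have : max s₀ 0 ≤ |s₀| := max_le (le_abs_self _) b0
      nlinarith [mul_le_mul_of_nonneg_left L2 b0]
    · rw [max_le_iff] at h
      have h4 : √s ≤ A' / T * L := by
        rw [div_mul_eq_mul_div, le_div_iff₀' hT]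
        refine ((H₀ s h.1).trans h2).trans ?_
        rw [hA']
        nlinarith [mul_le_mul_of_nonneg_left hL (show 0 ≤ |(0 : ℝ)| + |a 0| by positivity)]
      have h5 := pow_le_pow_left₀ (Real.sqrt_nonneg _) h4 2
      rw [mul_pow, Real.sq_sqrt h.2] at h5
      nlinarith [mul_nonneg b0 (sq_nonneg L)]
  obtain ⟨F, hF, A₁, hA₁, D, hD, H⟩ := ext_of_tpw hW hΩ (fun γ hγ e =>
    tpw_of_threePt hW hγ e h3 hδ (hm.mono Ioo_subset_Ioc_self) fun t ht =>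
      ⟨hpos t ⟨ht.1, ht.2.le⟩, by
        have h1 := le (Real.log (1 / t)) t ⟨by
          rw [one_div, Real.log_inv, neg_neg, Real.exp_log ht.1], ht.2.le⟩
        have h2 := ht.1
        rwa [div_pow, div_le_iff₀' (by positivity)] at h1⟩) hf
  obtain ⟨C, hC, HC⟩ := ha.scale (2 * A₁)
  obtain ⟨s₁, H₁⟩ := eventually_atTop.1 HC
  refine ⟨F, hF, D, hD, 2 * C * A₁ + 1, by positivity, fun l ε B hl hε hB hle =>
    H (fun s => Real.exp (l * a s))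
      (fun x y h => Real.exp_le_exp.2 (mul_le_mul_of_nonneg_left (ha.mono h) hl.le))
      (fun _ => (Real.exp_pos _).le) ⟨Real.exp (l * C * (|B| + |a 0| + |a s₁|)), ?_⟩⟩
  filter_upwards [eventually_ge_atTop 0] with L hL
  obtain ⟨s, h1, h2⟩ := key ε B hε hB (A₁ * L) (by positivity)
  have h4 : a (max s s₁) ≤ ε * (A₁ * L) + (|B| + |a 0| + |a s₁|) := by
    have : 0 ≤ ε * (A₁ * L) + (|B| + |a 0|) := by positivity
    rcases max_choice s s₁ with e | e <;> rw [e] <;>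
      linarith [abs_nonneg (a s₁), le_abs_self (a s₁)]
  have h5 : a (A₁ * W (A₁ * L)) ≤ C * (ε * (A₁ * L) + (|B| + |a 0| + |a s₁|)) := by
    refine (ha.mono ?_).trans ((H₁ _ (le_max_right s s₁)).trans
      (mul_le_mul_of_nonneg_left h4 hC.le))
    nlinarith [mul_le_mul_of_nonneg_left h1 hA₁, mul_le_mul_of_nonneg_left (le_max_left s s₁) hA₁]
  rw [← Real.exp_add, Real.exp_le_exp]
  have h6 : l * ε * (2 * C * A₁) ≤ 1 := by nlinarith [mul_nonneg hl.le hε]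
  nlinarith [mul_le_mul_of_nonneg_left h5 hl.le, mul_le_mul_of_nonneg_right h6 hL]

theorem Kf_nonneg (D : ℂ → ℂ →L[ℝ] ℂ) (x : ℂ) : 0 ≤ Kf D x := by
  unfold Kf
  split_ifs with h
  · positivity
  · exact zero_le_one

theorem gg_max {𝒜 : ℝ → ℝ} (h1 : MonotoneOn 𝒜 (Ici 0))
    (h2 : ∃ C, ∀ᶠ s in atTop, 𝒜 (2 * s) ≤ C * 𝒜 s)
    (h3 : ∃ c > 0, ∀ᶠ s in atTop, c * √s ≤ 𝒜 s) : Gg fun s => 𝒜 (max s 0) := by
  refine ⟨fun x y h => h1 (mem_Ici.2 (le_max_right x 0)) (mem_Ici.2 (le_max_right y 0))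
    (max_le_max h le_rfl),
    h2.imp fun C hC => ?_, h3.imp fun c hc => ⟨hc.1, ?_⟩⟩
  · filter_upwards [hC, eventually_ge_atTop 0] with s hs h0
    rwa [max_eq_left h0, max_eq_left (by linarith)]
  · filter_upwards [hc.2, eventually_ge_atTop 0] with s hs h0
    rwa [max_eq_left h0]

theorem exists_Ioc {t₀ : ℝ} (ht₀ : 0 < t₀) {p : ℝ → Prop} (h : ∀ᶠ t in 𝓝[>] (0 : ℝ), p t) :
    ∃ δ, 0 < δ ∧ δ ≤ 1 ∧ Ioc 0 δ ⊆ Ioo 0 t₀ ∧ ∀ t ∈ Ioc 0 δ, p t := by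
  obtain ⟨u, u0, hu⟩ := (mem_nhdsGT_iff_exists_Ioo_subset).1 h
  have u0 : 0 < u := u0
  refine ⟨min 1 (min (t₀ / 2) (u / 2)), by positivity, min_le_left _ _, fun t ht => ⟨ht.1, ?_⟩,
    fun t ht => hu ⟨ht.1, ?_⟩⟩ <;> have := ht.2 <;> simp only [le_min_iff] at this <;>
    linarith [this.2.1, this.2.2]

theorem log_nonneg_of_mem {d δ : ℝ} (h1 : δ ≤ 1) (hd : d ∈ Ioc 0 δ) : 0 ≤ Real.log (1 / d) :=
  Real.log_nonneg (by rw [le_div_iff₀ hd.1]; linarith [hd.2])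

variable {φ : ℝ → ℝ} {t₀ : ℝ}

theorem vacuous (ht₀ : 0 < t₀) (hpos : ∀ t ∈ Ioo 0 t₀, 0 < φ t)
    (h : ∀ c : ℝ, 0 < c → ∃ᶠ t in 𝓝[>] (0 : ℝ), φ t < c * t) {Ω : Set ℂ} (hΩ : IsJordan Ω) :
    ¬ ThreePt φ Ω := fun h3 => by
  obtain ⟨c, hc, h4⟩ := h3.lower hΩ (mem_of_superset (Ioo_mem_nhdsGT ht₀) hpos)
  obtain ⟨t, h5, h6⟩ := ((h c hc).and_eventually h4).exists
  exact absurd h5 (not_lt.2 h6)

theorem Gg.admSome (ha : Gg a) (ht₀ : 0 < t₀) (hpos : ∀ t ∈ Ioo 0 t₀, 0 < φ t)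
    (hmono : MonotoneOn φ (Ioo 0 t₀)) : AdmSome a φ ↔
      (∀ c : ℝ, 0 < c → ∃ᶠ t in 𝓝[>] (0 : ℝ), φ t < c * t) ∨
        ∃ A : ℝ, ∀ᶠ t in 𝓝[>] (0 : ℝ), a ((φ t / t) ^ 4) ≤ A * Real.log (1 / t) := by
  constructor
  · intro h
    by_contra hn
    simp only [not_or, not_forall, not_frequently, not_lt, not_exists, not_eventually, not_le,
      exists_prop] at hn
    obtain ⟨⟨c, hc, h1⟩, h2⟩ := hn
    obtain ⟨Ω, hΩ, h3, f, hf, H⟩ := ha.lower ht₀ hpos hmono hc h1 (θ := fun j => j + 1)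
      (fun j => by positivity) fun j => h2 _
    obtain ⟨F, hF, D, hD, l, hl, hint⟩ := h Ω hΩ h3 f hf
    obtain ⟨M, hM⟩ := H F hF D hD l hl
    have := hM l ((|M| + 1) / l) le_rfl (by positivity) (((tendsto_natCast_atTop_atTop (R := ℝ)
      ).eventually_ge_atTop ((|M| + 1) / l)).mono fun j hj => by linarith) hint
    rw [mul_div_cancel₀ _ hl.ne'] at this
    linarith [le_abs_self M]
  · rintro (h | ⟨A, h⟩) Ω hΩ h3
    · exact absurd h3 (vacuous ht₀ hpos h hΩ)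
    · intro f hf
      obtain ⟨δ, hδ, δ1, hs, H⟩ := exists_Ioc ht₀ h
      have H' : ∀ d ∈ Ioc 0 δ, a ((φ d / d) ^ 4) ≤ |A| * Real.log (1 / d) := fun d hd =>
        (H d hd).trans (mul_le_mul_of_nonneg_right (le_abs_self A) (log_nonneg_of_mem δ1 hd))
      obtain ⟨F, hF, D, hD, C, hC, HC⟩ := ha.upper hδ (hmono.mono hs) (fun t ht => hpos t (hs ht))
        (abs_nonneg A) H' hΩ h3 hf
      refine ⟨F, hF, D, hD, 1 / (|A| * C + 1), by positivity,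
        HC _ |A| 0 (by positivity) (abs_nonneg A) (by simpa using H') ?_⟩
      rw [mul_assoc, one_div, inv_mul_le_iff₀ (by positivity)]; linarith

theorem Gg.admAll (ha : Gg a) (ht₀ : 0 < t₀) (hpos : ∀ t ∈ Ioo 0 t₀, 0 < φ t)
    (hmono : MonotoneOn φ (Ioo 0 t₀)) : AdmAll a φ ↔
      (∀ c : ℝ, 0 < c → ∃ᶠ t in 𝓝[>] (0 : ℝ), φ t < c * t) ∨
        ∀ ε : ℝ, 0 < ε → ∀ᶠ t in 𝓝[>] (0 : ℝ), a ((φ t / t) ^ 4) ≤ ε * Real.log (1 / t) := by
  constructor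
  · intro h
    by_contra hn
    simp only [not_or, not_forall, not_frequently, not_lt, not_eventually, not_le,
      exists_prop] at hn
    obtain ⟨⟨c, hc, h1⟩, ε, hε, h2⟩ := hn
    obtain ⟨Ω, hΩ, h3, f, hf, H⟩ := ha.lower ht₀ hpos hmono hc h1 (θ := fun _ => ε)
      (fun _ => hε) fun _ => h2
    obtain ⟨F, hF, D, hD, hint⟩ := h Ω hΩ h3 f hf
    obtain ⟨M, hM⟩ := H F hF D hD 1 one_pos
    have := hM (1 + |M| / ε) ε (le_add_of_nonneg_right (by positivity)) hε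
      (Eventually.of_forall fun _ => le_rfl) (hint _ (by positivity))
    rw [add_mul, div_mul_cancel₀ _ hε.ne'] at this
    linarith [le_abs_self M]
  · rintro (h | h) Ω hΩ h3
    · exact absurd h3 (vacuous ht₀ hpos h hΩ)
    · intro f hf
      obtain ⟨δ, hδ, δ1, hs, H⟩ := exists_Ioc ht₀ (h 1 one_pos)
      obtain ⟨F, hF, D, hD, C, hC, HC⟩ := ha.upper hδ (hmono.mono hs) (fun t ht => hpos t (hs ht))
        zero_le_one H hΩ h3 hf
      refine ⟨F, hF, D, hD, fun l hl => ?_⟩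
      have e0 : 0 < 1 / (l * C) := by positivity
      obtain ⟨η, hη, -, -, Hη⟩ := exists_Ioc ht₀ (h _ e0)
      refine HC l (1 / (l * C)) |a ((φ δ / η) ^ 4)| hl e0.le (fun d hd => ?_) (by
        field_simp; exact le_rfl)
      rcases le_total d η with h1 | h1
      · linarith [Hη d ⟨hd.1, h1⟩, abs_nonneg (a ((φ δ / η) ^ 4))]
      · have p1 := hpos d (hs hd)
        have p2 := hmono (hs hd) (hs ⟨hδ, le_rfl⟩) hd.2
        have p3 := hd.1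
        have p4 := ha.mono (pow_le_pow_left₀ (by positivity)
          (div_le_div₀ (p1.le.trans p2) p2 hη h1) 4)
        linarith [le_abs_self (a ((φ δ / η) ^ 4)), mul_nonneg e0.le (log_nonneg_of_mem δ1 hd)]

end Pool.Agent.P.MP_7f9008_an
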