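import Pool.Agent.P.MP_7f9008_an.GLow

/-! Choice of the gadget sizes for a general gauge. -/

open MeasureTheory Set Metric Filter Topology Real

noncomputable section
namespace Pool.Agent.P.MP_7f9008_an

/-- A gauge: nondecreasing, doubling, growing at least like the square root. -/
structure Gg (a : ℝ → ℝ) : Prop where
  mono : Monotone a
  dbl : ∃ C, ∀ᶠ s in atTop, a (2 * s) ≤ C * a s
  grow : ∃ T > 0, ∀ᶠ s in atTop, T * √s ≤ a s

variable {a : ℝ → ℝ}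

theorem Gg.scale (ha : Gg a) (c : ℝ) : ∃ C, 0 < C ∧ ∀ᶠ s in atTop, a (c * s) ≤ C * a s := by
  obtain ⟨C, hC⟩ := ha.dbl
  obtain ⟨T, hT, HT⟩ := ha.grow
  have key : ∀ n : ℕ, ∀ᶠ s in atTop, a (2 ^ n * s) ≤ max C 1 ^ n * a s := by
    intro n
    induction n with
    | zero => simp
    | succ n ih =>
      filter_upwards [(tendsto_id.const_mul_atTop two_pos).eventually ih, hC, HT]
        with s h1 h2 h3
      replace h3 : 0 ≤ a s := le_trans (by positivity) h3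
      have h4 : a (2 * s) ≤ max C 1 * a s :=
        h2.trans (mul_le_mul_of_nonneg_right (le_max_left _ _) h3)
      rw [pow_succ, pow_succ, mul_assoc, mul_assoc]
      exact h1.trans (mul_le_mul_of_nonneg_left h4 (by positivity))
  obtain ⟨n, hn⟩ := pow_unbounded_of_one_lt c (one_lt_two (α := ℝ))
  refine ⟨max C 1 ^ n, by positivity, ?_⟩
  filter_upwards [key n, eventually_ge_atTop 0] with s h1 h2
  exact (ha.mono (mul_le_mul_of_nonneg_right hn.le h2)).trans h1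

theorem Gg.num (ha : Gg a) {l₁ : ℝ} (hl₁ : 0 < l₁) : ∃ C : ℝ, 0 < C ∧
    ∀ {l c θ : ℝ} (J : ℝ) (M : ℕ), l₁ ≤ l → 0 < c → 0 < θ → C * M < l * θ →
      ∀ᶠ m : ℕ in atTop, ∀ t : ℝ, 0 < t → θ * Real.log (1 / t) ≤ a ((m : ℝ) ^ 4) →
        ∃ N : ℕ, 1 ≤ N ∧ N ≤ m ^ 2 / 2 ∧ ∃ q : ℝ, 0 ≤ q ∧
        (∀ s, (m : ℝ) ^ 2 * N / 16 ≤ s → s ≤ q * Real.exp (l * a s)) ∧
        ¬ (c * t ^ M / 2 ^ N) ^ 2 ≤ 2 * (q * J) := by
  obtain ⟨T, hT, HT⟩ := ha.grow
  obtain ⟨n, hn⟩ := exists_nat_ge (max 2 (100 / (l₁ * T)))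
  rw [max_le_iff, div_le_iff₀ (by positivity)] at hn
  have n2 : 2 ≤ n := by exact_mod_cast hn.1
  have n0 : (0 : ℝ) < n := by linarith [hn.1]
  obtain ⟨C, hC, H⟩ := ha.scale (36 * n ^ 2)
  refine ⟨8 * C, by positivity, fun {l c θ} J M hl1 hc hθ hlt => ?_⟩
  have hl : 0 < l := hl₁.trans_le hl1
  set B := |Real.log (2 * J) - 2 * Real.log c| with hB
  have B0 : 0 ≤ B := abs_nonneg _
  obtain ⟨s₀, H₀⟩ := eventually_atTop.1 ((H.and HT).and (eventually_ge_atTop ((8 / (l * T)) ^ 4)))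
  filter_upwards [eventually_ge_atTop n, (tendsto_natCast_atTop_atTop (R := ℝ)).eventually_ge_atTop
    (max (36 * n ^ 2 * |s₀|) (n ^ 2 * B))] with m hmn hm t ht hlog
  rw [max_le_iff] at hm
  have m2 : (2 : ℝ) ≤ m := by exact_mod_cast n2.trans hmn
  have nn : n ^ 2 ≤ m ^ 2 := Nat.pow_le_pow_left hmn 2
  have n4 : 2 ^ 2 ≤ n ^ 2 := Nat.pow_le_pow_left n2 2
  set N := m ^ 2 / n ^ 2 with hN
  have N1 : 1 ≤ N := (Nat.one_le_div_iff (by omega)).2 nn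
  have hN1 : (N : ℝ) * n ^ 2 ≤ (m : ℝ) ^ 2 := by exact_mod_cast Nat.div_mul_le_self (m ^ 2) (n ^ 2)
  have hN2 : (m : ℝ) ^ 2 ≤ 2 * N * n ^ 2 := by
    have h1 : m ^ 2 < (N + 1) * n ^ 2 := (Nat.div_lt_iff_lt_mul (by omega)).1 (Nat.lt_succ_self _)
    have h2 : (m : ℝ) ^ 2 < (N + 1) * n ^ 2 := by exact_mod_cast h1
    have h3 : (1 : ℝ) ≤ N := by exact_mod_cast N1
    nlinarith [sq_nonneg (n : ℝ)]
  set k := (m : ℝ) ^ 2 * N / 16 with hk
  obtain ⟨u, hu⟩ : ∃ u : ℝ, u = (m : ℝ) ^ 2 / (6 * n) := ⟨_, rfl⟩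
  have u0 : 0 < u := by rw [hu]; positivity
  have u1 : 6 * n * u = (m : ℝ) ^ 2 := by rw [hu]; field_simp
  have u2 : 36 * n ^ 2 * u ^ 2 = (m : ℝ) ^ 4 := by
    rw [show (m : ℝ) ^ 4 = ((m : ℝ) ^ 2) ^ 2 by ring, ← u1]; ring
  have k1 : u ^ 2 ≤ k := by
    refine le_of_mul_le_mul_left ?_ (show (0 : ℝ) < 36 * n ^ 2 by positivity)
    rw [u2, hk]
    nlinarith [mul_le_mul_of_nonneg_left hN2 (sq_nonneg (m : ℝ)),
      show (0 : ℝ) ≤ (m : ℝ) ^ 2 * N * n ^ 2 by positivity]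
  have p2 : (m : ℝ) ≤ (m : ℝ) ^ 2 := le_self_pow₀ (by linarith) (by norm_num)
  have p4 : (m : ℝ) ≤ (m : ℝ) ^ 4 := le_self_pow₀ (by linarith) (by norm_num)
  have k2 : s₀ ≤ u ^ 2 := by
    refine (le_abs_self _).trans (le_of_mul_le_mul_left ?_
      (show (0 : ℝ) < 36 * n ^ 2 by positivity))
    rw [u2]; linarith [hm.1]
  refine ⟨N, N1, Nat.div_le_div_left (by omega) two_pos, Real.exp (-(l * a k / 2)),
    (Real.exp_pos _).le, fun s hs => ?_, fun hle => ?_⟩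
  · obtain ⟨⟨-, h1⟩, h3⟩ := H₀ s (by linarith)
    have h2 := ha.mono hs
    have s0 : 0 < s := lt_of_lt_of_le (by positivity) h3
    rw [div_pow, div_le_iff₀ (by positivity)] at h3
    calc s ≤ (l * T / 8) ^ 4 * s ^ 2 := by
          rw [div_pow, div_mul_eq_mul_div, le_div_iff₀ (by positivity)]; nlinarith
      _ = (l * T * √s / 8) ^ 4 := by
          rw [show (l * T * √s / 8) ^ 4 = (l * T / 8) ^ 4 * (√s ^ 2) ^ 2 by ring,
            Real.sq_sqrt s0.le]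
      _ ≤ Real.exp (l * T * √s / 8) ^ 4 := pow_le_pow_left₀ (by positivity)
          (by linarith [Real.add_one_le_exp (l * T * √s / 8)]) 4
      _ = Real.exp (l * (T * √s) / 2) := by rw [← Real.exp_nat_mul]; congr 1; push_cast; ring
      _ ≤ _ := by
          rw [← Real.exp_add, Real.exp_le_exp]
          linarith [mul_le_mul_of_nonneg_left h1 hl.le, mul_le_mul_of_nonneg_left h2 hl.le]
  · have J0 : 0 < J := by
      have : 0 < Real.exp (-(l * a k / 2)) * J := by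
        have : 0 < (c * t ^ M / 2 ^ N) ^ 2 := by positivity
        linarith
      exact (mul_pos_iff_of_pos_left (Real.exp_pos _)).1 this
    have h1 := Real.log_le_log (by positivity) hle
    rw [mul_left_comm, Real.log_mul (by positivity) (by positivity), Real.log_exp, Real.log_pow,
      Real.log_div (by positivity) (by positivity), Real.log_mul (by positivity) (by positivity),
      Real.log_pow, Real.log_pow] at h1
    rw [one_div, Real.log_inv] at hlog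
    have h3 : Real.log 2 ≤ 1 := by linarith [Real.log_two_lt_d9]
    have h4 : Real.log (2 * J) - 2 * Real.log c ≤ B := le_abs_self _
    have h5 : (N : ℝ) * Real.log 2 ≤ N := mul_le_of_le_one_right (Nat.cast_nonneg _) h3
    obtain ⟨⟨h6, h7⟩, -⟩ := H₀ _ k2
    rw [u2] at h6
    rw [Real.sqrt_sq u0.le] at h7
    have h8 := ha.mono k1
    have Y0 : 0 < a k := lt_of_lt_of_le (by positivity) (h7.trans h8)
    have h9 : B + 2 * N ≤ l * a k / 4 := by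
      have a1 : (B + 2 * N) * n ≤ 18 * u := by
        refine le_of_mul_le_mul_left ?_ n0
        have a0 : n * (18 * u) = 3 * (m : ℝ) ^ 2 := by rw [← u1]; ring
        linarith [hm.2]
      have a2 : 100 * u ≤ n * (l * a k) := by
        calc 100 * u ≤ n * (l₁ * T) * u := by gcongr; exact hn.2
          _ = n * (l₁ * (T * u)) := by ring
          _ ≤ _ := by gcongr; exact h7.trans h8
      refine le_of_mul_le_mul_left ?_ n0
      linarith
    have h10 : l * a k / 4 ≤ 2 * M * -Real.log t := by push_cast at h1; linarith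
    have h11 : θ * -Real.log t ≤ C * a k :=
      hlog.trans (h6.trans (mul_le_mul_of_nonneg_left h8 hC.le))
    have h12 := mul_le_mul_of_nonneg_left h10 hθ.le
    have h13 := mul_le_mul_of_nonneg_left h11 (show (0 : ℝ) ≤ 2 * M by positivity)
    linarith [mul_lt_mul_of_pos_right hlt Y0]

theorem Gg.step (ha : Gg a) {κ : ℝ} (hκ : 0 < κ) : ∃ C : ℝ, 0 < C ∧ ∀ {φ : ℝ → ℝ} {t₀ θ : ℝ},
    0 < t₀ → (∀ t ∈ Ioo 0 t₀, 0 < φ t) → 0 < θ →
    (∃ᶠ t in 𝓝[>] (0 : ℝ), θ * Real.log (1 / t) < a ((φ t / t) ^ 4)) → ∀ (j : ℕ) (ε : ℝ),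
      ∃ (v : ℝ) (m : ℕ), 0 < ε → 0 < v ∧ v < t₀ ∧ 1 ≤ m ∧ 8 * m * (κ * v) ≤ ε ∧
        8 * m * (κ * v) ≤ φ v ∧ j ≤ m ∧
          θ * Real.log (1 / (8 * m * (κ * v))) ≤ C * a ((m : ℝ) ^ 4) := by
  obtain ⟨C, hC, H⟩ := ha.scale ((16 * κ) ^ 4)
  refine ⟨C, hC, fun {φ t₀ θ} ht₀ hpos hθ h2 j ε => ?_⟩
  by_cases hε : 0 < ε
  swap
  · exact ⟨0, 0, fun h => absurd h hε⟩
  obtain ⟨T, hT, HT⟩ := ha.grow
  obtain ⟨s₀, H₀⟩ := eventually_atTop.1 (H.and HT)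
  obtain ⟨n, hn⟩ := exists_nat_ge (max (max s₀ 1) j)
  simp only [max_le_iff] at hn
  set X := max 2 (8 * κ * n)
  have e1 : ∀ᶠ v in 𝓝[>] (0 : ℝ), v < min (min t₀ (min ε (T / (2 * θ)) ^ 2))
      (min (min 1 (1 / (|s₀| + 1)))
      (Real.exp (-(a (X ^ 4) / θ)))) := nhdsWithin_le_nhds (gt_mem_nhds (by positivity))
  obtain ⟨v, ⟨hv, hv1⟩, hv0⟩ := ((h2.and_eventually e1).and_eventually self_mem_nhdsWithin).exists
  have hv0 : 0 < v := hv0
  simp only [lt_min_iff] at hv1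
  obtain ⟨⟨a1, a2⟩, ⟨a3, a4⟩, a5⟩ := hv1
  have φ0 := hpos v ⟨hv0, a1⟩
  have r0 : 0 < √v := Real.sqrt_pos.2 hv0
  have r1 : √v ≤ min ε (T / (2 * θ)) := Real.sqrt_le_iff.2 ⟨by positivity, a2.le⟩
  rw [le_min_iff, le_div_iff₀ (by positivity)] at r1
  set x := min (φ v / v) (1 / √v) with hx
  have x0 : 0 < x := by positivity
  have b1 : θ * Real.log (1 / v) ≤ a (x ^ 4) := by
    rcases min_choice (φ v / v) (1 / √v) with e | e <;> rw [hx, e]
    · exact hv.le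
    · have e4 : (1 / √v) ^ 4 = (1 / v) ^ 2 := by
        rw [show 4 = 2 * 2 from rfl, pow_mul, div_pow, Real.sq_sqrt hv0.le, one_pow]
      have c1 : 1 ≤ 1 / v := by rw [le_div_iff₀ hv0]; linarith
      have c2 : |s₀| + 1 ≤ 1 / v := by
        rw [lt_div_iff₀ (by positivity)] at a4
        rw [le_div_iff₀ hv0]; linarith
      have c3 := (H₀ ((1 / v) ^ 2) (by nlinarith [le_abs_self s₀])).2
      rw [Real.sqrt_sq (by positivity)] at c3
      rw [e4]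
      refine le_trans ?_ c3
      have c4 : Real.log (1 / v) = 2 * Real.log (1 / √v) := by
        rw [one_div, one_div, Real.log_inv, Real.log_inv, Real.log_sqrt hv0.le]; ring
      have c5 := Real.log_le_sub_one_of_pos (show 0 < 1 / √v by positivity)
      calc θ * Real.log (1 / v) ≤ θ * (2 * (1 / √v)) :=
            mul_le_mul_of_nonneg_left (by linarith) hθ.le
        _ = √v * (2 * θ) * (1 / √v ^ 2) := by field_simp
        _ ≤ T * (1 / v) := by rw [Real.sq_sqrt hv0.le]; gcongr; exact r1.2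
  have b2 : X ≤ x := by
    by_contra hn
    have c1 := ha.mono (pow_le_pow_left₀ x0.le (not_le.1 hn).le 4)
    have c2 := Real.log_lt_log hv0 a5
    rw [Real.log_exp, lt_neg, div_lt_iff₀ hθ] at c2
    rw [one_div, Real.log_inv] at b1
    linarith
  have b3 : 2 ≤ x := (le_max_left _ _).trans b2
  have b4 : (n : ℝ) ≤ x / (8 * κ) := by
    rw [le_div_iff₀ (by positivity)]; linarith [(le_max_right _ _).trans b2]
  have b5 : n ≤ ⌊x / (8 * κ)⌋₊ := Nat.le_floor b4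
  have b6 : (⌊x / (8 * κ)⌋₊ : ℝ) ≤ x / (8 * κ) := Nat.floor_le (by positivity)
  have b7 : x / (8 * κ) < ⌊x / (8 * κ)⌋₊ + 1 := Nat.lt_floor_add_one _
  generalize ⌊x / (8 * κ)⌋₊ = m at b5 b6 b7
  have b8 : (n : ℝ) ≤ m := by exact_mod_cast b5
  have m1 : (1 : ℝ) ≤ m := by linarith [hn.1.2]
  rw [le_div_iff₀ (by positivity)] at b6
  rw [div_lt_iff₀ (by positivity)] at b7
  have b9 : x ≤ 16 * κ * m := by nlinarith
  have c1 : 8 * (m : ℝ) * (κ * v) ≤ x * v := by nlinarith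
  refine ⟨v, m, fun _ => ⟨hv0, a1, by exact_mod_cast m1, c1.trans ?_, c1.trans ?_,
    by exact_mod_cast hn.2.trans b8, ?_⟩⟩
  · calc x * v ≤ 1 / √v * v := by gcongr; exact min_le_right _ _
      _ = √v := by rw [one_div, inv_mul_eq_div, Real.div_sqrt]
      _ ≤ ε := r1.1
  · rw [← le_div_iff₀ hv0]; exact min_le_left _ _
  · have c2 : Real.log (1 / (8 * m * (κ * v))) ≤ Real.log (1 / v) :=
      Real.log_le_log (by positivity) (one_div_le_one_div_of_le hv0 (by nlinarith))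
    have c3 := (H₀ ((m : ℝ) ^ 4)
      ((hn.1.1.trans b8).trans (le_self_pow₀ m1 (by norm_num)))).1
    rw [← mul_pow] at c3
    exact (mul_le_mul_of_nonneg_left c2 hθ.le).trans
      (b1.trans ((ha.mono (pow_le_pow_left₀ x0.le b9 4)).trans c3))

theorem Gg.lower (ha : Gg a) {φ : ℝ → ℝ} {t₀ : ℝ} (ht₀ : 0 < t₀) (hpos : ∀ t ∈ Ioo 0 t₀, 0 < φ t)
    (hm : MonotoneOn φ (Ioo 0 t₀)) {c : ℝ} (hc : 0 < c) (h1 : ∀ᶠ t in 𝓝[>] (0 : ℝ), c * t ≤ φ t)
    {θ : ℕ → ℝ} (hθ : ∀ j, 0 < θ j)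
    (h2 : ∀ j, ∃ᶠ t in 𝓝[>] (0 : ℝ), θ j * Real.log (1 / t) < a ((φ t / t) ^ 4)) :
    ∃ Ω, IsJordan Ω ∧ ThreePt φ Ω ∧ ∃ f, IsQC f (ball 0 1) Ω ∧ ∀ F : ℂ ≃ₜ ℂ, EqOn F f (ball 0 1) →
      ∀ D, FinDist univ F D → ∀ l₁ : ℝ, 0 < l₁ → ∃ M : ℝ, ∀ l θ₀ : ℝ, l₁ ≤ l → 0 < θ₀ →
        (∀ᶠ j in atTop, θ₀ ≤ θ j) →
          LocallyIntegrable (fun x => Real.exp (l * a (Kf D x))) → l * θ₀ ≤ M := by
  obtain ⟨κ, hκ, hdom⟩ := exists_dom
  obtain ⟨C, hC, hstep⟩ := ha.step hκ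
  choose V M h using fun j => hstep ht₀ hpos (hθ j) (h2 j) j
  obtain ⟨ε, e0, e1⟩ : ∃ ε : ℕ → ℝ, ε 0 = 1 / 1000 ∧
      ∀ j, ε (j + 1) = 8 * M j (ε j) * (κ * V j (ε j)) / 100 :=
    ⟨fun j => Nat.rec (1 / 1000) (fun j e => 8 * M j e * (κ * V j e) / 100) j, rfl, fun _ => rfl⟩
  have hp : ∀ j, 0 < ε j := by
    intro j
    induction j with
    | zero => rw [e0]; norm_num
    | succ j ih =>
      obtain ⟨a1, -, a2, -⟩ := h j _ ih
      have : (0 : ℝ) < M j (ε j) := by exact_mod_cast a2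
      rw [e1]; positivity
  obtain ⟨t, v, m, hs, hv⟩ : ∃ (t v : ℕ → ℝ) (m : ℕ → ℕ), Seq t (fun j => κ * v j) m ∧ ∀ j,
      0 < v j ∧ v j < t₀ ∧ t j ≤ φ (v j) ∧ j ≤ m j ∧
        θ j * Real.log (1 / t j) ≤ C * a ((m j : ℝ) ^ 4) := by
    refine ⟨fun j => 8 * M j (ε j) * (κ * V j (ε j)), fun j => V j (ε j), fun j => M j (ε j),
      ⟨fun j => mul_pos hκ (h j _ (hp j)).1, fun j => (h j _ (hp j)).2.2.1, fun j => rfl,
        e0 ▸ (h 0 _ (hp 0)).2.2.2.1, fun j => ?_⟩, fun j => ?_⟩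
    · have := (h (j + 1) _ (hp (j + 1))).2.2.2.1
      have := e1 j
      linarith
    · obtain ⟨a1, a2, -, -, a3, a4, a5⟩ := h j _ (hp j)
      exact ⟨a1, a2, a3, a4, a5⟩
  obtain ⟨α, β, Ω, hg, hJ, hcc, M₀, δ, δ0, H⟩ := hdom t _ m hs
  obtain ⟨f, hf, Hf⟩ := lower_core hs hg hJ hcc
  refine ⟨Ω, hJ, ?_, f, hf, fun F hF D hD l₁ hl₁ => ?_⟩
  · obtain ⟨u, u0, hu⟩ := (mem_nhdsGT_iff_exists_Ioo_subset).1 h1
    have u0 : 0 < u := u0
    refine ⟨M₀ * (1 / c + 1), min δ (min t₀ u), by positivity, fun P hP Q hQ hne hd => ?_⟩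
    simp only [lt_min_iff] at hd
    have d0 : 0 < dist P Q := dist_pos.2 hne
    have a1 : c * dist P Q ≤ φ (dist P Q) := hu ⟨d0, hd.2.2⟩
    have a2 : 0 ≤ φ (dist P Q) := le_trans (by positivity) a1
    have a3 : dist P Q ≤ 1 / c * φ (dist P Q) := by
      rw [one_div, ← div_eq_inv_mul, le_div_iff₀ hc]; linarith
    rw [mul_assoc]
    refine H P hP Q hQ hne hd.1 _ (by linarith) fun j hj => ?_
    obtain ⟨b1, b2, b3, -⟩ := hv j
    have := hm ⟨b1, b2⟩ ⟨d0, hd.2.1⟩ (le_of_mul_le_mul_left hj hκ)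
    linarith
  obtain ⟨c', c0, N, HN⟩ := Hf F hF D hD
  obtain ⟨C', hC', hnum⟩ := ha.num hl₁
  refine ⟨C' * N * C, fun l θ₀ hl h0 hev hint => not_lt.1 fun hlt => ?_⟩
  obtain ⟨J, -, HJ⟩ := HN (fun s => Real.exp (l * a s)) (fun s => (Real.exp_pos _).le) hint
  have mt : Tendsto m atTop atTop := tendsto_atTop_mono (fun j => (hv j).2.2.2.1) tendsto_id
  have := mt.eventually (hnum (θ := θ₀ / C) J N hl c0 (by positivity) (by
    rw [← mul_div_assoc, lt_div_iff₀ hC]; exact hlt))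
  obtain ⟨j, ⟨a1, a2⟩, a3⟩ := ((this.and HJ).and hev).exists
  have tj := hs.tpos j
  have l0 : 0 ≤ Real.log (1 / t j) := Real.log_nonneg (by
    rw [le_div_iff₀ tj, one_mul]
    exact (hs.le_pow j).trans (pow_le_one₀ (by norm_num) (by norm_num)))
  obtain ⟨N', N1, N2, q, q0, q1, q2⟩ := a1 (t j) tj (by
    rw [div_mul_eq_mul_div, div_le_iff₀' hC]
    exact (mul_le_mul_of_nonneg_right a3 l0).trans (hv j).2.2.2.2)
  exact q2 (a2 N' N1 N2 q q0 q1)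

end Pool.Agent.P.MP_7f9008_an
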