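import Pool.Agent.P.MP_7f9008_an.UpperB

/-! The three point bound with a general weight `W` in place of the logarithm. -/

open MeasureTheory Set Metric Filter Topology Real Complex
open scoped ENNReal

noncomputable section
namespace Pool.Agent.P.MP_7f9008_an

/-- A weight: nondecreasing, nonnegative and `O(L ^ 2)`. -/
structure Gr (W : ℝ → ℝ) : Prop where
  mono : Monotone W
  nn : ∀ L, 0 ≤ W L
  small : ∃ C > 0, ∀ᶠ L in atTop, W L ≤ C * L ^ 2

/-- Local three point bound for a curve, with weight `W`. -/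
def TPW (W : ℝ → ℝ) (γ : ℝ → ℂ) : Prop :=
  ∃ A δ : ℝ, 0 ≤ A ∧ 0 < δ ∧ ∀ u v d : ℝ, u ≤ v → v - u ≤ δ → 0 < d → d ≤ δ →
    dist (γ u) (γ v) ≤ d → dl γ u v ^ 4 ≤ A * d ^ 4 * W (Real.log (1 / d))

variable {W : ℝ → ℝ}

theorem le_log_of_le_exp {d L : ℝ} (hd : 0 < d) (h : d ≤ Real.exp (-L)) :
    L ≤ Real.log (1 / d) := by
  have := Real.log_le_log hd h
  rw [Real.log_exp] at this
  rw [one_div, Real.log_inv]; linarith

theorem Gr.pow_le (hW : Gr W) : ∃ e : ℝ, 0 < e ∧ e ≤ 1 / 3 ∧ ∀ d, 0 < d → d ≤ e →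
    d ^ 4 * W (Real.log (1 / d)) ≤ d := by
  obtain ⟨C, hC, H⟩ := hW.small
  obtain ⟨L₀, H⟩ := eventually_atTop.1 H
  refine ⟨min (1 / 3) (min (Real.exp (-L₀)) (1 / C)), by positivity, min_le_left _ _,
    fun d hd h => ?_⟩
  simp only [le_min_iff] at h
  have h1 := H _ (le_log_of_le_exp hd h.2.1)
  have h2 := log_one_div_le hd
  have h3 := one_le_log hd h.1
  have h4 : W (Real.log (1 / d)) ≤ C * (1 / d) ^ 2 :=
    h1.trans (mul_le_mul_of_nonneg_left (pow_le_pow_left₀ (by linarith) h2 2) hC.le)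
  refine (mul_le_mul_of_nonneg_left h4 (by positivity)).trans ?_
  rw [show d ^ 4 * (C * (1 / d) ^ 2) = d * (d * C) by field_simp]
  exact mul_le_of_le_one_right hd.le ((le_div_iff₀ hC).1 h.2.2)

theorem tpw_of_threePt (hW : Gr W) {γ : ℝ → ℂ} {Ω : Set ℂ} {φ : ℝ → ℝ} {δ₁ : ℝ} (hγ : Loop γ)
    (hr : frontier Ω = range γ) (h : ThreePt φ Ω) (hδ₁ : 0 < δ₁) (hm : MonotoneOn φ (Ioo 0 δ₁))
    (H₁ : ∀ t ∈ Ioo 0 δ₁, 0 < φ t ∧ φ t ^ 4 ≤ t ^ 4 * W (Real.log (1 / t))) : TPW W γ := by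
  obtain ⟨C, δ₀, hδ₀, H⟩ := h
  obtain ⟨e, he, -, He⟩ := hW.pow_le
  set D := dist (γ 0) (γ π)
  have hD : 0 < D := hγ.dist_pos pi_pos (by linarith [pi_pos])
  obtain ⟨η, hη, Hη⟩ := exists_dl_le hγ.cont hγ.per (half_pos hD)
  set B := C ^ 4
  have hB : 0 ≤ B := by positivity
  refine ⟨B, min (min (δ₀ / 2) (δ₁ / 2)) (min (min η (min e 1)) ((D / 2) ^ 4 / (B + 1))), hB,
    by positivity, fun u v d huv hv hd hdδ hdist => ?_⟩
  simp only [le_min_iff] at hv hdδ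
  rcases huv.eq_or_lt with rfl | huv
  · rw [dl_self, zero_pow four_ne_zero]; exact mul_nonneg (by positivity) (hW.nn _)
  have hv2 : v < u + 2 * π := by linarith [hv.2.1.2.2, pi_gt_three]
  have h0 := hγ.dist_pos huv hv2
  obtain ⟨q, hq, hd2⟩ := H (γ u) (hr ▸ mem_range_self u) (γ v) (hr ▸ mem_range_self v)
    (_root_.dist_pos.1 h0) (by linarith [hdδ.1.1])
  rw [hr] at hq hd2
  have k1 := (hγ.min_le_diam huv hv2 hq).trans hd2
  set t := dist (γ u) (γ v)
  have mt : t ∈ Ioo 0 δ₁ := ⟨h0, by linarith [hdδ.1.2]⟩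
  have md : d ∈ Ioo 0 δ₁ := ⟨hd, by linarith [hdδ.1.2]⟩
  have k2 : φ t ^ 4 ≤ d ^ 4 * W (Real.log (1 / d)) :=
    (pow_le_pow_left₀ (H₁ t mt).1.le (hm mt md hdist) 4).trans (H₁ d md).2
  have k3 : min (dl γ u v) (dl γ v (u + 2 * π)) ^ 4 ≤ B * d ^ 4 * W (Real.log (1 / d)) := by
    refine (pow_le_pow_left₀ (le_min dl_nonneg dl_nonneg) k1 4).trans ?_
    rw [mul_pow, mul_assoc]
    exact mul_le_mul_of_nonneg_left k2 hB
  rcases min_choice (dl γ u v) (dl γ v (u + 2 * π)) with e | e <;> rw [e] at k3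
  · exact k3
  · exfalso
    have k4 : D / 2 ≤ dl γ v (u + 2 * π) := by
      have := (hγ.le_dl u).trans (dl_triangle huv.le hv2.le)
      linarith [Hη u v hv.2.1.1]
    have k5 := (pow_le_pow_left₀ (by positivity) k4 4).trans k3
    have k6 := He d hd hdδ.2.1.2.1
    have k7 := hdδ.2.2
    rw [le_div_iff₀ (by positivity)] at k7
    nlinarith [mul_le_mul_of_nonneg_left k6 hB]

theorem TPW.comp {γ : ℝ → ℂ} {τ : ℝ → ℝ} (h : TPW W γ) (hc : Continuous τ) (hm : Monotone τ)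
    (hp : ∀ x, τ (x + 2 * π) = τ x + 2 * π) : TPW W fun x => γ (τ x) := by
  obtain ⟨A, δ, hA, hδ, H⟩ := h
  obtain ⟨η, hη, Hη⟩ := exists_dl_le (γ := fun x => ((τ x - x : ℝ) : ℂ)) (by fun_prop)
    (fun x => by rw [hp]; congr 1; ring) (half_pos hδ)
  refine ⟨A, min η (δ / 2), hA, by positivity, fun u v d huv hv hd hdδ hdist => ?_⟩
  rw [le_min_iff] at hv hdδ
  rw [← dl_comp hc hm huv]
  refine H _ _ d (hm huv) ?_ hd (by linarith [hdδ.2]) hdist
  have := (dist_le_dl (γ := fun x => ((τ x - x : ℝ) : ℂ)) (by fun_prop) (right_mem_Icc.2 huv)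
    (left_mem_Icc.2 huv)).trans (Hη u v hv.1)
  rw [Complex.isometry_ofReal.dist_eq, Real.dist_eq, abs_le] at this
  linarith [this.2, hv.2]

theorem Side.dl_leW (hW : Gr W) {Γ : Set ℂ} {P : ℂ → ℂ} {K : ℝ} (h : Side Γ P K)
    (tp : TPW W fun x => P ⟨x, 0⟩) {e : ℝ} (he : 0 < e) :
    ∃ C y₀ : ℝ, 0 ≤ C ∧ 0 < y₀ ∧ ∀ x y, 0 < y → y ≤ y₀ → infDist (P ⟨x, y⟩) Γ ≤ e ∧
      dl (fun x => P ⟨x, 0⟩) (x - y) (x + y) ^ 4 ≤
        C * infDist (P ⟨x, y⟩) Γ ^ 4 * W (Real.log (1 / infDist (P ⟨x, y⟩) Γ)) := by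
  obtain ⟨A, δ, hA, hδ, H⟩ := tp
  obtain ⟨N, hN⟩ := exists_nat_gt (2 * 10 ^ 8 * K)
  set M : ℝ := 2 * (2 ^ N * (2 ^ N + 2))
  have hM : 1 ≤ M := by
    have : (1 : ℝ) ≤ 2 ^ N := one_le_pow₀ one_le_two
    simp only [M]; nlinarith
  obtain ⟨η, hη, Hη⟩ := h.s_small (ε := min (δ / M) e) (by positivity)
  refine ⟨A * M ^ 4, min (min η (δ / 3)) (1 / 2), by positivity, by positivity,
    fun x y hy hy' => ?_⟩
  simp only [le_min_iff] at hy'
  have hs := h.s_pos (z := ⟨x, y⟩) hy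
  have s1 := Hη x y hy.le hy'.1.1
  rw [le_min_iff, le_div_iff₀ (by positivity)] at s1
  obtain ⟨x₁, hx₁, d₁⟩ := h.near hN hy hy'.2 (x := x) (a := x - y - y / 64) (by linarith)
    (by linarith)
  obtain ⟨x₂, hx₂, d₂⟩ := h.near hN hy hy'.2 (x := x) (a := x + y) (by linarith) (by linarith)
  set s := infDist (P ⟨x, y⟩) Γ
  have k := H x₁ x₂ (s * M) (by linarith [hx₁.2, hx₂.1]) (by linarith [hx₁.1, hx₂.2, hy'.1.2])
    (by positivity) s1.1 ((dist_triangle_right _ _ (P ⟨x, y⟩)).trans (by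
      simp only [M]; linarith))
  refine ⟨s1.2, (pow_le_pow_left₀ dl_nonneg (dl_mono h.cont_bd (by linarith [hx₁.2])
    hx₂.1.le) 4).trans (k.trans ?_)⟩
  rw [show A * (s * M) ^ 4 = A * M ^ 4 * s ^ 4 by ring]
  refine mul_le_mul_of_nonneg_left (hW.mono (Real.log_le_log (by positivity) ?_)) (by positivity)
  exact one_div_le_one_div_of_le hs (le_mul_of_one_le_right hs.le hM)

section
variable {h : ℝ → ℝ} {C y₀ : ℝ}

theorem decay_one (hm : Monotone h) (hC : 1 ≤ C) (hy₀ : 0 < y₀) (hd : ∀ x y, 0 < y → y ≤ y₀ →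
    ∃ Λ, 0 ≤ Λ ∧ Λ ≤ C * Real.log (1 / y) ∧ Dbl h x y Λ) :
    ∃ y₁ > 0, ∀ x y, 0 < y → y ≤ y₁ →
      h (x + y ^ 2) - h x ≤ Real.exp (-(1 / (6 * C))) * (h (x + y / 2) - h x) := by
  refine ⟨min y₀ (Real.exp (-4)), by positivity, fun x y hy hy' => ?_⟩
  rw [le_min_iff] at hy'
  set L := Real.log (1 / y)
  have eL : y = Real.exp (-L) := by rw [Real.exp_neg, Real.exp_log (by positivity)]; simp
  have hL : 4 ≤ L := by
    have := hy'.2
    rw [eL, Real.exp_le_exp] at this; linarith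
  obtain ⟨Λ, hΛ⟩ : ∃ Λ, Λ = C * (3 * L) := ⟨_, rfl⟩
  have Λ1 : 1 ≤ Λ := by nlinarith
  have e1 : Real.exp (-1) ≤ 1 / 2 := by linarith [Real.exp_neg_one_lt_d9]
  have y2 : y ≤ 1 / 2 := eL ▸ (Real.exp_le_exp.2 (by linarith)).trans e1
  have step : ∀ t, y ^ 2 ≤ t → t ≤ y / 2 →
      h (x + 3 / 4 * t) - h x ≤ Real.exp (-(1 / Λ)) * (h (x + t) - h x) := by
    intro t h1 h2
    have ht : 0 < t := lt_of_lt_of_le (by positivity) h1
    obtain ⟨l, l0, l1, -, l2⟩ := hd (x + t / 2) (t / 2) (by positivity) (by linarith [hy'.1])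
    have l3 : Real.log (1 / (t / 2)) ≤ 3 * L := by
      rw [show 3 * L = Real.log ((1 / y) ^ 3) by rw [Real.log_pow]; norm_num [L]]
      refine Real.log_le_log (by positivity) ?_
      rw [one_div_pow]
      exact one_div_le_one_div_of_le (by positivity) (by nlinarith)
    have l5 : l ≤ Λ := l1.trans (hΛ ▸ mul_le_mul_of_nonneg_left l3 (by linarith))
    rw [show x + t / 2 + t / 2 = x + t by ring, show x + t / 2 - t / 2 = x by ring,
      show x + t / 2 + t / 2 / 2 = x + 3 / 4 * t by ring] at l2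
    have m1 : h (x + 3 / 4 * t) ≤ h (x + t) := hm (by linarith)
    have m2 : h x ≤ h (x + t) := hm (by linarith)
    have l6 : h (x + t) - h x ≤ Λ * (h (x + t) - h (x + 3 / 4 * t)) :=
      l2.trans (mul_le_mul_of_nonneg_right l5 (by linarith))
    rw [← div_le_iff₀' (by linarith)] at l6
    have l7 := mul_le_mul_of_nonneg_right (Real.add_one_le_exp (-(1 / Λ))) (sub_nonneg.2 m2)
    have : (h (x + t) - h x) / Λ = 1 / Λ * (h (x + t) - h x) := by ring
    linarith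
  set n := ⌈L / 2⌉₊
  have n1 : L / 2 ≤ n := Nat.le_ceil _
  have n2 : (n : ℝ) < L / 2 + 1 := Nat.ceil_lt_add_one (by linarith)
  have low : ∀ j ≤ n, y ^ 2 ≤ (3 / 4) ^ j * (y / 2) := by
    intro j hj
    have a1 : Real.exp (-1) ^ n ≤ (3 / 4 : ℝ) ^ j :=
      (pow_le_pow_left₀ (by positivity) (by linarith) n).trans
        (pow_le_pow_of_le_one (by norm_num) (by norm_num) hj)
    rw [← Real.exp_nat_mul] at a1
    have a2 : y ≤ Real.exp (n * -1) * Real.exp (-1) := by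
      rw [← Real.exp_add, eL, Real.exp_le_exp]; linarith
    have a3 : Real.exp (n * -1) * Real.exp (-1) ≤ (3 / 4) ^ j * (1 / 2) := by gcongr
    nlinarith
  have m0 : 0 ≤ h (x + y / 2) - h x := sub_nonneg.2 (hm (by linarith))
  have iter : ∀ j ≤ n, h (x + (3 / 4) ^ j * (y / 2)) - h x ≤
      Real.exp (-(1 / Λ)) ^ j * (h (x + y / 2) - h x) := by
    intro j
    induction j with
    | zero => simp
    | succ j ih =>
      intro hj
      have := step _ (low j (by omega)) (mul_le_of_le_one_left (by positivity)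
        (pow_le_one₀ (by norm_num) (by norm_num)))
      rw [pow_succ', pow_succ', mul_assoc, mul_assoc]
      exact this.trans (mul_le_mul_of_nonneg_left (ih (by omega)) (by positivity))
  have f1 := iter n le_rfl
  have f2 : Real.exp (-(1 / Λ)) ^ n ≤ Real.exp (-(1 / (6 * C))) := by
    rw [← Real.exp_nat_mul, Real.exp_le_exp, mul_neg, neg_le_neg_iff, mul_one_div,
      div_le_div_iff₀ (by linarith) (by linarith)]
    nlinarith
  have f3 : h (x + y ^ 2) ≤ h (x + (3 / 4) ^ n * (y / 2)) := hm (by linarith [low n le_rfl])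
  linarith [mul_le_mul_of_nonneg_right f2 m0]

theorem decayW (hm : Monotone h) (hC : 1 ≤ C) (hy₀ : 0 < y₀) (hd : ∀ x y, 0 < y → y ≤ y₀ →
    ∃ Λ, 0 ≤ Λ ∧ Λ ≤ C * Real.log (1 / y) ∧ Dbl h x y Λ) :
    ∃ p : ℕ, 1 ≤ p ∧ ∃ y₁ > 0, ∀ x y, 0 < y → y ≤ y₁ →
      2 * (h (x + y ^ p) - h x) ≤ h (x + y / 2) - h x := by
  obtain ⟨y₁, hy₁, H⟩ := decay_one hm hC hy₀ hd
  have q1 : Real.exp (-(1 / (6 * C))) < 1 := by
    rw [Real.exp_lt_one_iff, neg_lt_zero]; positivity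
  set q := Real.exp (-(1 / (6 * C)))
  have q0 : 0 < q := Real.exp_pos _
  obtain ⟨r, hr⟩ := exists_pow_lt_of_lt_one (show (0 : ℝ) < 1 / 2 by norm_num) q1
  refine ⟨2 ^ (r + 1), Nat.one_le_two_pow, min y₁ 1, by positivity, fun x y hy hy' => ?_⟩
  rw [le_min_iff] at hy'
  have m0 : 0 ≤ h (x + y / 2) - h x := sub_nonneg.2 (hm (by linarith))
  have key : ∀ i : ℕ, h (x + y ^ 2 ^ (i + 1)) - h x ≤ q ^ (i + 1) * (h (x + y / 2) - h x) := by
    intro i
    induction i with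
    | zero => simpa using H x y hy hy'.1
    | succ i ih =>
      have z0 : 0 < y ^ 2 ^ (i + 1) := by positivity
      have a1 := H x _ z0 ((pow_le_of_le_one hy.le hy'.2 (by positivity)).trans hy'.1)
      have a2 : h (x + y ^ 2 ^ (i + 1) / 2) ≤ h (x + y ^ 2 ^ (i + 1)) := hm (by linarith)
      rw [pow_succ 2 (i + 1), pow_mul, pow_succ' q (i + 1), mul_assoc]
      exact a1.trans (mul_le_mul_of_nonneg_left (by linarith) q0.le)
  have a3 : q ^ (r + 1) ≤ 1 / 2 := by rw [pow_succ]; nlinarith [pow_pos q0 r]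
  linarith [key r, mul_le_mul_of_nonneg_right a3 m0]

theorem circ_of_dblW (hm : Monotone h) (hp : ∀ x, h (x + 2 * π) = h x + 1) (hC : 1 ≤ C)
    (hy₀ : 0 < y₀)
    (hd : ∀ x y, 0 < y → y ≤ y₀ → ∃ Λ, 0 ≤ Λ ∧ Λ ≤ C * Real.log (1 / y) ∧ Dbl h x y Λ) :
    Circ h := by
  obtain ⟨p, p1, y₁, hy₁, H⟩ := decayW hm hC hy₀ hd
  refine ⟨?_, fun a b hab => lt_of_le_of_ne (hm hab.le) fun e => ?_, hp⟩
  · have key : ∀ n : ℕ, ∃ z, 0 < z ∧ z ≤ y₁ ∧ z ≤ 1 ∧ ∀ x, h (x + z) - h x ≤ (1 / 2) ^ n := by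
      intro n
      induction n with
      | zero =>
        refine ⟨min y₁ 1, by positivity, min_le_left _ _, min_le_right _ _, fun x => ?_⟩
        have : h (x + min y₁ 1) ≤ h (x + 2 * π) :=
          hm (by linarith [min_le_right y₁ 1, pi_gt_three])
        rw [hp] at this; simp only [pow_zero]; linarith
      | succ n ih =>
        obtain ⟨z, z0, z1, z2, z3⟩ := ih
        have zp := pow_le_of_le_one z0.le z2 (show p ≠ 0 by omega)
        refine ⟨z ^ p, by positivity, zp.trans z1, zp.trans z2, fun x => ?_⟩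
        have : h (x + z / 2) ≤ h (x + z) := hm (by linarith)
        rw [pow_succ (1 / 2 : ℝ)]; linarith [H x z z0 z1, z3 x]
    refine Metric.continuous_iff.2 fun b ε hε => ?_
    obtain ⟨n, hn⟩ := exists_pow_lt_of_lt_one hε (show (1 / 2 : ℝ) < 1 by norm_num)
    obtain ⟨z, z0, -, -, z3⟩ := key n
    refine ⟨z, z0, fun a ha => ?_⟩
    rw [Real.dist_eq, abs_lt] at ha ⊢
    have a1 : h a ≤ h (b + z) := hm (by linarith)
    have a2 : h b ≤ h (a + z) := hm (by linarith)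
    constructor <;> linarith [z3 a, z3 b]
  · set L := min (b - a) (y₀ / 2)
    have hL : 0 < L := lt_min (by linarith) (by positivity)
    have key : ∀ n : ℕ, h (a + n * L + L) = h a := by
      intro n
      induction n with
      | zero =>
        have : h (a + L) ≤ h b := hm (by linarith [min_le_left (b - a) (y₀ / 2)])
        simpa using le_antisymm (this.trans e.ge) (hm (by linarith))
      | succ n ih =>
        obtain ⟨l, -, -, l1, -⟩ := hd (a + n * L + 2 * L) (2 * L) (by positivity)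
          (by linarith [min_le_right (b - a) (y₀ / 2)])
        have n0 : (0 : ℝ) ≤ n * L := by positivity
        have a1 : h (a + n * L + 2 * L - 2 * L) = h a :=
          le_antisymm (ih ▸ hm (by linarith)) (hm (by linarith))
        rw [a1, show a + n * L + 2 * L - 2 * L / 2 = a + n * L + L by ring, ih, sub_self,
          mul_zero] at l1
        refine le_antisymm (le_trans (hm ?_) (sub_nonpos.1 l1)) (hm ?_) <;> push_cast <;> nlinarith
    obtain ⟨n, hn⟩ := exists_nat_ge (2 * π / L)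
    rw [div_le_iff₀ hL] at hn
    have : h (a + 2 * π) ≤ h (a + n * L + L) := hm (by linarith)
    rw [key, hp] at this; linarith

end

theorem exists_dblW (hW : Gr W) {Γ : Set ℂ} {γ : ℝ → ℂ} (hγ : Loop γ) (tp : TPW W γ)
    {P : Bool → ℂ → ℂ}
    {K : Bool → ℝ} {τ : Bool → ℝ → ℝ} (hS : ∀ b, Side Γ (P b) (K b))
    (hc : ∀ b, Continuous (τ b)) (hm : ∀ b, Monotone (τ b))
    (hp : ∀ b x, τ b (x + 2 * π) = τ b x + 2 * π) (hb : ∀ b x, P b ⟨x, 0⟩ = γ (τ b x))
    (hi : ∀ b, InjOn (P b) (Ioo 0 (2 * π) ×ℂ Ioi 0))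
    (hd : ∀ b b' z z', 0 < z.im → 0 < z'.im → P b z = P b' z' → b = b') :
    ∃ h : ℝ → ℝ, Monotone h ∧ (∀ x, h (x + 2 * π) = h x + 1) ∧ ∃ C y₀ : ℝ, 0 ≤ C ∧ 0 < y₀ ∧
      ∀ b x y, 0 < y → y ≤ y₀ → ∃ Λ, 0 ≤ Λ ∧
        Λ ^ 2 ≤ C * W (Real.log (1 / infDist (P b ⟨x, y⟩) Γ)) ∧
          Dbl (fun x => h (τ b x)) x y Λ := by
  obtain ⟨N, hN'⟩ := exists_nat_gt (2 * 10 ^ 8 * max (K true) (K false))
  have hN : ∀ b, 2 * 10 ^ 8 * K b < N := fun b => lt_of_le_of_lt (by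
    cases b <;> gcongr <;> simp) hN'
  set M : ℝ := 2 ^ N * (2 ^ N + 2)
  have hM : 0 < M := by positivity
  let ι := {i : Bool × ℕ × ℕ // i.2.2 < 2 ^ (i.2.1 + 5)}
  have : Nonempty ι := ⟨⟨(true, 0, 0), by norm_num⟩⟩
  set X : ι → ℝ := fun i => (i.1.2.2 + 1 / 2) * yk i.1.2.1
  set Y : ι → ℝ := fun i => 3 / 2 * yk i.1.2.1
  have Y0 : ∀ i, 0 < Y i := fun i => by have := yk_pos i.1.2.1; positivity
  have Y1 : ∀ i, Y i ≤ 1 / 2 := fun i => by have := yk_le i.1.2.1; simp only [Y]; linarith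
  set c : ι → ℂ := fun i => P i.1.1 ⟨X i, Y i⟩
  set s : ι → ℝ := fun i => infDist (c i) Γ / M
  have S0 : ∀ i, 0 < infDist (c i) Γ := fun i => (hS _).s_pos (Y0 i)
  have s0 : ∀ i, 0 < s i := fun i => div_pos (S0 i) hM
  choose x' hx' dx' using fun i : ι => (hS i.1.1).near (hN _) (Y0 i) (Y1 i) (x := X i) (a := X i)
    (by linarith [Y0 i]) (by linarith [Y0 i])
  have bs : ∀ i, ball (c i) (s i) ⊆ P i.1.1 '' wbox i.1.2.1 i.1.2.2 := fun i => by
    refine (ball_subset_closedBall.trans (closedBall_subset_closedBall ?_)).trans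
      (((hS i.1.1).ball_subset (hN _) (Y0 i) (Y1 i) (x := X i)).trans (image_mono fun z hz => ?_))
    · exact div_le_div_of_nonneg_left (S0 i).le (by positivity) (by
        simp only [M]; gcongr; linarith)
    · simp only [X, Y] at hz
      exact ⟨⟨by linarith [hz.1.1], by linarith [hz.1.2]⟩, by linarith [hz.2.1],
        by linarith [hz.2.2]⟩
  obtain ⟨h, h1, h2, C, R₀, hR₀, H⟩ := mass hγ.cont hγ.per
    ((hγ.dist_pos pi_pos (by linarith [pi_pos])).trans_le (by simpa using hγ.le_dl 0))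
    (fun i => τ i.1.1 (x' i)) s c (M := M * M) s0 (fun i j hij => disjoint_left.2 fun w h1 h2 => by
      obtain ⟨z, hz, rfl⟩ := bs i h1
      obtain ⟨z', hz', e⟩ := bs j h2
      have e1 := hd _ _ _ _ (wbox_subset j.2 hz').2 (wbox_subset i.2 hz).2 e
      rw [e1] at e
      obtain rfl := hi _ (wbox_subset j.2 hz') (wbox_subset i.2 hz) e
      exact hij (Subtype.ext (Prod.ext e1.symm (Prod.ext (wbox_eq hz hz').1 (wbox_eq hz hz').2))))
    fun i => by
      rw [← hb, dist_comm]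
      refine (dx' i).le.trans (le_of_eq ?_)
      simp only [s, c]; field_simp; simp only [M]; ring
  have eγ : ∀ b, (fun x => P b ⟨x, 0⟩) = fun x => γ (τ b x) := fun b => funext (hb b)
  choose C₁ y₁ hC₁ hy₁ H₁ using fun b => (hS b).dl_leW hW
    (eγ b ▸ tp.comp (hc b) (hm b) (hp b)) one_pos
  choose η hη Hη using fun b => exists_dl_le (γ := fun x => P b ⟨x, 0⟩) (hS b).cont_bd
    (fun x => by simpa using (hS b).per_int 1 x 0) hR₀
  set M' : ℝ := (2 ^ N + 2) * M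
  refine ⟨h, h1, h2, C ^ 2 * M' ^ 4 * (C₁ true + C₁ false),
    min (min (y₁ true) (y₁ false)) (min (min (η true) (η false) / 2) (1 / 2)),
    mul_nonneg (by positivity) (add_nonneg (hC₁ _) (hC₁ _)),
    lt_min (lt_min (hy₁ _) (hy₁ _)) (lt_min (half_pos (lt_min (hη _) (hη _))) one_half_pos),
    fun b x y hy hy' => ?_⟩
  simp only [le_min_iff] at hy'
  have a1 : y ≤ y₁ b := by cases b; exacts [hy'.1.2, hy'.1.1]
  have a2 : 2 * y ≤ η b := by
    cases b
    · linarith [hy'.2.1, min_le_right (η true) (η false)]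
    · linarith [hy'.2.1, min_le_left (η true) (η false)]
  have a3 : C₁ b ≤ C₁ true + C₁ false := by cases b <;> linarith [hC₁ true, hC₁ false]
  obtain ⟨b1, b2⟩ := H₁ b x y hy a1
  have S := (hS b).s_pos (z := ⟨x, y⟩) hy
  set σ := infDist (P b ⟨x, y⟩) Γ
  set R := dl (fun x => P b ⟨x, 0⟩) (x - y) (x + y)
  have key : ∀ α, x - y ≤ α → α + y / 2 ≤ x + y → h (τ b (x + y)) - h (τ b (x - y)) ≤
      |C| * R ^ 2 * (M' / σ) ^ 2 * (h (τ b (α + y / 2)) - h (τ b α)) := by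
    intro α α1 α2
    obtain ⟨k, k1, k2⟩ := exists_yk hy (by linarith [hy'.2.2])
    obtain ⟨l, hl, j, j1, j2⟩ := exists_lattice k α
    set i : ι := ⟨(b, k, l), hl⟩
    have eX : X i = l * yk k + yk k / 2 := by simp only [X, i]; ring
    have eY : Y i = 3 / 2 * yk k := rfl
    have ec : c i = P b ⟨X i + j * (2 * π), Y i⟩ := ((hS b).per_int j _ _).symm
    have x1 := (hx' i).1
    have x2 := (hx' i).2
    have ep : τ b (x' i) + j * (2 * π) = τ b (x' i + j * (2 * π)) := (lift_int (hp b) j _).symm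
    have fr : ∀ a u v, X i + j * (2 * π) - 3 * Y i ≤ a →
        a + Y i / 64 ≤ X i + j * (2 * π) + 3 * Y i → u ≤ a → a + Y i / 64 ≤ v →
        s i ≤ dl γ (τ b u) (τ b v) := by
      intro a u v f1 f2 f3 f4
      obtain ⟨x'', f5, f6⟩ := (hS b).far (hN b) (Y0 i) (Y1 i) f1 f2
      rw [dl_comp (hc b) (hm b) (by linarith [f5.1, f5.2]), ← eγ]
      exact (ec ▸ f6.le).trans (dist_le_dl (hS b).cont_bd ⟨by linarith [f5.1], by linarith [f5.2]⟩
        ⟨f3, by linarith [f5.1, f5.2]⟩)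
    have m := H i j (τ b (x - y)) (τ b α) (τ b (α + y / 2)) (τ b (x + y)) R (hm b α1)
      (ep ▸ hm b (by linarith)) (ep ▸ hm b (by linarith)) (hm b α2)
      (ep ▸ fr (X i + j * (2 * π) - Y i / 64) _ _ (by linarith) (by linarith) (by linarith)
        (by linarith))
      (ep ▸ fr (X i + j * (2 * π) + Y i / 64) _ _ (by linarith) (by linarith) (by linarith)
        (by linarith))
      (by rw [dl_comp (hc b) (hm b) (by linarith), ← eγ]) (Hη b _ _ (by linarith))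
    have ha : σ ≤ M' * s i := by
      have := ((hS b).harnack (hN b) hy hy'.2.2 (x := x) (z₁ := ⟨X i + j * (2 * π), Y i⟩)
        (z₂ := ⟨x, y⟩) ⟨⟨by linarith, by linarith⟩, by linarith, by linarith⟩
        ⟨⟨by linarith, by linarith⟩, by linarith, by linarith⟩).2
      rw [← ec] at this
      refine this.trans (le_of_eq ?_)
      simp only [s, M']; field_simp
    have d1 : 0 ≤ h (τ b (α + y / 2)) - h (τ b α) := sub_nonneg.2 (h1 (hm b (by linarith)))
    have d2 : 0 ≤ h (τ b (x + y)) - h (τ b (x - y)) := sub_nonneg.2 (h1 (hm b (by linarith)))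
    have d3 : 1 ≤ s i ^ 2 * (M' / σ) ^ 2 := by
      rw [← mul_pow]
      exact one_le_pow₀ (by rw [mul_div_assoc', le_div_iff₀ S]; linarith)
    calc _ ≤ (h (τ b (x + y)) - h (τ b (x - y))) * (s i ^ 2 * (M' / σ) ^ 2) :=
          le_mul_of_one_le_right d2 d3
      _ ≤ |C| * R ^ 2 * (h (τ b (α + y / 2)) - h (τ b α)) * (M' / σ) ^ 2 := by
          rw [← mul_assoc]
          refine mul_le_mul_of_nonneg_right (m.trans ?_) (by positivity)
          gcongr; exact le_abs_self C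
      _ = _ := by ring
  refine ⟨|C| * R ^ 2 * (M' / σ) ^ 2, by positivity, ?_, ?_, ?_⟩
  · have l1 := hW.nn (Real.log (1 / σ))
    calc _ = C ^ 2 * (M' / σ) ^ 4 * R ^ 4 := by rw [mul_pow, mul_pow, sq_abs]; ring
      _ ≤ C ^ 2 * (M' / σ) ^ 4 * (C₁ b * σ ^ 4 * W (Real.log (1 / σ))) := by gcongr
      _ = C ^ 2 * M' ^ 4 * C₁ b * W (Real.log (1 / σ)) := by field_simp
      _ ≤ _ := by gcongr
  · simpa only [show x - y + y / 2 = x - y / 2 by ring] using key (x - y) le_rfl (by linarith)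
  · simpa only [show x + y / 2 + y / 2 = x + y by ring] using
      key (x + y / 2) (by linarith) (by linarith)

end Pool.Agent.P.MP_7f9008_an
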