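import Pool.Agent.P.MP_7f9008_an.Basic

/-! The data of the extremal domain. -/

open Set Metric Filter Topology Real

noncomputable section
namespace Pool.Agent.P.MP_7f9008_an

/-- Sizes `t j`, corridor widths `w j` and numbers of folds `m j` of the gadgets. -/
structure Seq (t w : ℕ → ℝ) (m : ℕ → ℕ) : Prop where
  wpos : ∀ j, 0 < w j
  mpos : ∀ j, 1 ≤ m j
  teq : ∀ j, t j = 8 * m j * w j
  t0 : t 0 ≤ 1 / 1000
  tdec : ∀ j, 100 * t (j + 1) ≤ t j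

/-- Near the origin `Ω = {b (x - a y) < y}`; `b` makes an `S`-fold over `[t, 4t]` and the
horizontal shear `a` oscillates `2m` times with amplitude `4t` over `[2t, 3t]`. -/
structure Gad (t w : ℕ → ℝ) (m : ℕ → ℕ) (a b : ℝ → ℝ) (Ω : Set ℂ) : Prop where
  acont : Continuous a
  bcont : Continuous b
  a0 : ∀ y, 0 ≤ a y
  ale : ∀ j, ∀ y ≤ 6 * t j, a y ≤ 4 * t j
  azero : ∀ j, ∀ y ∈ Icc (3 * t j) (6 * t j), a y = 0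
  alow : ∀ j, ∀ i : ℕ, i < 2 * m j → a (2 * t j + (4 * i + 1 / 2) * w j) = 0
  ahigh : ∀ j, ∀ i : ℕ, i < 2 * m j → a (2 * t j + (4 * i + 3 / 2) * w j) = 4 * t j
  b1 : ∀ j, ∀ X ∈ Icc (t j) (2 * t j), b X = 3 * X - 2 * t j
  b2 : ∀ j, ∀ X ∈ Icc (2 * t j) (3 * t j), b X = 10 * t j - 3 * X
  b3 : ∀ j, ∀ X ∈ Icc (3 * t j) (4 * t j), b X = 3 * X - 8 * t j
  ble : ∀ j, ∀ X ≤ 6 * t j, b X ≤ max X (4 * t j)
  bneg : ∀ X ≤ 0, b X ≤ X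
  mem : ∀ z : ℂ, |z.re| ≤ 1 / 4 → |z.im| ≤ 1 / 4 → (z ∈ Ω ↔ b (z.re - a z.im) < z.im)
  fr0 : (0 : ℂ) ∈ frontier Ω
  fr : ∀ j, ∀ X ∈ Icc (t j) (4 * t j), (⟨X + a (b X), b X⟩ : ℂ) ∈ frontier Ω

end Pool.Agent.P.MP_7f9008_an
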