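import Pool.Agent.P.MP_7f9008_an.Basic
import Pool.Agent.Lib.Sob.Moll

/-! Removability of the unit circle for continuous Sobolev maps. -/

open MeasureTheory Set Metric Filter Topology Real Pool.Agent.Lib.Sob
open scoped ContDiff

noncomputable section
namespace Pool.Agent.P.MP_7f9008_an
namespace GlueA

def eta : ContDiffBump (0 : ℝ) := ⟨1, 2, one_pos, one_lt_two⟩

/-- A bump function of a thin neighbourhood of the unit circle. -/
def psi (δ : ℝ) (z : ℂ) : ℝ := eta ((‖z‖ ^ 2 - 1) / δ)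

def Ann (δ : ℝ) : Set ℂ := closedBall 0 (1 + 2 * δ) \ ball 0 (1 - 2 * δ)

theorem psi_smooth (δ : ℝ) : ContDiff ℝ ∞ (psi δ) :=
  eta.contDiff.comp (((contDiff_norm_sq ℝ).sub contDiff_const).div_const δ)

theorem psi_one {δ : ℝ} (hδ : 0 < δ) {z : ℂ} (h : |‖z‖ ^ 2 - 1| ≤ δ) : psi δ z = 1 := by
  refine eta.one_of_mem_closedBall ?_
  rw [mem_closedBall_zero_iff, Real.norm_eq_abs, abs_div, abs_of_pos hδ]
  exact (div_le_one hδ).2 h

theorem notMem_tsupport {δ : ℝ} (hδ : 0 < δ) {z : ℂ} (h : 2 * δ < |‖z‖ ^ 2 - 1|) :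
    (‖z‖ ^ 2 - 1) / δ ∉ tsupport eta := by
  rw [eta.tsupport_eq, mem_closedBall_zero_iff, Real.norm_eq_abs, abs_div, abs_of_pos hδ, not_le,
    lt_div_iff₀ hδ]
  exact h

theorem lt_of_notMem_Ann {δ : ℝ} (hδ : 0 < δ) {z : ℂ} (h : z ∉ Ann δ) :
    2 * δ < |‖z‖ ^ 2 - 1| := by
  have h0 := norm_nonneg z
  simp only [Ann, Set.mem_sdiff, mem_closedBall_zero_iff, mem_ball_zero_iff, not_and_or, not_le,
    not_not] at h
  rcases h with h | h
  · exact lt_abs.2 (Or.inl (by nlinarith))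
  · exact lt_abs.2 (Or.inr (by nlinarith))

theorem fderiv_psi (δ : ℝ) (z e : ℂ) :
    fderiv ℝ (psi δ) z e = deriv eta ((‖z‖ ^ 2 - 1) / δ) * (2 * inner ℝ z e / δ) := by
  have h1 : HasFDerivAt (fun z : ℂ => (‖z‖ ^ 2 - 1) / δ) (δ⁻¹ • (2 • innerSL ℝ z)) z := by
    simpa only [div_eq_inv_mul] using
      ((hasStrictFDerivAt_norm_sq z).hasFDerivAt.sub_const 1).const_mul δ⁻¹
  have h2 : HasDerivAt eta (deriv eta ((‖z‖ ^ 2 - 1) / δ)) ((‖z‖ ^ 2 - 1) / δ) :=
    ((eta.contDiff (n := 1)).differentiable (by simp) _).hasDerivAt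
  have h3 : HasFDerivAt (psi δ) _ z := h2.comp_hasFDerivAt z h1
  rw [h3.fderiv]
  simp only [smul_apply, innerSL_apply_apply, smul_eq_mul, nsmul_eq_mul, Nat.cast_ofNat]
  ring

theorem exists_deriv_bound : ∃ C : ℝ, 0 ≤ C ∧ ∀ t, |deriv eta t| ≤ C := by
  obtain ⟨C, hC⟩ := ((eta.contDiff (n := 1)).continuous_deriv le_rfl).bounded_above_of_compact_support
    eta.hasCompactSupport.deriv
  exact ⟨C, (norm_nonneg _).trans (hC 0), hC⟩

theorem vol_Ann {δ : ℝ} (hδ : 0 < δ) (hδ1 : δ ≤ 1 / 2) : volume.real (Ann δ) = 8 * π * δ := by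
  rw [Ann, measureReal_sdiff (ball_subset_closedBall.trans (closedBall_subset_closedBall
    (by linarith))) measurableSet_ball measure_closedBall_lt_top.ne]
  simp only [measureReal_def, Complex.volume_ball, Complex.volume_closedBall, ENNReal.toReal_mul,
    ENNReal.toReal_pow, ENNReal.coe_toReal, NNReal.coe_real_pi]
  rw [ENNReal.toReal_ofReal (by linarith), ENNReal.toReal_ofReal (by linarith)]
  ring

theorem ae_norm_ne_one : ∀ᵐ z : ℂ, ‖z‖ ≠ 1 := by
  have h : volume (sphere (0 : ℂ) 1) = 0 := Measure.addHaar_sphere _ _ _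
  filter_upwards [measure_eq_zero_iff_ae_notMem.1 h] with z hz
  simpa using hz

theorem key {φ : ℂ → ℝ} (hφ : IsTest univ φ) (e : ℂ) : ∃ C : ℝ, ∀ (u : ℂ → ℂ)
    (D : ℂ → ℂ →L[ℝ] ℂ) (ε : ℝ), LocLp 1 univ u → LocLp 1 univ D → (∀ z, ‖u z‖ ≤ ε) →
    WD 1 (ball 0 1 ∪ (closedBall 0 1)ᶜ) u D →
    ‖(∫ x, fderiv ℝ φ x e • u x) + ∫ x, φ x • D x e‖ ≤ C * ε := by
  obtain ⟨C, hC0, hC⟩ := exists_deriv_bound
  obtain ⟨M, hM⟩ := hφ.continuous.bounded_above_of_compact_support hφ.2.1
  have hM0 : 0 ≤ M := (norm_nonneg _).trans (hM 0)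
  refine ⟨M * (C * (4 * ‖e‖)) * (8 * π), fun u D ε hu hD hε h => ?_⟩
  have hε0 : 0 ≤ ε := (norm_nonneg _).trans (hε 0)
  have i1 := hu.integrable_dtest le_rfl hφ e
  have i2 := (hD.apply e).integrable_test le_rfl hφ
  rw [← integral_add i1 i2]
  set a : ℂ → ℂ := fun x => fderiv ℝ φ x e • u x + φ x • D x e with ha
  have ia : Integrable a := i1.add i2
  have step : ∀ δ : ℝ, 0 < δ → δ ≤ 1 / 2 →
      ‖∫ x, (1 - psi δ x) • a x‖ ≤ M * (C * (4 * ‖e‖)) * (8 * π) * ε := fun δ hδ hδ1 => by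
    have s1 : ContDiff ℝ ∞ fun x => 1 - psi δ x := contDiff_const.sub (psi_smooth δ)
    have t0 := hφ.mul_left s1
    have t1 : IsTest (ball 0 1 ∪ (closedBall 0 1)ᶜ) fun x => (1 - psi δ x) * φ x := by
      refine ⟨t0.1, t0.2.1, tsupport_mul_subset_left.trans ((closure_minimal
        (t := {z : ℂ | δ ≤ |‖z‖ ^ 2 - 1|}) (fun z hz => ?_)
        (isClosed_le continuous_const (by fun_prop))).trans fun z hz => ?_)⟩
      · by_contra h'
        exact hz (by simp only [psi_one hδ (not_le.1 h').le, sub_self])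
      · have hz' : δ ≤ |‖z‖ ^ 2 - 1| := hz
        rcases lt_trichotomy ‖z‖ 1 with h' | h' | h'
        · exact Or.inl (mem_ball_zero_iff.2 h')
        · rw [h'] at hz'
          norm_num at hz'
          linarith
        · exact Or.inr fun h'' => absurd (mem_closedBall_zero_iff.1 h'') (not_le.2 h')
    have e1 := h.2.2 _ t1 e
    have j1 := hu.integrable_dtest le_rfl t0 e
    have j2 := (hD.apply e).integrable_test le_rfl t0
    have d1 : ∀ x, fderiv ℝ (fun x => (1 - psi δ x) * φ x) x e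
        = (1 - psi δ x) * fderiv ℝ φ x e - φ x * fderiv ℝ (psi δ) x e := fun x => by
      rw [fderiv_fun_mul (s1.differentiable (by simp) x) (hφ.differentiable x),
        fderiv_const_sub]
      simp only [add_apply, smul_apply, neg_apply, smul_eq_mul]
      ring
    have c1 : Continuous fun x => φ x * fderiv ℝ (psi δ) x e :=
      hφ.continuous.mul (((psi_smooth δ).continuous_fderiv (by simp)).clm_apply continuous_const)
    have j3 : Integrable fun x => (φ x * fderiv ℝ (psi δ) x e) • u x :=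
      hu.integrable_smul le_rfl c1 hφ.2.1.mul_right (subset_univ _)
    have e2 : ∫ x, (1 - psi δ x) • a x = ∫ x, (φ x * fderiv ℝ (psi δ) x e) • u x := by
      have : ∀ x, (1 - psi δ x) • a x = (fderiv ℝ (fun x => (1 - psi δ x) * φ x) x e • u x
          + ((1 - psi δ x) * φ x) • D x e) + (φ x * fderiv ℝ (psi δ) x e) • u x := fun x => by
        rw [d1, ha]
        module
      simp only [this]
      rw [integral_add (j1.fun_add j2) j3, integral_add j1 j2, e1, neg_add_cancel, zero_add]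
    have e3 : ∫ x, (φ x * fderiv ℝ (psi δ) x e) • u x
        = ∫ x in Ann δ, (φ x * fderiv ℝ (psi δ) x e) • u x := by
      refine (setIntegral_eq_integral_of_forall_compl_eq_zero fun x hx => ?_).symm
      have : deriv eta ((‖x‖ ^ 2 - 1) / δ) = 0 := image_eq_zero_of_notMem_tsupport fun h' =>
        notMem_tsupport hδ (lt_of_notMem_Ann hδ hx) (tsupport_deriv_subset h')
      rw [fderiv_psi, this]
      simp
    rw [e2, e3]
    refine (norm_setIntegral_le_of_norm_le_const (C := M * (C * (4 * ‖e‖ / δ)) * ε) (s := Ann δ)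
      ((measure_mono sdiff_subset).trans_lt measure_closedBall_lt_top) fun x hx => ?_).trans
      (le_of_eq ?_)
    · have b1 : ‖x‖ ≤ 2 := (mem_closedBall_zero_iff.1 hx.1).trans (by linarith)
      have b2 : |2 * inner ℝ x e / δ| ≤ 4 * ‖e‖ / δ := by
        rw [abs_div, abs_of_pos hδ, abs_mul, abs_two]
        refine div_le_div_of_nonneg_right ?_ hδ.le
        nlinarith [abs_real_inner_le_norm x e, norm_nonneg e]
      rw [norm_smul, norm_mul, fderiv_psi, norm_mul]
      exact mul_le_mul (mul_le_mul (hM x) (mul_le_mul (hC _) b2 (norm_nonneg _) hC0)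
        (by positivity) hM0) (hε x) (norm_nonneg _) (by positivity)
    · rw [vol_Ann hδ hδ1]
      field_simp
  have lim : Tendsto (fun k : ℕ => ∫ x, (1 - psi (1 / ((k : ℝ) + 1) / 2) x) • a x) atTop
      (𝓝 (∫ x, a x)) := by
    refine tendsto_integral_of_dominated_convergence (fun x => ‖a x‖) (fun k => ?_) ia.norm
      (fun k => Eventually.of_forall fun x => ?_) ?_
    · exact (continuous_const.sub (psi_smooth _).continuous).aestronglyMeasurable.smul ia.1
    · rw [norm_smul]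
      refine mul_le_of_le_one_left (norm_nonneg _) ?_
      have a1 : 0 ≤ psi (1 / ((k : ℝ) + 1) / 2) x := eta.nonneg
      have a2 : psi (1 / ((k : ℝ) + 1) / 2) x ≤ 1 := eta.le_one
      rw [Real.norm_eq_abs, abs_le]
      constructor <;> linarith
    · filter_upwards [ae_norm_ne_one] with x hx
      have a1 : 0 < |‖x‖ ^ 2 - 1| := abs_pos.2 fun h' => hx (by
        have := norm_nonneg x
        nlinarith)
      refine tendsto_const_nhds.congr' ?_
      filter_upwards [(tendsto_one_div_add_atTop_nhds_zero_nat (𝕜 := ℝ)).eventually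
        (gt_mem_nhds a1)] with k hk
      have : psi (1 / ((k : ℝ) + 1) / 2) x = 0 := image_eq_zero_of_notMem_tsupport (f := eta)
        (notMem_tsupport (δ := 1 / ((k : ℝ) + 1) / 2) (z := x) (by positivity) (by linarith))
      rw [this, sub_zero, one_smul]
  refine le_of_tendsto' lim.norm fun k => step _ (by positivity) ?_
  have : 1 / ((k : ℝ) + 1) ≤ 1 := by
    rw [div_le_one (by positivity)]
    linarith [Nat.cast_nonneg (α := ℝ) k]
  linarith

theorem locLp_one {V : Type*} [NormedAddCommGroup V] {U : Set ℂ} {u : ℂ → V}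
    (h : LocallyIntegrableOn u U) : LocLp 1 U u := fun K hK hKU => by
  rw [Nat.cast_one, memLp_one_iff_integrable]
  exact h.integrableOn_compact_subset hKU hK

theorem glue {F : ℂ → ℂ} (hF : Continuous F) {D : ℂ → ℂ →L[ℝ] ℂ} (h₁ : WD 1 (ball 0 1) F D)
    (h₂ : WD 1 (closedBall 0 1)ᶜ F D) (hD : LocallyIntegrable D) : WD 1 univ F D := by
  have l1 : LocLp 1 univ F := .of_continuousOn hF.continuousOn
  have l2 : LocLp 1 univ D := locLp_one (locallyIntegrableOn_univ.2 hD)
  have h := WD.union le_rfl isOpen_ball isClosed_closedBall.isOpen_compl h₁ h₂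
  refine ⟨l1, l2, fun φ hφ e => eq_neg_of_add_eq_zero_left (norm_le_zero_iff.1 ?_)⟩
  obtain ⟨C, hC⟩ := key hφ e
  have main : ∀ ε : ℝ, 0 < ε →
      ‖(∫ x, fderiv ℝ φ x e • F x) + ∫ x, φ x • D x e‖ ≤ C * ε := fun ε hε => by
    obtain ⟨G, hG, hGF, -⟩ := hF.exists_contDiff_approx 1 (ε := fun _ => ε) continuous_const
      fun _ => hε
    have g : WD 1 univ G (fderiv ℝ G) := .of_contDiff le_rfl hG
    have := hC _ _ ε (l1.sub g.1) (l2.sub g.2.1)
      (fun z => by rw [← dist_eq_norm, dist_comm]; exact (hGF z).le)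
      (h.sub le_rfl (g.mono (subset_univ _)))
    simp only [smul_sub, sub_apply] at this
    rw [integral_sub (l1.integrable_dtest le_rfl hφ e) (g.1.integrable_dtest le_rfl hφ e),
      integral_sub ((l2.apply e).integrable_test le_rfl hφ)
        ((g.2.1.apply e).integrable_test le_rfl hφ), g.2.2 φ hφ e] at this
    convert this using 2
    abel
  have lim : Tendsto (fun ε : ℝ => C * ε) (𝓝[>] 0) (𝓝 0) := by
    have : Tendsto (fun ε : ℝ => C * ε) (𝓝 0) (𝓝 (C * 0)) := tendsto_const_nhds.mul tendsto_id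
    rw [mul_zero] at this
    exact this.mono_left nhdsWithin_le_nhds
  exact ge_of_tendsto lim (eventually_mem_nhdsWithin.mono main)

end GlueA
end Pool.Agent.P.MP_7f9008_an
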