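import Pool.Agent.P.MP_7f9008_an.GadDefs

/-! Elementary estimates for the choice of the gadget sizes. -/

open Set Metric Filter Topology Real

noncomputable section
namespace Pool.Agent.P.MP_7f9008_an

theorem Seq.tpos {t w : ℕ → ℝ} {m : ℕ → ℕ} (hs : Seq t w m) (j : ℕ) : 0 < t j := by
  have h1 := hs.wpos j
  have h2 : (0 : ℝ) < m j := by exact_mod_cast hs.mpos j
  rw [hs.teq]; positivity

theorem Seq.le_pow {t w : ℕ → ℝ} {m : ℕ → ℕ} (hs : Seq t w m) (j : ℕ) :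
    t j ≤ (1 / 100) ^ j := by
  induction j with
  | zero => have := hs.t0; simp only [pow_zero]; linarith
  | succ j ih => have := hs.tdec j; rw [pow_succ]; linarith

theorem Seq.tendsto_zero {t w : ℕ → ℝ} {m : ℕ → ℕ} (hs : Seq t w m) : Tendsto t atTop (𝓝 0) :=
  squeeze_zero (fun j => (hs.tpos j).le) hs.le_pow
    (tendsto_pow_atTop_nhds_zero_of_lt_one (by norm_num) (by norm_num))

theorem lower_num {l c I : ℝ} (hl : 0 < l) (hc : 0 < c) (M : ℕ) : ∀ᶠ j : ℕ in atTop,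
    ∀ (t ρ : ℝ) (m : ℕ), 0 < t → j ≤ m → j * Real.log (1 / t) ≤ (m : ℝ) ^ 4 → c * t ^ M ≤ ρ →
      ¬ l * (ρ / 2 ^ (m ^ 2 / 2)) ^ 2 * Real.exp (l * (m ^ 2 * (m ^ 2 / 2 : ℕ) / 16)) ≤ 2 * I := by
  set A := |Real.log (2 * I) - Real.log l - 2 * Real.log c| with hA
  have A0 : 0 ≤ A := abs_nonneg _
  filter_upwards [eventually_ge_atTop 2, (tendsto_natCast_atTop_atTop (R := ℝ)).eventually_gt_atTop
    (64 * (A + 2 * M + 1) / l)] with j hj2 hj t ρ m ht hjm hlog hρ H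
  rw [div_lt_iff₀ hl] at hj
  set N := m ^ 2 / 2 with hN
  have hm2 : (2 : ℝ) ≤ m := by exact_mod_cast hj2.trans hjm
  have hjm' : (j : ℝ) ≤ m := by exact_mod_cast hjm
  have hj0 : (0 : ℝ) < j := by exact_mod_cast (by omega : 0 < j)
  have hN1 : 2 * (N : ℝ) ≤ (m : ℝ) ^ 2 := by
    have : 2 * N ≤ m ^ 2 := by omega
    exact_mod_cast this
  have hN2 : (m : ℝ) ^ 2 ≤ 4 * N := by
    have h4 : 2 ^ 2 ≤ m ^ 2 := Nat.pow_le_pow_left (hj2.trans hjm) 2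
    have : m ^ 2 ≤ 4 * N := by omega
    exact_mod_cast this
  have hρ0 : 0 < ρ := lt_of_lt_of_le (by positivity) hρ
  have h1 := Real.log_le_log (by positivity) H
  rw [Real.log_mul (by positivity) (by positivity), Real.log_mul (by positivity) (by positivity),
    Real.log_exp, Real.log_pow, Real.log_div (by positivity) (by positivity), Real.log_pow] at h1
  have h2 := Real.log_le_log (by positivity) hρ
  rw [Real.log_mul (by positivity) (by positivity), Real.log_pow] at h2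
  rw [one_div, Real.log_inv] at hlog
  have h3 : Real.log 2 ≤ 1 := by linarith [Real.log_two_lt_d9]
  have h4 : Real.log (2 * I) - Real.log l - 2 * Real.log c ≤ A := le_abs_self _
  have h5 : (N : ℝ) * Real.log 2 ≤ N := mul_le_of_le_one_right (Nat.cast_nonneg _) h3
  have h6 : l * ((m : ℝ) ^ 4 / 64) ≤ l * (m ^ 2 * N / 16) := by
    gcongr ?_ * ?_
    nlinarith [sq_nonneg (m : ℝ)]
  have h7 : l * ((m : ℝ) ^ 4 / 64) ≤ A + 2 * M * (-Real.log t) + m ^ 2 := by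
    push_cast at h1; linarith
  have h8 : (j : ℝ) ≤ (m : ℝ) ^ 4 :=
    hjm'.trans (le_self_pow₀ (by linarith) (by norm_num))
  have h9 : (j : ℝ) * m ^ 2 ≤ (m : ℝ) ^ 4 := by
    have : (m : ℝ) ≤ m ^ 2 := le_self_pow₀ (by linarith) (by norm_num)
    calc (j : ℝ) * m ^ 2 ≤ m ^ 2 * m ^ 2 := by gcongr; exact hjm'.trans this
      _ = _ := by ring
  have h10 : (j : ℝ) * (l * ((m : ℝ) ^ 4 / 64)) ≤ (A + 2 * M + 1) * (m : ℝ) ^ 4 := by
    calc (j : ℝ) * (l * ((m : ℝ) ^ 4 / 64)) ≤ j * (A + 2 * M * (-Real.log t) + m ^ 2) := by gcongr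
      _ = A * j + 2 * M * (j * (-Real.log t)) + j * m ^ 2 := by ring
      _ ≤ A * m ^ 4 + 2 * M * m ^ 4 + m ^ 4 := by gcongr
      _ = _ := by ring
  have h11 : (0 : ℝ) < (m : ℝ) ^ 4 := by positivity
  nlinarith

theorem lower_step {φ : ℝ → ℝ} {t₀ κ : ℝ} (ht₀ : 0 < t₀) (hκ : 0 < κ)
    (h2 : ∀ A : ℝ, ∃ᶠ t in 𝓝[>] (0 : ℝ), A * t * Real.log (1 / t) ^ (1 / 4 : ℝ) < φ t)
    (j : ℕ) (ε : ℝ) : ∃ (v : ℝ) (m : ℕ), 0 < ε → 0 < v ∧ v < t₀ ∧ 1 ≤ m ∧ 8 * m * (κ * v) ≤ ε ∧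
      8 * m * (κ * v) ≤ φ v ∧ j ≤ m ∧ j * Real.log (1 / (8 * m * (κ * v))) ≤ (m : ℝ) ^ 4 := by
  by_cases hε : 0 < ε
  swap
  · exact ⟨0, 0, fun h => absurd h hε⟩
  have e1 : ∀ᶠ v in 𝓝[>] (0 : ℝ), v < min t₀ (min (8 * κ) (Real.exp (-1))) :=
    nhdsWithin_le_nhds (gt_mem_nhds (by positivity))
  have e2 : ∀ᶠ v in 𝓝[>] (0 : ℝ), 16 * κ * (j + 1) * Real.negMulLog v < ε := by
    refine nhdsWithin_le_nhds (ContinuousAt.eventually_lt (f := fun v =>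
      16 * κ * (j + 1) * Real.negMulLog v) (g := fun _ => ε) (by fun_prop) continuousAt_const ?_)
    simpa using hε
  obtain ⟨v, ⟨⟨hv, hv1⟩, hv2⟩, hv0⟩ := ((((h2 (16 * κ * (j + 1))).and_eventually e1).and_eventually
    e2).and_eventually self_mem_nhdsWithin).exists
  have hv0 : 0 < v := hv0
  simp only [lt_min_iff] at hv1
  obtain ⟨a1, a2, a3⟩ := hv1
  set L := Real.log (1 / v) with hL
  have L1 : 1 ≤ L := by
    have := Real.log_le_log hv0 a3.le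
    rw [Real.log_exp] at this
    rw [hL, one_div, Real.log_inv]; linarith
  set s := L ^ (1 / 4 : ℝ) with hs
  have s1 : 1 ≤ s := Real.one_le_rpow L1 (by norm_num)
  have s4 : s ^ 4 = L := by
    rw [hs, ← Real.rpow_natCast, ← Real.rpow_mul (by linarith)]; norm_num
  have sL : s ≤ L := s4 ▸ le_self_pow₀ s1 (by norm_num)
  have j0 : (0 : ℝ) ≤ j := Nat.cast_nonneg j
  have b0 : (j : ℝ) + 1 ≤ (j + 1) * s := le_mul_of_one_le_right (by positivity) s1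
  have b1 : ((j : ℝ) + 1) * s ≤ ⌈((j : ℝ) + 1) * s⌉₊ := Nat.le_ceil _
  have b2 : (⌈((j : ℝ) + 1) * s⌉₊ : ℝ) ≤ 2 * ((j + 1) * s) := by
    have := Nat.ceil_lt_add_one (a := ((j : ℝ) + 1) * s) (by positivity)
    linarith
  generalize ⌈((j : ℝ) + 1) * s⌉₊ = m at b1 b2
  have b3 : 8 * (m : ℝ) * (κ * v) ≤ 16 * κ * (j + 1) * v * s := by
    calc 8 * (m : ℝ) * (κ * v) ≤ 8 * (2 * ((j + 1) * s)) * (κ * v) := by gcongr
      _ = _ := by ring
  have m1 : (1 : ℝ) ≤ m := by linarith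
  refine ⟨v, m, fun _ => ⟨hv0, a1, by exact_mod_cast m1, b3.trans (le_trans ?_ hv2.le),
    b3.trans hv.le, by exact_mod_cast (by linarith : (j : ℝ) ≤ m), ?_⟩⟩
  · have : Real.negMulLog v = v * L := by rw [hL, one_div, Real.log_inv, Real.negMulLog]; ring
    rw [this, mul_assoc _ v]
    gcongr
  · have c1 : Real.log (1 / (8 * m * (κ * v))) ≤ 2 * L := by
      have : v ^ 2 ≤ 8 * m * (κ * v) := by
        calc v ^ 2 = 1 * (v * v) := by ring
          _ ≤ m * ((8 * κ) * v) := by gcongr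
          _ = _ := by ring
      have h := Real.log_le_log (by positivity) this
      rw [Real.log_pow] at h
      rw [hL, one_div, one_div, Real.log_inv, Real.log_inv]; push_cast at h; linarith
    have c2 : 2 * (j : ℝ) ≤ (j + 1) ^ 4 := by
      have : (j : ℝ) + 1 ≤ ((j : ℝ) + 1) ^ 2 := le_self_pow₀ (by linarith) (by norm_num)
      nlinarith [sq_nonneg (j : ℝ)]
    calc (j : ℝ) * Real.log (1 / (8 * m * (κ * v))) ≤ j * (2 * L) := by gcongr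
      _ = 2 * j * L := by ring
      _ ≤ (j + 1) ^ 4 * L := by gcongr
      _ = ((j + 1) * s) ^ 4 := by rw [mul_pow, s4]
      _ ≤ _ := by gcongr

theorem lower_seq {φ : ℝ → ℝ} {t₀ κ : ℝ} (ht₀ : 0 < t₀) (hκ : 0 < κ)
    (h2 : ∀ A : ℝ, ∃ᶠ t in 𝓝[>] (0 : ℝ), A * t * Real.log (1 / t) ^ (1 / 4 : ℝ) < φ t) :
    ∃ (t v : ℕ → ℝ) (m : ℕ → ℕ), Seq t (fun j => κ * v j) m ∧ ∀ j, 0 < v j ∧ v j < t₀ ∧
      t j ≤ φ (v j) ∧ j ≤ m j ∧ j * Real.log (1 / t j) ≤ (m j : ℝ) ^ 4 := by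
  choose V M h using lower_step ht₀ hκ h2
  obtain ⟨ε, e0, e1⟩ : ∃ ε : ℕ → ℝ, ε 0 = 1 / 1000 ∧
      ∀ j, ε (j + 1) = 8 * M j (ε j) * (κ * V j (ε j)) / 100 :=
    ⟨fun j => Nat.rec (1 / 1000) (fun j e => 8 * M j e * (κ * V j e) / 100) j, rfl, fun _ => rfl⟩
  have hp : ∀ j, 0 < ε j := by
    intro j
    induction j with
    | zero => rw [e0]; norm_num
    | succ j ih =>
      obtain ⟨a1, -, a2, -⟩ := h j _ ih
      have : (0 : ℝ) < M j (ε j) := by exact_mod_cast a2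
      rw [e1]; positivity
  refine ⟨fun j => 8 * M j (ε j) * (κ * V j (ε j)), fun j => V j (ε j), fun j => M j (ε j),
    ⟨fun j => mul_pos hκ (h j _ (hp j)).1, fun j => (h j _ (hp j)).2.2.1, fun j => rfl,
      e0 ▸ (h 0 _ (hp 0)).2.2.2.1, fun j => ?_⟩, fun j => ?_⟩
  · have := (h (j + 1) _ (hp (j + 1))).2.2.2.1
    have := e1 j
    linarith
  · obtain ⟨a1, a2, -, -, a3, a4, a5⟩ := h j _ (hp j)
    exact ⟨a1, a2, a3, a4, a5⟩

end Pool.Agent.P.MP_7f9008_an
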