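import Pool.Agent.P.MP_7f9008_an.LowerInA

/-! Polynomial lower bounds for the conformal size of a gadget. -/

open MeasureTheory Set Metric Filter Topology Real Complex
open scoped ENNReal

noncomputable section
namespace Pool.Agent.P.MP_7f9008_an
namespace LI

variable {t w : ℕ → ℝ} {m : ℕ → ℕ} {a b : ℝ → ℝ} {Ω U : Set ℂ} {δ : ℝ} {Ξ : ℂ → ℂ}

theorem neg_im_le (z : ℂ) (p : ℝ) : -z.im ≤ dist z ⟨p, 0⟩ := by
  have h := Complex.abs_im_le_norm (z - ⟨p, 0⟩)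
  rw [dist_eq_norm]
  refine le_trans ?_ h
  simpa using neg_le_abs z.im

/-- Harnack inequality along a horizontal segment. -/
theorem harn (conf : Conf U Ξ) (neg : ∀ z ∈ U, (Ξ z).im < 0) {N : ℕ} (hN : (40000 : ℝ) < N)
    {p p' q l : ℝ} (hl : 0 < l) (hp : p' - p ≤ 20 * l)
    (hU : Icc (p - l) (p' + l) ×ℂ Icc (q - l) (q + l) ⊆ U) {x₁ x₂ : ℝ} (h₁ : x₁ ∈ Icc p p')
    (h₂ : x₂ ∈ Icc p p') : -(Ξ ⟨x₂, q⟩).im ≤ 2 ^ N * -(Ξ ⟨x₁, q⟩).im := by
  have hr : 0 < -(Ξ ⟨x₁, q⟩).im := neg_pos.2 (neg _ (hU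
    ⟨⟨by linarith [h₁.1], by linarith [h₁.2]⟩, ⟨by linarith, by linarith⟩⟩))
  by_contra hn
  have := conf.qc.ring zero_le_one conf.distLe hl hr hU (w := ⟨(Ξ ⟨x₁, q⟩).re, 0⟩)
    (z₁ := ⟨x₁, q⟩) (z₂ := ⟨x₂, q⟩) (N := N) ⟨h₁, le_rfl, le_rfl⟩ ⟨h₂, le_rfl, le_rfl⟩
    (by
      rw [Complex.dist_of_re_eq (by simp), Real.dist_eq, sub_zero, abs_of_neg (by linarith)])
    ((not_le.1 hn).le.trans (neg_im_le _ _))
    (fun hc => by
      obtain ⟨z, hz, e⟩ := hc (mem_closedBall_self hr.le)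
      have := neg z (hU hz)
      rw [e] at this
      exact lt_irrefl _ this)
  nlinarith [mul_pos hl hl]

theorem rect1 (hs : Seq t w m) (hg : Gad t w m a b Ω) (j : ℕ) (h1 : 20 * t j < δ)
    (h2 : 20 * t j ≤ 1 / 4) :
    Icc (-t j - t j / 4) (4 * t j + t j / 4) ×ℂ Icc (5 * t j - t j / 4) (5 * t j + t j / 4) ⊆
      Ω ∩ ball 0 δ := by
  have ht := tpos hs j
  rintro ⟨x, y⟩ ⟨⟨x1, x2⟩, y1, y2⟩
  dsimp only at x1 x2 y1 y2
  have ex : |x| ≤ 5 * t j := abs_le.2 ⟨by linarith, by linarith⟩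
  have ey : |y| ≤ 6 * t j := abs_le.2 ⟨by linarith, by linarith⟩
  refine ⟨?_, mem_ball_of (by linarith)⟩
  rw [hg.mem _ (by dsimp only; linarith) (by dsimp only; linarith)]
  show b (x - a y) < y
  rw [hg.azero j y ⟨by linarith, by linarith⟩, sub_zero]
  exact (hg.ble j x (by linarith)).trans_lt (max_lt (by linarith) (by linarith))

theorem rect2 (hg : Gad t w m a b Ω) {u q s : ℝ} (hu : 0 < u) (hus : u ≤ s) (hq : 0 ≤ q)
    (hqs : q ≤ s) (h1 : 10 * s ≤ δ) (h2 : 10 * s ≤ 1 / 4) :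
    Icc (-(2 * u) - u / 4) (-u + u / 4) ×ℂ Icc (q - u / 4) (q + u / 4) ⊆ Ω ∩ ball 0 δ := by
  rintro ⟨x, y⟩ ⟨⟨x1, x2⟩, y1, y2⟩
  dsimp only at x1 x2 y1 y2
  have ex : |x| ≤ 3 * s := abs_le.2 ⟨by linarith, by linarith⟩
  have ey : |y| ≤ 2 * s := abs_le.2 ⟨by linarith, by linarith⟩
  refine ⟨?_, mem_ball_of (by linarith)⟩
  rw [hg.mem _ (by dsimp only; linarith) (by dsimp only; linarith)]
  show b (x - a y) < y
  have := hg.a0 y
  exact (hg.bneg _ (by linarith)).trans_lt (by linarith)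

/-- The distance to the real line above the gadget is at least polynomial in `t`. -/
theorem height (hs : Seq t w m) (hg : Gad t w m a b Ω) (hδ : 0 < δ)
    (hc : ContinuousOn Ξ (ball 0 δ)) (conf : Conf (Ω ∩ ball 0 δ) Ξ)
    (neg : ∀ z ∈ Ω ∩ ball 0 δ, (Ξ z).im < 0) :
    ∃ c : ℝ, 0 < c ∧ ∃ M : ℕ, ∀ᶠ j in atTop, 20 * t j < δ ∧ 20 * t j ≤ 1 / 4 ∧
      ∀ X ∈ Icc (-t j) (4 * t j), c * t j ^ M ≤ -(Ξ ⟨X, 5 * t j⟩).im := by
  obtain ⟨N, hN⟩ := exists_nat_gt (40000 : ℝ)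
  obtain ⟨s, s0, s1, s2⟩ : ∃ s : ℝ, 0 < s ∧ 10 * s ≤ δ ∧ 10 * s ≤ 1 / 4 :=
    ⟨min δ (1 / 4) / 10, by positivity, by linarith [min_le_left δ (1 / 4)],
      by linarith [min_le_right δ (1 / 4)]⟩
  have hz : (⟨-s, 0⟩ : ℂ) ∈ Ω ∩ ball 0 δ := rect2 hg s0 le_rfl le_rfl s0.le s1 s2
    ⟨⟨by dsimp only; linarith, by dsimp only; linarith⟩,
      ⟨by dsimp only; linarith, by dsimp only; linarith⟩⟩
  have c0 : 0 < -(Ξ ⟨-s, 0⟩).im := neg_pos.2 (neg _ hz)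
  have l1 : Tendsto (fun j => -(Ξ ⟨-s, 5 * t j⟩).im) atTop (𝓝 (-(Ξ ⟨-s, 0⟩).im)) := by
    have k1 : Tendsto (fun j => (⟨-s, 5 * t j⟩ : ℂ)) atTop (𝓝 ⟨-s, 0⟩) := by
      refine ((continuous_v (-s)).tendsto 0).comp ?_
      simpa using (tendsto_t hs).const_mul 5
    have k2 := ((hc _ hz.2).continuousAt (isOpen_ball.mem_nhds hz.2)).tendsto.comp k1
    exact ((continuous_im.tendsto _).comp k2).neg
  have e1 := l1.eventually (lt_mem_nhds (half_lt_self c0))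
  have e2 := (tendsto_t hs).eventually (gt_mem_nhds (show 0 < s / 5 by positivity))
  generalize -(Ξ ⟨-s, 0⟩).im = c at c0 e1
  refine ⟨c / 2 / (2 ^ N * 2 ^ N * s ^ N), by positivity, N, (e1.and e2).mono ?_⟩
  rintro j ⟨f1, f2⟩
  have ht := tpos hs j
  refine ⟨by linarith, by linarith, fun X hX => ?_⟩
  have ind : ∀ k : ℕ, 2 ^ k * t j ≤ 2 * s →
      -(Ξ ⟨-(2 ^ k * t j), 5 * t j⟩).im ≤ (2 ^ N) ^ k * -(Ξ ⟨-t j, 5 * t j⟩).im := by
    intro k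
    induction k with
    | zero => simp
    | succ k ih =>
      intro hk
      rw [pow_succ] at hk
      have hu : 0 < 2 ^ k * t j := by positivity
      have := harn conf neg hN (l := 2 ^ k * t j / 4) (by positivity) (by linarith)
        (rect2 hg hu (s := s) (by linarith) (q := 5 * t j) (by linarith) (by linarith) s1 s2)
        (x₁ := -(2 ^ k * t j)) (x₂ := -(2 ^ (k + 1) * t j)) ⟨by linarith, le_rfl⟩
        ⟨by rw [pow_succ]; linarith, by rw [pow_succ]; linarith⟩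
      refine this.trans ?_
      rw [pow_succ', mul_assoc]
      exact mul_le_mul_of_nonneg_left (ih (by linarith)) (by positivity)
  obtain ⟨n, n1, n2⟩ := exists_nat_pow_near (x := s / t j) ((one_le_div ht).2 (by linarith))
    (one_lt_two (α := ℝ))
  have n1' := (le_div_iff₀ ht).1 n1
  rw [div_lt_iff₀ ht, pow_succ] at n2
  have hu : 0 < 2 ^ n * t j := by positivity
  have g1 := harn conf neg hN (l := 2 ^ n * t j / 4) (by positivity) (by linarith)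
    (rect2 hg hu (s := s) n1' (q := 5 * t j) (by linarith) (by linarith) s1 s2)
    (x₁ := -(2 ^ n * t j)) (x₂ := -s) ⟨by linarith, le_rfl⟩ ⟨by linarith, by linarith⟩
  have g2 := ind n (by linarith)
  have hR := rect1 hs hg j (δ := δ) (by linarith) (by linarith)
  have g3 := harn conf neg hN (l := t j / 4) (by positivity) (by linarith) hR
    (x₁ := X) (x₂ := -t j) hX ⟨le_rfl, by linarith⟩
  have g4 : ((2 : ℝ) ^ N) ^ n ≤ (s / t j) ^ N := by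
    rw [← pow_mul, mul_comm, pow_mul]
    exact pow_le_pow_left₀ (by positivity) n1 N
  have g5 : 0 < -(Ξ ⟨X, 5 * t j⟩).im := neg_pos.2 (neg _ (hR
    ⟨⟨by linarith [hX.1], by linarith [hX.2]⟩, ⟨by dsimp only; linarith, by dsimp only; linarith⟩⟩))
  generalize -(Ξ ⟨X, 5 * t j⟩).im = A at g3 g5 ⊢
  have g6 : c / 2 ≤ 2 ^ N * ((s / t j) ^ N * (2 ^ N * A)) := by
    refine f1.le.trans (g1.trans (mul_le_mul_of_nonneg_left (g2.trans ?_) (by positivity)))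
    calc _ ≤ (2 ^ N) ^ n * (2 ^ N * A) := mul_le_mul_of_nonneg_left g3 (by positivity)
      _ ≤ _ := mul_le_mul_of_nonneg_right g4 (by positivity)
  rw [div_mul_eq_mul_div, div_le_iff₀ (by positivity)]
  calc c / 2 * t j ^ N ≤ 2 ^ N * ((s / t j) ^ N * (2 ^ N * A)) * t j ^ N :=
        mul_le_mul_of_nonneg_right g6 (by positivity)
    _ = _ := by rw [div_pow]; field_simp

/-- The upper ends of the walls are conformally large. -/
theorem wall (hs : Seq t w m) (hg : Gad t w m a b Ω) (hc : ContinuousOn Ξ (ball 0 δ))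
    (conf : Conf (Ω ∩ ball 0 δ) Ξ) (j : ℕ) (h1 : 20 * t j < δ) (h2 : 20 * t j ≤ 1 / 4)
    {h₀ x₁ p r : ℝ} (hr : 0 < r) (hx : t j ≤ x₁) (hx' : x₁ + t j / 3 ≤ 4 * t j)
    (H : ∀ X ∈ Icc (-t j) (4 * t j), h₀ ≤ -(Ξ ⟨X, 5 * t j⟩).im)
    (hb : ∀ X ∈ Ioo x₁ (x₁ + t j / 3), b X ∈ Icc (3 * t j) (4 * t j) ∧
      dist (Ξ ⟨X + a (b X), b X⟩) ⟨p, 0⟩ ≤ r) : h₀ ≤ 2 ^ 79 * r := by
  have ht := tpos hs j
  by_contra hn
  have := conf.qc.vert_annulus zero_le_one conf.distLe (x₁ := x₁) (x₂ := x₁ + t j / 3)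
    (y₁ := 3 * t j) (y₂ := 5 * t j) (by linarith) hr (w := ⟨p, 0⟩) (N := 79) fun X hX => by
      obtain ⟨⟨b1, b2⟩, b3⟩ := hb X hX
      have hB : ∀ τ ∈ Icc (b X) (5 * t j), (⟨X, τ⟩ : ℂ) ∈ ball (0 : ℂ) δ := fun τ hτ =>
        mem_ball_of (by
          rw [abs_of_pos (by linarith [hX.1]), abs_of_pos (by linarith [hτ.1])]
          linarith [hX.2, hτ.2])
      refine ⟨b X, 5 * t j, b1, by linarith, le_rfl, hc.comp (continuous_v X).continuousOn hB,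
        fun τ hτ => ⟨?_, hB τ ⟨hτ.1.le, hτ.2.le⟩⟩, Or.inl ⟨?_, ?_⟩⟩
      · rw [hg.mem _ (by
          rw [abs_of_pos (by linarith [hX.1])]; linarith [hX.2]) (by
          rw [abs_of_pos (by linarith [hτ.1])]; linarith [hτ.2])]
        show b (X - a τ) < τ
        rw [hg.azero j τ ⟨by linarith [hτ.1], by linarith [hτ.2]⟩, sub_zero]
        exact hτ.1
      · rwa [hg.azero j _ ⟨b1, by linarith⟩, add_zero] at b3
      · exact (not_le.1 hn).le.trans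
          ((H X ⟨by linarith [hX.1], by linarith [hX.2]⟩).trans (neg_im_le _ _))
  push_cast at this
  linarith

end LI
end Pool.Agent.P.MP_7f9008_an
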