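import Pool.Agent.P.MP_7f9008_an.GadDefs
import Pool.Agent.P.MP_7f9008_an.Family
import Pool.Agent.P.MP_7f9008_an.LowerInB

/-! Interior estimates: in a conformal coordinate the two walls of the finger face each other
over `m ^ 2 / 2` dyadic scales. -/

open MeasureTheory Set Metric Filter Topology Real Complex
open scoped ENNReal

noncomputable section
namespace Pool.Agent.P.MP_7f9008_an

theorem lower_in {t w : ℕ → ℝ} {m : ℕ → ℕ} {a b : ℝ → ℝ} {Ω : Set ℂ} (hs : Seq t w m)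
    (hg : Gad t w m a b Ω) {δ : ℝ} (hδ : 0 < δ) {Ξ : ℂ → ℂ} (hc : ContinuousOn Ξ (ball 0 δ))
    (hi : InjOn Ξ (ball 0 δ)) (conf : Conf (Ω ∩ ball 0 δ) Ξ)
    (neg : ∀ z ∈ Ω ∩ ball 0 δ, (Ξ z).im < 0)
    (zero : ∀ z ∈ frontier Ω ∩ ball 0 δ, (Ξ z).im = 0) :
    ∃ c : ℝ, 0 < c ∧ ∃ M : ℕ, ∀ᶠ j in atTop, ∃ x ρ : ℝ, c * t j ^ M ≤ ρ ∧
      ∀ r ∈ Icc (ρ / 2 ^ (m j ^ 2 / 2)) ρ, ∃ X ∈ Icc (2 * t j) (5 / 2 * t j),
        ∃ X' ∈ Icc (7 / 2 * t j) (4 * t j),
          (Ξ ⟨X + a (b X), b X⟩ = ⟨x - r, 0⟩ ∧ Ξ ⟨X' + a (b X'), b X'⟩ = ⟨x + r, 0⟩) ∨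
          (Ξ ⟨X + a (b X), b X⟩ = ⟨x + r, 0⟩ ∧ Ξ ⟨X' + a (b X'), b X'⟩ = ⟨x - r, 0⟩) := by
  obtain ⟨c, c0, M, hM⟩ := LI.height hs hg hδ hc conf neg
  refine ⟨c / 2 ^ 79, by positivity, M, hM.mono ?_⟩
  rintro j ⟨h1, h2, H⟩
  have ht := LI.tpos hs j
  have hbX : ∀ X ∈ Icc (2 * t j) (4 * t j), 0 ≤ b X ∧ b X ≤ 4 * t j := fun X hX => by
    rcases le_total X (3 * t j) with h | h
    · rw [hg.b2 j X ⟨hX.1, h⟩]; constructor <;> linarith [hX.1]
    · rw [hg.b3 j X ⟨h, hX.2⟩]; constructor <;> linarith [hX.2]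
  have hB : ∀ X ∈ Icc (2 * t j) (4 * t j), (⟨X + a (b X), b X⟩ : ℂ) ∈ ball (0 : ℂ) δ :=
    fun X hX => LI.mem_ball_of (by
      obtain ⟨k1, k2⟩ := hbX X hX
      have k3 := hg.a0 (b X)
      have k4 := hg.ale j (b X) (by linarith)
      rw [abs_of_pos (by linarith [hX.1]), abs_of_nonneg k1]
      linarith [hX.2])
  set th : ℝ → ℝ := fun X => (Ξ ⟨X + a (b X), b X⟩).re with hth
  have hre : ∀ X ∈ Icc (2 * t j) (4 * t j), Ξ ⟨X + a (b X), b X⟩ = ⟨th X, 0⟩ := fun X hX =>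
    Complex.ext rfl (zero _ ⟨hg.fr j X ⟨by linarith [hX.1], hX.2⟩, hB X hX⟩)
  have cg : Continuous fun X : ℝ => (⟨X + a (b X), b X⟩ : ℂ) := by
    have e : (fun X : ℝ => (⟨X + a (b X), b X⟩ : ℂ)) =
        fun X : ℝ => ((X + a (b X) : ℝ) : ℂ) + (b X : ℝ) * Complex.I :=
      funext fun X => Complex.mk_eq_add_mul_I _ _
    have k1 := hg.acont
    have k2 := hg.bcont
    rw [e]
    fun_prop
  have cth : ContinuousOn th (Icc (2 * t j) (4 * t j)) :=
    continuous_re.comp_continuousOn (hc.comp cg.continuousOn hB)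
  have ith : InjOn th (Icc (2 * t j) (4 * t j)) := fun X hX Y hY e => by
    have e1 := hi (hB X hX) (hB Y hY) (by rw [hre X hX, hre Y hY, e])
    have e2 : X + a (b X) = Y + a (b Y) := congrArg Complex.re e1
    have e3 : b X = b Y := congrArg Complex.im e1
    rw [e3] at e2
    linarith
  obtain ⟨s, hs1, hmono⟩ : ∃ s : ℝ, (s = 1 ∨ s = -1) ∧
      StrictMonoOn (fun X => s * th X) (Icc (2 * t j) (4 * t j)) := by
    rcases cth.strictMonoOn_of_injOn_Icc' (by linarith) ith with h | h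
    · exact ⟨1, Or.inl rfl, fun X hX Y hY e => by simpa using h hX hY e⟩
    · exact ⟨-1, Or.inr rfl, fun X hX Y hY e => by simpa using h hX hY e⟩
  set f : ℝ → ℝ := fun X => s * th X with hf
  have ss : s * s = 1 := by rcases hs1 with rfl | rfl <;> norm_num
  have thf : ∀ X, th X = s * f X := fun X => by rw [hf]; dsimp only; rw [← mul_assoc, ss, one_mul]
  have cf : ContinuousOn f (Icc (2 * t j) (4 * t j)) := continuousOn_const.mul cth
  have hle : ∀ X Y, 2 * t j ≤ X → X ≤ Y → Y ≤ 4 * t j → f X ≤ f Y := fun X Y k1 k2 k3 =>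
    hmono.monotoneOn ⟨k1, k2.trans k3⟩ ⟨k1.trans k2, k3⟩ k2
  have hlt : ∀ X Y, 2 * t j ≤ X → X < Y → Y ≤ 4 * t j → f X < f Y := fun X Y k1 k2 k3 =>
    hmono ⟨k1, k2.le.trans k3⟩ ⟨k1.trans k2.le, k3⟩ k2
  have habs : ∀ X Y, |th X - th Y| = |f X - f Y| := fun X Y => by
    rw [thf X, thf Y, ← mul_sub, abs_mul]
    rcases hs1 with rfl | rfl <;> simp
  have f12 := hlt (2 * t j) (5 / 2 * t j) le_rfl (by linarith) (by linarith)
  have f23 := hlt (5 / 2 * t j) (7 / 2 * t j) (by linarith) (by linarith) (by linarith)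
  have f34 := hlt (7 / 2 * t j) (4 * t j) (by linarith) (by linarith) le_rfl
  have w1 : c * t j ^ M ≤ 2 ^ 79 * (f (5 / 2 * t j) - f (2 * t j)) :=
    LI.wall hs hg hc conf j h1 h2 (x₁ := 2 * t j) (p := th (2 * t j)) (by linarith) (by linarith)
      (by linarith) H fun X hX => by
        refine ⟨?_, ?_⟩
        · rw [hg.b2 j X ⟨hX.1.le, by linarith [hX.2]⟩]
          constructor <;> linarith [hX.1, hX.2]
        · have k1 := hle (2 * t j) X le_rfl hX.1.le (by linarith [hX.2])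
          have k2 := hle X (5 / 2 * t j) hX.1.le (by linarith [hX.2]) (by linarith)
          rw [hre X ⟨hX.1.le, by linarith [hX.2]⟩, LI.dist_real, habs, abs_le]
          constructor <;> linarith
  have w2 : c * t j ^ M ≤ 2 ^ 79 * (f (4 * t j) - f (7 / 2 * t j)) :=
    LI.wall hs hg hc conf j h1 h2 (x₁ := 11 / 3 * t j) (p := th (4 * t j)) (by linarith)
      (by linarith) (by linarith) H fun X hX => by
        refine ⟨?_, ?_⟩
        · rw [hg.b3 j X ⟨by linarith [hX.1], by linarith [hX.2]⟩]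
          constructor <;> linarith [hX.1, hX.2]
        · have k1 := hle (7 / 2 * t j) X (by linarith) (by linarith [hX.1]) (by linarith [hX.2])
          have k2 := hle X (4 * t j) (by linarith [hX.1]) (by linarith [hX.2]) le_rfl
          rw [hre X ⟨by linarith [hX.1], by linarith [hX.2]⟩, LI.dist_real, habs, abs_le]
          constructor <;> linarith
  obtain ⟨x, hx⟩ : ∃ x, x = (f (5 / 2 * t j) + f (7 / 2 * t j)) / 2 := ⟨_, rfl⟩
  obtain ⟨g, hgg⟩ : ∃ g, g = (f (7 / 2 * t j) - f (5 / 2 * t j)) / 2 := ⟨_, rfl⟩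
  have g0 : 0 < g := by linarith
  obtain ⟨ρ, r1, r2, r3⟩ : ∃ ρ, ρ ≤ x - f (2 * t j) ∧ ρ ≤ f (4 * t j) - x ∧
      (ρ = x - f (2 * t j) ∨ ρ = f (4 * t j) - x) :=
    ⟨min _ _, min_le_left _ _, min_le_right _ _, min_choice _ _⟩
  have stepA : 2 ^ (m j ^ 2 / 2) * g ≤ ρ := by
    by_contra hn
    rw [not_le] at hn
    have key : 8 * (m j : ℝ) ^ 2 ≤ 13 * (m j ^ 2 / 2 : ℕ) := by
      rcases r3 with r3 | r3
      · obtain ⟨σ, mσ, hσ, hW⟩ := LI.family (s * x) (s := -s) g0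
          (by rcases hs1 with rfl | rfl <;> simp) (m j ^ 2 / 2)
        refine LI.finger hs hg hc conf j h1 h2 mσ (by positivity) hσ fun X hX X' hX' => ?_
        have k1 := hle (2 * t j) X le_rfl hX.1 (by linarith [hX.2])
        have k2 := hle X (5 / 2 * t j) hX.1 hX.2 (by linarith)
        have k3 := hle (7 / 2 * t j) X' (by linarith) hX'.1 hX'.2
        have e : ∀ Y, -s * (th Y - s * x) = x - f Y := fun Y => by
          rw [thf Y]; linear_combination (x - f Y) * ss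
        rw [hre X ⟨hX.1, by linarith [hX.2]⟩, hre X' ⟨by linarith [hX'.1], hX'.2⟩]
        exact hW _ _ (by rw [e]; linarith) (by rw [e]; linarith) (by rw [e]; linarith)
      · obtain ⟨σ, mσ, hσ, hW⟩ := LI.family (s * x) g0 hs1 (m j ^ 2 / 2)
        refine LI.finger hs hg hc conf j h1 h2 mσ (by positivity) hσ fun X hX X' hX' => ?_
        have k2 := hle X (5 / 2 * t j) hX.1 hX.2 (by linarith)
        have k3 := hle (7 / 2 * t j) X' (by linarith) hX'.1 hX'.2
        have k4 := hle X' (4 * t j) (by linarith [hX'.1]) hX'.2 le_rfl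
        have e : ∀ Y, s * (th Y - s * x) = f Y - x := fun Y => by
          rw [thf Y]; linear_combination (f Y - x) * ss
        rw [hre X ⟨hX.1, by linarith [hX.2]⟩, hre X' ⟨by linarith [hX'.1], hX'.2⟩]
        obtain ⟨W, ρ', k5, k6, k7⟩ := hW (th X') (th X) (by rw [e]; linarith)
          (by rw [e]; linarith) (by rw [e]; linarith)
        exact ⟨W, ρ', k5, k6, by rwa [abs_sub_comm]⟩
    have k1 : ((m j ^ 2 / 2 : ℕ) : ℝ) ≤ (m j : ℝ) ^ 2 / 2 := by
      have := Nat.cast_div_le (α := ℝ) (m := m j ^ 2) (n := 2)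
      rwa [Nat.cast_pow, Nat.cast_ofNat] at this
    have k2 : (1 : ℝ) ≤ m j := by exact_mod_cast hs.mpos j
    nlinarith
  refine ⟨s * x, ρ, ?_, fun r hr => ?_⟩
  · rw [div_mul_eq_mul_div, div_le_iff₀' (by positivity)]
    rcases r3 with r3 | r3
    · exact w1.trans (mul_le_mul_of_nonneg_left (by linarith) (by positivity))
    · exact w2.trans (mul_le_mul_of_nonneg_left (by linarith) (by positivity))
  · have r4 : g ≤ r := ((le_div_iff₀' (by positivity)).2 stepA).trans hr.1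
    obtain ⟨X, hX, eX⟩ := intermediate_value_Icc (a := 2 * t j) (b := 5 / 2 * t j) (by linarith)
      (cf.mono (Icc_subset_Icc le_rfl (by linarith)))
      (show x - r ∈ _ from ⟨by linarith [hr.2], by linarith⟩)
    obtain ⟨X', hX', eX'⟩ := intermediate_value_Icc (a := 7 / 2 * t j) (b := 4 * t j)
      (by linarith) (cf.mono (Icc_subset_Icc (by linarith) le_rfl))
      (show x + r ∈ _ from ⟨by linarith, by linarith [hr.2]⟩)
    refine ⟨X, hX, X', hX', ?_⟩
    rw [hre X ⟨hX.1, by linarith [hX.2]⟩, hre X' ⟨by linarith [hX'.1], hX'.2⟩, thf X, thf X',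
      eX, eX']
    rcases hs1 with rfl | rfl
    · left; constructor <;> congr 1 <;> ring
    · right; constructor <;> congr 1 <;> ring

end Pool.Agent.P.MP_7f9008_an
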