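import Pool.Agent.P.MP_7f9008_an.GadDefs
import Pool.Agent.P.MP_7f9008_an.Family

/-! Exterior estimate: the corridor forces average distortion of order `m ^ 4`. -/

open MeasureTheory Set Metric Filter Topology Real Complex
open scoped ENNReal

noncomputable section
namespace Pool.Agent.P.MP_7f9008_an

/-- The potential of one ramp of the corridor. -/
def rampU (a : ℝ → ℝ) (t y w : ℝ) (z : ℂ) : ℝ :=
  cl ((z.re - a z.im + a (max y (min z.im (y + w))) - 3 * t) / (2 * t)) *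
    cl ((z.re - a z.im - t) / (t / 3)) * cl ((3 * t - (z.re - a z.im)) / (t / 3))

theorem mul_pos_iff_out {u v : ℝ} (hu : 0 ≤ u) (hv : 0 ≤ v) : 0 < u * v ↔ 0 < u ∧ 0 < v :=
  ⟨fun h => ⟨hu.lt_of_ne fun e => by simp [← e] at h, hv.lt_of_ne fun e => by simp [← e] at h⟩,
    fun h => mul_pos h.1 h.2⟩

theorem rampU_ug {a b : ℝ → ℝ} {t y w : ℝ} {Z : Set ℂ} (ha : Continuous a) (ht : 0 < t)
    (hw : 0 < w) (hy : 2 * t ≤ y) (h0 : a y = 0) (h1 : a (y + w) = 4 * t)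
    (b1 : ∀ X ∈ Icc t (2 * t), b X = 3 * X - 2 * t)
    (b2 : ∀ X ∈ Icc (2 * t) (3 * t), b X = 10 * t - 3 * X)
    (hZ : ∀ z ∈ Z, z.im ≤ b (z.re - a z.im)) :
    UG Z (rampU a t y w) ((Ioo (3 * t) (5 * t) ×ℂ Ioo y (y + w)).indicator
      fun _ => ENNReal.ofReal (2 * t)⁻¹) := by
  have ht3 : 0 < t / 3 := by positivity
  have ht2 : 0 < 2 * t := by positivity
  have cX : Continuous fun z : ℂ => z.re - a z.im := by fun_prop
  have onT : ∀ z : ℂ, z.im ∈ Icc y (y + w) → z.re - a z.im ∈ Icc (4 * t / 3) (8 * t / 3) →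
      rampU a t y w z = cl ((z.re - 3 * t) / (2 * t)) := by
    intro z h2 h3
    unfold rampU
    rw [min_eq_left h2.2, max_eq_right h2.1,
      cl_of_ge (u := (z.re - a z.im - t) / (t / 3)) (by rw [le_div_iff₀ ht3]; linarith [h3.1]),
      cl_of_ge (u := (3 * t - (z.re - a z.im)) / (t / 3))
        (by rw [le_div_iff₀ ht3]; linarith [h3.2]), mul_one, mul_one]
    congr 2; ring
  refine UG.block (T := {z | z.im ∈ Icc y (y + w)} ∩
      {z | z.re - a z.im ∈ Icc (4 * t / 3) (8 * t / 3)}) ht2 ?_ (fun z _ => ⟨?_, ?_⟩)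
    ((isClosed_Icc.preimage continuous_im).inter (isClosed_Icc.preimage cX))
    (fun z hz p0 p1 => ?_) fun z _ hz z' _ hz' => ?_
  · have := continuous_cl
    refine Continuous.continuousOn ?_
    unfold rampU
    fun_prop
  · exact mul_nonneg (mul_nonneg (cl_nonneg _) (cl_nonneg _)) (cl_nonneg _)
  · exact mul_le_one₀ (mul_le_one₀ (cl_le_one _) (cl_nonneg _) (cl_le_one _)) (cl_nonneg _)
      (cl_le_one _)
  · have q0 := p0
    unfold rampU at q0
    have n12 := (mul_pos_iff_out (mul_nonneg (cl_nonneg _) (cl_nonneg _)) (cl_nonneg _)).1 q0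
    have n1 := (mul_pos_iff_out (cl_nonneg _) (cl_nonneg _)).1 n12.1
    have q3 := pos_of_cl n12.2
    have q2 := pos_of_cl n1.2
    have q1 := pos_of_cl n1.1
    rw [div_pos_iff_of_pos_right ht3] at q2 q3
    rw [div_pos_iff_of_pos_right ht2] at q1
    have i1 : y < z.im := by
      by_contra hn
      rw [max_eq_left ((min_le_left _ _).trans (not_lt.1 hn)), h0] at q1
      linarith
    have hb := hZ z hz
    have hX : z.re - a z.im ∈ Icc (4 * t / 3) (8 * t / 3) := by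
      rcases le_total (z.re - a z.im) (2 * t) with h | h
      · rw [b1 _ ⟨by linarith, h⟩] at hb
        constructor <;> linarith
      · rw [b2 _ ⟨h, by linarith⟩] at hb
        constructor <;> linarith
    have i2 : z.im < y + w := by
      by_contra hn
      unfold rampU at p1
      rw [min_eq_right (not_lt.1 hn), max_eq_right (by linarith), h1,
        cl_of_ge (by rw [le_div_iff₀ ht2]; linarith [hX.1]),
        cl_of_ge (by rw [le_div_iff₀ ht3]; linarith [hX.1]),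
        cl_of_ge (by rw [le_div_iff₀ ht3]; linarith [hX.2])] at p1
      norm_num at p1
    rw [onT z ⟨i1.le, i2.le⟩ hX] at p0 p1
    have r0 := pos_of_cl p0
    have r1 := lt_one_of_cl p1
    rw [div_pos_iff_of_pos_right ht2] at r0
    rw [div_lt_one ht2] at r1
    exact ⟨⟨⟨by linarith, by linarith⟩, i1, i2⟩, ⟨i1.le, i2.le⟩, hX⟩
  · rw [onT z hz.1 hz.2, onT z' hz'.1 hz'.2]
    refine (mul_le_mul_of_nonneg_left (abs_cl_sub _ _) ht2.le).trans ?_
    rw [← sub_div, abs_div, abs_of_pos ht2, mul_div_cancel₀ _ ht2.ne', dist_eq_norm]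
    simpa using Complex.abs_re_le_norm (z - z')

theorem volume_rect_out (a b c d : ℝ) (h : a ≤ b) :
    volume (Ioo a b ×ℂ Ioo c d) = ENNReal.ofReal ((b - a) * (d - c)) := by
  rw [← volume_preserving_equiv_real_prod.symm.measure_preimage
      (isOpen_rect a b c d).measurableSet.nullMeasurableSet,
    show measurableEquivRealProd.symm ⁻¹' (Ioo a b ×ℂ Ioo c d) = Ioo a b ×ˢ Ioo c d from rfl,
    Measure.volume_eq_prod, Measure.prod_prod, Real.volume_Ioo, Real.volume_Ioo,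
    ← ENNReal.ofReal_mul (by linarith)]

/-- The potential of the corridor. -/
theorem exists_corridor {t w : ℕ → ℝ} {m : ℕ → ℕ} {a b : ℝ → ℝ} {Ω : Set ℂ} (hs : Seq t w m)
    (hg : Gad t w m a b Ω) (j : ℕ) : ∃ U σ, Pot {z | ‖z‖ ≤ 1 / 4 ∧ z ∉ Ω} U σ (1 / 16) ∧
      (∀ X ∈ Icc (2 * t j) (5 / 2 * t j), U ⟨X + a (b X), b X⟩ = m j) ∧
      ∀ X ∈ Icc (7 / 2 * t j) (4 * t j), U ⟨X + a (b X), b X⟩ = 0 := by
  have hw := hs.wpos j
  have hm : (1 : ℝ) ≤ m j := by exact_mod_cast hs.mpos j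
  have e := hs.teq j
  have ht : 0 < t j := by rw [e]; positivity
  have ht3 : 0 < t j / 3 := by positivity
  have ht2 : 0 < 2 * t j := by positivity
  set y : ℕ → ℝ := fun i => 2 * t j + (4 * i + 1 / 2) * w j with hy
  have hi : ∀ i ∈ Finset.range (m j), a (y i + w j) = 4 * t j := fun i h => by
    rw [← hg.ahigh j i (by have := Finset.mem_range.1 h; omega)]
    congr 1; simp only [hy]; ring
  have P := Pot.blocks (Z := {z | ‖z‖ ≤ 1 / 4 ∧ z ∉ Ω}) (Finset.range (m j))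
    (U := fun i => rampU a (t j) (y i) (w j))
    (S := fun i => Ioo (3 * t j) (5 * t j) ×ℂ Ioo (y i) (y i + w j)) (l := fun _ => 2 * t j)
    (e := w j / (2 * t j)) (by positivity) (fun _ _ => ht2) (fun i h => ?_)
    (fun i _ => (isOpen_rect _ _ _ _).measurableSet) (fun i _ k _ hik => ?_) (fun i _ => ?_)
  · rw [Finset.card_range, show w j / (2 * t j) * m j = 1 / 16 by
      rw [e]; field_simp; norm_num] at P
    refine ⟨_, _, P, fun X hX => ?_, fun X hX => Finset.sum_eq_zero fun i _ => ?_⟩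
    · rw [Finset.sum_congr rfl (g := fun _ => (1 : ℝ))]
      · simp
      intro i h
      have h1 : (i : ℝ) + 1 ≤ m j := by exact_mod_cast Finset.mem_range.1 h
      have h2 : y i + w j ≤ b X := by
        rw [hg.b2 j X ⟨hX.1, by linarith [hX.2]⟩]
        simp only [hy]
        nlinarith [hX.2]
      unfold rampU
      simp only [add_sub_cancel_right]
      rw [min_eq_right h2, max_eq_right (by linarith), hi i h,
        cl_of_ge (by rw [le_div_iff₀ ht2]; linarith [hX.1]),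
        cl_of_ge (by rw [le_div_iff₀ ht3]; linarith [hX.1]),
        cl_of_ge (by rw [le_div_iff₀ ht3]; linarith [hX.2])]
      norm_num
    · unfold rampU
      simp only [add_sub_cancel_right]
      rw [cl_of_le (u := (3 * t j - X) / (t j / 3))
        (div_nonpos_of_nonpos_of_nonneg (by linarith [hX.1]) ht3.le), mul_zero]
  · refine rampU_ug hg.acont ht hw ?_ (hg.alow j i (by have := Finset.mem_range.1 h; omega))
      (hi i h) (hg.b1 j) (hg.b2 j) fun z hz => ?_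
    · simp only [hy, le_add_iff_nonneg_right]; positivity
    · exact not_lt.1 fun hh => hz.2 ((hg.mem z ((Complex.abs_re_le_norm z).trans hz.1)
        ((Complex.abs_im_le_norm z).trans hz.1)).2 hh)
  · wlog h : i < k generalizing i k
    · exact (this k ‹_› i ‹_› hik.symm (by omega)).symm
    refine Set.disjoint_left.2 fun z hz hz' => ?_
    have h1 : (i : ℝ) + 1 ≤ k := by exact_mod_cast h
    have h2 : z.im < y i + w j := hz.2.2
    have h3 : y k < z.im := hz'.2.1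
    simp only [hy] at h2 h3
    nlinarith
  · rw [volume_rect_out _ _ _ _ (by linarith)]
    refine ENNReal.ofReal_le_ofReal (le_of_eq ?_)
    field_simp; ring

theorem isOpen_capA (x ρ : ℝ) : IsOpen (capA x ρ) :=
  (isOpen_rect _ _ _ _).sdiff (isCompact_rect _ _ _ _).isClosed

theorem QC.cap_lower {U Z : Set ℂ} {P : ℂ → ℂ} (h : QC U P) {x ρ e M : ℝ} (hρ : 0 < ρ)
    (hU : Icc (x - 2 * ρ) (x + 2 * ρ) ×ℂ Icc 0 (2 * ρ) ⊆ U)
    (hZ : MapsTo P (Icc (x - 2 * ρ) (x + 2 * ρ) ×ℂ Icc 0 (2 * ρ)) Z) {W : ℂ → ℝ} {σ : ℂ → ℝ≥0∞}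
    (hW : Pot Z W σ e) (H : ∀ r ∈ Ioo ρ (2 * ρ), M ≤ |W (P ⟨x + r, 0⟩) - W (P ⟨x - r, 0⟩)|) :
    ENNReal.ofReal M * ENNReal.ofReal ρ ≤ 3 * ∫⁻ z in capA x ρ, σ (P z) * ‖fderiv ℝ P z‖ₑ := by
  by_contra hn
  obtain ⟨r, hr, c₁, c₂, c₃, hI⟩ := h.cap hρ
    (sdiff_subset.trans ((rect_subset _ _ _ _).trans hU)) (h.cont.mono hU) hW.meas (not_le.1 hn)
  have r0 : 0 ≤ r := by linarith [hr.1]
  have e₁ := hW.ug _ _ _ _ r0 c₁ fun t ht =>
    hZ ⟨⟨by linarith [hr.2], by linarith [hr.1]⟩, ht.1, by linarith [ht.2, hr.2]⟩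
  have e₂ := hW.ug _ _ _ _ r0 c₂ fun t ht =>
    hZ ⟨⟨by linarith [hr.1], by linarith [hr.2]⟩, ht.1, by linarith [ht.2, hr.2]⟩
  have e₃ := hW.ug _ _ _ _ (by linarith) c₃ fun t ht =>
    hZ ⟨⟨by linarith [ht.1, hr.2], by linarith [ht.2, hr.2]⟩, r0, hr.2.le⟩
  refine hI.not_ge (le_trans ?_ (add_le_add (add_le_add e₁ e₂) e₃))
  rw [← ENNReal.ofReal_add (abs_nonneg _) (abs_nonneg _),
    ← ENNReal.ofReal_add (by positivity) (abs_nonneg _)]
  refine ENNReal.ofReal_le_ofReal ((H r hr).trans ?_)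
  rw [abs_le]
  constructor <;>
    linarith [le_abs_self (W (P ⟨x - r, r⟩) - W (P ⟨x - r, 0⟩)),
      neg_abs_le (W (P ⟨x - r, r⟩) - W (P ⟨x - r, 0⟩)),
      le_abs_self (W (P ⟨x + r, r⟩) - W (P ⟨x + r, 0⟩)),
      neg_abs_le (W (P ⟨x + r, r⟩) - W (P ⟨x + r, 0⟩)),
      le_abs_self (W (P ⟨x + r, r⟩) - W (P ⟨x - r, r⟩)),
      neg_abs_le (W (P ⟨x + r, r⟩) - W (P ⟨x - r, r⟩))]

theorem lintegral_le_exp {E S : Set ℂ} (hES : E ⊆ S) {K : ℂ → ℝ} {l I k A : ℝ} (hl : 0 < l)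
    (hI0 : 0 ≤ I) (hk : 0 ≤ k) (hA : 0 ≤ A) (hE : volume E ≤ ENNReal.ofReal A)
    (hI : ∫⁻ z in S, ENNReal.ofReal (Real.exp (l * K z)) ≤ ENNReal.ofReal I) :
    ∫⁻ z in E, ENNReal.ofReal (K z) ≤ ENNReal.ofReal (k * A + Real.exp (-(l * k)) / l * I) := by
  have c0 : 0 ≤ Real.exp (-(l * k)) / l := by positivity
  calc _ ≤ ∫⁻ z in E, ENNReal.ofReal k + ENNReal.ofReal (Real.exp (-(l * k)) / l) *
          ENNReal.ofReal (Real.exp (l * K z)) := by
        refine lintegral_mono fun z => ?_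
        rw [← ENNReal.ofReal_mul c0, ← ENNReal.ofReal_add hk (by positivity)]
        refine ENNReal.ofReal_le_ofReal ?_
        rw [div_mul_eq_mul_div, ← Real.exp_add, ← sub_le_iff_le_add', le_div_iff₀ hl]
        linarith [Real.add_one_le_exp (-(l * k) + l * K z)]
    _ ≤ ENNReal.ofReal k * ENNReal.ofReal A +
          ENNReal.ofReal (Real.exp (-(l * k)) / l) * ENNReal.ofReal I := by
        rw [lintegral_add_left measurable_const, setLIntegral_const,
          lintegral_const_mul' _ _ ENNReal.ofReal_ne_top]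
        gcongr
        exact (lintegral_mono_set hES).trans hI
    _ = _ := by
        rw [← ENNReal.ofReal_mul hk, ← ENNReal.ofReal_mul c0,
          ← ENNReal.ofReal_add (by positivity) (by positivity)]

theorem lower_out {t w : ℕ → ℝ} {m : ℕ → ℕ} {a b : ℝ → ℝ} {Ω : Set ℂ} (hs : Seq t w m)
    (hg : Gad t w m a b Ω) {η : ℝ} {P : ℂ → ℂ} {K : ℂ → ℝ} (mK : Measurable K)
    (hP : QC (Ioo (-η) η ×ℂ Ioo (-η) η) P)
    (hK : DistLe (Ioo (-η) η ×ℂ Ioo (-η) η) P fun z => ENNReal.ofReal (K z))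
    (hw : ∀ z ∈ Ioo (-η) η ×ℂ Ioo (-η) η, ‖P z‖ ≤ 1 / 4 ∧ (0 ≤ z.im → P z ∉ Ω))
    {l I : ℝ} (hl : 0 < l) (hI0 : 0 ≤ I)
    (hI : ∫⁻ z in Ioo (-η) η ×ℂ Ioo (-η) η, ENNReal.ofReal (Real.exp (l * K z)) ≤ ENNReal.ofReal I)
    (j : ℕ) {x ρ : ℝ} (hρ : 0 < ρ) (hx : |x| + ρ < η) {N : ℕ} (hN : 1 ≤ N)
    (H : ∀ r ∈ Icc (ρ / 2 ^ N) ρ, ∃ X ∈ Icc (2 * t j) (5 / 2 * t j),
        ∃ X' ∈ Icc (7 / 2 * t j) (4 * t j),
          (P ⟨x - r, 0⟩ = ⟨X + a (b X), b X⟩ ∧ P ⟨x + r, 0⟩ = ⟨X' + a (b X'), b X'⟩) ∨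
          (P ⟨x + r, 0⟩ = ⟨X + a (b X), b X⟩ ∧ P ⟨x - r, 0⟩ = ⟨X' + a (b X'), b X'⟩)) :
    l * (ρ / 2 ^ N) ^ 2 * Real.exp (l * (m j ^ 2 * N / 16)) ≤ 2 * I := by
  obtain ⟨W, σ, hW, W1, W0⟩ := exists_corridor hs hg j
  have hm : (1 : ℝ) ≤ m j := by exact_mod_cast hs.mpos j
  have hN' : (1 : ℝ) ≤ N := by exact_mod_cast hN
  set r : ℕ → ℝ := fun k => ρ / 2 ^ (k + 1) with hr
  have rpos : ∀ k, 0 < r k := fun k => by positivity
  have rle : ∀ i k, i < k → 2 * r k ≤ r i := fun i k h => by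
    have : (2 : ℝ) ^ (i + 1) ≤ 2 ^ k := pow_le_pow_right₀ (by norm_num) h
    calc 2 * r k = ρ / 2 ^ k := by simp only [hr]; field_simp; ring
      _ ≤ _ := div_le_div_of_nonneg_left hρ.le (by positivity) this
  have rρ : ∀ k, 2 * r k ≤ ρ := fun k => by
    have : (1 : ℝ) ≤ 2 ^ k := one_le_pow₀ (by norm_num)
    calc 2 * r k = ρ / 2 ^ k := by simp only [hr]; field_simp; ring
      _ ≤ _ := div_le_self hρ.le this
  have sub : ∀ k, Icc (x - 2 * r k) (x + 2 * r k) ×ℂ Icc 0 (2 * r k) ⊆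
      Ioo (-η) η ×ℂ Ioo (-η) η := fun k z hz => by
    have h1 := le_abs_self x
    have h2 := neg_abs_le x
    have h3 := abs_nonneg x
    exact ⟨⟨by linarith [hz.1.1, rρ k], by linarith [hz.1.2, rρ k]⟩,
      by linarith [hz.2.1], by linarith [hz.2.2, rρ k]⟩
  have subc : ∀ k, capA x (r k) ⊆ Ioo (-η) η ×ℂ Ioo (-η) η := fun k =>
    sdiff_subset.trans ((rect_subset _ _ _ _).trans (sub k))
  have dis : ∀ i k, i ≠ k → Disjoint (capA x (r i)) (capA x (r k)) := by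
    intro i k hik
    wlog h : i < k generalizing i k
    · exact (this k i hik.symm (by omega)).symm
    refine Set.disjoint_left.2 fun z hz hz' => hz.2 ?_
    have := rle i k h
    exact ⟨⟨by linarith [hz'.1.1.1], by linarith [hz'.1.1.2]⟩, hz'.1.2.1.le,
      by linarith [hz'.1.2.2]⟩
  obtain ⟨k, hk, ek⟩ : ∃ k ∈ Finset.range N,
      ∫⁻ z in P '' capA x (r k), σ z ^ 2 ≤ ENNReal.ofReal (1 / (16 * N)) := by
    refine ENNReal.exists_le_of_sum_le ⟨0, Finset.mem_range.2 hN⟩ ?_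
    rw [← lintegral_biUnion_finset (fun i _ k _ hik => (dis i k hik).image hP.inj (subc i) (subc k))
      fun i _ => (hP.opn _ (subc i) (isOpen_capA _ _)).measurableSet]
    refine ((setLIntegral_le_lintegral _ _).trans hW.en).trans (le_of_eq ?_)
    rw [Finset.sum_const, Finset.card_range, nsmul_eq_mul, ← ENNReal.ofReal_natCast,
      ← ENNReal.ofReal_mul (by positivity)]
    congr 1; field_simp
  have rk : ρ / 2 ^ N ≤ r k := div_le_div_of_nonneg_left hρ.le (by positivity)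
    (pow_le_pow_right₀ (by norm_num) (Finset.mem_range.1 hk))
  have e1 := hP.cap_lower (M := m j) (Z := {z | ‖z‖ ≤ 1 / 4 ∧ z ∉ Ω}) (rpos k) (sub k)
    (fun z hz => ⟨(hw z (sub k hz)).1, (hw z (sub k hz)).2 hz.2.1⟩) hW fun s hs => by
      obtain ⟨X, hX, X', hX', h | h⟩ := H s ⟨rk.trans hs.1.le, hs.2.le.trans (rρ k)⟩ <;>
        simp [h.1, h.2, W1 X hX, W0 X' hX']
  have e2 := hP.energy hK (measurableSet_capA x (r k)) (subc k)
    mK.ennreal_ofReal.aemeasurable hW.meas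
  have e3 := lintegral_le_exp (subc k) (k := m j ^ 2 * N / 16) (A := 8 * r k ^ 2) hl hI0
    (by positivity) (by positivity) ((measure_mono sdiff_subset).trans (by
      rw [volume_rect_out _ _ _ _ (by linarith [rpos k])]
      exact ENNReal.ofReal_le_ofReal (le_of_eq (by ring)))) hI
  set B := m j ^ 2 * N / 16 * (8 * r k ^ 2) + Real.exp (-(l * (m j ^ 2 * N / 16))) / l * I
    with hB
  have B0 : 0 ≤ B := by positivity
  have e4 : ENNReal.ofReal ((m j * r k) ^ 2) ≤ ENNReal.ofReal (9 * (1 / (16 * N) * B)) := by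
    rw [ENNReal.ofReal_pow (by have := rpos k; positivity), ENNReal.ofReal_mul (by positivity),
      ENNReal.ofReal_mul (by positivity), ENNReal.ofReal_mul (by positivity)]
    calc _ ≤ (3 * ∫⁻ z in capA x (r k), σ (P z) * ‖fderiv ℝ P z‖ₑ) ^ 2 := pow_le_pow_left' e1 2
      _ = ENNReal.ofReal 9 * (∫⁻ z in capA x (r k), σ (P z) * ‖fderiv ℝ P z‖ₑ) ^ 2 := by
          rw [mul_pow]; norm_num
      _ ≤ _ := by
          gcongr
          exact e2.trans (mul_le_mul' ek e3)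
  rw [ENNReal.ofReal_le_ofReal_iff (by positivity)] at e4
  have e5 : m j ^ 2 * N * r k ^ 2 ≤ B := by
    rw [show 9 * (1 / (16 * (N : ℝ)) * B) = 9 * B / (16 * N) by ring,
      le_div_iff₀ (by positivity)] at e4
    nlinarith
  have e6 : r k ^ 2 / 2 ≤ Real.exp (-(l * (m j ^ 2 * N / 16))) / l * I := by
    have : (1 : ℝ) ≤ m j ^ 2 * N := one_le_mul_of_one_le_of_one_le (one_le_pow₀ hm) hN'
    nlinarith [sq_nonneg (r k)]
  rw [Real.exp_neg, div_mul_eq_mul_div, le_div_iff₀ hl, inv_mul_eq_div,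
    le_div_iff₀ (Real.exp_pos _)] at e6
  have e7 : (ρ / 2 ^ N) ^ 2 ≤ r k ^ 2 := pow_le_pow_left₀ (by positivity) rk 2
  calc _ ≤ l * r k ^ 2 * Real.exp (l * (m j ^ 2 * N / 16)) := by gcongr
    _ ≤ _ := by linarith

end Pool.Agent.P.MP_7f9008_an
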