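import Pool.Agent.P.MP_7f9008_an.Bridge
import Pool.Agent.P.MP_7f9008_an.LowerIn
import Pool.Agent.P.MP_7f9008_an.LowerOut
import Pool.Agent.P.MP_7f9008_an.LowerA
import Pool.Agent.P.MP_7f9008_an.Dom
import Pool.Agent.P.MP_7f9008_an.RMT

/-! Moduli which are not `O(t log ^ (1/4) (1/t))` are not admissible. -/

open MeasureTheory Set Metric Filter Topology Real Complex
open scoped ENNReal

noncomputable section
namespace Pool.Agent.P.MP_7f9008_an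

theorem conf_rot {ζ : ℂ} (hζ : ζ ≠ 0) : Conf (ball 0 3) fun ξ => ζ * exp (-ξ * I) := by
  have h := conf_exp (U := ball (0 : ℂ) 3) isOpen_ball fun z hz w hw => by
    rw [mem_ball_zero_iff] at hz hw
    have h1 := (abs_re_le_norm (z - w)).trans (norm_sub_le z w)
    rw [sub_re] at h1
    linarith [Real.pi_gt_three]
  refine ⟨isOpen_ball, by fun_prop, fun z hz w hw e => neg_injective (h.inj
    (by simpa using hz) (by simpa using hw) (mul_left_cancel₀ hζ e)), fun z _ => ?_⟩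
  have hd : HasDerivAt (fun ξ => ζ * exp (-ξ * I)) (ζ * (exp (-z * I) * (-1 * I))) z :=
    (((hasDerivAt_id' z).fun_neg.mul_const I).cexp).const_mul ζ
  rw [hd.deriv]
  simp [hζ]

theorem norm_rot {ζ : ℂ} (hζ : ‖ζ‖ = 1) (ξ : ℂ) : ‖ζ * exp (-ξ * I)‖ = Real.exp ξ.im := by
  rw [norm_mul, hζ, one_mul, Complex.norm_exp]; simp

theorem gad_norm {t w : ℕ → ℝ} {m : ℕ → ℕ} {a b : ℝ → ℝ} {Ω : Set ℂ} (hs : Seq t w m)
    (hg : Gad t w m a b Ω) (j : ℕ) {X : ℝ} (hX : X ∈ Icc (2 * t j) (4 * t j)) :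
    ‖(⟨X + a (b X), b X⟩ : ℂ)‖ ≤ 12 * t j := by
  have ht := hs.tpos j
  obtain ⟨h1, h2⟩ := hX
  have hb : 0 ≤ b X ∧ b X ≤ 4 * t j := by
    rcases le_total X (3 * t j) with h | h
    · rw [hg.b2 j X ⟨h1, h⟩]; constructor <;> linarith
    · rw [hg.b3 j X ⟨h, h2⟩]; constructor <;> linarith
  have a1 := hg.a0 (b X)
  have a2 := hg.ale j (b X) (by linarith [hb.2])
  refine (norm_le_abs_re_add_abs_im _).trans ?_
  simp only
  rw [abs_of_nonneg (by linarith), abs_of_nonneg hb.1]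
  linarith [hb.2]

theorem not_propE {t w : ℕ → ℝ} {m : ℕ → ℕ} {a b : ℝ → ℝ} {Ω : Set ℂ} (hs : Seq t w m)
    (hg : Gad t w m a b Ω) (hJ : IsJordan Ω) (hc : IsPreconnected Ωᶜ)
    (grow : ∀ j, j ≤ m j ∧ j * Real.log (1 / t j) ≤ (m j : ℝ) ^ 4) : ¬ PropE Ω := by
  intro hE
  obtain ⟨hΩ, ⟨⟨z₀, hz₀⟩, hcon⟩, hb, -⟩ := hJ
  obtain ⟨g, G, hgd, hGd, hm, hm', hi, hi', -⟩ := rmt hΩ hcon hb hc hz₀
  obtain ⟨F, hF, D, hD, l, hl, hint⟩ := hE g
    ((Conf.of_inverse isOpen_ball hΩ hgd hGd hm hi).isQC hGd.continuousOn hm hm' hi hi')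
  have hH : Hom univ F := ⟨isOpen_univ, F.continuous.continuousOn, F.injective.injOn,
    fun O _ hO => F.isOpenMap O hO⟩
  obtain ⟨q, e1, -, dis⟩ := hD.qc hH
  have hFG : ∀ z ∈ Ω, F.symm z = G z := fun z hz => by
    rw [Homeomorph.symm_apply_eq, hF (hm' hz), hi' z hz]
  have him : F '' ball 0 1 = Ω := by
    ext z
    constructor
    · rintro ⟨u, hu, rfl⟩; rw [hF hu]; exact hm hu
    · exact fun hz => ⟨G z, hm' hz, by rw [hF (hm' hz), hi' z hz]⟩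
  have hfr : ∀ z ∈ frontier Ω, ‖F.symm z‖ = 1 := fun z hz => by
    rw [← him, ← F.image_frontier, frontier_ball _ one_ne_zero] at hz
    obtain ⟨u, hu, rfl⟩ := hz
    simpa using hu
  obtain ⟨ζ, hζ⟩ : ∃ ζ, ζ = F.symm 0 := ⟨_, rfl⟩
  have ζ1 : ‖ζ‖ = 1 := hζ ▸ hfr 0 hg.fr0
  have ζ0 : ζ ≠ 0 := norm_ne_zero_iff.1 (by rw [ζ1]; exact one_ne_zero)
  obtain ⟨e, he⟩ : ∃ e : ℂ → ℂ, e = fun ξ => ζ * exp (-ξ * I) := ⟨_, rfl⟩
  have ce : Conf (ball 0 3) e := he ▸ conf_rot ζ0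
  have ec : Continuous e := by rw [he]; fun_prop
  have ne : ∀ ξ, ‖e ξ‖ = Real.exp ξ.im := he ▸ norm_rot ζ1
  have P0 : (F ∘ e) 0 = 0 := by simp [he, hζ]
  -- the square
  obtain ⟨η, η0, η1, hη⟩ : ∃ η : ℝ, 0 < η ∧ η ≤ 1 ∧ ∀ ξ : ℂ, ‖ξ‖ < 2 * η → ‖(F ∘ e) ξ‖ ≤ 1 / 4 := by
    obtain ⟨d, d0, hd⟩ := Metric.continuousAt_iff.1 ((F.continuous.comp ec).continuousAt (x := 0))
      (1 / 4) (by norm_num)
    refine ⟨min (d / 2) 1, by positivity, min_le_right _ _, fun ξ hξ => ?_⟩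
    have := hd (x := ξ) (by rw [dist_zero_right]; linarith [min_le_left (d / 2) 1])
    rw [P0, dist_zero_right] at this
    exact this.le
  have hQ : ∀ ξ ∈ Ioo (-η) η ×ℂ Ioo (-η) η, ‖ξ‖ < 2 * η := fun ξ hξ => by
    have := norm_le_abs_re_add_abs_im ξ
    have h1 : |ξ.re| < η := abs_lt.2 hξ.1
    have h2 : |ξ.im| < η := abs_lt.2 hξ.2
    linarith
  have hQ2 : Ioo (-η) η ×ℂ Ioo (-η) η ⊆ closedBall 0 2 := fun ξ hξ =>
    mem_closedBall_zero_iff.2 (by linarith [hQ ξ hξ])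
  have h23 : closedBall (0 : ℂ) 2 ⊆ ball 0 3 := closedBall_subset_ball (by norm_num)
  have qP := (q.comp ce (mapsTo_univ _ _)).1.mono (isOpen_Ioo.reProdIm isOpen_Ioo) (hQ2.trans h23)
  have dP : DistLe (Ioo (-η) η ×ℂ Ioo (-η) η) (F ∘ e)
      fun z => ENNReal.ofReal (Kf (fderiv ℝ F) (e z)) :=
    (DistLe.comp q dis ce (mapsTo_univ _ _)).mono (hQ2.trans h23)
      (Eventually.of_forall fun _ _ => le_rfl)
  have hw : ∀ z ∈ Ioo (-η) η ×ℂ Ioo (-η) η, ‖(F ∘ e) z‖ ≤ 1 / 4 ∧ (0 ≤ z.im → (F ∘ e) z ∉ Ω) := by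
    refine fun z hz => ⟨hη z (hQ z hz), fun h0 h1 => ?_⟩
    rw [← him, Function.comp_apply, F.injective.mem_set_image, mem_ball_zero_iff, ne] at h1
    linarith [Real.one_le_exp h0]
  obtain ⟨J, J0, hJ⟩ : ∃ J : ℝ, 0 ≤ J ∧ ∫⁻ z in Ioo (-η) η ×ℂ Ioo (-η) η,
      ENNReal.ofReal (Real.exp (l * Kf (fderiv ℝ F) (e z))) ≤ ENNReal.ofReal J := by
    obtain ⟨C, hC⟩ := ce.lintegral_le (isCompact_closedBall 0 2) h23
    have h1 := (hC fun w => ENNReal.ofReal (Real.exp (l * Kf (fderiv ℝ F) w))).2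
    have h2 := (hint.integrableOn_isCompact ((isCompact_closedBall 0 2).image ec)).lintegral_lt_top
    have h3 : ∫⁻ w in e '' closedBall 0 2, ENNReal.ofReal (Real.exp (l * Kf (fderiv ℝ F) w)) =
        ∫⁻ w in e '' closedBall 0 2, ENNReal.ofReal (Real.exp (l * Kf D w)) :=
      lintegral_congr_ae (ae_restrict_of_ae (e1.mono fun z hz => by
        simp only [Kf, hz (mem_univ z)]))
    rw [h3] at h1
    refine ⟨_, ENNReal.toReal_nonneg, ((lintegral_mono_set hQ2).trans h1).trans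
      (ENNReal.ofReal_toReal (ENNReal.mul_ne_top ENNReal.ofReal_ne_top h2.ne)).ge⟩
  -- the boundary coordinate
  obtain ⟨Ξ, hΞ⟩ : ∃ Ξ : ℂ → ℂ, Ξ = fun z => I * log (F.symm z / ζ) := ⟨_, rfl⟩
  have u0 : F.symm 0 / ζ = 1 := by rw [← hζ, div_self ζ0]
  have uc : Continuous fun z => F.symm z / ζ := F.symm.continuous.div_const ζ
  have Ξc : ∀ z, F.symm z / ζ ∈ slitPlane → ContinuousAt Ξ z := fun z hz => by
    rw [hΞ]; exact continuousAt_const.mul (uc.continuousAt.clog hz)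
  obtain ⟨δ, δ0, hδ⟩ : ∃ δ : ℝ, 0 < δ ∧ ∀ z ∈ ball (0 : ℂ) δ,
      F.symm z / ζ ∈ slitPlane ∧ ‖Ξ z‖ < η := by
    have a1 : ∀ᶠ z in 𝓝 (0 : ℂ), F.symm z / ζ ∈ slitPlane :=
      uc.continuousAt.eventually (isOpen_slitPlane.mem_nhds (by simp only [u0, one_mem_slitPlane]))
    have a2 : ∀ᶠ z in 𝓝 (0 : ℂ), ‖Ξ z‖ < η :=
      ContinuousAt.eventually_lt (Ξc 0 (by rw [u0]; exact one_mem_slitPlane)).norm
        continuousAt_const (by simpa [hΞ, u0] using η0)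
    exact Metric.eventually_nhds_iff_ball.1 (a1.and a2)
  have eΞ : ∀ z ∈ ball (0 : ℂ) δ, e (Ξ z) = F.symm z := fun z hz => by
    have : -(I * log (F.symm z / ζ)) * I = log (F.symm z / ζ) := by
      linear_combination (-log (F.symm z / ζ)) * I_mul_I
    simp only [he, hΞ]
    rw [this, exp_log (slitPlane_ne_zero (hδ z hz).1), mul_div_cancel₀ _ ζ0]
  have PΞ : ∀ z ∈ ball (0 : ℂ) δ, (F ∘ e) (Ξ z) = z := fun z hz => by
    rw [Function.comp_apply, eΞ z hz, F.apply_symm_apply]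
  have neg : ∀ z ∈ Ω ∩ ball 0 δ, (Ξ z).im < 0 := fun z hz => by
    rw [← Real.exp_lt_one_iff, ← ne, eΞ z hz.2, hFG z hz.1]
    exact mem_ball_zero_iff.1 (hm' hz.1)
  have zero : ∀ z ∈ frontier Ω ∩ ball 0 δ, (Ξ z).im = 0 := fun z hz => by
    rw [← Real.exp_eq_one_iff, ← ne, eΞ z hz.2, hfr z hz.1]
  have conf : Conf (Ω ∩ ball 0 δ) Ξ := by
    have a1 : MapsTo e {ξ : ℂ | ξ.im < 0} (ball 0 1) := fun ξ hξ => by
      rw [mem_ball_zero_iff, ne, Real.exp_lt_one_iff]; exact hξ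
    refine Conf.of_inverse (G := g ∘ e) (V := {ξ : ℂ | ξ.im < 0}) (hΩ.inter isOpen_ball)
      (isOpen_lt continuous_im continuous_const) ?_ (hgd.comp (by rw [he]; fun_prop) a1) neg
      fun z hz => ?_
    · refine DifferentiableOn.congr (f := fun z => I * log (G z / ζ)) ?_
        fun z hz => by simp only [hΞ, hFG z hz.1]
      refine (((hGd.mono inter_subset_left).div_const ζ).clog fun z hz => ?_).const_mul I
      rw [← hFG z hz.1]; exact (hδ z hz.2).1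
    · rw [Function.comp_apply, eΞ z hz.2, hFG z hz.1, hi' z hz.1]
  obtain ⟨c, c0, M, hM⟩ := lower_in hs hg δ0 (fun z hz => (Ξc z (hδ z hz).1).continuousWithinAt)
    (fun z hz z' hz' h => by rw [← PΞ z hz, h, PΞ z' hz']) conf neg zero
  have small : ∀ᶠ j in atTop, t j < δ / 12 := hs.tendsto_zero.eventually (gt_mem_nhds (by positivity))
  obtain ⟨j, ⟨⟨⟨x, ρ, hρ, H⟩, hj⟩, hnum⟩, hj2⟩ :=
    (((hM.and small).and (lower_num (I := J) hl c0 M)).and (eventually_ge_atTop 2)).exists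
  have ht := hs.tpos j
  have ρ0 : 0 < ρ := lt_of_lt_of_le (by positivity) hρ
  have hin : ∀ X ∈ Icc (2 * t j) (4 * t j), (⟨X + a (b X), b X⟩ : ℂ) ∈ ball (0 : ℂ) δ :=
    fun X hX => mem_ball_zero_iff.2 (by linarith [gad_norm hs hg j hX])
  have s1 : Icc (2 * t j) (5 / 2 * t j) ⊆ Icc (2 * t j) (4 * t j) :=
    Icc_subset_Icc le_rfl (by linarith)
  have s2 : Icc (7 / 2 * t j) (4 * t j) ⊆ Icc (2 * t j) (4 * t j) :=
    Icc_subset_Icc (by linarith) le_rfl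
  have hN : 1 ≤ m j ^ 2 / 2 := by
    have : 2 ^ 2 ≤ m j ^ 2 := Nat.pow_le_pow_left (hj2.trans (grow j).1) 2
    omega
  refine hnum (t j) ρ (m j) ht (grow j).1 (grow j).2 hρ (lower_out hs hg
    ((measurable_Kf F).comp ec.measurable) qP dP hw hl J0 hJ j ρ0 (x := x) ?_ hN fun r hr => ?_)
  · obtain ⟨X, hX, X', hX', h⟩ := H ρ ⟨div_le_self ρ0.le (one_le_pow₀ one_le_two), le_rfl⟩
    have b1 := (abs_re_le_norm _).trans_lt (hδ _ (hin X (s1 hX))).2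
    have b2 := (abs_re_le_norm _).trans_lt (hδ _ (hin X' (s2 hX'))).2
    rcases h with ⟨h1, h2⟩ | ⟨h1, h2⟩ <;> rw [h1] at b1 <;> rw [h2] at b2 <;>
      simp only [abs_lt] at b1 b2 <;> rcases abs_cases x with h | h <;> linarith [h.1]
  · obtain ⟨X, hX, X', hX', h⟩ := H r hr
    refine ⟨X, hX, X', hX', h.imp (fun h => ?_) fun h => ?_⟩ <;>
      exact ⟨by rw [← h.1, PΞ _ (hin X (s1 hX))], by rw [← h.2, PΞ _ (hin X' (s2 hX'))]⟩

theorem not_admissible {φ : ℝ → ℝ} {t₀ : ℝ} (ht₀ : 0 < t₀) (hm : MonotoneOn φ (Ioo 0 t₀))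
    {c : ℝ} (hc : 0 < c) (h1 : ∀ᶠ t in 𝓝[>] (0 : ℝ), c * t ≤ φ t)
    (h2 : ∀ A : ℝ, ∃ᶠ t in 𝓝[>] (0 : ℝ), A * t * Real.log (1 / t) ^ (1 / 4 : ℝ) < φ t) :
    ¬ Admissible φ := by
  intro hA
  obtain ⟨κ, hκ, hdom⟩ := exists_dom
  obtain ⟨t, v, m, hs, hv⟩ := lower_seq ht₀ hκ h2
  obtain ⟨a, b, Ω, hg, hJ, hcc, M, δ, δ0, H⟩ := hdom t _ m hs
  refine not_propE hs hg hJ hcc (fun j => (hv j).2.2.2) (hA Ω hJ ?_)
  obtain ⟨u, u0, hu⟩ := (mem_nhdsGT_iff_exists_Ioo_subset).1 h1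
  have u0 : 0 < u := u0
  refine ⟨M * (1 / c + 1), min δ (min t₀ u), by positivity, fun P hP Q hQ hne hd => ?_⟩
  simp only [lt_min_iff] at hd
  have d0 : 0 < dist P Q := dist_pos.2 hne
  have a1 : c * dist P Q ≤ φ (dist P Q) := hu ⟨d0, hd.2.2⟩
  have a2 : 0 ≤ φ (dist P Q) := le_trans (by positivity) a1
  have a3 : dist P Q ≤ 1 / c * φ (dist P Q) := by
    rw [one_div, ← div_eq_inv_mul, le_div_iff₀ hc]; linarith
  rw [mul_assoc]
  refine H P hP Q hQ hne hd.1 _ (by linarith) fun j hj => ?_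
  obtain ⟨b1, b2, b3, -⟩ := hv j
  have := hm ⟨b1, b2⟩ ⟨d0, hd.2.1⟩ (le_of_mul_le_mul_left hj hκ)
  linarith

end Pool.Agent.P.MP_7f9008_an
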