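import Pool.Agent.P.MP_7f9008_an.GadDefs
import Pool.Agent.P.MP_7f9008_an.Family

/-! Length-area estimates inside one gadget. -/

open MeasureTheory Set Metric Filter Topology Real Complex
open scoped ENNReal

noncomputable section
namespace Pool.Agent.P.MP_7f9008_an
namespace LI

theorem mem_ball_of {x y δ : ℝ} (h : |x| + |y| < δ) : (⟨x, y⟩ : ℂ) ∈ ball (0 : ℂ) δ := by
  rw [mem_ball_zero_iff]
  exact (Complex.norm_le_abs_re_add_abs_im _).trans_lt h

theorem dyadic (N : ℕ) {u : ℝ} (h1 : 1 ≤ u) (h2 : u < 2 ^ N) :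
    ∃ k < N, 2 ^ k ≤ u ∧ u ≤ 2 ^ (k + 1) := by
  obtain ⟨k, h3, h4⟩ := exists_nat_pow_near h1 (one_lt_two (α := ℝ))
  exact ⟨k, (pow_lt_pow_iff_right₀ (one_lt_two (α := ℝ))).1 (h3.trans_lt h2), h3, h4.le⟩

theorem dist_real (p q : ℝ) : dist (⟨p, 0⟩ : ℂ) ⟨q, 0⟩ = |p - q| := by
  rw [Complex.dist_of_im_eq (by simp), Real.dist_eq]

/-- Potentials separating a short real interval from the opposite half line. -/
theorem family (x : ℝ) {g s : ℝ} (hg : 0 < g) (hs : s = 1 ∨ s = -1) (N : ℕ) :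
    ∃ σ : ℂ → ℝ≥0∞, Measurable σ ∧ ∫⁻ z, σ z ≤ ENNReal.ofReal (13 * N) ∧
      ∀ p q : ℝ, g ≤ s * (p - x) → s * (p - x) < 2 ^ N * g → s * (q - x) ≤ 0 →
        ∃ W ρ, UG univ W ρ ∧ (∀ z, ρ z ^ 2 ≤ σ z) ∧ 1 ≤ |W ⟨p, 0⟩ - W ⟨q, 0⟩| := by
  choose W ρ hP h0 h1 using fun k : ℕ =>
    exists_annulus (⟨x + s * (3 * (2 ^ k * g / 2)), 0⟩ : ℂ) (r := 2 ^ k * g / 2) (by positivity) 1
  refine ⟨fun z => ∑ k ∈ Finset.range N, ρ k z ^ 2,
    Finset.measurable_sum _ fun k _ => (hP k).meas.pow_const 2, ?_, ?_⟩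
  · rw [lintegral_finsetSum _ fun k _ => (hP k).meas.pow_const 2]
    calc _ ≤ ∑ _k ∈ Finset.range N, ENNReal.ofReal 13 :=
          Finset.sum_le_sum fun k _ => by simpa using (hP k).en
      _ = _ := by
          rw [Finset.sum_const, Finset.card_range, nsmul_eq_mul, mul_comm,
            ENNReal.ofReal_mul (by norm_num), ENNReal.ofReal_natCast]
  · intro p q a1 a2 a3
    obtain ⟨k, hk, b1, b2⟩ := dyadic N ((one_le_div hg).2 a1) ((div_lt_iff₀ hg).2 a2)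
    rw [le_div_iff₀ hg] at b1
    rw [div_le_iff₀ hg, pow_succ] at b2
    have hr : 0 < 2 ^ k * g := by positivity
    refine ⟨W k, ρ k, (hP k).ug, fun z => Finset.single_le_sum (f := fun k => ρ k z ^ 2)
      (fun _ _ => zero_le) (Finset.mem_range.2 hk), ?_⟩
    rw [h0 k, h1 k]
    · simp
    · rw [dist_real, le_abs]
      rcases hs with rfl | rfl
      · right; linarith
      · left; linarith
    · rw [dist_real, abs_le]
      rcases hs with rfl | rfl <;> constructor <;> linarith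

variable {t w : ℕ → ℝ} {m : ℕ → ℕ} {a b : ℝ → ℝ} {Ω : Set ℂ} {δ : ℝ} {Ξ : ℂ → ℂ}

theorem tpos (hs : Seq t w m) (j : ℕ) : 0 < t j := by
  have := hs.wpos j
  have : (1 : ℝ) ≤ m j := by exact_mod_cast hs.mpos j
  rw [hs.teq]; positivity

theorem tendsto_t (hs : Seq t w m) : Tendsto t atTop (𝓝 0) := by
  have h : ∀ j, t j ≤ (1 / 100) ^ j * t 0 := by
    intro j
    induction j with
    | zero => simp
    | succ j ih => have := hs.tdec j; rw [pow_succ]; linarith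
  refine squeeze_zero (fun j => (tpos hs j).le) h ?_
  simpa using (tendsto_pow_atTop_nhds_zero_of_lt_one (r := (1 / 100 : ℝ)) (by norm_num)
    (by norm_num)).mul_const (t 0)

/-- One ramp of the finger. -/
theorem ramp (hs : Seq t w m) (hg : Gad t w m a b Ω) (hc : ContinuousOn Ξ (ball 0 δ))
    (conf : Conf (Ω ∩ ball 0 δ) Ξ) (j : ℕ) (h1 : 20 * t j < δ) (h2 : 20 * t j ≤ 1 / 4)
    {σ : ℂ → ℝ≥0∞} (mσ : Measurable σ)
    (H : ∀ X ∈ Icc (2 * t j) (5 / 2 * t j), ∀ X' ∈ Icc (7 / 2 * t j) (4 * t j),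
      ∃ W ρ, UG univ W ρ ∧ (∀ z, ρ z ^ 2 ≤ σ z) ∧
        1 ≤ |W (Ξ ⟨X + a (b X), b X⟩) - W (Ξ ⟨X' + a (b X'), b X'⟩)|)
    {i : ℕ} (hi : m j ≤ i) (hi' : i < 2 * m j) :
    ENNReal.ofReal (t j) ≤ ENNReal.ofReal (w j) *
      ∫⁻ z in (Ω ∩ ball 0 δ) ∩ Ioo (4 * t j) (5 * t j) ×ℂ
        Ioo (2 * t j + (4 * i + 1 / 2) * w j) (2 * t j + (4 * i + 3 / 2) * w j),
        ENNReal.ofReal |(fderiv ℝ Ξ z).det| * σ (Ξ z) := by
  have ht := tpos hs j
  have hw := hs.wpos j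
  have e := hs.teq j
  have i1 : (m j : ℝ) ≤ i := by exact_mod_cast hi
  have i2 : (i : ℝ) + 1 ≤ 2 * m j := by exact_mod_cast hi'
  have y1 : 5 / 2 * t j ≤ 2 * t j + (4 * i + 1 / 2) * w j := by nlinarith
  have y2 : 2 * t j + (4 * i + 3 / 2) * w j ≤ 3 * t j := by nlinarith
  have y3 : 2 * t j + (4 * i + 1 / 2) * w j ≤ 2 * t j + (4 * i + 3 / 2) * w j := by nlinarith
  have a1 := hg.alow j i hi'
  have a2 := hg.ahigh j i hi'
  have e3 : 2 * t j + (4 * i + 3 / 2) * w j - (2 * t j + (4 * i + 1 / 2) * w j) = w j := by ring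
  generalize 2 * t j + (4 * i + 1 / 2) * w j = p at *
  generalize 2 * t j + (4 * i + 3 / 2) * w j = q at *
  have key := conf.qc.vert conf.distLe (x₁ := 4 * t j) (x₂ := 5 * t j) (y₁ := p) (y₂ := q)
    zero_le_one mσ ?_
  · rw [e3, show 5 * t j - 4 * t j = t j by ring] at key
    simpa using key
  intro x hx
  have hd : ∀ y, p ≤ y → 0 < (y + 8 * t j) / 3 - (10 * t j - y) / 3 := fun y hy => by linarith
  obtain ⟨y, y', c1, c2, c3, c4, c5, c6⟩ := exists_cross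
    (u := fun y => ((y + 8 * t j) / 3 - (x - a y)) / ((y + 8 * t j) / 3 - (10 * t j - y) / 3))
    (v₀ := 0) (v₁ := 1) y3
    (ContinuousOn.div (by have := hg.acont; fun_prop) (by fun_prop) fun y hy => (hd y hy.1).ne')
    (by
      refine div_nonpos_of_nonpos_of_nonneg ?_ (hd p le_rfl).le
      rw [a1]; linarith [hx.1])
    zero_lt_one
    (by
      rw [one_le_div (hd q y3), a2]
      linarith [hx.2])
  have hb : ∀ τ ∈ Icc y y', (⟨x, τ⟩ : ℂ) ∈ ball (0 : ℂ) δ := fun τ hτ => mem_ball_of (by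
    rw [abs_of_pos (by linarith [hx.1]), abs_of_pos (by linarith [hτ.1])]
    linarith [hx.2, hτ.2])
  refine ⟨y, y', c1, c2.le, c3, hc.comp (continuous_v x).continuousOn hb, fun τ hτ => ?_, ?_⟩
  · refine ⟨?_, hb τ ⟨hτ.1.le, hτ.2.le⟩⟩
    obtain ⟨d1, d2⟩ := c6 τ hτ
    have hτ' := hd τ (by linarith [hτ.1])
    rw [div_pos_iff_of_pos_right hτ'] at d1
    rw [div_lt_one hτ'] at d2
    rw [hg.mem _ (by
      rw [abs_of_pos (by linarith [hx.1])]; linarith [hx.2]) (by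
      rw [abs_of_pos (by linarith [hτ.1])]; linarith [hτ.2])]
    show b (x - a τ) < τ
    rcases le_total (x - a τ) (3 * t j) with h | h
    · rw [hg.b2 j _ ⟨by linarith [hτ.2], h⟩]; linarith
    · rw [hg.b3 j _ ⟨h, by linarith [hτ.2]⟩]; linarith
  · rw [div_eq_zero_iff, or_iff_left (hd y c1).ne'] at c4
    rw [div_eq_one_iff_eq (hd y' (by linarith)).ne'] at c5
    obtain ⟨W, ρ, k1, k2, k3⟩ := H ((10 * t j - y') / 3) ⟨by linarith, by linarith⟩
      ((y + 8 * t j) / 3) ⟨by linarith, by linarith⟩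
    refine ⟨W, ρ, k1, k2, ?_⟩
    rw [hg.b2 j _ ⟨by linarith, by linarith⟩, hg.b3 j _ ⟨by linarith, by linarith⟩,
      show 10 * t j - 3 * ((10 * t j - y') / 3) = y' by ring,
      show 3 * ((y + 8 * t j) / 3) - 8 * t j = y by ring,
      show (10 * t j - y') / 3 + a y' = x by linarith,
      show (y + 8 * t j) / 3 + a y = x by linarith] at k3
    exact k3

/-- The modulus of the finger is at least `8 m ^ 2`. -/
theorem finger (hs : Seq t w m) (hg : Gad t w m a b Ω) (hc : ContinuousOn Ξ (ball 0 δ))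
    (conf : Conf (Ω ∩ ball 0 δ) Ξ) (j : ℕ) (h1 : 20 * t j < δ) (h2 : 20 * t j ≤ 1 / 4)
    {σ : ℂ → ℝ≥0∞} (mσ : Measurable σ) {E : ℝ} (hE0 : 0 ≤ E) (hE : ∫⁻ z, σ z ≤ ENNReal.ofReal E)
    (H : ∀ X ∈ Icc (2 * t j) (5 / 2 * t j), ∀ X' ∈ Icc (7 / 2 * t j) (4 * t j),
      ∃ W ρ, UG univ W ρ ∧ (∀ z, ρ z ^ 2 ≤ σ z) ∧
        1 ≤ |W (Ξ ⟨X + a (b X), b X⟩) - W (Ξ ⟨X' + a (b X'), b X'⟩)|) :
    8 * (m j : ℝ) ^ 2 ≤ E := by
  have ht := tpos hs j
  have hw := hs.wpos j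
  set A : ℕ → Set ℂ := fun i => (Ω ∩ ball 0 δ) ∩ Ioo (4 * t j) (5 * t j) ×ℂ
    Ioo (2 * t j + (4 * i + 1 / 2) * w j) (2 * t j + (4 * i + 3 / 2) * w j) with hA
  have hd : (Finset.Ico (m j) (2 * m j) : Set ℕ).PairwiseDisjoint A := by
    have k : ∀ i i' : ℕ, i < i' → Disjoint (A i) (A i') := by
      intro i i' h
      rw [Set.disjoint_left]
      intro z hz hz'
      have e1 : z.im < 2 * t j + (4 * i + 3 / 2) * w j := hz.2.2.2
      have e2 : 2 * t j + (4 * i' + 1 / 2) * w j < z.im := hz'.2.2.1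
      have : (i : ℝ) + 1 ≤ i' := by exact_mod_cast h
      nlinarith
    intro i _ i' _ hne
    rcases lt_or_gt_of_ne hne with h | h
    · exact k i i' h
    · exact (k i' i h).symm
  have hm : ∀ i ∈ Finset.Ico (m j) (2 * m j), MeasurableSet (A i) := fun i _ =>
    (conf.isOpen.inter (isOpen_rect _ _ _ _)).measurableSet
  have key : ENNReal.ofReal (m j * t j) ≤ ENNReal.ofReal (w j * E) := by
    calc ENNReal.ofReal (m j * t j) = ∑ _i ∈ Finset.Ico (m j) (2 * m j), ENNReal.ofReal (t j) := by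
          rw [Finset.sum_const, Nat.card_Ico, show 2 * m j - m j = m j by omega, nsmul_eq_mul,
            ENNReal.ofReal_mul (by positivity), ENNReal.ofReal_natCast]
      _ ≤ ∑ i ∈ Finset.Ico (m j) (2 * m j), ENNReal.ofReal (w j) *
            ∫⁻ z in A i, ENNReal.ofReal |(fderiv ℝ Ξ z).det| * σ (Ξ z) :=
          Finset.sum_le_sum fun i hi => ramp hs hg hc conf j h1 h2 mσ H
            (Finset.mem_Ico.1 hi).1 (Finset.mem_Ico.1 hi).2
      _ = ENNReal.ofReal (w j) * ∫⁻ z in ⋃ i ∈ Finset.Ico (m j) (2 * m j), A i,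
            ENNReal.ofReal |(fderiv ℝ Ξ z).det| * σ (Ξ z) := by
          rw [lintegral_biUnion_finset hd hm, Finset.mul_sum]
      _ ≤ ENNReal.ofReal (w j) * ENNReal.ofReal E := by
          gcongr
          refine (conf.qc.area (Finset.measurableSet_biUnion _ hm)
            (iUnion₂_subset fun i _ => inter_subset_left) σ).trans ?_
          exact (setLIntegral_le_lintegral _ _).trans hE
      _ = _ := (ENNReal.ofReal_mul hw.le).symm
  rw [ENNReal.ofReal_le_ofReal_iff (by positivity), hs.teq j] at key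
  nlinarith

end LI
end Pool.Agent.P.MP_7f9008_an
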