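import Pool.Agent.P.MP_7f9008_an.MassB

/-! A mass distribution on a closed curve which is 2-homogeneous with respect to a family of
disjoint discs attached to the curve. -/

open Set Metric Filter Topology Real

noncomputable section
namespace Pool.Agent.P.MP_7f9008_an

theorem sum_sq_le {ι : Type} (S : Finset ι) {s : ι → ℝ} {c : ι → ℂ} (hs : ∀ i, 0 < s i)
    (hdis : Pairwise fun i j => Disjoint (ball (c i) (s i)) (ball (c j) (s j))) {z : ℂ} {R : ℝ}
    (hR : 0 ≤ R) (h : ∀ i ∈ S, s i + dist (c i) z ≤ R) : ∑ i ∈ S, s i ^ 2 ≤ R ^ 2 := by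
  have h1 : MeasureTheory.volume (⋃ i ∈ S, ball (c i) (s i)) ≤ MeasureTheory.volume (ball z R) :=
    MeasureTheory.measure_mono (iUnion₂_subset fun i hi => ball_subset_ball' (h i hi))
  rw [MeasureTheory.measure_biUnion_finset (fun i _ j _ hij => hdis hij)
    fun i _ => measurableSet_ball] at h1
  simp only [Complex.volume_ball, ← Finset.sum_mul] at h1
  have h2 := (ENNReal.mul_le_mul_iff_left (by simp [NNReal.pi_ne_zero]) (by simp)).1 h1
  have h3 : ∀ i ∈ S, ENNReal.ofReal (s i) ^ 2 = ENNReal.ofReal (s i ^ 2) := fun i _ =>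
    (ENNReal.ofReal_pow (hs i).le 2).symm
  rwa [Finset.sum_congr rfl h3, ← ENNReal.ofReal_sum_of_nonneg fun i _ => sq_nonneg _,
    ← ENNReal.ofReal_pow hR, ENNReal.ofReal_le_ofReal_iff (sq_nonneg _)] at h2

theorem packing {ι : Type} (S : Finset ι) {s : ι → ℝ} {c q : ι → ℂ} {M r : ℝ} (hM : 0 ≤ M)
    (hr : 0 < r) (hs : ∀ i, 0 < s i)
    (hdis : Pairwise fun i j => Disjoint (ball (c i) (s i)) (ball (c j) (s j)))
    (hc : ∀ i, dist (c i) (q i) ≤ M * s i) {z : ℂ} (h : ∀ i ∈ S, dist z (q i) ≤ 9 * r) :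
    ∑ a ∈ S, s a ^ 2 * (r / (r + s a)) ^ 3 ≤ 9 * (10 + M) ^ 2 * r ^ 2 := by
  classical
  have A : ∀ K : ℕ, ∑ a ∈ S with s a ≤ 2 ^ K * r, s a ^ 2 ≤ ((10 + M) * (2 ^ K * r)) ^ 2 := by
    intro K
    refine sum_sq_le _ hs hdis (z := z) (by positivity) fun i hi => ?_
    obtain ⟨h1, h2⟩ := Finset.mem_filter.1 hi
    have h3 : r ≤ 2 ^ K * r := le_mul_of_one_le_left hr.le (one_le_pow₀ one_le_two)
    have h4 := dist_triangle (c i) (q i) z
    rw [dist_comm (q i)] at h4
    nlinarith [h i h1, hc i, mul_le_mul_of_nonneg_left h2 hM]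
  have B : ∀ K : ℕ, ∑ a ∈ S with s a ≤ 2 ^ K * r, s a ^ 2 * (r / (r + s a)) ^ 3 ≤
      (9 - 8 / 2 ^ K) * ((10 + M) ^ 2 * r ^ 2) := by
    intro K
    induction K with
    | zero =>
      refine le_trans (Finset.sum_le_sum fun a _ => ?_) ((A 0).trans_eq (by ring))
      have := hs a
      exact mul_le_of_le_one_right (sq_nonneg _)
        (pow_le_one₀ (by positivity) ((div_le_one (by positivity)).2 (by linarith)))
    | succ K ih =>
      have k0 : (0 : ℝ) < 2 ^ K := by positivity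
      rw [← Finset.sum_filter_add_sum_filter_not _ fun a => s a ≤ 2 ^ K * r]
      have e : (S.filter fun a => s a ≤ 2 ^ (K + 1) * r).filter (fun a => s a ≤ 2 ^ K * r) =
          S.filter fun a => s a ≤ 2 ^ K * r := by
        rw [Finset.filter_filter]
        refine Finset.filter_congr fun a _ => ⟨fun h => h.2, fun h => ⟨h.trans ?_, h⟩⟩
        rw [pow_succ]
        nlinarith
      rw [e]
      have t : ∑ a ∈ (S.filter fun a => s a ≤ 2 ^ (K + 1) * r).filter (fun a => ¬ s a ≤ 2 ^ K * r),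
          s a ^ 2 * (r / (r + s a)) ^ 3 ≤ ((10 + M) * (2 ^ (K + 1) * r)) ^ 2 * (1 / 2 ^ K) ^ 3 := by
        refine le_trans ?_ (mul_le_mul_of_nonneg_right (A (K + 1)) (by positivity))
        rw [Finset.sum_mul]
        refine (Finset.sum_le_sum fun a ha => ?_).trans
          (Finset.sum_le_sum_of_subset_of_nonneg (Finset.filter_subset _ _)
            fun a _ _ => by positivity)
        have h1 := not_le.1 (Finset.mem_filter.1 ha).2
        have := hs a
        refine mul_le_mul_of_nonneg_left (pow_le_pow_left₀ (by positivity) ?_ 3) (sq_nonneg _)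
        rw [div_le_div_iff₀ (by positivity) k0]
        linarith
      refine (add_le_add ih t).trans_eq ?_
      rw [pow_succ]
      field_simp
      ring
  obtain ⟨K, hK⟩ := pow_unbounded_of_one_lt ((∑ a ∈ S, s a) / r) (one_lt_two (α := ℝ))
  rw [div_lt_iff₀ hr] at hK
  have hB := B K
  rw [Finset.filter_true_of_mem fun a ha =>
    (Finset.single_le_sum (fun a _ => (hs a).le) ha).trans hK.le] at hB
  have : 0 ≤ 8 / 2 ^ K * ((10 + M) ^ 2 * r ^ 2) := by positivity
  linarith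

/-- counting function of the lifts of a point -/
def cnt (p x : ℝ) : ℝ := (⌊(x - p) / (2 * π)⌋ - ⌊(0 - p) / (2 * π)⌋ : ℤ)

theorem cnt_mono (p : ℝ) : Monotone (cnt p) := fun x y h => by
  have := Int.floor_mono (div_le_div_of_nonneg_right (sub_le_sub_right h p)
    (show (0 : ℝ) ≤ 2 * π by positivity))
  unfold cnt
  exact_mod_cast sub_le_sub_right this _

theorem cnt_add (p x : ℝ) : cnt p (x + 2 * π) = cnt p x + 1 := by
  have : (x + 2 * π - p) / (2 * π) = (x - p) / (2 * π) + 1 := by field_simp; ring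
  unfold cnt
  rw [this, Int.floor_add_one]
  push_cast
  ring

theorem cnt_abs (p x : ℝ) : |cnt p x| ≤ |x| / (2 * π) + 1 := by
  have h2 : (0 : ℝ) < 2 * π := by positivity
  have e : (x - p) / (2 * π) = x / (2 * π) + (0 - p) / (2 * π) := by ring
  have a1 := div_le_div_of_nonneg_right (le_abs_self x) h2.le
  have a2 := div_le_div_of_nonneg_right (neg_abs_le x) h2.le
  rw [neg_div] at a2
  unfold cnt
  push_cast
  rw [abs_le]
  constructor <;> linarith [Int.floor_le ((x - p) / (2 * π)), Int.floor_le ((0 - p) / (2 * π)),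
    Int.lt_floor_add_one ((x - p) / (2 * π)), Int.lt_floor_add_one ((0 - p) / (2 * π))]

theorem cnt_jump {p u v : ℝ} {k : ℤ} (h1 : u < p + k * (2 * π)) (h2 : p + k * (2 * π) ≤ v) :
    1 ≤ cnt p v - cnt p u := by
  have h0 : (0 : ℝ) < 2 * π := by positivity
  have a1 : ⌊(u - p) / (2 * π)⌋ < k := Int.floor_lt.2 (by rw [div_lt_iff₀ h0]; linarith)
  have a2 : k ≤ ⌊(v - p) / (2 * π)⌋ := Int.le_floor.2 (by rw [le_div_iff₀ h0]; linarith)
  unfold cnt
  exact_mod_cast (by omega)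

theorem exists_lift_of_cnt {p u v : ℝ} (h : cnt p u < cnt p v) :
    ∃ k : ℤ, p + k * (2 * π) ∈ Icc u v := by
  have h0 : (0 : ℝ) < 2 * π := by positivity
  unfold cnt at h
  have a0 : ⌊(u - p) / (2 * π)⌋ < ⌊(v - p) / (2 * π)⌋ := by
    have := Int.cast_lt.1 h
    omega
  have a1 := Int.floor_lt.1 a0
  have a2 := Int.floor_le ((v - p) / (2 * π))
  rw [div_lt_iff₀ h0] at a1
  rw [le_div_iff₀ h0] at a2
  exact ⟨⌊(v - p) / (2 * π)⌋, by linarith, by linarith⟩

theorem dl_full {γ : ℝ → ℂ} (hγ : Continuous γ) (hp : ∀ x, γ (x + 2 * π) = γ x) (u : ℝ) :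
    dl γ 0 (2 * π) ≤ dl γ u (u + 2 * π) := by
  have aux : ∀ x, ∃ y ∈ Icc u (u + 2 * π), γ y = γ x := by
    intro x
    obtain ⟨k, hk⟩ := exists_lift_of_cnt (p := x) (u := u) (v := u + 2 * π)
      (by rw [cnt_add]; linarith)
    exact ⟨_, hk, per_int hp k x⟩
  refine dl_le dl_nonneg fun x _ y _ => ?_
  obtain ⟨x', hx, ex⟩ := aux x
  obtain ⟨y', hy, ey⟩ := aux y
  rw [← ex, ← ey]
  exact dist_le_dl hγ hx hy

theorem mass {γ : ℝ → ℂ} (hγ : Continuous γ) (hp : ∀ x, γ (x + 2 * π) = γ x)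
    (hd : 0 < dl γ 0 (2 * π)) {ι : Type} [Nonempty ι] (p s : ι → ℝ) (c : ι → ℂ) {M : ℝ}
    (hs : ∀ i, 0 < s i) (hdis : Pairwise fun i j => Disjoint (ball (c i) (s i)) (ball (c j) (s j)))
    (hc : ∀ i, dist (c i) (γ (p i)) ≤ M * s i) :
    ∃ h : ℝ → ℝ, Monotone h ∧ (∀ x, h (x + 2 * π) = h x + 1) ∧ ∃ C R₀ : ℝ, 0 < R₀ ∧
      ∀ (i : ι) (k : ℤ) (u u₁ u₂ u' R : ℝ), u ≤ u₁ → u₁ ≤ p i + k * (2 * π) →
        p i + k * (2 * π) ≤ u₂ → u₂ ≤ u' → s i ≤ dl γ u₁ (p i + k * (2 * π)) →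
        s i ≤ dl γ (p i + k * (2 * π)) u₂ → dl γ u u' ≤ R → R ≤ R₀ →
        (h u' - h u) * s i ^ 2 ≤ C * R ^ 2 * (h u₂ - h u₁) := by
  classical
  obtain ⟨i₀⟩ := ‹Nonempty ι›
  have hM : 0 ≤ M := nonneg_of_mul_nonneg_left (dist_nonneg.trans (hc i₀)) (hs i₀)
  set r₀ := dl γ 0 (2 * π) / 2 with hr₀
  have hr : 0 < r₀ := half_pos hd
  set C := exp 126 * (9 * (10 + M) ^ 2) * 4 * 17 ^ 3 with hC
  have C0 : 0 ≤ C := by positivity
  have fm := fun F : Finset ι => finite_mass F (ρ := fun i i' => rp γ (p i) (p i'))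
    (fun _ => rp_self) (fun _ _ => rp_comm hp) (fun _ _ _ => rp_triangle hγ hp) hr
    (fun n => tstep_rp hγ hp (by positivity)
      ((div_le_self hr.le (one_le_pow₀ one_le_two)).trans (half_le_self hd.le)) F p) hs
    (c := 9 * (10 + M) ^ 2) fun i r hr => packing _ hM hr hs hdis hc (z := γ (p i)) fun a ha =>
      (dist_le_rp hγ hp).trans (Finset.mem_filter.1 ha).2
  choose m m0 hm using fm
  set H : Finset ι → ℝ → ℝ := fun F x => (∑ a ∈ F, m F a * cnt (p a) x) / ∑ a ∈ F, m F a with hH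
  have tot0 : ∀ F, 0 ≤ ∑ a ∈ F, m F a := fun F => Finset.sum_nonneg fun a _ => (m0 F a).le
  have totp : ∀ F i, i ∈ F → 0 < ∑ a ∈ F, m F a := fun F i hi =>
    Finset.sum_pos (fun a _ => m0 F a) ⟨i, hi⟩
  have Hb : ∀ F x, H F x ∈ Icc (-(|x| / (2 * π) + 1)) (|x| / (2 * π) + 1) := by
    intro F x
    refine abs_le.1 ?_
    simp only [hH]
    rw [abs_div, abs_of_nonneg (tot0 F)]
    refine div_le_of_le_mul₀ (tot0 F) (by positivity) ((Finset.abs_sum_le_sum_abs _ _).trans ?_)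
    rw [Finset.mul_sum]
    refine Finset.sum_le_sum fun a _ => ?_
    rw [abs_mul, abs_of_pos (m0 F a), mul_comm]
    exact mul_le_mul_of_nonneg_right (cnt_abs _ _) (m0 F a).le
  set U : Ultrafilter (Finset ι) := Ultrafilter.of atTop
  have hU : ∀ i, ∀ᶠ F in (U : Filter (Finset ι)), i ∈ F := fun i =>
    Ultrafilter.of_le atTop ((eventually_ge_atTop {i}).mono fun F hF =>
      hF (Finset.mem_singleton_self i))
  have lim : ∀ x, ∃ y, Tendsto (fun F => H F x) U (𝓝 y) := by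
    intro x
    obtain ⟨y, -, hy⟩ := isCompact_Icc.ultrafilter_le_nhds (U.map fun F => H F x) (by
      rw [Ultrafilter.coe_map, le_principal_iff, mem_map]
      exact univ_mem' fun F => Hb F x)
    exact ⟨y, hy⟩
  choose h hh using lim
  refine ⟨h, fun x y hxy => le_of_tendsto_of_tendsto' (hh x) (hh y) fun F => ?_, fun x => ?_,
    C, r₀, hr, fun i k u u₁ u₂ u' R h1 h2 h3 h4 h5 h6 h7 h8 => ?_⟩
  · exact div_le_div_of_nonneg_right (Finset.sum_le_sum fun a _ =>
      mul_le_mul_of_nonneg_left (cnt_mono _ hxy) (m0 F a).le) (tot0 F)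
  · refine tendsto_nhds_unique_of_eventuallyEq (hh _) ((hh x).add_const 1)
      ((hU i₀).mono fun F hF => ?_)
    simp only [hH, cnt_add, mul_add, Finset.sum_add_distrib, mul_one]
    rw [add_div, div_self (totp F i₀ hF).ne']
  · refine le_of_tendsto_of_tendsto (((hh u').sub (hh u)).mul_const _)
      (((hh u₂).sub (hh u₁)).const_mul _) ((hU i).mono fun F hF => ?_)
    have key := hm F i hF R (h5.trans ((dl_mono hγ h1 (h3.trans h4)).trans h7)) h8
    have short : u' ≤ u + 2 * π := by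
      by_contra hc
      linarith [dl_full hγ hp u, dl_mono (γ := γ) hγ (le_refl u) (not_le.1 hc).le]
    have up : ∑ a ∈ F, m F a * cnt (p a) u' - ∑ a ∈ F, m F a * cnt (p a) u ≤
        ∑ a ∈ F with rp γ (p i) (p a) ≤ R, m F a := by
      rw [← Finset.sum_sub_distrib, Finset.sum_filter]
      refine Finset.sum_le_sum fun a _ => ?_
      rw [← mul_sub]
      split_ifs with ha
      · refine mul_le_of_le_one_right (m0 F a).le ?_
        linarith [cnt_mono (p a) short, cnt_add (p a) u]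
      · refine mul_nonpos_of_nonneg_of_nonpos (m0 F a).le (sub_nonpos.2 (not_lt.1 fun hl => ha ?_))
        obtain ⟨l, hl⟩ := exists_lift_of_cnt hl
        exact (rp_le' hp k l).trans ((rho_le_dl hγ ⟨h1.trans h2, h3.trans h4⟩ hl).trans h7)
    have lo : ∑ a ∈ F with rp γ (p i) (p a) < s i, m F a ≤
        ∑ a ∈ F, m F a * cnt (p a) u₂ - ∑ a ∈ F, m F a * cnt (p a) u₁ := by
      rw [← Finset.sum_sub_distrib, Finset.sum_filter]
      refine Finset.sum_le_sum fun a _ => ?_
      rw [← mul_sub]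
      split_ifs with ha
      · refine le_mul_of_one_le_right (m0 F a).le ?_
        obtain ⟨l, hl⟩ := exists_lt_of_ciInf_lt ha
        rw [← rho_add_int hp k] at hl
        have e : p a + l * (2 * π) + k * (2 * π) = p a + (l + k : ℤ) * (2 * π) := by
          push_cast
          ring
        rw [e] at hl
        refine cnt_jump (k := l + k) (not_le.1 fun hc => ?_) (not_lt.1 fun hc => ?_)
        · rw [rho_comm, rho_of_le (hc.trans h2)] at hl
          linarith [dl_mono (γ := γ) hγ hc (le_refl (p i + k * (2 * π)))]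
        · rw [rho_of_le (h3.trans hc.le)] at hl
          linarith [dl_mono (γ := γ) hγ (le_refl (p i + k * (2 * π))) hc.le]
      · exact mul_nonneg (m0 F a).le (sub_nonneg.2 (cnt_mono _ (h2.trans h3)))
    simp only [hH]
    rw [← sub_div, ← sub_div, div_mul_eq_mul_div, ← mul_div_assoc]
    refine div_le_div_of_nonneg_right ?_ (tot0 F)
    exact (mul_le_mul_of_nonneg_right up (sq_nonneg _)).trans
      (key.trans (mul_le_mul_of_nonneg_left lo (by positivity)))

end Pool.Agent.P.MP_7f9008_an
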