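import Pool.Agent.P.MP_7f9008_an.Basic

/-! The arc pseudo-distance and tent partitions on a closed curve. -/

open Set Metric Filter Topology Real

noncomputable section
namespace Pool.Agent.P.MP_7f9008_an

/-- Diameter of the arc between two parameters, in either order. -/
def rho (γ : ℝ → ℂ) (x y : ℝ) : ℝ := diam (γ '' uIcc x y)

/-- The periodised version. -/
def rp (γ : ℝ → ℂ) (x y : ℝ) : ℝ := ⨅ k : ℤ, rho γ x (y + k * (2 * π))

section
variable {γ : ℝ → ℂ} {x y z r : ℝ}

theorem rho_of_le (h : x ≤ y) : rho γ x y = dl γ x y := by simp [rho, dl, uIcc_of_le h]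

theorem rho_comm : rho γ x y = rho γ y x := by simp [rho, uIcc_comm]

theorem rho_nonneg : 0 ≤ rho γ x y := diam_nonneg

theorem rho_le_dl (hγ : Continuous γ) {u v : ℝ} (hx : x ∈ Icc u v) (hy : y ∈ Icc u v) :
    rho γ x y ≤ dl γ u v :=
  diam_mono (image_mono (uIcc_subset_Icc hx hy)) (isBounded_arc hγ _ _)

theorem rho_triangle (hγ : Continuous γ) : rho γ x z ≤ rho γ x y + rho γ y z := by
  refine (diam_mono (image_mono (uIcc_subset_uIcc_union_uIcc (b := y))) ?_).trans ?_
  · exact ((isCompact_uIcc.union isCompact_uIcc).image hγ).isBounded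
  · rw [image_union]
    exact diam_union' ⟨γ y, mem_image_of_mem _ right_mem_uIcc, mem_image_of_mem _ left_mem_uIcc⟩

theorem dist_le_rho (hγ : Continuous γ) : dist (γ x) (γ y) ≤ rho γ x y :=
  dist_le_diam_of_mem (isCompact_uIcc.image hγ).isBounded (mem_image_of_mem _ left_mem_uIcc)
    (mem_image_of_mem _ right_mem_uIcc)

theorem rho_add_int (hp : ∀ x, γ (x + 2 * π) = γ x) (k : ℤ) (x y : ℝ) :
    rho γ (x + k * (2 * π)) (y + k * (2 * π)) = rho γ x y := by
  rcases le_total x y with h | h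
  · rw [rho_of_le h, rho_of_le (by linarith), dl_add_int hp]
  · rw [rho_comm, rho_comm (x := x), rho_of_le h, rho_of_le (by linarith), dl_add_int hp]

theorem rp_le (k : ℤ) : rp γ x y ≤ rho γ x (y + k * (2 * π)) :=
  ciInf_le ⟨0, by rintro _ ⟨k, rfl⟩; exact rho_nonneg⟩ k

theorem rp_le' (hp : ∀ x, γ (x + 2 * π) = γ x) (k l : ℤ) :
    rp γ x y ≤ rho γ (x + k * (2 * π)) (y + l * (2 * π)) := by
  refine (rp_le (l - k)).trans_eq ?_
  rw [← rho_add_int hp k]
  congr 1
  push_cast
  ring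

theorem rp_nonneg : 0 ≤ rp γ x y := le_ciInf fun _ => rho_nonneg

theorem rp_self : rp γ x x = 0 :=
  le_antisymm ((rp_le 0).trans_eq (by simp [rho])) rp_nonneg

theorem rp_comm (hp : ∀ x, γ (x + 2 * π) = γ x) : rp γ x y = rp γ y x := by
  have : ∀ x y, rp γ x y ≤ rp γ y x := fun x y => le_ciInf fun k => by
    rw [rho_comm]
    simpa using rp_le' (x := x) (y := y) hp k 0
  exact le_antisymm (this _ _) (this _ _)

theorem rp_triangle (hγ : Continuous γ) (hp : ∀ x, γ (x + 2 * π) = γ x) :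
    rp γ x z ≤ rp γ x y + rp γ y z := by
  refine le_ciInf_add_ciInf fun k l => ?_
  refine (rp_le (k + l)).trans ((rho_triangle (y := y + k * (2 * π)) hγ).trans_eq ?_)
  rw [← rho_add_int hp k y]
  congr 2
  push_cast
  ring

theorem dist_le_rp (hγ : Continuous γ) (hp : ∀ x, γ (x + 2 * π) = γ x) :
    dist (γ x) (γ y) ≤ rp γ x y :=
  le_ciInf fun k => by
    rw [← per_int hp k y]
    exact dist_le_rho hγ

theorem exists_seq (hγ : Continuous γ) (hp : ∀ x, γ (x + 2 * π) = γ x) (hr : 0 < r) {u v : ℝ}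
    (huv : u ≤ v) (h : r ≤ dl γ u v) : ∃ (N : ℕ) (b : ℕ → ℝ), 0 < N ∧ b 0 = u ∧ b N = v ∧
      ∀ j < N, b j ≤ b (j + 1) ∧ r ≤ dl γ (b j) (b (j + 1)) ∧ dl γ (b j) (b (j + 1)) ≤ 2 * r := by
  obtain ⟨η, hη, H⟩ := exists_dl_le hγ hp (half_pos hr)
  obtain ⟨m, hm⟩ := exists_nat_ge ((v - u) / η)
  rw [div_le_iff₀ hη] at hm
  induction m generalizing u with
  | zero =>
    have := H u v (by simp at hm; linarith)
    linarith
  | succ m ih =>
    by_cases h2 : dl γ u v ≤ 2 * r
    · refine ⟨1, fun j => if j = 0 then u else v, one_pos, rfl, rfl, fun j hj => ?_⟩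
      obtain rfl : j = 0 := by omega
      exact ⟨huv, h, h2⟩
    · obtain ⟨w, hw, hw'⟩ := intermediate_value_Icc huv
        ((continuousOn_dl hγ hp u).mono Icc_subset_Ici_self)
        (show r ∈ Icc (dl γ u u) (dl γ u v) from ⟨by rw [dl_self]; exact hr.le, h⟩)
      have h3 : η < w - u := by
        by_contra h3
        have := H u w (not_lt.1 h3)
        linarith
      have h4 := dl_triangle (γ := γ) hw.1 hw.2
      obtain ⟨N, b, hN, b0, bN, hb⟩ := ih hw.2 (by linarith) (by push_cast at hm; linarith)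
      refine ⟨N + 1, fun j => Nat.casesOn j u b, Nat.succ_pos _, rfl, bN, fun j hj => ?_⟩
      cases j with
      | zero =>
        show u ≤ b 0 ∧ r ≤ dl γ u (b 0) ∧ dl γ u (b 0) ≤ 2 * r
        rw [b0, hw']
        exact ⟨hw.1, le_rfl, by linarith⟩
      | succ j => exact hb j (by omega)

theorem exists_zseq (hγ : Continuous γ) (hp : ∀ x, γ (x + 2 * π) = γ x) (hr : 0 < r)
    (h : r ≤ dl γ 0 (2 * π)) : ∃ (N : ℕ) (b : ℤ → ℝ), 0 < N ∧
      (∀ l k : ℤ, b (l + k * N) = b l + k * (2 * π)) ∧ Monotone b ∧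
      ∀ l, r ≤ dl γ (b l) (b (l + 1)) ∧ dl γ (b l) (b (l + 1)) ≤ 2 * r := by
  obtain ⟨N, b, hN, b0, bN, hb⟩ := exists_seq hγ hp hr (by positivity) h
  have hN' : (0 : ℤ) < N := by exact_mod_cast hN
  set B : ℤ → ℝ := fun l => b (l % N).toNat + (l / N : ℤ) * (2 * π) with hB
  have key : ∀ (m : ℕ) (q : ℤ), m ≤ N → B (m + N * q) = b m + q * (2 * π) := by
    intro m q hm
    rcases hm.eq_or_lt with rfl | hm
    · obtain ⟨h1, h2⟩ := (Int.ediv_emod_unique (a := m + m * q) (r := 0) (q := q + 1) hN').2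
        ⟨by ring, le_rfl, hN'⟩
      simp only [hB, h1, h2, Int.toNat_zero, b0, bN]
      push_cast
      ring
    · obtain ⟨h1, h2⟩ := (Int.ediv_emod_unique (a := m + N * q) (r := m) (q := q) hN').2
        ⟨rfl, by positivity, by exact_mod_cast hm⟩
      simp only [hB, h1, h2, Int.toNat_natCast]
  have dec : ∀ l : ℤ, ∃ (m : ℕ) (q : ℤ), m < N ∧ l = m + N * q := by
    intro l
    have h1 := Int.emod_nonneg l hN'.ne'
    have h2 := Int.emod_lt_of_pos l hN'
    refine ⟨(l % N).toNat, l / N, by omega, ?_⟩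
    rw [Int.toNat_of_nonneg h1, Int.emod_add_mul_ediv]
  have step : ∀ l, B l ≤ B (l + 1) ∧ r ≤ dl γ (B l) (B (l + 1)) ∧
      dl γ (B l) (B (l + 1)) ≤ 2 * r := by
    intro l
    obtain ⟨m, q, hm, rfl⟩ := dec l
    have e : (m : ℤ) + N * q + 1 = (m + 1 : ℕ) + N * q := by push_cast; ring
    rw [e, key m q hm.le, key (m + 1) q hm, dl_add_int hp]
    exact ⟨by linarith [(hb m hm).1], (hb m hm).2⟩
  refine ⟨N, B, hN, fun l k => ?_, monotone_int_of_le_succ fun l => (step l).1,
    fun l => (step l).2⟩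
  obtain ⟨m, q, hm, rfl⟩ := dec l
  have e : (m : ℤ) + N * q + k * N = m + N * (q + k) := by ring
  rw [e, key m q hm.le, key m _ hm.le]
  push_cast
  ring

/-- The tent structure at scale `r`. -/
theorem exists_tent (hγ : Continuous γ) (hp : ∀ x, γ (x + 2 * π) = γ x) (hr : 0 < r)
    (h : r ≤ dl γ 0 (2 * π)) : ∃ (N : ℕ) (j : ℝ → ℤ) (κ : ℝ → ℝ), 0 < N ∧
      (∀ x (k : ℤ), j (x + k * (2 * π)) = j x + k * N) ∧
      (∀ x (k : ℤ), κ (x + k * (2 * π)) = κ x) ∧ (∀ x, 0 ≤ κ x ∧ κ x ≤ 1) ∧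
      (∀ x y, j x ≤ j y + 1 → j y ≤ j x + 1 → rho γ x y ≤ 4 * r) ∧
      ∀ t : ℤ → ℝ, (∀ l, 0 ≤ t l ∧ t l ≤ 7) → ∀ x y,
        |((1 - κ x) * t (j x) + κ x * t (j x + 1)) - ((1 - κ y) * t (j y) + κ y * t (j y + 1))| ≤
          14 * rho γ x y / r := by
  obtain ⟨N, b, hN, hper, hmono, hb⟩ := exists_zseq hγ hp hr h
  have h2 : (0 : ℝ) < 2 * π := by positivity
  have hN' : (0 : ℤ) < N := by exact_mod_cast hN
  have ex : ∀ x, ∃ l, b l ≤ x ∧ x < b (l + 1) := by
    intro x
    obtain ⟨k, hk⟩ := exists_int_gt ((x - b 0) / (2 * π))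
    obtain ⟨k', hk'⟩ := exists_int_lt ((x - b 0) / (2 * π))
    rw [div_lt_iff₀ h2] at hk
    rw [lt_div_iff₀ h2] at hk'
    obtain ⟨l, hl, hl'⟩ := Int.exists_greatest_of_bdd (P := fun l => b l ≤ x)
      ⟨0 + k * N, fun z hz => by
        by_contra hc
        have := hmono (not_le.1 hc).le
        rw [hper] at this
        linarith⟩ ⟨0 + k' * N, by rw [hper]; linarith⟩
    refine ⟨l, hl, ?_⟩
    by_contra hc
    have := hl' _ (not_lt.1 hc)
    omega
  choose j hj using ex
  have jle : ∀ x l, x < b (l + 1) → j x ≤ l := by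
    intro x l hx
    by_contra hc
    have := hmono (show l + 1 ≤ j x by omega)
    linarith [(hj x).1]
  have lej : ∀ x l, b l ≤ x → l ≤ j x := by
    intro x l hx
    by_contra hc
    have := hmono (show j x + 1 ≤ l by omega)
    linarith [(hj x).2]
  have jper : ∀ x (k : ℤ), j (x + k * (2 * π)) = j x + k * N := by
    intro x k
    refine le_antisymm (jle _ _ ?_) (lej _ _ ?_)
    · rw [add_right_comm, hper]
      linarith [(hj x).2]
    · rw [hper]
      linarith [(hj x).1]
  set κ : ℝ → ℝ := fun x => min 1 (dl γ (b (j x)) x / r) with hκ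
  have κ0 : ∀ x, 0 ≤ κ x := fun x => le_min zero_le_one (div_nonneg dl_nonneg hr.le)
  have κ1 : ∀ x, κ x ≤ 1 := fun x => min_le_left _ _
  refine ⟨N, j, κ, hN, jper, fun x k => ?_, fun x => ⟨κ0 x, κ1 x⟩, fun x y h1 h2 => ?_,
    fun t ht x y => ?_⟩
  · simp only [hκ, jper, hper, dl_add_int hp]
  · have aux : ∀ x y, j x ≤ j y → j y ≤ j x + 1 → rho γ x y ≤ 4 * r := by
      intro x y h1 h2
      have a1 := hmono (show j x ≤ j x + 1 by omega)
      have a2 := hmono (show j x + 1 ≤ j x + 1 + 1 by omega)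
      refine (rho_le_dl hγ (u := b (j x)) (v := b (j x + 1 + 1))
        ⟨(hj x).1, (hj x).2.le.trans a2⟩
        ⟨(hmono h1).trans (hj y).1, (hj y).2.le.trans (hmono (by omega))⟩).trans ?_
      linarith [dl_triangle (γ := γ) a1 a2, (hb (j x)).2, (hb (j x + 1)).2]
    rcases le_total (j x) (j y) with h3 | h3
    · exact aux x y h3 h2
    · rw [rho_comm]
      exact aux y x h3 h1
  · wlog hxy : x ≤ y generalizing x y
    · rw [abs_sub_comm, rho_comm]
      exact this y x (not_le.1 hxy).le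
    rw [rho_of_le hxy, mul_div_assoc]
    set d := dl γ x y / r with hd
    have d0 : 0 ≤ d := div_nonneg dl_nonneg hr.le
    have cx0 := κ0 x
    have cx1 := κ1 x
    have cy0 := κ0 y
    have cy1 := κ1 y
    obtain ⟨a0, a1⟩ := ht (j x)
    obtain ⟨a2, a3⟩ := ht (j x + 1)
    obtain ⟨a4, a5⟩ := ht (j y)
    obtain ⟨a6, a7⟩ := ht (j y + 1)
    by_cases hd1 : 1 ≤ d
    · rw [abs_le]
      constructor <;> nlinarith
    have hlt : dl γ x y < r := (div_lt_one hr).1 (not_le.1 hd1)
    have j1 : j x ≤ j y := lej _ _ ((hj x).1.trans hxy)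
    have j2 : j y ≤ j x + 1 := by
      by_contra hc
      have := dl_mono (γ := γ) hγ (hj x).2.le
        ((hmono (show j x + 1 + 1 ≤ j y by omega)).trans (hj y).1)
      linarith [(hb (j x + 1)).1]
    rcases j1.eq_or_lt with he | he
    · have k1 : κ x ≤ κ y := min_le_min le_rfl (by
        rw [← he]
        exact div_le_div_of_nonneg_right (dl_mono hγ le_rfl hxy) hr.le)
      have k2 : κ y ≤ κ x + d := by
        have : dl γ (b (j y)) y / r ≤ dl γ (b (j x)) x / r + d := by
          rw [hd, ← add_div, ← he]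
          exact div_le_div_of_nonneg_right (dl_triangle (hj x).1 hxy) hr.le
        simp only [hκ]
        rw [← min_add_add_right]
        exact min_le_min (by linarith) this
      rw [← he, abs_le]
      constructor <;> nlinarith
    · have he' : j y = j x + 1 := by omega
      have hy := (hj y).1
      rw [he'] at hy
      have k1 : κ y ≤ d := (min_le_right _ _).trans (by
        rw [he']
        exact div_le_div_of_nonneg_right (dl_mono hγ (hj x).2.le le_rfl) hr.le)
      have k2 : 1 ≤ κ x + d := by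
        have : 1 ≤ dl γ (b (j x)) x / r + d := by
          rw [hd, ← add_div, le_div_iff₀ hr]
          linarith [dl_triangle (γ := γ) (hj x).1 (hj x).2.le, (hb (j x)).1,
            dl_mono (γ := γ) hγ (le_refl x) hy]
        simp only [hκ]
        rw [← min_add_add_right]
        exact le_min (by linarith) this
      rw [he'] at a6 a7 ⊢
      rw [abs_le]
      constructor <;> nlinarith

end

end Pool.Agent.P.MP_7f9008_an
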