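import Pool.Agent.P.MP_7f9008_an.MassA

/-! Finite mass transport. -/

open Finset Real

noncomputable section
namespace Pool.Agent.P.MP_7f9008_an

open Classical in
/-- One step of transport at scale `r`. -/
def TStep {ι : Type} (F : Finset ι) (ρ : ι → ι → ℝ) (r : ℝ) : Prop :=
  ∀ base extra : ι → ℝ, (∀ i, 0 ≤ base i) → (∀ i, 0 ≤ extra i ∧ extra i ≤ 7 * base i) →
    ∃ T : ι → ℝ, (∀ i, 0 ≤ T i) ∧ (∀ i i', T i - T i' ≤ 14 * ρ i i' / r) ∧
      ∀ S ⊆ F, ∀ S' ⊆ F, (∀ i ∈ S, ∀ i' ∈ F, ρ i i' ≤ 4 * r → i' ∈ S') →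
        ∑ i ∈ S, base i * T i ≤ ∑ i ∈ S', extra i ∧ ∑ i ∈ S, extra i ≤ ∑ i ∈ S', base i * T i

theorem transport {ι L : Type} [Fintype L] (F : Finset ι) (η : L → ι → ℝ)
    (h0 : ∀ l i, 0 ≤ η l i) (h1 : ∀ i, ∑ l, η l i = 1) {base extra : ι → ℝ}
    (hb : ∀ i, 0 ≤ base i) (he : ∀ i, 0 ≤ extra i ∧ extra i ≤ 7 * base i) :
    ∃ t : L → ℝ, (∀ l, 0 ≤ t l ∧ t l ≤ 7) ∧ ∀ S ⊆ F, ∀ S' ⊆ F,
      (∀ l, ∀ i ∈ S, ∀ i' ∈ F, η l i ≠ 0 → η l i' ≠ 0 → i' ∈ S') →
      ∑ i ∈ S, base i * ∑ l, η l i * t l ≤ ∑ i ∈ S', extra i ∧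
        ∑ i ∈ S, extra i ≤ ∑ i ∈ S', base i * ∑ l, η l i * t l := by
  set E : L → ℝ := fun l => ∑ i ∈ F, η l i * extra i with hE
  set B : L → ℝ := fun l => ∑ i ∈ F, η l i * base i with hB
  have pe : ∀ l i, 0 ≤ η l i * extra i := fun l i => mul_nonneg (h0 l i) (he i).1
  have pb : ∀ l i, 0 ≤ η l i * base i := fun l i => mul_nonneg (h0 l i) (hb i)
  have E0 : ∀ l, 0 ≤ E l := fun l => sum_nonneg fun i _ => pe l i
  have B0 : ∀ l, 0 ≤ B l := fun l => sum_nonneg fun i _ => pb l i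
  have EB : ∀ l, E l ≤ 7 * B l := fun l => by
    simp only [hE, hB, mul_sum]
    exact sum_le_sum fun i _ => by nlinarith [h0 l i, (he i).2]
  have t0 : ∀ l, 0 ≤ E l / B l := fun l => div_nonneg (E0 l) (B0 l)
  have tB : ∀ l, E l / B l * B l = E l := fun l => by
    rcases (B0 l).eq_or_lt with h | h
    · have := EB l
      rw [← h] at this ⊢
      linarith [E0 l]
    · exact div_mul_cancel₀ _ h.ne'
  refine ⟨fun l => E l / B l, fun l => ⟨t0 l, div_le_of_le_mul₀ (B0 l) (by norm_num) (EB l)⟩,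
    fun S hS S' hS' hcl => ?_⟩
  have e1 : ∀ S : Finset ι, ∑ i ∈ S, base i * ∑ l, η l i * (E l / B l) =
      ∑ l, E l / B l * ∑ i ∈ S, η l i * base i := fun S => by
    simp only [mul_sum]
    rw [sum_comm]
    exact sum_congr rfl fun l _ => sum_congr rfl fun i _ => by ring
  have e2 : ∀ S : Finset ι, ∑ i ∈ S, extra i = ∑ l, ∑ i ∈ S, η l i * extra i := fun S => by
    rw [sum_comm]
    exact sum_congr rfl fun i _ => by rw [← sum_mul, h1, one_mul]
  have full : ∀ l (w : ι → ℝ), (∃ i ∈ S, η l i ≠ 0) →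
      ∑ i ∈ S', η l i * w i = ∑ i ∈ F, η l i * w i := by
    rintro l w ⟨i, hi, hl⟩
    refine sum_subset hS' fun i' h h' => ?_
    by_contra hc
    exact h' (hcl l i hi i' h hl (left_ne_zero_of_mul hc))
  have none : ∀ l (w : ι → ℝ), (¬ ∃ i ∈ S, η l i ≠ 0) → ∑ i ∈ S, η l i * w i = 0 := by
    intro l w h
    push Not at h
    exact sum_eq_zero fun i hi => by rw [h i hi, zero_mul]
  rw [e1, e1, e2 S, e2 S']
  refine ⟨sum_le_sum fun l _ => ?_, sum_le_sum fun l _ => ?_⟩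
  · by_cases h : ∃ i ∈ S, η l i ≠ 0
    · rw [full l _ h]
      refine (mul_le_mul_of_nonneg_left ?_ (t0 l)).trans_eq (tB l)
      exact sum_le_sum_of_subset_of_nonneg hS fun i _ _ => pb l i
    · rw [none l _ h, mul_zero]
      exact sum_nonneg fun i _ => pe l i
  · by_cases h : ∃ i ∈ S, η l i ≠ 0
    · rw [full l _ h]
      refine le_trans ?_ (tB l).ge
      exact sum_le_sum_of_subset_of_nonneg hS fun i _ _ => pe l i
    · rw [none l _ h]
      exact mul_nonneg (t0 l) (sum_nonneg fun i _ => pb l i)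

theorem tstep_rp {γ : ℝ → ℂ} (hγ : Continuous γ) (hp : ∀ x, γ (x + 2 * π) = γ x) {r : ℝ}
    (hr : 0 < r) (h : r ≤ dl γ 0 (2 * π)) {ι : Type} (F : Finset ι) (p : ι → ℝ) :
    TStep F (fun i i' => rp γ (p i) (p i')) r := by
  intro base extra hb he
  obtain ⟨N, j, κ, hN, jper, κper, hκ, hov, hlip⟩ := exists_tent hγ hp hr h
  have : NeZero N := ⟨hN.ne'⟩
  set η : ZMod N → ι → ℝ := fun l i => (if ((j (p i) : ℤ) : ZMod N) = l then 1 - κ (p i) else 0) +
    if ((j (p i) + 1 : ℤ) : ZMod N) = l then κ (p i) else 0 with hη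
  have hsum : ∀ (t : ZMod N → ℝ) i, ∑ l, η l i * t l =
      (1 - κ (p i)) * t (j (p i) : ℤ) + κ (p i) * t (j (p i) + 1 : ℤ) := by
    intro t i
    simp only [hη, add_mul, ite_mul, zero_mul, sum_add_distrib, sum_ite_eq, mem_univ, if_true]
  obtain ⟨t, ht, H⟩ := transport F η
    (fun l i => add_nonneg (by split_ifs <;> linarith [(hκ (p i)).2])
      (by split_ifs <;> linarith [(hκ (p i)).1]))
    (fun i => by simpa using hsum (fun _ => 1) i) hb he
  refine ⟨fun i => ∑ l, η l i * t l, fun i => ?_, fun i i' => ?_, fun S hS S' hS' hcl => ?_⟩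
  · beta_reduce
    rw [hsum]
    have := hκ (p i)
    exact add_nonneg (mul_nonneg (by linarith) (ht _).1) (mul_nonneg this.1 (ht _).1)
  · have : (∑ l, η l i * t l - ∑ l, η l i' * t l) * r / 14 ≤ rp γ (p i) (p i') := by
      refine le_ciInf fun k => ?_
      have := (le_abs_self _).trans
        (hlip (fun l => t (l : ZMod N)) (fun l => ht _) (p i) (p i' + k * (2 * π)))
      rw [jper, κper, le_div_iff₀ hr] at this
      rw [hsum, hsum]
      push_cast at this ⊢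
      rw [ZMod.natCast_self, mul_zero, add_zero] at this
      linarith
    rw [le_div_iff₀ hr]
    linarith
  · refine H S hS S' hS' fun l i hi i' hi' h1 h2 => hcl i hi i' hi' ?_
    have aux : ∀ i, η l i ≠ 0 → ∃ e : ℤ, 0 ≤ e ∧ e ≤ 1 ∧ ((j (p i) + e : ℤ) : ZMod N) = l := by
      intro i hi
      by_cases a : ((j (p i) : ℤ) : ZMod N) = l
      · exact ⟨0, le_rfl, zero_le_one, by rwa [add_zero]⟩
      · by_cases a' : ((j (p i) + 1 : ℤ) : ZMod N) = l
        · exact ⟨1, zero_le_one, le_rfl, a'⟩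
        · exact absurd (by simp only [hη, if_neg a, if_neg a', add_zero]) hi
    obtain ⟨e, e0, e1, he⟩ := aux i h1
    obtain ⟨e', e0', e1', he'⟩ := aux i' h2
    obtain ⟨k, hk⟩ := (ZMod.intCast_eq_intCast_iff_dvd_sub _ _ _).1 (he'.trans he.symm)
    refine (rp_le k).trans (hov _ _ ?_ ?_) <;> rw [jper, mul_comm, ← hk] <;> omega

open Classical in
theorem finite_mass {ι : Type} (F : Finset ι) {ρ : ι → ι → ℝ} (ρ0 : ∀ i, ρ i i = 0)
    (ρc : ∀ i j, ρ i j = ρ j i) (ρt : ∀ i j k, ρ i k ≤ ρ i j + ρ j k)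
    {r₀ : ℝ} (hr : 0 < r₀) (hstep : ∀ n : ℕ, TStep F ρ (r₀ / 2 ^ n)) {s : ι → ℝ}
    (hs : ∀ i, 0 < s i) {c : ℝ}
    (hpack : ∀ i, ∀ r > 0, ∑ a ∈ F with ρ i a ≤ 9 * r, s a ^ 2 * (r / (r + s a)) ^ 3 ≤ c * r ^ 2) :
    ∃ m : ι → ℝ, (∀ i, 0 < m i) ∧ ∀ i ∈ F, ∀ R, s i ≤ R → R ≤ r₀ →
      (∑ a ∈ F with ρ i a ≤ R, m a) * s i ^ 2 ≤
        (exp 126 * c * 4 * 17 ^ 3) * R ^ 2 * ∑ a ∈ F with ρ i a < s i, m a := by
  set r : ℕ → ℝ := fun n => r₀ / 2 ^ n with hrdef
  have r0 : ∀ n, 0 < r n := fun n => by positivity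
  have rs : ∀ n, r n = 2 * r (n + 1) := fun n => by simp only [hrdef, pow_succ]; field_simp
  have rsmall : ∀ x > 0, ∃ n, r n < x := fun x hx => by
    obtain ⟨n, hn⟩ := pow_unbounded_of_one_lt (r₀ / x) (one_lt_two (α := ℝ))
    refine ⟨n, ?_⟩
    rw [div_lt_iff₀ hx] at hn
    simp only [hrdef]
    rw [div_lt_iff₀ (by positivity)]
    linarith
  have ranti : Antitone r := antitone_nat_of_succ_le fun n => by linarith [rs n, r0 (n + 1)]
  set a : ℕ → ι → ℝ := fun n i => s i ^ 2 * (r n / (r n + s i)) ^ 3 with ha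
  have a0 : ∀ n i, 0 < a n i := fun n i => by have := r0 n; have := hs i; positivity
  have a1 : ∀ n i, a (n + 1) i ≤ a n i ∧ a n i ≤ 8 * a (n + 1) i := fun n i => by
    have h1 := r0 (n + 1)
    have h2 := hs i
    have q0 : 0 ≤ r (n + 1) / (r (n + 1) + s i) := by positivity
    have q1 : r (n + 1) / (r (n + 1) + s i) ≤ r n / (r n + s i) := by
      rw [rs n, div_le_div_iff₀ (by positivity) (by positivity)]
      nlinarith
    have q2 : r n / (r n + s i) ≤ 2 * (r (n + 1) / (r (n + 1) + s i)) := by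
      rw [rs n, ← mul_div_assoc 2 (r (n + 1)) (r (n + 1) + s i),
        div_le_div_iff₀ (by positivity) (by positivity)]
      nlinarith
    refine ⟨mul_le_mul_of_nonneg_left (pow_le_pow_left₀ q0 q1 3) (by positivity), ?_⟩
    have := mul_le_mul_of_nonneg_left (pow_le_pow_left₀ (q0.trans q1) q2 3) (sq_nonneg (s i))
    simp only [ha]
    linarith
  have hT : ∀ n (φ : ι → ℝ), ∃ T : ι → ℝ, (∀ i, 0 ≤ φ i) → (∀ i, 0 ≤ T i) ∧
      (∀ i i', T i - T i' ≤ 14 * ρ i i' / r n) ∧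
      ∀ S ⊆ F, ∀ S' ⊆ F, (∀ i ∈ S, ∀ i' ∈ F, ρ i i' ≤ 4 * r n → i' ∈ S') →
        ∑ i ∈ S, φ i * (1 + T i) * a (n + 1) i ≤ ∑ i ∈ S', φ i * a n i ∧
          ∑ i ∈ S, φ i * a n i ≤ ∑ i ∈ S', φ i * (1 + T i) * a (n + 1) i := by
    intro n φ
    by_cases hφ : ∀ i, 0 ≤ φ i
    swap
    · exact ⟨0, fun h => absurd h hφ⟩
    have b0 : ∀ i, 0 ≤ φ i * a (n + 1) i := fun i => mul_nonneg (hφ i) (a0 _ _).le
    obtain ⟨T, T0, T1, T2⟩ := hstep n (fun i => φ i * a (n + 1) i)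
      (fun i => φ i * (a n i - a (n + 1) i)) b0
      (fun i => ⟨mul_nonneg (hφ i) (by linarith [(a1 n i).1]), by nlinarith [(a1 n i).2, hφ i]⟩)
    refine ⟨T, fun _ => ⟨T0, T1, fun S hS S' hS' hcl => ?_⟩⟩
    obtain ⟨u1, u2⟩ := T2 S hS S' hS' hcl
    have u3 : ∑ i ∈ S, φ i * a (n + 1) i ≤ ∑ i ∈ S', φ i * a (n + 1) i :=
      sum_le_sum_of_subset_of_nonneg
        (fun i hi => hcl i hi i (hS hi) (by rw [ρ0]; linarith [r0 n])) fun i _ _ => b0 i
    have e1 : ∀ S : Finset ι, ∑ i ∈ S, φ i * (1 + T i) * a (n + 1) i =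
        ∑ i ∈ S, φ i * a (n + 1) i + ∑ i ∈ S, φ i * a (n + 1) i * T i := fun S => by
      rw [← sum_add_distrib]
      exact sum_congr rfl fun i _ => by ring
    have e2 : ∀ S : Finset ι, ∑ i ∈ S, φ i * a n i =
        ∑ i ∈ S, φ i * a (n + 1) i + ∑ i ∈ S, φ i * (a n i - a (n + 1) i) := fun S => by
      rw [← sum_add_distrib]
      exact sum_congr rfl fun i _ => by ring
    rw [e1, e1, e2, e2]
    constructor <;> linarith
  choose T hT using hT
  let φ : ℕ → ι → ℝ := fun n => Nat.rec (fun _ => 1) (fun n φ i => φ i * (1 + T n φ i)) n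
  have φs : ∀ n i, φ (n + 1) i = φ n i * (1 + T n (φ n) i) := fun _ _ => rfl
  have φ0 : ∀ n i, 0 < φ n i := by
    intro n
    induction n with
    | zero => exact fun _ => one_pos
    | succ n ih =>
      intro i
      have := (hT n (φ n) fun i => (ih i).le).1 i
      rw [φs]
      exact mul_pos (ih i) (by linarith)
  have hT' := fun n => hT n (φ n) fun i => (φ0 n i).le
  have φm : ∀ i, Monotone fun n => φ n i := fun i => monotone_nat_of_le_succ fun n => by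
    rw [φs]
    nlinarith [φ0 n i, (hT' n).1 i]
  have ρn : ∀ i j, 0 ≤ ρ i j := fun i j => by linarith [ρt i j i, ρ0 i, ρc i j]
  have φl : ∀ n i i', φ n i ≤ exp (14 * ρ i i' / r n) * φ n i' := by
    intro n i i'
    induction n with
    | zero =>
      have := one_le_exp (div_nonneg (mul_nonneg (by norm_num : (0 : ℝ) ≤ 14) (ρn i i')) (r0 0).le)
      show (1 : ℝ) ≤ _ * 1
      linarith
    | succ n ih =>
      have e : 14 * ρ i i' / r (n + 1) = 14 * ρ i i' / r n + 14 * ρ i i' / r n := by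
        have := r0 (n + 1)
        rw [rs n]
        field_simp
        ring
      have x0 : 0 ≤ 14 * ρ i i' / r n := div_nonneg (mul_nonneg (by norm_num) (ρn i i')) (r0 n).le
      have x1 : 1 + T n (φ n) i ≤ exp (14 * ρ i i' / r n) * (1 + T n (φ n) i') := by
        nlinarith [add_one_le_exp (14 * ρ i i' / r n), (hT' n).1 i', (hT' n).2.1 i i']
      rw [φs, φs, e, exp_add]
      refine (mul_le_mul ih x1 (by linarith [(hT' n).1 i])
        (mul_nonneg (exp_pos _).le (φ0 n i').le)).trans_eq (by ring)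
  set μ : ℕ → ι → ℝ → ℝ := fun n i t => ∑ x ∈ F with ρ i x ≤ t, φ n x * a n x with hμ
  have one : ∀ n i t, μ (n + 1) i t ≤ μ n i (t + 4 * r n) ∧ μ n i t ≤ μ (n + 1) i (t + 4 * r n) :=
    fun n i t => (hT' n).2.2 _ (filter_subset _ _) _ (filter_subset _ _) fun x hx y hy h =>
      mem_filter.2 ⟨hy, by linarith [ρt i x y, (mem_filter.1 hx).2]⟩
  have many : ∀ k d i t, μ (k + d) i t ≤ μ k i (t + 8 * r k - 8 * r (k + d)) ∧
      μ k i t ≤ μ (k + d) i (t + 8 * r k - 8 * r (k + d)) := by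
    intro k d i
    induction d with
    | zero => intro t; simp
    | succ d ih =>
      intro t
      have e1 : t + 8 * r k - 8 * r (k + (d + 1)) = t + 4 * r (k + d) + 8 * r k - 8 * r (k + d) := by
        rw [rs (k + d), add_assoc k]
        ring
      have e2 : t + 8 * r k - 8 * r (k + (d + 1)) = t + 8 * r k - 8 * r (k + d) + 4 * r (k + d) := by
        rw [e1]
        ring
      exact ⟨(one (k + d) i t).1.trans (e1 ▸ (ih _).1), (ih t).2.trans (e2 ▸ (one (k + d) i _).2)⟩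
  have μm : ∀ n i t t', t ≤ t' → μ n i t ≤ μ n i t' := fun n i t t' h =>
    sum_le_sum_of_subset_of_nonneg
      (fun x hx => mem_filter.2 ⟨(mem_filter.1 hx).1, (mem_filter.1 hx).2.trans h⟩)
      fun x _ _ => (mul_pos (φ0 n x) (a0 n x)).le
  have ex2 : ∀ i, ∃ k, r k < s i / 8 := fun i => rsmall _ (by linarith [hs i])
  set n := F.sup fun i => Nat.find (ex2 i) with hn
  refine ⟨fun x => φ n x * a n x, fun x => mul_pos (φ0 n x) (a0 n x), fun i hi R hR hR0 => ?_⟩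
  have si := hs i
  have ex1 : ∃ k, r (k + 1) < R := by
    obtain ⟨k, hk⟩ := rsmall R (by linarith)
    exact ⟨k, (ranti (Nat.le_succ k)).trans_lt hk⟩
  have rz : r 0 = r₀ := by simp [hrdef]
  set k₁ := Nat.find ex1 with hk₁
  set k₂ := Nat.find (ex2 i) with hk₂
  have p1 : r (k₁ + 1) < R := Nat.find_spec ex1
  have p2 : r k₂ < s i / 8 := Nat.find_spec (ex2 i)
  have p3 : R ≤ r k₁ := by
    rcases h : k₁ with _ | k
    · rwa [rz]
    · exact not_lt.1 (Nat.find_min ex1 (by omega))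
  have p4 : s i ≤ 16 * r k₂ := by
    rcases h : k₂ with _ | k
    · rw [rz]
      linarith
    · have := not_lt.1 (Nat.find_min (ex2 i) (m := k) (by omega))
      linarith [rs k]
  have p5 : k₁ ≤ k₂ := Nat.find_min' ex1 (by linarith [rs k₂, r0 (k₂ + 1)])
  have p6 : k₂ ≤ n := le_sup (f := fun i => Nat.find (ex2 i)) hi
  obtain ⟨d₁, hd₁⟩ := Nat.exists_eq_add_of_le (p5.trans p6)
  obtain ⟨d₂, hd₂⟩ := Nat.exists_eq_add_of_le p6
  have up : μ n i R ≤ exp 126 * φ k₁ i * (c * r k₁ ^ 2) := by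
    have u1 := (many k₁ d₁ i R).1
    rw [← hd₁] at u1
    refine (u1.trans (μm _ _ _ (9 * r k₁) (by linarith [r0 n]))).trans ?_
    refine le_trans ?_ (mul_le_mul_of_nonneg_left (hpack i _ (r0 k₁))
      (mul_nonneg (exp_pos _).le (φ0 k₁ i).le))
    rw [mul_sum]
    refine sum_le_sum fun x hx => mul_le_mul_of_nonneg_right ((φl k₁ x i).trans ?_) (a0 _ _).le
    refine mul_le_mul_of_nonneg_right (exp_le_exp.2 ?_) (φ0 _ _).le
    rw [div_le_iff₀ (r0 _), ρc]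
    linarith [(mem_filter.1 hx).2]
  have lo : φ k₁ i * s i ^ 2 ≤ 17 ^ 3 * ∑ x ∈ F with ρ i x < s i, φ n x * a n x := by
    have u1 := (many k₂ d₂ i 0).2
    rw [← hd₂] at u1
    have u2 : φ k₂ i * a k₂ i ≤ μ k₂ i 0 :=
      single_le_sum (f := fun x => φ k₂ x * a k₂ x) (fun x _ => (mul_pos (φ0 _ x) (a0 _ x)).le)
        (mem_filter.2 ⟨hi, (ρ0 i).le⟩)
    have u3 : μ n i (0 + 8 * r k₂ - 8 * r n) ≤ ∑ x ∈ F with ρ i x < s i, φ n x * a n x :=
      sum_le_sum_of_subset_of_nonneg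
        (fun x hx => mem_filter.2 ⟨(mem_filter.1 hx).1, by linarith [(mem_filter.1 hx).2, r0 n]⟩)
        fun x _ _ => (mul_pos (φ0 n x) (a0 n x)).le
    have u4 : 1 / 17 ≤ r k₂ / (r k₂ + s i) := by
      rw [div_le_div_iff₀ (by norm_num) (by linarith [r0 k₂])]
      linarith
    have u5 : s i ^ 2 ≤ 17 ^ 3 * a k₂ i := by
      have := mul_le_mul_of_nonneg_left (pow_le_pow_left₀ (by norm_num) u4 3) (sq_nonneg (s i))
      simp only [ha]
      linarith
    have u6 := mul_le_mul (φm i p5) u5 (sq_nonneg _) (φ0 _ _).le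
    linarith
  have c0 : 0 ≤ c := by
    have := (sum_nonneg fun x _ => (a0 0 x).le).trans (hpack i _ (r0 0))
    exact nonneg_of_mul_nonneg_left this (by have := r0 0; positivity)
  have p7 : r k₁ ^ 2 ≤ 4 * R ^ 2 := by nlinarith [rs k₁, r0 (k₁ + 1)]
  calc μ n i R * s i ^ 2 ≤ exp 126 * φ k₁ i * (c * (4 * R ^ 2)) * s i ^ 2 :=
        mul_le_mul_of_nonneg_right (up.trans (mul_le_mul_of_nonneg_left
          (mul_le_mul_of_nonneg_left p7 c0) (mul_nonneg (exp_pos _).le (φ0 _ _).le))) (sq_nonneg _)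
    _ = exp 126 * c * 4 * R ^ 2 * (φ k₁ i * s i ^ 2) := by ring
    _ ≤ exp 126 * c * 4 * R ^ 2 * (17 ^ 3 * ∑ x ∈ F with ρ i x < s i, φ n x * a n x) :=
        mul_le_mul_of_nonneg_left lo (by positivity)
    _ = _ := by ring

end Pool.Agent.P.MP_7f9008_an
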