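import Pool.Agent.P.MP_7f9008_an.GL

/-! Sobolev homeomorphisms: area inequality, conformal change of variables. -/

open MeasureTheory Set Metric Filter Topology Real Pool.Agent.Lib.Sob Complex
open scoped ENNReal

noncomputable section
namespace Pool.Agent.P.MP_7f9008_an

/-- What is used of a Sobolev homeomorphism. -/
structure QC (U : Set ℂ) (P : ℂ → ℂ) : Prop extends Hom U P where
  diff : ∀ᵐ z, z ∈ U → DifferentiableAt ℝ P z
  appr : Appr U P (fderiv ℝ P)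

variable {U V : Set ℂ} {P : ℂ → ℂ} {D : ℂ → ℂ →L[ℝ] ℂ}

theorem QC.of_wd (h : Hom U P) (hw : WD 1 U P D) :
    QC U P ∧ ∀ᵐ z, z ∈ U → fderiv ℝ P z = D z := by
  have hm := hw.2.1.aestronglyMeasurable le_rfl h.isOpen
  have e : ∀ᵐ z, z ∈ U → D z = hm.mk D z :=
    (ae_restrict_iff' h.isOpen.measurableSet).1 hm.ae_eq_mk
  have hw' : WD 1 U P (hm.mk D) := hw.congr (Eventually.of_forall fun _ _ => rfl) e
  have ha := Appr.of_wd h.isOpen hw' h.cont
  have hd := h.ae_hasFDerivAt ha hm.stronglyMeasurable_mk.measurable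
    (hw'.2.1.locallyIntegrableOn le_rfl h.isOpen)
  refine ⟨⟨h, hd.mono fun z hz hzU => (hz hzU).differentiableAt,
    ha.congr (hd.mono fun z hz hzU => (hz hzU).fderiv.symm)⟩, ?_⟩
  filter_upwards [hd, e] with z h1 h2 hzU
  rw [(h1 hzU).fderiv, h2 hzU]

theorem QC.of_contDiffOn (h : Hom U P) (hc : ContDiffOn ℝ 1 P U) : QC U P :=
  ⟨h, Eventually.of_forall fun _ hz =>
    (hc.differentiableOn one_ne_zero).differentiableAt (h.isOpen.mem_nhds hz),
    Appr.of_contDiffOn hc⟩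

theorem Hom.mono (h : Hom U P) (hV : IsOpen V) (hVU : V ⊆ U) : Hom V P :=
  ⟨hV, h.cont.mono hVU, h.inj.mono hVU, fun O hO => h.opn O (hO.trans hVU)⟩

theorem QC.mono (h : QC U P) (hV : IsOpen V) (hVU : V ⊆ U) : QC V P :=
  ⟨h.toHom.mono hV hVU, h.diff.mono fun _ hz hzV => hz (hVU hzV), fun K hK hKV => by
    obtain ⟨v, h1, h2, h3⟩ := h.appr K hK (hKV.trans hVU)
    exact ⟨v, fun k => (h1 k).mono hVU, h2, h3⟩⟩

theorem QC.goodV (h : QC U P) : ∀ᵐ x : ℝ, GoodV U P (fun z => ‖fderiv ℝ P z‖ₑ) x :=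
  h.appr.goodV h.isOpen (measurable_fderiv ℝ P)

theorem QC.goodH (h : QC U P) : ∀ᵐ y : ℝ, GoodH U P (fun z => ‖fderiv ℝ P z‖ₑ) y :=
  h.appr.goodH h.isOpen (measurable_fderiv ℝ P)

theorem QC.area (h : QC U P) {E : Set ℂ} (hE : MeasurableSet E) (hEU : E ⊆ U) (ρ : ℂ → ℝ≥0∞) :
    ∫⁻ z in E, ENNReal.ofReal |(fderiv ℝ P z).det| * ρ (P z) ≤ ∫⁻ w in P '' E, ρ w := by
  set s := E ∩ {z | DifferentiableAt ℝ P z}
  have ms : MeasurableSet s := hE.inter (measurableSet_of_differentiableAt ℝ P)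
  have e : E =ᵐ[volume] s := by
    filter_upwards [h.diff] with z hz
    exact propext ⟨fun hzE => ⟨hzE, hz (hEU hzE)⟩, fun hzs => hzs.1⟩
  rw [setLIntegral_congr e, ← lintegral_image_eq_lintegral_abs_det_fderiv_mul volume ms
    (fun z hz => hz.2.hasFDerivAt.hasFDerivWithinAt) (h.inj.mono (inter_subset_left.trans hEU))]
  exact lintegral_mono_set (image_mono inter_subset_left)

theorem Hom.comp {e : ℂ → ℂ} (h : Hom U P) (he : Hom V e) (hm : MapsTo e V U) :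
    Hom V (P ∘ e) :=
  ⟨he.isOpen, h.cont.comp he.cont hm, h.inj.comp he.inj hm, fun O hO hO' => by
    rw [image_comp]; exact h.opn _ (hm.mono_left hO).image_subset (he.opn O hO hO')⟩

/-- A holomorphic coordinate. -/
structure Conf (V : Set ℂ) (e : ℂ → ℂ) : Prop where
  isOpen : IsOpen V
  hol : DifferentiableOn ℂ e V
  inj : InjOn e V
  ne : ∀ z ∈ V, deriv e z ≠ 0

section
variable {e : ℂ → ℂ}

theorem Conf.hasFDerivAt (he : Conf V e) {z : ℂ} (hz : z ∈ V) :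
    HasFDerivAt e (deriv e z • (1 : ℂ →L[ℝ] ℂ)) z :=
  (he.hol.differentiableAt (he.isOpen.mem_nhds hz)).hasDerivAt.complexToReal_fderiv

theorem Conf.contDiffOn (he : Conf V e) : ContDiffOn ℝ 1 e V :=
  (he.hol.contDiffOn he.isOpen).restrict_scalars ℝ

theorem Conf.hom (he : Conf V e) : Hom V e := by
  refine ⟨he.isOpen, he.hol.continuousOn, he.inj, fun O hO hO' => isOpen_iff_mem_nhds.2 ?_⟩
  rintro _ ⟨z, hz, rfl⟩
  have h1 : HasStrictDerivAt e (deriv e z) z :=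
    ((he.hol.contDiffOn he.isOpen (n := 1)).contDiffAt
      (he.isOpen.mem_nhds (hO hz))).hasStrictDerivAt one_ne_zero
  rw [← h1.map_nhds_eq (he.ne z (hO hz))]
  exact image_mem_map (hO'.mem_nhds hz)

theorem Conf.qc (he : Conf V e) : QC V e := QC.of_contDiffOn he.hom he.contDiffOn

theorem Conf.norm_sq (he : Conf V e) {z : ℂ} (hz : z ∈ V) :
    ‖fderiv ℝ e z‖ ^ 2 = (fderiv ℝ e z).det := by
  rw [(he.hasFDerivAt hz).fderiv, det_smul_one, norm_smul]; simp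

theorem Conf.lintegral (he : Conf V e) {s : Set ℂ} (hs : MeasurableSet s) (hsV : s ⊆ V)
    (g : ℂ → ℝ≥0∞) :
    ∫⁻ w in e '' s, g w = ∫⁻ z in s, ENNReal.ofReal (‖deriv e z‖ ^ 2) * g (e z) := by
  rw [lintegral_image_eq_lintegral_abs_det_fderiv_mul volume hs
    (fun z hz => (he.hasFDerivAt (hsV hz)).hasFDerivWithinAt) (he.inj.mono hsV)]
  simp only [det_smul_one, abs_pow, abs_norm]

theorem Conf.ae_comp (he : Conf V e) {p : ℂ → Prop} (h : ∀ᵐ w, p w) :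
    ∀ᵐ z, z ∈ V → p (e z) := by
  classical
  obtain ⟨N, hN, mN, N0⟩ := exists_measurable_superset_of_null (ae_iff.1 h)
  have ms : MeasurableSet (V ∩ e ⁻¹' N) :=
    (he.hol.continuousOn.measurable_piecewise (g := fun _ => 0) continuousOn_const
      he.isOpen.measurableSet mN).inter he.isOpen.measurableSet |>.congr (by
        ext z; by_cases hz : z ∈ V <;> simp [hz])
  have h1 := he.lintegral ms inter_subset_left fun _ => 1
  rw [setLIntegral_const, measure_mono_null (image_subset_iff.2 inter_subset_right) N0,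
    mul_zero, eq_comm, setLIntegral_eq_zero_iff ms (by
      simpa using (measurable_deriv e).enorm.pow_const 2)] at h1
  filter_upwards [h1] with z hz hzV
  by_contra hp
  have := hz ⟨hzV, hN hp⟩
  simp [he.ne z hzV] at this

theorem Conf.lintegral_le (he : Conf V e) {K : Set ℂ} (hK : IsCompact K) (hKV : K ⊆ V) :
    ∃ C : ℝ, ∀ g : ℂ → ℝ≥0∞, (∫⁻ z in K, ‖deriv e z‖ₑ * g (e z) ≤
      ENNReal.ofReal C * ∫⁻ w in e '' K, g w) ∧
      ∫⁻ z in K, g (e z) ≤ ENNReal.ofReal C * ∫⁻ w in e '' K, g w := by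
  have hc : ContinuousOn (deriv e) K := (he.hol.deriv he.isOpen).continuousOn.mono hKV
  have hc' : ContinuousOn (fun z => ‖deriv e z‖⁻¹ + (‖deriv e z‖ ^ 2)⁻¹) K :=
    (hc.norm.inv₀ fun z hz => norm_ne_zero_iff.2 (he.ne z (hKV hz))).add
      ((hc.norm.pow 2).inv₀ fun z hz => pow_ne_zero _ (norm_ne_zero_iff.2 (he.ne z (hKV hz))))
  obtain ⟨C, hC⟩ := hK.exists_bound_of_continuousOn hc'
  refine ⟨C, fun g => ?_⟩
  rw [he.lintegral hK.measurableSet hKV, ← lintegral_const_mul' _ _ ENNReal.ofReal_ne_top]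
  have key : ∀ z ∈ K, ‖deriv e z‖ ≤ C * ‖deriv e z‖ ^ 2 ∧ 1 ≤ C * ‖deriv e z‖ ^ 2 ∧ 0 ≤ C := by
    intro z hz
    have h0 : 0 < ‖deriv e z‖ := norm_pos_iff.2 (he.ne z (hKV hz))
    have h1 := (le_abs_self _).trans (hC z hz)
    have h2 : ‖deriv e z‖⁻¹ ≤ C := le_trans (le_add_of_nonneg_right (by positivity)) h1
    have h3 : (‖deriv e z‖ ^ 2)⁻¹ ≤ C := le_trans (le_add_of_nonneg_left (by positivity)) h1
    rw [inv_le_iff_one_le_mul₀ h0] at h2
    rw [inv_le_iff_one_le_mul₀ (by positivity)] at h3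
    exact ⟨by nlinarith, h3, (norm_nonneg _).trans (hC z hz)⟩
  constructor <;> refine setLIntegral_mono' hK.measurableSet fun z hz => ?_
  · rw [← mul_assoc, ← ENNReal.ofReal_mul (key z hz).2.2, ← ofReal_norm]
    gcongr; exact (key z hz).1
  · rw [← mul_assoc, ← ENNReal.ofReal_mul (key z hz).2.2]
    exact le_mul_of_one_le_left' (ENNReal.one_le_ofReal.2 (key z hz).2.1)

theorem QC.comp (h : QC U P) (he : Conf V e) (hm : MapsTo e V U) :
    QC V (P ∘ e) ∧ ∀ᵐ z, z ∈ V →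
      fderiv ℝ (P ∘ e) z = (fderiv ℝ P (e z)).comp (deriv e z • (1 : ℂ →L[ℝ] ℂ)) := by
  have hd : ∀ᵐ z, z ∈ V → HasFDerivAt (P ∘ e)
      ((fderiv ℝ P (e z)).comp (deriv e z • (1 : ℂ →L[ℝ] ℂ))) z :=
    (he.ae_comp h.diff).mono fun z hz hzV =>
      (hz hzV (hm hzV)).hasFDerivAt.comp z (he.hasFDerivAt hzV)
  refine ⟨⟨h.toHom.comp he.hom hm, hd.mono fun z hz hzV => (hz hzV).differentiableAt,
    Appr.congr ?_ (hd.mono fun z hz hzV => (hz hzV).fderiv.symm)⟩,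
    hd.mono fun z hz hzV => (hz hzV).fderiv⟩
  intro K hK hKV
  obtain ⟨v, h1, h2, h3⟩ := h.appr (e '' K) (hK.image_of_continuousOn
    (he.hol.continuousOn.mono hKV)) (hm.mono_left hKV).image_subset
  obtain ⟨C, hC⟩ := he.lintegral_le hK hKV
  refine ⟨fun k => v k ∘ e, fun k => (h1 k).comp he.contDiffOn hm,
    fun z hz => h2 _ (mem_image_of_mem _ hz), ?_⟩
  have h4 := ENNReal.Tendsto.const_mul (a := ENNReal.ofReal C) h3 (Or.inr ENNReal.ofReal_ne_top)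
  rw [mul_zero] at h4
  refine tendsto_of_tendsto_of_tendsto_of_le_of_le tendsto_const_nhds h4 (fun _ => zero_le)
    fun k => le_trans (le_of_eq ?_) (hC _).1
  refine setLIntegral_congr_fun hK.measurableSet fun z hz => ?_
  have hv : DifferentiableAt ℝ (v k) (e z) :=
    ((h1 k).differentiableOn one_ne_zero).differentiableAt (h.isOpen.mem_nhds (hm (hKV hz)))
  simp only [(hv.hasFDerivAt.comp z (he.hasFDerivAt (hKV hz))).fderiv]
  rw [← ContinuousLinearMap.sub_comp, ← ofReal_norm, norm_comp_smul_one, mul_comm,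
    ENNReal.ofReal_mul (norm_nonneg _), ofReal_norm, ofReal_norm]

end

theorem lintegral_cs {α : Type*} [MeasurableSpace α] {μ : Measure α} {F A B : α → ℝ≥0∞}
    (hA : AEMeasurable A μ) (hB : AEMeasurable B μ) (h : ∀ᵐ x ∂μ, F x ^ 2 ≤ A x * B x) :
    (∫⁻ x, F x ∂μ) ^ 2 ≤ (∫⁻ x, A x ∂μ) * ∫⁻ x, B x ∂μ := by
  have h1 := ENNReal.lintegral_mul_le_Lp_mul_Lq μ Real.HolderConjugate.two_two
    (hA.pow_const (1 / 2 : ℝ)) (hB.pow_const (1 / 2 : ℝ))
  have e : ∀ a : ℝ≥0∞, (a ^ (1 / 2 : ℝ)) ^ (2 : ℝ) = a := fun a => by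
    rw [← ENNReal.rpow_mul]; norm_num
  have e' : ∀ a : ℝ≥0∞, (a ^ (1 / 2 : ℝ)) ^ 2 = a := fun a => by
    rw [← ENNReal.rpow_two, e]
  simp only [e] at h1
  calc (∫⁻ x, F x ∂μ) ^ 2
      ≤ ((∫⁻ x, A x ∂μ) ^ (1 / 2 : ℝ) * (∫⁻ x, B x ∂μ) ^ (1 / 2 : ℝ)) ^ 2 := by
        gcongr
        refine le_trans (lintegral_mono_ae (h.mono fun x hx => ?_)) h1
        rw [← ENNReal.pow_le_pow_left_iff two_ne_zero, Pi.mul_apply, mul_pow, e', e']
        exact hx
    _ = _ := by rw [mul_pow, e', e']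

/-- The distortion of `P` on `U` is at most `K`. -/
def DistLe (U : Set ℂ) (P : ℂ → ℂ) (K : ℂ → ℝ≥0∞) : Prop :=
  ∀ᵐ z, z ∈ U → ‖fderiv ℝ P z‖ₑ ^ 2 ≤ ENNReal.ofReal |(fderiv ℝ P z).det| * K z

theorem QC.measurable_comp (h : QC U P) {E : Set ℂ} (hE : MeasurableSet E) (hEU : E ⊆ U)
    {ρ : ℂ → ℝ≥0∞} (hρ : Measurable ρ) : AEMeasurable (fun z => ρ (P z)) (volume.restrict E) :=
  hρ.comp_aemeasurable ((h.cont.mono hEU).aemeasurable hE)

theorem measurable_jac (P : ℂ → ℂ) :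
    Measurable fun z => ENNReal.ofReal |(fderiv ℝ P z).det| :=
  (continuous_abs.measurable.comp (ContinuousLinearMap.continuous_det.measurable.comp
    (measurable_fderiv ℝ P))).ennreal_ofReal

/-- The length-area inequality. -/
theorem QC.energy (h : QC U P) {K : ℂ → ℝ≥0∞} (hK : DistLe U P K) {E : Set ℂ}
    (hE : MeasurableSet E) (hEU : E ⊆ U) (mK : AEMeasurable K (volume.restrict E))
    {ρ : ℂ → ℝ≥0∞} (hρ : Measurable ρ) :
    (∫⁻ z in E, ρ (P z) * ‖fderiv ℝ P z‖ₑ) ^ 2 ≤ (∫⁻ w in P '' E, ρ w ^ 2) * ∫⁻ z in E, K z := by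
  refine le_trans (lintegral_cs (A := fun z => ENNReal.ofReal |(fderiv ℝ P z).det| * ρ (P z) ^ 2)
    ((measurable_jac P).aemeasurable.mul ((h.measurable_comp hE hEU hρ).pow_const 2)) mK ?_)
    (mul_le_mul_left (h.area hE hEU fun w => ρ w ^ 2) _)
  filter_upwards [ae_restrict_of_ae hK, ae_restrict_mem hE] with z hz hzE
  rw [mul_pow]
  calc _ ≤ ρ (P z) ^ 2 * (ENNReal.ofReal |(fderiv ℝ P z).det| * K z) := by
        gcongr; exact hz (hEU hzE)
    _ = _ := by ring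

theorem DistLe.comp {e : ℂ → ℂ} {K : ℂ → ℝ≥0∞} (h : QC U P) (hK : DistLe U P K) (he : Conf V e)
    (hm : MapsTo e V U) : DistLe V (P ∘ e) (K ∘ e) := by
  filter_upwards [(h.comp he hm).2, he.ae_comp hK] with z h1 h2 hz
  have h3 := h2 hz (hm hz)
  rw [h1 hz, det_comp_smul_one, ← ofReal_norm, norm_comp_smul_one, abs_mul,
    ENNReal.ofReal_mul (norm_nonneg _), ENNReal.ofReal_mul (abs_nonneg _), mul_pow, ofReal_norm,
    abs_pow, abs_norm, ENNReal.ofReal_pow (norm_nonneg _)]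
  calc _ ≤ (ENNReal.ofReal |(fderiv ℝ P (e z)).det| * K (e z)) *
        ENNReal.ofReal ‖deriv e z‖ ^ 2 := by gcongr
    _ = _ := by simp only [Function.comp_apply]; ring

theorem Conf.distLe {e : ℂ → ℂ} (he : Conf V e) : DistLe V e fun _ => ENNReal.ofReal 1 :=
  Eventually.of_forall fun z hz => by
    rw [← he.norm_sq hz, ← ofReal_norm, abs_pow, abs_norm, ENNReal.ofReal_pow (norm_nonneg _)]
    simp

end Pool.Agent.P.MP_7f9008_an
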