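import Pool.Agent.P.MP_7f9008_an.Basic

/-! Lifting through the exponential, and elementary facts on loops. -/

open Set Metric Filter Topology Real

noncomputable section
namespace Pool.Agent.P.MP_7f9008_an

theorem log_sub_const {X : Type*} [TopologicalSpace X] {s : Set X} (hs : IsPreconnected s)
    {w w' : X → ℂ} (hw : ContinuousOn w s) (hw' : ContinuousOn w' s)
    (h : ∀ t ∈ s, Complex.exp (w t) = Complex.exp (w' t)) {a b : X} (ha : a ∈ s) (hb : b ∈ s) :
    w a - w' a = w b - w' b :=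
  Complex.isCoveringMap_exp.constOn_of_comp (g := fun t => w t - w' t) hs (hw.sub hw')
    (fun x hx y hy => by
      apply Subtype.ext
      simp only [Complex.exp_sub, h x hx, h y hy, div_self (Complex.exp_ne_zero _)]) ha hb

theorem exists_log_homotopy {A : Type*} [TopologicalSpace A] {H : unitInterval × A → ℂ}
    (hH : Continuous H) (h0 : ∀ p, H p ≠ 0) {f : A → ℂ} (hf : Continuous f)
    (hf0 : ∀ a, Complex.exp (f a) = H (0, a)) :
    ∃ L : unitInterval × A → ℂ, Continuous L ∧ (∀ p, Complex.exp (L p) = H p) ∧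
      ∀ a, L (0, a) = f a := by
  let H' : C(unitInterval × A, {z : ℂ // z ≠ 0}) := ⟨fun p => ⟨H p, h0 p⟩, hH.subtype_mk _⟩
  have hh : ∀ a, H' (0, a) = (fun z : ℂ => (⟨_, z.exp_ne_zero⟩ : {z : ℂ // z ≠ 0}))
      ((⟨f, hf⟩ : C(A, ℂ)) a) := fun a => Subtype.ext (hf0 a).symm
  refine ⟨Complex.isCoveringMap_exp.liftHomotopy H' ⟨f, hf⟩ hh, map_continuous _, fun p => ?_,
    fun a => Complex.isCoveringMap_exp.liftHomotopy_zero H' ⟨f, hf⟩ hh a⟩
  exact congrArg Subtype.val
    (congrFun (Complex.isCoveringMap_exp.liftHomotopy_lifts H' ⟨f, hf⟩ hh) p)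

namespace HasLog

variable {S T : Set ℂ} {N M : ℂ → ℂ}

theorem mono (h : HasLog S N) (hT : T ⊆ S) : HasLog T N := by
  obtain ⟨l, h1, h2⟩ := h
  exact ⟨l, h1.mono hT, fun z hz => h2 z (hT hz)⟩

theorem congr (h : HasLog S N) (hM : ∀ z ∈ S, N z = M z) : HasLog S M := by
  obtain ⟨l, h1, h2⟩ := h
  exact ⟨l, h1, fun z hz => (h2 z hz).trans (hM z hz)⟩

theorem mul (h : HasLog S N) (h' : HasLog S M) : HasLog S (fun z => N z * M z) := by
  obtain ⟨l, h1, h2⟩ := h
  obtain ⟨l', h1', h2'⟩ := h'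
  exact ⟨fun z => l z + l' z, h1.add h1', fun z hz => by
    rw [Complex.exp_add, h2 z hz, h2' z hz]⟩

theorem inv (h : HasLog S N) : HasLog S (fun z => (N z)⁻¹) := by
  obtain ⟨l, h1, h2⟩ := h
  exact ⟨fun z => -l z, h1.neg, fun z hz => by rw [Complex.exp_neg, h2 z hz]⟩

theorem div (h : HasLog S N) (h' : HasLog S M) : HasLog S (fun z => N z / M z) :=
  (h.mul h'.inv).congr fun _ _ => (div_eq_mul_inv _ _).symm

theorem ne_zero (h : HasLog S N) {z : ℂ} (hz : z ∈ S) : N z ≠ 0 := by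
  obtain ⟨l, _, h2⟩ := h
  rw [← h2 z hz]
  exact Complex.exp_ne_zero _

theorem comp (h : HasLog S N) {g : ℂ → ℂ} (hg : ContinuousOn g T) (hm : MapsTo g T S) :
    HasLog T (fun z => N (g z)) := by
  obtain ⟨l, h1, h2⟩ := h
  exact ⟨fun z => l (g z), h1.comp hg hm, fun z hz => h2 _ (hm hz)⟩

end HasLog

theorem hasLog_of_slit {S : Set ℂ} {N : ℂ → ℂ} (hN : ContinuousOn N S)
    (h : ∀ z ∈ S, N z ∈ Complex.slitPlane) : HasLog S N :=
  ⟨fun z => Complex.log (N z), hN.clog h, fun z hz =>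
    Complex.exp_log (Complex.slitPlane_ne_zero (h z hz))⟩

theorem hasLog_of_near_one {S : Set ℂ} {N : ℂ → ℂ} (hN : ContinuousOn N S)
    (h : ∀ z ∈ S, ‖N z - 1‖ < 1) : HasLog S N :=
  hasLog_of_slit hN fun z hz => by simpa using Complex.mem_slitPlane_of_norm_lt_one (h z hz)

theorem continuousOn_invFunOn {D : Set ℂ} (hD : IsCompact D) {f : ℂ → ℂ} (hf : ContinuousOn f D)
    (hi : InjOn f D) : ContinuousOn (Function.invFunOn f D) (f '' D) := by
  rw [continuousOn_iff_isClosed]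
  intro t ht
  refine ⟨f '' (D ∩ t), ((hD.inter_right ht).image_of_continuousOn
    (hf.mono inter_subset_left)).isClosed, ?_⟩
  ext w
  constructor
  · rintro ⟨h1, z, hz, rfl⟩
    rw [mem_preimage, hi.leftInvOn_invFunOn hz] at h1
    exact ⟨⟨z, ⟨hz, h1⟩, rfl⟩, z, hz, rfl⟩
  · rintro ⟨⟨z, ⟨hz, h1⟩, rfl⟩, h2⟩
    refine ⟨?_, h2⟩
    rwa [mem_preimage, hi.leftInvOn_invFunOn hz]

theorem hasLog_image {D S : Set ℂ} (hD : IsCompact D) {f : ℂ → ℂ} (hf : ContinuousOn f D)
    (hi : InjOn f D) (hS : S ⊆ D) {N : ℂ → ℂ} (h : HasLog S (fun z => N (f z))) :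
    HasLog (f '' S) N := by
  refine (h.comp ((continuousOn_invFunOn hD hf hi).mono (image_mono hS)) ?_).congr ?_
  · rintro _ ⟨z, hz, rfl⟩
    rwa [hi.leftInvOn_invFunOn (hS hz)]
  · rintro _ ⟨z, hz, rfl⟩
    rw [hi.leftInvOn_invFunOn (hS hz)]

theorem log_int {l : ℝ → ℂ} (h : ∀ x, l (x + 2 * π) = l x + 2 * π * Complex.I) (k : ℤ) (x : ℝ) :
    l (x + k * (2 * π)) = l x + k * (2 * π * Complex.I) := by
  have := per_int (γ := fun x : ℝ => l x - x * Complex.I) (fun x => by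
    simp only [h]; push_cast; ring) k x
  push_cast at this
  linear_combination this

theorem shift_int {τ : ℝ → ℝ} (h : ∀ x, τ (x + 2 * π) = τ x + 2 * π) (k : ℤ) (x : ℝ) :
    τ (x + k * (2 * π)) = τ x + k * (2 * π) := by
  have := per_int (γ := fun x : ℝ => τ x - x) (fun x => by simp only [h]; ring) k x
  linarith

theorem Idx.homotopy {H : unitInterval × ℝ → ℂ} (hH : Continuous H) (h0 : ∀ p, H p ≠ 0)
    (hp : ∀ s x, H (s, x + 2 * π) = H (s, x)) (hi : Idx fun x => H (0, x)) :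
    Idx fun x => H (1, x) := by
  obtain ⟨l, l1, l2, l3⟩ := hi
  obtain ⟨L, L1, L2, L3⟩ := exists_log_homotopy hH h0 l1 l2
  refine ⟨fun x => L (1, x), by fun_prop, fun x => L2 _, fun x => ?_⟩
  have := log_sub_const (s := univ) isPreconnected_univ
    (w := fun s : unitInterval => L (s, x + 2 * π)) (w' := fun s => L (s, x))
    (by fun_prop) (by fun_prop) (fun t _ => by rw [L2, L2, hp]) (mem_univ 1) (mem_univ 0)
  simp only [L3, l3] at this
  linear_combination this

theorem Idx.of_near {c c' : ℝ → ℂ} (h : Idx c) (hc' : Continuous c')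
    (hp : ∀ x, c' (x + 2 * π) = c' x) (hn : ∀ x, ‖c' x - c x‖ < ‖c x‖) : Idx c' := by
  obtain ⟨l, l1, l2, l3⟩ := h
  have hc : c = fun x => Complex.exp (l x) := funext fun x => (l2 x).symm
  have hcc : Continuous c := by rw [hc]; fun_prop
  have hc0 : ∀ x, c x ≠ 0 := fun x => by rw [← l2]; exact Complex.exp_ne_zero _
  have hcp : ∀ x, c (x + 2 * π) = c x := fun x => by
    rw [← l2, ← l2, l3, Complex.exp_add, Complex.exp_two_pi_mul_I, mul_one]
  have hs : ∀ x, c' x / c x ∈ Complex.slitPlane := fun x => by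
    have h1 : ‖(c' x - c x) / c x‖ < 1 := by
      rw [norm_div, div_lt_one (norm_pos_iff.2 (hc0 x))]
      exact hn x
    have h2 := Complex.mem_slitPlane_of_norm_lt_one h1
    have h3 : 1 + (c' x - c x) / c x = c' x / c x := by field_simp [hc0 x]; ring
    rwa [h3] at h2
  refine ⟨fun x => l x + Complex.log (c' x / c x), l1.add ((hc'.div hcc hc0).clog hs),
    fun x => ?_, fun x => ?_⟩
  · rw [Complex.exp_add, l2, Complex.exp_log (Complex.slitPlane_ne_zero (hs x))]
    field_simp [hc0 x]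
  · simp only [l3, hp, hcp]
    ring

theorem idx_exp {p : ℂ} (hp : p ≠ 0) : Idx fun x : ℝ => p * Complex.exp (x * Complex.I) := by
  refine ⟨fun x => Complex.log p + x * Complex.I, by fun_prop, fun x => ?_, fun x => ?_⟩
  · rw [Complex.exp_add, Complex.exp_log hp]
  · push_cast; ring

namespace Loop

variable {γ : ℝ → ℂ}

theorem exists_rep (h : Loop γ) (u x : ℝ) : ∃ y ∈ Ico u (u + 2 * π), γ y = γ x := by
  refine ⟨toIcoMod two_pi_pos u x, toIcoMod_mem_Ico _ _ _, ?_⟩
  conv_rhs => rw [← toIcoMod_add_toIcoDiv_zsmul two_pi_pos u x, zsmul_eq_mul, per_int h.per]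

theorem eq_of_close (h : Loop γ) {x y : ℝ} (h1 : x - y < 2 * π) (h2 : y - x < 2 * π)
    (e : γ x = γ y) : x = y := by
  obtain ⟨k, hk⟩ := h.inj x y e
  have hp := two_pi_pos
  have k1 : (k : ℝ) < 1 := by nlinarith
  have k2 : (-1 : ℝ) < k := by nlinarith
  have k3 : k < 1 := by exact_mod_cast k1
  have k4 : -1 < k := by exact_mod_cast k2
  have : k = 0 := by omega
  simp [hk, this]

theorem exists_circle (h : Loop γ) :
    ∃ F : Circle → ℂ, IsClosedEmbedding F ∧ ∀ x, F (Circle.exp x) = γ x := by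
  have hF : ∀ x, γ (Complex.arg (Circle.exp x : ℂ)) = γ x := fun x => by
    obtain ⟨m, hm⟩ := Circle.exp_eq_exp.1 (Circle.exp_arg (Circle.exp x))
    rw [hm, per_int h.per]
  have hs : Function.Surjective Circle.exp := fun z => ⟨_, Circle.exp_arg z⟩
  refine ⟨fun z => γ (Complex.arg z), Continuous.isClosedEmbedding ?_ ?_, hF⟩
  · rw [(Circle.isCoveringMap_exp.isQuotientMap hs).continuous_iff]
    exact h.cont.congr fun x => (hF x).symm
  · intro z w hzw
    obtain ⟨k, hk⟩ := h.inj _ _ hzw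
    rw [← Circle.exp_arg z, ← Circle.exp_arg w]
    exact (Circle.exp_eq_exp.2 ⟨k, hk⟩).symm

end Loop

end Pool.Agent.P.MP_7f9008_an
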