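import Pool.Agent.P.MP_7f9008_an.Whit
import Pool.Agent.P.MP_7f9008_an.Arc

/-! The three point bound in fourth powers, and consequences of the doubling property. -/

open MeasureTheory Set Metric Filter Topology Real Complex
open scoped ENNReal

noncomputable section
namespace Pool.Agent.P.MP_7f9008_an

/-- Local three point bound for a curve. -/
def TP (γ : ℝ → ℂ) : Prop :=
  ∃ A δ : ℝ, 0 ≤ A ∧ 0 < δ ∧ ∀ u v d : ℝ, u ≤ v → v - u ≤ δ → 0 < d → d ≤ δ →
    dist (γ u) (γ v) ≤ d → dl γ u v ^ 4 ≤ A * d ^ 4 * Real.log (1 / d)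

theorem Loop.dist_pos {γ : ℝ → ℂ} (h : Loop γ) {u v : ℝ} (h1 : u < v) (h2 : v < u + 2 * π) :
    0 < dist (γ u) (γ v) := by
  refine _root_.dist_pos.2 fun e => ?_
  obtain ⟨k, rfl⟩ := h.inj u v e
  have hp : (0 : ℝ) < 2 * π := by positivity
  have a1 : (0 : ℝ) < k := by nlinarith
  have a2 : (k : ℝ) < 1 := by nlinarith
  have b1 : 0 < k := by exact_mod_cast a1
  have b2 : k < 1 := by exact_mod_cast a2
  omega

theorem Loop.le_dl {γ : ℝ → ℂ} (h : Loop γ) (u : ℝ) : dist (γ 0) (γ π) ≤ dl γ u (u + 2 * π) := by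
  obtain ⟨k, hk⟩ := exists_int_mem_Ico (0 - u)
  obtain ⟨l, hl⟩ := exists_int_mem_Ico (π - u)
  rw [← per_int h.per k 0, ← per_int h.per l π]
  exact dist_le_dl h.cont ⟨by linarith [hk.1], by linarith [hk.2]⟩
    ⟨by linarith [hl.1], by linarith [hl.2]⟩

theorem log_one_div_le {d : ℝ} (hd : 0 < d) : Real.log (1 / d) ≤ 1 / d :=
  (Real.log_le_sub_one_of_pos (by positivity)).trans (by linarith)

theorem one_le_log {d : ℝ} (hd : 0 < d) (h : d ≤ 1 / 3) : 1 ≤ Real.log (1 / d) := by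
  rw [Real.le_log_iff_exp_le (by positivity), le_div_iff₀ hd]
  nlinarith [Real.exp_one_lt_d9, Real.exp_pos 1]

theorem pow_log_mono {t d : ℝ} (ht : 0 < t) (htd : t ≤ d) (h : d ≤ 1 / 3) :
    t ^ 4 * Real.log (1 / t) ≤ 2 * (d ^ 4 * Real.log (1 / d)) := by
  have hd : 0 < d := ht.trans_le htd
  have l1 := one_le_log hd h
  have e : Real.log (1 / t) = Real.log (1 / d) + Real.log (1 / (t / d)) := by
    rw [← Real.log_mul (by positivity) (by positivity)]; congr 1; field_simp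
  have l2 : t ^ 4 * Real.log (1 / (t / d)) ≤ t ^ 3 * d :=
    (mul_le_mul_of_nonneg_left (log_one_div_le (by positivity)) (by positivity)).trans
      (le_of_eq (by field_simp))
  have p3 : t ^ 3 ≤ d ^ 3 := by gcongr
  have p4 : t ^ 4 ≤ d ^ 4 := by gcongr
  have l3 : t ^ 4 * Real.log (1 / d) ≤ d ^ 4 * Real.log (1 / d) := by gcongr
  have l4 : d ^ 4 ≤ d ^ 4 * Real.log (1 / d) := le_mul_of_one_le_right (by positivity) l1
  rw [e]; nlinarith

theorem tp_of_threePt {γ : ℝ → ℂ} {Ω : Set ℂ} {φ : ℝ → ℝ} {A : ℝ} (hγ : Loop γ)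
    (hr : frontier Ω = range γ) (h : ThreePt φ Ω) (hφ : ∀ᶠ t in 𝓝[>] (0 : ℝ), 0 < φ t ∧
      φ t ≤ A * t * Real.log (1 / t) ^ (1 / 4 : ℝ)) : TP γ := by
  obtain ⟨C, δ₀, hδ₀, H⟩ := h
  obtain ⟨δ₁, hδ₁, H₁⟩ := (mem_nhdsGT_iff_exists_Ioo_subset).1 hφ
  have hδ₁' : 0 < δ₁ := hδ₁
  set D := dist (γ 0) (γ π)
  have hD : 0 < D := hγ.dist_pos pi_pos (by linarith [pi_pos])
  obtain ⟨η, hη, Hη⟩ := exists_dl_le hγ.cont hγ.per (half_pos hD)
  set B := 2 * (C * A) ^ 4
  have hB : 0 ≤ B := by positivity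
  refine ⟨B, min (min (δ₀ / 2) (δ₁ / 2)) (min (min η (1 / 3)) ((D / 2) ^ 4 / (B + 1))), hB,
    by positivity, fun u v d huv hv hd hdδ hdist => ?_⟩
  simp only [le_min_iff] at hv hdδ
  have l1 := one_le_log hd hdδ.2.1.2
  rcases huv.eq_or_lt with rfl | huv
  · rw [dl_self, zero_pow four_ne_zero]; exact mul_nonneg (by positivity) (by linarith)
  have hv2 : v < u + 2 * π := by linarith [hv.2.1.2, pi_gt_three]
  have h0 := hγ.dist_pos huv hv2
  obtain ⟨q, hq, hd2⟩ := H (γ u) (hr ▸ mem_range_self u) (γ v) (hr ▸ mem_range_self v)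
    (_root_.dist_pos.1 h0) (by linarith [hdδ.1.1])
  rw [hr] at hq hd2
  have k1 := (hγ.min_le_diam huv hv2 hq).trans hd2
  set t := dist (γ u) (γ v)
  obtain ⟨p1, p2⟩ := H₁ (⟨h0, by linarith [hdδ.1.2]⟩ : t ∈ Ioo 0 δ₁)
  have lt := one_le_log h0 (hdist.trans hdδ.2.1.2)
  have k2 : φ t ^ 4 ≤ A ^ 4 * (t ^ 4 * Real.log (1 / t)) := by
    refine (pow_le_pow_left₀ p1.le p2 4).trans (le_of_eq ?_)
    rw [mul_pow, mul_pow, ← Real.rpow_natCast (_ ^ (1 / 4 : ℝ)), ← Real.rpow_mul (by linarith)]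
    norm_num [mul_assoc]
  have k3 : min (dl γ u v) (dl γ v (u + 2 * π)) ^ 4 ≤ B * d ^ 4 * Real.log (1 / d) := by
    refine (pow_le_pow_left₀ (le_min dl_nonneg dl_nonneg) k1 4).trans ?_
    have := pow_log_mono h0 hdist hdδ.2.1.2
    calc (C * φ t) ^ 4 = C ^ 4 * φ t ^ 4 := mul_pow _ _ _
      _ ≤ C ^ 4 * (A ^ 4 * (2 * (d ^ 4 * Real.log (1 / d)))) := by
          refine mul_le_mul_of_nonneg_left (k2.trans ?_) (by positivity)
          exact mul_le_mul_of_nonneg_left this (by positivity)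
      _ = _ := by simp only [B]; ring
  rcases min_choice (dl γ u v) (dl γ v (u + 2 * π)) with e | e <;> rw [e] at k3
  · exact k3
  · exfalso
    have k4 : D / 2 ≤ dl γ v (u + 2 * π) := by
      have := (hγ.le_dl u).trans (dl_triangle huv.le hv2.le)
      linarith [Hη u v hv.2.1.1]
    have k5 := (pow_le_pow_left₀ (by positivity) k4 4).trans k3
    have k6 : d ^ 4 * Real.log (1 / d) ≤ d :=
      (mul_le_mul_of_nonneg_left (log_one_div_le hd) (by positivity)).trans (by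
        rw [show d ^ 4 * (1 / d) = d * d ^ 2 by field_simp]
        exact mul_le_of_le_one_right hd.le (by nlinarith [hdδ.2.1.2]))
    have k7 := hdδ.2.2
    rw [le_div_iff₀ (by positivity)] at k7
    nlinarith [mul_le_mul_of_nonneg_left k6 hB]

theorem dl_comp {γ : ℝ → ℂ} {τ : ℝ → ℝ} (hc : Continuous τ) (hm : Monotone τ) {u v : ℝ}
    (h : u ≤ v) : dl γ (τ u) (τ v) = dl (fun x => γ (τ x)) u v := by
  unfold dl
  rw [← image_image γ τ, (hm.image_Icc_subset).antisymm (intermediate_value_Icc h hc.continuousOn)]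

theorem lift_int {τ : ℝ → ℝ} {c : ℝ} (hp : ∀ x, τ (x + 2 * π) = τ x + c) (k : ℤ) (x : ℝ) :
    τ (x + k * (2 * π)) = τ x + k * c := by
  have := per_int (γ := fun x => τ x - c / (2 * π) * x) (fun x => by
    simp only [hp]; field_simp; ring) k x
  have e : c / (2 * π) * (k * (2 * π)) = k * c := by field_simp
  linarith [mul_add (c / (2 * π)) x (k * (2 * π))]

theorem TP.comp {γ : ℝ → ℂ} {τ : ℝ → ℝ} (h : TP γ) (hc : Continuous τ) (hm : Monotone τ)
    (hp : ∀ x, τ (x + 2 * π) = τ x + 2 * π) : TP fun x => γ (τ x) := by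
  obtain ⟨A, δ, hA, hδ, H⟩ := h
  obtain ⟨η, hη, Hη⟩ := exists_dl_le (γ := fun x => ((τ x - x : ℝ) : ℂ)) (by fun_prop)
    (fun x => by rw [hp]; congr 1; ring) (half_pos hδ)
  refine ⟨A, min η (δ / 2), hA, by positivity, fun u v d huv hv hd hdδ hdist => ?_⟩
  rw [le_min_iff] at hv hdδ
  rw [← dl_comp hc hm huv]
  refine H _ _ d (hm huv) ?_ hd (by linarith [hdδ.2]) hdist
  have := (dist_le_dl (γ := fun x => ((τ x - x : ℝ) : ℂ)) (by fun_prop) (right_mem_Icc.2 huv)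
    (left_mem_Icc.2 huv)).trans (Hη u v hv.1)
  rw [Complex.isometry_ofReal.dist_eq, Real.dist_eq, abs_le] at this
  linarith [this.2, hv.2]

theorem Side.dl_le {Γ : Set ℂ} {P : ℂ → ℂ} {K : ℝ} (h : Side Γ P K) (tp : TP fun x => P ⟨x, 0⟩) :
    ∃ C y₀ : ℝ, 0 ≤ C ∧ 0 < y₀ ∧ ∀ x y, 0 < y → y ≤ y₀ → infDist (P ⟨x, y⟩) Γ ≤ 1 / 3 ∧
      dl (fun x => P ⟨x, 0⟩) (x - y) (x + y) ^ 4 ≤
        C * infDist (P ⟨x, y⟩) Γ ^ 4 * Real.log (1 / infDist (P ⟨x, y⟩) Γ) := by
  obtain ⟨A, δ, hA, hδ, H⟩ := tp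
  obtain ⟨N, hN⟩ := exists_nat_gt (2 * 10 ^ 8 * K)
  set M : ℝ := 2 * (2 ^ N * (2 ^ N + 2))
  have hM : 1 ≤ M := by
    have : (1 : ℝ) ≤ 2 ^ N := one_le_pow₀ one_le_two
    simp only [M]; nlinarith
  obtain ⟨η, hη, Hη⟩ := h.s_small (ε := min (δ / M) (1 / 3)) (by positivity)
  refine ⟨A * M ^ 4, min (min η (δ / 3)) (1 / 2), by positivity, by positivity,
    fun x y hy hy' => ?_⟩
  simp only [le_min_iff] at hy'
  have hs := h.s_pos (z := ⟨x, y⟩) hy
  have s1 := Hη x y hy.le hy'.1.1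
  rw [le_min_iff, le_div_iff₀ (by positivity)] at s1
  obtain ⟨x₁, hx₁, d₁⟩ := h.near hN hy hy'.2 (x := x) (a := x - y - y / 64) (by linarith)
    (by linarith)
  obtain ⟨x₂, hx₂, d₂⟩ := h.near hN hy hy'.2 (x := x) (a := x + y) (by linarith) (by linarith)
  set s := infDist (P ⟨x, y⟩) Γ
  have k := H x₁ x₂ (s * M) (by linarith [hx₁.2, hx₂.1]) (by linarith [hx₁.1, hx₂.2, hy'.1.2])
    (by positivity) s1.1 ((dist_triangle_right _ _ (P ⟨x, y⟩)).trans (by
      simp only [M]; linarith))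
  refine ⟨s1.2, (pow_le_pow_left₀ dl_nonneg (dl_mono h.cont_bd (by linarith [hx₁.2])
    hx₂.1.le) 4).trans (k.trans ?_)⟩
  rw [show A * (s * M) ^ 4 = A * M ^ 4 * s ^ 4 by ring]
  gcongr
  exact le_mul_of_one_le_right hs.le hM

section
variable {h : ℝ → ℝ} {C y₀ : ℝ}

theorem decay (hm : Monotone h) (hy₀ : 0 < y₀) (hd : ∀ x y, 0 < y → y ≤ y₀ →
    ∃ Λ, 0 ≤ Λ ∧ Λ ^ 2 ≤ C * Real.log (1 / y) ∧ Dbl h x y Λ) :
    ∃ y₁ > 0, ∀ x y, 0 < y → y ≤ y₁ → 2 * (h (x + y ^ 2) - h x) ≤ h (x + y / 2) - h x := by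
  set C' := max C 1
  have hC : 1 ≤ C' := le_max_right _ _
  refine ⟨min y₀ (Real.exp (-(12 * C' + 4))), by positivity, fun x y hy hy' => ?_⟩
  rw [le_min_iff] at hy'
  set L := Real.log (1 / y)
  have eL : y = Real.exp (-L) := by rw [Real.exp_neg, Real.exp_log (by positivity)]; simp
  have hL : 12 * C' + 4 ≤ L := by
    have := hy'.2
    rw [eL, Real.exp_le_exp] at this; linarith
  set Λ := √(3 * C' * L)
  have Λ2 : Λ ^ 2 = 3 * C' * L := Real.sq_sqrt (by nlinarith)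
  have Λ0 : 0 ≤ Λ := Real.sqrt_nonneg _
  have Λ1 : 1 ≤ Λ := Real.one_le_sqrt.2 (by nlinarith)
  have ΛL : Λ ≤ L / 2 := Real.sqrt_le_iff.2 ⟨by linarith, by nlinarith⟩
  have e1 : Real.exp (-1) ≤ 1 / 2 := by linarith [Real.exp_neg_one_lt_d9]
  have y2 : y ≤ 1 / 2 := eL ▸ (Real.exp_le_exp.2 (by linarith)).trans e1
  have step : ∀ t, y ^ 2 ≤ t → t ≤ y / 2 →
      h (x + 3 / 4 * t) - h x ≤ Real.exp (-(1 / Λ)) * (h (x + t) - h x) := by
    intro t h1 h2
    have ht : 0 < t := lt_of_lt_of_le (by positivity) h1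
    obtain ⟨l, l0, l1, -, l2⟩ := hd (x + t / 2) (t / 2) (by positivity) (by linarith [hy'.1])
    have l3 : Real.log (1 / (t / 2)) ≤ 3 * L := by
      rw [show 3 * L = Real.log ((1 / y) ^ 3) by rw [Real.log_pow]; norm_num [L]]
      refine Real.log_le_log (by positivity) ?_
      rw [one_div_pow]
      exact one_div_le_one_div_of_le (by positivity) (by nlinarith)
    have l4 : 0 ≤ Real.log (1 / (t / 2)) :=
      Real.log_nonneg (by rw [le_div_iff₀ (by positivity)]; linarith)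
    have l5 : l ≤ Λ := by
      refine (pow_le_pow_iff_left₀ l0 Λ0 two_ne_zero).1 ?_
      have : C ≤ C' := le_max_left _ _
      nlinarith
    rw [show x + t / 2 + t / 2 = x + t by ring, show x + t / 2 - t / 2 = x by ring,
      show x + t / 2 + t / 2 / 2 = x + 3 / 4 * t by ring] at l2
    have m1 : h (x + 3 / 4 * t) ≤ h (x + t) := hm (by linarith)
    have m2 : h x ≤ h (x + t) := hm (by linarith)
    have l6 : h (x + t) - h x ≤ Λ * (h (x + t) - h (x + 3 / 4 * t)) :=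
      l2.trans (mul_le_mul_of_nonneg_right l5 (by linarith))
    rw [← div_le_iff₀' (by linarith)] at l6
    have l7 := mul_le_mul_of_nonneg_right (Real.add_one_le_exp (-(1 / Λ))) (sub_nonneg.2 m2)
    have : (h (x + t) - h x) / Λ = 1 / Λ * (h (x + t) - h x) := by ring
    linarith
  set n := ⌈Λ⌉₊
  have n1 : Λ ≤ n := Nat.le_ceil _
  have n2 : (n : ℝ) < Λ + 1 := Nat.ceil_lt_add_one Λ0
  have low : ∀ j ≤ n, y ^ 2 ≤ (3 / 4) ^ j * (y / 2) := by
    intro j hj
    have a1 : Real.exp (-1) ^ n ≤ (3 / 4 : ℝ) ^ j :=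
      (pow_le_pow_left₀ (by positivity) (by linarith) n).trans
        (pow_le_pow_of_le_one (by norm_num) (by norm_num) hj)
    rw [← Real.exp_nat_mul] at a1
    have a2 : y ≤ Real.exp (n * -1) * Real.exp (-1) := by
      rw [← Real.exp_add, eL, Real.exp_le_exp]; linarith
    have a3 : Real.exp (n * -1) * Real.exp (-1) ≤ (3 / 4) ^ j * (1 / 2) := by gcongr
    nlinarith
  have m0 : 0 ≤ h (x + y / 2) - h x := sub_nonneg.2 (hm (by linarith))
  have iter : ∀ j ≤ n, h (x + (3 / 4) ^ j * (y / 2)) - h x ≤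
      Real.exp (-(1 / Λ)) ^ j * (h (x + y / 2) - h x) := by
    intro j
    induction j with
    | zero => simp
    | succ j ih =>
      intro hj
      have := step _ (low j (by omega)) (mul_le_of_le_one_left (by positivity)
        (pow_le_one₀ (by norm_num) (by norm_num)))
      rw [pow_succ', pow_succ', mul_assoc, mul_assoc]
      exact this.trans (mul_le_mul_of_nonneg_left (ih (by omega)) (by positivity))
  have f1 := iter n le_rfl
  have f2 : Real.exp (-(1 / Λ)) ^ n ≤ 1 / 2 := by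
    rw [← Real.exp_nat_mul]
    refine le_trans (Real.exp_le_exp.2 ?_) e1
    rw [mul_neg, neg_le_neg_iff, mul_one_div, le_div_iff₀ (by linarith)]; linarith
  have f3 : h (x + y ^ 2) ≤ h (x + (3 / 4) ^ n * (y / 2)) := hm (by linarith [low n le_rfl])
  nlinarith [mul_le_mul_of_nonneg_right f2 m0]

theorem circ_of_dbl (hm : Monotone h) (hp : ∀ x, h (x + 2 * π) = h x + 1) (hy₀ : 0 < y₀)
    (hd : ∀ x y, 0 < y → y ≤ y₀ → ∃ Λ, 0 ≤ Λ ∧ Λ ^ 2 ≤ C * Real.log (1 / y) ∧ Dbl h x y Λ) :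
    Circ h := by
  obtain ⟨y₁, hy₁, H⟩ := decay hm hy₀ hd
  refine ⟨?_, fun a b hab => lt_of_le_of_ne (hm hab.le) fun e => ?_, hp⟩
  · have key : ∀ n : ℕ, ∃ z, 0 < z ∧ z ≤ y₁ ∧ z ≤ 1 ∧ ∀ x, h (x + z) - h x ≤ (1 / 2) ^ n := by
      intro n
      induction n with
      | zero =>
        refine ⟨min y₁ 1, by positivity, min_le_left _ _, min_le_right _ _, fun x => ?_⟩
        have : h (x + min y₁ 1) ≤ h (x + 2 * π) :=
          hm (by linarith [min_le_right y₁ 1, pi_gt_three])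
        rw [hp] at this; simp only [pow_zero]; linarith
      | succ n ih =>
        obtain ⟨z, z0, z1, z2, z3⟩ := ih
        refine ⟨z ^ 2, by positivity, by nlinarith, by nlinarith, fun x => ?_⟩
        have : h (x + z / 2) ≤ h (x + z) := hm (by linarith)
        rw [pow_succ (1 / 2 : ℝ)]; linarith [H x z z0 z1, z3 x]
    refine Metric.continuous_iff.2 fun b ε hε => ?_
    obtain ⟨n, hn⟩ := exists_pow_lt_of_lt_one hε (show (1 / 2 : ℝ) < 1 by norm_num)
    obtain ⟨z, z0, -, -, z3⟩ := key n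
    refine ⟨z, z0, fun a ha => ?_⟩
    rw [Real.dist_eq, abs_lt] at ha ⊢
    have a1 : h a ≤ h (b + z) := hm (by linarith)
    have a2 : h b ≤ h (a + z) := hm (by linarith)
    constructor <;> linarith [z3 a, z3 b]
  · set L := min (b - a) (y₀ / 2)
    have hL : 0 < L := lt_min (by linarith) (by positivity)
    have key : ∀ n : ℕ, h (a + n * L + L) = h a := by
      intro n
      induction n with
      | zero =>
        have : h (a + L) ≤ h b := hm (by linarith [min_le_left (b - a) (y₀ / 2)])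
        simpa using le_antisymm (this.trans e.ge) (hm (by linarith))
      | succ n ih =>
        obtain ⟨l, -, -, l1, -⟩ := hd (a + n * L + 2 * L) (2 * L) (by positivity)
          (by linarith [min_le_right (b - a) (y₀ / 2)])
        have n0 : (0 : ℝ) ≤ n * L := by positivity
        have a1 : h (a + n * L + 2 * L - 2 * L) = h a :=
          le_antisymm (ih ▸ hm (by linarith)) (hm (by linarith))
        rw [a1, show a + n * L + 2 * L - 2 * L / 2 = a + n * L + L by ring, ih, sub_self,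
          mul_zero] at l1
        refine le_antisymm (le_trans (hm ?_) (sub_nonpos.1 l1)) (hm ?_) <;> push_cast <;> nlinarith
    obtain ⟨n, hn⟩ := exists_nat_ge (2 * π / L)
    rw [div_le_iff₀ hL] at hn
    have : h (a + 2 * π) ≤ h (a + n * L + L) := hm (by linarith)
    rw [key, hp] at this; linarith

end

end Pool.Agent.P.MP_7f9008_an
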