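import Pool.Agent.P.MP_7f9008_an.UpperA
import Pool.Agent.P.MP_7f9008_an.Mass

/-! A distribution function which is doubling in the parameters of both sides. -/

open MeasureTheory Set Metric Filter Topology Real Complex
open scoped ENNReal

noncomputable section
namespace Pool.Agent.P.MP_7f9008_an

/-- Side length of the Whitney boxes of generation `k`. -/
def yk (k : ℕ) : ℝ := 2 * π / 2 ^ (k + 5)

theorem yk_pos (k : ℕ) : 0 < yk k := by unfold yk; positivity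

theorem yk_mul (k : ℕ) : (2 : ℝ) ^ (k + 5) * yk k = 2 * π := by unfold yk; field_simp

theorem yk_le (k : ℕ) : yk k ≤ 1 / 4 := by
  have h1 : (1 : ℝ) ≤ 2 ^ k := one_le_pow₀ one_le_two
  have h2 := yk_mul k
  rw [pow_add] at h2
  nlinarith [pi_le_four, yk_pos k]

theorem yk_lt {k k' : ℕ} (h : k < k') : 2 * yk k' ≤ yk k := by
  have h1 : (2 : ℝ) ^ (k + 5 + 1) ≤ 2 ^ (k' + 5) := pow_le_pow_right₀ one_le_two (by omega)
  have h2 := yk_mul k
  have h3 := yk_mul k'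
  have h4 : (0 : ℝ) < 2 ^ (k + 5) := by positivity
  rw [pow_succ] at h1
  refine le_of_mul_le_mul_left ?_ h4
  nlinarith [yk_pos k']

theorem exists_yk {y : ℝ} (hy : 0 < y) (hy' : y ≤ 1) : ∃ k, y / 8 ≤ yk k ∧ yk k ≤ y / 4 := by
  obtain ⟨k, h1, h2⟩ := exists_nat_pow_near (x := π / (2 * y)) (by
    rw [le_div_iff₀ (by positivity)]; linarith [pi_gt_three]) one_lt_two
  rw [le_div_iff₀ (by positivity)] at h1
  rw [div_lt_iff₀ (by positivity), pow_succ] at h2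
  have h3 := yk_mul k
  have h4 : (0 : ℝ) < 2 ^ k := by positivity
  rw [pow_add] at h3
  exact ⟨k, le_of_mul_le_mul_left (by nlinarith) h4, le_of_mul_le_mul_left (by nlinarith) h4⟩

/-- The Whitney box. -/
def wbox (k l : ℕ) : Set ℂ := Ioo (l * yk k) ((l + 1) * yk k) ×ℂ Ioo (yk k) (2 * yk k)

theorem wbox_eq {k l k' l' : ℕ} {z : ℂ} (h : z ∈ wbox k l) (h' : z ∈ wbox k' l') :
    k = k' ∧ l = l' := by
  have hk : k = k' := by
    rcases lt_trichotomy k k' with e | e | e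
    · linarith [yk_lt e, h.2.1, h'.2.2]
    · exact e
    · linarith [yk_lt e, h'.2.1, h.2.2]
  subst hk
  have a1 : (l : ℝ) < l' + 1 := lt_of_mul_lt_mul_right (h.1.1.trans h'.1.2) (yk_pos k).le
  have a2 : (l' : ℝ) < l + 1 := lt_of_mul_lt_mul_right (h'.1.1.trans h.1.2) (yk_pos k).le
  have b1 : l < l' + 1 := by exact_mod_cast a1
  have b2 : l' < l + 1 := by exact_mod_cast a2
  exact ⟨rfl, by omega⟩

theorem wbox_subset {k l : ℕ} (h : l < 2 ^ (k + 5)) : wbox k l ⊆ Ioo 0 (2 * π) ×ℂ Ioi 0 := by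
  intro z hz
  have h1 : (l : ℝ) + 1 ≤ 2 ^ (k + 5) := by exact_mod_cast h
  have h2 := yk_pos k
  refine ⟨⟨lt_of_le_of_lt (by positivity) hz.1.1, hz.1.2.trans_le ?_⟩, h2.trans hz.2.1⟩
  rw [← yk_mul k]; gcongr

theorem exists_lattice (k : ℕ) (α : ℝ) : ∃ l : ℕ, l < 2 ^ (k + 5) ∧ ∃ j : ℤ,
    α ≤ l * yk k + j * (2 * π) ∧ l * yk k + j * (2 * π) ≤ α + yk k := by
  have h0 := yk_pos k
  set L := ⌈α / yk k⌉
  have hn : (0 : ℤ) < 2 ^ (k + 5) := by positivity
  obtain ⟨l, hl⟩ := Int.eq_ofNat_of_zero_le (Int.emod_nonneg L hn.ne')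
  have e : (l : ℝ) * yk k + (L / 2 ^ (k + 5) : ℤ) * (2 * π) = L * yk k := by
    have h1 : (l : ℤ) + 2 ^ (k + 5) * (L / 2 ^ (k + 5)) = L := hl ▸ Int.emod_add_mul_ediv L _
    have h2 : (l : ℝ) + 2 ^ (k + 5) * ((L / 2 ^ (k + 5) : ℤ) : ℝ) = L := by exact_mod_cast h1
    rw [← yk_mul k, ← h2]; ring
  refine ⟨l, ?_, L / 2 ^ (k + 5), ?_, ?_⟩
  · have := Int.emod_lt_of_pos L hn
    rw [hl] at this; exact_mod_cast this
  · rw [e, ← div_le_iff₀ h0]; exact Int.le_ceil _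
  · have := (Int.ceil_lt_add_one (α / yk k)).le
    rw [div_add_one h0.ne', le_div_iff₀ h0] at this
    rw [e]; exact this

theorem exists_dbl {Γ : Set ℂ} {γ : ℝ → ℂ} (hγ : Loop γ) (tp : TP γ) {P : Bool → ℂ → ℂ}
    {K : Bool → ℝ} {τ : Bool → ℝ → ℝ} (hS : ∀ b, Side Γ (P b) (K b))
    (hc : ∀ b, Continuous (τ b)) (hm : ∀ b, Monotone (τ b))
    (hp : ∀ b x, τ b (x + 2 * π) = τ b x + 2 * π) (hb : ∀ b x, P b ⟨x, 0⟩ = γ (τ b x))
    (hi : ∀ b, InjOn (P b) (Ioo 0 (2 * π) ×ℂ Ioi 0))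
    (hd : ∀ b b' z z', 0 < z.im → 0 < z'.im → P b z = P b' z' → b = b') :
    ∃ h : ℝ → ℝ, Monotone h ∧ (∀ x, h (x + 2 * π) = h x + 1) ∧ ∃ C y₀ : ℝ, 0 ≤ C ∧ 0 < y₀ ∧
      ∀ b x y, 0 < y → y ≤ y₀ → ∃ Λ, 0 ≤ Λ ∧
        Λ ^ 2 ≤ C * Real.log (1 / infDist (P b ⟨x, y⟩) Γ) ∧ Dbl (fun x => h (τ b x)) x y Λ := by
  obtain ⟨N, hN'⟩ := exists_nat_gt (2 * 10 ^ 8 * max (K true) (K false))
  have hN : ∀ b, 2 * 10 ^ 8 * K b < N := fun b => lt_of_le_of_lt (by
    cases b <;> gcongr <;> simp) hN'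
  set M : ℝ := 2 ^ N * (2 ^ N + 2)
  have hM : 0 < M := by positivity
  let ι := {i : Bool × ℕ × ℕ // i.2.2 < 2 ^ (i.2.1 + 5)}
  have : Nonempty ι := ⟨⟨(true, 0, 0), by norm_num⟩⟩
  set X : ι → ℝ := fun i => (i.1.2.2 + 1 / 2) * yk i.1.2.1
  set Y : ι → ℝ := fun i => 3 / 2 * yk i.1.2.1
  have Y0 : ∀ i, 0 < Y i := fun i => by have := yk_pos i.1.2.1; positivity
  have Y1 : ∀ i, Y i ≤ 1 / 2 := fun i => by have := yk_le i.1.2.1; simp only [Y]; linarith
  set c : ι → ℂ := fun i => P i.1.1 ⟨X i, Y i⟩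
  set s : ι → ℝ := fun i => infDist (c i) Γ / M
  have S0 : ∀ i, 0 < infDist (c i) Γ := fun i => (hS _).s_pos (Y0 i)
  have s0 : ∀ i, 0 < s i := fun i => div_pos (S0 i) hM
  choose x' hx' dx' using fun i : ι => (hS i.1.1).near (hN _) (Y0 i) (Y1 i) (x := X i) (a := X i)
    (by linarith [Y0 i]) (by linarith [Y0 i])
  have bs : ∀ i, ball (c i) (s i) ⊆ P i.1.1 '' wbox i.1.2.1 i.1.2.2 := fun i => by
    refine (ball_subset_closedBall.trans (closedBall_subset_closedBall ?_)).trans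
      (((hS i.1.1).ball_subset (hN _) (Y0 i) (Y1 i) (x := X i)).trans (image_mono fun z hz => ?_))
    · exact div_le_div_of_nonneg_left (S0 i).le (by positivity) (by
        simp only [M]; gcongr; linarith)
    · simp only [X, Y] at hz
      exact ⟨⟨by linarith [hz.1.1], by linarith [hz.1.2]⟩, by linarith [hz.2.1],
        by linarith [hz.2.2]⟩
  obtain ⟨h, h1, h2, C, R₀, hR₀, H⟩ := mass hγ.cont hγ.per
    ((hγ.dist_pos pi_pos (by linarith [pi_pos])).trans_le (by simpa using hγ.le_dl 0))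
    (fun i => τ i.1.1 (x' i)) s c (M := M * M) s0 (fun i j hij => disjoint_left.2 fun w h1 h2 => by
      obtain ⟨z, hz, rfl⟩ := bs i h1
      obtain ⟨z', hz', e⟩ := bs j h2
      have e1 := hd _ _ _ _ (wbox_subset j.2 hz').2 (wbox_subset i.2 hz).2 e
      rw [e1] at e
      obtain rfl := hi _ (wbox_subset j.2 hz') (wbox_subset i.2 hz) e
      exact hij (Subtype.ext (Prod.ext e1.symm (Prod.ext (wbox_eq hz hz').1 (wbox_eq hz hz').2))))
    fun i => by
      rw [← hb, dist_comm]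
      refine (dx' i).le.trans (le_of_eq ?_)
      simp only [s, c]; field_simp; simp only [M]; ring
  have eγ : ∀ b, (fun x => P b ⟨x, 0⟩) = fun x => γ (τ b x) := fun b => funext (hb b)
  choose C₁ y₁ hC₁ hy₁ H₁ using fun b => (hS b).dl_le (eγ b ▸ tp.comp (hc b) (hm b) (hp b))
  choose η hη Hη using fun b => exists_dl_le (γ := fun x => P b ⟨x, 0⟩) (hS b).cont_bd
    (fun x => by simpa using (hS b).per_int 1 x 0) hR₀
  set M' : ℝ := (2 ^ N + 2) * M
  refine ⟨h, h1, h2, C ^ 2 * M' ^ 4 * (C₁ true + C₁ false),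
    min (min (y₁ true) (y₁ false)) (min (min (η true) (η false) / 2) (1 / 2)),
    mul_nonneg (by positivity) (add_nonneg (hC₁ _) (hC₁ _)),
    lt_min (lt_min (hy₁ _) (hy₁ _)) (lt_min (half_pos (lt_min (hη _) (hη _))) one_half_pos),
    fun b x y hy hy' => ?_⟩
  simp only [le_min_iff] at hy'
  have a1 : y ≤ y₁ b := by cases b; exacts [hy'.1.2, hy'.1.1]
  have a2 : 2 * y ≤ η b := by
    cases b
    · linarith [hy'.2.1, min_le_right (η true) (η false)]
    · linarith [hy'.2.1, min_le_left (η true) (η false)]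
  have a3 : C₁ b ≤ C₁ true + C₁ false := by cases b <;> linarith [hC₁ true, hC₁ false]
  obtain ⟨b1, b2⟩ := H₁ b x y hy a1
  have S := (hS b).s_pos (z := ⟨x, y⟩) hy
  set σ := infDist (P b ⟨x, y⟩) Γ
  set R := dl (fun x => P b ⟨x, 0⟩) (x - y) (x + y)
  have key : ∀ α, x - y ≤ α → α + y / 2 ≤ x + y → h (τ b (x + y)) - h (τ b (x - y)) ≤
      |C| * R ^ 2 * (M' / σ) ^ 2 * (h (τ b (α + y / 2)) - h (τ b α)) := by
    intro α α1 α2
    obtain ⟨k, k1, k2⟩ := exists_yk hy (by linarith [hy'.2.2])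
    obtain ⟨l, hl, j, j1, j2⟩ := exists_lattice k α
    set i : ι := ⟨(b, k, l), hl⟩
    have eX : X i = l * yk k + yk k / 2 := by simp only [X, i]; ring
    have eY : Y i = 3 / 2 * yk k := rfl
    have ec : c i = P b ⟨X i + j * (2 * π), Y i⟩ := ((hS b).per_int j _ _).symm
    have x1 := (hx' i).1
    have x2 := (hx' i).2
    have ep : τ b (x' i) + j * (2 * π) = τ b (x' i + j * (2 * π)) := (lift_int (hp b) j _).symm
    have fr : ∀ a u v, X i + j * (2 * π) - 3 * Y i ≤ a →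
        a + Y i / 64 ≤ X i + j * (2 * π) + 3 * Y i → u ≤ a → a + Y i / 64 ≤ v →
        s i ≤ dl γ (τ b u) (τ b v) := by
      intro a u v f1 f2 f3 f4
      obtain ⟨x'', f5, f6⟩ := (hS b).far (hN b) (Y0 i) (Y1 i) f1 f2
      rw [dl_comp (hc b) (hm b) (by linarith [f5.1, f5.2]), ← eγ]
      exact (ec ▸ f6.le).trans (dist_le_dl (hS b).cont_bd ⟨by linarith [f5.1], by linarith [f5.2]⟩
        ⟨f3, by linarith [f5.1, f5.2]⟩)
    have m := H i j (τ b (x - y)) (τ b α) (τ b (α + y / 2)) (τ b (x + y)) R (hm b α1)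
      (ep ▸ hm b (by linarith)) (ep ▸ hm b (by linarith)) (hm b α2)
      (ep ▸ fr (X i + j * (2 * π) - Y i / 64) _ _ (by linarith) (by linarith) (by linarith)
        (by linarith))
      (ep ▸ fr (X i + j * (2 * π) + Y i / 64) _ _ (by linarith) (by linarith) (by linarith)
        (by linarith))
      (by rw [dl_comp (hc b) (hm b) (by linarith), ← eγ]) (Hη b _ _ (by linarith))
    have ha : σ ≤ M' * s i := by
      have := ((hS b).harnack (hN b) hy hy'.2.2 (x := x) (z₁ := ⟨X i + j * (2 * π), Y i⟩)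
        (z₂ := ⟨x, y⟩) ⟨⟨by linarith, by linarith⟩, by linarith, by linarith⟩
        ⟨⟨by linarith, by linarith⟩, by linarith, by linarith⟩).2
      rw [← ec] at this
      refine this.trans (le_of_eq ?_)
      simp only [s, M']; field_simp
    have d1 : 0 ≤ h (τ b (α + y / 2)) - h (τ b α) := sub_nonneg.2 (h1 (hm b (by linarith)))
    have d2 : 0 ≤ h (τ b (x + y)) - h (τ b (x - y)) := sub_nonneg.2 (h1 (hm b (by linarith)))
    have d3 : 1 ≤ s i ^ 2 * (M' / σ) ^ 2 := by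
      rw [← mul_pow]
      exact one_le_pow₀ (by rw [mul_div_assoc', le_div_iff₀ S]; linarith)
    calc _ ≤ (h (τ b (x + y)) - h (τ b (x - y))) * (s i ^ 2 * (M' / σ) ^ 2) :=
          le_mul_of_one_le_right d2 d3
      _ ≤ |C| * R ^ 2 * (h (τ b (α + y / 2)) - h (τ b α)) * (M' / σ) ^ 2 := by
          rw [← mul_assoc]
          refine mul_le_mul_of_nonneg_right (m.trans ?_) (by positivity)
          gcongr; exact le_abs_self C
      _ = _ := by ring
  refine ⟨|C| * R ^ 2 * (M' / σ) ^ 2, by positivity, ?_, ?_, ?_⟩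
  · have l1 := one_le_log S b1
    calc _ = C ^ 2 * (M' / σ) ^ 4 * R ^ 4 := by rw [mul_pow, mul_pow, sq_abs]; ring
      _ ≤ C ^ 2 * (M' / σ) ^ 4 * (C₁ b * σ ^ 4 * Real.log (1 / σ)) := by gcongr
      _ = C ^ 2 * M' ^ 4 * C₁ b * Real.log (1 / σ) := by field_simp
      _ ≤ _ := by gcongr
  · simpa only [show x - y + y / 2 = x - y / 2 by ring] using key (x - y) le_rfl (by linarith)
  · simpa only [show x + y / 2 + y / 2 = x + y by ring] using
      key (x + y / 2) (by linarith) (by linarith)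

end Pool.Agent.P.MP_7f9008_an
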