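import Pool.Agent.P.MP_7f9008_an.UpperB
import Pool.Agent.P.MP_7f9008_an.BA

/-! The half plane map with logarithmic distortion. -/

open MeasureTheory Set Metric Filter Topology Real Complex
open scoped ENNReal

noncomputable section
namespace Pool.Agent.P.MP_7f9008_an

theorem im_small (Φ : ℂ ≃ₜ ℂ) (hp : ∀ z, Φ (z + 2 * π) = Φ z + 2 * π)
    (h0 : ∀ z, z.im = 0 ↔ (Φ z).im = 0) {ε : ℝ} (hε : 0 < ε) :
    ∃ η > 0, ∀ z : ℂ, z.im < 0 → -z.im ≤ η → -(Φ z).im ≤ ε := by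
  obtain ⟨η, hη, H⟩ := Metric.uniformContinuousOn_iff_le.1
    ((isCompact_rect 0 (2 * π) (-1) 0).uniformContinuousOn_of_continuous
      (continuous_im.comp Φ.continuous).continuousOn) ε hε
  refine ⟨min η 1, by positivity, fun z hz hz' => ?_⟩
  rw [le_min_iff] at hz'
  obtain ⟨j, hj⟩ := exists_int_mem_Ico z.re
  have e := per_int (γ := fun x => (Φ ⟨x, z.im⟩).im) (fun x => by
    have : (⟨x + 2 * π, z.im⟩ : ℂ) = ⟨x, z.im⟩ + 2 * π := by apply Complex.ext <;> simp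
    simp [this, hp]) j z.re
  have := H ⟨z.re + j * (2 * π), z.im⟩ ⟨⟨hj.1, hj.2.le⟩, by linarith [hz'.2], hz.le⟩
    ⟨z.re + j * (2 * π), 0⟩ ⟨⟨hj.1, hj.2.le⟩, by norm_num, le_rfl⟩ (by
      rw [Complex.dist_of_re_eq (by rfl), Real.dist_eq, sub_zero, abs_of_neg hz]; exact hz'.1)
  simp only [Function.comp_apply] at this e
  rw [e, (h0 ⟨_, 0⟩).1 rfl, Real.dist_eq, sub_zero, abs_le] at this
  linarith [this.1]

theorem exists_phi {Γ : Set ℂ} {γ : ℝ → ℂ} (hγ : Loop γ) (tp : TP γ) {P₁ P₂ : ℂ → ℂ}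
    {K₁ K₂ : ℝ} {τ : ℝ → ℝ} (S₁ : Side Γ P₁ K₁) (S₂ : Side Γ P₂ K₂) (hc : Continuous τ)
    (hm : StrictMono τ) (hp : ∀ x, τ (x + 2 * π) = τ x + 2 * π) (b₁ : ∀ x, P₁ ⟨x, 0⟩ = γ x)
    (b₂ : ∀ x, P₂ ⟨x, 0⟩ = γ (τ x)) (i₁ : InjOn P₁ (Ioo 0 (2 * π) ×ℂ Ioi 0))
    (i₂ : InjOn P₂ (Ioo 0 (2 * π) ×ℂ Ioi 0))
    (hd : ∀ z z', 0 < z.im → 0 < z'.im → P₁ z ≠ P₂ z') : ∃ Φ : ℂ ≃ₜ ℂ,
    (∀ z, Φ (z + 2 * π) = Φ z + 2 * π) ∧ (∃ B : ℝ, ∀ z, ‖Φ z - z‖ ≤ B) ∧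
    (∀ z, z.im = 0 ↔ (Φ z).im = 0) ∧ (∀ z, z.im < 0 ↔ (Φ z).im < 0) ∧
    (∀ x : ℝ, τ (Φ x).re = x) ∧ ContDiffOn ℝ 1 Φ {z | z.im < 0} ∧
    (∀ z : ℂ, z.im < 0 → 0 < (fderiv ℝ Φ z).det) ∧ ∃ A y₀ : ℝ, 0 ≤ A ∧ 0 < y₀ ∧
      ∀ z : ℂ, z.im < 0 → -z.im ≤ y₀ →
        ‖fderiv ℝ Φ z‖ ^ 2 ≤ A * Real.log (1 / -z.im) * (fderiv ℝ Φ z).det := by
  obtain ⟨h, h1, h2, C, y₀, hC, hy₀, H⟩ := exists_dbl hγ tp (P := fun b => cond b P₁ P₂)
    (K := fun b => cond b K₁ K₂) (τ := fun b => cond b id τ)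
    (fun b => by cases b; exacts [S₂, S₁]) (fun b => by cases b; exacts [hc, continuous_id])
    (fun b => by cases b; exacts [hm.monotone, monotone_id])
    (fun b => by cases b; exacts [hp, fun _ => rfl]) (fun b => by cases b; exacts [b₂, b₁])
    (fun b => by cases b; exacts [i₂, i₁]) fun b b' z z' hz hz' e => by
      cases b <;> cases b'
      exacts [rfl, absurd e.symm (hd _ _ hz' hz), absurd e (hd _ _ hz hz'), rfl]
  obtain ⟨A, hA, HA⟩ := S₁.log_le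
  have H₁ : ∀ x y, 0 < y → y ≤ min y₀ (1 / 2) →
      ∃ Λ, 0 ≤ Λ ∧ Λ ^ 2 ≤ C * A * Real.log (1 / y) ∧ Dbl h x y Λ := fun x y hy hy' => by
    obtain ⟨Λ, l0, l1, l2⟩ := H true x y hy (hy'.trans (min_le_left _ _))
    refine ⟨Λ, l0, l1.trans ?_, l2⟩
    rw [mul_assoc]
    exact mul_le_mul_of_nonneg_left (HA x y hy (hy'.trans (min_le_right _ _))) hC
  have c₁ := circ_of_dbl h1 h2 (by positivity) H₁
  obtain ⟨y₁, hy₁, Hd⟩ := decay h1 (by positivity) H₁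
  have c₂ : Circ fun x => h (τ x) :=
    ⟨c₁.cont.comp hc, c₁.mono.comp hm, fun x => by rw [hp, h2]⟩
  obtain ⟨Φ, p1, p2, p3, p4, p5, p6, p7⟩ := ba c₁ c₂
  obtain ⟨C₂, y₂, hC₂, hy₂, H₂⟩ := S₂.dl_le (funext b₂ ▸ tp.comp hc hm.monotone hp)
  obtain ⟨η, hη, Hη⟩ := im_small Φ p1 p3 (lt_min hy₀ hy₂)
  obtain ⟨N, hN⟩ := exists_nat_gt (2 * 10 ^ 8 * K₁)
  set M : ℝ := 2 ^ N * (2 ^ N + 2)
  have hM : 0 < M := by positivity
  refine ⟨Φ, p1, p2, p3, p4, fun x => c₁.mono.injective (p5 x), p6, fun z hz => (p7 z hz).1,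
    500 * (C * A + C * (|Real.log (C₂ * M ^ 4)| + 8 * A)), min (min y₀ y₁) (min η (1 / 3)),
    by positivity, by positivity, fun z hz hz' => ?_⟩
  simp only [le_min_iff] at hz'
  obtain ⟨q1, q2, q3, q4⟩ := p7 z hz
  have hY := (p4 z).1 hz
  have Ys := Hη z hz hz'.2.1
  rw [le_min_iff] at Ys
  set y := -z.im
  set Y := -(Φ z).im
  have hy : 0 < y := neg_pos.2 hz
  have hY' : 0 < Y := neg_pos.2 hY
  obtain ⟨Λ₁, l0, l1, l2⟩ := H₁ z.re y hy (le_min hz'.1.1 (by linarith [hz'.2.2]))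
  obtain ⟨Λ₂, m0, m1, m2⟩ := H false (Φ z).re Y hY' Ys.1
  obtain ⟨r1, r2⟩ := H₂ (Φ z).re Y hY' Ys.2
  have s2 := S₂.s_pos (z := ⟨(Φ z).re, Y⟩) hY'
  have y2 : 0 < y ^ 2 := by positivity
  have y3 : y ^ 2 ≤ 1 / 2 := by nlinarith [hz'.2.2]
  have s1 := S₁.s_pos (z := ⟨z.re, y ^ 2⟩) y2
  obtain ⟨x', hx', dx'⟩ := S₁.far hN y2 y3 (x := z.re) (a := z.re) (by linarith) (by linarith)
  have t1 : τ ((Φ z).re - Y) ≤ z.re := c₁.mono.le_iff_le.1 (by simpa [Y] using q2)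
  have t2 : z.re + y ^ 2 ≤ τ ((Φ z).re + Y) := c₁.mono.le_iff_le.1 (by
    have := Hd z.re y hy hz'.1.2
    rw [show z.re - z.im / 2 = z.re + y / 2 by simp only [y]; ring,
      show (Φ z).re - (Φ z).im = (Φ z).re + Y by simp only [Y]; ring] at q3
    linarith)
  rw [b₁, b₁] at dx'
  rw [funext b₂, ← dl_comp hc hm.monotone (by linarith)] at r2
  have L1 := one_le_log hy hz'.2.2
  have L2 := HA z.re (y ^ 2) y2 y3
  rw [← one_div_pow, Real.log_pow] at L2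
  simp only [cond_false] at m1
  set σ := infDist (P₂ ⟨(Φ z).re, Y⟩) Γ
  set σ₁ := infDist (P₁ ⟨z.re, y ^ 2⟩) Γ
  set L := Real.log (1 / y)
  have u1 : (σ₁ / M) ^ 4 ≤ C₂ * σ := by
    refine (pow_le_pow_left₀ (by positivity) (dx'.le.trans (dist_le_dl hγ.cont
      ⟨by linarith [hx'.1], by linarith [hx'.2]⟩ ⟨t1, by linarith⟩)) 4).trans (r2.trans ?_)
    rw [mul_assoc]
    refine mul_le_mul_of_nonneg_left ((mul_le_mul_of_nonneg_left (log_one_div_le s2)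
      (by positivity)).trans ?_) hC₂
    rw [show σ ^ 4 * (1 / σ) = σ * σ ^ 2 by field_simp]
    exact mul_le_of_le_one_right s2.le (by nlinarith)
  have hC₂' : 0 < C₂ := by
    refine hC₂.lt_of_ne fun e => ?_
    rw [← e, zero_mul] at u1
    exact absurd u1 (not_le.2 (by positivity))
  have u2 : Real.log (1 / σ) ≤ Real.log (C₂ * M ^ 4) + 4 * Real.log (1 / σ₁) := by
    rw [show 4 * Real.log (1 / σ₁) = Real.log ((1 / σ₁) ^ 4) by rw [Real.log_pow]; norm_num,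
      ← Real.log_mul (by positivity) (by positivity)]
    refine Real.log_le_log (by positivity) ?_
    rw [div_pow, div_le_iff₀ (by positivity)] at u1
    rw [one_div_pow, mul_one_div, div_le_div_iff₀ s2 (by positivity)]
    linarith
  have u3 : Real.log (1 / σ) ≤ (|Real.log (C₂ * M ^ 4)| + 8 * A) * L := by
    have := le_mul_of_one_le_right (abs_nonneg (Real.log (C₂ * M ^ 4))) L1
    push_cast at L2
    linarith [le_abs_self (Real.log (C₂ * M ^ 4))]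
  refine (q4 Λ₁ Λ₂ l2 m2).trans (mul_le_mul_of_nonneg_right ?_ q1.le)
  nlinarith [mul_le_mul_of_nonneg_left u3 hC, sq_nonneg (Λ₁ - Λ₂)]

end Pool.Agent.P.MP_7f9008_an
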