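import Pool.Agent.P.MP_7f9008_an.Family

/-! Whitney type estimates for a quasiconformal parametrisation of one side of a curve. -/

open MeasureTheory Set Metric Filter Topology Real Complex
open scoped ENNReal

noncomputable section
namespace Pool.Agent.P.MP_7f9008_an

/-- A vertical half strip of width `6 < 2π`. -/
def strip (x : ℝ) : Set ℂ := Ioo (x - 3) (x + 3) ×ℂ Ioi 0

/-- A periodic quasiconformal parametrisation of one side of `Γ` by the upper half plane. -/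
structure Side (Γ : Set ℂ) (P : ℂ → ℂ) (K : ℝ) : Prop where
  cpt : IsCompact Γ
  K0 : 0 ≤ K
  cont : ContinuousOn P {z | 0 ≤ z.im}
  per : ∀ z, P (z + 2 * π) = P z
  bd : ∀ x : ℝ, P ⟨x, 0⟩ ∈ Γ
  off : ∀ z, 0 < z.im → P z ∉ Γ
  qc : ∀ x, QC (strip x) P
  dis : ∀ x, DistLe (strip x) P fun _ => ENNReal.ofReal K

theorem exists_int_mem_Ico (x : ℝ) : ∃ k : ℤ, x + k * (2 * π) ∈ Ico 0 (2 * π) := by
  have h2 : (0 : ℝ) < 2 * π := by positivity
  refine ⟨-⌊x / (2 * π)⌋, ?_⟩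
  have f1 := Int.floor_le (x / (2 * π))
  have f2 := Int.lt_floor_add_one (x / (2 * π))
  rw [le_div_iff₀ h2] at f1
  rw [div_lt_iff₀ h2] at f2
  constructor <;> simp only [Int.cast_neg] <;> nlinarith

namespace Side
variable {Γ : Set ℂ} {P : ℂ → ℂ} {K : ℝ}

theorem per_int (h : Side Γ P K) (k : ℤ) (x y : ℝ) : P ⟨x + k * (2 * π), y⟩ = P ⟨x, y⟩ :=
  MP_7f9008_an.per_int (γ := fun x => P ⟨x, y⟩) (fun x => by
    rw [← h.per ⟨x, y⟩]; congr 1; apply Complex.ext <;> simp) k x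

theorem s_pos (h : Side Γ P K) {z : ℂ} (hz : 0 < z.im) : 0 < infDist (P z) Γ :=
  (h.cpt.isClosed.notMem_iff_infDist_pos ⟨_, h.bd 0⟩).1 (h.off z hz)

theorem cont_v (h : Side Γ P K) (x y : ℝ) : ContinuousOn (fun t => P ⟨x, t⟩) (Icc 0 y) :=
  h.cont.comp (continuous_v x).continuousOn fun _ ht => ht.1

theorem cont_bd (h : Side Γ P K) : Continuous fun x : ℝ => P ⟨x, 0⟩ :=
  h.cont.comp_continuous (continuous_h 0) fun _ => le_refl (0 : ℝ)

theorem harnack (h : Side Γ P K) {N : ℕ} (hN : 2 * 10 ^ 8 * K < N) {x y : ℝ} (hy : 0 < y)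
    (hy' : y ≤ 1 / 2) {z₁ z₂ : ℂ} (h₁ : z₁ ∈ Icc (x - 3 * y) (x + 3 * y) ×ℂ Icc (y / 64) (2 * y))
    (h₂ : z₂ ∈ Icc (x - 3 * y) (x + 3 * y) ×ℂ Icc (y / 64) (2 * y)) :
    dist (P z₂) (P z₁) ≤ (2 ^ N + 2) * infDist (P z₁) Γ ∧
      infDist (P z₂) Γ ≤ (2 ^ N + 2) * infDist (P z₁) Γ := by
  obtain ⟨w, hw, e⟩ := h.cpt.exists_infDist_eq_dist ⟨_, h.bd 0⟩ (P z₁)
  have hr := h.s_pos (z := z₁) (by linarith [h₁.2.1])
  have hU : Icc (x - 3 * y - y / 128) (x + 3 * y + y / 128) ×ℂ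
      Icc (y / 64 - y / 128) (2 * y + y / 128) ⊆ strip x := fun z hz =>
    ⟨⟨by linarith [hz.1.1], by linarith [hz.1.2]⟩, by
      have := hz.2.1; simp only [mem_preimage, mem_Ioi]; linarith⟩
  have k : dist (P z₂) w < 2 ^ N * infDist (P z₁) Γ := by
    by_contra hn
    have := (h.qc x).ring h.K0 (h.dis x) (by positivity) hr hU h₁ h₂ e.ge (not_lt.1 hn) fun hc => by
      obtain ⟨z, hz, rfl⟩ := hc (mem_closedBall_self hr.le)
      exact h.off z (hU hz).2 hw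
    have h3 := h.K0
    nlinarith [mul_pos hy hy, mul_nonneg h3 (mul_pos hy hy).le]
  have k2 := dist_triangle_right (P z₂) (P z₁) w
  have k3 := infDist_le_dist_of_mem (x := P z₂) hw
  constructor <;> linarith

theorem near (h : Side Γ P K) {N : ℕ} (hN : 2 * 10 ^ 8 * K < N) {x y a : ℝ} (hy : 0 < y)
    (hy' : y ≤ 1 / 2) (h₁ : x - 3 * y ≤ a) (h₂ : a + y / 64 ≤ x + 3 * y) :
    ∃ x' ∈ Ioo a (a + y / 64),
      dist (P ⟨x', 0⟩) (P ⟨x, y⟩) < 2 ^ N * ((2 ^ N + 2) * infDist (P ⟨x, y⟩) Γ) := by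
  by_contra hn
  push Not at hn
  have hs := h.s_pos (z := ⟨x, y⟩) hy
  have := (h.qc x).vert_annulus h.K0 (h.dis x) (x₁ := a) (x₂ := a + y / 64) hy.le
    (r := (2 ^ N + 2) * infDist (P ⟨x, y⟩) Γ) (by positivity) (w := P ⟨x, y⟩) (N := N)
    fun x' hx' => ⟨0, y, le_rfl, hy.le, le_rfl, h.cont_v _ _,
      fun t ht => ⟨⟨by linarith [hx'.1], by linarith [hx'.2]⟩, ht.1⟩,
      Or.inr ⟨(h.harnack hN hy hy' (x := x) (z₁ := ⟨x, y⟩)
        ⟨⟨by linarith, by linarith⟩, ⟨by linarith, by linarith⟩⟩ (z₂ := ⟨x', y⟩) ⟨⟨by linarith [hx'.1], by linarith [hx'.2]⟩,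
          ⟨by linarith, by linarith⟩⟩).1, hn x' hx'⟩⟩
  have h3 := h.K0
  nlinarith [mul_nonneg h3 hy.le]

theorem far (h : Side Γ P K) {N : ℕ} (hN : 2 * 10 ^ 8 * K < N) {x y a : ℝ} (hy : 0 < y)
    (hy' : y ≤ 1 / 2) (h₁ : x - 3 * y ≤ a) (h₂ : a + y / 64 ≤ x + 3 * y) :
    ∃ x' ∈ Ioo a (a + y / 64),
      infDist (P ⟨x, y⟩) Γ / (2 ^ N * (2 ^ N + 2)) < dist (P ⟨x', 0⟩) (P ⟨a, 0⟩) := by
  by_contra hn
  push Not at hn
  have hs := h.s_pos (z := ⟨x, y⟩) hy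
  have := (h.qc x).vert_annulus h.K0 (h.dis x) (x₁ := a) (x₂ := a + y / 64) hy.le
    (r := infDist (P ⟨x, y⟩) Γ / (2 ^ N * (2 ^ N + 2))) (by positivity) (w := P ⟨a, 0⟩) (N := N)
    fun x' hx' => ⟨0, y, le_rfl, hy.le, le_rfl, h.cont_v _ _,
      fun t ht => ⟨⟨by linarith [hx'.1], by linarith [hx'.2]⟩, ht.1⟩,
      Or.inl ⟨hn x' hx', le_trans (by
        have := (h.harnack hN hy hy' (x := x) (z₁ := ⟨x', y⟩) (z₂ := ⟨x, y⟩)
          ⟨⟨by linarith [hx'.1], by linarith [hx'.2]⟩, ⟨by linarith, by linarith⟩⟩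
          ⟨⟨by linarith, by linarith⟩, ⟨by linarith, by linarith⟩⟩).2
        rw [mul_div_assoc', mul_div_mul_left _ _ (by positivity), div_le_iff₀' (by positivity)]
        exact this) (infDist_le_dist_of_mem (h.bd a))⟩⟩
  have h3 := h.K0
  nlinarith [mul_nonneg h3 hy.le]

theorem ball_subset (h : Side Γ P K) {N : ℕ} (hN : 2 * 10 ^ 8 * K < N) {x y : ℝ} (hy : 0 < y)
    (hy' : y ≤ 1 / 2) : closedBall (P ⟨x, y⟩) (infDist (P ⟨x, y⟩) Γ / (2 ^ N * 2 ^ N)) ⊆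
      P '' (Ioo (x - y / 3) (x + y / 3) ×ℂ Ioo (2 * y / 3) (4 * y / 3)) := by
  have hs := h.s_pos (z := ⟨x, y⟩) hy
  have h3 := h.K0
  obtain ⟨x', hx', hd⟩ : ∃ x' ∈ Ioo (x - y / 6) (x + y / 6),
      infDist (P ⟨x, y⟩) Γ / 2 ^ N < dist (P ⟨x', y⟩) (P ⟨x, y⟩) := by
    by_contra hn
    push Not at hn
    have := (h.qc x).vert_annulus h.K0 (h.dis x) (x₁ := x - y / 6) (x₂ := x + y / 6) hy.le
      (r := infDist (P ⟨x, y⟩) Γ / 2 ^ N) (by positivity) (w := P ⟨x, y⟩) (N := N)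
      fun x' hx' => ⟨0, y, le_rfl, hy.le, le_rfl, h.cont_v _ _,
        fun t ht => ⟨⟨by linarith [hx'.1], by linarith [hx'.2]⟩, ht.1⟩,
        Or.inr ⟨hn x' hx', by
          rw [mul_div_cancel₀ _ (by positivity), dist_comm]
          exact infDist_le_dist_of_mem (h.bd x')⟩⟩
    nlinarith [mul_nonneg h3 hy.le]
  by_contra hn
  have := (h.qc x).ring h.K0 (h.dis x) (a := x - y / 6) (a' := x + y / 6) (b := y) (b' := y)
    (l := y / 7) (r := infDist (P ⟨x, y⟩) Γ / (2 ^ N * 2 ^ N)) (by positivity) (by positivity)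
    (fun z hz => ⟨⟨by linarith [hz.1.1], by linarith [hz.1.2]⟩, by
      have := hz.2.1; simp only [mem_preimage, mem_Ioi]; linarith⟩)
    (w := P ⟨x, y⟩) (z₁ := ⟨x, y⟩) (z₂ := ⟨x', y⟩) (N := N)
    ⟨⟨by linarith, by linarith⟩, le_rfl, le_rfl⟩ ⟨⟨hx'.1.le, hx'.2.le⟩, le_rfl, le_rfl⟩
    (by rw [dist_self]; positivity)
    (by rw [mul_div_assoc', mul_div_mul_left _ _ (by positivity)]; exact hd.le)
    fun hc => hn (hc.trans (image_mono fun z hz =>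
      ⟨⟨by linarith [hz.1.1], by linarith [hz.1.2]⟩, ⟨by linarith [hz.2.1], by linarith [hz.2.2]⟩⟩))
  nlinarith [mul_pos hy hy, mul_nonneg h3 (mul_pos hy hy).le]

theorem log_le (h : Side Γ P K) : ∃ A : ℝ, 0 < A ∧ ∀ x y : ℝ, 0 < y → y ≤ 1 / 2 →
    Real.log (1 / infDist (P ⟨x, y⟩) Γ) ≤ A * Real.log (1 / y) := by
  obtain ⟨N, hN⟩ := exists_nat_gt (2 * 10 ^ 8 * K)
  set M : ℝ := 2 ^ N + 2
  have hM : 1 ≤ M := by have : (0 : ℝ) < 2 ^ N := by positivity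
                        simp only [M]; linarith
  obtain ⟨z₀, hz₀, hmin⟩ := (isCompact_rect 0 (2 * π) (1 / 4) (1 / 2)).exists_isMinOn
    ⟨⟨0, 1 / 2⟩, ⟨le_rfl, by positivity⟩, by norm_num, le_rfl⟩
    (f := fun z => infDist (P z) Γ) ((continuous_infDist_pt Γ).comp_continuousOn
      (h.cont.mono fun z hz => le_trans (by norm_num) hz.2.1))
  set c := infDist (P z₀) Γ
  have hc : 0 < c := h.s_pos (by linarith [hz₀.2.1])
  have key : ∀ k : ℕ, ∀ x y : ℝ, 1 / 2 ^ (k + 2) ≤ y → y ≤ 1 / 2 →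
      c ≤ M ^ k * infDist (P ⟨x, y⟩) Γ := by
    intro k
    induction k with
    | zero =>
      intro x y h1 h2
      obtain ⟨j, hj⟩ := exists_int_mem_Ico x
      rw [pow_zero, one_mul, ← h.per_int j]
      exact hmin (a := ⟨_, y⟩) ⟨⟨hj.1, hj.2.le⟩, by norm_num at h1 ⊢; exact ⟨h1, by linarith⟩⟩
    | succ k ih =>
      intro x y h1 h2
      have hy : 0 < y := lt_of_lt_of_le (by positivity) h1
      have hs := h.s_pos (z := ⟨x, y⟩) hy
      rcases le_total (1 / 4) y with h3 | h3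
      · refine (ih x y (le_trans ?_ h3) h2).trans ?_
        · rw [pow_add]
          exact one_div_le_one_div_of_le (by norm_num)
            (by nlinarith [one_le_pow₀ (show (1 : ℝ) ≤ 2 by norm_num) (n := k)])
        · gcongr; omega
      · refine (ih x (2 * y) ?_ (by linarith)).trans ?_
        · rw [pow_succ, ← div_div] at h1; linarith
        · rw [pow_succ, mul_assoc]
          gcongr
          exact (h.harnack hN hy h2 (x := x) (z₁ := ⟨x, y⟩) (z₂ := ⟨x, 2 * y⟩)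
            ⟨⟨by linarith, by linarith⟩, ⟨by linarith, by linarith⟩⟩
            ⟨⟨by linarith, by linarith⟩, ⟨by linarith, by linarith⟩⟩).2
  have l2 : 0 < Real.log 2 := Real.log_pos (by norm_num)
  have lM : 0 ≤ Real.log M := Real.log_nonneg hM
  refine ⟨(|Real.log c| + Real.log M + 1) / Real.log 2, by positivity, fun x y hy hy' => ?_⟩
  obtain ⟨k, hk1, hk2⟩ := exists_nat_pow_near (show 1 ≤ 1 / y by
    rw [le_div_iff₀ hy]; linarith) (show (1 : ℝ) < 2 by norm_num)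
  have hs := h.s_pos (z := ⟨x, y⟩) hy
  have e1 := key k x y (by
    rw [div_lt_iff₀ hy] at hk2
    rw [div_le_iff₀ (by positivity), pow_succ]; nlinarith) hy'
  have e2 : k * Real.log 2 ≤ Real.log (1 / y) := by
    rw [← Real.log_pow]; exact Real.log_le_log (by positivity) hk1
  have e3 : Real.log 2 ≤ Real.log (1 / y) :=
    Real.log_le_log (by positivity) (by rw [le_div_iff₀ hy]; linarith)
  have e4 := Real.log_le_log hc e1
  rw [Real.log_mul (by positivity) hs.ne', Real.log_pow] at e4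
  rw [one_div (infDist _ _), Real.log_inv, div_mul_eq_mul_div, le_div_iff₀ l2]
  have e5 := neg_abs_le (Real.log c)
  nlinarith [abs_nonneg (Real.log c), mul_le_mul_of_nonneg_left e2 lM,
    mul_le_mul_of_nonneg_left e3 (abs_nonneg (Real.log c)), mul_le_mul_of_nonneg_right e4 l2.le,
    mul_le_mul_of_nonneg_right e5 l2.le]

theorem s_small (h : Side Γ P K) {ε : ℝ} (hε : 0 < ε) :
    ∃ η > 0, ∀ x y : ℝ, 0 ≤ y → y ≤ η → infDist (P ⟨x, y⟩) Γ ≤ ε := by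
  obtain ⟨η, hη, H⟩ := Metric.uniformContinuousOn_iff_le.1
    ((isCompact_rect 0 (2 * π) 0 1).uniformContinuousOn_of_continuous
      (h.cont.mono fun z hz => hz.2.1)) ε hε
  refine ⟨min η 1, by positivity, fun x y hy hy' => ?_⟩
  obtain ⟨j, hj⟩ := exists_int_mem_Ico x
  rw [← h.per_int j]
  refine (infDist_le_dist_of_mem (h.bd (x + j * (2 * π)))).trans (H _ ⟨⟨hj.1, hj.2.le⟩, hy,
    hy'.trans (min_le_right _ _)⟩ _ ⟨⟨hj.1, hj.2.le⟩, le_rfl, zero_le_one⟩ ?_)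
  rw [Complex.dist_of_re_eq (by rfl), Real.dist_eq]
  simpa [abs_of_nonneg hy] using hy'.trans (min_le_left _ _)

end Side

end Pool.Agent.P.MP_7f9008_an
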